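import Pool.Agent.HP.DefsC

/-! TUP (~100 lines): tuples with product in a short interval. Fix all coordinates but the last one, `P = a ∏_{i<v-1} x i`; if the last coordinate
`x ≥ W` has `P x ∈ (lo, hi]` then `P ≤ hi/W ≤ hi - lo`, so there are at most `(hi-lo)/P + 1 ≤ 2 (hi-lo)/P` such `x`. Sum over the others:
`∑ 1/∏ x i ≤ (1 + log B)^(v-1)`. -/

set_option autoImplicit false

namespace Pool.Agent.HP

open Finset

/-- the last coordinate: at most `2 (hi - lo) / P` values -/
theorem TUP_one (P W lo hi B : ℕ) (hP : 1 ≤ P) (hlh : lo ≤ hi) (hW : hi ≤ W * (hi - lo)) :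
    (((Finset.Icc 1 B).filter (fun k => lo < P * k ∧ P * k ≤ hi ∧ W ≤ k)).card : ℝ) ≤
      2 * ((hi : ℝ) - lo) / P := by
  have hPR : (0 : ℝ) < P := by exact_mod_cast hP
  have hlhR : (lo : ℝ) ≤ hi := by exact_mod_cast hlh
  rcases Finset.eq_empty_or_nonempty
    ((Finset.Icc 1 B).filter (fun k => lo < P * k ∧ P * k ≤ hi ∧ W ≤ k)) with h0 | ⟨k0, hk0⟩
  · rw [h0, Finset.card_empty]
    push_cast
    apply div_nonneg _ hPR.le
    linarith
  · rw [Finset.mem_filter] at hk0
    obtain ⟨-, h1, h2, h3⟩ := hk0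
    have hWpos : 0 < W := by
      rcases Nat.eq_zero_or_pos W with h | h
      · rw [h, zero_mul] at hW
        omega
      · exact h
    have hPd : P ≤ hi - lo := by
      have h4 : P * W ≤ (hi - lo) * W := by
        calc P * W ≤ P * k0 := Nat.mul_le_mul_left P h3
          _ ≤ hi := h2
          _ ≤ W * (hi - lo) := hW
          _ = (hi - lo) * W := Nat.mul_comm _ _
      exact Nat.le_of_mul_le_mul_right h4 hWpos
    have hPdR : (P : ℝ) ≤ (hi : ℝ) - lo := by
      have : (P : ℝ) ≤ ((hi - lo : ℕ) : ℝ) := by exact_mod_cast hPd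
      rwa [Nat.cast_sub hlh] at this
    have hsub : (Finset.Icc 1 B).filter (fun k => lo < P * k ∧ P * k ≤ hi ∧ W ≤ k) ⊆
        Finset.Ioc (lo / P) (hi / P) := by
      intro k hk
      rw [Finset.mem_filter] at hk
      rw [Finset.mem_Ioc]
      refine ⟨?_, ?_⟩
      · rw [Nat.div_lt_iff_lt_mul (by omega)]
        rw [Nat.mul_comm]
        exact hk.2.1
      · rw [Nat.le_div_iff_mul_le (by omega), Nat.mul_comm]
        exact hk.2.2.1
    have hcard := Finset.card_le_card hsub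
    rw [Nat.card_Ioc] at hcard
    have hmono : lo / P ≤ hi / P := Nat.div_le_div_right hlh
    have hcR : (((Finset.Icc 1 B).filter (fun k => lo < P * k ∧ P * k ≤ hi ∧ W ≤ k)).card : ℝ) ≤
        ((hi / P : ℕ) : ℝ) - ((lo / P : ℕ) : ℝ) := by
      rw [← Nat.cast_sub hmono]
      exact_mod_cast hcard
    have e1 : ((hi / P : ℕ) : ℝ) ≤ (hi : ℝ) / P := Nat.cast_div_le
    have e2 : (lo : ℝ) / P ≤ ((lo / P : ℕ) : ℝ) + 1 := by
      rw [div_le_iff₀ hPR]
      have h5 : lo < P * (lo / P) + P := by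
        have h6 := Nat.div_add_mod lo P
        have h7 := Nat.mod_lt lo (show P > 0 by omega)
        omega
      have h6 : (lo : ℝ) < P * ((lo / P : ℕ) : ℝ) + P := by exact_mod_cast h5
      linarith
    have e3 : (1 : ℝ) ≤ ((hi : ℝ) - lo) / P := by
      rw [le_div_iff₀ hPR, one_mul]
      exact hPdR
    have e4 : 2 * ((hi : ℝ) - lo) / P = ((hi : ℝ) / P - (lo : ℝ) / P) + ((hi : ℝ) - lo) / P := by
      field_simp
      ring
    rw [e4]
    linarith

theorem TUP_aux {n : ℕ} (a W lo hi B : ℕ) (ha : 1 ≤ a) (hB : 1 ≤ B) (hlh : lo ≤ hi)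
    (hW : hi ≤ W * (hi - lo)) :
    (((Fintype.piFinset (fun _ : Fin (n + 1) => Finset.Icc 1 B)).filter (fun x =>
      lo < a * ∏ i, x i ∧ a * ∏ i, x i ≤ hi ∧ W ≤ x (Fin.last n))).card : ℝ) ≤
      2 * ((hi : ℝ) - lo) / a * (1 + Real.log B) ^ n := by
  classical
  set S := (Fintype.piFinset (fun _ : Fin (n + 1) => Finset.Icc 1 B)).filter (fun x =>
      lo < a * ∏ i, x i ∧ a * ∏ i, x i ≤ hi ∧ W ≤ x (Fin.last n)) with hS
  have haR : (0 : ℝ) < a := by exact_mod_cast ha
  have hlhR : (lo : ℝ) ≤ hi := by exact_mod_cast hlh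
  have hmaps : ∀ x ∈ S, (fun i : Fin n => x i.castSucc) ∈
      Fintype.piFinset (fun _ : Fin n => Finset.Icc 1 B) := by
    intro x hx
    rw [hS, Finset.mem_filter, Fintype.mem_piFinset] at hx
    rw [Fintype.mem_piFinset]
    exact fun i => hx.1 _
  rw [Finset.card_eq_sum_card_fiberwise hmaps]
  push_cast
  have hfib : ∀ y ∈ Fintype.piFinset (fun _ : Fin n => Finset.Icc 1 B),
      ((S.filter (fun x => (fun i : Fin n => x i.castSucc) = y)).card : ℝ) ≤
        2 * ((hi : ℝ) - lo) / a * ∏ i, (1 / (y i : ℝ)) := by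
    intro y hy
    rw [Fintype.mem_piFinset] at hy
    have hy1 : ∀ i, 1 ≤ y i := fun i => (Finset.mem_Icc.1 (hy i)).1
    have hP : 1 ≤ a * ∏ i, y i :=
      Nat.mul_pos ha (Finset.prod_pos fun i _ => hy1 i)
    have hle : (S.filter (fun x => (fun i : Fin n => x i.castSucc) = y)).card ≤
        ((Finset.Icc 1 B).filter (fun k => lo < (a * ∏ i, y i) * k ∧
          (a * ∏ i, y i) * k ≤ hi ∧ W ≤ k)).card := by
      refine Finset.card_le_card_of_injOn (fun x => x (Fin.last n)) ?_ ?_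
      · intro x hx
        have hx1 := Finset.mem_filter.1 (Finset.mem_coe.1 hx)
        have hx2 := Finset.mem_filter.1 (hS ▸ hx1.1)
        have hprod : a * ∏ i, x i = (a * ∏ i, y i) * x (Fin.last n) := by
          rw [Fin.prod_univ_castSucc, ← hx1.2, mul_assoc]
        rw [Finset.mem_coe, Finset.mem_filter]
        refine ⟨Fintype.mem_piFinset.1 hx2.1 _, ?_, ?_, hx2.2.2.2⟩
        · rw [← hprod]; exact hx2.2.1
        · rw [← hprod]; exact hx2.2.2.1
      · intro x hx x' hx' h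
        have hx1 := (Finset.mem_filter.1 (Finset.mem_coe.1 hx)).2
        have hx1' := (Finset.mem_filter.1 (Finset.mem_coe.1 hx')).2
        funext i
        refine Fin.lastCases ?_ (fun j => ?_) i
        · exact h
        · have := congrFun (hx1.trans hx1'.symm) j
          exact this
    have h1 := TUP_one (a * ∏ i, y i) W lo hi B hP hlh hW
    have h2 : ((S.filter (fun x => (fun i : Fin n => x i.castSucc) = y)).card : ℝ) ≤
        (((Finset.Icc 1 B).filter (fun k => lo < (a * ∏ i, y i) * k ∧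
          (a * ∏ i, y i) * k ≤ hi ∧ W ≤ k)).card : ℝ) := by exact_mod_cast hle
    refine h2.trans (h1.trans (le_of_eq ?_))
    rw [Finset.prod_div_distrib, Finset.prod_const_one]
    push_cast
    rw [div_mul_div_comm, mul_one]
  refine (Finset.sum_le_sum hfib).trans ?_
  rw [← Finset.mul_sum, ← Finset.prod_univ_sum (fun _ : Fin n => Finset.Icc 1 B)
    (fun _ k => 1 / (k : ℝ)), Finset.prod_const, Finset.card_univ, Fintype.card_fin]
  refine mul_le_mul_of_nonneg_left ?_ (div_nonneg (by linarith) haR.le)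
  refine pow_le_pow_left₀ (Finset.sum_nonneg fun k _ => by positivity) ?_ n
  have h3 := harmonic_le_one_add_log B
  rw [harmonic_eq_sum_Icc] at h3
  push_cast at h3
  simpa only [one_div] using h3

theorem tup {v : ℕ} (hv : 1 ≤ v) (a W lo hi B : ℕ) (ha : 1 ≤ a) (hB : 1 ≤ B) (hlh : lo ≤ hi)
    (hW : hi ≤ W * (hi - lo)) :
    (((Fintype.piFinset (fun _ : Fin v => Finset.Icc 1 B)).filter (fun x =>
      lo < a * ∏ i, x i ∧ a * ∏ i, x i ≤ hi ∧ W ≤ x ⟨v - 1, by omega⟩)).card : ℝ) ≤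
      2 * ((hi : ℝ) - lo) / a * (1 + Real.log B) ^ (v - 1) := by
  obtain ⟨n, rfl⟩ : ∃ n, v = n + 1 := ⟨v - 1, by omega⟩
  exact TUP_aux a W lo hi B ha hB hlh hW

end Pool.Agent.HP
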