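import Pool.Agent.HP.GRD
import Pool.Agent.HP.TUP

/-! GVL (~80 lines): total volume of the cells. For every `l ∈ L` apply `grd`; the sets `∏ [10^(l i - 1), 10^(l i))`, `l ∈ L`, are pairwise
disjoint (`l i ≥ 1`) and contained in `[1, B]^v`; the last coordinate is `≥ 10^(l last - 1) ≥ W`. So the sum is at most the count of `tup` with
`lo' = lo - (hi-lo)`, `hi' = hi + (hi-lo)`, `hi' - lo' ≤ 3 (hi-lo)` and `≥ hi - lo`. -/

set_option autoImplicit false

namespace Pool.Agent.HP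

open Finset

open scoped Classical in
theorem gvl {v : ℕ} (hv : 1 ≤ v) (L : Finset (Fin v → ℕ)) (g : (Fin v → ℕ) → Fin v → ℕ)
    (G a T W lo hi B : ℕ) (hl : ∀ l ∈ L, ∀ i, 1 ≤ l i ∧ 10 ^ l i ≤ B ∧ W ≤ 10 ^ (l i - 1))
    (hg : ∀ l ∈ L, ∀ i, 1 ≤ g l i ∧ g l i * T ≤ 10 ^ (l i - 1)) (hlh : lo < hi) (ha : 1 ≤ a)
    (hT : 4 * v * hi ≤ T * (hi - lo)) (hW : 2 * hi ≤ W * (hi - lo)) :
    ∑ l ∈ L, ∑ j ∈ (Fintype.piFinset (fun _ : Fin v => Finset.range G)).filter (fun j =>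
        ∃ x : Fin v → ℕ, (∀ i, gs (l i) (g l i) (j i) ≤ x i ∧ x i < gs (l i) (g l i) (j i + 1)) ∧
          lo < a * ∏ i, x i ∧ a * ∏ i, x i ≤ hi),
      ∏ i, ((gs (l i) (g l i) (j i + 1) : ℝ) - gs (l i) (g l i) (j i)) ≤
      6 * ((hi : ℝ) - lo) / a * (1 + Real.log B) ^ (v - 1) := by
  have hlhR : (lo : ℝ) < hi := by exact_mod_cast hlh
  have ha0 : (0 : ℝ) < a := by exact_mod_cast ha
  have hlogB : 0 ≤ Real.log B := by
    rcases Nat.eq_zero_or_pos B with h | h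
    · simp [h]
    · exact Real.log_nonneg (by exact_mod_cast h)
  have hd : 0 < (hi : ℝ) - lo := by linarith
  rcases L.eq_empty_or_nonempty with he | ⟨l₀, hl₀⟩
  · rw [he, Finset.sum_empty]
    positivity
  have hB : 1 ≤ B := by
    have := (hl l₀ hl₀ ⟨0, by omega⟩).2.1
    have h1 : 1 ≤ 10 ^ l₀ ⟨0, by omega⟩ := Nat.one_le_pow _ _ (by norm_num)
    omega
  set S : (Fin v → ℕ) → Finset (Fin v → ℕ) := fun l =>
    (Fintype.piFinset (fun i => Finset.Ico (10 ^ (l i - 1)) (10 ^ l i))).filter (fun x =>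
        lo - (hi - lo) < a * ∏ i, x i ∧ a * ∏ i, x i ≤ hi + (hi - lo)) with hS
  have h1 : ∑ l ∈ L, ∑ j ∈ (Fintype.piFinset (fun _ : Fin v => Finset.range G)).filter (fun j =>
        ∃ x : Fin v → ℕ, (∀ i, gs (l i) (g l i) (j i) ≤ x i ∧ x i < gs (l i) (g l i) (j i + 1)) ∧
          lo < a * ∏ i, x i ∧ a * ∏ i, x i ≤ hi),
      ∏ i, ((gs (l i) (g l i) (j i + 1) : ℝ) - gs (l i) (g l i) (j i)) ≤
      ∑ l ∈ L, ((S l).card : ℝ) := by
    refine Finset.sum_le_sum fun l hlL => ?_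
    have := grd hv l (g l) G a T lo hi (fun i => (hl l hlL i).1) (fun i => (hg l hlL i).1)
      (fun i => (hg l hlL i).2) hlh ha hT
    convert this
  have hdisj : (L : Set (Fin v → ℕ)).PairwiseDisjoint S := by
    intro l hlL l' hlL' hne
    rw [Function.onFun, Finset.disjoint_left]
    intro x hx hx'
    rw [hS, Finset.mem_filter, Fintype.mem_piFinset] at hx hx'
    apply hne
    funext i
    have e1 := Finset.mem_Ico.1 (hx.1 i)
    have e2 := Finset.mem_Ico.1 (hx'.1 i)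
    have e3 := (hl l hlL i).1
    have e4 := (hl l' hlL' i).1
    by_contra hji
    rcases lt_or_gt_of_ne hji with h | h
    · have h3 : 10 ^ l i ≤ 10 ^ (l' i - 1) := Nat.pow_le_pow_right (by norm_num) (by omega)
      omega
    · have h3 : 10 ^ l' i ≤ 10 ^ (l i - 1) := Nat.pow_le_pow_right (by norm_num) (by omega)
      omega
  have h2 : ∑ l ∈ L, ((S l).card : ℝ) = ((L.biUnion S).card : ℝ) := by
    rw [Finset.card_biUnion (fun j hj j' hj' hne => hdisj hj hj' hne)]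
    push_cast
    rfl
  have h3 : (L.biUnion S).card ≤ ((Fintype.piFinset (fun _ : Fin v => Finset.Icc 1 B)).filter (fun x =>
      lo - (hi - lo) < a * ∏ i, x i ∧ a * ∏ i, x i ≤ hi + (hi - lo) ∧ W ≤ x ⟨v - 1, by omega⟩)).card := by
    apply Finset.card_le_card
    intro x hx
    rw [Finset.mem_biUnion] at hx
    obtain ⟨l, hlL, hx⟩ := hx
    rw [hS, Finset.mem_filter, Fintype.mem_piFinset] at hx
    rw [Finset.mem_filter, Fintype.mem_piFinset]
    refine ⟨?_, hx.2.1, hx.2.2, ?_⟩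
    · intro i
      have e1 := Finset.mem_Ico.1 (hx.1 i)
      have e2 := (hl l hlL i).2.1
      have e3 : 1 ≤ 10 ^ (l i - 1) := Nat.one_le_pow _ _ (by norm_num)
      rw [Finset.mem_Icc]
      omega
    · have e1 := Finset.mem_Ico.1 (hx.1 ⟨v - 1, by omega⟩)
      exact (hl l hlL _).2.2.trans e1.1
  have hlh' : lo - (hi - lo) ≤ hi + (hi - lo) := by omega
  have hW' : hi + (hi - lo) ≤ W * (hi + (hi - lo) - (lo - (hi - lo))) := by
    calc hi + (hi - lo) ≤ 2 * hi := by omega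
      _ ≤ W * (hi - lo) := hW
      _ ≤ _ := Nat.mul_le_mul_left _ (by omega)
  have h4 := tup hv a W (lo - (hi - lo)) (hi + (hi - lo)) B ha hB hlh' hW'
  have h5 : (((hi + (hi - lo) : ℕ) : ℝ)) - ((lo - (hi - lo) : ℕ) : ℝ) ≤ 3 * ((hi : ℝ) - lo) := by
    have h6 : hi + (hi - lo) + 3 * lo ≤ 3 * hi + (lo - (hi - lo)) := by omega
    have h7 : (((hi + (hi - lo) : ℕ) : ℝ)) + 3 * lo ≤ 3 * hi + ((lo - (hi - lo) : ℕ) : ℝ) := by
      exact_mod_cast h6
    linarith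
  have h3' : ((L.biUnion S).card : ℝ) ≤
      (((Fintype.piFinset (fun _ : Fin v => Finset.Icc 1 B)).filter (fun x =>
      lo - (hi - lo) < a * ∏ i, x i ∧ a * ∏ i, x i ≤ hi + (hi - lo) ∧
        W ≤ x ⟨v - 1, by omega⟩)).card : ℝ) := Nat.cast_le.2 h3
  have h6 : 2 * ((((hi + (hi - lo) : ℕ) : ℝ)) - ((lo - (hi - lo) : ℕ) : ℝ)) / a *
      (1 + Real.log B) ^ (v - 1) ≤ 6 * ((hi : ℝ) - lo) / a * (1 + Real.log B) ^ (v - 1) := by
    apply mul_le_mul_of_nonneg_right _ (by positivity)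
    apply div_le_div_of_nonneg_right _ ha0.le
    linarith
  exact h1.trans (h2.le.trans (h3'.trans (h4.trans h6)))

end Pool.Agent.HP
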