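import Pool.Agent.HP.Defs

/-! CAT (~150 lines): elementary properties of the concatenation map.
`f n = primeFactorsList.foldl decimalAppend 0`. First show by induction on a list `L` of positive numbers that
`L.foldl decimalAppend s = s * 10^(sum of dc) + L.foldl decimalAppend 0`. If all prime factors of `a` are `≤` all
prime factors of `b` then `(a*b).primeFactorsList = a.primeFactorsList ++ b.primeFactorsList`
(`Nat.primeFactorsList_unique` / `Nat.perm_primeFactorsList_mul` + sortedness). `lam_le`: `10^(dc p) ≤ p^4` for every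
prime `p` (`p = 2,3,5,7` by hand, `10^(dc p) ≤ 10 p ≤ p^2` for `p ≥ 11`), then multiplicativity (induction on the
factorisation list). `le_f`: `a*10^(dc b)+b ≥ a*b` (induction on the list; for `n = m t`, `t = gp n`, `m ≥ 2`:
`f n = f m * 10^(dc t) + t ≥ m t`). -/

set_option autoImplicit false

namespace Pool.Agent.HP

open Finset Nec92d717

theorem dc_spec {n : ℕ} (hn : 1 ≤ n) : 10 ^ (dc n - 1) ≤ n ∧ n < 10 ^ dc n ∧ 1 ≤ dc n := by
  have h0 : n ≠ 0 := by omega
  have h1 : dc n = (Nat.digits 10 n).length := by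
    unfold dc decimalDigitCount
    rw [if_neg h0]
  have h2 : n < 10 ^ (Nat.digits 10 n).length := Nat.lt_base_pow_length_digits (by norm_num)
  have h3 : 10 ^ (Nat.digits 10 n).length ≤ 10 * n := Nat.base_pow_length_digits_le 10 n (by norm_num) h0
  have h4 : (Nat.digits 10 n).length ≠ 0 := by
    intro h
    exact h0 (Nat.digits_eq_nil_iff_eq_zero.1 (List.length_eq_zero_iff.1 h))
  obtain ⟨m, hm⟩ : ∃ m, (Nat.digits 10 n).length = m + 1 := ⟨(Nat.digits 10 n).length - 1, by omega⟩
  rw [hm] at h2 h3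
  rw [h1, hm]
  refine ⟨?_, h2, by omega⟩
  rw [pow_succ] at h3
  rw [Nat.add_sub_cancel]
  omega

theorem cat_lt_dc (b : ℕ) : b < 10 ^ dc b := by
  rcases Nat.eq_zero_or_pos b with h | h
  · subst h
    positivity
  · exact (dc_spec h).2.1

theorem foldl_start (L : List ℕ) (s : ℕ) :
    L.foldl decimalAppend s = s * 10 ^ (L.map dc).sum + L.foldl decimalAppend 0 := by
  induction L generalizing s with
  | nil => simp
  | cons b L ih =>
    rw [List.foldl_cons, List.foldl_cons, ih (decimalAppend s b), ih (decimalAppend 0 b),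
      List.map_cons, List.sum_cons, pow_add]
    unfold decimalAppend
    change (s * 10 ^ dc b + b) * _ + _ = _ + ((0 * 10 ^ dc b + b) * _ + _)
    ring

theorem foldl_app (L M : List ℕ) : (L ++ M).foldl decimalAppend 0 =
    L.foldl decimalAppend 0 * 10 ^ (M.map dc).sum + M.foldl decimalAppend 0 := by
  rw [List.foldl_append, foldl_start M]

theorem foldl_lt (L : List ℕ) : L.foldl decimalAppend 0 < 10 ^ (L.map dc).sum := by
  induction L using List.reverseRecOn with
  | nil => simp
  | append_singleton L b ih =>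
    rw [foldl_app, List.map_append, List.sum_append, pow_add]
    have h1 : ([b].map dc).sum = dc b := by simp
    have h2 : [b].foldl decimalAppend 0 = b := by simp [decimalAppend]
    rw [h1, h2]
    have h3 := cat_lt_dc b
    have h4 : (L.foldl decimalAppend 0 + 1) * 10 ^ dc b ≤ 10 ^ (L.map dc).sum * 10 ^ dc b :=
      Nat.mul_le_mul_right _ ih
    rw [add_mul, one_mul] at h4
    omega

theorem f_one : f 1 = 0 ∧ lam 1 = 0 := by
  constructor
  · simp [f, primeFactorSplice]
  · simp [lam]

theorem f_prime {p : ℕ} (hp : p.Prime) : f p = p ∧ lam p = dc p := by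
  constructor
  · simp [f, primeFactorSplice, Nat.primeFactorsList_prime hp, decimalAppend]
  · simp [lam, Nat.primeFactorsList_prime hp]

theorem f_mul {a b : ℕ} (ha : a ≠ 0) (hb : b ≠ 0)
    (h : ∀ p q : ℕ, p.Prime → q.Prime → p ∣ a → q ∣ b → p ≤ q) :
    f (a * b) = f a * 10 ^ lam b + f b ∧ lam (a * b) = lam a + lam b := by
  have h1 : (a * b).primeFactorsList = a.primeFactorsList ++ b.primeFactorsList := by
    apply (Nat.perm_primeFactorsList_mul ha hb).eq_of_pairwise'
      (Nat.primeFactorsList_sorted _).pairwise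
    rw [List.pairwise_append]
    refine ⟨(Nat.primeFactorsList_sorted _).pairwise, (Nat.primeFactorsList_sorted _).pairwise, ?_⟩
    intro p hp q hq
    exact h p q (Nat.prime_of_mem_primeFactorsList hp) (Nat.prime_of_mem_primeFactorsList hq)
      (Nat.dvd_of_mem_primeFactorsList hp) (Nat.dvd_of_mem_primeFactorsList hq)
  constructor
  · change (a * b).primeFactorsList.foldl decimalAppend 0 = _
    rw [h1, foldl_app]
    rfl
  · unfold lam
    rw [h1, List.map_append, List.sum_append]

theorem f_lt {n : ℕ} (hn : 1 ≤ n) : f n < 10 ^ lam n := foldl_lt _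

theorem dc_le_pow {p : ℕ} (hp : p.Prime) : 10 ^ dc p ≤ p ^ 4 := by
  obtain ⟨h1, h2, h3⟩ := dc_spec hp.pos
  obtain ⟨m, hm⟩ : ∃ m, dc p = m + 1 := ⟨dc p - 1, by omega⟩
  rw [hm, Nat.add_sub_cancel] at h1
  rw [hm, pow_succ]
  have h4 := hp.two_le
  by_cases h5 : p < 10
  · have h6 : m = 0 := by
      by_contra h7
      have h8 : 10 ^ 1 ≤ 10 ^ m := Nat.pow_le_pow_right (by norm_num) (by omega)
      omega
    subst h6
    have h9 : 2 ^ 4 ≤ p ^ 4 := Nat.pow_le_pow_left h4 4
    norm_num at h9 ⊢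
    omega
  · have h6 : 10 ^ m * 10 ≤ p * p := Nat.mul_le_mul h1 (by omega)
    have h7 : p * p ≤ p ^ 4 := by
      rw [← pow_two]
      exact Nat.pow_le_pow_right (by omega) (by norm_num)
    omega

theorem lam_le {n : ℕ} (hn : 1 ≤ n) : 10 ^ lam n ≤ n ^ 4 := by
  have h1 : ∀ L : List ℕ, (∀ p ∈ L, p.Prime) → 10 ^ (L.map dc).sum ≤ L.prod ^ 4 := by
    intro L
    induction L with
    | nil => simp
    | cons b L ih =>
      intro hL
      rw [List.map_cons, List.sum_cons, List.prod_cons, pow_add, mul_pow]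
      exact Nat.mul_le_mul (dc_le_pow (hL b List.mem_cons_self))
        (ih fun p hp => hL p (List.mem_cons_of_mem b hp))
  have h2 := h1 n.primeFactorsList fun p hp => Nat.prime_of_mem_primeFactorsList hp
  rw [Nat.prod_primeFactorsList (by omega)] at h2
  exact h2

theorem gp_spec {n : ℕ} (hn : 2 ≤ n) :
    (gp n).Prime ∧ gp n ∣ n ∧ ∀ p : ℕ, p.Prime → p ∣ n → p ≤ gp n := by
  have h1 : n.primeFactors.Nonempty := Nat.nonempty_primeFactors.2 (by omega)
  obtain ⟨i, hi, h2⟩ := Finset.exists_mem_eq_sup n.primeFactors h1 id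
  have h3 : gp n = i := h2
  rw [h3]
  refine ⟨Nat.prime_of_mem_primeFactors hi, Nat.dvd_of_mem_primeFactors hi, ?_⟩
  intro p hp hpn
  rw [← h3]
  exact Finset.le_sup (f := id) (Nat.mem_primeFactors.2 ⟨hp, hpn, by omega⟩)

/-- Also for `n` prime, where `n / gp n = 1` and `f 1 = 0`. -/
theorem f_gp {n : ℕ} (hn : 2 ≤ n) : f n = f (n / gp n) * 10 ^ dc (gp n) + gp n := by
  obtain ⟨h1, h2, h3⟩ := gp_spec hn
  have h4 : n / gp n * gp n = n := Nat.div_mul_cancel h2
  have h5 : n / gp n ≠ 0 := by
    intro h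
    rw [h, zero_mul] at h4
    omega
  have h6 := (f_mul (a := n / gp n) (b := gp n) h5 h1.ne_zero (by
    intro p q hp hq hpa hqb
    rw [(Nat.prime_dvd_prime_iff_eq hq h1).1 hqb]
    exact h3 p hp (hpa.trans ⟨gp n, h4.symm⟩))).1
  rw [h4, (f_prime h1).1, (f_prime h1).2] at h6
  exact h6

theorem le_f {n : ℕ} (hn : 2 ≤ n) : n ≤ f n := by
  induction n using Nat.strong_induction_on with
  | _ n ih =>
    obtain ⟨h1, h2, h3⟩ := gp_spec hn
    have h4 : n / gp n * gp n = n := Nat.div_mul_cancel h2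
    rw [f_gp hn]
    have h5 : n / gp n ≠ 0 := by
      intro h
      rw [h, zero_mul] at h4
      omega
    by_cases h6 : n / gp n = 1
    · rw [h6, one_mul] at h4
      omega
    · have h7 : n / gp n < n := Nat.div_lt_self (by omega) h1.one_lt
      have h8 := ih _ h7 ((Nat.two_le_iff _).2 ⟨h5, h6⟩)
      have h9 := cat_lt_dc (gp n)
      calc n = n / gp n * gp n := h4.symm
        _ ≤ f (n / gp n) * 10 ^ dc (gp n) := Nat.mul_le_mul h8 h9.le
        _ ≤ _ := Nat.le_add_right _ _

end Pool.Agent.HP
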