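import Pool.Agent.PnMn.SumInv

/-! DEL (~80 lines): `∏_{p ∣ Δ} (1 + k/p) ≤ exp(k ∑_{p ∣ Δ} 1/p)` and
`∑_{p ∣ Δ} 1/p ≤ ∑_{p ≤ E} 1/p + ω(Δ)/E ≤ log log E + C + 4K`, as `ω(Δ) ≤ log₂ Δ ≤ 4 K E`
(`Pool.Agent.PnMn.SumInvPrimes`, proved in `Pool/Agent/PnMn/SumInv.lean`). -/

set_option autoImplicit false

namespace Pool.Agent.HP

open Finset

/-- number of prime factors -/
lemma two_pow_card_le {Δ : ℕ} (h : 1 ≤ Δ) : 2 ^ Δ.primeFactors.card ≤ Δ := by
  calc 2 ^ Δ.primeFactors.card = ∏ p ∈ Δ.primeFactors, 2 := by simp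
    _ ≤ ∏ p ∈ Δ.primeFactors, p :=
        Finset.prod_le_prod' (fun p hp => (Nat.prime_of_mem_primeFactors hp).two_le)
    _ ≤ Δ := Nat.le_of_dvd (by omega) (Nat.prod_primeFactors_dvd Δ)

theorem del (k : ℕ) (K : ℝ) (hK : 0 < K) : ∃ C : ℝ, 0 < C ∧ ∀ E Δ : ℕ, 3 ≤ E → 1 ≤ Δ →
    (Δ : ℝ) ≤ (10 : ℝ) ^ (K * E) →
    ∏ p ∈ Δ.primeFactors, (1 + (k : ℝ) / p) ≤ C * Real.log E ^ k := by
  obtain ⟨C0, hC0⟩ := Pool.Agent.PnMn.sumInvPrimes
  refine ⟨Real.exp (k * (C0 + 4 * K)), Real.exp_pos _, fun E Δ hE hΔ hle => ?_⟩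
  have hE0 : (0 : ℝ) < E := by exact_mod_cast (by omega : 0 < E)
  have hE3 : (3 : ℝ) ≤ E := by exact_mod_cast hE
  have hlogE : 0 < Real.log E := Real.log_pos (by linarith)
  have hcard : (Δ.primeFactors.card : ℝ) ≤ 4 * K * E := by
    have h1 : (2 : ℝ) ^ (Δ.primeFactors.card : ℝ) ≤ (2 : ℝ) ^ (4 * K * E) := by
      rw [Real.rpow_natCast]
      calc (2 : ℝ) ^ Δ.primeFactors.card ≤ (Δ : ℝ) := by exact_mod_cast two_pow_card_le hΔ
        _ ≤ (10 : ℝ) ^ (K * E) := hle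
        _ ≤ (16 : ℝ) ^ (K * E) := Real.rpow_le_rpow (by norm_num) (by norm_num) (by positivity)
        _ = (2 : ℝ) ^ (4 * K * E) := by
            rw [show (16 : ℝ) = 2 ^ (4 : ℝ) by norm_num, ← Real.rpow_mul (by norm_num)]
            congr 1; ring
    exact (Real.rpow_le_rpow_left_iff (by norm_num)).mp h1
  have hsum : ∑ p ∈ Δ.primeFactors, (1 : ℝ) / p ≤ Real.log (Real.log E) + (C0 + 4 * K) := by
    rw [← Finset.sum_filter_add_sum_filter_not Δ.primeFactors (fun p => p ≤ E)]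
    have h1 : ∑ p ∈ Δ.primeFactors.filter (fun p => p ≤ E), (1 : ℝ) / p ≤
        Real.log (Real.log E) + C0 := by
      refine le_trans ?_ (hC0 E (by omega))
      apply Finset.sum_le_sum_of_subset_of_nonneg
      · intro p hp
        rw [Finset.mem_filter] at hp
        have hpp := Nat.prime_of_mem_primeFactors hp.1
        rw [Finset.mem_filter, Finset.mem_Icc]
        exact ⟨⟨hpp.one_lt.le, hp.2⟩, hpp⟩
      · intro p _ _
        positivity
    have h2 : ∑ p ∈ Δ.primeFactors.filter (fun p => ¬ p ≤ E), (1 : ℝ) / p ≤ 4 * K := by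
      have h3 : ∀ p ∈ Δ.primeFactors.filter (fun p => ¬ p ≤ E), (1 : ℝ) / p ≤ 1 / E := by
        intro p hp
        rw [Finset.mem_filter] at hp
        apply one_div_le_one_div_of_le hE0
        exact_mod_cast (not_le.mp hp.2).le
      refine (Finset.sum_le_sum h3).trans ?_
      rw [Finset.sum_const, nsmul_eq_mul]
      have h4 : ((Δ.primeFactors.filter (fun p => ¬ p ≤ E)).card : ℝ) ≤ Δ.primeFactors.card := by
        exact_mod_cast Finset.card_filter_le _ _
      calc ((Δ.primeFactors.filter (fun p => ¬ p ≤ E)).card : ℝ) * (1 / E)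
          ≤ (4 * K * E) * (1 / E) :=
            mul_le_mul_of_nonneg_right (h4.trans hcard) (by positivity)
        _ = 4 * K := by field_simp
    linarith
  calc ∏ p ∈ Δ.primeFactors, (1 + (k : ℝ) / p)
      ≤ ∏ p ∈ Δ.primeFactors, Real.exp ((k : ℝ) * (1 / p)) := by
        apply Finset.prod_le_prod
        · intro p _; positivity
        · intro p _
          have := Real.add_one_le_exp ((k : ℝ) * (1 / p))
          rw [mul_one_div] at this ⊢
          linarith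
    _ = Real.exp ((k : ℝ) * ∑ p ∈ Δ.primeFactors, (1 : ℝ) / p) := by
        rw [← Real.exp_sum, Finset.mul_sum]
    _ ≤ Real.exp ((k : ℝ) * (Real.log (Real.log E) + (C0 + 4 * K))) := by
        apply Real.exp_le_exp.mpr
        exact mul_le_mul_of_nonneg_left hsum (Nat.cast_nonneg k)
    _ = Real.exp (k * (C0 + 4 * K)) * Real.log E ^ k := by
        rw [mul_add, Real.exp_add, mul_comm, Real.exp_nat_mul (Real.log (Real.log E)) k,
          Real.exp_log hlogE]

end Pool.Agent.HP
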