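import Pool.Agent.HP.Defs

/-! FAR (~80 lines): Farey fractions. Two different reduced fractions with denominators `< Q` differ by more than
`1/Q^2`; those with `⌊T b/m⌋ = u` lie in `[u/T, (u+1)/T)`. Hence at most `1 + Q^2/T` of them (a set of reals in an
interval of length `L` with gaps `≥ g` has at most `1 + L/g` elements; e.g. map `b/m` to `⌊Q^2 (b/m - u/T)⌋`,
which is injective with values in `[0, Q^2/T)`). -/

set_option autoImplicit false

namespace Pool.Agent.HP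

open Finset

theorem far_gap {Q m b m' b' : ℕ} (hm : m < Q) (hm' : m' < Q) (h2 : 0 < m) (h2' : 0 < m')
    (hne : b * m' ≠ b' * m) : 1 < |(Q : ℝ) ^ 2 * ((b : ℝ) / m) - (Q : ℝ) ^ 2 * ((b' : ℝ) / m')| := by
  have hm0 : (0 : ℝ) < m := by exact_mod_cast h2
  have hm0' : (0 : ℝ) < m' := by exact_mod_cast h2'
  have hint : (1 : ℝ) ≤ |(b : ℝ) * m' - (b' : ℝ) * m| := by
    have h : (1 : ℤ) ≤ |(b : ℤ) * m' - (b' : ℤ) * m| := by
      refine Int.one_le_abs ?_
      intro h0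
      apply hne
      have h1 : (b : ℤ) * m' = (b' : ℤ) * m := by linarith
      exact_mod_cast h1
    have h3 : ((1 : ℤ) : ℝ) ≤ ((|(b : ℤ) * m' - (b' : ℤ) * m| : ℤ) : ℝ) := by exact_mod_cast h
    push_cast at h3
    exact h3
  have heq : (Q : ℝ) ^ 2 * ((b : ℝ) / m) - (Q : ℝ) ^ 2 * ((b' : ℝ) / m') =
      (Q : ℝ) ^ 2 / (m * m') * ((b : ℝ) * m' - (b' : ℝ) * m) := by
    field_simp
  rw [heq, abs_mul, abs_of_nonneg (by positivity)]
  have hlt : (1 : ℝ) < (Q : ℝ) ^ 2 / (m * m') := by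
    rw [lt_div_iff₀ (by positivity), one_mul]
    have h1 : (m : ℝ) < Q := by exact_mod_cast hm
    have h1' : (m' : ℝ) < Q := by exact_mod_cast hm'
    nlinarith
  nlinarith

theorem far (Q T u : ℕ) (hT : 1 ≤ T) :
    (((Finset.range Q ×ˢ Finset.range Q).filter (fun z : ℕ × ℕ =>
      2 ≤ z.1 ∧ 1 ≤ z.2 ∧ z.2 < z.1 ∧ z.1.Coprime z.2 ∧ T * z.2 / z.1 = u)).card : ℝ) ≤
      1 + (Q : ℝ) ^ 2 / T := by
  have hT0 : (0 : ℝ) < T := by exact_mod_cast hT
  set φ : ℕ × ℕ → ℕ := fun z => ⌊(Q : ℝ) ^ 2 * ((z.2 : ℝ) / z.1) - (Q : ℝ) ^ 2 * (u / T)⌋₊ with hφ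
  have hcard : ((Finset.range Q ×ˢ Finset.range Q).filter (fun z : ℕ × ℕ =>
      2 ≤ z.1 ∧ 1 ≤ z.2 ∧ z.2 < z.1 ∧ z.1.Coprime z.2 ∧ T * z.2 / z.1 = u)).card ≤
      (Finset.range ⌈(Q : ℝ) ^ 2 / T⌉₊).card := by
    refine Finset.card_le_card_of_injOn φ ?_ ?_
    · rintro ⟨m, b⟩ hz
      simp only [Finset.coe_filter, Finset.mem_product, Finset.mem_range, Set.mem_setOf_eq] at hz
      obtain ⟨⟨hmQ, hbQ⟩, h2, h1, hlt, hco, hu⟩ := hz
      have hm0 : (0 : ℝ) < m := by exact_mod_cast (by omega : 0 < m)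
      have hup : T * b < (u + 1) * m := by
        rw [← hu]
        exact Nat.lt_mul_of_div_lt (Nat.lt_succ_self _) (by omega)
      have hupR : (T : ℝ) * b < (u + 1) * m := by exact_mod_cast hup
      have hQ0 : (0 : ℝ) < (Q : ℝ) ^ 2 := by
        have : (0 : ℝ) < Q := by exact_mod_cast (by omega : 0 < Q)
        positivity
      have h3 : (b : ℝ) / m - u / T < 1 / T := by
        rw [sub_lt_iff_lt_add, ← add_div, div_lt_div_iff₀ hm0 hT0]
        linarith
      have h4 : (Q : ℝ) ^ 2 * ((b : ℝ) / m) - (Q : ℝ) ^ 2 * (u / T) < (Q : ℝ) ^ 2 / T := by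
        rw [← mul_sub]
        calc (Q : ℝ) ^ 2 * ((b : ℝ) / m - u / T) < (Q : ℝ) ^ 2 * (1 / T) :=
              mul_lt_mul_of_pos_left h3 hQ0
          _ = (Q : ℝ) ^ 2 / T := by ring
      simp only [Finset.coe_range, Set.mem_Iio, hφ]
      have hpos : (0 : ℝ) < (Q : ℝ) ^ 2 / T := by positivity
      exact (Nat.floor_lt' (Nat.ceil_pos.2 hpos).ne').2 (h4.trans_le (Nat.le_ceil _))
    · rintro ⟨m, b⟩ hz ⟨m', b'⟩ hz' heq
      simp only [Finset.coe_filter, Finset.mem_product, Finset.mem_range, Set.mem_setOf_eq] at hz hz'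
      obtain ⟨⟨hmQ, hbQ⟩, h2, h1, hlt, hco, hu⟩ := hz
      obtain ⟨⟨hmQ', hbQ'⟩, h2', h1', hlt', hco', hu'⟩ := hz'
      by_contra hne
      have hcross : b * m' ≠ b' * m := by
        intro hc
        apply hne
        have hd1 : m ∣ m' := by
          have : m ∣ b * m' := hc ▸ Dvd.intro_left b' rfl
          exact hco.dvd_of_dvd_mul_left this
        have hd2 : m' ∣ m := by
          have : m' ∣ b' * m := hc ▸ Dvd.intro_left b rfl
          exact hco'.dvd_of_dvd_mul_left this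
        have hmm : m = m' := Nat.dvd_antisymm hd1 hd2
        subst hmm
        have hbb : b = b' := Nat.eq_of_mul_eq_mul_right (by omega) hc
        rw [hbb]
      have hgap := far_gap hmQ hmQ' (by omega : 0 < m) (by omega : 0 < m') hcross
      simp only [hφ] at heq
      have hm0 : (0 : ℝ) < m := by exact_mod_cast (by omega : 0 < m)
      have hm0' : (0 : ℝ) < m' := by exact_mod_cast (by omega : 0 < m')
      have hlow : (u : ℝ) / T ≤ (b : ℝ) / m := by
        have h5 : u * m ≤ T * b := by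
          rw [← hu]
          exact Nat.div_mul_le_self _ _
        have h5R : (u : ℝ) * m ≤ T * b := by exact_mod_cast h5
        rw [div_le_div_iff₀ hT0 hm0]
        linarith
      have hlow' : (u : ℝ) / T ≤ (b' : ℝ) / m' := by
        have h5 : u * m' ≤ T * b' := by
          rw [← hu']
          exact Nat.div_mul_le_self _ _
        have h5R : (u : ℝ) * m' ≤ T * b' := by exact_mod_cast h5
        rw [div_le_div_iff₀ hT0 hm0']
        linarith
      have hn : (0 : ℝ) ≤ (Q : ℝ) ^ 2 * ((b : ℝ) / m) - (Q : ℝ) ^ 2 * (u / T) := by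
        rw [← mul_sub]
        exact mul_nonneg (by positivity) (by linarith)
      have hn' : (0 : ℝ) ≤ (Q : ℝ) ^ 2 * ((b' : ℝ) / m') - (Q : ℝ) ^ 2 * (u / T) := by
        rw [← mul_sub]
        exact mul_nonneg (by positivity) (by linarith)
      have e1 := Nat.floor_le hn
      have e2 := Nat.lt_floor_add_one ((Q : ℝ) ^ 2 * ((b : ℝ) / m) - (Q : ℝ) ^ 2 * (u / T))
      have e3 := Nat.floor_le hn'
      have e4 := Nat.lt_floor_add_one ((Q : ℝ) ^ 2 * ((b' : ℝ) / m') - (Q : ℝ) ^ 2 * (u / T))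
      rw [heq] at e1 e2
      have : |(Q : ℝ) ^ 2 * ((b : ℝ) / m) - (Q : ℝ) ^ 2 * ((b' : ℝ) / m')| < 1 := by
        rw [abs_lt]
        constructor <;> linarith
      linarith
  rw [Finset.card_range] at hcard
  have h6 : (⌈(Q : ℝ) ^ 2 / T⌉₊ : ℝ) < (Q : ℝ) ^ 2 / T + 1 := Nat.ceil_lt_add_one (by positivity)
  have h7 : (((Finset.range Q ×ˢ Finset.range Q).filter (fun z : ℕ × ℕ =>
      2 ≤ z.1 ∧ 1 ≤ z.2 ∧ z.2 < z.1 ∧ z.1.Coprime z.2 ∧ T * z.2 / z.1 = u)).card : ℝ) ≤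
      (⌈(Q : ℝ) ^ 2 / T⌉₊ : ℝ) := by exact_mod_cast hcard
  linarith

end Pool.Agent.HP
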