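import Pool.Agent.HP.CEL
import Pool.Agent.HP.FAR

/-! PSM (~80 lines): sum over all reduced fractions with denominators `< Q`. By `cell`
`Pf l (b/m) ≤ ∏ Gc (block i of u)`, `u = ⌊10^E b/m⌋ = 10^E * b / m` (natural division) `< 10^E`; group by `u` (`far`
with `T = 10^E`), then `prodG` and `sumG`. (`cell` bounds are nonnegative: `Gc ≥ 0`.) -/

set_option autoImplicit false

namespace Pool.Agent.HP

open Finset

theorem Gc_nonneg (l c : ℕ) : 0 ≤ Gc l c := by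
  unfold Gc
  split_ifs <;> positivity

theorem psm {v : ℕ} (l : Fin v → ℕ) (Q : ℕ) :
    ∑ m ∈ Finset.Ico 2 Q, ∑ b ∈ (Finset.Ico 1 m).filter (fun b => m.Coprime b),
      Pf l ((b : ℝ) / m) ≤
      ((10 : ℝ) ^ (∑ i, l i) + (Q : ℝ) ^ 2) * ∏ i, (3 * ((l i : ℝ) + 1)) := by
  set E := ∑ i, l i with hE
  set H : ℕ → ℝ := fun u => ∏ i, Gc (l i) (blk (∑ j ∈ Finset.Iio i, l j) (l i) u) with hH
  have hH0 : ∀ u, 0 ≤ H u := fun u => Finset.prod_nonneg fun i _ => Gc_nonneg _ _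
  set Z : Finset (ℕ × ℕ) := (Finset.range Q ×ˢ Finset.range Q).filter (fun z : ℕ × ℕ =>
      2 ≤ z.1 ∧ 1 ≤ z.2 ∧ z.2 < z.1 ∧ z.1.Coprime z.2) with hZ
  -- the double sum is a sum over Z
  have h1 : ∑ m ∈ Finset.Ico 2 Q, ∑ b ∈ (Finset.Ico 1 m).filter (fun b => m.Coprime b),
      Pf l ((b : ℝ) / m) = ∑ z ∈ Z, Pf l ((z.2 : ℝ) / z.1) := by
    rw [Finset.sum_sigma']
    refine Finset.sum_bij' (fun x _ => (x.1, x.2)) (fun z _ => ⟨z.1, z.2⟩) ?_ ?_ ?_ ?_ ?_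
    · rintro ⟨m, b⟩ hx
      simp only [Finset.mem_sigma, Finset.mem_filter, Finset.mem_Ico] at hx
      simp only [hZ, Finset.mem_filter, Finset.mem_product, Finset.mem_range]
      refine ⟨⟨?_, ?_⟩, ?_, ?_, ?_, ?_⟩ <;> first | omega | exact hx.2.2
    · rintro ⟨m, b⟩ hx
      simp only [hZ, Finset.mem_filter, Finset.mem_product, Finset.mem_range] at hx
      simp only [Finset.mem_sigma, Finset.mem_filter, Finset.mem_Ico]
      refine ⟨⟨?_, ?_⟩, ⟨?_, ?_⟩, ?_⟩ <;> first | omega | exact hx.2.2.2.2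
    · rintro ⟨m, b⟩ _; rfl
    · rintro ⟨m, b⟩ _; rfl
    · rintro ⟨m, b⟩ _; rfl
  rw [h1]
  -- pointwise bound
  have h2 : ∀ z ∈ Z, Pf l ((z.2 : ℝ) / z.1) ≤ H (10 ^ E * z.2 / z.1) := by
    rintro ⟨m, b⟩ hz
    simp only [hZ, Finset.mem_filter, Finset.mem_product, Finset.mem_range] at hz
    obtain ⟨_, hm2, hb1, hbm, _⟩ := hz
    have hm0 : (0 : ℝ) < m := by exact_mod_cast (by omega : 0 < m)
    have hb : (b : ℝ) < m := by exact_mod_cast hbm
    have h3 := cell l ((b : ℝ) / m) (by positivity) ((div_lt_one hm0).2 hb)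
    have h4 : ⌊(10 : ℝ) ^ (∑ i, l i) * ((b : ℝ) / m)⌋₊ = 10 ^ E * b / m := by
      rw [← mul_div_assoc, ← hE]
      have : ((10 : ℝ) ^ E * b) = ((10 ^ E * b : ℕ) : ℝ) := by push_cast; ring
      rw [this, Nat.floor_div_natCast, Nat.floor_natCast]
    rw [h4] at h3
    exact h3
  have hmaps : ∀ z ∈ Z, 10 ^ E * z.2 / z.1 ∈ Finset.range (10 ^ E) := by
    rintro ⟨m, b⟩ hz
    simp only [hZ, Finset.mem_filter, Finset.mem_product, Finset.mem_range] at hz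
    obtain ⟨_, hm2, hb1, hbm, _⟩ := hz
    rw [Finset.mem_range]
    show 10 ^ E * b / m < 10 ^ E
    rw [Nat.div_lt_iff_lt_mul (by omega)]
    exact Nat.mul_lt_mul_of_pos_left hbm (by positivity)
  calc ∑ z ∈ Z, Pf l ((z.2 : ℝ) / z.1) ≤ ∑ z ∈ Z, H (10 ^ E * z.2 / z.1) :=
        Finset.sum_le_sum h2
    _ = ∑ u ∈ Finset.range (10 ^ E), ∑ z ∈ Z.filter (fun z => 10 ^ E * z.2 / z.1 = u),
          H (10 ^ E * z.2 / z.1) := (Finset.sum_fiberwise_of_maps_to hmaps _).symm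
    _ = ∑ u ∈ Finset.range (10 ^ E), ((Z.filter (fun z => 10 ^ E * z.2 / z.1 = u)).card : ℝ) *
          H u := by
        refine Finset.sum_congr rfl fun u _ => ?_
        rw [← nsmul_eq_mul, ← Finset.sum_const]
        refine Finset.sum_congr rfl fun z hz => ?_
        rw [(Finset.mem_filter.1 hz).2]
    _ ≤ ∑ u ∈ Finset.range (10 ^ E), (1 + (Q : ℝ) ^ 2 / (10 : ℝ) ^ E) * H u := by
        refine Finset.sum_le_sum fun u _ => mul_le_mul_of_nonneg_right ?_ (hH0 u)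
        have h5 := far Q (10 ^ E) u (Nat.one_le_iff_ne_zero.2 (by positivity))
        push_cast at h5
        refine le_trans ?_ h5
        have h6 : Z.filter (fun z => 10 ^ E * z.2 / z.1 = u) =
            (Finset.range Q ×ˢ Finset.range Q).filter (fun z : ℕ × ℕ =>
              2 ≤ z.1 ∧ 1 ≤ z.2 ∧ z.2 < z.1 ∧ z.1.Coprime z.2 ∧ 10 ^ E * z.2 / z.1 = u) := by
          ext z
          simp only [hZ, Finset.mem_filter]
          tauto
        rw [h6]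
    _ = (1 + (Q : ℝ) ^ 2 / (10 : ℝ) ^ E) * ∏ i, ∑ c ∈ Finset.range (10 ^ l i), Gc (l i) c := by
        rw [← Finset.mul_sum, hH, hE, prodG l (fun i c => Gc (l i) c)]
    _ ≤ (1 + (Q : ℝ) ^ 2 / (10 : ℝ) ^ E) * ∏ i, (3 * ((l i : ℝ) + 1) * (10 : ℝ) ^ l i) := by
        refine mul_le_mul_of_nonneg_left ?_ (by positivity)
        refine Finset.prod_le_prod (fun i _ => Finset.sum_nonneg fun c _ => Gc_nonneg _ _) ?_
        intro i _
        exact sumG (l i)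
    _ = ((10 : ℝ) ^ E + (Q : ℝ) ^ 2) * ∏ i, (3 * ((l i : ℝ) + 1)) := by
        rw [Finset.prod_mul_distrib, Finset.prod_pow_eq_pow_sum, ← hE]
        field_simp

end Pool.Agent.HP
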