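import Pool.Agent.HP.RED
import Pool.Agent.HP.PSM

/-! SUW (~150 lines): the sum of the errors. `E = ∑ l`, `M = ⌊10^((1-δ)E)⌋`. By `red` with `F = Pf l`
(`Pf_nonneg`) it suffices to bound `(1 + log M) ∑_{2≤m≤M} (1/m) ∑_{b reduced} Pf l (b/m)`. Assume `η ≤ 1`, `δ ≤ 1` (else
trivial or `E₀` large; if `M = 0` nothing to prove). For `m ≤ 10^(ηE/4)` use `sml`: the part is
`≤ ∑_m ∑_b 10^((1-η)E) ≤ 10^(ηE/2) 10^((1-η)E)`. For `10^j ≤ m < 10^(j+1)`, `j ≥ ηE/4 - 1`, `j ≤ (1-δ)E`: `psm` with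
`Q = 10^(j+1)` gives `≤ 10^(-j) (10^E + 10^(2j+2)) (3(E+1))^v ≤ (10^(E-j) + 10^(j+2)) (3(E+1))^v`. Number of `j` is
`≤ E+1`. With `c = min(η,δ)/8` everything is `≤ 10^((1-c)E)` for large `E`. -/

set_option autoImplicit false

namespace Pool.Agent.HP

open Finset Filter

theorem suw_poly (v : ℕ) (c : ℝ) (hc : 0 < c) : ∃ E₀ : ℕ, ∀ E : ℕ, E₀ ≤ E →
    333 * ((E : ℝ) + 1) ^ 2 * (3 * ((E : ℝ) + 1)) ^ v ≤ (10 : ℝ) ^ (c * (E : ℝ)) := by
  set r : ℝ := (10 : ℝ) ^ c with hr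
  have hr1 : 1 < r := Real.one_lt_rpow (by norm_num) hc
  have hr0 : 0 < r := by linarith
  have ht := tendsto_pow_const_div_const_pow_of_one_lt (v + 2) hr1
  have hε : (0 : ℝ) < 1 / (333 * 3 ^ v * r) := by positivity
  have hev := ht.eventually (gt_mem_nhds hε)
  obtain ⟨N, hN⟩ := eventually_atTop.1 hev
  refine ⟨N, fun E hE => ?_⟩
  have h1 := hN (E + 1) (by omega)
  rw [div_lt_div_iff₀ (by positivity) (by positivity), one_mul] at h1
  push_cast at h1
  have h2 : (10 : ℝ) ^ (c * (E : ℝ)) = r ^ E := by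
    rw [hr, ← Real.rpow_natCast, ← Real.rpow_mul (by norm_num)]
  rw [h2]
  have h3 : r * (333 * ((E : ℝ) + 1) ^ 2 * (3 * ((E : ℝ) + 1)) ^ v) ≤ r * r ^ E := by
    calc r * (333 * ((E : ℝ) + 1) ^ 2 * (3 * ((E : ℝ) + 1)) ^ v)
        = ((E : ℝ) + 1) ^ (v + 2) * (333 * 3 ^ v * r) := by
          rw [mul_pow, pow_add]
          ring
      _ ≤ r ^ (E + 1) := h1.le
      _ = r * r ^ E := by rw [pow_succ]; ring
  exact le_of_mul_le_mul_left h3 hr0

/-- reduced fractions with denominator `m` -/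
noncomputable def aM {v : ℕ} (l : Fin v → ℕ) (m : ℕ) : ℝ :=
  ∑ b ∈ (Finset.Ico 1 m).filter (fun b => m.Coprime b), Pf l ((b : ℝ) / m)

theorem aM_nonneg {v : ℕ} (l : Fin v → ℕ) (m : ℕ) : 0 ≤ aM l m :=
  Finset.sum_nonneg fun _ _ => Pf_nonneg _ _

theorem aM_small {v : ℕ} (hv : 1 ≤ v) (l : Fin v → ℕ) (m : ℕ) (hm : 1 ≤ m) :
    aM l m / m ≤ m * ((10 : ℝ) ^ (∑ i, l i) / (10 : ℝ) ^ l ⟨v - 1, by omega⟩) := by
  have hm0 : (0 : ℝ) < m := by exact_mod_cast hm
  have h1 : aM l m ≤ ((Finset.Ico 1 m).filter (fun b => m.Coprime b)).card •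
      (m * (10 : ℝ) ^ (∑ i, l i) / (10 : ℝ) ^ l ⟨v - 1, by omega⟩) := by
    refine Finset.sum_le_card_nsmul _ _ _ ?_
    intro b hb
    rw [Finset.mem_filter, Finset.mem_Ico] at hb
    exact sml hv l m b hb.1.1 hb.1.2
  have h2 : (((Finset.Ico 1 m).filter (fun b => m.Coprime b)).card : ℝ) ≤ m := by
    have h3 : ((Finset.Ico 1 m).filter (fun b => m.Coprime b)).card ≤ m := by
      refine (Finset.card_filter_le _ _).trans ?_
      rw [Nat.card_Ico]
      omega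
    exact_mod_cast h3
  rw [nsmul_eq_mul] at h1
  rw [div_le_iff₀ hm0]
  calc aM l m ≤ _ := h1
    _ ≤ m * (m * (10 : ℝ) ^ (∑ i, l i) / (10 : ℝ) ^ l ⟨v - 1, by omega⟩) :=
        mul_le_mul_of_nonneg_right h2 (by positivity)
    _ = _ := by ring

theorem suw_main {v : ℕ} (hv : 1 ≤ v) (η δ : ℝ) (hη : 0 < η) (hδ : 0 < δ) (l : Fin v → ℕ)
    (hl : ∀ i, η * ((∑ j, l j : ℕ) : ℝ) ≤ l i) :
    ∑ m ∈ Finset.Icc 1 ⌊(10 : ℝ) ^ ((1 - δ) * ((∑ i, l i : ℕ) : ℝ))⌋₊, Wm l m ≤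
      (3 * (((∑ i, l i : ℕ) : ℝ) + 1)) *
        ((10 : ℝ) ^ ((1 - η / 2) * ((∑ i, l i : ℕ) : ℝ)) +
          (((∑ i, l i : ℕ) : ℝ) + 1) * ((10 * (10 : ℝ) ^ ((1 - η / 4) * ((∑ i, l i : ℕ) : ℝ)) +
            100 * (10 : ℝ) ^ ((1 - δ) * ((∑ i, l i : ℕ) : ℝ))) *
              (3 * (((∑ i, l i : ℕ) : ℝ) + 1)) ^ v)) := by
  set E : ℕ := ∑ i, l i with hE
  set Y : ℝ := (10 : ℝ) ^ ((1 - δ) * (E : ℝ)) with hY
  set X : ℝ := (10 : ℝ) ^ (η / 4 * (E : ℝ)) with hX
  set M : ℕ := ⌊Y⌋₊ with hM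
  have hX0 : 0 < X := by positivity
  have hY0 : 0 < Y := by positivity
  have hMY : (M : ℝ) ≤ Y := Nat.floor_le hY0.le
  have hYE : Y ≤ (10 : ℝ) ^ E := by
    rw [hY, ← Real.rpow_natCast]
    refine Real.rpow_le_rpow_of_exponent_le (by norm_num) ?_
    have : (0 : ℝ) ≤ E := Nat.cast_nonneg E
    nlinarith
  have hred := red (Pf l) (Pf_nonneg l) M
  have hW : ∑ m ∈ Finset.Icc 1 M, Wm l m ≤
      (1 + Real.log M) * ∑ m ∈ Finset.Icc 2 M, aM l m / m := hred
  -- the logarithm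
  have hlog : 1 + Real.log M ≤ 3 * ((E : ℝ) + 1) := by
    have hE0 : (0 : ℝ) ≤ E := Nat.cast_nonneg E
    by_cases hM0 : M = 0
    · rw [hM0]
      simp
      linarith
    · have hM1 : (0 : ℝ) < M := by exact_mod_cast Nat.pos_of_ne_zero hM0
      have h1 : Real.log M ≤ Real.log ((10 : ℝ) ^ E) := Real.log_le_log hM1 (hMY.trans hYE)
      rw [Real.log_pow] at h1
      have h2 : Real.log 10 ≤ 3 := by
        have h3 : Real.log 10 = Real.log 2 + Real.log 5 := by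
          rw [← Real.log_mul (by norm_num) (by norm_num)]
          norm_num
        have h4 : Real.log 5 ≤ Real.log 8 := Real.log_le_log (by norm_num) (by norm_num)
        have h5 : Real.log 8 = 3 * Real.log 2 := by
          rw [show (8 : ℝ) = 2 ^ 3 by norm_num, Real.log_pow]
          norm_num
        have h6 := Real.log_two_lt_d9
        linarith
      nlinarith
  -- the small denominators
  have hsmall : ∑ m ∈ (Finset.Icc 2 M).filter (fun m : ℕ => (m : ℝ) ≤ X), aM l m / m ≤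
      (10 : ℝ) ^ ((1 - η / 2) * (E : ℝ)) := by
    have h1 : ∀ m ∈ (Finset.Icc 2 M).filter (fun m : ℕ => (m : ℝ) ≤ X), aM l m / m ≤
        X * (10 : ℝ) ^ ((1 - η) * (E : ℝ)) := by
      intro m hm
      rw [Finset.mem_filter, Finset.mem_Icc] at hm
      refine (aM_small hv l m (by omega)).trans ?_
      refine mul_le_mul hm.2 ?_ (by positivity) hX0.le
      rw [div_le_iff₀ (by positivity), ← Real.rpow_natCast, ← Real.rpow_natCast,
        ← Real.rpow_add (by norm_num)]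
      refine Real.rpow_le_rpow_of_exponent_le (by norm_num) ?_
      have := hl ⟨v - 1, by omega⟩
      rw [← hE]
      linarith
    have h2 := Finset.sum_le_card_nsmul _ _ _ h1
    have h3 : (((Finset.Icc 2 M).filter (fun m : ℕ => (m : ℝ) ≤ X)).card : ℝ) ≤ X := by
      have h4 : (Finset.Icc 2 M).filter (fun m : ℕ => (m : ℝ) ≤ X) ⊆ Finset.Icc 1 ⌊X⌋₊ := by
        intro m hm
        rw [Finset.mem_filter, Finset.mem_Icc] at hm
        rw [Finset.mem_Icc]
        exact ⟨by omega, Nat.le_floor hm.2⟩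
      have h5 := Finset.card_le_card h4
      rw [Nat.card_Icc, Nat.add_sub_cancel] at h5
      have h6 : (((Finset.Icc 2 M).filter (fun m : ℕ => (m : ℝ) ≤ X)).card : ℝ) ≤ (⌊X⌋₊ : ℝ) := by
        exact_mod_cast h5
      exact h6.trans (Nat.floor_le hX0.le)
    rw [nsmul_eq_mul] at h2
    calc _ ≤ _ := h2
      _ ≤ X * (X * (10 : ℝ) ^ ((1 - η) * (E : ℝ))) :=
          mul_le_mul_of_nonneg_right h3 (by positivity)
      _ = (10 : ℝ) ^ ((1 - η / 2) * (E : ℝ)) := by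
          rw [hX, ← Real.rpow_add (by norm_num), ← Real.rpow_add (by norm_num)]
          congr 1
          ring
  -- the product
  have hP : ∏ i, (3 * ((l i : ℝ) + 1)) ≤ (3 * ((E : ℝ) + 1)) ^ v := by
    have h1 : ∏ i : Fin v, (3 * ((l i : ℝ) + 1)) ≤ ∏ _i : Fin v, (3 * ((E : ℝ) + 1)) := by
      refine Finset.prod_le_prod (fun i _ => by positivity) fun i _ => ?_
      have h2 : l i ≤ E := Finset.single_le_sum (f := l) (fun j _ => Nat.zero_le _) (Finset.mem_univ i)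
      have h3 : (l i : ℝ) ≤ E := by exact_mod_cast h2
      linarith
    rwa [Finset.prod_const, Finset.card_univ, Fintype.card_fin] at h1
  have hP0 : (0 : ℝ) ≤ ∏ i, (3 * ((l i : ℝ) + 1)) := Finset.prod_nonneg fun i _ => by positivity
  have hXE : (10 : ℝ) ^ E / X = (10 : ℝ) ^ ((1 - η / 4) * (E : ℝ)) := by
    rw [hX, ← Real.rpow_natCast, ← Real.rpow_sub (by norm_num)]
    congr 1
    ring
  -- the large denominators
  have hlarge : ∑ m ∈ (Finset.Icc 2 M).filter (fun m : ℕ => ¬ (m : ℝ) ≤ X), aM l m / m ≤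
      ((E : ℝ) + 1) * ((10 * (10 : ℝ) ^ ((1 - η / 4) * (E : ℝ)) + 100 * Y) *
        (3 * ((E : ℝ) + 1)) ^ v) := by
    have hmaps : ∀ m ∈ (Finset.Icc 2 M).filter (fun m : ℕ => ¬ (m : ℝ) ≤ X),
        Nat.log 10 m ∈ Finset.range (E + 1) := by
      intro m hm
      rw [Finset.mem_filter, Finset.mem_Icc] at hm
      rw [Finset.mem_range, Nat.lt_succ_iff]
      have h1 : (m : ℝ) ≤ (10 : ℝ) ^ E := by
        have : (m : ℝ) ≤ M := by exact_mod_cast hm.1.2
        linarith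
      have h2 : m ≤ 10 ^ E := by exact_mod_cast h1
      calc Nat.log 10 m ≤ Nat.log 10 (10 ^ E) := Nat.log_mono_right h2
        _ = E := Nat.log_pow (by norm_num) E
    rw [← Finset.sum_fiberwise_of_maps_to hmaps]
    have hclass : ∀ j ∈ Finset.range (E + 1),
        ∑ m ∈ ((Finset.Icc 2 M).filter (fun m : ℕ => ¬ (m : ℝ) ≤ X)).filter
          (fun m => Nat.log 10 m = j), aM l m / m ≤
        (10 * (10 : ℝ) ^ ((1 - η / 4) * (E : ℝ)) + 100 * Y) * (3 * ((E : ℝ) + 1)) ^ v := by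
      intro j _
      by_cases hne : (((Finset.Icc 2 M).filter (fun m : ℕ => ¬ (m : ℝ) ≤ X)).filter
          (fun m => Nat.log 10 m = j)).Nonempty
      · obtain ⟨m0, hm0⟩ := hne
        rw [Finset.mem_filter, Finset.mem_filter, Finset.mem_Icc, not_le] at hm0
        have hj1 : 10 ^ j ≤ m0 := by
          rw [← hm0.2]
          exact Nat.pow_log_le_self 10 (by omega)
        have hj2 : m0 < 10 ^ (j + 1) := by
          rw [← hm0.2]
          exact Nat.lt_pow_succ_log_self (by norm_num) m0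
        have hj1' : (10 : ℝ) ^ j ≤ Y := by
          have h1 : ((10 ^ j : ℕ) : ℝ) ≤ m0 := by exact_mod_cast hj1
          have h2 : (m0 : ℝ) ≤ M := by exact_mod_cast hm0.1.1.2
          push_cast at h1
          linarith
        have hj2' : X < (10 : ℝ) ^ j * 10 := by
          have h1 : (m0 : ℝ) < ((10 ^ (j + 1) : ℕ) : ℝ) := by exact_mod_cast hj2
          push_cast at h1
          rw [pow_succ] at h1
          linarith [hm0.1.2]
        have h10 : (0 : ℝ) < (10 : ℝ) ^ j := by positivity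
        have hb : ∀ m ∈ ((Finset.Icc 2 M).filter (fun m : ℕ => ¬ (m : ℝ) ≤ X)).filter
            (fun m => Nat.log 10 m = j), aM l m / m ≤ aM l m * (1 / (10 : ℝ) ^ j) := by
          intro m hm
          rw [Finset.mem_filter, Finset.mem_filter, Finset.mem_Icc] at hm
          have h1 : 10 ^ j ≤ m := by
            rw [← hm.2]
            exact Nat.pow_log_le_self 10 (by omega)
          have h2 : (10 : ℝ) ^ j ≤ m := by exact_mod_cast h1
          rw [div_eq_mul_one_div]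
          refine mul_le_mul_of_nonneg_left ?_ (aM_nonneg l m)
          exact one_div_le_one_div_of_le h10 h2
        have hsub : ((Finset.Icc 2 M).filter (fun m : ℕ => ¬ (m : ℝ) ≤ X)).filter
            (fun m => Nat.log 10 m = j) ⊆ Finset.Ico 2 (10 ^ (j + 1)) := by
          intro m hm
          rw [Finset.mem_filter, Finset.mem_filter, Finset.mem_Icc] at hm
          rw [Finset.mem_Ico]
          refine ⟨hm.1.1.1, ?_⟩
          rw [← hm.2]
          exact Nat.lt_pow_succ_log_self (by norm_num) m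
        have hps := psm l (10 ^ (j + 1))
        rw [← hE] at hps
        push_cast at hps
        calc ∑ m ∈ ((Finset.Icc 2 M).filter (fun m : ℕ => ¬ (m : ℝ) ≤ X)).filter
              (fun m => Nat.log 10 m = j), aM l m / m
            ≤ ∑ m ∈ ((Finset.Icc 2 M).filter (fun m : ℕ => ¬ (m : ℝ) ≤ X)).filter
              (fun m => Nat.log 10 m = j), aM l m * (1 / (10 : ℝ) ^ j) := Finset.sum_le_sum hb
          _ ≤ ∑ m ∈ Finset.Ico 2 (10 ^ (j + 1)), aM l m * (1 / (10 : ℝ) ^ j) :=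
              Finset.sum_le_sum_of_subset_of_nonneg hsub fun m _ _ =>
                mul_nonneg (aM_nonneg l m) (by positivity)
          _ = (∑ m ∈ Finset.Ico 2 (10 ^ (j + 1)), aM l m) * (1 / (10 : ℝ) ^ j) := by
              rw [Finset.sum_mul]
          _ ≤ (((10 : ℝ) ^ E + ((10 : ℝ) ^ (j + 1)) ^ 2) * ∏ i, (3 * ((l i : ℝ) + 1))) *
                (1 / (10 : ℝ) ^ j) := mul_le_mul_of_nonneg_right hps (by positivity)
          _ = ((10 : ℝ) ^ E / (10 : ℝ) ^ j + 100 * (10 : ℝ) ^ j) *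
                ∏ i, (3 * ((l i : ℝ) + 1)) := by
              rw [pow_succ]
              field_simp
              ring
          _ ≤ (10 * (10 : ℝ) ^ ((1 - η / 4) * (E : ℝ)) + 100 * Y) *
                (3 * ((E : ℝ) + 1)) ^ v := by
              refine mul_le_mul ?_ hP hP0 (by positivity)
              refine add_le_add ?_ (by linarith)
              rw [← hXE]
              rw [div_le_iff₀ h10]
              rw [show 10 * ((10 : ℝ) ^ E / X) * (10 : ℝ) ^ j =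
                (10 : ℝ) ^ E * (((10 : ℝ) ^ j * 10) / X) by ring]
              have h1 : (1 : ℝ) ≤ ((10 : ℝ) ^ j * 10) / X := by
                rw [one_le_div hX0]
                exact hj2'.le
              have h2 : (0 : ℝ) < (10 : ℝ) ^ E := by positivity
              nlinarith
      · rw [Finset.not_nonempty_iff_eq_empty] at hne
        rw [hne, Finset.sum_empty]
        positivity
    have h2 := Finset.sum_le_card_nsmul _ _ _ hclass
    rw [Finset.card_range, nsmul_eq_mul] at h2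
    push_cast at h2
    exact h2
  -- together
  have hsplit : ∑ m ∈ Finset.Icc 2 M, aM l m / m =
      ∑ m ∈ (Finset.Icc 2 M).filter (fun m : ℕ => (m : ℝ) ≤ X), aM l m / m +
      ∑ m ∈ (Finset.Icc 2 M).filter (fun m : ℕ => ¬ (m : ℝ) ≤ X), aM l m / m :=
    (Finset.sum_filter_add_sum_filter_not _ _ _).symm
  have hnn : 0 ≤ ∑ m ∈ Finset.Icc 2 M, aM l m / m :=
    Finset.sum_nonneg fun m _ => div_nonneg (aM_nonneg l m) (Nat.cast_nonneg m)
  calc ∑ m ∈ Finset.Icc 1 M, Wm l m ≤ (1 + Real.log M) * ∑ m ∈ Finset.Icc 2 M, aM l m / m := hW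
    _ ≤ (3 * ((E : ℝ) + 1)) * ∑ m ∈ Finset.Icc 2 M, aM l m / m :=
        mul_le_mul_of_nonneg_right hlog hnn
    _ ≤ _ := by
        refine mul_le_mul_of_nonneg_left ?_ (by positivity)
        rw [hsplit]
        exact add_le_add hsmall hlarge

theorem suw (v : ℕ) (hv : 1 ≤ v) (η δ : ℝ) (hη : 0 < η) (hδ : 0 < δ) :
    ∃ c : ℝ, 0 < c ∧ ∃ E₀ : ℕ, ∀ l : Fin v → ℕ, E₀ ≤ ∑ i, l i →
      (∀ i, η * ((∑ j, l j : ℕ) : ℝ) ≤ l i) →
      ∑ m ∈ Finset.Icc 1 ⌊(10 : ℝ) ^ ((1 - δ) * ((∑ i, l i : ℕ) : ℝ))⌋₊, Wm l m ≤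
        (10 : ℝ) ^ ((1 - c) * ((∑ i, l i : ℕ) : ℝ)) := by
  set c : ℝ := min η δ / 8 with hc
  have hc0 : 0 < c := by
    have := lt_min hη hδ
    positivity
  have hcη : 8 * c ≤ η := by
    have := min_le_left η δ
    linarith
  have hcδ : 8 * c ≤ δ := by
    have := min_le_right η δ
    linarith
  obtain ⟨E₀, hE₀⟩ := suw_poly v c hc0
  refine ⟨c, hc0, E₀, fun l hlE hl => ?_⟩
  refine (suw_main hv η δ hη hδ l hl).trans ?_
  set E : ℕ := ∑ i, l i with hE
  have hp := hE₀ E hlE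
  have hEn : (0 : ℝ) ≤ E := Nat.cast_nonneg E
  set Z : ℝ := (10 : ℝ) ^ ((1 - 2 * c) * (E : ℝ)) with hZ
  have hZ0 : 0 < Z := by positivity
  have h1 : (10 : ℝ) ^ ((1 - η / 2) * (E : ℝ)) ≤ Z :=
    Real.rpow_le_rpow_of_exponent_le (by norm_num) (by nlinarith)
  have h2 : (10 : ℝ) ^ ((1 - η / 4) * (E : ℝ)) ≤ Z :=
    Real.rpow_le_rpow_of_exponent_le (by norm_num) (by nlinarith)
  have h3 : (10 : ℝ) ^ ((1 - δ) * (E : ℝ)) ≤ Z :=
    Real.rpow_le_rpow_of_exponent_le (by norm_num) (by nlinarith)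
  have hpow : (1 : ℝ) ≤ (3 * ((E : ℝ) + 1)) ^ v := one_le_pow₀ (by linarith)
  set Pv : ℝ := (3 * ((E : ℝ) + 1)) ^ v with hPv
  have h4 : (10 : ℝ) ^ ((1 - η / 2) * (E : ℝ)) ≤ ((E : ℝ) + 1) * (Z * Pv) := by
    calc (10 : ℝ) ^ ((1 - η / 2) * (E : ℝ)) ≤ Z := h1
      _ = 1 * (Z * 1) := by ring
      _ ≤ ((E : ℝ) + 1) * (Z * Pv) := by
        refine mul_le_mul (by linarith) (mul_le_mul_of_nonneg_left hpow hZ0.le)
          (by positivity) (by positivity)
  have h5 : (10 * (10 : ℝ) ^ ((1 - η / 4) * (E : ℝ)) +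
      100 * (10 : ℝ) ^ ((1 - δ) * (E : ℝ))) * Pv ≤ (110 * Z) * Pv :=
    mul_le_mul_of_nonneg_right (by linarith) (by positivity)
  calc (3 * ((E : ℝ) + 1)) * ((10 : ℝ) ^ ((1 - η / 2) * (E : ℝ)) +
          ((E : ℝ) + 1) * ((10 * (10 : ℝ) ^ ((1 - η / 4) * (E : ℝ)) +
            100 * (10 : ℝ) ^ ((1 - δ) * (E : ℝ))) * Pv))
      ≤ (3 * ((E : ℝ) + 1)) * (((E : ℝ) + 1) * (Z * Pv) +
          ((E : ℝ) + 1) * ((110 * Z) * Pv)) := by
        refine mul_le_mul_of_nonneg_left ?_ (by positivity)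
        refine add_le_add h4 (mul_le_mul_of_nonneg_left h5 (by positivity))
    _ = (333 * ((E : ℝ) + 1) ^ 2 * Pv) * Z := by ring
    _ ≤ (10 : ℝ) ^ (c * (E : ℝ)) * Z := mul_le_mul_of_nonneg_right hp hZ0.le
    _ = (10 : ℝ) ^ ((1 - c) * (E : ℝ)) := by
        rw [hZ, ← Real.rpow_add (by norm_num)]
        congr 1
        ring

end Pool.Agent.HP
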