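import Pool.Agent.HP.SVN
import Pool.Agent.HP.SUW
import Pool.Agent.HP.DEL
import Pool.Agent.HP.CAT

/-! MLC (~200 lines): main lemma of the second part, same proof as `mla` (MLA). `N ∈ SC ..`, `t' = gp N`, `m = N/t' ≤ 10^((1-δ)E)`,
`R = ⌊10^(c'E)⌋`, `q = a ∏ blk - b ≥ 10^(E/2) > R` is prime, so `a ∏ blk ≢ b (mod p)` for `p ≤ R`. `m = 1`: `svn` with `u = 1`, `c = 0`, `Δ = 10 a b`, for
`v = 1` times `A (a A 10^E + b)`. `m ≥ 2`: `u = 2`, `c = ![0, m f m 10^λ]`, `Δ = 10 m (f m) a b`, for `v = 1` times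
`A (A 10^E + c₂) (a A 10^E + b) (a (A 10^E + c₂) + b)`. Two values of `λ` for every `m`. Here the leading block is `≥ 10^(l 0 - 1)` again. Main terms:
`C (vol/m) (log E)^k/E^k`, `k = v + 3` (`v + 2` for `m = 1`), `∑ 1/m ≤ 1 + 3E`. -/

set_option autoImplicit false

namespace Pool.Agent.HP

open Finset

open scoped Classical in
/-- the sets to which the sieve is applied -/
noncomputable def mlcS {v u : ℕ} (l : Fin v → ℕ) (A m R Δ a b : ℕ) (c : Fin u → ℕ)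
    (s t : Fin v → ℕ) : Finset ℕ :=
  (win A (∑ i, l i)).filter (fun N => m ∣ N ∧
        (∀ i, s i ≤ blk (ee l i) (l i) N ∧ blk (ee l i) (l i) N < t i) ∧
        ∀ p : ℕ, p.Prime → p ≤ R → ¬ p ∣ Δ →
          (∀ j, ¬ p ∣ N + c j) ∧ (∀ i, ¬ p ∣ blk (ee l i) (l i) N) ∧
          ¬ a * ∏ i, blk (ee l i) (l i) N ≡ b [MOD p])

private theorem mem_mlcS {v u : ℕ} {l : Fin v → ℕ} {A m R Δ a b : ℕ} {c : Fin u → ℕ}
    {s t : Fin v → ℕ} {N : ℕ} :
    N ∈ mlcS l A m R Δ a b c s t ↔ N ∈ win A (∑ i, l i) ∧ (m ∣ N ∧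
        (∀ i, s i ≤ blk (ee l i) (l i) N ∧ blk (ee l i) (l i) N < t i) ∧
        ∀ p : ℕ, p.Prime → p ≤ R → ¬ p ∣ Δ →
          (∀ j, ¬ p ∣ N + c j) ∧ (∀ i, ¬ p ∣ blk (ee l i) (l i) N) ∧
          ¬ a * ∏ i, blk (ee l i) (l i) N ≡ b [MOD p]) := by
  classical
  unfold mlcS
  rw [Finset.mem_filter]

/-- the two values of the number of digits of the greatest prime factor -/
private noncomputable def mlcW {v : ℕ} (l : Fin v → ℕ) (A : ℕ) : ℕ :=
  max (A * 10 ^ (∑ i, l i)) (10 ^ ((∑ i, l i) - 1))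

private theorem ee_zero {v : ℕ} (hv : 1 ≤ v) (l : Fin v → ℕ) :
    ee l ⟨0, hv⟩ + l ⟨0, hv⟩ = ∑ i, l i := by
  unfold ee
  have h : (Finset.univ : Finset (Fin v)) = insert ⟨0, hv⟩ (Finset.Ioi (⟨0, hv⟩ : Fin v)) := by
    ext i
    simp only [Finset.mem_univ, Finset.mem_insert, Finset.mem_Ioi, true_iff]
    rcases Nat.eq_zero_or_pos i.1 with h | h
    · left; exact Fin.ext h
    · right; exact h
  rw [h, Finset.sum_insert (by simp)]
  ring

private theorem mlc_N_ge {v : ℕ} (hv : 1 ≤ v) (l : Fin v → ℕ) (N : ℕ) (hl : ∀ i, 1 ≤ l i)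
    (h : 10 ^ (l ⟨0, hv⟩ - 1) ≤ blk (ee l ⟨0, hv⟩) (l ⟨0, hv⟩) N) : 10 ^ ((∑ i, l i) - 1) ≤ N := by
  have h1 : blk (ee l ⟨0, hv⟩) (l ⟨0, hv⟩) N ≤ N / 10 ^ ee l ⟨0, hv⟩ := Nat.mod_le _ _
  have h2 : 10 ^ (l ⟨0, hv⟩ - 1) * 10 ^ ee l ⟨0, hv⟩ ≤ N :=
    (Nat.le_div_iff_mul_le (by positivity)).1 (h.trans h1)
  have h3 : (∑ i, l i) - 1 = (l ⟨0, hv⟩ - 1) + ee l ⟨0, hv⟩ := by
    have := ee_zero hv l
    have := hl ⟨0, hv⟩
    omega
  rw [h3, pow_add]
  exact h2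

private theorem dc_zero : dc 0 = 1 := by
  simp [dc, Nec92d717.decimalDigitCount]

private theorem dc_pos (n : ℕ) : 1 ≤ dc n := by
  rcases Nat.eq_zero_or_pos n with h | h
  · rw [h, dc_zero]
  · exact (dc_spec h).2.2

private theorem lt_dc (n : ℕ) : n < 10 ^ dc n := by
  rcases Nat.eq_zero_or_pos n with h | h
  · rw [h]; positivity
  · exact (dc_spec h).2.1

private theorem dc_le_of_lt {n k : ℕ} (hk : 1 ≤ k) (h : n < 10 ^ k) : dc n ≤ k := by
  rcases Nat.eq_zero_or_pos n with h0 | h0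
  · rw [h0, dc_zero]; exact hk
  · have h1 := (dc_spec h0).1
    have h2 : 10 ^ (dc n - 1) < 10 ^ k := lt_of_le_of_lt h1 h
    have h3 := (Nat.pow_lt_pow_iff_right (by norm_num : 1 < 10)).1 h2
    omega

private theorem dc_mono {a b : ℕ} (h : a ≤ b) : dc a ≤ dc b :=
  dc_le_of_lt (dc_pos b) (lt_of_le_of_lt h (lt_dc b))

private theorem mlc_cover {v : ℕ} (hv : 1 ≤ v) (l : Fin v → ℕ) (A : ℕ) (δ : ℝ) (R a b : ℕ)
    (sb tb : Fin v → ℕ) (hl : ∀ i, 1 ≤ l i) (hE : 2 ≤ ∑ i, l i)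
    (hR1 : (R : ℝ) < (10 : ℝ) ^ (δ * ((∑ i, l i : ℕ) : ℝ))) (hR2 : ∀ i, R < 10 ^ (l i - 1))
    (hR3 : R < 10 ^ ((∑ i, l i) / 2))
    (Δ₁ : ℕ) (Δ : ℕ → ℕ → ℕ) (hΔ : ∀ m k p, p.Prime → ¬ p ∣ Δ m k → ¬ p ∣ m) :
    SC l A δ sb tb a b ⊆ mlcS l A 1 R Δ₁ a b (fun _ : Fin 1 => 0) sb tb ∪
      (Finset.Icc 2 ⌊(10 : ℝ) ^ ((1 - δ) * ((∑ i, l i : ℕ) : ℝ))⌋₊).biUnion (fun m =>
        (Finset.range 2).biUnion fun j => mlcS l A m R (Δ m (dc (mlcW l A / m) + j)) a b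
          ![0, m * f m * 10 ^ (dc (mlcW l A / m) + j)] sb tb) := by
  intro N hN
  unfold SC at hN
  rw [Finset.mem_filter] at hN
  obtain ⟨hwin, hblk, hq1, hq2, hfp, hgp⟩ := hN
  have hwin' := hwin
  unfold win at hwin'
  rw [Finset.mem_Ico] at hwin'
  obtain ⟨hlo, hhi⟩ := hwin'
  set E : ℕ := ∑ i, l i with hEdef
  have hN1 : 10 ^ (E - 1) ≤ N := mlc_N_ge hv l N hl (hblk ⟨0, hv⟩).2.1
  have hN2 : 2 ≤ N := by
    have : 10 ^ 1 ≤ 10 ^ (E - 1) := Nat.pow_le_pow_right (by norm_num) (by omega)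
    omega
  obtain ⟨hgpr, hgd, hgmax⟩ := gp_spec hN2
  set t : ℕ := gp N with ht
  obtain ⟨m, hm⟩ : ∃ m, m = N / t := ⟨_, rfl⟩
  have hNmt : N = m * t := by rw [hm]; exact (Nat.div_mul_cancel hgd).symm
  have htR : R < t := by
    have h1 : (R : ℝ) < t := by
      refine lt_of_lt_of_le hR1 (le_trans ?_ hgp)
      have h2 : (0:ℝ) < (10 : ℝ) ^ (δ * (E : ℝ)) := by positivity
      have h3 : (0:ℝ) ≤ A := Nat.cast_nonneg A
      nlinarith
    exact_mod_cast h1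
  have hblkR : ∀ p : ℕ, p.Prime → p ≤ R → ∀ i, ¬ p ∣ blk (ee l i) (l i) N := by
    intro p hp hpR i hd
    have h1 := (Nat.prime_dvd_prime_iff_eq hp (hblk i).1).1 hd
    have h2 := (hblk i).2.1
    have h3 := hR2 i
    omega
  have hbox : ∀ i, sb i ≤ blk (ee l i) (l i) N ∧ blk (ee l i) (l i) N < tb i :=
    fun i => (hblk i).2.2
  have hqR : ∀ p : ℕ, p.Prime → p ≤ R → ¬ a * ∏ i, blk (ee l i) (l i) N ≡ b [MOD p] := by
    intro p hp hpR hd
    have h0 : b ≤ a * ∏ i, blk (ee l i) (l i) N := by omega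
    have h1 : p ∣ a * ∏ i, blk (ee l i) (l i) N - b := (Nat.modEq_iff_dvd' h0).1 hd.symm
    have h2 := (Nat.prime_dvd_prime_iff_eq hp hq2).1 h1
    omega
  have hft := f_gp hN2
  rw [← ht, ← hm] at hft
  clear hm
  have hm0 : m ≠ 0 := by
    intro h0
    rw [h0, zero_mul] at hNmt
    omega
  rcases Nat.lt_or_ge m 2 with hm2 | hm2
  · have hm1 : m = 1 := by omega
    rw [Finset.mem_union]
    left
    rw [mem_mlcS]
    refine ⟨hwin, one_dvd _, hbox, fun p hp hpR _ =>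
      ⟨fun _ hd => ?_, hblkR p hp hpR, hqR p hp hpR⟩⟩
    rw [hm1, one_mul] at hNmt
    rw [add_zero, hNmt] at hd
    have h1 := (Nat.prime_dvd_prime_iff_eq hp hgpr).1 hd
    omega
  · rw [Finset.mem_union]
    right
    rw [Finset.mem_biUnion]
    refine ⟨m, ?_, ?_⟩
    · rw [Finset.mem_Icc]
      refine ⟨hm2, Nat.le_floor ?_⟩
      have h1 : (N : ℝ) < ((A : ℝ) + 1) * (10 : ℝ) ^ (E : ℝ) := by
        rw [Real.rpow_natCast]
        exact_mod_cast hhi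
      have h2 : (10 : ℝ) ^ (E : ℝ) = (10 : ℝ) ^ ((1 - δ) * (E : ℝ)) * (10 : ℝ) ^ (δ * (E : ℝ)) := by
        rw [← Real.rpow_add (by norm_num)]; congr 1; ring
      have h3 : (N : ℝ) = m * t := by exact_mod_cast hNmt
      have h4 : (0:ℝ) < (10 : ℝ) ^ (δ * (E : ℝ)) := by positivity
      have h5 : (0:ℝ) < (A : ℝ) + 1 := by positivity
      have h6 : (m : ℝ) * (((A : ℝ) + 1) * (10 : ℝ) ^ (δ * (E : ℝ))) ≤ N := by
        rw [h3]; gcongr
      have h7 : (m : ℝ) * (((A : ℝ) + 1) * (10 : ℝ) ^ (δ * (E : ℝ))) <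
          (10 : ℝ) ^ ((1 - δ) * (E : ℝ)) * (((A : ℝ) + 1) * (10 : ℝ) ^ (δ * (E : ℝ))) := by
        refine lt_of_le_of_lt h6 (lt_of_lt_of_le h1 (le_of_eq ?_))
        rw [h2]; ring
      exact (lt_of_mul_lt_mul_right h7 (by positivity)).le
    · -- the two values of the number of digits
      have hW1 : mlcW l A ≤ N := max_le hlo hN1
      have hW2 : N < 10 * mlcW l A := by
        rcases Nat.eq_zero_or_pos A with hA | hA
        · rw [hA] at hhi
          have h1 : 10 ^ (E - 1) ≤ mlcW l A := le_max_right _ _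
          have h2 : 10 ^ E = 10 * 10 ^ (E - 1) := by
            rw [← pow_succ']; congr 1; omega
          omega
        · have h1 : A * 10 ^ E ≤ mlcW l A := le_max_left _ _
          have h2 : 0 < 10 ^ E := by positivity
          nlinarith
      have hw1 : mlcW l A / m ≤ t := by
        rw [Nat.div_le_iff_le_mul_add_pred (by omega)]
        have : mlcW l A ≤ m * t := hNmt ▸ hW1
        omega
      have hw2 : t < 10 ^ (dc (mlcW l A / m) + 1) := by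
        have h1 : mlcW l A / m < 10 ^ dc (mlcW l A / m) := lt_dc _
        have h2 : mlcW l A < m * (mlcW l A / m + 1) := by
          have := Nat.lt_mul_div_succ (mlcW l A) (b := m) (by omega)
          exact this
        have h3 : m * t < m * (10 * (mlcW l A / m + 1)) := by
          rw [← hNmt]
          calc N < 10 * mlcW l A := hW2
            _ ≤ 10 * (m * (mlcW l A / m + 1)) := by omega
            _ = m * (10 * (mlcW l A / m + 1)) := by ring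
        have h4 : t < 10 * (mlcW l A / m + 1) := lt_of_mul_lt_mul_left h3 (Nat.zero_le _)
        rw [pow_succ]
        omega
      have hd1 : dc (mlcW l A / m) ≤ dc t := dc_mono hw1
      have hd2 : dc t ≤ dc (mlcW l A / m) + 1 := dc_le_of_lt (by omega) hw2
      rw [Finset.mem_biUnion]
      refine ⟨dc t - dc (mlcW l A / m), by rw [Finset.mem_range]; omega, ?_⟩
      have hdt : dc (mlcW l A / m) + (dc t - dc (mlcW l A / m)) = dc t := by omega
      rw [hdt]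
      rw [mem_mlcS]
      refine ⟨hwin, ⟨t, hNmt⟩, hbox, fun p hp hpR hpΔ =>
        ⟨fun j hd => ?_, hblkR p hp hpR, hqR p hp hpR⟩⟩
      have hpm : ¬ p ∣ m := hΔ m _ p hp hpΔ
      have hpt : ¬ p ∣ t := by
        intro h1
        have := (Nat.prime_dvd_prime_iff_eq hp hgpr).1 h1
        omega
      fin_cases j
      · simp only [Fin.zero_eta, Matrix.cons_val_zero, add_zero] at hd
        rw [hNmt] at hd
        rcases (Nat.Prime.dvd_mul hp).1 hd with h | h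
        · exact hpm h
        · exact hpt h
      · simp only [Fin.mk_one, Matrix.cons_val_one, Matrix.cons_val_fin_one] at hd
        have h1 : N + m * f m * 10 ^ dc t = m * f N := by
          rw [hft, hNmt]
          ring
        rw [h1] at hd
        rcases (Nat.Prime.dvd_mul hp).1 hd with h | h
        · exact hpm h
        · have h2 := (Nat.prime_dvd_prime_iff_eq hp hfp).1 h
          have h3 : t ≤ f N := by rw [hft]; omega
          omega

/-- the primes which are not used in the sieve, `m = 1` -/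
private def mlcD1 (v A E a b : ℕ) : ℕ :=
  10 * a * b * (if v = 1 then A * (a * (A * 10 ^ E) + b) else 1)

/-- the primes which are not used in the sieve, `m ≥ 2` -/
private noncomputable def mlcD2 (v A E m k a b : ℕ) : ℕ :=
  10 * m * f m * (a * b) * (if v = 1 then A * (A * 10 ^ E + m * f m * 10 ^ k) *
    ((a * (A * 10 ^ E) + b) * (a * (A * 10 ^ E + m * f m * 10 ^ k) + b)) else 1)

private theorem mlc_D1 {v A E a b : ℕ} (hE : 3 ≤ E) (hA : A < 10 ^ E)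
    (ha : a ≤ 10 ^ (2 * E)) (hb : b ≤ 10 ^ (2 * E)) : mlcD1 v A E a b ≤ 10 ^ (33 * E) := by
  have h1 : 10 * a * b ≤ 10 ^ (4 * E + 1) := by
    calc 10 * a * b ≤ 10 * 10 ^ (2 * E) * 10 ^ (2 * E) := by gcongr
      _ = 10 ^ (4 * E + 1) := by rw [← pow_succ', ← pow_add]; congr 1; ring
  unfold mlcD1
  split_ifs with h
  · have h2 : a * (A * 10 ^ E) + b ≤ 10 ^ (4 * E + 1) := by
      calc a * (A * 10 ^ E) + b ≤ 10 ^ (2 * E) * (10 ^ E * 10 ^ E) + 10 ^ (4 * E) := by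
            gcongr
            exact hb.trans (Nat.pow_le_pow_right (by norm_num) (by omega))
        _ = 10 ^ (4 * E) + 10 ^ (4 * E) := by rw [← pow_add, ← pow_add]; congr 2; ring
        _ ≤ 10 ^ (4 * E + 1) := by
            have : 10 ^ (4 * E + 1) = 10 * 10 ^ (4 * E) := by rw [← pow_succ']
            omega
    calc 10 * a * b * (A * (a * (A * 10 ^ E) + b))
        ≤ 10 ^ (4 * E + 1) * (10 ^ E * 10 ^ (4 * E + 1)) := by gcongr
      _ = 10 ^ (9 * E + 2) := by rw [← pow_add, ← pow_add]; congr 1; ring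
      _ ≤ 10 ^ (33 * E) := Nat.pow_le_pow_right (by norm_num) (by omega)
  · rw [mul_one]
    exact h1.trans (Nat.pow_le_pow_right (by norm_num) (by omega))

private theorem mlc_D2 {v A E m k a b : ℕ} (hE : 3 ≤ E) (hm : 1 ≤ m) (hmE : m ≤ 10 ^ E)
    (hA : A < 10 ^ E) (hk : k ≤ 2 * E + 1) (ha : a ≤ 10 ^ (2 * E)) (hb : b ≤ 10 ^ (2 * E)) :
    mlcD2 v A E m k a b ≤ 10 ^ (33 * E) := by
  have hf : f m ≤ 10 ^ (4 * E) := by
    calc f m ≤ 10 ^ lam m := (f_lt hm).le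
      _ ≤ m ^ 4 := lam_le hm
      _ ≤ (10 ^ E) ^ 4 := Nat.pow_le_pow_left hmE 4
      _ = 10 ^ (4 * E) := by rw [← pow_mul]; ring_nf
  have hk' : 10 ^ k ≤ 10 ^ (2 * E + 1) := Nat.pow_le_pow_right (by norm_num) hk
  have h0 : 10 * m * f m ≤ 10 ^ (5 * E + 1) := by
    calc 10 * m * f m ≤ 10 * 10 ^ E * 10 ^ (4 * E) := by gcongr
      _ = 10 ^ (5 * E + 1) := by rw [← pow_succ', ← pow_add]; congr 1; ring
  have h1 : 10 * m * f m * (a * b) ≤ 10 ^ (9 * E + 1) := by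
    calc 10 * m * f m * (a * b) ≤ 10 ^ (5 * E + 1) * (10 ^ (2 * E) * 10 ^ (2 * E)) := by gcongr
      _ = 10 ^ (9 * E + 1) := by rw [← pow_add, ← pow_add]; congr 1; ring
  unfold mlcD2
  split_ifs with h
  · have h2 : A * 10 ^ E + m * f m * 10 ^ k ≤ 10 ^ (7 * E + 2) := by
      calc A * 10 ^ E + m * f m * 10 ^ k
          ≤ 10 ^ E * 10 ^ E + 10 ^ E * 10 ^ (4 * E) * 10 ^ (2 * E + 1) := by gcongr
        _ = 10 ^ (2 * E) + 10 ^ (7 * E + 1) := by
            rw [← pow_add, ← pow_add, ← pow_add]; congr 2 <;> ring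
        _ ≤ 10 ^ (7 * E + 1) + 10 ^ (7 * E + 1) := by
            gcongr
            · norm_num
            · omega
        _ ≤ 10 ^ (7 * E + 2) := by
            have : 10 ^ (7 * E + 2) = 10 * 10 ^ (7 * E + 1) := by rw [← pow_succ']
            omega
    have h3 : a * (A * 10 ^ E) + b ≤ 10 ^ (4 * E + 1) := by
      calc a * (A * 10 ^ E) + b ≤ 10 ^ (2 * E) * (10 ^ E * 10 ^ E) + 10 ^ (4 * E) := by
            gcongr
            exact hb.trans (Nat.pow_le_pow_right (by norm_num) (by omega))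
        _ = 10 ^ (4 * E) + 10 ^ (4 * E) := by rw [← pow_add, ← pow_add]; congr 2; ring
        _ ≤ 10 ^ (4 * E + 1) := by
            have : 10 ^ (4 * E + 1) = 10 * 10 ^ (4 * E) := by rw [← pow_succ']
            omega
    have h4 : a * (A * 10 ^ E + m * f m * 10 ^ k) + b ≤ 10 ^ (9 * E + 3) := by
      calc a * (A * 10 ^ E + m * f m * 10 ^ k) + b
          ≤ 10 ^ (2 * E) * 10 ^ (7 * E + 2) + 10 ^ (9 * E + 2) := by
            gcongr
            exact hb.trans (Nat.pow_le_pow_right (by norm_num) (by omega))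
        _ = 10 ^ (9 * E + 2) + 10 ^ (9 * E + 2) := by rw [← pow_add]; congr 2; ring
        _ ≤ 10 ^ (9 * E + 3) := by
            have : 10 ^ (9 * E + 3) = 10 * 10 ^ (9 * E + 2) := by rw [← pow_succ']
            omega
    calc 10 * m * f m * (a * b) * (A * (A * 10 ^ E + m * f m * 10 ^ k) *
          ((a * (A * 10 ^ E) + b) * (a * (A * 10 ^ E + m * f m * 10 ^ k) + b)))
        ≤ 10 ^ (9 * E + 1) * (10 ^ E * 10 ^ (7 * E + 2) *
          (10 ^ (4 * E + 1) * 10 ^ (9 * E + 3))) := by gcongr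
      _ = 10 ^ (30 * E + 7) := by
          rw [← pow_add, ← pow_add, ← pow_add, ← pow_add]; congr 1; ring
      _ ≤ 10 ^ (33 * E) := Nat.pow_le_pow_right (by norm_num) (by omega)
  · rw [mul_one]
    exact h1.trans (Nat.pow_le_pow_right (by norm_num) (by omega))

private theorem mlc_cast {D E : ℕ} (h : D ≤ 10 ^ (33 * E)) : (D : ℝ) ≤ (10 : ℝ) ^ ((33 : ℝ) * E) := by
  have e1 : (10 : ℝ) ^ ((33 : ℝ) * E) = ((10 ^ (33 * E) : ℕ) : ℝ) := by
    push_cast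
    rw [← Real.rpow_natCast]
    congr 1; push_cast; ring
  rw [e1]
  exact_mod_cast h

private theorem mlc_one (v : ℕ) (hv : 1 ≤ v) : ∃ C : ℝ, 0 < C ∧
    ∀ (l : Fin v → ℕ) (A R a b : ℕ) (s t : Fin v → ℕ), 3 ≤ ∑ i, l i → 2 ≤ R →
      A < 10 ^ (∑ i, l i) → (1 ≤ A ∨ 2 ≤ v) → 1 ≤ a → 1 ≤ b → a ≤ 10 ^ (2 * ∑ i, l i) →
      b ≤ 10 ^ (2 * ∑ i, l i) → (∀ i, s i ≤ t i ∧ t i ≤ 10 ^ l i) →
      ((mlcS l A 1 R (mlcD1 v A (∑ i, l i) a b) a b (fun _ : Fin 1 => 0) s t).card : ℝ) ≤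
        C * (∏ i, ((t i : ℝ) - s i)) * Real.log ((∑ i, l i : ℕ) : ℝ) ^ (v + 2) /
          Real.log R ^ (v + 2) +
        (R : ℝ) ^ (2 * v + 4) * ∑ i, (10 : ℝ) ^ (∑ j, l j) / (10 : ℝ) ^ l i := by
  obtain ⟨C₁, hC₁, h1⟩ := svn v 1 hv le_rfl (by norm_num)
  obtain ⟨D, hD, h2⟩ := del (v + 2) 33 (by norm_num)
  refine ⟨C₁ * D, by positivity, fun l A R a b s t hE hR hA hAv ha hb haE hbE hst => ?_⟩
  set E : ℕ := ∑ i, l i with hEd
  have hΔ1 : 1 ≤ mlcD1 v A E a b := by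
    unfold mlcD1
    have h5 : 0 < 10 * a * b := by positivity
    split_ifs with h
    · have h6 : 0 < A := by omega
      have h7 : 0 < A * (a * (A * 10 ^ E) + b) := by positivity
      exact Nat.mul_pos h5 h7
    · omega
  have hdiv : ∀ p : ℕ, ¬ p ∣ mlcD1 v A E a b → ¬ p ∣ 10 ∧ ¬ p ∣ a ∧ ¬ p ∣ b ∧
      (v = 1 → ¬ p ∣ A ∧ ¬ p ∣ a * (A * 10 ^ E) + b) := by
    intro p hp
    unfold mlcD1 at hp
    refine ⟨fun h => hp ?_, fun h => hp ?_, fun h => hp ?_, fun hv1 => ⟨fun h => hp ?_, fun h => hp ?_⟩⟩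
    · exact Dvd.dvd.mul_right (Dvd.dvd.mul_right (Dvd.dvd.mul_right h _) _) _
    · exact Dvd.dvd.mul_right (Dvd.dvd.mul_right (Dvd.dvd.mul_left h _) _) _
    · exact Dvd.dvd.mul_right (Dvd.dvd.mul_left h _) _
    · rw [if_pos hv1]
      exact Dvd.dvd.mul_left (Dvd.dvd.mul_right h _) _
    · rw [if_pos hv1]
      exact Dvd.dvd.mul_left (Dvd.dvd.mul_left h _) _
  have h3 := h1 l A 1 R (mlcD1 v A E a b) a b (fun _ => 0) s t le_rfl hR hΔ1 hst
    (fun p hp hd => ⟨fun h => hp.one_lt.ne' (Nat.dvd_one.1 h), (hdiv p hd).2.1, (hdiv p hd).2.2.1⟩)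
    (fun p _ _ i j hij => absurd (Subsingleton.elim i j) hij)
    (fun hv1 p hp hd j => by
      rw [add_zero]
      refine ⟨fun h => ?_, ((hdiv p hd).2.2.2 hv1).2⟩
      rcases (Nat.Prime.dvd_mul hp).1 h with h | h
      · exact ((hdiv p hd).2.2.2 hv1).1 h
      · exact (hdiv p hd).1 (hp.dvd_of_dvd_pow h))
  have h5 := h2 E (mlcD1 v A E a b) hE hΔ1 (mlc_cast (mlc_D1 hE hA haE hbE))
  have h6 : Wm l 1 = 0 := by unfold Wm; simp
  have hlog : 0 < Real.log R := Real.log_pos (by exact_mod_cast (by omega : 1 < R))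
  have hvol : 0 ≤ ∏ i, ((t i : ℝ) - s i) :=
    Finset.prod_nonneg fun i _ => sub_nonneg.2 (by exact_mod_cast (hst i).1)
  rw [h6, zero_add] at h3
  simp only [Nat.cast_one, div_one] at h3
  refine (le_of_eq ?_).trans (h3.trans ?_)
  · rfl
  · gcongr ?_ + _
    rw [div_le_div_iff_of_pos_right (by positivity)]
    calc C₁ * (∏ i, ((t i : ℝ) - s i)) *
          (∏ p ∈ (mlcD1 v A E a b).primeFactors, (1 + ((v + 2 : ℕ) : ℝ) / p))
        ≤ C₁ * (∏ i, ((t i : ℝ) - s i)) * (D * Real.log E ^ (v + 2)) := by gcongr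
      _ = _ := by ring

private theorem mlc_two (v : ℕ) (hv : 1 ≤ v) : ∃ C : ℝ, 0 < C ∧
    ∀ (l : Fin v → ℕ) (A m R k a b : ℕ) (s t : Fin v → ℕ), 3 ≤ ∑ i, l i → 2 ≤ R →
      A < 10 ^ (∑ i, l i) → (1 ≤ A ∨ 2 ≤ v) → 1 ≤ a → 1 ≤ b → a ≤ 10 ^ (2 * ∑ i, l i) →
      b ≤ 10 ^ (2 * ∑ i, l i) → (∀ i, s i ≤ t i ∧ t i ≤ 10 ^ l i) →
      2 ≤ m → m ≤ 10 ^ (∑ i, l i) → k ≤ 2 * (∑ i, l i) + 1 →
      ((mlcS l A m R (mlcD2 v A (∑ i, l i) m k a b) a b ![0, m * f m * 10 ^ k] s t).card : ℝ) ≤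
        C * ((∏ i, ((t i : ℝ) - s i)) / m) * Real.log ((∑ i, l i : ℕ) : ℝ) ^ (v + 3) /
          Real.log R ^ (v + 3) +
        (R : ℝ) ^ (2 * v + 4) * (Wm l m + (∑ i, (10 : ℝ) ^ (∑ j, l j) / (10 : ℝ) ^ l i) / m) := by
  obtain ⟨C₁, hC₁, h1⟩ := svn v 2 hv (by norm_num) le_rfl
  obtain ⟨D, hD, h2⟩ := del (v + 3) 33 (by norm_num)
  refine ⟨C₁ * D, by positivity,
    fun l A m R k a b s t hE hR hA hAv ha hb haE hbE hst hm hmE hk => ?_⟩
  set E : ℕ := ∑ i, l i with hEd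
  have hfm : 1 ≤ f m := by have := le_f hm; omega
  have hΔ1 : 1 ≤ mlcD2 v A E m k a b := by
    unfold mlcD2
    have h5 : 0 < 10 * m * f m * (a * b) := by positivity
    split_ifs with h
    · have h6 : 0 < A := by omega
      have h7 : 0 < A * (A * 10 ^ E + m * f m * 10 ^ k) *
          ((a * (A * 10 ^ E) + b) * (a * (A * 10 ^ E + m * f m * 10 ^ k) + b)) := by positivity
      exact Nat.mul_pos h5 h7
    · omega
  have hdiv : ∀ p : ℕ, ¬ p ∣ mlcD2 v A E m k a b → ¬ p ∣ 10 ∧ ¬ p ∣ m ∧ ¬ p ∣ f m ∧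
      ¬ p ∣ a ∧ ¬ p ∣ b ∧
      (v = 1 → ¬ p ∣ A ∧ ¬ p ∣ A * 10 ^ E + m * f m * 10 ^ k ∧ ¬ p ∣ a * (A * 10 ^ E) + b ∧
        ¬ p ∣ a * (A * 10 ^ E + m * f m * 10 ^ k) + b) := by
    intro p hp
    unfold mlcD2 at hp
    refine ⟨fun h => hp ?_, fun h => hp ?_, fun h => hp ?_, fun h => hp ?_, fun h => hp ?_,
      fun hv1 => ⟨fun h => hp ?_, fun h => hp ?_, fun h => hp ?_, fun h => hp ?_⟩⟩
    · exact Dvd.dvd.mul_right (Dvd.dvd.mul_right (Dvd.dvd.mul_right (Dvd.dvd.mul_right h _) _) _) _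
    · exact Dvd.dvd.mul_right (Dvd.dvd.mul_right (Dvd.dvd.mul_right (Dvd.dvd.mul_left h _) _) _) _
    · exact Dvd.dvd.mul_right (Dvd.dvd.mul_right (Dvd.dvd.mul_left h _) _) _
    · exact Dvd.dvd.mul_right (Dvd.dvd.mul_left (Dvd.dvd.mul_right h _) _) _
    · exact Dvd.dvd.mul_right (Dvd.dvd.mul_left (Dvd.dvd.mul_left h _) _) _
    · rw [if_pos hv1]
      exact Dvd.dvd.mul_left (Dvd.dvd.mul_right (Dvd.dvd.mul_right h _) _) _
    · rw [if_pos hv1]
      exact Dvd.dvd.mul_left (Dvd.dvd.mul_right (Dvd.dvd.mul_left h _) _) _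
    · rw [if_pos hv1]
      exact Dvd.dvd.mul_left (Dvd.dvd.mul_left (Dvd.dvd.mul_right h _) _) _
    · rw [if_pos hv1]
      exact Dvd.dvd.mul_left (Dvd.dvd.mul_left (Dvd.dvd.mul_left h _) _) _
  have hc : ∀ p : ℕ, p.Prime → ¬ p ∣ mlcD2 v A E m k a b → ¬ p ∣ m * f m * 10 ^ k := by
    intro p hp hd h
    obtain ⟨d1, d2, d3, _⟩ := hdiv p hd
    rcases (Nat.Prime.dvd_mul hp).1 h with h | h
    · rcases (Nat.Prime.dvd_mul hp).1 h with h | h
      · exact d2 h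
      · exact d3 h
    · exact d1 (hp.dvd_of_dvd_pow h)
  have h3 := h1 l A m R (mlcD2 v A E m k a b) a b ![0, m * f m * 10 ^ k] s t (by omega) hR hΔ1 hst
    (fun p hp hd => ⟨(hdiv p hd).2.1, (hdiv p hd).2.2.2.1, (hdiv p hd).2.2.2.2.1⟩)
    (fun p hp hd i j hij => by
      have h5 : ((m * f m * 10 ^ k : ℕ) : ZMod p) ≠ 0 := by
        intro h
        exact hc p hp hd ((ZMod.natCast_eq_zero_iff _ _).1 h)
      fin_cases i <;> fin_cases j
      · exact absurd rfl hij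
      · simp only [Fin.zero_eta, Matrix.cons_val_zero, Fin.mk_one, Matrix.cons_val_one,
          Matrix.cons_val_fin_one, Nat.cast_zero]
        exact h5.symm
      · simp only [Fin.zero_eta, Matrix.cons_val_zero, Fin.mk_one, Matrix.cons_val_one,
          Matrix.cons_val_fin_one, Nat.cast_zero]
        exact h5
      · exact absurd rfl hij)
    (fun hv1 p hp hd j => by
      obtain ⟨d1, d2, d3, d4, d5, d6⟩ := hdiv p hd
      fin_cases j
      · simp only [Fin.zero_eta, Matrix.cons_val_zero, add_zero]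
        refine ⟨fun h => ?_, (d6 hv1).2.2.1⟩
        rcases (Nat.Prime.dvd_mul hp).1 h with h | h
        · exact (d6 hv1).1 h
        · exact d1 (hp.dvd_of_dvd_pow h)
      · simp only [Fin.mk_one, Matrix.cons_val_one, Matrix.cons_val_fin_one]
        exact ⟨(d6 hv1).2.1, (d6 hv1).2.2.2⟩)
  have h5 := h2 E (mlcD2 v A E m k a b) hE hΔ1
    (mlc_cast (mlc_D2 hE (by omega) hmE hA hk haE hbE))
  have hlog : 0 < Real.log R := Real.log_pos (by exact_mod_cast (by omega : 1 < R))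
  have hvol : 0 ≤ ∏ i, ((t i : ℝ) - s i) :=
    Finset.prod_nonneg fun i _ => sub_nonneg.2 (by exact_mod_cast (hst i).1)
  refine (le_of_eq ?_).trans (h3.trans ?_)
  · rfl
  · gcongr ?_ + _
    rw [div_le_div_iff_of_pos_right (by positivity)]
    calc C₁ * ((∏ i, ((t i : ℝ) - s i)) / m) *
          (∏ p ∈ (mlcD2 v A E m k a b).primeFactors, (1 + ((v + 3 : ℕ) : ℝ) / p))
        ≤ C₁ * ((∏ i, ((t i : ℝ) - s i)) / m) * (D * Real.log E ^ (v + 3)) := by gcongr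
      _ = _ := by ring

private theorem mlc_ev (v : ℕ) {b : ℝ} (hb : 0 < b) :
    ∃ E₀ : ℕ, ∀ E : ℕ, E₀ ≤ E → (E : ℝ) ^ (v + 2) ≤ (10 : ℝ) ^ (b * E) := by
  have h10 : (0:ℝ) < Real.log 10 := Real.log_pos (by norm_num)
  have h := (isLittleO_pow_exp_pos_mul_atTop (v + 2) (b := b * Real.log 10) (by positivity)).bound
    (c := 1) one_pos
  obtain ⟨x₀, hx₀⟩ := Filter.eventually_atTop.1 h
  refine ⟨⌈x₀⌉₊, fun E hE => ?_⟩
  have h1 := hx₀ E ((Nat.le_ceil x₀).trans (by exact_mod_cast hE))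
  rw [one_mul, Real.norm_of_nonneg (by positivity), Real.norm_of_nonneg (Real.exp_pos _).le] at h1
  refine h1.trans (le_of_eq ?_)
  rw [Real.rpow_def_of_pos (by norm_num : (0:ℝ) < 10)]
  congr 1; ring

private theorem mlc_R {y : ℝ} (hy : 1 ≤ y) :
    2 ≤ ⌊(10 : ℝ) ^ y⌋₊ ∧ y ≤ Real.log (⌊(10 : ℝ) ^ y⌋₊ : ℝ) := by
  have h1 : (10:ℝ) ^ (1:ℝ) ≤ (10 : ℝ) ^ y := Real.rpow_le_rpow_of_exponent_le (by norm_num) hy
  rw [Real.rpow_one] at h1
  have h2 : 2 ≤ ⌊(10 : ℝ) ^ y⌋₊ := Nat.le_floor (by push_cast; linarith)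
  refine ⟨h2, ?_⟩
  have h3 : (10 : ℝ) ^ y < ⌊(10 : ℝ) ^ y⌋₊ + 1 := Nat.lt_floor_add_one _
  have h4 : Real.exp y * Real.exp y ≤ (10:ℝ) ^ y := by
    rw [← Real.exp_add, Real.rpow_def_of_pos (by norm_num : (0:ℝ) < 10)]
    apply Real.exp_le_exp.2
    have h5 : (2:ℝ) ≤ Real.log 10 := by
      rw [Real.le_log_iff_exp_le (by norm_num)]
      have h6 := Real.exp_one_lt_d9
      have h7 : Real.exp 2 = Real.exp 1 * Real.exp 1 := by rw [← Real.exp_add]; norm_num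
      rw [h7]
      have h8 := Real.exp_pos 1
      nlinarith
    nlinarith
  have h5 : 2 ≤ Real.exp y := by
    have := Real.add_one_le_exp y
    linarith
  rw [Real.le_log_iff_exp_le (by exact_mod_cast (by omega : 0 < ⌊(10 : ℝ) ^ y⌋₊))]
  nlinarith

private theorem mlc_harm (M : ℕ) (E : ℕ) (hM : (M : ℝ) ≤ (10:ℝ) ^ (E : ℝ)) :
    ∑ m ∈ Finset.Icc 2 M, (1 : ℝ) / m ≤ 1 + 3 * E := by
  have h1 : ∑ m ∈ Finset.Icc 2 M, (1 : ℝ) / m ≤ ∑ m ∈ Finset.Icc 1 M, (1 : ℝ) / m := by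
    refine Finset.sum_le_sum_of_subset_of_nonneg ?_ fun m _ _ => by positivity
    exact Finset.Icc_subset_Icc (by norm_num) le_rfl
  refine h1.trans ?_
  rcases Nat.eq_zero_or_pos M with h0 | h0
  · rw [h0]; simp; positivity
  have h2 : ∑ m ∈ Finset.Icc 1 M, (1 : ℝ) / m = (harmonic M : ℝ) := by
    rw [harmonic_eq_sum_Icc]
    push_cast
    refine Finset.sum_congr rfl fun m _ => by rw [one_div]
  rw [h2]
  have h3 := harmonic_le_one_add_log M
  have h4 : Real.log M ≤ 3 * E := by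
    have h5 : Real.log M ≤ Real.log ((10:ℝ) ^ (E : ℝ)) :=
      Real.log_le_log (by exact_mod_cast h0) hM
    rw [Real.log_rpow (by norm_num)] at h5
    have h6 : Real.log 10 ≤ 3 := by
      rw [Real.log_le_iff_le_exp (by norm_num)]
      have h7 := Real.exp_one_gt_d9
      have h8 : Real.exp 3 = Real.exp 1 * Real.exp 1 * Real.exp 1 := by
        rw [← Real.exp_add, ← Real.exp_add]; norm_num
      rw [h8]
      have h9 : (7:ℝ) ≤ Real.exp 1 * Real.exp 1 := by nlinarith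
      nlinarith
    have h7 : (0:ℝ) ≤ E := Nat.cast_nonneg E
    nlinarith
  linarith

theorem mlc (v : ℕ) (hv : 1 ≤ v) (η δ : ℝ) (hη : 0 < η) (hδ : 0 < δ) :
    ∃ C : ℝ, 0 < C ∧ ∃ c : ℝ, 0 < c ∧ ∃ E₀ : ℕ, ∀ (l : Fin v → ℕ) (A a b : ℕ) (s t : Fin v → ℕ),
      E₀ ≤ ∑ i, l i → (∀ i, η * ((∑ j, l j : ℕ) : ℝ) ≤ l i) → A < 10 ^ (∑ i, l i) →
      (1 ≤ A ∨ 2 ≤ v) → 1 ≤ a → 1 ≤ b → a ≤ 10 ^ (2 * ∑ i, l i) → b ≤ 10 ^ (2 * ∑ i, l i) →
      (∀ i, s i ≤ t i ∧ t i ≤ 10 ^ l i) →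
      ((SC l A δ s t a b).card : ℝ) ≤ C * (∏ i, ((t i : ℝ) - s i)) *
          Real.log ((∑ i, l i : ℕ) : ℝ) ^ (v + 3) / ((∑ i, l i : ℕ) : ℝ) ^ (v + 2) +
        (10 : ℝ) ^ ((1 - c) * ((∑ i, l i : ℕ) : ℝ)) := by
  obtain ⟨C₁, hC₁, hone⟩ := mlc_one v hv
  obtain ⟨C₂, hC₂, htwo⟩ := mlc_two v hv
  obtain ⟨c, hc, E₁, hsuw⟩ := suw v hv η δ hη hδ
  set κ : ℝ := min c (min η (min δ 1)) / 4 with hκ
  have hκ0 : 0 < κ := by rw [hκ]; positivity
  have hκc : 4 * κ ≤ c := by rw [hκ]; linarith [min_le_left c (min η (min δ 1))]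
  have hκa : 4 * κ ≤ min η (min δ 1) := by rw [hκ]; linarith [min_le_right c (min η (min δ 1))]
  have hκη : 4 * κ ≤ η := hκa.trans (min_le_left _ _)
  have hκδ : 4 * κ ≤ δ := hκa.trans ((min_le_right _ _).trans (min_le_left _ _))
  have hκ1 : 4 * κ ≤ 1 := hκa.trans ((min_le_right _ _).trans (min_le_right _ _))
  set c' : ℝ := κ / (2 * v + 4) with hc'
  have hden : (4:ℝ) ≤ 2 * v + 4 := by have : (0:ℝ) ≤ v := Nat.cast_nonneg v; linarith
  have hc'0 : 0 < c' := by rw [hc']; positivity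
  have hc'κ : c' * (2 * v + 4) = κ := by rw [hc']; field_simp
  have hc'le : c' ≤ κ := by nlinarith
  obtain ⟨E₂, hE₂⟩ := mlc_ev v (b := 2 * κ) (by positivity)
  refine ⟨C₁ / c' ^ (v + 2) + 8 * C₂ / c' ^ (v + 3), by positivity, κ, hκ0,
    max 3 (max E₁ (max E₂ (max ⌈1 / c'⌉₊ (max ⌈2 / η⌉₊ (9 * v + 2))))),
    fun l A a b s t hE hl hA hAv ha hb haE hbE hst => ?_⟩
  set E : ℕ := ∑ i, l i with hEd
  have hE3 : 3 ≤ E := (le_max_left _ _).trans hE
  have hEa := (le_max_right _ _).trans hE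
  have hEE1 : E₁ ≤ E := (le_max_left _ _).trans hEa
  have hEb := (le_max_right _ _).trans hEa
  have hEE2 : E₂ ≤ E := (le_max_left _ _).trans hEb
  have hEc := (le_max_right _ _).trans hEb
  have hEc1 : 1 / c' ≤ E := (Nat.le_ceil _).trans (by exact_mod_cast (le_max_left _ _).trans hEc)
  have hEe := (le_max_right _ _).trans hEc
  have hEη : 2 / η ≤ E := (Nat.le_ceil _).trans (by exact_mod_cast (le_max_left _ _).trans hEe)
  have hE9 : 9 * v + 2 ≤ E := (le_max_right _ _).trans hEe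
  have hE0 : (0:ℝ) < E := by exact_mod_cast (by omega : 0 < E)
  have hE3r : (3:ℝ) ≤ E := by exact_mod_cast hE3
  have hE9r : 9 * (v : ℝ) + 2 ≤ E := by exact_mod_cast hE9
  have hc'E : 1 ≤ c' * E := by
    rw [div_le_iff₀ hc'0] at hEc1; linarith
  have hηE : 2 ≤ η * E := by
    rw [div_le_iff₀ hη] at hEη; linarith
  obtain ⟨hR2, hRlog⟩ := mlc_R hc'E
  set R : ℕ := ⌊(10 : ℝ) ^ (c' * E)⌋₊ with hR
  have hRle : (R : ℝ) ≤ (10 : ℝ) ^ (c' * E) := Nat.floor_le (by positivity)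
  have hlogE : 1 ≤ Real.log E := by
    rw [Real.le_log_iff_exp_le hE0]
    have := Real.exp_one_lt_d9
    linarith
  -- the conditions of the covering lemma
  have hl1 : ∀ i, 1 ≤ l i := by
    intro i
    have h1 := hl i
    have : (0:ℝ) < l i := by linarith
    exact_mod_cast this
  have hR1 : (R : ℝ) < (10 : ℝ) ^ (δ * (E : ℝ)) := by
    refine lt_of_le_of_lt hRle (Real.rpow_lt_rpow_of_exponent_lt (by norm_num) ?_)
    have : c' < δ := by linarith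
    exact mul_lt_mul_of_pos_right this hE0
  have hRl : ∀ i, R < 10 ^ (l i - 1) := by
    intro i
    have h1 : (R : ℝ) < (10:ℝ) ^ ((l i - 1 : ℕ) : ℝ) := by
      refine lt_of_le_of_lt hRle (Real.rpow_lt_rpow_of_exponent_lt (by norm_num) ?_)
      rw [Nat.cast_sub (hl1 i)]
      push_cast
      have h2 := hl i
      have h3 : c' * E ≤ η / 4 * E := by
        have : c' ≤ η / 4 := by linarith
        gcongr
      linarith
    rw [Real.rpow_natCast] at h1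
    exact_mod_cast h1
  have hRh : R < 10 ^ (E / 2) := by
    have h1 : (R : ℝ) < (10:ℝ) ^ ((E / 2 : ℕ) : ℝ) := by
      refine lt_of_le_of_lt hRle (Real.rpow_lt_rpow_of_exponent_lt (by norm_num) ?_)
      have h2 : (E : ℝ) ≤ 2 * ((E / 2 : ℕ) : ℝ) + 1 := by
        have : E ≤ 2 * (E / 2) + 1 := by omega
        exact_mod_cast this
      have h3 : 4 * c' ≤ κ := by nlinarith
      have h4 : c' * E ≤ 1 / 16 * E := by
        have : c' ≤ 1 / 16 := by linarith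
        gcongr
      linarith
    rw [Real.rpow_natCast] at h1
    exact_mod_cast h1
  -- the covering
  have hcov := mlc_cover hv l A δ R a b s t hl1 (by omega) hR1 hRl hRh (mlcD1 v A E a b)
    (fun m k => mlcD2 v A E m k a b)
    (fun m k p _ hd h => hd (by
      unfold mlcD2
      exact Dvd.dvd.mul_right (Dvd.dvd.mul_right (Dvd.dvd.mul_right (Dvd.dvd.mul_left h _) _) _) _))
  rw [← hEd] at hcov
  set M : ℕ := ⌊(10 : ℝ) ^ ((1 - δ) * (E : ℝ))⌋₊ with hM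
  have hMle : (M : ℝ) ≤ (10 : ℝ) ^ (E : ℝ) := by
    refine (Nat.floor_le (by positivity)).trans
      (Real.rpow_le_rpow_of_exponent_le (by norm_num) ?_)
    nlinarith
  have hMle' : M ≤ 10 ^ E := by
    rw [Real.rpow_natCast] at hMle
    exact_mod_cast hMle
  have hW : ∀ m, dc (mlcW l A / m) ≤ 2 * E := by
    intro m
    refine dc_le_of_lt (by omega) (lt_of_le_of_lt (Nat.div_le_self _ _) ?_)
    unfold mlcW
    rw [← hEd]
    refine max_lt ?_ ?_
    · have h1 : 10 ^ (2 * E) = 10 ^ E * 10 ^ E := by rw [← pow_add]; congr 1; ring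
      rw [h1]
      exact Nat.mul_lt_mul_of_pos_right hA (by positivity)
    · exact Nat.pow_lt_pow_right (by norm_num) (by omega)
  set Sg : ℝ := ∑ i, (10 : ℝ) ^ (∑ j, l j) / (10 : ℝ) ^ l i with hSg
  have hSg0 : 0 ≤ Sg := by rw [hSg]; positivity
  set vol : ℝ := ∏ i, ((t i : ℝ) - s i) with hvol
  have hvol0 : 0 ≤ vol :=
    Finset.prod_nonneg fun i _ => sub_nonneg.2 (by exact_mod_cast (hst i).1)
  set X : ℝ := (10:ℝ) ^ E with hX
  have hX0 : 0 < X := by rw [hX]; positivity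
  set T : ℝ := (R : ℝ) ^ (2 * v + 4) with hT
  have hT0 : 0 ≤ T := by rw [hT]; positivity
  set LR : ℝ := Real.log R with hLR
  have hLR0 : 0 < LR := by linarith
  set LE : ℝ := Real.log E with hLE
  have hcard : ((SC l A δ s t a b).card : ℝ) ≤
      (C₁ * vol * LE ^ (v + 2) / LR ^ (v + 2) + T * Sg) +
      ∑ m ∈ Finset.Icc 2 M, 2 * (C₂ * (vol / m) * LE ^ (v + 3) / LR ^ (v + 3) +
        T * (Wm l m + Sg / m)) := by
    have h1 := (Finset.card_le_card hcov).trans (Finset.card_union_le _ _)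
    have h2 : ((SC l A δ s t a b).card : ℝ) ≤
        ((mlcS l A 1 R (mlcD1 v A E a b) a b (fun _ : Fin 1 => 0) s t).card : ℝ) +
        (((Finset.Icc 2 M).biUnion (fun m =>
        (Finset.range 2).biUnion fun j => mlcS l A m R (mlcD2 v A E m (dc (mlcW l A / m) + j) a b)
          a b ![0, m * f m * 10 ^ (dc (mlcW l A / m) + j)] s t)).card : ℝ) := by
      exact_mod_cast h1
    refine h2.trans (add_le_add (hone l A R a b s t hE3 hR2 hA hAv ha hb haE hbE hst) ?_)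
    have h3 : (((Finset.Icc 2 M).biUnion (fun m =>
        (Finset.range 2).biUnion fun j => mlcS l A m R (mlcD2 v A E m (dc (mlcW l A / m) + j) a b)
          a b ![0, m * f m * 10 ^ (dc (mlcW l A / m) + j)] s t)).card : ℝ) ≤
        ∑ m ∈ Finset.Icc 2 M, (∑ j ∈ Finset.range 2,
          (mlcS l A m R (mlcD2 v A E m (dc (mlcW l A / m) + j) a b) a b
          ![0, m * f m * 10 ^ (dc (mlcW l A / m) + j)] s t).card : ℕ) := by
      have := Finset.card_biUnion_le (s := Finset.Icc 2 M) (t := fun m =>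
        (Finset.range 2).biUnion fun j => mlcS l A m R (mlcD2 v A E m (dc (mlcW l A / m) + j) a b)
          a b ![0, m * f m * 10 ^ (dc (mlcW l A / m) + j)] s t)
      have h4 : ∑ m ∈ Finset.Icc 2 M, ((Finset.range 2).biUnion fun j =>
          mlcS l A m R (mlcD2 v A E m (dc (mlcW l A / m) + j) a b) a b
          ![0, m * f m * 10 ^ (dc (mlcW l A / m) + j)] s t).card ≤ ∑ m ∈ Finset.Icc 2 M,
          ∑ j ∈ Finset.range 2, (mlcS l A m R (mlcD2 v A E m (dc (mlcW l A / m) + j) a b) a b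
          ![0, m * f m * 10 ^ (dc (mlcW l A / m) + j)] s t).card :=
        Finset.sum_le_sum fun m _ => Finset.card_biUnion_le
      exact_mod_cast this.trans h4
    refine h3.trans ?_
    push_cast
    refine Finset.sum_le_sum fun m hm => ?_
    rw [Finset.mem_Icc] at hm
    rw [Finset.sum_range_succ, Finset.sum_range_one, two_mul]
    have hbb : ∀ j, j ≤ 1 → ((mlcS l A m R (mlcD2 v A E m (dc (mlcW l A / m) + j) a b) a b
          ![0, m * f m * 10 ^ (dc (mlcW l A / m) + j)] s t).card : ℝ) ≤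
          C₂ * (vol / m) * LE ^ (v + 3) / LR ^ (v + 3) + T * (Wm l m + Sg / m) := by
      intro j hj
      exact htwo l A m R (dc (mlcW l A / m) + j) a b s t hE3 hR2 hA hAv ha hb haE hbE hst
        hm.1 (hm.2.trans hMle') (by have := hW m; omega)
    exact add_le_add (hbb 0 (by norm_num)) (hbb 1 le_rfl)
  -- summation
  set H : ℝ := ∑ m ∈ Finset.Icc 2 M, (1 : ℝ) / m with hH
  set WW : ℝ := ∑ m ∈ Finset.Icc 2 M, Wm l m with hWW
  have hH1 : H ≤ 4 * E := by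
    have := mlc_harm M E hMle
    linarith
  have hH0 : 0 ≤ H := by rw [hH]; positivity
  have hWW1 : WW ≤ (10:ℝ) ^ ((1 - c) * (E : ℝ)) := by
    refine le_trans ?_ (hsuw l hEE1 hl)
    refine Finset.sum_le_sum_of_subset_of_nonneg ?_ fun m _ _ => Wm_nonneg l m
    exact Finset.Icc_subset_Icc (by norm_num) le_rfl
  have hsum : ∑ m ∈ Finset.Icc 2 M, 2 * (C₂ * (vol / m) * LE ^ (v + 3) / LR ^ (v + 3) +
        T * (Wm l m + Sg / m)) =
      2 * C₂ * vol * LE ^ (v + 3) / LR ^ (v + 3) * H + 2 * T * WW + 2 * T * Sg * H := by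
    rw [hH, hWW, Finset.mul_sum, Finset.mul_sum, Finset.mul_sum, ← Finset.sum_add_distrib,
      ← Finset.sum_add_distrib]
    refine Finset.sum_congr rfl fun m _ => ?_
    ring
  rw [hsum] at hcard
  -- bounds for the error
  have hTle : T ≤ (10:ℝ) ^ (κ * E) := by
    have h1 : T ≤ ((10:ℝ) ^ (c' * E)) ^ (2 * v + 4) := pow_le_pow_left₀ (Nat.cast_nonneg _) hRle _
    refine h1.trans (le_of_eq ?_)
    rw [← Real.rpow_natCast, ← Real.rpow_mul (by norm_num)]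
    congr 1
    push_cast
    rw [← hc'κ]; ring
  have hSgle : Sg ≤ v * (10:ℝ) ^ ((1 - η) * (E : ℝ)) := by
    rw [hSg]
    have h1 : ∀ i ∈ (Finset.univ : Finset (Fin v)), (10 : ℝ) ^ (∑ j, l j) / (10 : ℝ) ^ l i ≤
        (10:ℝ) ^ ((1 - η) * (E : ℝ)) := by
      intro i _
      rw [div_le_iff₀ (by positivity), ← hEd, ← Real.rpow_natCast, ← Real.rpow_natCast,
        ← Real.rpow_add (by norm_num)]
      refine Real.rpow_le_rpow_of_exponent_le (by norm_num) ?_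
      have := hl i
      linarith
    refine (Finset.sum_le_card_nsmul _ _ _ h1).trans (le_of_eq ?_)
    rw [Finset.card_univ, Fintype.card_fin, nsmul_eq_mul]
  have hexp : ∀ a : ℝ, 4 * κ ≤ a → (10:ℝ) ^ (κ * E) * (10:ℝ) ^ ((1 - a) * (E : ℝ)) ≤
      (10:ℝ) ^ ((1 - 3 * κ) * (E : ℝ)) := by
    intro a ha
    rw [← Real.rpow_add (by norm_num)]
    refine Real.rpow_le_rpow_of_exponent_le (by norm_num) ?_
    nlinarith
  set Y : ℝ := (10:ℝ) ^ ((1 - 3 * κ) * (E : ℝ)) with hY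
  have hY0 : 0 < Y := by rw [hY]; positivity
  have hv0 : (0:ℝ) ≤ v := Nat.cast_nonneg v
  have hTW : T * WW ≤ Y := by
    refine le_trans ?_ (hexp c hκc)
    have hWW0 : 0 ≤ WW := Finset.sum_nonneg fun m _ => Wm_nonneg l m
    exact mul_le_mul hTle hWW1 hWW0 (by positivity)
  have hTS : T * Sg ≤ v * Y := by
    calc T * Sg ≤ (10:ℝ) ^ (κ * E) * (v * (10:ℝ) ^ ((1 - η) * (E : ℝ))) :=
          mul_le_mul hTle hSgle hSg0 (by positivity)
      _ = v * ((10:ℝ) ^ (κ * E) * (10:ℝ) ^ ((1 - η) * (E : ℝ))) := by ring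
      _ ≤ _ := mul_le_mul_of_nonneg_left (hexp η hκη) hv0
  have herr3 : 2 * T * Sg * H ≤ 8 * v * (Y * E) := by
    calc 2 * T * Sg * H = 2 * (T * Sg) * H := by ring
      _ ≤ 2 * (v * Y) * (4 * E) := by
          have : 0 ≤ T * Sg := mul_nonneg hT0 hSg0
          gcongr
      _ = 8 * v * (Y * E) := by ring
  have hErr : T * Sg + 2 * T * WW + 2 * T * Sg * H ≤ (10 : ℝ) ^ ((1 - κ) * (E : ℝ)) := by
    have h1 : T * Sg + 2 * T * WW + 2 * T * Sg * H ≤ Y * ((9 * v + 2) * E) := by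
      have h2 : v * Y ≤ v * Y * E := by
        have : 0 ≤ v * Y := by positivity
        nlinarith
      have h3 : 2 * Y ≤ 2 * Y * E := by nlinarith
      nlinarith
    have h2 : (9 * (v:ℝ) + 2) * E ≤ (10:ℝ) ^ (2 * κ * E) := by
      refine le_trans ?_ (hE₂ E hEE2)
      have h3 : (E:ℝ) ^ 2 ≤ (E : ℝ) ^ (v + 2) := pow_le_pow_right₀ (by linarith) (by omega)
      nlinarith
    calc T * Sg + 2 * T * WW + 2 * T * Sg * H ≤ Y * ((9 * v + 2) * E) := h1
      _ ≤ Y * (10:ℝ) ^ (2 * κ * E) := mul_le_mul_of_nonneg_left h2 hY0.le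
      _ = (10 : ℝ) ^ ((1 - κ) * (E : ℝ)) := by
          rw [hY, ← Real.rpow_add (by norm_num)]; congr 1; ring
  -- the main terms
  have hLE0 : 0 < LE := by linarith
  set Q : ℝ := vol * LE ^ (v + 3) / (E : ℝ) ^ (v + 2) with hQ
  have hcE : c' * E ≤ LR := hRlog
  have hc'E0 : 0 < c' * E := by positivity
  have hmain1 : C₁ * vol * LE ^ (v + 2) / LR ^ (v + 2) ≤ C₁ / c' ^ (v + 2) * Q := by
    calc C₁ * vol * LE ^ (v + 2) / LR ^ (v + 2) ≤ C₁ * vol * LE ^ (v + 2) / (c' * E) ^ (v + 2) := by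
          gcongr
      _ ≤ C₁ * vol * LE ^ (v + 3) / (c' * E) ^ (v + 2) := by
          have : LE ^ (v + 2) ≤ LE ^ (v + 3) := pow_le_pow_right₀ hlogE (by omega)
          gcongr
      _ = C₁ / c' ^ (v + 2) * Q := by rw [hQ, mul_pow]; field_simp
  have hmain2 : 2 * C₂ * vol * LE ^ (v + 3) / LR ^ (v + 3) * H ≤ 8 * C₂ / c' ^ (v + 3) * Q := by
    calc 2 * C₂ * vol * LE ^ (v + 3) / LR ^ (v + 3) * H
        ≤ 2 * C₂ * vol * LE ^ (v + 3) / (c' * E) ^ (v + 3) * (4 * E) := by gcongr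
      _ = 8 * C₂ / c' ^ (v + 3) * Q := by
          rw [hQ, mul_pow, pow_succ (E : ℝ) (v + 2)]
          field_simp
          ring
  have hfin : (C₁ / c' ^ (v + 2) + 8 * C₂ / c' ^ (v + 3)) * vol * LE ^ (v + 3) /
      (E : ℝ) ^ (v + 2) = C₁ / c' ^ (v + 2) * Q + 8 * C₂ / c' ^ (v + 3) * Q := by
    rw [hQ]; ring
  rw [hfin]
  linarith

end Pool.Agent.HP
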