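import Pool.Agent.HP.ASX
import Pool.Agent.HP.GVL
import Pool.Agent.HP.MLC

/-! ASC (~250 lines): numerics of the assembly, for fixed `m, lm`, `h = f m * 10^lm`, `Z = X/m`. Let `QS X m lm` be nonempty (else trivial), then
`10^lm > q > Z/2`, so `Z ≤ h ≤ 10 X^(1+3δ₀)`; `hi = h + ⌊X/m⌋`, `lo = h`. `y = ⌊X^η⌋`. For `q` in the set let `a = sp y N₁ ≤ X^κ`, `N₁ = h + q`,
`l i` the number of digits of the `i`-th prime `> y` of `N₁`, `E = ∑ l`. Then `10^(E-v) ≤ N₁/a < 10^E`.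
Parameters: `T = 88 v m^4`, `W = 44 m^4`, `G = 18 T`, `B = X^2`, `g l i = 10^(l i - 1)/T`. -/

set_option autoImplicit false

namespace Pool.Agent.HP

open Finset

private theorem asc_sizes {v n y : ℕ} {Y : ℝ} (hy : Y < (y : ℝ) + 1) (hn : 1 ≤ n)
    (hl : (rl y n).length = v) (hnp : ¬ n.Prime) :
    ∃ l : Fin v → ℕ, (rl y n).map dc = List.ofFn l ∧ 1 ≤ sp y n ∧
      sp y n * 10 ^ (∑ i, l i) ≤ 10 ^ v * n ∧ n ≤ sp y n * 10 ^ (∑ i, l i) ∧
      (∀ i, Y < (10 : ℝ) ^ (l i)) ∧ (v = 1 → 2 ≤ sp y n) ∧ ∀ i, 1 ≤ l i := by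
  obtain ⟨h1, h2⟩ := dec_mul hn y
  obtain ⟨p, hp⟩ : ∃ p : Fin v → ℕ, rl y n = List.ofFn p := by
    subst hl
    exact ⟨(rl y n).get, (List.ofFn_get _).symm⟩
  have hmem : ∀ i, (p i).Prime ∧ y < p i := by
    intro i
    have : p i ∈ rl y n := by rw [hp]; exact List.mem_ofFn.2 ⟨i, rfl⟩
    unfold rl at this
    rw [List.mem_filter] at this
    exact ⟨Nat.prime_of_mem_primeFactorsList this.1, by simpa using this.2⟩
  have hprod : (rl y n).prod = ∏ i, p i := by rw [hp, List.prod_ofFn]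
  have hdc : ∀ i, 10 ^ (dc (p i) - 1) ≤ p i ∧ p i < 10 ^ dc (p i) ∧ 1 ≤ dc (p i) :=
    fun i => dc_spec (hmem i).1.one_lt.le
  have hup : ∏ i, p i ≤ 10 ^ (∑ i, dc (p i)) := by
    rw [← Finset.prod_pow_eq_pow_sum]
    exact Finset.prod_le_prod' fun i _ => (hdc i).2.1.le
  have hlo : 10 ^ (∑ i, dc (p i)) ≤ 10 ^ v * ∏ i, p i := by
    have e : (10 : ℕ) ^ v = ∏ _i : Fin v, 10 := by simp
    rw [← Finset.prod_pow_eq_pow_sum, e, ← Finset.prod_mul_distrib]
    refine Finset.prod_le_prod' fun i _ => ?_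
    have h3 : 10 ^ dc (p i) = 10 * 10 ^ (dc (p i) - 1) := by
      rw [← pow_succ', Nat.sub_add_cancel (hdc i).2.2]
    rw [h3]
    exact Nat.mul_le_mul_left _ (hdc i).1
  rw [hprod] at h1
  refine ⟨fun i => dc (p i), ?_, h2, ?_, ?_, ?_, ?_, fun i => (hdc i).2.2⟩
  · rw [hp, List.map_ofFn]; rfl
  · calc sp y n * 10 ^ (∑ i, dc (p i)) ≤ sp y n * (10 ^ v * ∏ i, p i) :=
          Nat.mul_le_mul_left _ hlo
      _ = 10 ^ v * (sp y n * ∏ i, p i) := by ring
      _ = 10 ^ v * n := by rw [← h1]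
  · calc n = sp y n * ∏ i, p i := h1
      _ ≤ _ := Nat.mul_le_mul_left _ hup
  · intro i
    have h3 : ((y : ℝ) + 1) ≤ (p i : ℝ) := by exact_mod_cast (hmem i).2
    have h4 : (p i : ℝ) < (10 : ℝ) ^ dc (p i) := by exact_mod_cast (hdc i).2.1
    linarith
  · intro hv1
    by_contra hlt
    have ha : sp y n = 1 := by omega
    apply hnp
    rw [h1, ha, one_mul]
    subst hv1
    rw [Fin.prod_univ_one]
    exact (hmem 0).1

private theorem asc_qs {X m lm q : ℕ} (hm : 2 ≤ m) (hq : q ∈ QS X m lm) :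
    q.Prime ∧ X < 2 * m * q ∧ q ≤ X / m ∧ 1 ≤ f m * 10 ^ lm ∧
      f m * 10 ^ lm + q ≤ 11 * m ^ 3 * X := by
  unfold QS at hq
  rw [Finset.mem_filter, Finset.mem_Icc] at hq
  obtain ⟨⟨hq1, hqX⟩, hqp, hX1, hX2, hdc⟩ := hq
  obtain ⟨hd1, hd2, hd3⟩ := dc_spec hq1
  rw [hdc] at hd1 hd2 hd3
  have hfm : m ≤ f m := le_f hm
  have hfm2 : f m + 1 ≤ m ^ 4 := (f_lt (by omega : 1 ≤ m)).trans_le (lam_le (by omega))
  have h10 : 10 ^ lm ≤ 10 * q := by
    have : 10 ^ lm = 10 * 10 ^ (lm - 1) := by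
      rw [← pow_succ', Nat.sub_add_cancel hd3]
    rw [this]
    exact Nat.mul_le_mul_left _ hd1
  refine ⟨hqp, ?_, ?_, ?_, ?_⟩
  · calc X < 2 * (m * q) := hX1
      _ = 2 * m * q := by ring
  · rw [Nat.le_div_iff_mul_le (by omega), mul_comm]
    exact hX2
  · have h1 : 1 ≤ 10 ^ lm := Nat.one_le_pow _ _ (by norm_num)
    exact Nat.mul_pos (by omega) h1
  · have h2 : f m * 10 ^ lm ≤ m ^ 4 * (10 * q) := Nat.mul_le_mul (by omega) h10
    have h3 : m ^ 4 * (10 * q) = 10 * m ^ 3 * (m * q) := by ring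
    have h4 : 10 * m ^ 3 * (m * q) ≤ 10 * m ^ 3 * X := Nat.mul_le_mul_left _ hX2
    have h5 : 1 ≤ m ^ 3 := Nat.one_le_pow _ _ (by omega)
    have h6 : X ≤ m ^ 3 * X := Nat.le_mul_of_pos_left _ h5
    have h7 : 11 * m ^ 3 * X = 10 * m ^ 3 * X + m ^ 3 * X := by ring
    omega

private theorem asc_log10 : Real.log 10 ≤ 3 := by
  have h5 : (10 : ℝ) ≤ Real.exp 1 ^ 3 := by
    have := Real.exp_one_gt_d9
    have h6 : (2.7 : ℝ) ^ 3 ≤ Real.exp 1 ^ 3 := by
      gcongr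
      linarith
    have h7 : (10 : ℝ) ≤ (2.7 : ℝ) ^ 3 := by norm_num
    exact h7.trans h6
  have h7 : Real.log 10 ≤ Real.log (Real.exp 1 ^ 3) := Real.log_le_log (by norm_num) h5
  rw [Real.log_pow, Real.log_exp] at h7
  push_cast at h7
  linarith

/-- all conditions on `u` -/
private theorem asc_U (v n : ℕ) (K₁ K₂ ε η δ κ : ℝ) (E₀ : ℕ) (hK₁ : 0 < K₁) (hK₂ : 0 < K₂)
    (hε : 0 < ε) (hη : 0 < η) (hδ : 0 < δ) :
    ∃ U : ℝ, ∀ u ≥ U, 4 ≤ u ∧ 6 * ((v : ℝ) + 2) ≤ u ∧ 2 / (1 - 5 * κ) ≤ u ∧ 2 * (E₀ : ℝ) ≤ u ∧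
      880 * (v : ℝ) ≤ (10 : ℝ) ^ (η / 2 * u) ∧ K₁ * Real.log (2 * u) ^ (v + 3) ≤ ε * u ∧
      K₂ * u ^ n ≤ ε * (10 : ℝ) ^ (δ * u) := by
  have h1 : ∀ᶠ u : ℝ in Filter.atTop, K₁ * Real.log (2 * u) ^ (v + 3) ≤ ε * u := by
    have h := (Real.isLittleO_pow_log_id_atTop (n := v + 3)).def
      (show 0 < ε / (2 * K₁) by positivity)
    have h' : ∀ᶠ u : ℝ in Filter.atTop, ‖Real.log (2 * u) ^ (v + 3)‖ ≤ ε / (2 * K₁) * ‖id (2 * u)‖ :=
      (Filter.tendsto_id.const_mul_atTop (by norm_num : (0 : ℝ) < 2)).eventually h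
    filter_upwards [h', Filter.eventually_ge_atTop (1 : ℝ)] with u hu hu1
    rw [Real.norm_eq_abs, Real.norm_eq_abs, id, abs_of_nonneg (show (0 : ℝ) ≤ 2 * u by linarith)] at hu
    have h4 := (le_abs_self _).trans hu
    calc K₁ * Real.log (2 * u) ^ (v + 3) ≤ K₁ * (ε / (2 * K₁) * (2 * u)) := by gcongr
      _ = ε * u := by field_simp
  have hlog : 0 < Real.log 10 := Real.log_pos (by norm_num)
  have hexp : ∀ (k : ℕ) (K e d : ℝ), 0 < K → 0 < e → 0 < d →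
      ∀ᶠ u : ℝ in Filter.atTop, K * u ^ k ≤ e * (10 : ℝ) ^ (d * u) := by
    intro k K e d hK he hd
    have h := (isLittleO_pow_exp_pos_mul_atTop (k := k) (b := Real.log 10 * d)
      (by positivity)).def (show 0 < e / K by positivity)
    filter_upwards [h, Filter.eventually_ge_atTop (0 : ℝ)] with u hu hu0
    have h2 : Real.exp (Real.log 10 * d * u) = (10 : ℝ) ^ (d * u) := by
      rw [Real.rpow_def_of_pos (by norm_num), mul_assoc]
    rw [h2, Real.norm_eq_abs, Real.norm_eq_abs, abs_of_nonneg (by positivity : (0:ℝ) ≤ u ^ k),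
      abs_of_nonneg (by positivity : (0:ℝ) ≤ (10 : ℝ) ^ (d * u))] at hu
    calc K * u ^ k ≤ K * (e / K * (10 : ℝ) ^ (d * u)) := by gcongr
      _ = e * (10 : ℝ) ^ (d * u) := by field_simp
  have h2 := hexp 0 (880 * ((v : ℝ) + 1)) 1 (η / 2) (by positivity) one_pos (by positivity)
  have h3 := hexp n K₂ ε δ hK₂ hε hδ
  have hall := h1.and (h2.and (h3.and ((Filter.eventually_ge_atTop (4 : ℝ)).and
    ((Filter.eventually_ge_atTop (6 * ((v : ℝ) + 2))).and
      ((Filter.eventually_ge_atTop (2 / (1 - 5 * κ))).and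
        (Filter.eventually_ge_atTop (2 * (E₀ : ℝ))))))))
  obtain ⟨U, hU⟩ := Filter.eventually_atTop.1 hall
  refine ⟨U, fun u hu => ?_⟩
  obtain ⟨a1, a2, a3, a4, a5, a6, a7⟩ := hU u hu
  refine ⟨a4, a5, a6, a7, ?_, a1, a3⟩
  rw [pow_zero, mul_one, one_mul] at a2
  linarith

/-- the real estimates for given `a` and `E` -/
private theorem asc_real {v : ℕ} {κ u δ₀ : ℝ} {X m a E : ℕ} (hu : (X : ℝ) = (10 : ℝ) ^ u)
    (hm1 : 1 ≤ m) (hm : (m : ℝ) ≤ (10 : ℝ) ^ (δ₀ * u)) (ha : 1 ≤ a)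
    (haκ : (a : ℝ) ≤ (10 : ℝ) ^ (κ * u))
    (h1 : a * 10 ^ E ≤ 10 ^ v * (11 * m ^ 3 * X)) (h2 : X < 2 * m * (a * 10 ^ E)) :
    (E : ℝ) ≤ v + 2 + (1 + 3 * δ₀) * u ∧ (1 - δ₀ - κ) * u - 1 ≤ E := by
  have har : (1 : ℝ) ≤ a := by exact_mod_cast ha
  have hmr : (1 : ℝ) ≤ m := by exact_mod_cast hm1
  have hm3 : (m : ℝ) ^ 3 ≤ (10 : ℝ) ^ (3 * δ₀ * u) := by
    have h3 : (10 : ℝ) ^ (3 * δ₀ * u) = ((10 : ℝ) ^ (δ₀ * u)) ^ 3 := by
      rw [← Real.rpow_natCast, ← Real.rpow_mul (by norm_num)]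
      congr 1
      push_cast
      ring
    rw [h3]
    gcongr
  constructor
  · have h3 : (10 : ℝ) ^ (E : ℝ) ≤ (10 : ℝ) ^ ((v : ℝ) + 2 + (1 + 3 * δ₀) * u) := by
      have e1 : (10 : ℝ) ^ ((v : ℝ) + 2 + (1 + 3 * δ₀) * u) =
          10 ^ v * (100 * (10 : ℝ) ^ (3 * δ₀ * u) * (10 : ℝ) ^ u) := by
        rw [show (v : ℝ) + 2 + (1 + 3 * δ₀) * u = (v : ℝ) + (2 + (3 * δ₀ * u + u)) by ring,
          Real.rpow_add (by norm_num), Real.rpow_add (by norm_num), Real.rpow_add (by norm_num),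
          Real.rpow_natCast]
        norm_num
        ring
      rw [e1, Real.rpow_natCast, ← hu]
      have h4 : (a : ℝ) * 10 ^ E ≤ 10 ^ v * (11 * m ^ 3 * X) := by exact_mod_cast h1
      have h5 : (10 : ℝ) ^ E ≤ (a : ℝ) * 10 ^ E := le_mul_of_one_le_left (by positivity) har
      have h6 : (10 : ℝ) ^ v * (11 * m ^ 3 * X) ≤
          10 ^ v * (100 * (10 : ℝ) ^ (3 * δ₀ * u) * X) := by
        have hX0 : (0 : ℝ) ≤ X := Nat.cast_nonneg X
        gcongr
        norm_num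
      linarith
    exact (Real.rpow_le_rpow_left_iff (by norm_num)).1 h3
  · have h3 : (10 : ℝ) ^ u ≤ (10 : ℝ) ^ (1 + δ₀ * u + κ * u + E) := by
      rw [Real.rpow_add (by norm_num), Real.rpow_add (by norm_num), Real.rpow_add (by norm_num),
        Real.rpow_natCast, Real.rpow_one, ← hu]
      have h4 : (X : ℝ) < 2 * m * (a * 10 ^ E) := by exact_mod_cast h2
      have h5 : 2 * (m : ℝ) * (a * 10 ^ E) ≤
          10 * (10 : ℝ) ^ (δ₀ * u) * ((10 : ℝ) ^ (κ * u) * 10 ^ E) := by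
        gcongr
        norm_num
      linarith
    have := (Real.rpow_le_rpow_left_iff (by norm_num)).1 h3
    linarith

theorem asc (v : ℕ) (hv : 1 ≤ v) (η κ κ₁ ε : ℝ) (hη : 0 < η) (hκ : 0 < κ) (hκ5 : 5 * κ < 1)
    (hκ₁ : 0 < κ₁) (hκκ : 6 * κ < κ₁) (hκ1 : κ₁ ≤ 1) (hε : 0 < ε) : ∃ δ₀ : ℝ, 0 < δ₀ ∧
    ∃ X₀ : ℕ, ∀ X ≥ X₀, ∀ m lm : ℕ, 2 ≤ m → (m : ℝ) ≤ (X : ℝ) ^ δ₀ →
    (((QS X m lm).filter (fun q =>
      ((sp ⌊(X : ℝ) ^ η⌋₊ (f m * 10 ^ lm + q) : ℕ) : ℝ) ≤ (X : ℝ) ^ κ ∧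
      (rl ⌊(X : ℝ) ^ η⌋₊ (f m * 10 ^ lm + q)).length = v ∧ ¬ (f m * 10 ^ lm + q).Prime ∧
      (f (f (f m * 10 ^ lm + q))).Prime ∧
      (X : ℝ) ^ κ₁ ≤ (gp (f (f m * 10 ^ lm + q)) : ℝ))).card : ℝ) ≤
      ε * (X / (m * Real.log X)) := by
  classical
  obtain ⟨C, hC, c', hc', E₀, hmlc⟩ := mlc v hv (η / 2) (κ₁ / 4) (by positivity) (by positivity)
  set c : ℝ := min c' (1 / 2) with hc
  have hc0 : 0 < c := lt_min hc' (by norm_num)
  have hcc' : c ≤ c' := min_le_left _ _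
  have hc2 : c ≤ 1 / 2 := min_le_right _ _
  have hκlt : κ < 1 / 5 := by linarith
  have hvR : (1 : ℝ) ≤ v := by exact_mod_cast hv
  set δ₀ : ℝ := min (1 / 20) (min (η / 8) (min ((1 - 5 * κ) / 2) (c * (1 - κ) / (5 + 4 * v))))
    with hδ₀
  have hδ0 : 0 < δ₀ := by
    refine lt_min (by norm_num) (lt_min (by positivity) (lt_min (by linarith) ?_))
    have : 0 < 1 - κ := by linarith
    positivity
  have hδ1 : δ₀ ≤ 1 / 20 := min_le_left _ _
  have hδ2 : δ₀ ≤ η / 8 := (min_le_right _ _).trans (min_le_left _ _)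
  have hδ3 : δ₀ ≤ (1 - 5 * κ) / 2 :=
    (min_le_right _ _).trans ((min_le_right _ _).trans (min_le_left _ _))
  have hδ4 : (5 + 4 * (v : ℝ)) * δ₀ ≤ c * (1 - κ) := by
    have h1 : δ₀ ≤ c * (1 - κ) / (5 + 4 * v) :=
      (min_le_right _ _).trans ((min_le_right _ _).trans (min_le_right _ _))
    rw [le_div_iff₀ (by positivity)] at h1
    linarith
  set D : ℝ := 10 ^ v * 11 with hD
  have hD1 : 1 ≤ D := by
    have : (1 : ℝ) ≤ 10 ^ v := one_le_pow₀ (by norm_num)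
    rw [hD]
    linarith
  set K₁ : ℝ := 72 * C * 2 ^ (v + 2) * 7 ^ (v - 1) with hK₁
  set K₂ : ℝ := 12 * 3 ^ v * (1584 * v) ^ v * D with hK₂
  have hK₁0 : 0 < K₁ := by positivity
  have hK₂0 : 0 < K₂ := by positivity
  obtain ⟨U, hU⟩ := asc_U v (v + 2) K₁ K₂ (ε / 2) η δ₀ κ E₀ hK₁0 hK₂0 (by positivity) hη hδ0
  refine ⟨δ₀, hδ0, ⌈(10 : ℝ) ^ U⌉₊, fun X hX m lm hm2 hmX => ?_⟩
  have hXU : (10 : ℝ) ^ U ≤ X := (Nat.le_ceil _).trans (by exact_mod_cast hX)
  have hXpos : (0 : ℝ) < X := lt_of_lt_of_le (by positivity) hXU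
  set u : ℝ := Real.logb 10 X with hu
  have hXu : (X : ℝ) = (10 : ℝ) ^ u :=
    (Real.rpow_logb (by norm_num) (by norm_num) hXpos).symm
  have hUu : U ≤ u := by
    rw [hu, Real.le_logb_iff_rpow_le (by norm_num) hXpos]
    exact hXU
  obtain ⟨hu4, hu6, huκ, huE, hu880, hulog, huexp⟩ := hU u hUu
  have hu0' : 0 < u := by linarith
  have hδu : δ₀ * u ≤ 1 / 20 * u := mul_le_mul_of_nonneg_right hδ1 hu0'.le
  have hδu0 : 0 ≤ δ₀ * u := mul_nonneg hδ0.le hu0'.le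
  have hκu : κ * u ≤ 1 / 5 * u := mul_le_mul_of_nonneg_right hκlt.le hu0'.le
  have hκu0 : 0 ≤ κ * u := mul_nonneg hκ.le hu0'.le
  have hδηu : δ₀ * u ≤ η / 8 * u := mul_le_mul_of_nonneg_right hδ2 hu0'.le
  have hδκu : δ₀ * u ≤ (1 - 5 * κ) / 2 * u := mul_le_mul_of_nonneg_right hδ3 hu0'.le
  have hXκ : ∀ t : ℝ, (X : ℝ) ^ t = (10 : ℝ) ^ (t * u) := by
    intro t
    rw [hXu, ← Real.rpow_mul (by norm_num), mul_comm]
  have hlogX : Real.log X = u * Real.log 10 := by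
    rw [hXu, Real.log_rpow (by norm_num)]
  have hlogX0 : 0 < Real.log X := by
    rw [hlogX]
    have : 0 < Real.log 10 := Real.log_pos (by norm_num)
    have : 0 < u := by linarith
    positivity
  have hlogX3 : Real.log X ≤ 3 * u := by
    rw [hlogX]
    have h1 := mul_le_mul_of_nonneg_left asc_log10 hu0'.le
    linarith
  have hmpos : (0 : ℝ) < m := by exact_mod_cast (by omega : 0 < m)
  have hmu : (m : ℝ) ≤ (10 : ℝ) ^ (δ₀ * u) := by
    rw [← hXκ]
    exact hmX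
  set y : ℕ := ⌊(X : ℝ) ^ η⌋₊ with hy
  have hylt : (X : ℝ) ^ η < (y : ℝ) + 1 := Nat.lt_floor_add_one _
  set h : ℕ := f m * 10 ^ lm with hh
  set S : Finset ℕ := (QS X m lm).filter (fun q =>
      ((sp y (h + q) : ℕ) : ℝ) ≤ (X : ℝ) ^ κ ∧
      (rl y (h + q)).length = v ∧ ¬ (h + q).Prime ∧
      (f (f (h + q))).Prime ∧
      (X : ℝ) ^ κ₁ ≤ (gp (f (h + q)) : ℝ)) with hS
  rcases S.eq_empty_or_nonempty with hemp | ⟨q₀, hq₀⟩
  · rw [hemp, Finset.card_empty, Nat.cast_zero]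
    positivity
  have hq₀QS := (Finset.mem_filter.1 hq₀).1
  obtain ⟨hq₀p, hq₀1, hq₀2, hh1, hh2⟩ := asc_qs hm2 hq₀QS
  -- parameters
  set Zn : ℕ := X / m with hZn
  set hi : ℕ := h + Zn with hhi
  set T : ℕ := 88 * v * m ^ 4 with hT
  set G : ℕ := 18 * T with hG
  have hhihm : hi - h = Zn := by omega
  have hmX2 : 2 * m ≤ X := by
    have h1 : 2 * (m : ℝ) ≤ X := by
      rw [hXu]
      calc 2 * (m : ℝ) ≤ 10 * (10 : ℝ) ^ (δ₀ * u) := by linarith
        _ = (10 : ℝ) ^ (1 + δ₀ * u) := by rw [Real.rpow_add (by norm_num), Real.rpow_one]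
        _ ≤ (10 : ℝ) ^ u := by
            refine Real.rpow_le_rpow_of_exponent_le (by norm_num) ?_
            linarith
    exact_mod_cast h1
  have hXZ : X ≤ 2 * m * Zn := by
    have h1 := Nat.div_add_mod X m
    have h2 := Nat.mod_lt X (by omega : m > 0)
    rw [← hZn] at h1
    have h3 : 2 * m * Zn = 2 * (m * Zn) := by ring
    rw [h3]
    omega
  have hZn1 : 1 ≤ Zn := by
    rw [hZn, Nat.one_le_div_iff (by omega)]
    omega
  have hZnX : (Zn : ℝ) ≤ X / m := Nat.cast_div_le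
  have hhiX : hi ≤ 11 * m ^ 3 * X := by
    have h1 : h ≤ 10 * m ^ 3 * X := by
      -- from the size of q₀
      unfold QS at hq₀QS
      rw [Finset.mem_filter, Finset.mem_Icc] at hq₀QS
      obtain ⟨⟨hq1, hqX⟩, hqp, hX1, hX2, hdc⟩ := hq₀QS
      obtain ⟨hd1, hd2, hd3⟩ := dc_spec hq1
      rw [hdc] at hd1 hd2 hd3
      have hfm2 : f m + 1 ≤ m ^ 4 := (f_lt (by omega : 1 ≤ m)).trans_le (lam_le (by omega))
      have h10 : 10 ^ lm ≤ 10 * q₀ := by
        have : 10 ^ lm = 10 * 10 ^ (lm - 1) := by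
          rw [← pow_succ', Nat.sub_add_cancel hd3]
        rw [this]
        exact Nat.mul_le_mul_left _ hd1
      calc h ≤ m ^ 4 * (10 * q₀) := Nat.mul_le_mul (by omega) h10
        _ = 10 * m ^ 3 * (m * q₀) := by ring
        _ ≤ 10 * m ^ 3 * X := Nat.mul_le_mul_left _ hX2
    have h2 : Zn ≤ X := Nat.div_le_self _ _
    have h5 : 1 ≤ m ^ 3 := Nat.one_le_pow _ _ (by omega)
    have h6 : X ≤ m ^ 3 * X := Nat.le_mul_of_pos_left _ h5
    have h7 : 11 * m ^ 3 * X = 10 * m ^ 3 * X + m ^ 3 * X := by ring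
    omega
  have hTcond : 4 * v * hi ≤ T * (hi - h) := by
    rw [hhihm]
    calc 4 * v * hi ≤ 4 * v * (11 * m ^ 3 * X) := Nat.mul_le_mul_left _ hhiX
      _ ≤ 4 * v * (11 * m ^ 3 * (2 * m * Zn)) :=
          Nat.mul_le_mul_left _ (Nat.mul_le_mul_left _ hXZ)
      _ = T * Zn := by rw [hT]; ring
  have hWcond : 2 * hi ≤ 44 * m ^ 4 * (hi - h) := by
    rw [hhihm]
    calc 2 * hi ≤ 2 * (11 * m ^ 3 * X) := Nat.mul_le_mul_left _ hhiX
      _ ≤ 2 * (11 * m ^ 3 * (2 * m * Zn)) :=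
          Nat.mul_le_mul_left _ (Nat.mul_le_mul_left _ hXZ)
      _ = 44 * m ^ 4 * Zn := by ring
  have hlh : h < hi := by omega
  set g : (Fin v → ℕ) → Fin v → ℕ := fun l i => 10 ^ (l i - 1) / T with hg
  -- the sets
  set Sal : ℕ → (Fin v → ℕ) → Finset ℕ := fun a l =>
    S.filter (fun q => sp y (h + q) = a ∧ (rl y (h + q)).map dc = List.ofFn l) with hSal
  set LL : ℕ → Finset (Fin v → ℕ) := fun a =>
    (Fintype.piFinset (fun _ : Fin v => Finset.range (⌊2 * u⌋₊ + 1))).filter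
      (fun l => (Sal a l).Nonempty) with hLL
  set AA : Finset ℕ := (Finset.Icc 1 X).filter (fun a => (a : ℝ) ≤ (10 : ℝ) ^ (κ * u)) with hAA
  -- facts for one q
  have hfacts : ∀ q ∈ S, ∃ l : Fin v → ℕ, (rl y (h + q)).map dc = List.ofFn l ∧
      1 ≤ sp y (h + q) ∧ ((sp y (h + q) : ℕ) : ℝ) ≤ (10 : ℝ) ^ (κ * u) ∧
      sp y (h + q) * 10 ^ (∑ i, l i) ≤ 10 ^ v * (11 * m ^ 3 * X) ∧
      X < 2 * m * (sp y (h + q) * 10 ^ (∑ i, l i)) ∧
      (∀ i, (10 : ℝ) ^ (η * u) < (10 : ℝ) ^ (l i)) ∧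
      (v = 1 → 2 ≤ sp y (h + q)) ∧ (∀ i, 1 ≤ l i) ∧
      h + q ≤ sp y (h + q) * 10 ^ (∑ i, l i) := by
    intro q hq
    obtain ⟨hqQS, h1, h2, h3, h4, h5⟩ := Finset.mem_filter.1 hq
    obtain ⟨b1, b2, b3, b4, b5⟩ := asc_qs hm2 hqQS
    obtain ⟨l, l1, l2, l3, l4, l5, l6, l7⟩ := asc_sizes hylt (by omega : 1 ≤ h + q) h2 h3
    refine ⟨l, l1, l2, ?_, ?_, ?_, ?_, l6, l7, l4⟩
    · rw [← hXκ]
      exact h1
    · exact l3.trans (Nat.mul_le_mul_left _ b5)
    · calc X < 2 * m * q := b2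
        _ ≤ 2 * m * (sp y (h + q) * 10 ^ (∑ i, l i)) :=
            Nat.mul_le_mul_left _ (by omega)
    · intro i
      rw [← hXκ]
      exact l5 i
  -- real estimates
  have hEst : ∀ (a : ℕ) (l : Fin v → ℕ), 1 ≤ a → (a : ℝ) ≤ (10 : ℝ) ^ (κ * u) →
      a * 10 ^ (∑ i, l i) ≤ 10 ^ v * (11 * m ^ 3 * X) →
      X < 2 * m * (a * 10 ^ (∑ i : Fin v, l i)) →
      u / 2 ≤ ((∑ i, l i : ℕ) : ℝ) ∧ ((∑ i, l i : ℕ) : ℝ) ≤ 2 * u ∧
      ((∑ i, l i : ℕ) : ℝ) ≤ v + 2 + (1 + 3 * δ₀) * u ∧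
      (1 - δ₀ - κ) * u - 1 ≤ ((∑ i, l i : ℕ) : ℝ) := by
    intro a l h1 h2 h3 h4
    obtain ⟨r1, r2⟩ := asc_real hXu (by omega) hmu h1 h2 h3 h4
    have e1 : (1 - δ₀ - κ) * u = u - δ₀ * u - κ * u := by ring
    have e2 : (1 + 3 * δ₀) * u = u + 3 * (δ₀ * u) := by ring
    refine ⟨?_, ?_, r1, r2⟩
    · rw [e1] at r2
      linarith
    · rw [e2] at r1
      linarith
  -- the cover
  have hcover : S ⊆ AA.biUnion (fun a => (LL a).biUnion (fun l => Sal a l)) := by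
    intro q hq
    obtain ⟨l, l1, l2, l3, l4, l5, l6, l7, l8, l9⟩ := hfacts q hq
    obtain ⟨e1, e2, e3, e4⟩ := hEst _ l l2 l3 l4 l5
    have hqS : q ∈ Sal (sp y (h + q)) l := by
      rw [hSal]
      simp only [Finset.mem_filter]
      exact ⟨hq, trivial, l1⟩
    rw [Finset.mem_biUnion]
    refine ⟨sp y (h + q), ?_, ?_⟩
    · rw [hAA, Finset.mem_filter, Finset.mem_Icc]
      refine ⟨⟨l2, ?_⟩, l3⟩
      have h1 : ((sp y (h + q) : ℕ) : ℝ) ≤ X := by
        rw [hXu]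
        refine l3.trans (Real.rpow_le_rpow_of_exponent_le (by norm_num) ?_)
        linarith
      exact_mod_cast h1
    · rw [Finset.mem_biUnion]
      refine ⟨l, ?_, hqS⟩
      rw [hLL]
      simp only [Finset.mem_filter, Fintype.mem_piFinset, Finset.mem_range]
      refine ⟨fun i => ?_, ⟨q, hqS⟩⟩
      have h1 : l i ≤ ∑ i, l i := Finset.single_le_sum (fun _ _ => Nat.zero_le _) (Finset.mem_univ i)
      have h2 : ∑ i, l i ≤ ⌊2 * u⌋₊ := Nat.le_floor e2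
      omega
  -- properties of the pairs a, l
  have hpair : ∀ a ∈ AA, ∀ l ∈ LL a, 1 ≤ a ∧ (a : ℝ) ≤ (10 : ℝ) ^ (κ * u) ∧
      a * 10 ^ (∑ i, l i) ≤ 10 ^ v * (11 * m ^ 3 * X) ∧
      X < 2 * m * (a * 10 ^ (∑ i : Fin v, l i)) ∧
      (∀ i, (10 : ℝ) ^ (η * u) < (10 : ℝ) ^ (l i)) ∧ (v = 1 → 2 ≤ a) ∧ (∀ i, 1 ≤ l i) ∧
      h ≤ a * 10 ^ (∑ i, l i) := by
    intro a ha l hl
    rw [hLL] at hl
    simp only [Finset.mem_filter] at hl
    obtain ⟨q, hq⟩ := hl.2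
    rw [hSal] at hq
    simp only [Finset.mem_filter] at hq
    obtain ⟨hqS, hqa, hql⟩ := hq
    obtain ⟨l', l1, l2, l3, l4, l5, l6, l7, l8, l9⟩ := hfacts q hqS
    have hll : l' = l := List.ofFn_injective (l1.symm.trans hql)
    subst hll
    rw [hqa] at l2 l3 l4 l5 l7 l9
    exact ⟨l2, l3, l4, l5, l6, l7, l8, by omega⟩
  have hT10 : ∀ a ∈ AA, ∀ l ∈ LL a, ∀ i, T ≤ 10 ^ (l i - 1) := by
    intro a ha l hl i
    obtain ⟨p1, p2, p3, p4, p5, p6, p7, p8⟩ := hpair a ha l hl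
    have h1 : (T : ℝ) * 10 ≤ (10 : ℝ) ^ (η * u) := by
      have h2 : (m : ℝ) ^ 4 ≤ (10 : ℝ) ^ (η / 2 * u) := by
        have h3 : (m : ℝ) ^ 4 ≤ ((10 : ℝ) ^ (δ₀ * u)) ^ 4 := by gcongr
        have h4 : ((10 : ℝ) ^ (δ₀ * u)) ^ 4 = (10 : ℝ) ^ (4 * δ₀ * u) := by
          rw [← Real.rpow_natCast, ← Real.rpow_mul (by norm_num)]
          congr 1
          push_cast
          ring
        rw [h4] at h3
        refine h3.trans (Real.rpow_le_rpow_of_exponent_le (by norm_num) ?_)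
        linarith
      have h5 : (T : ℝ) * 10 = (880 * (v : ℝ)) * (m : ℝ) ^ 4 := by
        rw [hT]
        push_cast
        ring
      have h6 : (10 : ℝ) ^ (η * u) = (10 : ℝ) ^ (η / 2 * u) * (10 : ℝ) ^ (η / 2 * u) := by
        rw [← Real.rpow_add (by norm_num)]
        congr 1
        ring
      rw [h5, h6]
      exact mul_le_mul hu880 h2 (by positivity) (by positivity)
    have h7 : (T : ℝ) * 10 ≤ (10 : ℝ) ^ (l i) := h1.trans (p5 i).le
    have h8 : T * 10 ≤ 10 ^ l i := by exact_mod_cast h7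
    have h9 : 10 ^ l i = 10 ^ (l i - 1) * 10 := by
      rw [← pow_succ, Nat.sub_add_cancel (p7 i)]
    rw [h9] at h8
    exact Nat.le_of_mul_le_mul_right h8 (by norm_num)
  have hTpos : 1 ≤ T := by
    rw [hT]
    have : 1 ≤ m ^ 4 := Nat.one_le_pow _ _ (by omega)
    exact Nat.mul_pos (by omega) this
  have hg1 : ∀ a ∈ AA, ∀ l ∈ LL a, ∀ i, 1 ≤ g l i ∧ g l i * T ≤ 10 ^ (l i - 1) := by
    intro a ha l hl i
    have h1 := hT10 a ha l hl i
    rw [hg]
    exact ⟨(Nat.one_le_div_iff (by omega)).2 h1, Nat.div_mul_le_self _ _⟩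
  have hGg : ∀ a ∈ AA, ∀ l ∈ LL a, ∀ i, 9 * 10 ^ (l i - 1) ≤ G * g l i := by
    intro a ha l hl i
    have h1 := (hg1 a ha l hl i).1
    have h2 : 10 ^ (l i - 1) < (g l i + 1) * T :=
      Nat.lt_mul_of_div_lt (Nat.lt_succ_self _) (by omega)
    have h3 : (g l i + 1) * T ≤ 2 * g l i * T := Nat.mul_le_mul_right _ (by omega)
    calc 9 * 10 ^ (l i - 1) ≤ 9 * (2 * g l i * T) := Nat.mul_le_mul_left _ (by omega)
      _ = G * g l i := by rw [hG]; ring
  -- the cells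
  set F : ℕ → (Fin v → ℕ) → Finset (Fin v → ℕ) := fun a l =>
    (Fintype.piFinset (fun _ : Fin v => Finset.range G)).filter (fun j =>
        ∃ x : Fin v → ℕ, (∀ i, gs (l i) (g l i) (j i) ≤ x i ∧ x i < gs (l i) (g l i) (j i + 1)) ∧
          h < a * ∏ i, x i ∧ a * ∏ i, x i ≤ hi) with hF
  set Λ : ℝ := Real.log (2 * u) ^ (v + 3) * 2 ^ (v + 2) / u ^ (v + 2) with hΛ
  have hlog2u : 0 ≤ Real.log (2 * u) := Real.log_nonneg (by linarith)
  have hΛ0 : 0 ≤ Λ := by positivity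
  set Er : ℝ := D * (10 : ℝ) ^ (((1 + 3 * δ₀) * (1 - c) + κ * c) * u) with hEr
  have hEr0 : 0 ≤ Er := by positivity
  have hone : ∀ a ∈ AA, ∀ l ∈ LL a, ((Sal a l).card : ℝ) ≤
      ∑ j ∈ F a l, (C * Λ * (∏ i, ((gs (l i) (g l i) (j i + 1) : ℝ) - gs (l i) (g l i) (j i))) +
        Er * (1 / (a : ℝ))) := by
    intro a ha l hl
    obtain ⟨p1, p2, p3, p4, p5, p6, p7, p8⟩ := hpair a ha l hl
    obtain ⟨e1, e2, e3, e4⟩ := hEst a l p1 p2 p3 p4
    set E : ℕ := ∑ i, l i with hE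
    have hEpos : (1 : ℝ) ≤ E := by linarith
    have hapos : (0 : ℝ) < a := by exact_mod_cast p1
    -- size of `f a`
    have hfa : (f a : ℝ) + 1 ≤ (10 : ℝ) ^ (4 * κ * u) := by
      have h6 : f a + 1 ≤ a ^ 4 := (f_lt p1).trans_le (lam_le p1)
      have h7 : (f a : ℝ) + 1 ≤ (a : ℝ) ^ 4 := by exact_mod_cast h6
      refine h7.trans ?_
      have h8 : (10 : ℝ) ^ (4 * κ * u) = ((10 : ℝ) ^ (κ * u)) ^ 4 := by
        rw [← Real.rpow_natCast, ← Real.rpow_mul (by norm_num)]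
        congr 1
        push_cast
        ring
      rw [h8]
      gcongr
    have hδ : ((f a : ℝ) + 1) * (10 : ℝ) ^ (κ₁ / 4 * ((E : ℕ) : ℝ)) ≤ (X : ℝ) ^ κ₁ := by
      rw [hXκ]
      calc ((f a : ℝ) + 1) * (10 : ℝ) ^ (κ₁ / 4 * (E : ℝ))
          ≤ (10 : ℝ) ^ (4 * κ * u) * (10 : ℝ) ^ (κ₁ / 4 * (E : ℝ)) := by gcongr
        _ = (10 : ℝ) ^ (4 * κ * u + κ₁ / 4 * (E : ℝ)) := by
            rw [Real.rpow_add (by norm_num)]
        _ ≤ (10 : ℝ) ^ (κ₁ * u) := by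
            apply Real.rpow_le_rpow_of_exponent_le (by norm_num)
            have h6 : κ₁ / 4 * (E : ℝ) ≤ κ₁ / 4 * (v + 2 + (1 + 3 * δ₀) * u) := by gcongr
            have h7 : κ₁ * (6 * ((v : ℝ) + 2)) ≤ κ₁ * u := by gcongr
            have h8 : 4 * κ * u ≤ 2 / 3 * κ₁ * u := by
              apply mul_le_mul_of_nonneg_right _ (by linarith)
              linarith
            have h9 : δ₀ * (κ₁ * u) ≤ 1 / 20 * (κ₁ * u) :=
              mul_le_mul_of_nonneg_right hδ1 (mul_nonneg hκ₁.le hu0'.le)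
            have h10 : 0 ≤ κ₁ * u := mul_nonneg hκ₁.le hu0'.le
            have h11 : κ₁ / 4 * (v + 2 + (1 + 3 * δ₀) * u) =
              κ₁ * (6 * ((v : ℝ) + 2)) / 24 + κ₁ * u / 4 + 3 / 4 * (δ₀ * (κ₁ * u)) := by ring
            rw [h11] at h6
            have h12 : 2 / 3 * κ₁ * u = 2 / 3 * (κ₁ * u) := by ring
            rw [h12] at h8
            linarith
    have hfa10 : f a < 10 ^ E := by
      have h6 : (f a : ℝ) < (10 : ℝ) ^ E := by
        have h7 : (10 : ℝ) ^ (4 * κ * u) ≤ (10 : ℝ) ^ (E : ℝ) := by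
          apply Real.rpow_le_rpow_of_exponent_le (by norm_num)
          have h8 : 2 ≤ (1 - 5 * κ) * u := by
            rw [div_le_iff₀ (by linarith)] at huκ
            linarith
          linarith
        rw [Real.rpow_natCast] at h7
        linarith
      exact_mod_cast h6
    have hq10 : ∀ q, X < 2 * m * q → 10 ^ (E / 2) ≤ q := by
      intro q hq
      have h6 : (10 : ℝ) ^ ((E / 2 : ℕ) : ℝ) * (2 * m) ≤ X := by
        have h7 : ((E / 2 : ℕ) : ℝ) ≤ (E : ℝ) / 2 := Nat.cast_div_le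
        calc (10 : ℝ) ^ ((E / 2 : ℕ) : ℝ) * (2 * m)
            ≤ (10 : ℝ) ^ ((E : ℝ) / 2) * (10 * (10 : ℝ) ^ (δ₀ * u)) := by
              have h8 : (10 : ℝ) ^ ((E / 2 : ℕ) : ℝ) ≤ (10 : ℝ) ^ ((E : ℝ) / 2) :=
                Real.rpow_le_rpow_of_exponent_le (by norm_num) h7
              have h9 : 2 * (m : ℝ) ≤ 10 * (10 : ℝ) ^ (δ₀ * u) := by linarith
              exact mul_le_mul h8 h9 (by positivity) (by positivity)
          _ = (10 : ℝ) ^ ((E : ℝ) / 2 + (1 + δ₀ * u)) := by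
              rw [Real.rpow_add (by norm_num), Real.rpow_add (by norm_num), Real.rpow_one]
          _ ≤ (10 : ℝ) ^ u := by
              refine Real.rpow_le_rpow_of_exponent_le (by norm_num) ?_
              linarith
          _ = X := hXu.symm
      rw [Real.rpow_natCast] at h6
      have h10 : 10 ^ (E / 2) * (2 * m) ≤ X := by exact_mod_cast h6
      by_contra hcon
      push Not at hcon
      have h11 : 2 * m * q ≤ 2 * m * 10 ^ (E / 2) := Nat.mul_le_mul_left _ hcon.le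
      have h12 : 2 * m * 10 ^ (E / 2) = 10 ^ (E / 2) * (2 * m) := by ring
      omega
    -- asx
    have hasx := asx y a h hi G l (g l) (Sal a l) (κ₁ / 4) p7 (fun i => (hg1 a ha l hl i).1)
      (hGg a ha l hl) hh1 (by
        intro q hq
        rw [hSal] at hq
        simp only [Finset.mem_filter] at hq
        obtain ⟨hqS, hqa, hql⟩ := hq
        obtain ⟨hqQS, s1, s2, s3, s4, s5⟩ := Finset.mem_filter.1 hqS
        obtain ⟨b1, b2, b3, b4, b5⟩ := asc_qs hm2 hqQS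
        refine ⟨b1, ?_, hq10 q b2, hqa, hql, s4, hδ.trans s5⟩
        omega)
    have hasxR : ((Sal a l).card : ℝ) ≤ ∑ j ∈ F a l,
        ((SC l (f a) (κ₁ / 4) (fun i => gs (l i) (g l i) (j i))
          (fun i => gs (l i) (g l i) (j i + 1)) a h).card : ℝ) := by
      have h1 : ((Sal a l).card : ℝ) ≤ ((∑ j ∈ F a l,
        (SC l (f a) (κ₁ / 4) (fun i => gs (l i) (g l i) (j i))
          (fun i => gs (l i) (g l i) (j i + 1)) a h).card : ℕ) : ℝ) := by
        refine Nat.cast_le.2 ?_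
        convert hasx using 2
      rwa [Nat.cast_sum] at h1
    refine hasxR.trans (Finset.sum_le_sum fun j _ => ?_)
    -- mlc
    have hm := hmlc l (f a) a h (fun i => gs (l i) (g l i) (j i))
      (fun i => gs (l i) (g l i) (j i + 1)) (by
        have : (E₀ : ℝ) ≤ E := by linarith
        exact_mod_cast this) (by
        intro i
        have h7 : η * u < (l i : ℝ) := by
          have h8 := p5 i
          rw [← Real.rpow_natCast] at h8
          exact (Real.rpow_lt_rpow_left_iff (by norm_num)).1 h8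
        have h8 : η / 2 * (E : ℝ) ≤ η / 2 * (2 * u) :=
          mul_le_mul_of_nonneg_left e2 (by positivity)
        linarith) hfa10 (by
        rcases Nat.lt_or_ge v 2 with hv2 | hv2
        · left
          have h6 := p6 (by omega)
          exact (by omega : 1 ≤ a).trans (le_f h6)
        · right; exact hv2) p1 hh1 (by
        have h6 : (a : ℝ) ≤ (10 : ℝ) ^ (2 * E) := by
          rw [← Real.rpow_natCast]
          refine p2.trans (Real.rpow_le_rpow_of_exponent_le (by norm_num) ?_)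
          push_cast
          linarith
        exact_mod_cast h6) (by
        have h6 : (h : ℝ) ≤ (10 : ℝ) ^ (2 * E) := by
          have h7 : (h : ℝ) ≤ a * 10 ^ E := by exact_mod_cast p8
          refine h7.trans ?_
          calc (a : ℝ) * 10 ^ E ≤ (10 : ℝ) ^ (E : ℝ) * 10 ^ E := by
                refine mul_le_mul_of_nonneg_right ?_ (by positivity)
                refine p2.trans (Real.rpow_le_rpow_of_exponent_le (by norm_num) ?_)
                linarith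
            _ = (10 : ℝ) ^ (2 * E) := by
                rw [Real.rpow_natCast, ← pow_add]
                congr 1
                ring
        exact_mod_cast h6) (by
        intro i
        exact ⟨(gs_le (j i) (p7 i)).2.1, (gs_le (j i + 1) (p7 i)).2.2.1⟩)
    refine hm.trans ?_
    set vol : ℝ := ∏ i, ((gs (l i) (g l i) (j i + 1) : ℝ) - gs (l i) (g l i) (j i)) with hvol
    have hvol0 : 0 ≤ vol := by
      refine Finset.prod_nonneg fun i _ => ?_
      have h1 := (gs_le (g := g l i) (j i) (p7 i)).2.1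
      have h2 : (gs (l i) (g l i) (j i) : ℝ) ≤ gs (l i) (g l i) (j i + 1) := by exact_mod_cast h1
      linarith
    refine add_le_add ?_ ?_
    · -- main term
      have hlogE : 0 ≤ Real.log (E : ℝ) := Real.log_nonneg hEpos
      have h5 : Real.log (E : ℝ) ^ (v + 3) ≤ Real.log (2 * u) ^ (v + 3) := by
        gcongr
      have h6 : (u / 2) ^ (v + 2) ≤ (E : ℝ) ^ (v + 2) := by
        have : 0 ≤ u / 2 := by linarith
        gcongr
      have hu2 : 0 < (u / 2) ^ (v + 2) := by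
        have : 0 < u / 2 := by linarith
        positivity
      have h7 : Real.log (E : ℝ) ^ (v + 3) / (E : ℝ) ^ (v + 2) ≤ Λ := by
        calc Real.log (E : ℝ) ^ (v + 3) / (E : ℝ) ^ (v + 2)
            ≤ Real.log (2 * u) ^ (v + 3) / (u / 2) ^ (v + 2) := by gcongr
          _ = Λ := by
              rw [hΛ, div_pow, div_div_eq_mul_div]
      calc C * vol * Real.log (E : ℝ) ^ (v + 3) / (E : ℝ) ^ (v + 2)
          = C * vol * (Real.log (E : ℝ) ^ (v + 3) / (E : ℝ) ^ (v + 2)) := by ring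
        _ ≤ C * vol * Λ := mul_le_mul_of_nonneg_left h7 (by positivity)
        _ = C * Λ * vol := by ring
    · -- error term
      have h5 : (10 : ℝ) ^ ((1 - c') * (E : ℝ)) ≤ (10 : ℝ) ^ ((1 - c) * (E : ℝ)) := by
        refine Real.rpow_le_rpow_of_exponent_le (by norm_num) ?_
        exact mul_le_mul_of_nonneg_right (by linarith) (by linarith)
      refine h5.trans ?_
      have h6 : (a : ℝ) * 10 ^ E ≤ D * (10 : ℝ) ^ ((1 + 3 * δ₀) * u) := by
        have h7 : (a : ℝ) * 10 ^ E ≤ 10 ^ v * (11 * m ^ 3 * X) := by exact_mod_cast p3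
        refine h7.trans ?_
        have hm3 : (m : ℝ) ^ 3 ≤ (10 : ℝ) ^ (3 * δ₀ * u) := by
          have h3 : (10 : ℝ) ^ (3 * δ₀ * u) = ((10 : ℝ) ^ (δ₀ * u)) ^ 3 := by
            rw [← Real.rpow_natCast, ← Real.rpow_mul (by norm_num)]
            congr 1
            push_cast
            ring
          rw [h3]
          gcongr
        have h8 : (10 : ℝ) ^ ((1 + 3 * δ₀) * u) = (10 : ℝ) ^ (3 * δ₀ * u) * X := by
          rw [hXu, ← Real.rpow_add (by norm_num)]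
          congr 1
          ring
        rw [h8, hD]
        calc (10 : ℝ) ^ v * (11 * m ^ 3 * X) = 10 ^ v * 11 * (m ^ 3 * X) := by ring
          _ ≤ 10 ^ v * 11 * ((10 : ℝ) ^ (3 * δ₀ * u) * X) := by gcongr
      have h7 : (10 : ℝ) ^ E ≤ D * (10 : ℝ) ^ ((1 + 3 * δ₀) * u) / a := by
        rw [le_div_iff₀ hapos]
        linarith
      have h1c : 0 ≤ 1 - c := by linarith
      calc (10 : ℝ) ^ ((1 - c) * (E : ℝ)) = ((10 : ℝ) ^ E) ^ (1 - c) := by
            rw [← Real.rpow_natCast, ← Real.rpow_mul (by norm_num), mul_comm]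
        _ ≤ (D * (10 : ℝ) ^ ((1 + 3 * δ₀) * u) / a) ^ (1 - c) :=
            Real.rpow_le_rpow (by positivity) h7 h1c
        _ = D ^ (1 - c) * ((10 : ℝ) ^ ((1 + 3 * δ₀) * u)) ^ (1 - c) / (a : ℝ) ^ (1 - c) := by
            rw [Real.div_rpow (by positivity) hapos.le, Real.mul_rpow (by positivity) (by positivity)]
        _ ≤ D * (10 : ℝ) ^ ((1 + 3 * δ₀) * (1 - c) * u) * ((10 : ℝ) ^ (κ * c * u) / a) := by
            have h8 : D ^ (1 - c) ≤ D := by
              calc D ^ (1 - c) ≤ D ^ (1 : ℝ) :=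
                    Real.rpow_le_rpow_of_exponent_le hD1 (by linarith)
                _ = D := Real.rpow_one D
            have h9 : ((10 : ℝ) ^ ((1 + 3 * δ₀) * u)) ^ (1 - c) =
                (10 : ℝ) ^ ((1 + 3 * δ₀) * (1 - c) * u) := by
              rw [← Real.rpow_mul (by norm_num)]
              congr 1
              ring
            have h10 : 1 / (a : ℝ) ^ (1 - c) ≤ (10 : ℝ) ^ (κ * c * u) / a := by
              have h11 : (a : ℝ) = (a : ℝ) ^ (1 - c) * (a : ℝ) ^ c := by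
                rw [← Real.rpow_add hapos]
                norm_num
              have h12 : (a : ℝ) ^ c ≤ (10 : ℝ) ^ (κ * c * u) := by
                calc (a : ℝ) ^ c ≤ ((10 : ℝ) ^ (κ * u)) ^ c :=
                      Real.rpow_le_rpow hapos.le p2 hc0.le
                  _ = (10 : ℝ) ^ (κ * c * u) := by
                      rw [← Real.rpow_mul (by norm_num)]
                      congr 1
                      ring
              rw [div_le_div_iff₀ (by positivity) hapos, one_mul]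
              calc (a : ℝ) = (a : ℝ) ^ (1 - c) * (a : ℝ) ^ c := h11
                _ ≤ (a : ℝ) ^ (1 - c) * (10 : ℝ) ^ (κ * c * u) := by gcongr
                _ = (10 : ℝ) ^ (κ * c * u) * (a : ℝ) ^ (1 - c) := by ring
            calc D ^ (1 - c) * ((10 : ℝ) ^ ((1 + 3 * δ₀) * u)) ^ (1 - c) / (a : ℝ) ^ (1 - c)
                = D ^ (1 - c) * (10 : ℝ) ^ ((1 + 3 * δ₀) * (1 - c) * u) *
                    (1 / (a : ℝ) ^ (1 - c)) := by rw [h9]; ring
              _ ≤ D * (10 : ℝ) ^ ((1 + 3 * δ₀) * (1 - c) * u) *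
                    ((10 : ℝ) ^ (κ * c * u) / a) := by gcongr
        _ = Er * (1 / (a : ℝ)) := by
            rw [hEr, show ((1 + 3 * δ₀) * (1 - c) + κ * c) * u =
              (1 + 3 * δ₀) * (1 - c) * u + κ * c * u by ring, Real.rpow_add (by norm_num)]
            ring
  -- the bound for one `a`
  set Bd : ℝ := C * Λ * (6 * (X / m) * (7 * u) ^ (v - 1)) +
    (3 * u) ^ v * (G : ℝ) ^ v * Er with hBd
  have haa : ∀ a ∈ AA, (((LL a).biUnion (fun l => Sal a l)).card : ℝ) ≤ Bd * (1 / (a : ℝ)) := by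
    intro a ha
    have ha1 : 1 ≤ a := (Finset.mem_Icc.1 (Finset.mem_filter.1 ha).1).1
    have hapos : (0 : ℝ) < a := by exact_mod_cast ha1
    have h1 : (((LL a).biUnion (fun l => Sal a l)).card : ℝ) ≤ ∑ l ∈ LL a, ((Sal a l).card : ℝ) := by
      exact_mod_cast Finset.card_biUnion_le
    have h2 : ∑ l ∈ LL a, ((Sal a l).card : ℝ) ≤ ∑ l ∈ LL a, ∑ j ∈ F a l,
        (C * Λ * (∏ i, ((gs (l i) (g l i) (j i + 1) : ℝ) - gs (l i) (g l i) (j i))) +
        Er * (1 / (a : ℝ))) := Finset.sum_le_sum fun l hl => hone a ha l hl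
    have h3 : ∑ l ∈ LL a, ∑ j ∈ F a l,
        (C * Λ * (∏ i, ((gs (l i) (g l i) (j i + 1) : ℝ) - gs (l i) (g l i) (j i))) +
        Er * (1 / (a : ℝ))) =
        C * Λ * (∑ l ∈ LL a, ∑ j ∈ F a l,
          ∏ i, ((gs (l i) (g l i) (j i + 1) : ℝ) - gs (l i) (g l i) (j i))) +
        ∑ l ∈ LL a, ∑ _j ∈ F a l, Er * (1 / (a : ℝ)) := by
      rw [Finset.mul_sum, ← Finset.sum_add_distrib]
      refine Finset.sum_congr rfl fun l _ => ?_
      rw [Finset.sum_add_distrib, Finset.mul_sum]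
    have h4 : ∑ l ∈ LL a, ∑ j ∈ F a l,
          ∏ i, ((gs (l i) (g l i) (j i + 1) : ℝ) - gs (l i) (g l i) (j i)) ≤
        6 * ((hi : ℝ) - h) / a * (1 + Real.log ((X ^ 2 : ℕ) : ℝ)) ^ (v - 1) := by
      have hgvl := gvl hv (LL a) g G a T (44 * m ^ 4) h hi (X ^ 2) (by
        intro l hl i
        obtain ⟨p1, p2, p3, p4, p5, p6, p7, p8⟩ := hpair a ha l hl
        obtain ⟨e1, e2, e3, e4⟩ := hEst a l p1 p2 p3 p4
        refine ⟨p7 i, ?_, ?_⟩
        · have h5 : (10 : ℝ) ^ (l i) ≤ (X : ℝ) ^ 2 := by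
            rw [hXu, ← Real.rpow_natCast, ← Real.rpow_natCast, ← Real.rpow_mul (by norm_num)]
            refine Real.rpow_le_rpow_of_exponent_le (by norm_num) ?_
            have h6 : l i ≤ ∑ i, l i :=
              Finset.single_le_sum (fun _ _ => Nat.zero_le _) (Finset.mem_univ i)
            have h7 : (l i : ℝ) ≤ ((∑ i, l i : ℕ) : ℝ) := by exact_mod_cast h6
            push_cast at h7 e2 ⊢
            linarith
          exact_mod_cast h5
        · have h5 := hT10 a ha l hl i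
          refine le_trans ?_ h5
          rw [hT]
          refine Nat.mul_le_mul_right _ ?_
          omega) (fun l hl i => hg1 a ha l hl i) hlh ha1 hTcond hWcond
      convert hgvl using 2
    have h5 : (hi : ℝ) - h = Zn := by
      rw [hhi]
      push_cast
      ring
    have h6 : Real.log ((X ^ 2 : ℕ) : ℝ) ≤ 6 * u := by
      push_cast
      rw [Real.log_pow]
      push_cast
      linarith
    have h6' : 0 ≤ Real.log ((X ^ 2 : ℕ) : ℝ) := by
      push_cast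
      rw [Real.log_pow]
      push_cast
      linarith
    have h7 : 6 * ((hi : ℝ) - h) / a * (1 + Real.log ((X ^ 2 : ℕ) : ℝ)) ^ (v - 1) ≤
        (6 * (X / m) * (7 * u) ^ (v - 1)) * (1 / (a : ℝ)) := by
      rw [h5]
      calc 6 * (Zn : ℝ) / a * (1 + Real.log ((X ^ 2 : ℕ) : ℝ)) ^ (v - 1)
          ≤ 6 * (X / m) / a * (7 * u) ^ (v - 1) := by
            gcongr
            linarith
        _ = (6 * (X / m) * (7 * u) ^ (v - 1)) * (1 / (a : ℝ)) := by ring
    have h8 : ∑ l ∈ LL a, ∑ _j ∈ F a l, Er * (1 / (a : ℝ)) ≤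
        (3 * u) ^ v * (G : ℝ) ^ v * Er * (1 / (a : ℝ)) := by
      have h9 : ∀ l ∈ LL a, ∑ _j ∈ F a l, Er * (1 / (a : ℝ)) ≤
          (G : ℝ) ^ v * (Er * (1 / (a : ℝ))) := by
        intro l _
        rw [Finset.sum_const, nsmul_eq_mul]
        refine mul_le_mul_of_nonneg_right ?_ (by positivity)
        have h10 : (F a l).card ≤ G ^ v := by
          refine (Finset.card_filter_le _ _).trans ?_
          rw [Fintype.card_piFinset]
          simp
        exact_mod_cast h10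
      refine (Finset.sum_le_sum h9).trans ?_
      rw [Finset.sum_const, nsmul_eq_mul]
      have h10 : ((LL a).card : ℝ) ≤ (3 * u) ^ v := by
        have h11 : (LL a).card ≤ (⌊2 * u⌋₊ + 1) ^ v := by
          refine (Finset.card_filter_le _ _).trans ?_
          rw [Fintype.card_piFinset]
          simp
        have h12 : ((LL a).card : ℝ) ≤ ((⌊2 * u⌋₊ : ℝ) + 1) ^ v := by exact_mod_cast h11
        refine h12.trans ?_
        have h13 : (⌊2 * u⌋₊ : ℝ) ≤ 2 * u := Nat.floor_le (by linarith)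
        gcongr
        linarith
      calc ((LL a).card : ℝ) * ((G : ℝ) ^ v * (Er * (1 / (a : ℝ))))
          ≤ (3 * u) ^ v * ((G : ℝ) ^ v * (Er * (1 / (a : ℝ)))) := by gcongr
        _ = _ := by ring
    calc (((LL a).biUnion (fun l => Sal a l)).card : ℝ) ≤ _ := h1
      _ ≤ _ := h2
      _ = _ := h3
      _ ≤ C * Λ * ((6 * (X / m) * (7 * u) ^ (v - 1)) * (1 / (a : ℝ))) +
          (3 * u) ^ v * (G : ℝ) ^ v * Er * (1 / (a : ℝ)) := by
          refine add_le_add (mul_le_mul_of_nonneg_left (h4.trans h7) (by positivity)) h8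
      _ = Bd * (1 / (a : ℝ)) := by rw [hBd]; ring
  have hScard : (S.card : ℝ) ≤ ∑ a ∈ AA, Bd * (1 / (a : ℝ)) := by
    calc (S.card : ℝ) ≤ ((AA.biUnion (fun a => (LL a).biUnion (fun l => Sal a l))).card : ℝ) := by
          exact_mod_cast Finset.card_le_card hcover
      _ ≤ ∑ a ∈ AA, (((LL a).biUnion (fun l => Sal a l)).card : ℝ) := by
          exact_mod_cast Finset.card_biUnion_le
      _ ≤ _ := Finset.sum_le_sum haa
  have hharm : ∑ a ∈ AA, (1 / (a : ℝ)) ≤ 4 * u := by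
    have h1 : ∑ a ∈ AA, (1 / (a : ℝ)) ≤ ∑ a ∈ Finset.Icc 1 X, (1 / (a : ℝ)) :=
      Finset.sum_le_sum_of_subset_of_nonneg (Finset.filter_subset _ _)
        (fun i _ _ => by positivity)
    have h2 : ∑ a ∈ Finset.Icc 1 X, (1 / (a : ℝ)) ≤ 1 + Real.log X := by
      have h3 := harmonic_le_one_add_log X
      rw [harmonic_eq_sum_Icc] at h3
      push_cast at h3
      simpa [one_div] using h3
    linarith
  have hu0 : 0 < u := by linarith
  have hBd0 : 0 ≤ Bd := by positivity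
  rw [← Finset.mul_sum] at hScard
  have hfin1 : (S.card : ℝ) ≤ Bd * (4 * u) := hScard.trans (mul_le_mul_of_nonneg_left hharm hBd0)
  -- target
  have htarget : ε * (X / (m * (3 * u))) ≤ ε * (X / (m * Real.log X)) := by
    gcongr
  refine (hfin1.trans ?_).trans htarget
  -- main part
  have hmain : C * Λ * (6 * (X / m) * (7 * u) ^ (v - 1)) * (4 * u) ≤
      ε / 2 * (X / (m * (3 * u))) := by
    have h1 : (7 * u) ^ (v - 1) * u = 7 ^ (v - 1) * u ^ v := by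
      rw [mul_pow, mul_assoc, ← pow_succ, Nat.sub_add_cancel hv]
    have h2 : C * Λ * (6 * (X / m) * (7 * u) ^ (v - 1)) * (4 * u) =
        (K₁ * Real.log (2 * u) ^ (v + 3)) / u * (X / (m * (3 * u))) := by
      have h3 : C * Λ * (6 * (X / m) * (7 * u) ^ (v - 1)) * (4 * u) =
          24 * C * Λ * (X / m) * ((7 * u) ^ (v - 1) * u) := by ring
      rw [h3, h1, hΛ, hK₁, pow_add u v 2]
      field_simp
      ring
    rw [h2]
    refine mul_le_mul_of_nonneg_right ?_ (by positivity)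
    rw [div_le_iff₀ hu0]
    exact hulog
  have herr : (3 * u) ^ v * (G : ℝ) ^ v * Er * (4 * u) ≤ ε / 2 * (X / (m * (3 * u))) := by
    have h1 : (G : ℝ) ^ v ≤ (1584 * v) ^ v * (10 : ℝ) ^ (4 * v * δ₀ * u) := by
      have h2 : (G : ℝ) ≤ 1584 * v * (10 : ℝ) ^ (4 * δ₀ * u) := by
        have h3 : (m : ℝ) ^ 4 ≤ (10 : ℝ) ^ (4 * δ₀ * u) := by
          have h4 : (10 : ℝ) ^ (4 * δ₀ * u) = ((10 : ℝ) ^ (δ₀ * u)) ^ 4 := by
            rw [← Real.rpow_natCast, ← Real.rpow_mul (by norm_num)]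
            congr 1
            push_cast
            ring
          rw [h4]
          gcongr
        rw [hG, hT]
        push_cast
        calc 18 * (88 * (v : ℝ) * m ^ 4) = 1584 * v * m ^ 4 := by ring
          _ ≤ _ := by gcongr
      calc (G : ℝ) ^ v ≤ (1584 * v * (10 : ℝ) ^ (4 * δ₀ * u)) ^ v := by gcongr
        _ = (1584 * v) ^ v * (10 : ℝ) ^ (4 * v * δ₀ * u) := by
            rw [mul_pow, ← Real.rpow_natCast ((10 : ℝ) ^ (4 * δ₀ * u)), ← Real.rpow_mul (by norm_num)]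
            congr 2
            ring
    have h2 : (3 * u) ^ v * (G : ℝ) ^ v * Er * (4 * u) ≤
        K₂ / 3 * u ^ (v + 1) * (10 : ℝ) ^ ((1 - 2 * δ₀) * u) := by
      calc (3 * u) ^ v * (G : ℝ) ^ v * Er * (4 * u)
          ≤ (3 * u) ^ v * ((1584 * v) ^ v * (10 : ℝ) ^ (4 * v * δ₀ * u)) * Er * (4 * u) := by
            gcongr
        _ = K₂ / 3 * u ^ (v + 1) * ((10 : ℝ) ^ (4 * v * δ₀ * u) *
              (10 : ℝ) ^ (((1 + 3 * δ₀) * (1 - c) + κ * c) * u)) := by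
            rw [hEr, hK₂, mul_pow, pow_succ]
            ring
        _ ≤ K₂ / 3 * u ^ (v + 1) * (10 : ℝ) ^ ((1 - 2 * δ₀) * u) := by
            refine mul_le_mul_of_nonneg_left ?_ (by positivity)
            rw [← Real.rpow_add (by norm_num)]
            refine Real.rpow_le_rpow_of_exponent_le (by norm_num) ?_
            rw [← add_mul]
            refine mul_le_mul_of_nonneg_right ?_ hu0.le
            have h4 := mul_pos hδ0 hc0
            linarith
    refine h2.trans ?_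
    have h3 : (10 : ℝ) ^ ((1 - 2 * δ₀) * u) * (m * (10 : ℝ) ^ (δ₀ * u)) ≤ X := by
      calc (10 : ℝ) ^ ((1 - 2 * δ₀) * u) * (m * (10 : ℝ) ^ (δ₀ * u))
          ≤ (10 : ℝ) ^ ((1 - 2 * δ₀) * u) * ((10 : ℝ) ^ (δ₀ * u) * (10 : ℝ) ^ (δ₀ * u)) := by
            gcongr
        _ = X := by
            rw [hXu, ← Real.rpow_add (by norm_num), ← Real.rpow_add (by norm_num)]
            congr 1
            ring
    have h4 : (10 : ℝ) ^ ((1 - 2 * δ₀) * u) ≤ X / (m * (10 : ℝ) ^ (δ₀ * u)) := by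
      rw [le_div_iff₀ (by positivity)]
      exact h3
    calc K₂ / 3 * u ^ (v + 1) * (10 : ℝ) ^ ((1 - 2 * δ₀) * u)
        ≤ K₂ / 3 * u ^ (v + 1) * (X / (m * (10 : ℝ) ^ (δ₀ * u))) := by gcongr
      _ = (K₂ * u ^ (v + 2)) * (X / (m * (10 : ℝ) ^ (δ₀ * u) * (3 * u))) := by
          rw [pow_succ u (v + 1)]
          field_simp
      _ ≤ (ε / 2 * (10 : ℝ) ^ (δ₀ * u)) * (X / (m * (10 : ℝ) ^ (δ₀ * u) * (3 * u))) := by gcongr
      _ = ε / 2 * (X / (m * (3 * u))) := by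
          field_simp
  calc Bd * (4 * u) = C * Λ * (6 * (X / m) * (7 * u) ^ (v - 1)) * (4 * u) +
        (3 * u) ^ v * (G : ℝ) ^ v * Er * (4 * u) := by rw [hBd]; ring
    _ ≤ ε / 2 * (X / (m * (3 * u))) + ε / 2 * (X / (m * (3 * u))) := add_le_add hmain herr
    _ = ε * (X / (m * (3 * u))) := by ring

end Pool.Agent.HP
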