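import Pool.Agent.HP.SVM
import Pool.Agent.HP.SUW
import Pool.Agent.HP.DEL
import Pool.Agent.HP.CAT

/-! MLA (~200 lines): the main lemma. Let `N ∈ SS l A δ`, `E = ∑ l`, `t = gp N`, `m = N / t`. As `N < (A+1) 10^E` and
`t ≥ (A+1) 10^(δE)`: `m ≤ 10^((1-δ)E)`. Choose a small `c' > 0` (`c' < δ`, `c' < η`, `c' (2v+4) < c/2` and `< η/2`, with `c` of `suw`)
and `R = ⌊10^(c'E)⌋ < 10^(ηE - 1), 10^(δE)`.

`m = 1`: `N = t` is prime, `> R`, and all blocks are primes `≥ 10^(l i - 1) > R`: `svm` with `u = 1`, `c = 0`, `m = 1`,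
`Δ = 10` if `v ≥ 2` and `Δ = 10 A` if `v = 1` (then `A ≥ 1`): count `≤ C 10^E (log E)^(v+1) / E^(v+1)` (`del`).

`m ≥ 2`: by `f_gp`, `f N = f m * 10^λ + t` is a prime `> R`, `λ = dc t`, so no prime `p ≤ R`, `p ∤ m`, divides
`N` (then `p = t`), `N + m * f m * 10^λ = m * f N`, or a block. `svm` with `u = 2`, `c = ![0, m * f m * 10^λ]`,
`Δ = 10 * m * f m`, multiplied by `A * (A * 10^E + m * f m * 10^λ)` if `v = 1`; `Δ ≤ 10^(K E)` (`f m ≤ 10^(lam m) ≤ m^4`,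
`10^λ ≤ 10 t ≤ 10 (A+1) 10^E ≤ 10^(2E+1)`), so `del` bounds the product by `C (log E)^(v+2)`. For every `m` at most two values of `λ`
occur: `t ∈ [w, 10 w)` with `w = ⌈max(A 10^E, 10^(E-1))/m⌉` (the leading block is `≥ 10^(l 0 - 1)`, so `N ≥ 10^(E-1)`), so
`dc t ∈ {dc w, dc w + 1}`. Sum over `2 ≤ m ≤ 10^((1-δ)E)`: `∑ 1/m ≤ 1 + 3E` gives `C 10^E (log E)^(v+2) / E^(v+1)`; the error terms
sum to `≤ 2 R^(2v+4) (10^((1-c)E) + v 10^((1-η)E) (1+3E)) ≤ 10^((1-c'')E)`, negligible. -/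

set_option autoImplicit false

namespace Pool.Agent.HP

open Finset

open scoped Classical in
/-- the sets to which the sieve is applied -/
noncomputable def mlaS {v u : ℕ} (l : Fin v → ℕ) (A m R Δ : ℕ) (c : Fin u → ℕ) : Finset ℕ :=
  (win A (∑ i, l i)).filter (fun N => m ∣ N ∧ ∀ p : ℕ, p.Prime → p ≤ R → ¬ p ∣ Δ →
        (∀ j, ¬ p ∣ N + c j) ∧ ∀ i, ¬ p ∣ blk (ee l i) (l i) N)

private theorem mem_mlaS {v u : ℕ} {l : Fin v → ℕ} {A m R Δ : ℕ} {c : Fin u → ℕ} {N : ℕ} :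
    N ∈ mlaS l A m R Δ c ↔ N ∈ win A (∑ i, l i) ∧ (m ∣ N ∧ ∀ p : ℕ, p.Prime → p ≤ R → ¬ p ∣ Δ →
        (∀ j, ¬ p ∣ N + c j) ∧ ∀ i, ¬ p ∣ blk (ee l i) (l i) N) := by
  classical
  unfold mlaS
  rw [Finset.mem_filter]

/-- the two values of the number of digits of the greatest prime factor -/
private noncomputable def mlaW {v : ℕ} (l : Fin v → ℕ) (A : ℕ) : ℕ :=
  max (A * 10 ^ (∑ i, l i)) (10 ^ ((∑ i, l i) - 1))

private theorem ee_zero {v : ℕ} (hv : 1 ≤ v) (l : Fin v → ℕ) :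
    ee l ⟨0, hv⟩ + l ⟨0, hv⟩ = ∑ i, l i := by
  unfold ee
  have h : (Finset.univ : Finset (Fin v)) = insert ⟨0, hv⟩ (Finset.Ioi (⟨0, hv⟩ : Fin v)) := by
    ext i
    simp only [Finset.mem_univ, Finset.mem_insert, Finset.mem_Ioi, true_iff]
    rcases Nat.eq_zero_or_pos i.1 with h | h
    · left; exact Fin.ext h
    · right; exact h
  rw [h, Finset.sum_insert (by simp)]
  ring

private theorem mla_N_ge {v : ℕ} (hv : 1 ≤ v) (l : Fin v → ℕ) (N : ℕ) (hl : ∀ i, 1 ≤ l i)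
    (h : 10 ^ (l ⟨0, hv⟩ - 1) ≤ blk (ee l ⟨0, hv⟩) (l ⟨0, hv⟩) N) : 10 ^ ((∑ i, l i) - 1) ≤ N := by
  have h1 : blk (ee l ⟨0, hv⟩) (l ⟨0, hv⟩) N ≤ N / 10 ^ ee l ⟨0, hv⟩ := Nat.mod_le _ _
  have h2 : 10 ^ (l ⟨0, hv⟩ - 1) * 10 ^ ee l ⟨0, hv⟩ ≤ N :=
    (Nat.le_div_iff_mul_le (by positivity)).1 (h.trans h1)
  have h3 : (∑ i, l i) - 1 = (l ⟨0, hv⟩ - 1) + ee l ⟨0, hv⟩ := by
    have := ee_zero hv l
    have := hl ⟨0, hv⟩
    omega
  rw [h3, pow_add]
  exact h2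

private theorem dc_zero : dc 0 = 1 := by
  simp [dc, Nec92d717.decimalDigitCount]

private theorem dc_pos (n : ℕ) : 1 ≤ dc n := by
  rcases Nat.eq_zero_or_pos n with h | h
  · rw [h, dc_zero]
  · exact (dc_spec h).2.2

private theorem lt_dc (n : ℕ) : n < 10 ^ dc n := by
  rcases Nat.eq_zero_or_pos n with h | h
  · rw [h]; positivity
  · exact (dc_spec h).2.1

private theorem dc_le_of_lt {n k : ℕ} (hk : 1 ≤ k) (h : n < 10 ^ k) : dc n ≤ k := by
  rcases Nat.eq_zero_or_pos n with h0 | h0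
  · rw [h0, dc_zero]; exact hk
  · have h1 := (dc_spec h0).1
    have h2 : 10 ^ (dc n - 1) < 10 ^ k := lt_of_le_of_lt h1 h
    have h3 := (Nat.pow_lt_pow_iff_right (by norm_num : 1 < 10)).1 h2
    omega

private theorem dc_mono {a b : ℕ} (h : a ≤ b) : dc a ≤ dc b :=
  dc_le_of_lt (dc_pos b) (lt_of_le_of_lt h (lt_dc b))

private theorem mla_cover {v : ℕ} (hv : 1 ≤ v) (l : Fin v → ℕ) (A : ℕ) (δ : ℝ) (R : ℕ)
    (hl : ∀ i, 1 ≤ l i) (hE : 2 ≤ ∑ i, l i)
    (hR1 : (R : ℝ) < (10 : ℝ) ^ (δ * ((∑ i, l i : ℕ) : ℝ))) (hR2 : ∀ i, R < 10 ^ (l i - 1))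
    (Δ₁ : ℕ) (Δ : ℕ → ℕ → ℕ) (hΔ : ∀ m k p, p.Prime → ¬ p ∣ Δ m k → ¬ p ∣ m) :
    SS l A δ ⊆ mlaS l A 1 R Δ₁ (fun _ : Fin 1 => 0) ∪
      (Finset.Icc 2 ⌊(10 : ℝ) ^ ((1 - δ) * ((∑ i, l i : ℕ) : ℝ))⌋₊).biUnion (fun m =>
        (Finset.range 2).biUnion fun j => mlaS l A m R (Δ m (dc (mlaW l A / m) + j))
          ![0, m * f m * 10 ^ (dc (mlaW l A / m) + j)]) := by
  intro N hN
  unfold SS at hN
  rw [Finset.mem_filter] at hN
  obtain ⟨hwin, hblk, hfp, hgp⟩ := hN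
  have hwin' := hwin
  unfold win at hwin'
  rw [Finset.mem_Ico] at hwin'
  obtain ⟨hlo, hhi⟩ := hwin'
  set E : ℕ := ∑ i, l i with hEdef
  have hN1 : 10 ^ (E - 1) ≤ N := mla_N_ge hv l N hl (hblk ⟨0, hv⟩).2
  have hN2 : 2 ≤ N := by
    have : 10 ^ 1 ≤ 10 ^ (E - 1) := Nat.pow_le_pow_right (by norm_num) (by omega)
    omega
  obtain ⟨hgpr, hgd, hgmax⟩ := gp_spec hN2
  set t : ℕ := gp N with ht
  obtain ⟨m, hm⟩ : ∃ m, m = N / t := ⟨_, rfl⟩
  have hNmt : N = m * t := by rw [hm]; exact (Nat.div_mul_cancel hgd).symm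
  have htR : R < t := by
    have h1 : (R : ℝ) < t := by
      refine lt_of_lt_of_le hR1 (le_trans ?_ hgp)
      have h2 : (0:ℝ) < (10 : ℝ) ^ (δ * (E : ℝ)) := by positivity
      have h3 : (0:ℝ) ≤ A := Nat.cast_nonneg A
      nlinarith
    exact_mod_cast h1
  have hblkR : ∀ p : ℕ, p.Prime → p ≤ R → ∀ i, ¬ p ∣ blk (ee l i) (l i) N := by
    intro p hp hpR i hd
    have h1 := (Nat.prime_dvd_prime_iff_eq hp (hblk i).1).1 hd
    have h2 := (hblk i).2
    have h3 := hR2 i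
    omega
  have hft := f_gp hN2
  rw [← ht, ← hm] at hft
  clear hm
  have hm0 : m ≠ 0 := by
    intro h0
    rw [h0, zero_mul] at hNmt
    omega
  rcases Nat.lt_or_ge m 2 with hm2 | hm2
  · have hm1 : m = 1 := by omega
    rw [Finset.mem_union]
    left
    rw [mem_mlaS]
    refine ⟨hwin, one_dvd _, fun p hp hpR _ => ⟨fun _ hd => ?_, hblkR p hp hpR⟩⟩
    rw [hm1, one_mul] at hNmt
    rw [add_zero, hNmt] at hd
    have h1 := (Nat.prime_dvd_prime_iff_eq hp hgpr).1 hd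
    omega
  · rw [Finset.mem_union]
    right
    rw [Finset.mem_biUnion]
    refine ⟨m, ?_, ?_⟩
    · rw [Finset.mem_Icc]
      refine ⟨hm2, Nat.le_floor ?_⟩
      have h1 : (N : ℝ) < ((A : ℝ) + 1) * (10 : ℝ) ^ (E : ℝ) := by
        rw [Real.rpow_natCast]
        exact_mod_cast hhi
      have h2 : (10 : ℝ) ^ (E : ℝ) = (10 : ℝ) ^ ((1 - δ) * (E : ℝ)) * (10 : ℝ) ^ (δ * (E : ℝ)) := by
        rw [← Real.rpow_add (by norm_num)]; congr 1; ring
      have h3 : (N : ℝ) = m * t := by exact_mod_cast hNmt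
      have h4 : (0:ℝ) < (10 : ℝ) ^ (δ * (E : ℝ)) := by positivity
      have h5 : (0:ℝ) < (A : ℝ) + 1 := by positivity
      have h6 : (m : ℝ) * (((A : ℝ) + 1) * (10 : ℝ) ^ (δ * (E : ℝ))) ≤ N := by
        rw [h3]; gcongr
      have h7 : (m : ℝ) * (((A : ℝ) + 1) * (10 : ℝ) ^ (δ * (E : ℝ))) <
          (10 : ℝ) ^ ((1 - δ) * (E : ℝ)) * (((A : ℝ) + 1) * (10 : ℝ) ^ (δ * (E : ℝ))) := by
        refine lt_of_le_of_lt h6 (lt_of_lt_of_le h1 (le_of_eq ?_))
        rw [h2]; ring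
      exact (lt_of_mul_lt_mul_right h7 (by positivity)).le
    · -- the two values of the number of digits
      have hW1 : mlaW l A ≤ N := max_le hlo hN1
      have hW2 : N < 10 * mlaW l A := by
        rcases Nat.eq_zero_or_pos A with hA | hA
        · rw [hA] at hhi
          have h1 : 10 ^ (E - 1) ≤ mlaW l A := le_max_right _ _
          have h2 : 10 ^ E = 10 * 10 ^ (E - 1) := by
            rw [← pow_succ']; congr 1; omega
          omega
        · have h1 : A * 10 ^ E ≤ mlaW l A := le_max_left _ _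
          have h2 : 0 < 10 ^ E := by positivity
          nlinarith
      have hw1 : mlaW l A / m ≤ t := by
        rw [Nat.div_le_iff_le_mul_add_pred (by omega)]
        have : mlaW l A ≤ m * t := hNmt ▸ hW1
        omega
      have hw2 : t < 10 ^ (dc (mlaW l A / m) + 1) := by
        have h1 : mlaW l A / m < 10 ^ dc (mlaW l A / m) := lt_dc _
        have h2 : mlaW l A < m * (mlaW l A / m + 1) := by
          have := Nat.lt_mul_div_succ (mlaW l A) (b := m) (by omega)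
          exact this
        have h3 : m * t < m * (10 * (mlaW l A / m + 1)) := by
          rw [← hNmt]
          calc N < 10 * mlaW l A := hW2
            _ ≤ 10 * (m * (mlaW l A / m + 1)) := by omega
            _ = m * (10 * (mlaW l A / m + 1)) := by ring
        have h4 : t < 10 * (mlaW l A / m + 1) := lt_of_mul_lt_mul_left h3 (Nat.zero_le _)
        rw [pow_succ]
        omega
      have hd1 : dc (mlaW l A / m) ≤ dc t := dc_mono hw1
      have hd2 : dc t ≤ dc (mlaW l A / m) + 1 := dc_le_of_lt (by omega) hw2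
      rw [Finset.mem_biUnion]
      refine ⟨dc t - dc (mlaW l A / m), by rw [Finset.mem_range]; omega, ?_⟩
      have hdt : dc (mlaW l A / m) + (dc t - dc (mlaW l A / m)) = dc t := by omega
      rw [hdt]
      rw [mem_mlaS]
      refine ⟨hwin, ⟨t, hNmt⟩, fun p hp hpR hpΔ => ⟨fun j hd => ?_, hblkR p hp hpR⟩⟩
      have hpm : ¬ p ∣ m := hΔ m _ p hp hpΔ
      have hpt : ¬ p ∣ t := by
        intro h1
        have := (Nat.prime_dvd_prime_iff_eq hp hgpr).1 h1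
        omega
      fin_cases j
      · simp only [Fin.zero_eta, Matrix.cons_val_zero, add_zero] at hd
        rw [hNmt] at hd
        rcases (Nat.Prime.dvd_mul hp).1 hd with h | h
        · exact hpm h
        · exact hpt h
      · simp only [Fin.mk_one, Matrix.cons_val_one, Matrix.cons_val_fin_one] at hd
        have h1 : N + m * f m * 10 ^ dc t = m * f N := by
          rw [hft, hNmt]
          ring
        rw [h1] at hd
        rcases (Nat.Prime.dvd_mul hp).1 hd with h | h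
        · exact hpm h
        · have h2 := (Nat.prime_dvd_prime_iff_eq hp hfp).1 h
          have h3 : t ≤ f N := by rw [hft]; omega
          omega

/-- the primes which are not used in the sieve, `m = 1` -/
private def mlaD1 (v A : ℕ) : ℕ := 10 * (if v = 1 then A else 1)

/-- the primes which are not used in the sieve, `m ≥ 2` -/
private noncomputable def mlaD2 (v A E m k : ℕ) : ℕ :=
  10 * m * f m * (if v = 1 then A * (A * 10 ^ E + m * f m * 10 ^ k) else 1)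

private theorem mla_one (v : ℕ) (hv : 1 ≤ v) : ∃ C : ℝ, 0 < C ∧
    ∀ (l : Fin v → ℕ) (A R : ℕ), 3 ≤ ∑ i, l i → 2 ≤ R → A < 10 ^ (∑ i, l i) → (1 ≤ A ∨ 2 ≤ v) →
      ((mlaS l A 1 R (mlaD1 v A) (fun _ : Fin 1 => 0)).card : ℝ) ≤
        C * (10 : ℝ) ^ (∑ i, l i) * Real.log ((∑ i, l i : ℕ) : ℝ) ^ (v + 1) / Real.log R ^ (v + 1) +
        (R : ℝ) ^ (2 * v + 4) * ∑ i, (10 : ℝ) ^ (∑ j, l j) / (10 : ℝ) ^ l i := by
  obtain ⟨C₁, hC₁, h1⟩ := svm v 1 hv le_rfl
  obtain ⟨D, hD, h2⟩ := del (v + 1) 2 (by norm_num)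
  refine ⟨C₁ * D, by positivity, fun l A R hE hR hA hAv => ?_⟩
  set E : ℕ := ∑ i, l i with hEd
  have hΔ1 : 1 ≤ mlaD1 v A := by
    unfold mlaD1
    split_ifs with h
    · have : 1 ≤ A := by omega
      omega
    · norm_num
  have hdiv : ∀ p : ℕ, ¬ p ∣ mlaD1 v A → ¬ p ∣ 10 ∧ (v = 1 → ¬ p ∣ A) := by
    intro p hp
    unfold mlaD1 at hp
    refine ⟨fun h => hp (Dvd.dvd.mul_right h _), fun hv1 h => hp ?_⟩
    rw [if_pos hv1]
    exact Dvd.dvd.mul_left h _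
  have h3 := h1 l A 1 R (mlaD1 v A) (fun _ => 0) le_rfl hR hΔ1
    (fun p hp _ h => hp.one_lt.ne' (Nat.dvd_one.1 h))
    (fun p _ _ i j hij => absurd (Subsingleton.elim i j) hij)
    (fun hv1 p hp hd j h => by
      rw [add_zero] at h
      rcases (Nat.Prime.dvd_mul hp).1 h with h | h
      · exact (hdiv p hd).2 hv1 h
      · exact (hdiv p hd).1 (hp.dvd_of_dvd_pow h))
  have h4 : (mlaD1 v A : ℝ) ≤ (10 : ℝ) ^ ((2 : ℝ) * E) := by
    have e1 : (10 : ℝ) ^ ((2 : ℝ) * E) = ((10 ^ (2 * E) : ℕ) : ℝ) := by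
      push_cast
      rw [← Real.rpow_natCast]
      congr 1; push_cast; ring
    rw [e1]
    have : mlaD1 v A ≤ 10 ^ (2 * E) := by
      unfold mlaD1
      have h5 : 10 * 10 ^ E ≤ 10 ^ (2 * E) := by
        rw [← pow_succ']
        exact Nat.pow_le_pow_right (by norm_num) (by omega)
      have h6 : 1 ≤ 10 ^ E := Nat.one_le_pow _ _ (by norm_num)
      split_ifs
      · omega
      · omega
    exact_mod_cast this
  have h5 := h2 E (mlaD1 v A) hE hΔ1 h4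
  have h6 : Wm l 1 = 0 := by unfold Wm; simp
  have hlog : 0 < Real.log R := Real.log_pos (by exact_mod_cast (by omega : 1 < R))
  rw [h6, zero_add] at h3
  simp only [Nat.cast_one, div_one] at h3
  refine (le_of_eq ?_).trans (h3.trans ?_)
  · rfl
  · gcongr ?_ + _
    rw [div_le_div_iff_of_pos_right (by positivity)]
    calc C₁ * (10:ℝ) ^ E * (∏ p ∈ (mlaD1 v A).primeFactors, (1 + ((v + 1 : ℕ) : ℝ) / p))
        ≤ C₁ * (10:ℝ) ^ E * (D * Real.log E ^ (v + 1)) := by gcongr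
      _ = _ := by ring

private theorem mla_D2 {v A E m k : ℕ} (hE : 1 ≤ E) (hm : 1 ≤ m) (hmE : m ≤ 10 ^ E) (hA : A < 10 ^ E)
    (hk : k ≤ 2 * E + 1) : mlaD2 v A E m k ≤ 10 ^ (16 * E) := by
  have hf : f m ≤ 10 ^ (4 * E) := by
    calc f m ≤ 10 ^ lam m := (f_lt hm).le
      _ ≤ m ^ 4 := lam_le hm
      _ ≤ (10 ^ E) ^ 4 := Nat.pow_le_pow_left hmE 4
      _ = 10 ^ (4 * E) := by rw [← pow_mul]; ring_nf
  have hk' : 10 ^ k ≤ 10 ^ (2 * E + 1) := Nat.pow_le_pow_right (by norm_num) hk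
  have h1 : 10 * m * f m ≤ 10 ^ (5 * E + 1) := by
    calc 10 * m * f m ≤ 10 * 10 ^ E * 10 ^ (4 * E) := by gcongr
      _ = 10 ^ (5 * E + 1) := by rw [← pow_succ', ← pow_add]; congr 1; ring
  unfold mlaD2
  split_ifs with h
  · have h2 : A * 10 ^ E + m * f m * 10 ^ k ≤ 10 ^ (7 * E + 2) := by
      calc A * 10 ^ E + m * f m * 10 ^ k
          ≤ 10 ^ E * 10 ^ E + 10 ^ E * 10 ^ (4 * E) * 10 ^ (2 * E + 1) := by gcongr
        _ = 10 ^ (2 * E) + 10 ^ (7 * E + 1) := by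
            rw [← pow_add, ← pow_add, ← pow_add]; congr 2 <;> ring
        _ ≤ 10 ^ (7 * E + 1) + 10 ^ (7 * E + 1) := by
            gcongr
            · norm_num
            · omega
        _ ≤ 10 ^ (7 * E + 2) := by
            have : 10 ^ (7 * E + 2) = 10 * 10 ^ (7 * E + 1) := by rw [← pow_succ']
            omega
    calc 10 * m * f m * (A * (A * 10 ^ E + m * f m * 10 ^ k))
        ≤ 10 ^ (5 * E + 1) * (10 ^ E * 10 ^ (7 * E + 2)) := by gcongr
      _ = 10 ^ (13 * E + 3) := by rw [← pow_add, ← pow_add]; congr 1; ring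
      _ ≤ 10 ^ (16 * E) := Nat.pow_le_pow_right (by norm_num) (by omega)
  · rw [mul_one]
    exact h1.trans (Nat.pow_le_pow_right (by norm_num) (by omega))

private theorem mla_two (v : ℕ) (hv : 1 ≤ v) : ∃ C : ℝ, 0 < C ∧
    ∀ (l : Fin v → ℕ) (A m R k : ℕ), 3 ≤ ∑ i, l i → 2 ≤ R → A < 10 ^ (∑ i, l i) → (1 ≤ A ∨ 2 ≤ v) →
      2 ≤ m → m ≤ 10 ^ (∑ i, l i) → k ≤ 2 * (∑ i, l i) + 1 →
      ((mlaS l A m R (mlaD2 v A (∑ i, l i) m k) ![0, m * f m * 10 ^ k]).card : ℝ) ≤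
        C * ((10 : ℝ) ^ (∑ i, l i) / m) * Real.log ((∑ i, l i : ℕ) : ℝ) ^ (v + 2) /
          Real.log R ^ (v + 2) +
        (R : ℝ) ^ (2 * v + 4) * (Wm l m + (∑ i, (10 : ℝ) ^ (∑ j, l j) / (10 : ℝ) ^ l i) / m) := by
  obtain ⟨C₁, hC₁, h1⟩ := svm v 2 hv (by norm_num)
  obtain ⟨D, hD, h2⟩ := del (v + 2) 16 (by norm_num)
  refine ⟨C₁ * D, by positivity, fun l A m R k hE hR hA hAv hm hmE hk => ?_⟩
  set E : ℕ := ∑ i, l i with hEd
  have hfm : 1 ≤ f m := by have := le_f hm; omega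
  have hΔ1 : 1 ≤ mlaD2 v A E m k := by
    unfold mlaD2
    have h5 : 0 < 10 * m * f m := by positivity
    split_ifs with h
    · have h6 : 0 < A := by omega
      have h7 : 0 < A * (A * 10 ^ E + m * f m * 10 ^ k) := by positivity
      exact Nat.mul_pos h5 h7
    · omega
  have hdiv : ∀ p : ℕ, ¬ p ∣ mlaD2 v A E m k → ¬ p ∣ 10 ∧ ¬ p ∣ m ∧ ¬ p ∣ f m ∧
      (v = 1 → ¬ p ∣ A ∧ ¬ p ∣ A * 10 ^ E + m * f m * 10 ^ k) := by
    intro p hp
    unfold mlaD2 at hp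
    refine ⟨fun h => hp ?_, fun h => hp ?_, fun h => hp ?_, fun hv1 => ⟨fun h => hp ?_, fun h => hp ?_⟩⟩
    · exact Dvd.dvd.mul_right (Dvd.dvd.mul_right (Dvd.dvd.mul_right h _) _) _
    · exact Dvd.dvd.mul_right (Dvd.dvd.mul_right (Dvd.dvd.mul_left h _) _) _
    · exact Dvd.dvd.mul_right (Dvd.dvd.mul_left h _) _
    · rw [if_pos hv1]
      exact Dvd.dvd.mul_left (Dvd.dvd.mul_right h _) _
    · rw [if_pos hv1]
      exact Dvd.dvd.mul_left (Dvd.dvd.mul_left h _) _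
  have hc : ∀ p : ℕ, p.Prime → ¬ p ∣ mlaD2 v A E m k → ¬ p ∣ m * f m * 10 ^ k := by
    intro p hp hd h
    obtain ⟨d1, d2, d3, _⟩ := hdiv p hd
    rcases (Nat.Prime.dvd_mul hp).1 h with h | h
    · rcases (Nat.Prime.dvd_mul hp).1 h with h | h
      · exact d2 h
      · exact d3 h
    · exact d1 (hp.dvd_of_dvd_pow h)
  have h3 := h1 l A m R (mlaD2 v A E m k) ![0, m * f m * 10 ^ k] (by omega) hR hΔ1
    (fun p hp hd => (hdiv p hd).2.1)
    (fun p hp hd i j hij => by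
      have h5 : ((m * f m * 10 ^ k : ℕ) : ZMod p) ≠ 0 := by
        intro h
        exact hc p hp hd ((ZMod.natCast_eq_zero_iff _ _).1 h)
      fin_cases i <;> fin_cases j
      · exact absurd rfl hij
      · simp only [Fin.zero_eta, Matrix.cons_val_zero, Fin.mk_one, Matrix.cons_val_one,
          Matrix.cons_val_fin_one, Nat.cast_zero]
        exact h5.symm
      · simp only [Fin.zero_eta, Matrix.cons_val_zero, Fin.mk_one, Matrix.cons_val_one,
          Matrix.cons_val_fin_one, Nat.cast_zero]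
        exact h5
      · exact absurd rfl hij)
    (fun hv1 p hp hd j h => by
      obtain ⟨d1, d2, d3, d4⟩ := hdiv p hd
      fin_cases j
      · simp only [Fin.zero_eta, Matrix.cons_val_zero, add_zero] at h
        rcases (Nat.Prime.dvd_mul hp).1 h with h | h
        · exact (d4 hv1).1 h
        · exact d1 (hp.dvd_of_dvd_pow h)
      · simp only [Fin.mk_one, Matrix.cons_val_one, Matrix.cons_val_fin_one] at h
        exact (d4 hv1).2 h)
  have h4 : (mlaD2 v A E m k : ℝ) ≤ (10 : ℝ) ^ ((16 : ℝ) * E) := by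
    have e1 : (10 : ℝ) ^ ((16 : ℝ) * E) = ((10 ^ (16 * E) : ℕ) : ℝ) := by
      push_cast
      rw [← Real.rpow_natCast]
      congr 1; push_cast; ring
    rw [e1]
    exact_mod_cast mla_D2 (by omega) (by omega) hmE hA hk
  have h5 := h2 E (mlaD2 v A E m k) hE hΔ1 h4
  have hlog : 0 < Real.log R := Real.log_pos (by exact_mod_cast (by omega : 1 < R))
  refine (le_of_eq ?_).trans (h3.trans ?_)
  · rfl
  · gcongr ?_ + _
    rw [div_le_div_iff_of_pos_right (by positivity)]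
    calc C₁ * ((10:ℝ) ^ E / m) * (∏ p ∈ (mlaD2 v A E m k).primeFactors, (1 + ((v + 2 : ℕ) : ℝ) / p))
        ≤ C₁ * ((10:ℝ) ^ E / m) * (D * Real.log E ^ (v + 2)) := by gcongr
      _ = _ := by ring

private theorem mla_ev (v : ℕ) {b : ℝ} (hb : 0 < b) :
    ∃ E₀ : ℕ, ∀ E : ℕ, E₀ ≤ E → (E : ℝ) ^ (v + 2) ≤ (10 : ℝ) ^ (b * E) := by
  have h10 : (0:ℝ) < Real.log 10 := Real.log_pos (by norm_num)
  have h := (isLittleO_pow_exp_pos_mul_atTop (v + 2) (b := b * Real.log 10) (by positivity)).bound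
    (c := 1) one_pos
  obtain ⟨x₀, hx₀⟩ := Filter.eventually_atTop.1 h
  refine ⟨⌈x₀⌉₊, fun E hE => ?_⟩
  have h1 := hx₀ E ((Nat.le_ceil x₀).trans (by exact_mod_cast hE))
  rw [one_mul, Real.norm_of_nonneg (by positivity), Real.norm_of_nonneg (Real.exp_pos _).le] at h1
  refine h1.trans (le_of_eq ?_)
  rw [Real.rpow_def_of_pos (by norm_num : (0:ℝ) < 10)]
  congr 1; ring

private theorem mla_R {y : ℝ} (hy : 1 ≤ y) :
    2 ≤ ⌊(10 : ℝ) ^ y⌋₊ ∧ y ≤ Real.log (⌊(10 : ℝ) ^ y⌋₊ : ℝ) := by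
  have h1 : (10:ℝ) ^ (1:ℝ) ≤ (10 : ℝ) ^ y := Real.rpow_le_rpow_of_exponent_le (by norm_num) hy
  rw [Real.rpow_one] at h1
  have h2 : 2 ≤ ⌊(10 : ℝ) ^ y⌋₊ := Nat.le_floor (by push_cast; linarith)
  refine ⟨h2, ?_⟩
  have h3 : (10 : ℝ) ^ y < ⌊(10 : ℝ) ^ y⌋₊ + 1 := Nat.lt_floor_add_one _
  have h4 : Real.exp y * Real.exp y ≤ (10:ℝ) ^ y := by
    rw [← Real.exp_add, Real.rpow_def_of_pos (by norm_num : (0:ℝ) < 10)]
    apply Real.exp_le_exp.2
    have h5 : (2:ℝ) ≤ Real.log 10 := by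
      rw [Real.le_log_iff_exp_le (by norm_num)]
      have h6 := Real.exp_one_lt_d9
      have h7 : Real.exp 2 = Real.exp 1 * Real.exp 1 := by rw [← Real.exp_add]; norm_num
      rw [h7]
      have h8 := Real.exp_pos 1
      nlinarith
    nlinarith
  have h5 : 2 ≤ Real.exp y := by
    have := Real.add_one_le_exp y
    linarith
  rw [Real.le_log_iff_exp_le (by exact_mod_cast (by omega : 0 < ⌊(10 : ℝ) ^ y⌋₊))]
  nlinarith

private theorem mla_harm (M : ℕ) (E : ℕ) (hM : (M : ℝ) ≤ (10:ℝ) ^ (E : ℝ)) :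
    ∑ m ∈ Finset.Icc 2 M, (1 : ℝ) / m ≤ 1 + 3 * E := by
  have h1 : ∑ m ∈ Finset.Icc 2 M, (1 : ℝ) / m ≤ ∑ m ∈ Finset.Icc 1 M, (1 : ℝ) / m := by
    refine Finset.sum_le_sum_of_subset_of_nonneg ?_ fun m _ _ => by positivity
    exact Finset.Icc_subset_Icc (by norm_num) le_rfl
  refine h1.trans ?_
  rcases Nat.eq_zero_or_pos M with h0 | h0
  · rw [h0]; simp; positivity
  have h2 : ∑ m ∈ Finset.Icc 1 M, (1 : ℝ) / m = (harmonic M : ℝ) := by
    rw [harmonic_eq_sum_Icc]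
    push_cast
    refine Finset.sum_congr rfl fun m _ => by rw [one_div]
  rw [h2]
  have h3 := harmonic_le_one_add_log M
  have h4 : Real.log M ≤ 3 * E := by
    have h5 : Real.log M ≤ Real.log ((10:ℝ) ^ (E : ℝ)) :=
      Real.log_le_log (by exact_mod_cast h0) hM
    rw [Real.log_rpow (by norm_num)] at h5
    have h6 : Real.log 10 ≤ 3 := by
      rw [Real.log_le_iff_le_exp (by norm_num)]
      have h7 := Real.exp_one_gt_d9
      have h8 : Real.exp 3 = Real.exp 1 * Real.exp 1 * Real.exp 1 := by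
        rw [← Real.exp_add, ← Real.exp_add]; norm_num
      rw [h8]
      have h9 : (7:ℝ) ≤ Real.exp 1 * Real.exp 1 := by nlinarith
      nlinarith
    have h7 : (0:ℝ) ≤ E := Nat.cast_nonneg E
    nlinarith
  linarith

theorem mla (v : ℕ) (hv : 1 ≤ v) (η δ : ℝ) (hη : 0 < η) (hδ : 0 < δ) :
    ∃ C : ℝ, 0 < C ∧ ∃ E₀ : ℕ, ∀ (l : Fin v → ℕ) (A : ℕ), E₀ ≤ ∑ i, l i →
      (∀ i, η * ((∑ j, l j : ℕ) : ℝ) ≤ l i) → A < 10 ^ (∑ i, l i) → (1 ≤ A ∨ 2 ≤ v) →
      ((SS l A δ).card : ℝ) ≤ C * (10 : ℝ) ^ (∑ i, l i) *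
        Real.log ((∑ i, l i : ℕ) : ℝ) ^ (v + 2) / ((∑ i, l i : ℕ) : ℝ) ^ (v + 1) := by
  obtain ⟨C₁, hC₁, hone⟩ := mla_one v hv
  obtain ⟨C₂, hC₂, htwo⟩ := mla_two v hv
  obtain ⟨c, hc, E₁, hsuw⟩ := suw v hv η δ hη hδ
  set κ : ℝ := min c (min η δ) / 4 with hκ
  have hκ0 : 0 < κ := by rw [hκ]; positivity
  have hκc : 4 * κ ≤ c := by rw [hκ]; linarith [min_le_left c (min η δ)]
  have hκη : 4 * κ ≤ η := by
    rw [hκ]; linarith [min_le_right c (min η δ), min_le_left η δ]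
  have hκδ : 4 * κ ≤ δ := by
    rw [hκ]; linarith [min_le_right c (min η δ), min_le_right η δ]
  set c' : ℝ := κ / (2 * v + 4) with hc'
  have hden : (4:ℝ) ≤ 2 * v + 4 := by have : (0:ℝ) ≤ v := Nat.cast_nonneg v; linarith
  have hc'0 : 0 < c' := by rw [hc']; positivity
  have hc'κ : c' * (2 * v + 4) = κ := by rw [hc']; field_simp
  have hc'le : c' ≤ κ := by nlinarith
  obtain ⟨E₂, hE₂⟩ := mla_ev v (b := 3 * κ) (by positivity)
  refine ⟨C₁ / c' ^ (v + 1) + 8 * C₂ / c' ^ (v + 2) + (9 * v + 2), by positivity,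
    max 3 (max E₁ (max E₂ (max ⌈1 / c'⌉₊ ⌈2 / η⌉₊))), fun l A hE hl hA hAv => ?_⟩
  set E : ℕ := ∑ i, l i with hEd
  have hE3 : 3 ≤ E := (le_max_left _ _).trans hE
  have hEa := (le_max_right _ _).trans hE
  have hEE1 : E₁ ≤ E := (le_max_left _ _).trans hEa
  have hEb := (le_max_right _ _).trans hEa
  have hEE2 : E₂ ≤ E := (le_max_left _ _).trans hEb
  have hEc := (le_max_right _ _).trans hEb
  have hEc1 : 1 / c' ≤ E := (Nat.le_ceil _).trans (by exact_mod_cast (le_max_left _ _).trans hEc)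
  have hEη : 2 / η ≤ E := (Nat.le_ceil _).trans (by exact_mod_cast (le_max_right _ _).trans hEc)
  have hE0 : (0:ℝ) < E := by exact_mod_cast (by omega : 0 < E)
  have hE3r : (3:ℝ) ≤ E := by exact_mod_cast hE3
  have hc'E : 1 ≤ c' * E := by
    rw [div_le_iff₀ hc'0] at hEc1; linarith
  have hηE : 2 ≤ η * E := by
    rw [div_le_iff₀ hη] at hEη; linarith
  obtain ⟨hR2, hRlog⟩ := mla_R hc'E
  set R : ℕ := ⌊(10 : ℝ) ^ (c' * E)⌋₊ with hR
  have hRle : (R : ℝ) ≤ (10 : ℝ) ^ (c' * E) := Nat.floor_le (by positivity)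
  have hlogE : 1 ≤ Real.log E := by
    rw [Real.le_log_iff_exp_le hE0]
    have := Real.exp_one_lt_d9
    linarith
  -- the conditions of the covering lemma
  have hl1 : ∀ i, 1 ≤ l i := by
    intro i
    have h1 := hl i
    have : (0:ℝ) < l i := by linarith
    exact_mod_cast this
  have hR1 : (R : ℝ) < (10 : ℝ) ^ (δ * (E : ℝ)) := by
    refine lt_of_le_of_lt hRle (Real.rpow_lt_rpow_of_exponent_lt (by norm_num) ?_)
    have : c' < δ := by linarith
    exact mul_lt_mul_of_pos_right this hE0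
  have hRl : ∀ i, R < 10 ^ (l i - 1) := by
    intro i
    have h1 : (R : ℝ) < (10:ℝ) ^ ((l i - 1 : ℕ) : ℝ) := by
      refine lt_of_le_of_lt hRle (Real.rpow_lt_rpow_of_exponent_lt (by norm_num) ?_)
      rw [Nat.cast_sub (hl1 i)]
      push_cast
      have h2 := hl i
      have h3 : c' * E ≤ η / 4 * E := by
        have : c' ≤ η / 4 := by linarith
        gcongr
      linarith
    rw [Real.rpow_natCast] at h1
    exact_mod_cast h1
  -- the covering
  have hcov := mla_cover hv l A δ R hl1 (by omega) hR1 hRl (mlaD1 v A) (mlaD2 v A E)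
    (fun m k p _ hd h => hd (by
      unfold mlaD2
      exact Dvd.dvd.mul_right (Dvd.dvd.mul_right (Dvd.dvd.mul_left h _) _) _))
  rw [← hEd] at hcov
  set M : ℕ := ⌊(10 : ℝ) ^ ((1 - δ) * (E : ℝ))⌋₊ with hM
  have hMle : (M : ℝ) ≤ (10 : ℝ) ^ (E : ℝ) := by
    refine (Nat.floor_le (by positivity)).trans
      (Real.rpow_le_rpow_of_exponent_le (by norm_num) ?_)
    nlinarith
  have hMle' : M ≤ 10 ^ E := by
    rw [Real.rpow_natCast] at hMle
    exact_mod_cast hMle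
  have hW : ∀ m, dc (mlaW l A / m) ≤ 2 * E := by
    intro m
    refine dc_le_of_lt (by omega) (lt_of_le_of_lt (Nat.div_le_self _ _) ?_)
    unfold mlaW
    rw [← hEd]
    refine max_lt ?_ ?_
    · have h1 : 10 ^ (2 * E) = 10 ^ E * 10 ^ E := by rw [← pow_add]; congr 1; ring
      rw [h1]
      exact Nat.mul_lt_mul_of_pos_right hA (by positivity)
    · exact Nat.pow_lt_pow_right (by norm_num) (by omega)
  set Sg : ℝ := ∑ i, (10 : ℝ) ^ (∑ j, l j) / (10 : ℝ) ^ l i with hSg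
  have hSg0 : 0 ≤ Sg := by rw [hSg]; positivity
  set X : ℝ := (10:ℝ) ^ E with hX
  have hX0 : 0 < X := by rw [hX]; positivity
  set T : ℝ := (R : ℝ) ^ (2 * v + 4) with hT
  have hT0 : 0 ≤ T := by rw [hT]; positivity
  set LR : ℝ := Real.log R with hLR
  have hLR0 : 0 < LR := by linarith
  set LE : ℝ := Real.log E with hLE
  have hcard : ((SS l A δ).card : ℝ) ≤
      (C₁ * X * LE ^ (v + 1) / LR ^ (v + 1) + T * Sg) +
      ∑ m ∈ Finset.Icc 2 M, 2 * (C₂ * (X / m) * LE ^ (v + 2) / LR ^ (v + 2) +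
        T * (Wm l m + Sg / m)) := by
    have h1 := (Finset.card_le_card hcov).trans (Finset.card_union_le _ _)
    have h2 : ((SS l A δ).card : ℝ) ≤ ((mlaS l A 1 R (mlaD1 v A) (fun _ : Fin 1 => 0)).card : ℝ) +
        (((Finset.Icc 2 M).biUnion (fun m =>
        (Finset.range 2).biUnion fun j => mlaS l A m R (mlaD2 v A E m (dc (mlaW l A / m) + j))
          ![0, m * f m * 10 ^ (dc (mlaW l A / m) + j)])).card : ℝ) := by
      exact_mod_cast h1
    refine h2.trans (add_le_add (hone l A R hE3 hR2 hA hAv) ?_)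
    have h3 : (((Finset.Icc 2 M).biUnion (fun m =>
        (Finset.range 2).biUnion fun j => mlaS l A m R (mlaD2 v A E m (dc (mlaW l A / m) + j))
          ![0, m * f m * 10 ^ (dc (mlaW l A / m) + j)])).card : ℝ) ≤
        ∑ m ∈ Finset.Icc 2 M, (∑ j ∈ Finset.range 2,
          (mlaS l A m R (mlaD2 v A E m (dc (mlaW l A / m) + j))
          ![0, m * f m * 10 ^ (dc (mlaW l A / m) + j)]).card : ℕ) := by
      have := Finset.card_biUnion_le (s := Finset.Icc 2 M) (t := fun m =>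
        (Finset.range 2).biUnion fun j => mlaS l A m R (mlaD2 v A E m (dc (mlaW l A / m) + j))
          ![0, m * f m * 10 ^ (dc (mlaW l A / m) + j)])
      have h4 : ∑ m ∈ Finset.Icc 2 M, ((Finset.range 2).biUnion fun j =>
          mlaS l A m R (mlaD2 v A E m (dc (mlaW l A / m) + j))
          ![0, m * f m * 10 ^ (dc (mlaW l A / m) + j)]).card ≤ ∑ m ∈ Finset.Icc 2 M,
          ∑ j ∈ Finset.range 2, (mlaS l A m R (mlaD2 v A E m (dc (mlaW l A / m) + j))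
          ![0, m * f m * 10 ^ (dc (mlaW l A / m) + j)]).card :=
        Finset.sum_le_sum fun m _ => Finset.card_biUnion_le
      exact_mod_cast this.trans h4
    refine h3.trans ?_
    push_cast
    refine Finset.sum_le_sum fun m hm => ?_
    rw [Finset.mem_Icc] at hm
    rw [Finset.sum_range_succ, Finset.sum_range_one, two_mul]
    have hb : ∀ j, j ≤ 1 → ((mlaS l A m R (mlaD2 v A E m (dc (mlaW l A / m) + j))
          ![0, m * f m * 10 ^ (dc (mlaW l A / m) + j)]).card : ℝ) ≤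
          C₂ * (X / m) * LE ^ (v + 2) / LR ^ (v + 2) + T * (Wm l m + Sg / m) := by
      intro j hj
      exact htwo l A m R (dc (mlaW l A / m) + j) hE3 hR2 hA hAv hm.1 (hm.2.trans hMle')
        (by have := hW m; omega)
    exact add_le_add (hb 0 (by norm_num)) (hb 1 le_rfl)
  -- summation
  set H : ℝ := ∑ m ∈ Finset.Icc 2 M, (1 : ℝ) / m with hH
  set WW : ℝ := ∑ m ∈ Finset.Icc 2 M, Wm l m with hWW
  have hH1 : H ≤ 4 * E := by
    have := mla_harm M E hMle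
    linarith
  have hH0 : 0 ≤ H := by rw [hH]; positivity
  have hWW1 : WW ≤ (10:ℝ) ^ ((1 - c) * (E : ℝ)) := by
    refine le_trans ?_ (hsuw l hEE1 hl)
    refine Finset.sum_le_sum_of_subset_of_nonneg ?_ fun m _ _ => Wm_nonneg l m
    exact Finset.Icc_subset_Icc (by norm_num) le_rfl
  have hsum : ∑ m ∈ Finset.Icc 2 M, 2 * (C₂ * (X / m) * LE ^ (v + 2) / LR ^ (v + 2) +
        T * (Wm l m + Sg / m)) =
      2 * C₂ * X * LE ^ (v + 2) / LR ^ (v + 2) * H + 2 * T * WW + 2 * T * Sg * H := by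
    rw [hH, hWW, Finset.mul_sum, Finset.mul_sum, Finset.mul_sum, ← Finset.sum_add_distrib,
      ← Finset.sum_add_distrib]
    refine Finset.sum_congr rfl fun m _ => ?_
    ring
  rw [hsum] at hcard
  -- bounds for the error
  have hTle : T ≤ (10:ℝ) ^ (κ * E) := by
    have h1 : T ≤ ((10:ℝ) ^ (c' * E)) ^ (2 * v + 4) := pow_le_pow_left₀ (Nat.cast_nonneg _) hRle _
    refine h1.trans (le_of_eq ?_)
    rw [← Real.rpow_natCast, ← Real.rpow_mul (by norm_num)]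
    congr 1
    push_cast
    rw [← hc'κ]; ring
  have hSgle : Sg ≤ v * (10:ℝ) ^ ((1 - η) * (E : ℝ)) := by
    rw [hSg]
    have h1 : ∀ i ∈ (Finset.univ : Finset (Fin v)), (10 : ℝ) ^ (∑ j, l j) / (10 : ℝ) ^ l i ≤
        (10:ℝ) ^ ((1 - η) * (E : ℝ)) := by
      intro i _
      rw [div_le_iff₀ (by positivity), ← hEd, ← Real.rpow_natCast, ← Real.rpow_natCast,
        ← Real.rpow_add (by norm_num)]
      refine Real.rpow_le_rpow_of_exponent_le (by norm_num) ?_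
      have := hl i
      linarith
    refine (Finset.sum_le_card_nsmul _ _ _ h1).trans (le_of_eq ?_)
    rw [Finset.card_univ, Fintype.card_fin, nsmul_eq_mul]
  have hexp : ∀ a : ℝ, 4 * κ ≤ a → (10:ℝ) ^ (κ * E) * (10:ℝ) ^ ((1 - a) * (E : ℝ)) ≤
      X / (10:ℝ) ^ (3 * κ * E) := by
    intro a ha
    rw [le_div_iff₀ (by positivity), hX, ← Real.rpow_natCast, ← Real.rpow_add (by norm_num),
      ← Real.rpow_add (by norm_num)]
    refine Real.rpow_le_rpow_of_exponent_le (by norm_num) ?_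
    nlinarith
  have hTW : T * WW ≤ X / (10:ℝ) ^ (3 * κ * E) := by
    refine le_trans ?_ (hexp c hκc)
    have hWW0 : 0 ≤ WW := Finset.sum_nonneg fun m _ => Wm_nonneg l m
    exact mul_le_mul hTle hWW1 hWW0 (by positivity)
  have hTS : T * Sg ≤ v * (X / (10:ℝ) ^ (3 * κ * E)) := by
    calc T * Sg ≤ (10:ℝ) ^ (κ * E) * (v * (10:ℝ) ^ ((1 - η) * (E : ℝ))) :=
          mul_le_mul hTle hSgle hSg0 (by positivity)
      _ = v * ((10:ℝ) ^ (κ * E) * (10:ℝ) ^ ((1 - η) * (E : ℝ))) := by ring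
      _ ≤ _ := mul_le_mul_of_nonneg_left (hexp η hκη) (Nat.cast_nonneg v)
  set Q : ℝ := X * LE ^ (v + 2) / (E : ℝ) ^ (v + 1) with hQ
  have hLE0 : 0 < LE := by linarith
  have hQ0 : 0 ≤ Q := by rw [hQ]; positivity
  have hErr : X / (10:ℝ) ^ (3 * κ * E) * E ≤ Q := by
    have h1 := hE₂ E hEE2
    have h2 : X / (10:ℝ) ^ (3 * κ * E) * E ≤ X / (E : ℝ) ^ (v + 2) * E := by gcongr
    refine h2.trans ?_
    rw [hQ, pow_succ (E : ℝ) (v + 1)]
    have h3 : X / ((E : ℝ) ^ (v + 1) * E) * E = X * 1 / (E : ℝ) ^ (v + 1) := by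
      field_simp
    rw [h3]
    have h4 : (1:ℝ) ≤ LE ^ (v + 2) := one_le_pow₀ hlogE
    gcongr
  have hv0 : (0:ℝ) ≤ v := Nat.cast_nonneg v
  set Y : ℝ := X / (10:ℝ) ^ (3 * κ * E) with hY
  have hY0 : 0 ≤ Y := by rw [hY]; positivity
  have hYE : Y ≤ Q := by
    refine le_trans ?_ hErr
    nlinarith
  -- the main terms
  have hcE : c' * E ≤ LR := hRlog
  have hc'E0 : 0 < c' * E := by positivity
  have hmain1 : C₁ * X * LE ^ (v + 1) / LR ^ (v + 1) ≤ C₁ / c' ^ (v + 1) * Q := by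
    calc C₁ * X * LE ^ (v + 1) / LR ^ (v + 1) ≤ C₁ * X * LE ^ (v + 1) / (c' * E) ^ (v + 1) := by
          gcongr
      _ ≤ C₁ * X * LE ^ (v + 2) / (c' * E) ^ (v + 1) := by
          have : LE ^ (v + 1) ≤ LE ^ (v + 2) := pow_le_pow_right₀ hlogE (by omega)
          gcongr
      _ = C₁ / c' ^ (v + 1) * Q := by rw [hQ, mul_pow]; field_simp
  have hmain2 : 2 * C₂ * X * LE ^ (v + 2) / LR ^ (v + 2) * H ≤ 8 * C₂ / c' ^ (v + 2) * Q := by
    calc 2 * C₂ * X * LE ^ (v + 2) / LR ^ (v + 2) * H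
        ≤ 2 * C₂ * X * LE ^ (v + 2) / (c' * E) ^ (v + 2) * (4 * E) := by gcongr
      _ = 8 * C₂ / c' ^ (v + 2) * Q := by
          rw [hQ, mul_pow, pow_succ (E : ℝ) (v + 1)]
          field_simp
          ring
  have herr1 : T * Sg ≤ v * Q := hTS.trans (mul_le_mul_of_nonneg_left hYE hv0)
  have herr2 : 2 * T * WW ≤ 2 * Q := by
    have := hTW.trans hYE
    linarith
  have herr3 : 2 * T * Sg * H ≤ 8 * v * Q := by
    calc 2 * T * Sg * H = 2 * (T * Sg) * H := by ring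
      _ ≤ 2 * (v * Y) * (4 * E) := by
          have : 0 ≤ T * Sg := mul_nonneg hT0 hSg0
          gcongr
      _ = 8 * v * (Y * E) := by ring
      _ ≤ 8 * v * Q := mul_le_mul_of_nonneg_left hErr (by positivity)
  have hfin : (C₁ / c' ^ (v + 1) + 8 * C₂ / c' ^ (v + 2) + (9 * v + 2)) * X * LE ^ (v + 2) /
      (E : ℝ) ^ (v + 1) = C₁ / c' ^ (v + 1) * Q + 8 * C₂ / c' ^ (v + 2) * Q + v * Q + 2 * Q +
        8 * v * Q := by
    rw [hQ]; ring
  rw [hfin]
  linarith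

end Pool.Agent.HP
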