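import Pool.Agent.HP.DEC
import Pool.Agent.HP.MLA

/-! ASM (~200 lines): the integers with `v` large prime factors. Fix `v ≥ 1`, `y = ⌊X^η⌋`, let `n` be in the set, `a = sp y n ≤ X^κ`,
`rl y n = [p_1 ≤ … ≤ p_v]`, `l i = dc (p_i)`, `E = ∑ l`. Then
`10^(E-v) ≤ ∏ p_i = n/a ≤ X/a` and `10^E > n/a > X/(2a)`, and `10^(l i) > p_i > X^η`, so `E ≥ E₀`, `l i ≥ (η/2) E`, for large `X`;
`f a < a^4 ≤ X^(4κ) ≤ X^(1-κ)/2 < 10^E` (`5 κ < 1`), and `(f a + 1) 10^((κ₁/4) E) ≤ 2 X^(4κ) (10^v X)^(κ₁/4) ≤ X^κ₁ ≤ gp (f n)`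
as `4κ + κ₁/4 < κ₁`. `f a ≥ 1` or `v ≥ 2`: if `v = 1` then `a ≠ 1` as `n` is not prime, and `f a ≥ a` (`le_f`).
For given `a, l` the number of the `n` is `≤ C 10^E (log E)^(v+2)/E^(v+1)` by `asm1` (DEC) and `mla v (η/2) (κ₁/4)`, and
`10^E ≤ 10^v X/a`. For given `a` there are at most `v + 2` values of `E` and `(E+1)^(v-1)` vectors `l` for each of them
(`l` is determined by its first `v-1` entries). `E ≥ c log X` and `∑_{a ≤ X} 1/a ≤ 1 + log X`: total
`≤ C' X (log log X)^(v+2)/log X = o(X)`. -/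

set_option autoImplicit false

namespace Pool.Agent.HP

open Finset

/-- the vectors with given sum -/
private def asmVec (v E : ℕ) : Finset (Fin v → ℕ) :=
  (Fintype.piFinset (fun _ : Fin v => Finset.range (E + 1))).filter (fun l => ∑ i, l i = E)

private theorem asm_mem_vec {v : ℕ} (l : Fin v → ℕ) : l ∈ asmVec v (∑ i, l i) := by
  simp only [asmVec, Finset.mem_filter, Fintype.mem_piFinset, Finset.mem_range, and_true]
  intro i
  exact Nat.lt_succ_of_le (Finset.single_le_sum (fun _ _ => Nat.zero_le _) (Finset.mem_univ i))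

private theorem asm_card_vec (v E : ℕ) (hv : 1 ≤ v) : (asmVec v E).card ≤ (E + 1) ^ (v - 1) := by
  obtain ⟨w, rfl⟩ : ∃ w, v = w + 1 := ⟨v - 1, by omega⟩
  rw [Nat.add_sub_cancel]
  have h : (Fintype.piFinset (fun _ : Fin w => Finset.range (E + 1))).card = (E + 1) ^ w := by
    rw [Fintype.card_piFinset]; simp
  rw [← h]
  refine Finset.card_le_card_of_injOn (fun l => Fin.tail l) ?_ ?_
  · intro l hl
    simp only [asmVec, Finset.coe_filter, Fintype.mem_piFinset, Finset.mem_range,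
      Set.mem_ofPred_eq] at hl
    simp only [Finset.mem_coe, Fintype.mem_piFinset, Finset.mem_range]
    intro i
    exact hl.1 i.succ
  · intro l hl l' hl' he
    simp only [asmVec, Finset.coe_filter, Set.mem_ofPred_eq] at hl hl'
    have hs : ∀ i : Fin w, l i.succ = l' i.succ := fun i => congrFun he i
    have e1 := hl.2
    have e2 := hl'.2
    rw [Fin.sum_univ_succ] at e1 e2
    have e3 : ∑ i : Fin w, l i.succ = ∑ i : Fin w, l' i.succ :=
      Finset.sum_congr rfl (fun i _ => hs i)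
    funext i
    refine Fin.cases ?_ hs i
    omega

/-- exponents with `10^E` in a short interval -/
private def asmExp (v X a : ℕ) : Finset ℕ :=
  (Finset.range (X + v + 1)).filter (fun E => X < 2 * a * 10 ^ E ∧ a * 10 ^ E ≤ 10 ^ v * X)

private theorem asm_card_exp (v X a : ℕ) : (asmExp v X a).card ≤ v + 1 := by
  rcases (asmExp v X a).eq_empty_or_nonempty with h | h
  · rw [h]; simp
  · have hmin := (asmExp v X a).min'_mem h
    set E0 := (asmExp v X a).min' h with hE0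
    have hsub : asmExp v X a ⊆ Finset.Icc E0 (E0 + v) := by
      intro E hE
      rw [Finset.mem_Icc]
      refine ⟨(asmExp v X a).min'_le E hE, ?_⟩
      by_contra hlt
      push Not at hlt
      have h1 := (Finset.mem_filter.1 hmin).2.1
      have h2 := (Finset.mem_filter.1 hE).2.2
      have h3 : 10 ^ (E0 + v + 1) ≤ 10 ^ E := Nat.pow_le_pow_right (by norm_num) hlt
      have h4 : 0 < 10 ^ v := by positivity
      have h5 : 10 ^ v * X < 10 ^ v * (2 * a * 10 ^ E0) := Nat.mul_lt_mul_of_pos_left h1 h4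
      have h6 : a * 10 ^ (E0 + v + 1) ≤ a * 10 ^ E := Nat.mul_le_mul_left a h3
      have h7 : a * 10 ^ (E0 + v + 1) = 10 * (10 ^ v * (a * 10 ^ E0)) := by ring
      have h8 : 10 ^ v * (2 * a * 10 ^ E0) = 2 * (10 ^ v * (a * 10 ^ E0)) := by ring
      omega
    refine (Finset.card_le_card hsub).trans ?_
    rw [Nat.card_Icc]
    omega

private theorem asm_facts {v X n y : ℕ} {Y : ℝ} (hy : Y < (y : ℝ) + 1)
    (hn : n ∈ Finset.Ioc (X / 2) X) (hl : (rl y n).length = v) (hnp : ¬ n.Prime) :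
    ∃ l : Fin v → ℕ, (rl y n).map dc = List.ofFn l ∧ 1 ≤ sp y n ∧
      sp y n * 10 ^ (∑ i, l i) ≤ 10 ^ v * X ∧
      X < 2 * sp y n * 10 ^ (∑ i, l i) ∧ (∀ i, Y < (10 : ℝ) ^ (l i)) ∧ (v = 1 → 2 ≤ sp y n) := by
  rw [Finset.mem_Ioc] at hn
  have hn1 : 1 ≤ n := by omega
  obtain ⟨h1, h2⟩ := dec_mul hn1 y
  obtain ⟨p, hp⟩ : ∃ p : Fin v → ℕ, rl y n = List.ofFn p := by
    subst hl
    exact ⟨(rl y n).get, (List.ofFn_get _).symm⟩
  have hmem : ∀ i, (p i).Prime ∧ y < p i := by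
    intro i
    have : p i ∈ rl y n := by rw [hp]; exact List.mem_ofFn.2 ⟨i, rfl⟩
    unfold rl at this
    rw [List.mem_filter] at this
    exact ⟨Nat.prime_of_mem_primeFactorsList this.1, by simpa using this.2⟩
  have hprod : (rl y n).prod = ∏ i, p i := by rw [hp, List.prod_ofFn]
  have hdc : ∀ i, 10 ^ (dc (p i) - 1) ≤ p i ∧ p i < 10 ^ dc (p i) ∧ 1 ≤ dc (p i) :=
    fun i => dc_spec (hmem i).1.one_lt.le
  have hup : ∏ i, p i ≤ 10 ^ (∑ i, dc (p i)) := by
    rw [← Finset.prod_pow_eq_pow_sum]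
    exact Finset.prod_le_prod' fun i _ => (hdc i).2.1.le
  have hlo : 10 ^ (∑ i, dc (p i)) ≤ 10 ^ v * ∏ i, p i := by
    have e : (10 : ℕ) ^ v = ∏ _i : Fin v, 10 := by simp
    rw [← Finset.prod_pow_eq_pow_sum, e, ← Finset.prod_mul_distrib]
    refine Finset.prod_le_prod' fun i _ => ?_
    have h3 : 10 ^ dc (p i) = 10 * 10 ^ (dc (p i) - 1) := by
      rw [← pow_succ', Nat.sub_add_cancel (hdc i).2.2]
    rw [h3]
    exact Nat.mul_le_mul_left _ (hdc i).1
  rw [hprod] at h1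
  refine ⟨fun i => dc (p i), ?_, h2, ?_, ?_, ?_, ?_⟩
  · rw [hp, List.map_ofFn]; rfl
  · calc sp y n * 10 ^ (∑ i, dc (p i)) ≤ sp y n * (10 ^ v * ∏ i, p i) :=
          Nat.mul_le_mul_left _ hlo
      _ = 10 ^ v * (sp y n * ∏ i, p i) := by ring
      _ = 10 ^ v * n := by rw [← h1]
      _ ≤ 10 ^ v * X := Nat.mul_le_mul_left _ hn.2
  · have h3 : n ≤ sp y n * 10 ^ (∑ i, dc (p i)) := by
      calc n = sp y n * ∏ i, p i := h1
        _ ≤ _ := Nat.mul_le_mul_left _ hup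
    have h4 : 2 * sp y n * 10 ^ (∑ i, dc (p i)) = 2 * (sp y n * 10 ^ (∑ i, dc (p i))) := by ring
    rw [h4]
    omega
  · intro i
    have h3 : ((y : ℝ) + 1) ≤ (p i : ℝ) := by exact_mod_cast (hmem i).2
    have h4 : (p i : ℝ) < (10 : ℝ) ^ dc (p i) := by exact_mod_cast (hdc i).2.1
    linarith
  · intro hv1
    by_contra hlt
    have ha : sp y n = 1 := by omega
    apply hnp
    rw [h1, ha, one_mul]
    subst hv1
    rw [Fin.prod_univ_one]
    exact (hmem 0).1

/-- the real estimates for given `a` and `E` -/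
private theorem asm_real {v : ℕ} {κ u : ℝ} {X a E : ℕ} (hX : 0 < X) (hu : (X : ℝ) = (10 : ℝ) ^ u)
    (ha : 1 ≤ a) (haκ : (a : ℝ) ≤ (10 : ℝ) ^ (κ * u))
    (h1 : a * 10 ^ E ≤ 10 ^ v * X) (h2 : X < 2 * a * 10 ^ E) :
    (E : ℝ) ≤ v + u ∧ (1 - κ) * u - 1 ≤ E := by
  have hXr : (0 : ℝ) < X := by exact_mod_cast hX
  have har : (1 : ℝ) ≤ a := by exact_mod_cast ha
  constructor
  · have h3 : (10 : ℝ) ^ (E : ℝ) ≤ (10 : ℝ) ^ ((v : ℝ) + u) := by
      rw [Real.rpow_add (by norm_num), Real.rpow_natCast, Real.rpow_natCast, ← hu]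
      have h4 : (a : ℝ) * 10 ^ E ≤ 10 ^ v * X := by exact_mod_cast h1
      have h5 : (10 : ℝ) ^ E ≤ (a : ℝ) * 10 ^ E := le_mul_of_one_le_left (by positivity) har
      exact h5.trans h4
    exact (Real.rpow_le_rpow_left_iff (by norm_num)).1 h3
  · have h3 : (10 : ℝ) ^ u ≤ (10 : ℝ) ^ (1 + κ * u + E) := by
      rw [Real.rpow_add (by norm_num), Real.rpow_add (by norm_num), Real.rpow_natCast,
        Real.rpow_one, ← hu]
      have h4 : (X : ℝ) < 2 * a * 10 ^ E := by exact_mod_cast h2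
      have h5 : 2 * (a : ℝ) * 10 ^ E ≤ 10 * (10 : ℝ) ^ (κ * u) * 10 ^ E := by
        gcongr
        norm_num
      linarith
    have := (Real.rpow_le_rpow_left_iff (by norm_num)).1 h3
    linarith

private theorem asm_log (n : ℕ) (K ε : ℝ) (hK : 0 < K) (hε : 0 < ε) :
    ∃ U : ℝ, ∀ u ≥ U, K * Real.log (2 * u) ^ n ≤ ε * u := by
  have h := (Real.isLittleO_pow_log_id_atTop (n := n)).def (show 0 < ε / (2 * K) by positivity)
  obtain ⟨U, hU⟩ := Filter.eventually_atTop.1 h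
  refine ⟨max U 1, fun u hu => ?_⟩
  have hu1 : 1 ≤ u := (le_max_right _ _).trans hu
  have hu2 : U ≤ 2 * u := by linarith [(le_max_left U 1).trans hu]
  have h3 := hU (2 * u) hu2
  rw [Real.norm_eq_abs, Real.norm_eq_abs, id, abs_of_nonneg (show (0 : ℝ) ≤ 2 * u by linarith)] at h3
  have h4 := (le_abs_self _).trans h3
  calc K * Real.log (2 * u) ^ n ≤ K * (ε / (2 * K) * (2 * u)) := by gcongr
    _ = ε * u := by field_simp

theorem asm (v : ℕ) (hv : 1 ≤ v) (η κ κ₁ ε : ℝ) (hη : 0 < η) (hκ : 0 < κ) (hκ5 : 5 * κ < 1)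
    (hκ₁ : 0 < κ₁) (hκκ : 6 * κ < κ₁) (hκ1 : κ₁ ≤ 1) (hε : 0 < ε) : ∃ X₀ : ℕ, ∀ X ≥ X₀,
    (((Finset.Ioc (X / 2) X).filter (fun n => ((sp ⌊(X : ℝ) ^ η⌋₊ n : ℕ) : ℝ) ≤ (X : ℝ) ^ κ ∧
      (rl ⌊(X : ℝ) ^ η⌋₊ n).length = v ∧ ¬ n.Prime ∧ (f (f n)).Prime ∧
      (X : ℝ) ^ κ₁ ≤ (gp (f n) : ℝ))).card : ℝ) ≤ ε * X := by
  obtain ⟨C, hC, E₀, hmla⟩ := mla v hv (η / 2) (κ₁ / 4) (by positivity) (by positivity)
  set Kc : ℝ := 16 * ((v : ℝ) + 1) * C * 2 ^ (v - 1) * 10 ^ v with hKc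
  have hKpos : 0 < Kc := by positivity
  obtain ⟨U₁, hU₁⟩ := asm_log (v + 2) Kc ε hKpos hε
  set U : ℝ := max U₁ (max (4 : ℝ) (max (3 * v) (max (1 / (1 - 5 * κ)) (2 * E₀ + 1)))) with hU
  refine ⟨⌈(10 : ℝ) ^ U⌉₊, fun X hX => ?_⟩
  have hXU : (10 : ℝ) ^ U ≤ X := (Nat.le_ceil _).trans (by exact_mod_cast hX)
  have hXpos : (0 : ℝ) < X := lt_of_lt_of_le (by positivity) hXU
  have hXpos' : 0 < X := by exact_mod_cast hXpos
  set u : ℝ := Real.logb 10 X with hu
  have hXu : (X : ℝ) = (10 : ℝ) ^ u :=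
    (Real.rpow_logb (by norm_num) (by norm_num) hXpos).symm
  have hUu : U ≤ u := by
    rw [hu, Real.le_logb_iff_rpow_le (by norm_num) hXpos]
    exact hXU
  have hu1 : U₁ ≤ u := (le_max_left _ _).trans hUu
  have hu2 : 4 ≤ u := ((le_max_left _ _).trans (le_max_right _ _)).trans hUu
  have hu3 : 3 * (v : ℝ) ≤ u :=
    ((le_max_left _ _).trans ((le_max_right _ _).trans (le_max_right _ _))).trans hUu
  have hu4 : 1 / (1 - 5 * κ) ≤ u :=
    ((le_max_left _ _).trans ((le_max_right _ _).trans ((le_max_right _ _).trans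
      (le_max_right _ _)))).trans hUu
  have hu5 : 2 * (E₀ : ℝ) + 1 ≤ u :=
    ((le_max_right _ _).trans ((le_max_right _ _).trans ((le_max_right _ _).trans
      (le_max_right _ _)))).trans hUu
  have hv' : (1 : ℝ) ≤ v := by exact_mod_cast hv
  have hu4' : 1 ≤ (1 - 5 * κ) * u := by
    rw [div_le_iff₀ (by linarith)] at hu4
    linarith
  have hXκ : ∀ t : ℝ, (X : ℝ) ^ t = (10 : ℝ) ^ (t * u) := by
    intro t
    rw [hXu, ← Real.rpow_mul (by norm_num), mul_comm]
  set y : ℕ := ⌊(X : ℝ) ^ η⌋₊ with hy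
  have hylt : (X : ℝ) ^ η < (y : ℝ) + 1 := Nat.lt_floor_add_one _
  set T : Finset ℕ := (Finset.Ioc (X / 2) X).filter (fun n => ((sp y n : ℕ) : ℝ) ≤ (X : ℝ) ^ κ ∧
      (rl y n).length = v ∧ ¬ n.Prime ∧ (f (f n)).Prime ∧
      (X : ℝ) ^ κ₁ ≤ (gp (f n) : ℝ)) with hT
  set S : ℕ → (Fin v → ℕ) → Finset ℕ := fun a l =>
    T.filter (fun n => sp y n = a ∧ (rl y n).map dc = List.ofFn l) with hS
  set AA : Finset ℕ := (Finset.Icc 1 X).filter (fun a => (a : ℝ) ≤ (10 : ℝ) ^ (κ * u)) with hAA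
  -- the cover
  have hcover : T ⊆ AA.biUnion (fun a => (asmExp v X a).biUnion
      (fun E => (asmVec v E).biUnion (fun l => S a l))) := by
    intro n hn
    have hn' := (Finset.mem_filter.1 hn)
    obtain ⟨hnI, h1, h2, h3, h4, h5⟩ := hn'
    obtain ⟨l, hl1, hl2, hl3, hl4, hl5, hl6⟩ := asm_facts hylt hnI h2 h3
    have haX : sp y n ≤ X := by
      have h6 := dec_mul (show 1 ≤ n by have := (Finset.mem_Ioc.1 hnI).1; omega) y
      have h7 : sp y n ∣ n := ⟨_, h6.1⟩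
      exact (Nat.le_of_dvd (by have := (Finset.mem_Ioc.1 hnI).1; omega) h7).trans
        (Finset.mem_Ioc.1 hnI).2
    rw [Finset.mem_biUnion]
    refine ⟨sp y n, ?_, ?_⟩
    · rw [hAA, Finset.mem_filter, Finset.mem_Icc]
      refine ⟨⟨hl2, haX⟩, ?_⟩
      rw [← hXκ]
      exact h1
    rw [Finset.mem_biUnion]
    refine ⟨∑ i, l i, ?_, ?_⟩
    · rw [asmExp, Finset.mem_filter, Finset.mem_range]
      refine ⟨?_, hl4, hl3⟩
      have h6 : 10 ^ (∑ i, l i) ≤ 10 ^ v * X := by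
        calc 10 ^ (∑ i, l i) = 1 * 10 ^ (∑ i, l i) := (one_mul _).symm
          _ ≤ sp y n * 10 ^ (∑ i, l i) := Nat.mul_le_mul_right _ hl2
          _ ≤ _ := hl3
      have h7 : 10 ^ (∑ i, l i) < 10 ^ (X + v) := by
        refine h6.trans_lt ?_
        rw [pow_add, mul_comm]
        exact Nat.mul_lt_mul_of_pos_right (Nat.lt_pow_self (by norm_num)) (by positivity)
      have := (Nat.pow_lt_pow_iff_right (by norm_num : 1 < 10)).1 h7
      omega
    rw [Finset.mem_biUnion]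
    refine ⟨l, asm_mem_vec l, ?_⟩
    rw [hS]
    simp only [Finset.mem_filter]
    exact ⟨hn, trivial, hl1⟩
  -- the estimates for `a` and `E`
  have hE : ∀ a ∈ AA, ∀ E ∈ asmExp v X a, u / 2 ≤ (E : ℝ) ∧ (E : ℝ) ≤ v + u ∧
      (1 - κ) * u - 1 ≤ E ∧ (a : ℝ) * 10 ^ E ≤ 10 ^ v * X := by
    intro a ha E hE
    rw [hAA, Finset.mem_filter, Finset.mem_Icc] at ha
    rw [asmExp, Finset.mem_filter] at hE
    obtain ⟨h1, h2⟩ := asm_real hXpos' hXu ha.1.1 ha.2 hE.2.2 hE.2.1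
    refine ⟨?_, h1, h2, by exact_mod_cast hE.2.2⟩
    have : (1 - κ) * u - 1 ≥ u / 2 := by nlinarith
    linarith
  -- the bound for one `l`
  have hone : ∀ a ∈ AA, ∀ E ∈ asmExp v X a, ∀ l ∈ asmVec v E,
      ((S a l).card : ℝ) ≤ C * (10 : ℝ) ^ E * Real.log (E : ℝ) ^ (v + 2) / (E : ℝ) ^ (v + 1) := by
    intro a ha E hEm l hl
    obtain ⟨hE1, hE2, hE3, hE4⟩ := hE a ha E hEm
    have hsum : ∑ i, l i = E := (Finset.mem_filter.1 hl).2
    have hEpos : (1 : ℝ) ≤ E := by linarith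
    rcases (S a l).eq_empty_or_nonempty with hemp | ⟨n, hn⟩
    · rw [hemp]
      simp only [Finset.card_empty, Nat.cast_zero]
      have := Real.log_nonneg hEpos
      positivity
    · have hn' := Finset.mem_filter.1 hn
      obtain ⟨hnT, hna, hnl⟩ := hn'
      obtain ⟨hnI, h1, h2, h3, h4, h5⟩ := Finset.mem_filter.1 hnT
      obtain ⟨l', hl1, hl2, hl3, hl4, hl5, hl6⟩ := asm_facts hylt hnI h2 h3
      have hll : l' = l := List.ofFn_injective (hl1.symm.trans hnl)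
      subst hll
      rw [hna] at hl2 hl3 hl4 hl6 h1
      have haκ : (a : ℝ) ≤ (10 : ℝ) ^ (κ * u) := (Finset.mem_filter.1 ha).2
      -- size of `f a`
      have hfa : (f a : ℝ) + 1 ≤ (10 : ℝ) ^ (4 * κ * u) := by
        have h6 : f a + 1 ≤ a ^ 4 := (f_lt hl2).trans_le (lam_le hl2)
        have h7 : (f a : ℝ) + 1 ≤ (a : ℝ) ^ 4 := by exact_mod_cast h6
        refine h7.trans ?_
        have h8 : (10 : ℝ) ^ (4 * κ * u) = ((10 : ℝ) ^ (κ * u)) ^ 4 := by
          rw [← Real.rpow_natCast, ← Real.rpow_mul (by norm_num)]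
          congr 1
          push_cast
          ring
        rw [h8]
        gcongr
      have hδ : ((f a : ℝ) + 1) * (10 : ℝ) ^ (κ₁ / 4 * ((∑ i, l' i : ℕ) : ℝ)) ≤ (X : ℝ) ^ κ₁ := by
        rw [hsum, hXκ]
        calc ((f a : ℝ) + 1) * (10 : ℝ) ^ (κ₁ / 4 * (E : ℝ))
            ≤ (10 : ℝ) ^ (4 * κ * u) * (10 : ℝ) ^ (κ₁ / 4 * (E : ℝ)) := by gcongr
          _ = (10 : ℝ) ^ (4 * κ * u + κ₁ / 4 * (E : ℝ)) := by
              rw [Real.rpow_add (by norm_num)]
          _ ≤ (10 : ℝ) ^ (κ₁ * u) := by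
              apply Real.rpow_le_rpow_of_exponent_le (by norm_num)
              have h6 : κ₁ / 4 * (E : ℝ) ≤ κ₁ / 4 * (v + u) := by gcongr
              have h7 : κ₁ * (3 * (v : ℝ)) ≤ κ₁ * u := by gcongr
              have h8 : 4 * κ * u ≤ 2 / 3 * κ₁ * u := by
                apply mul_le_mul_of_nonneg_right _ (by linarith)
                linarith
              nlinarith
      have hcard := asm1 y a l' (S a l') (κ₁ / 4) (by
        intro n' hn'
        obtain ⟨hnT', hna', hnl'⟩ := Finset.mem_filter.1 hn'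
        obtain ⟨hnI', _, _, _, h4', h5'⟩ := Finset.mem_filter.1 hnT'
        refine ⟨?_, hna', hnl', h4', hδ.trans h5'⟩
        have := (Finset.mem_Ioc.1 hnI').1
        omega)
      have hm := hmla l' (f a) (by
        rw [hsum]
        have : (E₀ : ℝ) ≤ E := by linarith
        exact_mod_cast this) (by
        intro i
        rw [hsum]
        have h6 : (10 : ℝ) ^ (η * u) < (10 : ℝ) ^ (l' i : ℝ) := by
          rw [← hXκ, Real.rpow_natCast]
          exact hl5 i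
        have h7 : η * u < (l' i : ℝ) := (Real.rpow_lt_rpow_left_iff (by norm_num)).1 h6
        have h8 : η / 2 * (E : ℝ) ≤ η / 2 * (2 * u) := by
          apply mul_le_mul_of_nonneg_left _ (by positivity)
          linarith
        linarith) (by
        rw [hsum]
        have h6 : (f a : ℝ) < (10 : ℝ) ^ E := by
          have h7 : (10 : ℝ) ^ (4 * κ * u) ≤ (10 : ℝ) ^ (E : ℝ) := by
            apply Real.rpow_le_rpow_of_exponent_le (by norm_num)
            linarith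
          rw [Real.rpow_natCast] at h7
          linarith
        exact_mod_cast h6) (by
        rcases Nat.lt_or_ge v 2 with hv2 | hv2
        · left
          have hv1 : v = 1 := by omega
          have h6 := hl6 hv1
          exact (by omega : 1 ≤ a).trans (le_f h6)
        · right; exact hv2)
      rw [hsum] at hm
      exact le_trans (by exact_mod_cast hcard) hm
  -- the bound for one `E`
  have hlog2u : 0 ≤ Real.log (2 * u) := Real.log_nonneg (by linarith)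
  set M : ℝ := C * 2 ^ (v - 1) * (4 / u ^ 2) * Real.log (2 * u) ^ (v + 2) with hM
  have hMnn : 0 ≤ M := by positivity
  have hexp : ∀ a ∈ AA, ∀ E ∈ asmExp v X a,
      (((asmVec v E).biUnion (fun l => S a l)).card : ℝ) ≤ M * 10 ^ v * X * (1 / (a : ℝ)) := by
    intro a ha E hEm
    obtain ⟨hE1, hE2, hE3, hE4⟩ := hE a ha E hEm
    have hEpos : (1 : ℝ) ≤ E := by linarith
    have hapos : (0 : ℝ) < a := by
      have := (Finset.mem_Icc.1 (Finset.mem_filter.1 ha).1).1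
      exact_mod_cast this
    have h1 : (((asmVec v E).biUnion (fun l => S a l)).card : ℝ)
        ≤ ∑ l ∈ asmVec v E, ((S a l).card : ℝ) := by
      exact_mod_cast Finset.card_biUnion_le
    have hlogE : 0 ≤ Real.log (E : ℝ) := Real.log_nonneg hEpos
    have h2 : ∑ l ∈ asmVec v E, ((S a l).card : ℝ) ≤ ((E : ℝ) + 1) ^ (v - 1) *
        (C * (10 : ℝ) ^ E * Real.log (E : ℝ) ^ (v + 2) / (E : ℝ) ^ (v + 1)) := by
      refine (Finset.sum_le_card_nsmul _ _ _ (hone a ha E hEm)).trans ?_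
      rw [nsmul_eq_mul]
      apply mul_le_mul_of_nonneg_right _ (by positivity)
      exact_mod_cast asm_card_vec v E hv
    have h3 : ((E : ℝ) + 1) ^ (v - 1) *
        (C * (10 : ℝ) ^ E * Real.log (E : ℝ) ^ (v + 2) / (E : ℝ) ^ (v + 1)) ≤ M * 10 ^ E := by
      have h4 : ((E : ℝ) + 1) ^ (v - 1) ≤ (2 * (E : ℝ)) ^ (v - 1) := by
        gcongr
        linarith
      have h5 : Real.log (E : ℝ) ^ (v + 2) ≤ Real.log (2 * u) ^ (v + 2) := by
        gcongr
        linarith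
      have h6 : (E : ℝ) ^ (v + 1) = (E : ℝ) ^ (v - 1) * (E : ℝ) ^ 2 := by
        rw [← pow_add]; congr 1; omega
      have h7 : 1 / (E : ℝ) ^ 2 ≤ 4 / u ^ 2 := by
        rw [div_le_div_iff₀ (by positivity) (by positivity)]
        nlinarith
      calc ((E : ℝ) + 1) ^ (v - 1) *
          (C * (10 : ℝ) ^ E * Real.log (E : ℝ) ^ (v + 2) / (E : ℝ) ^ (v + 1))
          ≤ (2 * (E : ℝ)) ^ (v - 1) *
          (C * (10 : ℝ) ^ E * Real.log (2 * u) ^ (v + 2) / (E : ℝ) ^ (v + 1)) := by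
            gcongr
        _ = C * 2 ^ (v - 1) * (1 / (E : ℝ) ^ 2) * Real.log (2 * u) ^ (v + 2) * 10 ^ E := by
            rw [h6, mul_pow]
            have : (E : ℝ) ^ (v - 1) ≠ 0 := by positivity
            field_simp
        _ ≤ C * 2 ^ (v - 1) * (4 / u ^ 2) * Real.log (2 * u) ^ (v + 2) * 10 ^ E := by
            gcongr
        _ = M * 10 ^ E := by rw [hM]
    have h4 : M * 10 ^ E ≤ M * 10 ^ v * X * (1 / (a : ℝ)) := by
      have h5 : (10 : ℝ) ^ E ≤ 10 ^ v * X * (1 / (a : ℝ)) := by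
        rw [mul_one_div, le_div_iff₀ hapos]
        linarith
      calc M * 10 ^ E ≤ M * (10 ^ v * X * (1 / (a : ℝ))) := by gcongr
        _ = _ := by ring
    linarith
  -- the bound for one `a`
  have haa : ∀ a ∈ AA, (((asmExp v X a).biUnion
      (fun E => (asmVec v E).biUnion (fun l => S a l))).card : ℝ)
      ≤ ((v : ℝ) + 1) * (M * 10 ^ v * X * (1 / (a : ℝ))) := by
    intro a ha
    have h1 : (((asmExp v X a).biUnion
      (fun E => (asmVec v E).biUnion (fun l => S a l))).card : ℝ)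
        ≤ ∑ E ∈ asmExp v X a, (((asmVec v E).biUnion (fun l => S a l)).card : ℝ) := by
      exact_mod_cast Finset.card_biUnion_le
    refine h1.trans ((Finset.sum_le_card_nsmul _ _ _ (hexp a ha)).trans ?_)
    rw [nsmul_eq_mul]
    apply mul_le_mul_of_nonneg_right _ (by positivity)
    exact_mod_cast asm_card_exp v X a
  have hTcard : (T.card : ℝ) ≤ ∑ a ∈ AA, (((v : ℝ) + 1) * (M * 10 ^ v * X * (1 / (a : ℝ)))) := by
    calc (T.card : ℝ) ≤ ((AA.biUnion (fun a => (asmExp v X a).biUnion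
      (fun E => (asmVec v E).biUnion (fun l => S a l)))).card : ℝ) := by
          exact_mod_cast Finset.card_le_card hcover
      _ ≤ ∑ a ∈ AA, (((asmExp v X a).biUnion
          (fun E => (asmVec v E).biUnion (fun l => S a l))).card : ℝ) := by
          exact_mod_cast Finset.card_biUnion_le
      _ ≤ _ := Finset.sum_le_sum haa
  have hharm : ∑ a ∈ AA, (1 / (a : ℝ)) ≤ 4 * u := by
    have h1 : ∑ a ∈ AA, (1 / (a : ℝ)) ≤ ∑ a ∈ Finset.Icc 1 X, (1 / (a : ℝ)) :=
      Finset.sum_le_sum_of_subset_of_nonneg (Finset.filter_subset _ _)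
        (fun i _ _ => by positivity)
    have h2 : ∑ a ∈ Finset.Icc 1 X, (1 / (a : ℝ)) ≤ 1 + Real.log X := by
      have h3 := harmonic_le_one_add_log X
      rw [harmonic_eq_sum_Icc] at h3
      push_cast at h3
      simpa [one_div] using h3
    have h3 : Real.log X = u * Real.log 10 := by
      rw [hXu, Real.log_rpow (by norm_num)]
    have h4 : Real.log 10 ≤ 3 := by
      have h5 : (10 : ℝ) ≤ Real.exp 1 ^ 3 := by
        have := Real.exp_one_gt_d9
        have h6 : (2.7 : ℝ) ^ 3 ≤ Real.exp 1 ^ 3 := by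
          gcongr
          linarith
        have h7 : (10 : ℝ) ≤ (2.7 : ℝ) ^ 3 := by norm_num
        exact h7.trans h6
      have h7 : Real.log 10 ≤ Real.log (Real.exp 1 ^ 3) := Real.log_le_log (by norm_num) h5
      rw [Real.log_pow, Real.log_exp] at h7
      push_cast at h7
      linarith
    nlinarith
  have hfinal : ∑ a ∈ AA, (((v : ℝ) + 1) * (M * 10 ^ v * X * (1 / (a : ℝ))))
      = ((v : ℝ) + 1) * M * 10 ^ v * X * ∑ a ∈ AA, (1 / (a : ℝ)) := by
    rw [Finset.mul_sum]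
    refine Finset.sum_congr rfl fun a _ => ?_
    ring
  rw [hfinal] at hTcard
  refine hTcard.trans ?_
  have hupos : 0 < u := by linarith
  calc ((v : ℝ) + 1) * M * 10 ^ v * X * ∑ a ∈ AA, (1 / (a : ℝ))
      ≤ ((v : ℝ) + 1) * M * 10 ^ v * X * (4 * u) := by gcongr
    _ = (Kc * Real.log (2 * u) ^ (v + 2)) / u * X := by
        rw [hM, hKc]
        field_simp
        ring
    _ ≤ (ε * u) / u * X := by
        have := hU₁ u hu1
        gcongr
    _ = ε * X := by field_simp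

end Pool.Agent.HP
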