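import Pool.Agent.HP.Defs

/-! DIG (~100 lines): blocks of digits. Block `i` occupies the places `ee l i, …, ee l i + l i - 1`;
`ee l i + l i = ∑ j ∈ Ici i, l j`, in particular `ee l 0 + l 0 = ∑ l`. Induction on `v` (`Fin.cons`/`Fin.sum_univ_succ`):
`val l A x = A * 10^(∑ l) + x 0 * 10^(ee l 0) + …` and `val l A x = val (tail l) (A * 10^(l 0) + x 0) (tail x)`. -/

set_option autoImplicit false

namespace Pool.Agent.HP

open Finset

theorem dig_ee_zero {v : ℕ} (l : Fin (v + 1) → ℕ) : ee l 0 = ∑ i, l (Fin.succ i) := by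
  unfold ee
  have h : Finset.Ioi (0 : Fin (v + 1)) = Finset.univ.map (Fin.succEmb v) := by
    ext j
    simp only [Finset.mem_Ioi, Finset.mem_map, Finset.mem_univ, true_and]
    constructor
    · intro hj
      obtain ⟨k, hk⟩ := Fin.exists_succ_eq.2 hj.ne'
      exact ⟨k, hk⟩
    · rintro ⟨k, rfl⟩
      exact Fin.succ_pos k
  rw [h, Finset.sum_map]
  rfl

theorem dig_ee_succ {v : ℕ} (l : Fin (v + 1) → ℕ) (i : Fin v) :
    ee l i.succ = ee (fun j => l (Fin.succ j)) i := by
  unfold ee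
  have h : Finset.Ioi (i.succ : Fin (v + 1)) = (Finset.Ioi i).map (Fin.succEmb v) := by
    ext j
    simp only [Finset.mem_Ioi, Finset.mem_map]
    constructor
    · intro hj
      obtain ⟨k, hk⟩ := Fin.exists_succ_eq.2 ((Fin.succ_pos i).trans hj).ne'
      refine ⟨k, ?_, hk⟩
      rw [← hk] at hj
      exact Fin.succ_lt_succ_iff.1 hj
    · rintro ⟨k, hk, rfl⟩
      exact Fin.succ_lt_succ_iff.2 hk
  rw [h, Finset.sum_map]
  rfl

theorem dig_val_succ {v : ℕ} (l : Fin (v + 1) → ℕ) (A : ℕ) (x : Fin (v + 1) → ℕ) :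
    val l A x = val (fun j => l (Fin.succ j)) (A * 10 ^ l 0 + x 0) (fun j => x (Fin.succ j)) := by
  unfold val
  rw [Fin.sum_univ_succ, Fin.sum_univ_succ (fun i => x i * 10 ^ ee l i), dig_ee_zero, pow_add]
  simp only [dig_ee_succ]
  ring

theorem dig_mem {v : ℕ} (l : Fin v → ℕ) (A : ℕ) (x : Fin v → ℕ) (hx : ∀ i, x i < 10 ^ l i) :
    val l A x ∈ win A (∑ i, l i) := by
  induction v generalizing A with
  | zero =>
    simp [val, win]
  | succ v ih =>
    have h := ih (fun j => l (Fin.succ j)) (A * 10 ^ l 0 + x 0) (fun j => x (Fin.succ j))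
      (fun j => hx _)
    rw [← dig_val_succ] at h
    unfold win at h ⊢
    rw [Finset.mem_Ico] at h ⊢
    rw [Fin.sum_univ_succ, pow_add]
    set T := 10 ^ ∑ i, l (Fin.succ i) with hT
    set L := 10 ^ l 0 with hL
    have h0 : x 0 + 1 ≤ L := hx 0
    obtain ⟨h1, h2⟩ := h
    constructor
    · calc A * (L * T) = (A * L) * T := by ring
        _ ≤ (A * L + x 0) * T := Nat.mul_le_mul_right _ (Nat.le_add_right _ _)
        _ ≤ _ := h1
    · calc val l A x < (A * L + x 0 + 1) * T := h2
        _ ≤ (A * L + L) * T := Nat.mul_le_mul_right _ (by omega)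
        _ = (A + 1) * (L * T) := by ring

theorem dig_win_div {A E N : ℕ} (h : N ∈ win A E) : N / 10 ^ E = A := by
  unfold win at h
  rw [Finset.mem_Ico] at h
  refine Nat.div_eq_of_lt_le ?_ ?_
  · exact h.1
  · exact h.2

theorem dig_mem_win_div (N E : ℕ) : N ∈ win (N / 10 ^ E) E := by
  unfold win
  rw [Finset.mem_Ico]
  constructor
  · exact Nat.div_mul_le_self _ _
  · exact Nat.lt_mul_of_div_lt (Nat.lt_succ_self _) (by positivity)

theorem dig_blk {v : ℕ} (l : Fin v → ℕ) (A : ℕ) (x : Fin v → ℕ) (hx : ∀ i, x i < 10 ^ l i)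
    (i : Fin v) : blk (ee l i) (l i) (val l A x) = x i := by
  induction v generalizing A with
  | zero => exact i.elim0
  | succ v ih =>
    refine Fin.cases ?_ (fun j => ?_) i
    · have h := dig_mem (fun j => l (Fin.succ j)) (A * 10 ^ l 0 + x 0) (fun j => x (Fin.succ j))
        (fun j => hx _)
      rw [← dig_val_succ] at h
      unfold blk
      rw [dig_ee_zero, dig_win_div h, Nat.add_comm, Nat.add_mul_mod_self_right]
      exact Nat.mod_eq_of_lt (hx 0)
    · rw [dig_val_succ, dig_ee_succ]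
      exact ih (fun j => l (Fin.succ j)) (A * 10 ^ l 0 + x 0) (fun j => x (Fin.succ j))
        (fun j => hx _) j

theorem dig_inv {v : ℕ} (l : Fin v → ℕ) (A N : ℕ) (hN : N ∈ win A (∑ i, l i)) :
    N = val l A (fun i => blk (ee l i) (l i) N) := by
  induction v generalizing A with
  | zero =>
    unfold win at hN
    rw [Finset.mem_Ico] at hN
    simp only [Finset.univ_eq_empty, Finset.sum_empty, pow_zero, mul_one] at hN
    simp only [val, Finset.univ_eq_empty, Finset.sum_empty, pow_zero, mul_one, add_zero]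
    omega
  | succ v ih =>
    rw [dig_val_succ]
    have h1 : N / 10 ^ (∑ i, l (Fin.succ i)) = A * 10 ^ l 0 + blk (ee l 0) (l 0) N := by
      unfold blk
      rw [dig_ee_zero]
      have h2 := dig_win_div hN
      rw [Fin.sum_univ_succ, Nat.add_comm, pow_add, ← Nat.div_div_eq_div_mul] at h2
      have h3 := Nat.div_add_mod (N / 10 ^ (∑ i, l (Fin.succ i))) (10 ^ l 0)
      rw [h2] at h3
      rw [Nat.mul_comm A]
      exact h3.symm
    have h4 := dig_mem_win_div N (∑ i, l (Fin.succ i))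
    rw [h1] at h4
    have h5 := ih (fun j => l (Fin.succ j)) (A * 10 ^ l 0 + blk (ee l 0) (l 0) N) h4
    simp only [dig_ee_succ]
    exact h5

theorem blk_lt {v : ℕ} (l : Fin v → ℕ) (i : Fin v) (N : ℕ) :
    blk (ee l i) (l i) N < 10 ^ l i := by
  unfold blk
  exact Nat.mod_lt _ (by positivity)

end Pool.Agent.HP
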