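import Pool.Agent.HP.CAT
import Pool.Agent.HP.DIG

/-! DEC: splitting off the smooth part. -/

set_option autoImplicit false

namespace Pool.Agent.HP

open Finset Nec92d717

theorem dec_perm (n y : ℕ) :
    (n.primeFactorsList.filter (fun p => p ≤ y) ++ rl y n).Perm n.primeFactorsList := by
  have h := List.filter_append_perm (fun p => decide (p ≤ y)) n.primeFactorsList
  have e : rl y n = n.primeFactorsList.filter (fun x => !decide (x ≤ y)) := by
    unfold rl
    apply List.filter_congr
    intro x _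
    by_cases hx : x ≤ y
    · have : ¬ y < x := not_lt.2 hx
      simp [hx, this]
    · have : y < x := not_le.1 hx
      simp [hx, this]
  rw [e]
  exact h

theorem dec_split (n y : ℕ) :
    n.primeFactorsList = n.primeFactorsList.filter (fun p => p ≤ y) ++ rl y n := by
  have hs := (Nat.primeFactorsList_sorted n).pairwise
  refine List.Perm.eq_of_pairwise' (r := fun a b : ℕ => a ≤ b) hs ?_ (dec_perm n y).symm
  rw [List.pairwise_append]
  refine ⟨hs.filter _, hs.filter _, ?_⟩
  intro a ha b hb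
  have h1 : a ≤ y := by simpa using (List.mem_filter.1 ha).2
  have h2 : y < b := by simpa using (List.mem_filter.1 hb).2
  omega

theorem dec_mul {n : ℕ} (hn : 1 ≤ n) (y : ℕ) : n = sp y n * (rl y n).prod ∧ 1 ≤ sp y n := by
  have h0 : n ≠ 0 := by omega
  have h1 : n = sp y n * (rl y n).prod := by
    unfold sp
    rw [← List.prod_append, ← dec_split, Nat.prod_primeFactorsList h0]
  refine ⟨h1, ?_⟩
  rcases Nat.eq_zero_or_pos (sp y n) with h | h
  · rw [h, zero_mul] at h1
    omega
  · exact h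

theorem dec_fac (n y : ℕ) :
    (sp y n).primeFactorsList = n.primeFactorsList.filter (fun p => p ≤ y) := by
  have h := Nat.primeFactorsList_unique (n := sp y n)
    (l := n.primeFactorsList.filter (fun p => p ≤ y)) rfl
    (fun p hp => Nat.prime_of_mem_primeFactorsList (List.mem_filter.1 hp).1)
  exact (List.Perm.eq_of_pairwise' (r := fun a b : ℕ => a ≤ b)
    ((Nat.primeFactorsList_sorted n).pairwise.filter _) (Nat.primeFactorsList_sorted _).pairwise
    h).symm

theorem dec_foldl {v : ℕ} : ∀ (s : ℕ) (p : Fin v → ℕ),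
    (List.ofFn p).foldl decimalAppend s = val (fun i => dc (p i)) s p := by
  induction v with
  | zero =>
    intro s p
    simp [val]
  | succ v ih =>
    intro s p
    rw [List.ofFn_succ, List.foldl_cons, ih]
    unfold val decimalAppend ee
    rw [Fin.sum_univ_succ, Fin.sum_univ_succ, Fin.sum_Ioi_zero]
    simp only [Fin.sum_Ioi_succ]
    ring

theorem dec_f {n : ℕ} (hn : 1 ≤ n) (y : ℕ) {v : ℕ} (p : Fin v → ℕ) (hp : rl y n = List.ofFn p) :
    f n = val (fun i => dc (p i)) (f (sp y n)) p := by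
  have h1 : f n = (List.ofFn p).foldl decimalAppend (f (sp y n)) := by
    change n.primeFactorsList.foldl decimalAppend 0
      = (List.ofFn p).foldl decimalAppend ((sp y n).primeFactorsList.foldl decimalAppend 0)
    rw [dec_fac, ← hp, ← List.foldl_append, ← dec_split]
  rw [h1, dec_foldl]

theorem dec_data {v : ℕ} {y a : ℕ} {l : Fin v → ℕ} {n : ℕ} (h1 : 1 ≤ n) (h2 : sp y n = a)
    (h3 : (rl y n).map dc = List.ofFn l) :
    ∃ p : Fin v → ℕ, rl y n = List.ofFn p ∧ f n = val l (f a) p ∧ (∀ i, (p i).Prime) ∧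
      (∀ i, p i < 10 ^ l i) ∧ (∀ i, 10 ^ (l i - 1) ≤ p i) := by
  have hlen : (rl y n).length = v := by
    have := congrArg List.length h3
    simpa using this
  obtain ⟨p, hp⟩ : ∃ p : Fin v → ℕ, rl y n = List.ofFn p := by
    subst hlen
    exact ⟨(rl y n).get, (List.ofFn_get _).symm⟩
  have hl : (fun i => dc (p i)) = l := by
    rw [hp, List.map_ofFn] at h3
    exact List.ofFn_injective h3
  have hpr : ∀ i, (p i).Prime := by
    intro i
    have : p i ∈ rl y n := by
      rw [hp, List.mem_ofFn]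
      exact ⟨i, rfl⟩
    exact Nat.prime_of_mem_primeFactorsList (List.mem_filter.1 this).1
  refine ⟨p, hp, ?_, hpr, ?_, ?_⟩
  · rw [dec_f h1 y p hp, h2, hl]
  · intro i
    rw [← hl]
    exact (dc_spec (hpr i).one_lt.le).2.1
  · intro i
    rw [← hl]
    exact (dc_spec (hpr i).one_lt.le).1

theorem asm1 {v : ℕ} (y a : ℕ) (l : Fin v → ℕ) (S : Finset ℕ) (δ : ℝ)
    (hS : ∀ n ∈ S, 1 ≤ n ∧ sp y n = a ∧ (rl y n).map dc = List.ofFn l ∧ (f (f n)).Prime ∧
      ((f a : ℝ) + 1) * (10 : ℝ) ^ (δ * ((∑ i, l i : ℕ) : ℝ)) ≤ (gp (f n) : ℝ)) :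
    S.card ≤ (SS l (f a) δ).card := by
  classical
  apply Finset.card_le_card_of_injOn (fun n => f n)
  · intro n hn
    obtain ⟨h1, h2, h3, h4, h5⟩ := hS n hn
    obtain ⟨p, hp, hf, hpr, hlt, hge⟩ := dec_data h1 h2 h3
    simp only [SS, Finset.coe_filter, Set.mem_setOf_eq]
    refine ⟨?_, ?_, h4, h5⟩
    · rw [hf]
      exact dig_mem l (f a) p hlt
    · intro i
      rw [hf, dig_blk l (f a) p hlt i]
      exact ⟨hpr i, hge i⟩
  · intro n hn m hm hnm
    obtain ⟨h1, h2, h3, h4, h5⟩ := hS n hn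
    obtain ⟨k1, k2, k3, k4, k5⟩ := hS m hm
    obtain ⟨p, hp, hf, hpr, hlt, hge⟩ := dec_data h1 h2 h3
    obtain ⟨p', hp', hf', hpr', hlt', hge'⟩ := dec_data k1 k2 k3
    have hpp : p = p' := by
      funext i
      have e1 := dig_blk l (f a) p hlt i
      have e2 := dig_blk l (f a) p' hlt' i
      rw [← hf] at e1
      rw [← hf'] at e2
      have hnm' : f n = f m := hnm
      rw [← e1, ← e2, hnm']
    have e1 := (dec_mul h1 y).1
    have e2 := (dec_mul k1 y).1
    rw [e1, e2, h2, k2, hp, hp', hpp]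

end Pool.Agent.HP
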