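import Pool.Agent.HP.GRD
import Pool.Agent.HP.DEC

/-! ASX (~120 lines): structure. `S` is a set of primes `q`; `N₁ = h + q`, `sp y N₁ = a`, `l i` = digits of the `i`-th large prime of `N₁`; then
`f N₁ = val l (f a) p` (`dec_f`), blocks `p i`, `N₁ = a ∏ p i` (`dec_mul`), so `f N₁ ∈ SC l (f a) δ (cell) a h` for the cell `j` of `p`
(`gs_mem`, `j i < G` by `hG`), and `q ↦ f N₁` is injective (`q = a ∏ blk (f N₁) - h`). -/

set_option autoImplicit false

namespace Pool.Agent.HP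

open Finset

open scoped Classical in
theorem asx {v : ℕ} (y a h hi G : ℕ) (l g : Fin v → ℕ) (S : Finset ℕ) (δ : ℝ)
    (hl : ∀ i, 1 ≤ l i) (hg : ∀ i, 1 ≤ g i) (hG : ∀ i, 9 * 10 ^ (l i - 1) ≤ G * g i)
    (hh : 1 ≤ h)
    (hS : ∀ q ∈ S, q.Prime ∧ h + q ≤ hi ∧ 10 ^ ((∑ i, l i) / 2) ≤ q ∧ sp y (h + q) = a ∧
      (rl y (h + q)).map dc = List.ofFn l ∧ (f (f (h + q))).Prime ∧
      ((f a : ℝ) + 1) * (10 : ℝ) ^ (δ * ((∑ i, l i : ℕ) : ℝ)) ≤ (gp (f (h + q)) : ℝ)) :
    S.card ≤ ∑ j ∈ (Fintype.piFinset (fun _ : Fin v => Finset.range G)).filter (fun j =>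
        ∃ x : Fin v → ℕ, (∀ i, gs (l i) (g i) (j i) ≤ x i ∧ x i < gs (l i) (g i) (j i + 1)) ∧
          h < a * ∏ i, x i ∧ a * ∏ i, x i ≤ hi),
      (SC l (f a) δ (fun i => gs (l i) (g i) (j i)) (fun i => gs (l i) (g i) (j i + 1)) a h).card := by
  refine le_trans ?_ Finset.card_biUnion_le
  refine Finset.card_le_card_of_injOn (fun q => f (h + q)) ?_ ?_
  · intro q hq
    obtain ⟨hqp, hqhi, hq10, hsp, hrl, hff, hgp⟩ := hS q hq
    have hn1 : 1 ≤ h + q := by omega
    obtain ⟨p, hp, hf, hpr, hlt, hge⟩ := dec_data hn1 hsp hrl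
    have hmul : h + q = a * ∏ i, p i := by
      have h1 := (dec_mul hn1 y).1
      rwa [hsp, hp, List.prod_ofFn] at h1
    have hgm := fun i => gs_mem (hg i) (hge i) (hlt i)
    have hq0 := hqp.pos
    rw [Finset.mem_coe, Finset.mem_biUnion]
    refine ⟨fun i => (p i - 10 ^ (l i - 1)) / g i, ?_, ?_⟩
    · rw [Finset.mem_filter, Fintype.mem_piFinset]
      refine ⟨fun i => ?_, p, hgm, ?_, ?_⟩
      · rw [Finset.mem_range]
        rw [Nat.div_lt_iff_lt_mul (by have := hg i; omega)]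
        refine lt_of_lt_of_le ?_ (hG i)
        have h1 := hlt i
        have h2 : 10 ^ l i = 10 * 10 ^ (l i - 1) := by
          rw [← pow_succ', Nat.sub_add_cancel (hl i)]
        rw [h2] at h1
        have h3 := hge i
        omega
      · omega
      · omega
    · have hblk : ∀ i, blk (ee l i) (l i) (f (h + q)) = p i := by
        intro i
        rw [hf]
        exact dig_blk l (f a) p hlt i
      unfold SC
      rw [Finset.mem_filter]
      simp only [hblk]
      refine ⟨?_, ?_, ?_, ?_, hff, hgp⟩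
      · rw [hf]
        exact dig_mem l (f a) p hlt
      · intro i
        exact ⟨hpr i, hge i, (hgm i).1, (hgm i).2⟩
      · rw [← hmul]
        omega
      · rw [← hmul, Nat.add_sub_cancel_left]
        exact hqp
  · intro q hq q' hq' hqq
    obtain ⟨hqp, hqhi, hq10, hsp, hrl, hff, hgp⟩ := hS q hq
    obtain ⟨hqp', hqhi', hq10', hsp', hrl', hff', hgp'⟩ := hS q' hq'
    have hn1 : 1 ≤ h + q := by omega
    have hn1' : 1 ≤ h + q' := by omega
    obtain ⟨p, hp, hf, hpr, hlt, hge⟩ := dec_data hn1 hsp hrl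
    obtain ⟨p', hp', hf', hpr', hlt', hge'⟩ := dec_data hn1' hsp' hrl'
    have hqq2 : f (h + q) = f (h + q') := hqq
    have hpp : p = p' := by
      funext i
      have e1 := dig_blk l (f a) p hlt i
      have e2 := dig_blk l (f a) p' hlt' i
      rw [← hf] at e1
      rw [← hf'] at e2
      rw [← e1, ← e2, hqq2]
    have e1 := (dec_mul hn1 y).1
    have e2 := (dec_mul hn1' y).1
    rw [hsp, hp] at e1
    rw [hsp', hp', ← hpp] at e2
    omega

end Pool.Agent.HP
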