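import Pool.Agent.HP.BTI
import Pool.Agent.HP.CAT

/-! LEV: level of distribution of `f n`. Write `n = m₀ q₀`, `q₀ = gp n ≥ X^τ`, `m₀ ≤ X`, `λ = dc q₀`. By `f_gp`
`r ∣ f n` means `q₀ ≡ -f(m₀) 10^λ (mod r)`. For given `m₀, λ`: `q₀ ≤ Z = min(X/m₀, 10^λ)`, and if there is such a `q₀` then
`Z ≥ X^τ ≥ r²`, so `bti` gives `≤ C Z/(φ(r) τ log X)`. `∑_λ min(X/m₀, 10^λ)` over `λ` with `10^(λ-1) ≤ X/m₀` is `≤ 3 X/m₀`
(geometric series), `∑_{m₀ ≤ X} 1/m₀ ≤ 1 + log X`. -/

set_option autoImplicit false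

namespace Pool.Agent.HP

open Finset

private lemma lev_geo (L : ℕ) : ∑ k ∈ Finset.Icc 1 L, 10 ^ k ≤ 2 * 10 ^ L := by
  induction L with
  | zero => simp
  | succ n ih =>
    rw [Finset.sum_Icc_succ_top (by omega)]
    rw [pow_succ]
    omega

private lemma lev_min {Y : ℕ} (hY : 1 ≤ Y) :
    ∑ k ∈ Finset.Icc 1 (dc Y), min Y (10 ^ k) ≤ 3 * Y := by
  obtain ⟨h1, h2, h3⟩ := dc_spec hY
  obtain ⟨L, hL⟩ : ∃ L, dc Y = L + 1 := ⟨dc Y - 1, by omega⟩
  rw [hL] at h1 h2 ⊢
  rw [Finset.sum_Icc_succ_top (by omega)]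
  have h4 : ∑ k ∈ Finset.Icc 1 L, min Y (10 ^ k) ≤ ∑ k ∈ Finset.Icc 1 L, 10 ^ k :=
    Finset.sum_le_sum fun k _ => min_le_right _ _
  have h5 := lev_geo L
  have h6 : min Y (10 ^ (L + 1)) ≤ Y := min_le_left _ _
  simp only [Nat.add_sub_cancel] at h1
  omega

private lemma lev_dc_mono {a b : ℕ} (ha : 1 ≤ a) (h : a ≤ b) : dc a ≤ dc b := by
  obtain ⟨h1, h2, h3⟩ := dc_spec ha
  obtain ⟨h4, h5, h6⟩ := dc_spec (ha.trans h)
  by_contra hc
  push Not at hc
  have h7 : 10 ^ dc b ≤ 10 ^ (dc a - 1) := Nat.pow_le_pow_right (by norm_num) (by omega)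
  omega

private lemma lev_harm (X : ℕ) (hX : 1 ≤ X) :
    ∑ m ∈ Finset.Icc 1 X, ((X / m : ℕ) : ℝ) ≤ X * (1 + Real.log X) := by
  have e2 : ∑ m ∈ Finset.Icc 1 X, 1 / (m : ℝ) = (harmonic X : ℝ) := by
    rw [harmonic_eq_sum_Icc]
    push_cast
    simp
  have h1 : ∑ m ∈ Finset.Icc 1 X, ((X / m : ℕ) : ℝ) ≤ ∑ m ∈ Finset.Icc 1 X, (X : ℝ) * (1 / (m : ℝ)) := by
    refine Finset.sum_le_sum fun m _ => ?_
    rw [mul_one_div]
    exact Nat.cast_div_le
  refine h1.trans ?_
  rw [← Finset.mul_sum, e2]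
  exact mul_le_mul_of_nonneg_left (harmonic_le_one_add_log X) (by positivity)

theorem lev (τ : ℝ) (hτ : 0 < τ) : ∃ C : ℝ, 0 < C ∧ ∃ X₀ : ℕ, ∀ X ≥ X₀, ∀ r : ℕ, 1 ≤ r →
    (r : ℝ) ^ 2 ≤ (X : ℝ) ^ τ →
    (((Finset.Icc 1 X).filter (fun n => (X : ℝ) ^ τ ≤ (gp n : ℝ) ∧ r ∣ f n)).card : ℝ) ≤
      C * X / (Nat.totient r : ℝ) := by
  obtain ⟨C, hC, hbt⟩ := bti
  refine ⟨6 * C / τ, by positivity, 3, ?_⟩
  intro X hX r hr hrX
  have hX3 : (3 : ℝ) ≤ X := by exact_mod_cast hX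
  have hXpos : (0 : ℝ) < X := by linarith
  have hXτ : (1 : ℝ) ≤ (X : ℝ) ^ τ := Real.one_le_rpow (by linarith) hτ.le
  have hφ : 0 < Nat.totient r := Nat.totient_pos.mpr hr
  have hφr : (0 : ℝ) < (Nat.totient r : ℝ) := by exact_mod_cast hφ
  have hlog : 1 ≤ Real.log X := by
    rw [Real.le_log_iff_exp_le hXpos]
    linarith [Real.exp_one_lt_three]
  -- the fibre of `m`
  set Q : ℕ → Finset ℕ := fun m => (Finset.Icc 1 (X / m)).filter (fun q => q.Prime ∧
    (X : ℝ) ^ τ ≤ (q : ℝ) ∧ r ∣ f m * 10 ^ dc q + q) with hQ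
  have hfib : ∀ m, ((Q m).card : ℝ) ≤
      C / ((Nat.totient r : ℝ) * (τ * Real.log X)) * (3 * ((X / m : ℕ) : ℝ)) := by
    intro m
    rcases Nat.eq_zero_or_pos (X / m) with hY0 | hY
    · have : Q m = ∅ := by
        simp only [hQ, hY0]
        rfl
      rw [this]
      simp only [Finset.card_empty, Nat.cast_zero]
      positivity
    set Y := X / m with hYdef
    have h1 : Q m ⊆ (Finset.Icc 1 (dc Y)).biUnion (fun k => (Q m).filter (fun q => dc q = k)) := by
      intro q hq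
      have hq' := hq
      simp only [hQ, Finset.mem_filter, Finset.mem_Icc] at hq'
      rw [Finset.mem_biUnion]
      refine ⟨dc q, ?_, ?_⟩
      · rw [Finset.mem_Icc]
        exact ⟨(dc_spec hq'.1.1).2.2, lev_dc_mono hq'.1.1 hq'.1.2⟩
      · rw [Finset.mem_filter]
        exact ⟨hq, rfl⟩
    have h2 : ∀ k, (((Q m).filter (fun q => dc q = k)).card : ℝ) ≤
        C / ((Nat.totient r : ℝ) * (τ * Real.log X)) * ((min Y (10 ^ k) : ℕ) : ℝ) := by
      intro k
      rcases Finset.eq_empty_or_nonempty ((Q m).filter (fun q => dc q = k)) with he | ⟨q₁, hq₁⟩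
      · rw [he]
        simp only [Finset.card_empty, Nat.cast_zero]
        positivity
      · simp only [hQ, Finset.mem_filter, Finset.mem_Icc] at hq₁
        obtain ⟨⟨⟨h11, h12⟩, hp1, hx1, hd1⟩, hk1⟩ := hq₁
        have hlt1 := (dc_spec h11).2.1
        rw [hk1] at hlt1 hd1
        have hle1 : q₁ ≤ min Y (10 ^ k) := le_min h12 hlt1.le
        have hZ2 : 2 ≤ min Y (10 ^ k) := hp1.two_le.trans hle1
        have hZX : (X : ℝ) ^ τ ≤ ((min Y (10 ^ k) : ℕ) : ℝ) :=
          hx1.trans (by exact_mod_cast hle1)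
        have hrZ : r ^ 2 ≤ min Y (10 ^ k) := by
          have : ((r ^ 2 : ℕ) : ℝ) ≤ ((min Y (10 ^ k) : ℕ) : ℝ) := by
            push_cast
            push_cast at hZX
            exact hrX.trans hZX
          exact_mod_cast this
        have hb := hbt r q₁ (min Y (10 ^ k)) hr hZ2 hrZ
        have hsub : (Q m).filter (fun q => dc q = k) ⊆
            (Finset.Icc 1 (min Y (10 ^ k))).filter (fun q => q.Prime ∧ q ≡ q₁ [MOD r]) := by
          intro q hq
          simp only [hQ, Finset.mem_filter, Finset.mem_Icc] at hq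
          obtain ⟨⟨⟨h21, h22⟩, hp2, hx2, hd2⟩, hk2⟩ := hq
          have hlt2 := (dc_spec h21).2.1
          rw [hk2] at hlt2 hd2
          simp only [Finset.mem_filter, Finset.mem_Icc]
          refine ⟨⟨h21, le_min h22 hlt2.le⟩, hp2, ?_⟩
          have e1 : f m * 10 ^ k + q ≡ f m * 10 ^ k + q₁ [MOD r] :=
            ((Nat.modEq_zero_iff_dvd.mpr hd2).trans (Nat.modEq_zero_iff_dvd.mpr hd1).symm)
          exact Nat.ModEq.add_left_cancel' _ e1
        have hcard : (((Q m).filter (fun q => dc q = k)).card : ℝ) ≤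
            (((Finset.Icc 1 (min Y (10 ^ k))).filter (fun q => q.Prime ∧ q ≡ q₁ [MOD r])).card : ℝ) := by
          exact_mod_cast Finset.card_le_card hsub
        refine hcard.trans (hb.trans ?_)
        have hlZ : τ * Real.log X ≤ Real.log ((min Y (10 ^ k) : ℕ) : ℝ) := by
          rw [← Real.log_rpow hXpos]
          exact Real.log_le_log (by linarith) hZX
        rw [div_mul_eq_mul_div]
        exact div_le_div_of_nonneg_left (by positivity) (by positivity)
          (mul_le_mul_of_nonneg_left hlZ hφr.le)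
    calc ((Q m).card : ℝ) ≤ (((Finset.Icc 1 (dc Y)).biUnion (fun k => (Q m).filter (fun q => dc q = k))).card : ℝ) := by
          exact_mod_cast Finset.card_le_card h1
      _ ≤ ((∑ k ∈ Finset.Icc 1 (dc Y), ((Q m).filter (fun q => dc q = k)).card : ℕ) : ℝ) := by
          exact_mod_cast Finset.card_biUnion_le
      _ = ∑ k ∈ Finset.Icc 1 (dc Y), (((Q m).filter (fun q => dc q = k)).card : ℝ) := by push_cast; rfl
      _ ≤ ∑ k ∈ Finset.Icc 1 (dc Y), C / ((Nat.totient r : ℝ) * (τ * Real.log X)) * ((min Y (10 ^ k) : ℕ) : ℝ) :=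
          Finset.sum_le_sum fun k _ => h2 k
      _ = C / ((Nat.totient r : ℝ) * (τ * Real.log X)) * ((∑ k ∈ Finset.Icc 1 (dc Y), min Y (10 ^ k) : ℕ) : ℝ) := by
          rw [← Finset.mul_sum, Nat.cast_sum]
      _ ≤ _ := by
          refine mul_le_mul_of_nonneg_left ?_ (by positivity)
          exact_mod_cast lev_min hY
  -- the map
  have hmap : ((Finset.Icc 1 X).filter (fun n => (X : ℝ) ^ τ ≤ (gp n : ℝ) ∧ r ∣ f n)).card ≤
      ((Finset.Icc 1 X).sigma Q).card := by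
    refine Finset.card_le_card_of_injOn (fun n => ⟨n / gp n, gp n⟩) ?_ ?_
    · intro n hn
      simp only [Finset.coe_filter, Set.mem_setOf_eq, Finset.mem_Icc] at hn
      obtain ⟨⟨hn1, hnX⟩, hg, hd⟩ := hn
      have hg1 : (1 : ℝ) ≤ (gp n : ℝ) := hXτ.trans hg
      have hn2 : 2 ≤ n := by
        rcases Nat.lt_or_ge n 2 with h | h
        · have : n = 1 := by omega
          rw [this] at hg1
          simp [gp] at hg1
          linarith
        · exact h
      obtain ⟨hgp, hgd, hgm⟩ := gp_spec hn2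
      have hnm : n / gp n * gp n = n := Nat.div_mul_cancel hgd
      have hq0 : 0 < gp n := hgp.pos
      have hm0 : 0 < n / gp n := Nat.div_pos (Nat.le_of_dvd (by omega) hgd) hq0
      simp only [Finset.coe_sigma, Set.mem_sigma_iff, Finset.coe_Icc, Set.mem_Icc, hQ,
        Finset.coe_filter, Set.mem_setOf_eq, Finset.mem_Icc]
      refine ⟨⟨hm0, (Nat.div_le_self _ _).trans hnX⟩, ⟨hq0, ?_⟩, hgp, hg, ?_⟩
      · rw [Nat.le_div_iff_mul_le hm0, mul_comm, hnm]
        exact hnX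
      · rw [← f_gp hn2]
        exact hd
    · intro a ha b hb hab
      simp only [Finset.coe_filter, Set.mem_setOf_eq, Finset.mem_Icc] at ha hb
      have key : ∀ n : ℕ, (X : ℝ) ^ τ ≤ (gp n : ℝ) → 1 ≤ n → n / gp n * gp n = n := by
        intro n hg hn1
        have hg1 : (1 : ℝ) ≤ (gp n : ℝ) := hXτ.trans hg
        have hn2 : 2 ≤ n := by
          rcases Nat.lt_or_ge n 2 with h | h
          · have : n = 1 := by omega
            rw [this] at hg1
            simp [gp] at hg1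
            linarith
          · exact h
        exact Nat.div_mul_cancel (gp_spec hn2).2.1
      have ka := key a ha.2.1 ha.1.1
      have kb := key b hb.2.1 hb.1.1
      have e1 : a / gp a = b / gp b := congrArg Sigma.fst hab
      have e2 : gp a = gp b := congrArg (fun z : (Σ _ : ℕ, ℕ) => z.2) hab
      rw [← ka, ← kb, e1, e2]
  calc (((Finset.Icc 1 X).filter (fun n => (X : ℝ) ^ τ ≤ (gp n : ℝ) ∧ r ∣ f n)).card : ℝ)
      ≤ (((Finset.Icc 1 X).sigma Q).card : ℝ) := by exact_mod_cast hmap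
    _ = ∑ m ∈ Finset.Icc 1 X, ((Q m).card : ℝ) := by
        rw [Finset.card_sigma]
        push_cast
        rfl
    _ ≤ ∑ m ∈ Finset.Icc 1 X, C / ((Nat.totient r : ℝ) * (τ * Real.log X)) * (3 * ((X / m : ℕ) : ℝ)) :=
        Finset.sum_le_sum fun m _ => hfib m
    _ = C / ((Nat.totient r : ℝ) * (τ * Real.log X)) * (3 * ∑ m ∈ Finset.Icc 1 X, ((X / m : ℕ) : ℝ)) := by
        rw [Finset.mul_sum, Finset.mul_sum]
    _ ≤ C / ((Nat.totient r : ℝ) * (τ * Real.log X)) * (3 * (X * (1 + Real.log X))) := by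
        refine mul_le_mul_of_nonneg_left ?_ (by positivity)
        exact mul_le_mul_of_nonneg_left (lev_harm X (by omega)) (by norm_num)
    _ ≤ C / ((Nat.totient r : ℝ) * (τ * Real.log X)) * (3 * (X * (2 * Real.log X))) := by
        refine mul_le_mul_of_nonneg_left ?_ (by positivity)
        refine mul_le_mul_of_nonneg_left ?_ (by norm_num)
        exact mul_le_mul_of_nonneg_left (by linarith) hXpos.le
    _ = 6 * C / τ * X / (Nat.totient r : ℝ) := by
        have : Real.log X ≠ 0 := by linarith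
        field_simp
        ring

end Pool.Agent.HP
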