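import Pool.Agent.HP.Defs

/-! MKV (~120 lines): the smooth part of an integer is small on average.
`log (sp y n) = ∑_{p ≤ y} v_p(n) log p = ∑_{p ≤ y, k ≥ 1, p^k ∣ n} log p`, so the sum over `n ≤ X` is
`≤ X ∑_{p ≤ y} log p/(p-1) ≤ C X (1 + log y)` (Chebyshev `θ(x) ≤ x log 4` (`Chebyshev.theta_le..`/`primorial_le_4_pow`) and dyadic
blocks), then Markov. -/

set_option autoImplicit false

namespace Pool.Agent.HP

open Finset

/-- the primes up to `y` -/
private def mkvP (y : ℕ) : Finset ℕ := (Finset.Icc 1 y).filter Nat.Prime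

private theorem mkvP_mem {y p : ℕ} : p ∈ mkvP y ↔ p ≤ y ∧ p.Prime := by
  unfold mkvP
  rw [Finset.mem_filter, Finset.mem_Icc]
  constructor
  · rintro ⟨⟨_, h2⟩, h3⟩
    exact ⟨h2, h3⟩
  · rintro ⟨h2, h3⟩
    exact ⟨⟨h3.one_lt.le, h2⟩, h3⟩

private theorem mkv_fact_lower {y p : ℕ} (hp : p.Prime) : y / p ≤ (y.factorial).factorization p := by
  haveI := Fact.mk hp
  rw [Nat.factorization_def _ hp]
  have h1 : padicValNat p ((p * (y / p)).factorial) = padicValNat p ((y / p).factorial) + y / p :=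
    padicValNat_factorial_mul (y / p)
  have h2 : padicValNat p ((p * (y / p)).factorial) ≤ padicValNat p (y.factorial) := by
    have hd : (p * (y / p)).factorial ∣ y.factorial := Nat.factorial_dvd_factorial (Nat.mul_div_le y p)
    exact (padicValNat_dvd_iff_le (Nat.factorial_ne_zero _)).1
      ((pow_padicValNat_dvd).trans hd)
  omega

private theorem mkv_fact_upper {y p : ℕ} (hp : p.Prime) :
    (((y.factorial).factorization p : ℕ) : ℝ) ≤ y / ((p : ℝ) - 1) := by
  haveI := Fact.mk hp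
  rw [Nat.factorization_def _ hp]
  have h1 := sub_one_mul_padicValNat_factorial (p := p) y
  have h2 : (p - 1) * padicValNat p (y.factorial) ≤ y := by omega
  have hp1 : (1 : ℝ) < p := by exact_mod_cast hp.one_lt
  rw [le_div_iff₀ (by linarith)]
  have h3 : ((p - 1 : ℕ) : ℝ) * (padicValNat p (y.factorial) : ℝ) ≤ y := by exact_mod_cast h2
  rw [Nat.cast_sub hp.one_lt.le, Nat.cast_one] at h3
  linarith

private theorem mkv_log_fact (y : ℕ) :
    Real.log (y.factorial) = ∑ p ∈ mkvP y, ((y.factorial).factorization p : ℝ) * Real.log p := by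
  rw [Real.log_nat_eq_sum_factorization, Finsupp.sum]
  apply Finset.sum_subset
  · intro p hp
    rw [Nat.support_factorization, Nat.mem_primeFactors] at hp
    exact mkvP_mem.2 ⟨(hp.1.dvd_factorial).1 hp.2.1, hp.1⟩
  · intro p _ hp
    rw [Finsupp.notMem_support_iff] at hp
    rw [hp]
    simp

private theorem mkv_theta (y : ℕ) : ∑ p ∈ mkvP y, Real.log p ≤ Real.log 4 * y := by
  have h := Chebyshev.theta_le_log4_mul_x (x := (y : ℝ)) (by positivity)
  have h2 : Chebyshev.theta (y : ℝ) = ∑ p ∈ mkvP y, Real.log p := by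
    unfold Chebyshev.theta mkvP
    rw [Nat.floor_natCast]
    apply Finset.sum_congr _ (fun _ _ => rfl)
    ext p
    simp only [Finset.mem_filter, Finset.mem_Icc, Finset.mem_Ioc]
    constructor
    · rintro ⟨⟨h1, h2⟩, h3⟩
      exact ⟨⟨h1, h2⟩, h3⟩
    · rintro ⟨⟨h1, h2⟩, h3⟩
      exact ⟨⟨h1, h2⟩, h3⟩
  rw [h2] at h
  exact h

theorem mkv0 : ∃ C : ℝ, 0 < C ∧ ∀ y : ℕ, 1 ≤ y →
    ∑ p ∈ (Finset.Icc 1 y).filter Nat.Prime, Real.log p / ((p : ℝ) - 1) ≤
      C * (1 + Real.log y) := by
  refine ⟨4, by norm_num, ?_⟩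
  intro y hy
  change ∑ p ∈ mkvP y, Real.log p / ((p : ℝ) - 1) ≤ 4 * (1 + Real.log y)
  have hy0 : (0 : ℝ) < y := by exact_mod_cast hy
  -- the sum of `log p / p`
  have h1 : ∑ p ∈ mkvP y, ((y : ℝ) / p - 1) * Real.log p ≤ Real.log (y.factorial) := by
    rw [mkv_log_fact]
    apply Finset.sum_le_sum
    intro p hp
    obtain ⟨hpy, hpp⟩ := mkvP_mem.1 hp
    have hlog : 0 ≤ Real.log p := Real.log_nonneg (by exact_mod_cast hpp.one_lt.le)
    have h2 : (y : ℝ) / p - 1 ≤ ((y.factorial).factorization p : ℝ) := by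
      have h3 : (y : ℝ) / p < (y / p : ℕ) + 1 := by
        have hp0 : (0 : ℝ) < p := by exact_mod_cast hpp.pos
        rw [div_lt_iff₀ hp0]
        have h4 : y < (y / p + 1) * p := by
          have := Nat.lt_mul_div_succ y hpp.pos
          calc y < p * (y / p + 1) := this
            _ = (y / p + 1) * p := by ring
        exact_mod_cast h4
      have h5 : ((y / p : ℕ) : ℝ) ≤ ((y.factorial).factorization p : ℝ) := by
        exact_mod_cast mkv_fact_lower hpp
      linarith
    gcongr
  have h2 : Real.log (y.factorial) ≤ y * Real.log y := by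
    have h3 : (y.factorial : ℝ) ≤ (y : ℝ) ^ y := by exact_mod_cast Nat.factorial_le_pow y
    calc Real.log (y.factorial) ≤ Real.log ((y : ℝ) ^ y) :=
          Real.log_le_log (by exact_mod_cast Nat.factorial_pos y) h3
      _ = y * Real.log y := by rw [Real.log_pow]
  have h3 : (y : ℝ) * ∑ p ∈ mkvP y, Real.log p / p ≤ y * Real.log y + Real.log 4 * y := by
    have h4 : ∑ p ∈ mkvP y, ((y : ℝ) / p - 1) * Real.log p
        = (y : ℝ) * (∑ p ∈ mkvP y, Real.log p / p) - ∑ p ∈ mkvP y, Real.log p := by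
      rw [Finset.mul_sum, ← Finset.sum_sub_distrib]
      apply Finset.sum_congr rfl
      intro p _
      ring
    have h5 := mkv_theta y
    linarith
  have h4 : ∑ p ∈ mkvP y, Real.log p / p ≤ Real.log y + Real.log 4 := by
    have h5 : (y : ℝ) * ∑ p ∈ mkvP y, Real.log p / p ≤ y * (Real.log y + Real.log 4) := by
      linarith
    exact le_of_mul_le_mul_left h5 hy0
  have h5 : ∑ p ∈ mkvP y, Real.log p / ((p : ℝ) - 1) ≤ 2 * ∑ p ∈ mkvP y, Real.log p / p := by
    rw [Finset.mul_sum]
    apply Finset.sum_le_sum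
    intro p hp
    obtain ⟨hpy, hpp⟩ := mkvP_mem.1 hp
    have hp2 : (2 : ℝ) ≤ p := by exact_mod_cast hpp.two_le
    have hlog : 0 ≤ Real.log p := Real.log_nonneg (by linarith)
    rw [← mul_div_assoc, div_le_div_iff₀ (by linarith) (by linarith)]
    nlinarith
  have h6 : Real.log 4 ≤ 2 := by
    have : Real.log 4 = 2 * Real.log 2 := by
      rw [show (4 : ℝ) = 2 ^ 2 by norm_num, Real.log_pow]
      norm_num
    have h7 := Real.log_two_lt_d9
    linarith
  have h7 : 0 ≤ Real.log y := Real.log_nonneg (by exact_mod_cast hy)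
  linarith

private theorem mkv_sp (y n : ℕ) : sp y n = ∏ p ∈ mkvP y, p ^ (n.factorization p) := by
  unfold sp
  rw [Finset.prod_list_count_of_subset _ (mkvP y)]
  · apply Finset.prod_congr rfl
    intro p hp
    obtain ⟨hpy, hpp⟩ := mkvP_mem.1 hp
    rw [List.count_filter (by simpa using hpy), Nat.primeFactorsList_count_eq]
  · intro p hp
    rw [List.mem_toFinset, List.mem_filter] at hp
    exact mkvP_mem.2 ⟨by simpa using hp.2, Nat.prime_of_mem_primeFactorsList hp.1⟩

private theorem mkv_log_sp (y n : ℕ) :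
    Real.log (sp y n) = ∑ p ∈ mkvP y, (n.factorization p : ℝ) * Real.log p := by
  rw [mkv_sp]
  push_cast
  rw [Real.log_prod]
  · apply Finset.sum_congr rfl
    intro p _
    rw [Real.log_pow]
  · intro p hp
    have hpp := (mkvP_mem.1 hp).2
    have : (p : ℝ) ≠ 0 := by exact_mod_cast hpp.ne_zero
    positivity

theorem mkv1 : ∃ C : ℝ, 0 < C ∧ ∀ X y : ℕ, 1 ≤ y → ∀ b : ℝ, 0 < b →
    (((Finset.Icc 1 X).filter (fun n => b ≤ Real.log (sp y n))).card : ℝ) * b ≤
      C * X * (1 + Real.log y) := by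
  obtain ⟨C, hC, h0⟩ := mkv0
  refine ⟨C, hC, ?_⟩
  intro X y hy b hb
  have hnn : ∀ n, 0 ≤ Real.log (sp y n) := by
    intro n
    rw [mkv_log_sp]
    apply Finset.sum_nonneg
    intro p hp
    have hpp := (mkvP_mem.1 hp).2
    have : 0 ≤ Real.log p := Real.log_nonneg (by exact_mod_cast hpp.one_lt.le)
    positivity
  have h1 : ∑ n ∈ Finset.Icc 1 X, Real.log (sp y n) ≤ C * X * (1 + Real.log y) := by
    have h2 : ∑ n ∈ Finset.Icc 1 X, Real.log (sp y n)
        = ∑ p ∈ mkvP y, ((X.factorial).factorization p : ℝ) * Real.log p := by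
      simp_rw [mkv_log_sp]
      rw [Finset.sum_comm]
      apply Finset.sum_congr rfl
      intro p _
      rw [← Finset.sum_mul]
      congr 1
      have h3 : (X.factorial).factorization = ∑ n ∈ Finset.Icc 1 X, n.factorization := by
        have h5 : X.factorial = ∏ n ∈ Finset.Icc 1 X, n := by
          induction X with
          | zero => simp
          | succ k ih =>
            rw [Nat.factorial_succ, Finset.prod_Icc_succ_top (by omega), ih, mul_comm]
        rw [h5, Nat.factorization_prod]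
        intro n hn
        have := (Finset.mem_Icc.1 hn).1
        omega
      rw [h3, Finsupp.finsetSum_apply]
      push_cast
      rfl
    rw [h2]
    have h4 := h0 y hy
    change ∑ p ∈ mkvP y, Real.log p / ((p : ℝ) - 1) ≤ C * (1 + Real.log y) at h4
    calc ∑ p ∈ mkvP y, ((X.factorial).factorization p : ℝ) * Real.log p
        ≤ ∑ p ∈ mkvP y, (X : ℝ) * (Real.log p / ((p : ℝ) - 1)) := by
          apply Finset.sum_le_sum
          intro p hp
          have hpp := (mkvP_mem.1 hp).2
          have hlog : 0 ≤ Real.log p := Real.log_nonneg (by exact_mod_cast hpp.one_lt.le)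
          calc ((X.factorial).factorization p : ℝ) * Real.log p
              ≤ (X / ((p : ℝ) - 1)) * Real.log p := by
                have := mkv_fact_upper (y := X) hpp
                gcongr
            _ = (X : ℝ) * (Real.log p / ((p : ℝ) - 1)) := by ring
      _ = X * ∑ p ∈ mkvP y, Real.log p / ((p : ℝ) - 1) := by rw [Finset.mul_sum]
      _ ≤ X * (C * (1 + Real.log y)) := by gcongr
      _ = C * X * (1 + Real.log y) := by ring
  calc (((Finset.Icc 1 X).filter (fun n => b ≤ Real.log (sp y n))).card : ℝ) * b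
      = ∑ n ∈ (Finset.Icc 1 X).filter (fun n => b ≤ Real.log (sp y n)), b := by
        rw [Finset.sum_const, nsmul_eq_mul]
    _ ≤ ∑ n ∈ (Finset.Icc 1 X).filter (fun n => b ≤ Real.log (sp y n)), Real.log (sp y n) := by
        apply Finset.sum_le_sum
        intro n hn
        exact (Finset.mem_filter.1 hn).2
    _ ≤ ∑ n ∈ Finset.Icc 1 X, Real.log (sp y n) := by
        apply Finset.sum_le_sum_of_subset_of_nonneg (Finset.filter_subset _ _)
        intro n _ _
        exact hnn n
    _ ≤ C * X * (1 + Real.log y) := h1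

theorem mkv (ε κ : ℝ) (hε : 0 < ε) (hκ : 0 < κ) : ∃ η : ℝ, 0 < η ∧ η < κ ∧ ∃ X₀ : ℕ, ∀ X ≥ X₀,
    (((Finset.Icc 1 X).filter
      (fun n => (X : ℝ) ^ κ < (sp ⌊(X : ℝ) ^ η⌋₊ n : ℝ))).card : ℝ) ≤ ε * X := by
  obtain ⟨C, hC, h1⟩ := mkv1
  obtain ⟨η, hη⟩ : ∃ η : ℝ, η = min (κ / 2) (ε * κ / (2 * C)) := ⟨_, rfl⟩
  have hη0 : 0 < η := by rw [hη]; positivity
  have hηκ : η < κ := by
    have : η ≤ κ / 2 := by rw [hη]; exact min_le_left _ _
    linarith
  have hηC : C * η ≤ ε * κ / 2 := by
    have h2 : η ≤ ε * κ / (2 * C) := by rw [hη]; exact min_le_right _ _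
    rw [le_div_iff₀ (by positivity)] at h2
    linarith
  refine ⟨η, hη0, hηκ, ⌈Real.exp (2 * C / (κ * ε))⌉₊ + 2, ?_⟩
  intro X hX
  have hX2 : (2 : ℝ) ≤ X := by
    have : 2 ≤ X := by omega
    exact_mod_cast this
  have hlogpos : 0 < Real.log X := Real.log_pos (by linarith)
  have hlog : 2 * C / (κ * ε) ≤ Real.log X := by
    rw [Real.le_log_iff_exp_le (by linarith)]
    calc Real.exp (2 * C / (κ * ε)) ≤ ⌈Real.exp (2 * C / (κ * ε))⌉₊ := Nat.le_ceil _
      _ ≤ X := by
        have : ⌈Real.exp (2 * C / (κ * ε))⌉₊ ≤ X := by omega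
        exact_mod_cast this
  have hXη : 1 ≤ (X : ℝ) ^ η := Real.one_le_rpow (by linarith) hη0.le
  obtain ⟨y, hy⟩ : ∃ y : ℕ, y = ⌊(X : ℝ) ^ η⌋₊ := ⟨_, rfl⟩
  have hy1 : 1 ≤ y := by
    rw [hy]
    exact Nat.le_floor (by simpa using hXη)
  have hylog : Real.log y ≤ η * Real.log X := by
    rw [← Real.log_rpow (by linarith)]
    apply Real.log_le_log (by exact_mod_cast hy1)
    rw [hy]
    exact Nat.floor_le (by positivity)
  rw [← hy]
  have h2 := h1 X y hy1 (κ * Real.log X) (by positivity)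
  have h3 : (((Finset.Icc 1 X).filter (fun n => (X : ℝ) ^ κ < (sp y n : ℝ))).card : ℝ) ≤
      (((Finset.Icc 1 X).filter (fun n => κ * Real.log X ≤ Real.log (sp y n))).card : ℝ) := by
    have : ((Finset.Icc 1 X).filter (fun n => (X : ℝ) ^ κ < (sp y n : ℝ))).card ≤
      ((Finset.Icc 1 X).filter (fun n => κ * Real.log X ≤ Real.log (sp y n))).card := by
      apply Finset.card_le_card
      intro n hn
      rw [Finset.mem_filter] at hn ⊢
      refine ⟨hn.1, ?_⟩
      rw [← Real.log_rpow (by linarith)]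
      exact Real.log_le_log (by positivity) hn.2.le
    exact_mod_cast this
  have h4 : C * X * (1 + Real.log y) ≤ ε * X * (κ * Real.log X) := by
    have h5 : C ≤ ε * κ / 2 * Real.log X := by
      rw [div_le_iff₀ (by positivity)] at hlog
      linarith
    have h6 : C * (1 + Real.log y) ≤ ε * (κ * Real.log X) := by
      calc C * (1 + Real.log y) ≤ C * (1 + η * Real.log X) := by gcongr
        _ = C + (C * η) * Real.log X := by ring
        _ ≤ ε * κ / 2 * Real.log X + (ε * κ / 2) * Real.log X := by gcongr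
        _ = ε * (κ * Real.log X) := by ring
    calc C * X * (1 + Real.log y) = X * (C * (1 + Real.log y)) := by ring
      _ ≤ X * (ε * (κ * Real.log X)) := by gcongr
      _ = ε * X * (κ * Real.log X) := by ring
  have h5 : (((Finset.Icc 1 X).filter (fun n => κ * Real.log X ≤ Real.log (sp y n))).card : ℝ)
      * (κ * Real.log X) ≤ (ε * X) * (κ * Real.log X) := h2.trans h4
  exact h3.trans (le_of_mul_le_mul_right h5 (by positivity))

end Pool.Agent.HP
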