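import Pool.Agent.HP.DefsC
import Pool.Agent.HP.LEV
import Pool.Agent.HP.MKV

/-! AVS (~120 lines): `tq (f m)` is bounded for most `m`. `tq n ≤ exp(2 ∑_{p ∣ n} 1/p)`. Let `m ∈ (M/2, M]`. Choose `τ ≤ 1` with
`#{m ≤ M : gp m < M^τ, m > M/2} ≤ (ε/2) M` for large `M` (`mkv1` with `y = ⌊M^τ⌋`, where `sp y m = m > M/2`). For the others, the primes `p` with
`p² > M^τ` contribute at most `ω(f m) M^(-τ/2) ≤ 16 log M M^(-τ/2) ≤ 1` (`f m < m^4`), and the others by `lev` in the sum over `m`: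
`∑_p (1/p) C M/(p-1) ≤ 4 C M`. Markov. -/

set_option autoImplicit false

namespace Pool.Agent.HP

open Finset

private lemma avs_tq {n : ℕ} (hn : 1 ≤ n) :
    tq n ≤ Real.exp (2 * ∑ p ∈ n.primeFactors, 1 / (p : ℝ)) := by
  have h1 : tq n * ∏ p ∈ n.primeFactors, (1 - 1 / (p : ℝ)) = 1 :=
    Pool.Agent.PnMn.SieveCor.tq_mul n hn
  have h2 : 1 ≤ tq n := Pool.Agent.PnMn.SieveCor.tq_one_le n hn
  have h3 : 1 ≤ (∏ p ∈ n.primeFactors, (1 - 1 / (p : ℝ))) *
      ∏ p ∈ n.primeFactors, Real.exp (2 * (1 / (p : ℝ))) := by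
    rw [← prod_mul_distrib]
    apply Pool.Agent.PnMn.SieveCor.one_le_prod_real
    intro p hp
    have hp2 : (2 : ℝ) ≤ p := by exact_mod_cast (Nat.prime_of_mem_primeFactors hp).two_le
    have h4 : 1 / (p : ℝ) ≤ 1 / 2 := one_div_le_one_div_of_le (by norm_num) hp2
    have h5 : 0 ≤ 1 / (p : ℝ) := by positivity
    have h6 := Real.add_one_le_exp (2 * (1 / (p : ℝ)))
    calc (1 : ℝ) ≤ (1 - 1 / (p : ℝ)) * (2 * (1 / (p : ℝ)) + 1) := by nlinarith
      _ ≤ (1 - 1 / (p : ℝ)) * Real.exp (2 * (1 / (p : ℝ))) := by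
          apply mul_le_mul_of_nonneg_left h6 (by linarith)
  rw [mul_sum, Real.exp_sum]
  calc tq n = tq n * 1 := by ring
    _ ≤ tq n * ((∏ p ∈ n.primeFactors, (1 - 1 / (p : ℝ))) *
        ∏ p ∈ n.primeFactors, Real.exp (2 * (1 / (p : ℝ)))) := by gcongr
    _ = (tq n * ∏ p ∈ n.primeFactors, (1 - 1 / (p : ℝ))) *
        ∏ p ∈ n.primeFactors, Real.exp (2 * (1 / (p : ℝ))) := by ring
    _ = ∏ p ∈ n.primeFactors, Real.exp (2 * (1 / (p : ℝ))) := by rw [h1, one_mul]

/-- `n > X/2` implies `log n ≥ (log X)/2`. -/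
private lemma avs_log {X n : ℕ} (hX : 4 ≤ X) (hn : X / 2 < n) : Real.log X / 2 ≤ Real.log n := by
  have h1 : X ≤ 2 * n := by omega
  have h2 : (X : ℝ) ≤ (n : ℝ) ^ 2 := by
    have h3 : X ≤ n ^ 2 := by nlinarith
    exact_mod_cast h3
  have h4 : (0 : ℝ) < X := by exact_mod_cast (by omega : 0 < X)
  have h5 := Real.log_le_log h4 h2
  rw [Real.log_pow] at h5
  push_cast at h5
  linarith

private lemma avs_one (ε : ℝ) (hε : 0 < ε) : ∃ τ : ℝ, 0 < τ ∧ τ ≤ 1 ∧ ∃ X₀ : ℕ, ∀ X ≥ X₀,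
    (((Finset.Ioc (X / 2) X).filter (fun n => (gp n : ℝ) < (X : ℝ) ^ τ)).card : ℝ) ≤ ε * X := by
  obtain ⟨C, hC, h⟩ := mkv1
  refine ⟨min 1 (ε / (4 * C)), lt_min one_pos (by positivity), min_le_left _ _, ?_⟩
  set τ := min 1 (ε / (4 * C)) with hτ
  have hτ0 : 0 < τ := lt_min one_pos (by positivity)
  have hτ1 : τ ≤ ε / (4 * C) := min_le_right _ _
  refine ⟨max 4 (⌈Real.exp (4 * C / ε)⌉₊), ?_⟩
  intro X hX
  have hX4 : 4 ≤ X := (le_max_left _ _).trans hX
  have hXe : Real.exp (4 * C / ε) ≤ X :=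
    (Nat.le_ceil _).trans (by exact_mod_cast (le_max_right _ _).trans hX)
  have hX4r : (4 : ℝ) ≤ X := by exact_mod_cast hX4
  have hXpos : (0 : ℝ) < X := by linarith
  have hL : 4 * C / ε ≤ Real.log X := by
    rw [Real.le_log_iff_exp_le hXpos]
    exact hXe
  have hLpos : 0 < Real.log X := lt_of_lt_of_le (by positivity) hL
  have hXτ : (1 : ℝ) ≤ (X : ℝ) ^ τ := Real.one_le_rpow (by linarith) hτ0.le
  have hy : 1 ≤ ⌊(X : ℝ) ^ τ⌋₊ := by
    rw [Nat.one_le_floor_iff]
    exact hXτ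
  have h1 := h X ⌊(X : ℝ) ^ τ⌋₊ hy (Real.log X / 2) (by positivity)
  have hlogy : Real.log (⌊(X : ℝ) ^ τ⌋₊ : ℝ) ≤ τ * Real.log X := by
    rw [← Real.log_rpow hXpos]
    exact Real.log_le_log (by exact_mod_cast hy) (Nat.floor_le (by positivity))
  have hsub : (Finset.Ioc (X / 2) X).filter (fun n => (gp n : ℝ) < (X : ℝ) ^ τ) ⊆
      (Finset.Icc 1 X).filter (fun n => Real.log X / 2 ≤ Real.log (sp ⌊(X : ℝ) ^ τ⌋₊ n)) := by
    intro n hn
    simp only [Finset.mem_filter, Finset.mem_Ioc, Finset.mem_Icc] at hn ⊢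
    obtain ⟨⟨hn1, hn2⟩, hg⟩ := hn
    have hn2' : 2 ≤ n := by omega
    refine ⟨⟨by omega, hn2⟩, ?_⟩
    have hsp : sp ⌊(X : ℝ) ^ τ⌋₊ n = n := by
      unfold sp
      rw [List.filter_eq_self.mpr]
      · exact Nat.prod_primeFactorsList (by omega)
      · intro p hp
        have hp1 := Nat.prime_of_mem_primeFactorsList hp
        have hp2 := Nat.dvd_of_mem_primeFactorsList hp
        have hp3 := (gp_spec hn2').2.2 p hp1 hp2
        have hp4 : (p : ℝ) ≤ (X : ℝ) ^ τ := by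
          have : (p : ℝ) ≤ (gp n : ℝ) := by exact_mod_cast hp3
          linarith
        simpa using Nat.le_floor hp4
    rw [hsp]
    exact avs_log hX4 hn1
  have h2 : (((Finset.Ioc (X / 2) X).filter (fun n => (gp n : ℝ) < (X : ℝ) ^ τ)).card : ℝ) ≤
      (((Finset.Icc 1 X).filter (fun n => Real.log X / 2 ≤ Real.log (sp ⌊(X : ℝ) ^ τ⌋₊ n))).card : ℝ) := by
    exact_mod_cast Finset.card_le_card hsub
  have h3 : C * (1 + Real.log (⌊(X : ℝ) ^ τ⌋₊ : ℝ)) ≤ ε * (Real.log X / 2) := by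
    have h4 : C ≤ ε * Real.log X / 4 := by
      rw [div_le_iff₀ hε] at hL
      linarith
    have h5 : C * (τ * Real.log X) ≤ ε * Real.log X / 4 := by
      have : C * τ ≤ ε / 4 := by
        calc C * τ ≤ C * (ε / (4 * C)) := mul_le_mul_of_nonneg_left hτ1 hC.le
          _ = ε / 4 := by field_simp
      nlinarith
    have h6 : C * Real.log (⌊(X : ℝ) ^ τ⌋₊ : ℝ) ≤ C * (τ * Real.log X) :=
      mul_le_mul_of_nonneg_left hlogy hC.le
    linarith
  have h7 : (((Finset.Icc 1 X).filter (fun n => Real.log X / 2 ≤ Real.log (sp ⌊(X : ℝ) ^ τ⌋₊ n))).card : ℝ) *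
      (Real.log X / 2) ≤ ε * X * (Real.log X / 2) := by
    refine h1.trans ?_
    calc C * X * (1 + Real.log (⌊(X : ℝ) ^ τ⌋₊ : ℝ)) = X * (C * (1 + Real.log (⌊(X : ℝ) ^ τ⌋₊ : ℝ))) := by ring
      _ ≤ X * (ε * (Real.log X / 2)) := mul_le_mul_of_nonneg_left h3 hXpos.le
      _ = _ := by ring
  exact h2.trans (le_of_mul_le_mul_right h7 (by positivity))

/-- `∑ 1/(p (p-1)) ≤ 1` -/
private lemma avs_sum (z : ℕ) :
    ∑ p ∈ (Finset.Icc 1 z).filter Nat.Prime, 1 / (p : ℝ) * (1 / ((p : ℝ) - 1)) ≤ 1 := by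
  have h1 : ∀ z : ℕ, 1 ≤ z → ∑ p ∈ Finset.Icc 2 z, 1 / (p : ℝ) * (1 / ((p : ℝ) - 1)) ≤ 1 - 1 / z := by
    intro z hz
    induction z, hz using Nat.le_induction with
    | base => simp
    | succ z hz ih =>
      rw [sum_Icc_succ_top (by omega)]
      have hz0 : (0 : ℝ) < z := by exact_mod_cast hz
      push_cast
      have h2 : 1 / ((z : ℝ) + 1) * (1 / ((z : ℝ) + 1 - 1)) = 1 / z - 1 / (z + 1) := by
        rw [add_sub_cancel_right]
        field_simp
        ring
      rw [h2]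
      linarith
  rcases Nat.eq_zero_or_pos z with hz | hz
  · subst hz
    simp
  · have h2 := h1 z hz
    have h3 : (0 : ℝ) ≤ 1 / z := by positivity
    refine le_trans ?_ (h2.trans (by linarith))
    apply sum_le_sum_of_subset_of_nonneg
    · intro p hp
      rw [mem_filter, mem_Icc] at hp
      rw [mem_Icc]
      exact ⟨hp.2.two_le, hp.1.2⟩
    · intro p hp _
      rw [mem_Icc] at hp
      have h4 : (2 : ℝ) ≤ p := by exact_mod_cast hp.1
      have h5 : 0 < (p : ℝ) - 1 := by linarith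
      positivity

/-- the large primes contribute little -/
private lemma avs_big {N : ℕ} (hN : 1 ≤ N) {T : ℝ} (hT : 0 < T) (S : Finset ℕ)
    (hS : S ⊆ N.primeFactors) (hS' : ∀ p ∈ S, T ≤ (p : ℝ)) :
    ∑ p ∈ S, 1 / (p : ℝ) ≤ 2 * Real.log N / T := by
  have h1 : ∑ p ∈ S, 1 / (p : ℝ) ≤ S.card * (1 / T) := by
    rw [← nsmul_eq_mul, ← sum_const]
    apply sum_le_sum
    intro p hp
    exact one_div_le_one_div_of_le hT (hS' p hp)
  have h2 : 2 ^ S.card ≤ N := by
    calc 2 ^ S.card = ∏ _p ∈ S, 2 := by rw [prod_const]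
      _ ≤ ∏ p ∈ S, p := prod_le_prod' fun p hp => (Nat.prime_of_mem_primeFactors (hS hp)).two_le
      _ ≤ ∏ p ∈ N.primeFactors, p := by
          apply prod_le_prod_of_subset_of_one_le' hS
          intro p hp _
          exact (Nat.prime_of_mem_primeFactors hp).one_lt.le
      _ ≤ N := Nat.le_of_dvd hN (Nat.prod_primeFactors_dvd N)
  have h3 : (S.card : ℝ) * Real.log 2 ≤ Real.log N := by
    have h4 : ((2 : ℝ)) ^ S.card ≤ N := by exact_mod_cast h2
    have h5 := Real.log_le_log (by positivity) h4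
    rwa [Real.log_pow] at h5
  have h4 : (S.card : ℝ) ≤ 2 * Real.log N := by
    have := Real.log_two_gt_d9
    have h5 : (0 : ℝ) ≤ S.card := Nat.cast_nonneg _
    nlinarith
  calc ∑ p ∈ S, 1 / (p : ℝ) ≤ S.card * (1 / T) := h1
    _ ≤ 2 * Real.log N * (1 / T) := by gcongr
    _ = 2 * Real.log N / T := by ring

theorem avs (ε : ℝ) (hε : 0 < ε) : ∃ K : ℝ, 0 < K ∧ ∃ M₀ : ℕ, ∀ M ≥ M₀,
    (((Finset.Ioc (M / 2) M).filter (fun m => K < tq (f m))).card : ℝ) ≤ ε * M := by
  classical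
  obtain ⟨τ, hτ, hτ1, X₁, h1⟩ := avs_one (ε / 2) (by positivity)
  obtain ⟨C, hC, X₂, h2⟩ := lev τ hτ
  obtain ⟨b, hb⟩ : ∃ b : ℝ, b = 2 * C / ε := ⟨_, rfl⟩
  have hb0 : 0 < b := by rw [hb]; positivity
  obtain ⟨X₃, h3⟩ : ∃ X₃ : ℕ, ∀ X ≥ X₃, 8 * Real.log X ≤ (X : ℝ) ^ (τ / 2) := by
    have hlo := (isLittleO_log_rpow_atTop (by positivity : 0 < τ / 2)).def
      (c := 1 / 8) (by positivity)
    have ht := (tendsto_natCast_atTop_atTop (R := ℝ)).eventually hlo
    obtain ⟨X₁, h⟩ := Filter.eventually_atTop.mp ht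
    refine ⟨X₁, fun X hX => ?_⟩
    have h2 := h X hX
    rw [Real.norm_eq_abs, Real.norm_eq_abs, abs_of_nonneg (by positivity : 0 ≤ (X : ℝ) ^ (τ / 2))] at h2
    have h3 : Real.log X ≤ 1 / 8 * (X : ℝ) ^ (τ / 2) := (le_abs_self _).trans h2
    linarith
  refine ⟨Real.exp (2 * (b + 1)), Real.exp_pos _, X₁ + X₂ + X₃ + 4, fun M hM => ?_⟩
  have hM4 : 4 ≤ M := by omega
  have hM1 : (1 : ℝ) ≤ M := by
    have : 1 ≤ M := by omega
    exact_mod_cast this
  have hM0 : (0 : ℝ) < M := by linarith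
  have h3M := h3 M (by omega)
  set T : ℝ := (M : ℝ) ^ (τ / 2) with hT
  have hT0 : 0 < T := by rw [hT]; positivity
  have hTT : T ^ 2 = (M : ℝ) ^ τ := by
    rw [hT, ← Real.rpow_natCast, ← Real.rpow_mul hM0.le]
    congr 1
    push_cast
    ring
  set z : ℕ := ⌊T⌋₊ with hz
  set P := (Finset.Icc 1 z).filter Nat.Prime with hP
  set L : ℕ → ℝ := fun m => ∑ p ∈ P, (if p ∣ f m then 1 / (p : ℝ) else 0) with hL
  set Bad := (Finset.Ioc (M / 2) M).filter (fun n => (gp n : ℝ) < (M : ℝ) ^ τ) with hBad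
  set G := (Finset.Icc 1 M).filter (fun n => (M : ℝ) ^ τ ≤ (gp n : ℝ)) with hG
  set Good := G.filter (fun m => b ≤ L m) with hGood
  have hbad : (Bad.card : ℝ) ≤ ε / 2 * M := h1 M (by omega)
  have hgood : (Good.card : ℝ) ≤ ε / 2 * M := by
    have e1 : (Good.card : ℝ) * b ≤ ∑ m ∈ G, L m := by
      rw [← nsmul_eq_mul, ← sum_const]
      refine le_trans (sum_le_sum fun m hm => (mem_filter.1 hm).2) ?_
      apply sum_le_sum_of_subset_of_nonneg (filter_subset _ _)
      intro m _ _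
      refine sum_nonneg fun p _ => ?_
      split_ifs
      · positivity
      · exact le_refl _
    have e2 : ∑ m ∈ G, L m = ∑ p ∈ P, 1 / (p : ℝ) * ((G.filter (fun m => p ∣ f m)).card : ℝ) := by
      rw [hL]
      simp only
      rw [sum_comm]
      refine sum_congr rfl fun p _ => ?_
      rw [← sum_filter, sum_const, nsmul_eq_mul, mul_comm]
    have e3 : ∑ p ∈ P, 1 / (p : ℝ) * ((G.filter (fun m => p ∣ f m)).card : ℝ) ≤
        ∑ p ∈ P, (C * M) * (1 / (p : ℝ) * (1 / ((p : ℝ) - 1))) := by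
      apply sum_le_sum
      intro p hp
      rw [hP, mem_filter, mem_Icc] at hp
      have hp2 : (2 : ℝ) ≤ p := by exact_mod_cast hp.2.two_le
      have hpT : (p : ℝ) ≤ T := by
        have h4 : ((z : ℕ) : ℝ) ≤ T := Nat.floor_le hT0.le
        have h5 : (p : ℝ) ≤ z := by exact_mod_cast hp.1.2
        linarith
      have h4 := h2 M (by omega) p hp.1.1 (by
        rw [← hTT]
        exact pow_le_pow_left₀ (by positivity) hpT 2)
      rw [Nat.totient_prime hp.2] at h4
      have h5 : ((p - 1 : ℕ) : ℝ) = (p : ℝ) - 1 := by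
        rw [Nat.cast_sub hp.1.1]
        simp
      rw [h5] at h4
      have h6 : ((G.filter (fun m => p ∣ f m)).card : ℝ) ≤ C * M / ((p : ℝ) - 1) := by
        rw [hG, filter_filter]
        exact h4
      calc 1 / (p : ℝ) * ((G.filter (fun m => p ∣ f m)).card : ℝ)
          ≤ 1 / (p : ℝ) * (C * M / ((p : ℝ) - 1)) := by gcongr
        _ = (C * M) * (1 / (p : ℝ) * (1 / ((p : ℝ) - 1))) := by ring
    have e4 : (Good.card : ℝ) * b ≤ C * M := by
      refine (e1.trans (e2.le.trans e3)).trans ?_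
      rw [← mul_sum]
      calc (C * M) * ∑ p ∈ P, 1 / (p : ℝ) * (1 / ((p : ℝ) - 1)) ≤ (C * M) * 1 := by
            apply mul_le_mul_of_nonneg_left (avs_sum z) (by positivity)
        _ = C * M := mul_one _
    have e5 : (Good.card : ℝ) * b ≤ (ε / 2 * M) * b := by
      refine e4.trans (le_of_eq ?_)
      rw [hb]
      field_simp
    exact le_of_mul_le_mul_right e5 hb0
  have hsub : (Finset.Ioc (M / 2) M).filter (fun m => Real.exp (2 * (b + 1)) < tq (f m)) ⊆
      Bad ∪ Good := by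
    intro m hm
    rw [mem_filter, mem_Ioc] at hm
    rw [mem_union]
    by_cases hg : (gp m : ℝ) < (M : ℝ) ^ τ
    · left
      rw [hBad, mem_filter, mem_Ioc]
      exact ⟨hm.1, hg⟩
    · right
      rw [not_lt] at hg
      have hm2 : 2 ≤ m := by omega
      rw [hGood, mem_filter, hG, mem_filter, mem_Icc]
      refine ⟨⟨⟨by omega, hm.1.2⟩, hg⟩, ?_⟩
      have hf1 : 1 ≤ f m := le_trans (by omega) (le_f hm2)
      have h4 := hm.2.trans_le (avs_tq hf1)
      rw [Real.exp_lt_exp] at h4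
      have h5 : ∑ p ∈ (f m).primeFactors, 1 / (p : ℝ) ≤ L m + 1 := by
        rw [← sum_filter_add_sum_filter_not (f m).primeFactors (fun p => p ≤ z)]
        have h6 : ∑ p ∈ (f m).primeFactors.filter (fun p => p ≤ z), 1 / (p : ℝ) ≤ L m := by
          rw [hL]
          simp only
          rw [← sum_filter]
          apply sum_le_sum_of_subset_of_nonneg
          · intro p hp
            rw [mem_filter, Nat.mem_primeFactors] at hp
            rw [mem_filter, hP, mem_filter, mem_Icc]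
            exact ⟨⟨⟨hp.1.1.one_lt.le, hp.2⟩, hp.1.1⟩, hp.1.2.1⟩
          · intro p _ _
            positivity
        have h7 : ∑ p ∈ (f m).primeFactors.filter (fun p => ¬ p ≤ z), 1 / (p : ℝ) ≤ 1 := by
          have h8 := avs_big hf1 hT0 ((f m).primeFactors.filter (fun p => ¬ p ≤ z))
            (filter_subset _ _) (by
              intro p hp
              rw [mem_filter, not_le] at hp
              rw [hz, Nat.floor_lt hT0.le] at hp
              exact hp.2.le)
          refine h8.trans ?_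
          rw [div_le_one hT0]
          have h9 : (f m : ℝ) ≤ (M : ℝ) ^ 4 := by
            have h10 : f m ≤ M ^ 4 := by
              refine (f_lt (by omega)).le.trans ((lam_le (by omega)).trans ?_)
              exact Nat.pow_le_pow_left hm.1.2 4
            exact_mod_cast h10
          have h10 : Real.log (f m) ≤ 4 * Real.log M := by
            have h11 := Real.log_le_log (by exact_mod_cast hf1) h9
            rw [Real.log_pow] at h11
            exact_mod_cast h11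
          linarith
        linarith
      linarith
  have hcard := (card_le_card hsub).trans (card_union_le _ _)
  have hcard' : (((Finset.Ioc (M / 2) M).filter
      (fun m => Real.exp (2 * (b + 1)) < tq (f m))).card : ℝ) ≤ Bad.card + Good.card := by
    exact_mod_cast hcard
  linarith

end Pool.Agent.HP
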