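import Pool.Agent.HP.Defs

/-! MNL (~60 lines): elementary properties of `nr` and `mn`. -/

set_option autoImplicit false

namespace Pool.Agent.HP

theorem nr_nonneg (θ : ℝ) : 0 ≤ nr θ := abs_nonneg _

theorem nr_add_int (θ : ℝ) (n : ℤ) : nr (θ + n) = nr θ := by
  unfold nr
  rw [round_add_intCast]
  push_cast
  congr 1
  ring

theorem nr_fract (θ : ℝ) : nr θ = min (Int.fract θ) (1 - Int.fract θ) := by
  unfold nr
  exact abs_sub_round_eq_min θ

theorem mn_nonneg {Y : ℝ} (hY : 0 ≤ Y) (θ : ℝ) : 0 ≤ mn Y θ := by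
  unfold mn
  split_ifs with h
  · exact hY
  · have := nr_nonneg θ
    exact le_min hY (by positivity)

theorem mn_le {Y : ℝ} (hY : 0 ≤ Y) (θ : ℝ) : mn Y θ ≤ Y := by
  unfold mn
  split_ifs with h
  · exact le_rfl
  · exact min_le_left _ _

theorem mn_mono {Y Y' : ℝ} (hY : 0 ≤ Y) (h : Y ≤ Y') (θ : ℝ) : mn Y θ ≤ mn Y' θ := by
  unfold mn
  split_ifs with h'
  · exact h
  · exact min_le_min_right _ h

theorem mn_add_int (Y θ : ℝ) (n : ℤ) : mn Y (θ + n) = mn Y θ := by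
  unfold mn
  rw [nr_add_int]

/-- if `a, m` are naturals and `m` does not divide `a` then `nr (a/m) ≥ 1/m`. -/
theorem nr_div {a m : ℕ} (hm : 1 ≤ m) (h : ¬ m ∣ a) : 1 / (m : ℝ) ≤ nr ((a : ℝ) / m) := by
  have hm0 : (0 : ℝ) < m := by exact_mod_cast hm
  unfold nr
  set k : ℤ := round ((a : ℝ) / m) with hk
  have h1 : (a : ℝ) / m - k = ((a : ℤ) - k * m : ℤ) / (m : ℝ) := by
    push_cast
    field_simp
  rw [h1, abs_div, abs_of_pos hm0]
  apply div_le_div_of_nonneg_right _ hm0.le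
  have h2 : ((a : ℤ) - k * m : ℤ) ≠ 0 := by
    intro h0
    apply h
    have h3 : (m : ℤ) ∣ (a : ℤ) := ⟨k, by linarith⟩
    exact_mod_cast h3
  have h3 : (1 : ℤ) ≤ |((a : ℤ) - k * m : ℤ)| := Int.one_le_abs h2
  exact_mod_cast h3

theorem Pf_nonneg {v : ℕ} (l : Fin v → ℕ) (θ : ℝ) : 0 ≤ Pf l θ :=
  Finset.prod_nonneg fun _ _ => mn_nonneg (by positivity) _

theorem Wm_nonneg {v : ℕ} (l : Fin v → ℕ) (m : ℕ) : 0 ≤ Wm l m :=
  div_nonneg (Finset.sum_nonneg fun _ _ => Pf_nonneg _ _) (by positivity)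

/-- small denominators: the last block (place `0`) saves `10^(l last)`. -/
theorem sml {v : ℕ} (hv : 1 ≤ v) (l : Fin v → ℕ) (m b : ℕ) (hb : 1 ≤ b) (hbm : b < m) :
    Pf l ((b : ℝ) / m) ≤
      m * (10 : ℝ) ^ (∑ i, l i) / (10 : ℝ) ^ l ⟨v - 1, by omega⟩ := by
  set i0 : Fin v := ⟨v - 1, by omega⟩ with hi0
  have hm0 : (0 : ℝ) < m := by
    have : 0 < m := by omega
    exact_mod_cast this
  have he : ee l i0 = 0 := by
    unfold ee
    apply Finset.sum_eq_zero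
    intro j hj
    rw [Finset.mem_Ioi] at hj
    exfalso
    have h1 := Fin.lt_def.1 hj
    have h2 := j.2
    simp only [hi0] at h1
    omega
  have h0 : mn ((10 : ℝ) ^ l i0) ((10 : ℝ) ^ ee l i0 * ((b : ℝ) / m)) ≤ m := by
    rw [he, pow_zero, one_mul]
    have h1 := nr_div (a := b) (m := m) (by omega) (fun h => by
      have := Nat.le_of_dvd (by omega) h
      omega)
    have h2 : 0 < nr ((b : ℝ) / m) := lt_of_lt_of_le (by positivity) h1
    unfold mn
    rw [if_neg h2.ne']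
    refine (min_le_right _ _).trans ?_
    rw [div_le_iff₀ (by positivity)]
    have h3 : 1 ≤ m * nr ((b : ℝ) / m) := by
      rw [div_le_iff₀ hm0] at h1
      linarith
    linarith
  unfold Pf
  rw [← Finset.mul_prod_erase Finset.univ _ (Finset.mem_univ i0),
    ← Finset.add_sum_erase Finset.univ _ (Finset.mem_univ i0), pow_add]
  have h3 : ∏ i ∈ Finset.univ.erase i0, mn ((10 : ℝ) ^ l i) ((10 : ℝ) ^ ee l i * ((b : ℝ) / m)) ≤
      (10 : ℝ) ^ (∑ i ∈ Finset.univ.erase i0, l i) := by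
    rw [← Finset.prod_pow_eq_pow_sum]
    exact Finset.prod_le_prod (fun i _ => mn_nonneg (by positivity) _)
      (fun i _ => mn_le (by positivity) _)
  have h4 : (m : ℝ) * ((10 : ℝ) ^ l i0 * (10 : ℝ) ^ (∑ i ∈ Finset.univ.erase i0, l i)) /
      (10 : ℝ) ^ l i0 = m * (10 : ℝ) ^ (∑ i ∈ Finset.univ.erase i0, l i) := by
    field_simp
  rw [h4]
  exact mul_le_mul h0 h3 (Finset.prod_nonneg fun _ _ => mn_nonneg (by positivity) _) hm0.le

end Pool.Agent.HP
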