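import Pool.Agent.HP.FOU
import Pool.Agent.HP.MNL

/-! BOX (~150 lines): equidistribution in a box of blocks, in residue classes modulo `d` and modulo `m`, `(m,d)=1`.
The `x` in `[s i, t i)` with `x ≡ r i (mod d)` are `x0 i + d y`, `y < Y i`, `|Y i - (t i - s i)/d| ≤ 1`, `Y i ≤ 10^(l i)`.
Apply `fou` with `g i = d 10^(ee l i)` and constant `c + ∑ x0 i 10^(ee l i)`;
`mn (Y i) ≤ mn (10^(l i))` (`mn_mono`), and as `(m,d)=1`, `b ↦ b d mod m` permutes `1,…,m-1`
(`mn_add_int`), so the error of `fou` is `≤ Wm l m`. Main term: `|∏ a_i - ∏ b_i| ≤ ∑_i |a_i-b_i| ∏_{j≠i} max(a_j,b_j)`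
with `a_i = Y i`, `b_i = (t i - s i)/d`, both in `[0, 10^(l i)]`, so the difference is `≤ ∑_i 10^(∑ l - l i)`. -/

set_option autoImplicit false

namespace Pool.Agent.HP

open Finset

/-- least element of the class of `r` modulo `d` which is `≥ s` -/
private def bx0 (d s r : ℕ) : ℕ := s + (r + (d - s % d)) % d

/-- number of elements of the class in `[s, t)` -/
private def bxY (d s t r : ℕ) : ℕ := (t - bx0 d s r + (d - 1)) / d

private theorem bx0_mod {d : ℕ} (hd : 1 ≤ d) (s r : ℕ) : bx0 d s r ≡ r [MOD d] := by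
  have h1 : s % d < d := Nat.mod_lt _ (by omega)
  have h2 : bx0 d s r ≡ s % d + (r + (d - s % d)) [MOD d] := by
    unfold bx0
    exact Nat.ModEq.add (Nat.mod_modEq s d).symm (Nat.mod_modEq _ d)
  refine h2.trans ?_
  have h3 : s % d + (r + (d - s % d)) = r + d := by omega
  rw [h3]
  exact Nat.add_modEq_right

private theorem bx0_ge (d s r : ℕ) : s ≤ bx0 d s r := Nat.le_add_right _ _

private theorem bx0_lt {d : ℕ} (hd : 1 ≤ d) (s r : ℕ) : bx0 d s r < s + d := by
  unfold bx0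
  have := Nat.mod_lt (r + (d - s % d)) (show 0 < d by omega)
  omega

private theorem bx0_le {d : ℕ} (hd : 1 ≤ d) {s r x : ℕ} (hx : s ≤ x) (hr : x ≡ r [MOD d]) :
    bx0 d s r ≤ x := by
  by_contra h
  push Not at h
  have h1 : bx0 d s r ≡ x [MOD d] := (bx0_mod hd s r).trans hr.symm
  have h2 := bx0_lt hd s r
  have h3 : d ∣ bx0 d s r - x := (Nat.modEq_iff_dvd' h.le).mp h1.symm
  have h4 := Nat.le_of_dvd (by omega) h3
  omega

private theorem bxY_iff {d : ℕ} (hd : 1 ≤ d) (s t r y : ℕ) :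
    y < bxY d s t r ↔ bx0 d s r + d * y < t := by
  unfold bxY
  rw [← Nat.succ_le_iff, Nat.le_div_iff_mul_le (by omega), Nat.succ_mul, mul_comm y d]
  omega

private theorem bxY_le {d : ℕ} (hd : 1 ≤ d) (s t r : ℕ) : bxY d s t r ≤ t := by
  rcases Nat.eq_zero_or_pos (bxY d s t r) with h | h
  · omega
  · have h1 := (bxY_iff hd s t r (bxY d s t r - 1)).mp (by omega)
    have h2 : bxY d s t r - 1 ≤ d * (bxY d s t r - 1) := Nat.le_mul_of_pos_left _ (by omega)
    omega

private theorem bxY_abs {d : ℕ} (hd : 1 ≤ d) {s t : ℕ} (r : ℕ) (hst : s ≤ t) :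
    |(bxY d s t r : ℝ) - ((t : ℝ) - s) / d| ≤ 1 := by
  have hd0 : (0 : ℝ) < d := by exact_mod_cast (by omega : 0 < d)
  have hst' : (s : ℝ) ≤ t := by exact_mod_cast hst
  have h1 := bx0_ge d s r
  have h2 := bx0_lt hd s r
  have h3 : t ≤ bx0 d s r + d * bxY d s t r := by
    by_contra h
    push Not at h
    have := (bxY_iff hd s t r (bxY d s t r)).mpr h
    omega
  have h3' : (t : ℝ) ≤ bx0 d s r + d * bxY d s t r := by exact_mod_cast h3
  have h2' : (bx0 d s r : ℝ) ≤ s + d := by exact_mod_cast h2.le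
  have h1' : (s : ℝ) ≤ bx0 d s r := by exact_mod_cast h1
  rw [abs_le]
  constructor
  · have : ((t : ℝ) - s) / d ≤ bxY d s t r + 1 := by
      rw [div_le_iff₀ hd0]
      linarith
    linarith
  · have : (bxY d s t r : ℝ) ≤ ((t : ℝ) - s) / d + 1 := by
      rcases Nat.eq_zero_or_pos (bxY d s t r) with h | h
      · rw [h]
        have : 0 ≤ ((t : ℝ) - s) / d := div_nonneg (by linarith) hd0.le
        push_cast
        linarith
      · have h4 := (bxY_iff hd s t r (bxY d s t r - 1)).mp (by omega)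
        have h5 : (bx0 d s r : ℝ) + d * ((bxY d s t r : ℝ) - 1) ≤ t := by
          have h6 : ((bxY d s t r - 1 : ℕ) : ℝ) = (bxY d s t r : ℝ) - 1 := by
            rw [Nat.cast_sub (by omega)]
            simp
          rw [← h6]
          exact_mod_cast h4.le
        have h7 : (bxY d s t r : ℝ) - 1 ≤ ((t : ℝ) - s) / d := by
          rw [le_div_iff₀ hd0]
          linarith
        linarith
    linarith

private theorem bxProd {ι : Type*} (S : Finset ι) (a b M : ι → ℝ)
    (ha : ∀ i, 0 ≤ a i ∧ a i ≤ M i) (hb : ∀ i, 0 ≤ b i ∧ b i ≤ M i) (hM : ∀ i, 0 < M i)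
    (hab : ∀ i, |a i - b i| ≤ 1) :
    |∏ i ∈ S, a i - ∏ i ∈ S, b i| ≤ ∑ i ∈ S, (∏ j ∈ S, M j) / M i := by
  classical
  induction S using Finset.induction_on with
  | empty => simp
  | insert x S hx ih =>
    rw [Finset.prod_insert hx, Finset.prod_insert hx, Finset.prod_insert hx, Finset.sum_insert hx]
    have h1 : a x * ∏ i ∈ S, a i - b x * ∏ i ∈ S, b i =
        (a x - b x) * ∏ i ∈ S, a i + b x * (∏ i ∈ S, a i - ∏ i ∈ S, b i) := by ring
    have hP : |∏ i ∈ S, a i| ≤ ∏ i ∈ S, M i := by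
      rw [abs_of_nonneg (Finset.prod_nonneg fun i _ => (ha i).1)]
      exact Finset.prod_le_prod (fun i _ => (ha i).1) (fun i _ => (ha i).2)
    have hP0 : 0 ≤ ∏ i ∈ S, M i := Finset.prod_nonneg fun i _ => (hM i).le
    rw [h1]
    refine (abs_add_le _ _).trans (add_le_add ?_ ?_)
    · rw [abs_mul, mul_div_assoc, mul_comm (M x), div_mul_cancel₀ _ (hM x).ne']
      calc |a x - b x| * |∏ i ∈ S, a i| ≤ 1 * ∏ i ∈ S, M i :=
            mul_le_mul (hab x) hP (abs_nonneg _) (by norm_num)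
        _ = _ := one_mul _
    · rw [abs_mul, abs_of_nonneg (hb x).1]
      calc b x * |∏ i ∈ S, a i - ∏ i ∈ S, b i| ≤ M x * ∑ i ∈ S, (∏ j ∈ S, M j) / M i :=
            mul_le_mul (hb x).2 ih (abs_nonneg _) (hM x).le
        _ = _ := by
            rw [Finset.mul_sum]
            refine Finset.sum_congr rfl fun i _ => ?_
            ring

/-- `Pf` is periodic modulo `1`. -/
private theorem Pf_add_int {v : ℕ} (l : Fin v → ℕ) (θ : ℝ) (n : ℕ) :
    Pf l (θ + n) = Pf l θ := by
  unfold Pf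
  refine Finset.prod_congr rfl fun i _ => ?_
  have : (10 : ℝ) ^ ee l i * (θ + n) = (10 : ℝ) ^ ee l i * θ + ((10 ^ ee l i * n : ℕ) : ℤ) := by
    push_cast
    ring
  rw [this, mn_add_int]

private theorem Pf_perm {v : ℕ} (l : Fin v → ℕ) (m d : ℕ) (hm : 1 ≤ m) (hmd : m.Coprime d) :
    ∑ b ∈ Finset.Ico 1 m, Pf l ((b : ℝ) * d / m) = ∑ b ∈ Finset.Ico 1 m, Pf l ((b : ℝ) / m) := by
  classical
  have hm0 : (m : ℝ) ≠ 0 := by positivity
  have hinj : Set.InjOn (fun b => b * d % m) (Finset.Ico 1 m : Finset ℕ) := by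
    intro b hb b' hb' h
    rw [Finset.mem_coe, Finset.mem_Ico] at hb hb'
    have h1 : b * d ≡ b' * d [MOD m] := h
    have h2 : b ≡ b' [MOD m] := Nat.ModEq.cancel_right_of_coprime hmd h1
    rw [Nat.ModEq, Nat.mod_eq_of_lt hb.2, Nat.mod_eq_of_lt hb'.2] at h2
    exact h2
  have hmap : ∀ b ∈ Finset.Ico 1 m, b * d % m ∈ Finset.Ico 1 m := by
    intro b hb
    rw [Finset.mem_Ico] at hb ⊢
    refine ⟨?_, Nat.mod_lt _ (by omega)⟩
    rw [Nat.one_le_iff_ne_zero]
    intro h0
    have h1 : m ∣ b * d := Nat.dvd_of_mod_eq_zero h0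
    have h2 : m ∣ b := hmd.dvd_of_dvd_mul_right h1
    have := Nat.le_of_dvd (by omega) h2
    omega
  have himg : (Finset.Ico 1 m).image (fun b => b * d % m) = Finset.Ico 1 m := by
    apply Finset.eq_of_subset_of_card_le
    · intro x hx
      obtain ⟨b, hb, rfl⟩ := Finset.mem_image.mp hx
      exact hmap b hb
    · rw [Finset.card_image_of_injOn hinj]
  conv_rhs => rw [← himg]
  rw [Finset.sum_image hinj]
  refine Finset.sum_congr rfl fun b _ => ?_
  have h1 : (b : ℝ) * d / m = ((b * d % m : ℕ) : ℝ) / m + ((b * d / m : ℕ) : ℝ) := by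
    have h2 : ((b * d : ℕ) : ℝ) = ((b * d % m + m * (b * d / m) : ℕ) : ℝ) := by
      rw [Nat.mod_add_div]
    rw [div_add' _ _ _ hm0]
    congr 1
    push_cast at h2 ⊢
    linarith
  rw [h1, Pf_add_int]

theorem box {v : ℕ} (l : Fin v → ℕ) (m d c : ℕ) (hm : 1 ≤ m) (hd : 1 ≤ d) (hmd : m.Coprime d)
    (s t r : Fin v → ℕ) (hst : ∀ i, s i ≤ t i ∧ t i ≤ 10 ^ l i) :
    |(((Fintype.piFinset (fun i => Finset.Ico (s i) (t i))).filter
        (fun x => (∀ i, x i ≡ r i [MOD d]) ∧ m ∣ c + ∑ i, x i * 10 ^ ee l i)).card : ℝ) -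
        (∏ i, ((t i : ℝ) - s i)) / (m * d ^ v)| ≤
      Wm l m + (∑ i, (10 : ℝ) ^ (∑ j, l j) / (10 : ℝ) ^ l i) / m := by
  classical
  have hm0 : (0 : ℝ) < m := by positivity
  have hd0 : (0 : ℝ) < d := by positivity
  set x0 : Fin v → ℕ := fun i => bx0 d (s i) (r i) with hx0
  set Y : Fin v → ℕ := fun i => bxY d (s i) (t i) (r i) with hY
  set g : Fin v → ℕ := fun i => d * 10 ^ ee l i with hg
  have hcard : ((Fintype.piFinset (fun i => Finset.Ico (s i) (t i))).filter
        (fun x => (∀ i, x i ≡ r i [MOD d]) ∧ m ∣ c + ∑ i, x i * 10 ^ ee l i)).card =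
      ((Fintype.piFinset (fun i => Finset.range (Y i))).filter
        (fun y => m ∣ (c + ∑ i, x0 i * 10 ^ ee l i) + ∑ i, g i * y i)).card := by
    symm
    have hval : ∀ y : Fin v → ℕ, (c + ∑ i, x0 i * 10 ^ ee l i) + ∑ i, g i * y i =
        c + ∑ i, (x0 i + d * y i) * 10 ^ ee l i := by
      intro y
      rw [add_assoc, ← Finset.sum_add_distrib]
      congr 1
      refine Finset.sum_congr rfl fun i _ => ?_
      simp only [hg]
      ring
    apply Finset.card_bij (fun y _ => fun i => x0 i + d * y i)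
    · intro y hy
      rw [Finset.mem_filter, Fintype.mem_piFinset] at hy ⊢
      refine ⟨fun i => ?_, fun i => ?_, ?_⟩
      · have h1 := Finset.mem_range.mp (hy.1 i)
        have h2 := (bxY_iff hd (s i) (t i) (r i) (y i)).mp h1
        rw [Finset.mem_Ico]
        exact ⟨(bx0_ge d (s i) (r i)).trans (Nat.le_add_right _ _), h2⟩
      · have h1 := bx0_mod hd (s i) (r i)
        have h2 : x0 i + d * y i ≡ x0 i + 0 [MOD d] :=
          Nat.ModEq.add_left _ (Nat.modEq_zero_iff_dvd.mpr (Nat.dvd_mul_right d (y i)))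
        exact h2.trans h1
      · have h1 := hy.2
        rw [hval] at h1
        exact h1
    · intro y _ y' _ h
      funext i
      have h1 : x0 i + d * y i = x0 i + d * y' i := congrFun h i
      have h2 : d * y i = d * y' i := by omega
      exact Nat.eq_of_mul_eq_mul_left (by omega) h2
    · intro x hx
      rw [Finset.mem_filter, Fintype.mem_piFinset] at hx
      have hdiv : ∀ i, ∃ y, x i = x0 i + d * y := by
        intro i
        have h1 := Finset.mem_Ico.mp (hx.1 i)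
        have h2 := bx0_le hd h1.1 (hx.2.1 i)
        have h3 : x0 i ≡ x i [MOD d] := (bx0_mod hd (s i) (r i)).trans (hx.2.1 i).symm
        obtain ⟨q, hq⟩ := (Nat.modEq_iff_dvd' h2).mp h3
        exact ⟨q, by rw [← hq]; simp only [hx0]; omega⟩
      choose y hy using hdiv
      have hxy : (fun i => x0 i + d * y i) = x := by
        funext i
        exact (hy i).symm
      refine ⟨y, ?_, hxy⟩
      rw [Finset.mem_filter, Fintype.mem_piFinset]
      refine ⟨fun i => ?_, ?_⟩
      · rw [Finset.mem_range]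
        apply (bxY_iff hd (s i) (t i) (r i) (y i)).mpr
        have h1 := (Finset.mem_Ico.mp (hx.1 i)).2
        rw [hy i] at h1
        exact h1
      · rw [hval]
        have h1 := hx.2.2
        have h2 : ∑ i, x i * 10 ^ ee l i = ∑ i, (x0 i + d * y i) * 10 ^ ee l i :=
          Finset.sum_congr rfl fun i _ => by rw [← hy i]
        rw [h2] at h1
        exact h1
  have hfou := fou m hm g Y (c + ∑ i, x0 i * 10 ^ ee l i)
  rw [← hcard] at hfou
  have hYle : ∀ i, (Y i : ℝ) ≤ (10 : ℝ) ^ l i := by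
    intro i
    have h1 := bxY_le hd (s i) (t i) (r i)
    have h2 := (hst i).2
    exact_mod_cast h1.trans h2
  have herr : (∑ b ∈ Finset.Ico 1 m, ∏ i, mn (Y i) ((b : ℝ) * g i / m)) / m ≤ Wm l m := by
    unfold Wm
    rw [← Pf_perm l m d hm hmd]
    apply div_le_div_of_nonneg_right _ hm0.le
    refine Finset.sum_le_sum fun b _ => ?_
    unfold Pf
    apply Finset.prod_le_prod
    · intro i _
      exact mn_nonneg (Nat.cast_nonneg _) _
    · intro i _
      have h1 : (b : ℝ) * g i / m = (10 : ℝ) ^ ee l i * ((b : ℝ) * d / m) := by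
        simp only [hg]
        push_cast
        ring
      rw [h1]
      exact mn_mono (Nat.cast_nonneg _) (hYle i) _
  have hprod := bxProd Finset.univ (fun i => (Y i : ℝ)) (fun i => ((t i : ℝ) - s i) / d)
    (fun i => (10 : ℝ) ^ l i) (fun i => ⟨Nat.cast_nonneg _, hYle i⟩) (fun i => by
      have h1 : (s i : ℝ) ≤ t i := by exact_mod_cast (hst i).1
      have h2 : (t i : ℝ) ≤ (10 : ℝ) ^ l i := by exact_mod_cast (hst i).2
      have h3 : (1 : ℝ) ≤ d := by exact_mod_cast hd
      have h4 : (0 : ℝ) ≤ s i := Nat.cast_nonneg _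
      refine ⟨div_nonneg (by linarith) hd0.le, ?_⟩
      calc ((t i : ℝ) - s i) / d ≤ ((t i : ℝ) - s i) / 1 :=
            div_le_div_of_nonneg_left (by linarith) one_pos h3
        _ ≤ _ := by rw [div_one]; linarith) (fun i => by positivity)
    (fun i => bxY_abs hd (r i) (hst i).1)
  have hmain : (∏ i, ((t i : ℝ) - s i)) / (m * d ^ v) = (∏ i, ((t i : ℝ) - s i) / d) / m := by
    rw [Finset.prod_div_distrib, Finset.prod_const, Finset.card_univ, Fintype.card_fin]
    field_simp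
  rw [hmain]
  rw [Finset.prod_pow_eq_pow_sum] at hprod
  have h5 : |(∏ i, (Y i : ℝ)) / m - (∏ i, ((t i : ℝ) - s i) / d) / m| ≤
      (∑ i, (10 : ℝ) ^ (∑ j, l j) / (10 : ℝ) ^ l i) / m := by
    rw [← sub_div, abs_div, abs_of_pos hm0]
    exact div_le_div_of_nonneg_right hprod hm0.le
  calc _ ≤ |(((Fintype.piFinset (fun i => Finset.Ico (s i) (t i))).filter
        (fun x => (∀ i, x i ≡ r i [MOD d]) ∧ m ∣ c + ∑ i, x i * 10 ^ ee l i)).card : ℝ) -
        (∏ i, (Y i : ℝ)) / m| +
        |(∏ i, (Y i : ℝ)) / m - (∏ i, ((t i : ℝ) - s i) / d) / m| := abs_sub_le _ _ _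
    _ ≤ _ := add_le_add (hfou.trans herr) h5

end Pool.Agent.HP
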