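import Pool.Agent.PnMn.GeneralSieve
import Pool.Agent.PnMn.SieveCor

/-! BTI (~150 lines): Brun-Titchmarsh with a constant. Apply `Pool.Agent.PnMn.generalSieve` (GeneralSieve.lean) to `b` in
`q = c' + r b` (`c' = c % r`, `b ≤ Z/r`), `P` = odd primes `p ≤ z` not dividing `r`, `B p = {-c'/r}`, `z = ⌊(Z/r)^(1/s)⌋`
(so `log z ≥ c log Z` as `Z/r ≥ Z^(1/2)`), plus the primes `q ≤ z`; the product is
`∏_{p ≤ z, p ∤ 2r} (1-1/p) ≤ C (r/φ(r)) / log z` (see SieveCor.lean for the product over `p ≤ z`; the missing `p ∣ r` give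
`≤ ∏_{p ∣ r} (1-1/p)^(-1) = r/φ(r)`). Small `Z` by adjusting the constant. -/

set_option autoImplicit false

namespace Pool.Agent.HP

open Finset

open Pool.Agent.PnMn Pool.Agent.PnMn.SieveCor

/-- the sieve for the primes `> 2^m` in a residue class -/
theorem bti_sieve {s : ℕ} (hG : GS s) (r c Z m : ℕ) (hr : 1 ≤ r)
    (hm : (2 ^ m) ^ s ≤ Z / r + 1) :
    (((Finset.Icc 1 Z).filter (fun q => (q.Prime ∧ q ≡ c [MOD r]) ∧ 2 ^ m < q)).card : ℝ) ≤
      3 * ((Z / r + 1 : ℕ) : ℝ) * (tq r * ∏ p ∈ pr (2 ^ m), (1 - 1 / (p : ℝ))) := by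
  classical
  set S1 := (Finset.Icc 1 Z).filter (fun q => (q.Prime ∧ q ≡ c [MOD r]) ∧ 2 ^ m < q) with hS1
  set S := S1.image (fun q => q / r + 1) with hS
  have hinj : Set.InjOn (fun q => q / r + 1) (S1 : Set ℕ) := by
    intro q hq q' hq' h
    rw [mem_coe, hS1, mem_filter] at hq hq'
    simp only [add_left_inj] at h
    have h1 : q % r = q' % r := hq.2.1.2.trans hq'.2.1.2.symm
    rw [← Nat.div_add_mod q r, ← Nat.div_add_mod q' r, h, h1]
  have hcard : S.card = S1.card := card_image_of_injOn hinj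
  set B : (p : ℕ) → Finset (ZMod p) := fun p => {1 - ((c % r : ℕ) : ZMod p) * ((r : ZMod p))⁻¹} with hB
  have h := GS_use hG (2 ^ m) ((pr (2 ^ m)).filter (fun p => ¬ p ∣ r)) B 0 (Z / r + 1)
    (by
      intro p hp
      have := mem_pr.1 (mem_filter.1 hp).1
      exact ⟨this.2, this.1.1, this.1.2⟩)
    (by
      intro p _
      rw [hB]
      simp)
    (Nat.le_add_left 1 _) hm S
    (by
      intro b hb
      rw [hS, mem_image] at hb
      obtain ⟨q, hq, rfl⟩ := hb
      rw [hS1, mem_filter, mem_Icc] at hq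
      rw [mem_Ioc]
      have := Nat.div_le_div_right (c := r) hq.1.2
      exact ⟨Nat.succ_pos _, by rw [Nat.zero_add]; exact Nat.succ_le_succ this⟩)
    (by
      intro b hb p hp hbp
      rw [hS, mem_image] at hb
      obtain ⟨q, hq, rfl⟩ := hb
      rw [hS1, mem_filter, mem_Icc] at hq
      rw [mem_filter, mem_pr] at hp
      have := Fact.mk hp.1.2
      have hr0 : (r : ZMod p) ≠ 0 := by
        intro h0
        exact hp.2 ((ZMod.natCast_eq_zero_iff r p).1 h0)
      rw [hB, mem_singleton] at hbp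
      have h1 : (q : ZMod p) = 0 := by
        have h2 : q % r = c % r := hq.2.1.2
        have h3 := Nat.div_add_mod q r
        rw [h2] at h3
        rw [← h3]
        push_cast at hbp ⊢
        have h4 : ((q / r : ℕ) : ZMod p) = -(((c % r : ℕ) : ZMod p) * ((r : ZMod p))⁻¹) := by
          linear_combination hbp
        rw [h4]
        field_simp
        ring
      have h2 : p ∣ q := (ZMod.natCast_eq_zero_iff q p).1 h1
      have h3 := (Nat.prime_dvd_prime_iff_eq hp.1.2 hq.2.1.1).1 h2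
      omega)
  rw [hcard] at h
  refine h.trans ?_
  apply mul_le_mul_of_nonneg_left _ (by positivity)
  refine le_trans (le_of_eq ?_) (filter_prod_le r (2 ^ m) hr)
  refine prod_congr rfl fun p _ => ?_
  rw [hB]
  simp

theorem bti : ∃ C : ℝ, 0 < C ∧ ∀ r c Z : ℕ, 1 ≤ r → 2 ≤ Z → r ^ 2 ≤ Z →
    (((Finset.Icc 1 Z).filter (fun q => q.Prime ∧ q ≡ c [MOD r])).card : ℝ) ≤
      C * Z / ((Nat.totient r : ℝ) * Real.log Z) := by
  classical
  obtain ⟨s, hs, hG⟩ := generalSieve
  have hG' : GS s := hG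
  refine ⟨152 * s + 8, by positivity, fun r c Z hr hZ hrZ => ?_⟩
  set Y : ℕ := Z / r + 1 with hY
  have hr0 : (0 : ℝ) < r := by exact_mod_cast hr
  have hr1 : (1 : ℝ) ≤ r := by exact_mod_cast hr
  have hZ0 : (0 : ℝ) < Z := by
    have : 0 < Z := by omega
    exact_mod_cast this
  have hs1 : (1 : ℝ) ≤ s := by exact_mod_cast hs
  have hφ : (0 : ℝ) < Nat.totient r := by exact_mod_cast Nat.totient_pos.2 hr
  have hφr : (Nat.totient r : ℝ) ≤ r := by exact_mod_cast Nat.totient_le r
  have hlogZ : 0 < Real.log Z := Real.log_pos (by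
    have : 1 < Z := by omega
    exact_mod_cast this)
  have hrZ' : (r : ℝ) ^ 2 ≤ Z := by exact_mod_cast hrZ
  have hY1 : (1 : ℝ) ≤ Y := by
    have : 1 ≤ Y := Nat.le_add_left 1 _
    exact_mod_cast this
  have hYle : (Y : ℝ) ≤ 2 * Z / r := by
    have h1 : ((Z / r : ℕ) : ℝ) ≤ (Z : ℝ) / r := Nat.cast_div_le
    have h2 : (1 : ℝ) ≤ (Z : ℝ) / r := by
      rw [one_le_div hr0]
      nlinarith
    have h3 : (Y : ℝ) = ((Z / r : ℕ) : ℝ) + 1 := by rw [hY]; push_cast; rfl
    rw [h3]
    have h4 : 2 * (Z : ℝ) / r = (Z : ℝ) / r + (Z : ℝ) / r := by ring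
    linarith
  have hYge : (Z : ℝ) / r ≤ Y := by
    rw [div_le_iff₀ hr0]
    have h1 := Nat.lt_div_mul_add (a := Z) (b := r) (by omega)
    have h2 : Z ≤ Y * r := by rw [hY]; nlinarith
    exact_mod_cast h2
  have hZY : (Z : ℝ) ≤ (Y : ℝ) ^ 2 := by
    have h1 : (Z : ℝ) ≤ ((Z : ℝ) / r) ^ 2 := by
      rw [div_pow, le_div_iff₀ (by positivity)]
      nlinarith
    exact h1.trans (by gcongr)
  have hlog1 : Real.log Z ≤ 2 * Real.log Y := by
    have h1 := Real.log_le_log hZ0 hZY
    rwa [Real.log_pow] at h1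
  have hlog2 : Real.log Y ≤ 2 * Real.sqrt Y := by
    have h1 : 0 < Real.sqrt Y := Real.sqrt_pos.2 (by linarith)
    have h2 := Real.log_le_sub_one_of_pos h1
    rw [Real.log_sqrt (by linarith)] at h2
    linarith
  set m : ℕ := Nat.log 2 Y / (2 * s) with hm
  have hY0 : Y ≠ 0 := Nat.succ_ne_zero _
  have h2m : 2 * s * m ≤ Nat.log 2 Y := by
    rw [hm, mul_comm]
    exact Nat.div_mul_le_self _ _
  have hpow : 2 ^ (2 * s * m) ≤ Y :=
    (Nat.pow_le_pow_right (by norm_num) h2m).trans (Nat.pow_log_le_self 2 hY0)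
  have hlog3 : Real.log Y ≤ 2 * s * (m + 1) := by
    have h1 : Y < 2 ^ (Nat.log 2 Y + 1) := Nat.lt_pow_succ_log_self (by norm_num) Y
    have h2 : Nat.log 2 Y + 1 ≤ 2 * s * (m + 1) := by
      have h3 := Nat.lt_div_mul_add (a := Nat.log 2 Y) (b := 2 * s) (by omega)
      rw [← hm] at h3
      nlinarith
    have h4 : Y ≤ 2 ^ (2 * s * (m + 1)) := h1.le.trans (Nat.pow_le_pow_right (by norm_num) h2)
    have h5 : (Y : ℝ) ≤ (2 : ℝ) ^ (2 * s * (m + 1)) := by exact_mod_cast h4
    have h6 := Real.log_le_log (by linarith) h5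
    rw [Real.log_pow] at h6
    refine h6.trans ?_
    push_cast
    have h7 : Real.log 2 ≤ 1 := by
      have := Real.log_two_lt_d9
      linarith
    have h8 : (0 : ℝ) ≤ 2 * s * (m + 1) := by positivity
    nlinarith
  -- the trivial bound
  have htriv : (((Finset.Icc 1 Z).filter (fun q => q.Prime ∧ q ≡ c [MOD r])).card : ℝ) ≤ Y := by
    have h1 : ((Finset.Icc 1 Z).filter (fun q => q.Prime ∧ q ≡ c [MOD r])).card ≤
        (Finset.range Y).card := by
      apply card_le_card_of_injOn (fun q => q / r)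
      · intro q hq
        rw [mem_coe, mem_filter, mem_Icc] at hq
        rw [mem_coe, mem_range]
        have := Nat.div_le_div_right (c := r) hq.1.2
        exact Nat.lt_succ_of_le this
      · intro q hq q' hq' h
        rw [mem_coe, mem_filter] at hq hq'
        have h1 : q % r = q' % r := hq.2.2.trans hq'.2.2.symm
        simp only at h
        rw [← Nat.div_add_mod q r, ← Nat.div_add_mod q' r, h, h1]
    rw [card_range] at h1
    exact_mod_cast h1
  have hmain : ∀ x : ℝ, x * Real.log Z ≤ (152 * s + 8) * (Z / Nat.totient r) →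
      x ≤ (152 * s + 8) * Z / ((Nat.totient r : ℝ) * Real.log Z) := by
    intro x hx
    rw [le_div_iff₀ (by positivity)]
    have h1 : x * ((Nat.totient r : ℝ) * Real.log Z) = (x * Real.log Z) * Nat.totient r := by ring
    rw [h1]
    calc (x * Real.log Z) * Nat.totient r ≤
          ((152 * s + 8) * (Z / Nat.totient r)) * Nat.totient r := by gcongr
      _ = (152 * s + 8) * Z := by field_simp
  have hrφ : (Z : ℝ) / r ≤ Z / Nat.totient r := div_le_div_of_nonneg_left hZ0.le hφ hφr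
  have hQ : 0 ≤ (Z : ℝ) / Nat.totient r := by positivity
  rcases Nat.eq_zero_or_pos m with hm0 | hm0
  · apply hmain
    rw [hm0] at hlog3
    push_cast at hlog3
    have h1 : Real.log Z ≤ 4 * s := by linarith
    calc (((Finset.Icc 1 Z).filter (fun q => q.Prime ∧ q ≡ c [MOD r])).card : ℝ) * Real.log Z
        ≤ (2 * Z / r) * (4 * s) := by
          apply mul_le_mul (htriv.trans hYle) h1 hlogZ.le (by positivity)
      _ = (8 * s) * (Z / r) := by ring
      _ ≤ (8 * s) * (Z / Nat.totient r) := by gcongr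
      _ ≤ (152 * s + 8) * (Z / Nat.totient r) := by
          apply mul_le_mul_of_nonneg_right _ hQ
          linarith
  · apply hmain
    have hm1 : (1 : ℝ) ≤ m := by exact_mod_cast hm0
    have h0 : (2 ^ m) ^ s ≤ Z / r + 1 := by
      rw [← pow_mul]
      refine le_trans (Nat.pow_le_pow_right (by norm_num) ?_) hpow
      nlinarith
    have h1 := bti_sieve hG' r c Z m hr h0
    have h2 := V_pow m hm0
    have hsplit : ((Finset.Icc 1 Z).filter (fun q => q.Prime ∧ q ≡ c [MOD r])).card ≤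
        2 ^ m + ((Finset.Icc 1 Z).filter (fun q => (q.Prime ∧ q ≡ c [MOD r]) ∧ 2 ^ m < q)).card := by
      have h3 : (Finset.Icc 1 Z).filter (fun q => q.Prime ∧ q ≡ c [MOD r]) ⊆
          Finset.Icc 1 (2 ^ m) ∪
            (Finset.Icc 1 Z).filter (fun q => (q.Prime ∧ q ≡ c [MOD r]) ∧ 2 ^ m < q) := by
        intro q hq
        rw [mem_filter, mem_Icc] at hq
        rw [mem_union, mem_filter, mem_Icc, mem_Icc]
        by_cases h4 : q ≤ 2 ^ m
        · left; exact ⟨hq.1.1, h4⟩
        · right; exact ⟨hq.1, hq.2, by omega⟩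
      have h4 := (card_le_card h3).trans (card_union_le _ _)
      rwa [Nat.card_Icc, Nat.add_sub_cancel] at h4
    have hsplit' : (((Finset.Icc 1 Z).filter (fun q => q.Prime ∧ q ≡ c [MOD r])).card : ℝ) ≤
        (2 : ℝ) ^ m + 3 * (Y : ℝ) * (tq r * (3 / m)) := by
      have h3 : (((Finset.Icc 1 Z).filter (fun q => q.Prime ∧ q ≡ c [MOD r])).card : ℝ) ≤
        (2 : ℝ) ^ m + (((Finset.Icc 1 Z).filter
          (fun q => (q.Prime ∧ q ≡ c [MOD r]) ∧ 2 ^ m < q)).card : ℝ) := by exact_mod_cast hsplit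
      refine h3.trans ?_
      gcongr
      refine h1.trans ?_
      have h4 : 0 ≤ tq r := (zero_le_one.trans (tq_one_le r hr))
      gcongr
    have hsq : (2 : ℝ) ^ m ≤ Real.sqrt Y := by
      apply Real.le_sqrt_of_sq_le
      rw [← pow_mul]
      have h3 : 2 ^ (m * 2) ≤ Y := by
        refine le_trans (Nat.pow_le_pow_right (by norm_num) ?_) hpow
        nlinarith
      exact_mod_cast h3
    have hA : (2 : ℝ) ^ m * Real.log Z ≤ 8 * (Z / Nat.totient r) := by
      have h3 : Real.log Z ≤ 4 * Real.sqrt Y := by linarith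
      calc (2 : ℝ) ^ m * Real.log Z ≤ Real.sqrt Y * (4 * Real.sqrt Y) := by
            apply mul_le_mul hsq h3 hlogZ.le (Real.sqrt_nonneg _)
        _ = 4 * (Real.sqrt Y * Real.sqrt Y) := by ring
        _ = 4 * Y := by rw [Real.mul_self_sqrt (by linarith)]
        _ ≤ 4 * (2 * Z / r) := by gcongr
        _ = 8 * (Z / r) := by ring
        _ ≤ 8 * (Z / Nat.totient r) := by gcongr
    have hBd : 3 * (Y : ℝ) * (tq r * (3 / m)) * Real.log Z ≤ (144 * s) * (Z / Nat.totient r) := by
      have h3 : Real.log Z ≤ 8 * s * m := by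
        have : (s : ℝ) ≤ s * m := by nlinarith
        nlinarith
      have h4 : 3 * (Y : ℝ) * (tq r * (3 / m)) ≤ 18 * (Z / Nat.totient r) / m := by
        have h5 : tq r = (r : ℝ) / Nat.totient r := rfl
        rw [h5]
        calc 3 * (Y : ℝ) * ((r : ℝ) / Nat.totient r * (3 / m))
            ≤ 3 * (2 * Z / r) * ((r : ℝ) / Nat.totient r * (3 / m)) := by gcongr
          _ = 18 * (Z / Nat.totient r) / m := by
              field_simp
              ring
      calc 3 * (Y : ℝ) * (tq r * (3 / m)) * Real.log Z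
          ≤ (18 * (Z / Nat.totient r) / m) * (8 * s * m) := by
            apply mul_le_mul h4 h3 hlogZ.le (by positivity)
        _ = (144 * s) * (Z / Nat.totient r) := by
            field_simp
            ring
    calc (((Finset.Icc 1 Z).filter (fun q => q.Prime ∧ q ≡ c [MOD r])).card : ℝ) * Real.log Z
        ≤ ((2 : ℝ) ^ m + 3 * (Y : ℝ) * (tq r * (3 / m))) * Real.log Z := by gcongr
      _ = (2 : ℝ) ^ m * Real.log Z + 3 * (Y : ℝ) * (tq r * (3 / m)) * Real.log Z := by ring
      _ ≤ 8 * (Z / Nat.totient r) + (144 * s) * (Z / Nat.totient r) := add_le_add hA hBd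
      _ = (144 * s + 8) * (Z / Nat.totient r) := by ring
      _ ≤ (152 * s + 8) * (Z / Nat.totient r) := by
          apply mul_le_mul_of_nonneg_right _ hQ
          linarith

end Pool.Agent.HP
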