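import Pool.Agent.HP.DefsC
import Pool.Agent.PnMn.GeneralSieve
import Pool.Agent.PnMn.SieveCor
import Pool.Agent.PnMn.AvgTot

/-! BTJ (~200 lines): two-dimensional sieve in an arithmetic progression. `t = c₀ + r b`, `b` in an interval of length `≤ L/r + 1`
(`L/r ≥ L^(1/2)`), `z = ⌊(L/r)^(1/s)⌋` with the `s` of `Pool.Agent.PnMn.generalSieve`, also `z ≤ L^(1/4)`. For an odd prime `p ≤ z`, `p ∤ r`:
`B p` = the `b` with `t ≡ 0`, and, if moreover `p ∤ m h`, the `b` with `t ≡ h/m` (`p ∣ m t - h`), another class. The two primes are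
`> z` since `≥ L/2`. The product `∏ (1 - |B p|/p)` is
`≤ C (log z)^(-2) ∏_{p ∣ r} (1-1/p)^(-2) ∏_{p ∣ m h} (1-1/p)^(-1) ≤ C (log z)^(-2) tq(r)^2 tq(m) tq(h)`
(compare `SieveTwo` in PnMn: SieveCor.lean has the lemmas). Small `L`: adjust the constant (the count is `≤ L/r + 1`). -/

set_option autoImplicit false

namespace Pool.Agent.HP

open Finset

open Pool.Agent.PnMn.SieveCor (GS GS_use pr mem_pr filter_prod_le' V_pow one_sub_pos
  one_sub_le_one)

private theorem btj_tq_one {l : ℕ} (hl : 1 ≤ l) : 1 ≤ tq l := Pool.Agent.PnMn.SieveCor.tq_one_le l hl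

/-- the residue classes -/
private noncomputable def btjB (r c m h p : ℕ) : Finset (ZMod p) :=
  {1 - ((c % r : ℕ) : ZMod p) * ((r : ZMod p))⁻¹} ∪
    (if p ∣ m * h then ∅ else {1 + ((h : ZMod p) * ((m : ZMod p))⁻¹ - ((c % r : ℕ) : ZMod p)) * ((r : ZMod p))⁻¹})

private theorem btjB_card {r c m h p : ℕ} (hp : p.Prime) (hr : ¬ p ∣ r) :
    (btjB r c m h p).card = 1 + if p ∣ m * h then 0 else 1 := by
  classical
  have := Fact.mk hp
  have hr0 : (r : ZMod p) ≠ 0 := fun h0 => hr ((ZMod.natCast_eq_zero_iff r p).1 h0)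
  unfold btjB
  by_cases hd : p ∣ m * h
  · rw [if_pos hd, if_pos hd]
    simp
  · rw [if_neg hd, if_neg hd, card_union_of_disjoint]
    · simp
    · rw [disjoint_singleton]
      intro he
      have hm0 : (m : ZMod p) ≠ 0 := fun h0 =>
        hd (Dvd.dvd.mul_right ((ZMod.natCast_eq_zero_iff m p).1 h0) _)
      have hh0 : (h : ZMod p) ≠ 0 := fun h0 =>
        hd (Dvd.dvd.mul_left ((ZMod.natCast_eq_zero_iff h p).1 h0) _)
      have h1 : (h : ZMod p) * ((m : ZMod p))⁻¹ * ((r : ZMod p))⁻¹ = 0 := by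
        linear_combination -he
      rcases mul_eq_zero.1 h1 with h2 | h2
      · rcases mul_eq_zero.1 h2 with h3 | h3
        · exact hh0 h3
        · exact hm0 (inv_eq_zero.1 h3)
      · exact hr0 (inv_eq_zero.1 h2)

/-- the count after the injection `t ↦ t / r + 1` -/
private theorem btj_sieve {s : ℕ} (hG : GS s) (r c M L m h j : ℕ) (hr : 1 ≤ r) (hm1 : 1 ≤ m) (hh1 : 1 ≤ h)
    (hj : (2 ^ j) ^ s ≤ L / r + 2) (hL : 2 * 2 ^ j < L) :
    (((Finset.Ioc M (M + L)).filter (fun t => t.Prime ∧ t ≡ c [MOD r] ∧ h < m * t ∧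
      (m * t - h).Prime ∧ L ≤ 2 * t ∧ L ≤ 2 * (m * t - h))).card : ℝ) ≤
      3 * ((L / r + 2 : ℕ) : ℝ) * (tq r ^ 2 * tq m * tq h *
        (∏ p ∈ pr (2 ^ j), (1 - 1 / (p : ℝ))) ^ 2) := by
  classical
  set S1 := (Finset.Ioc M (M + L)).filter (fun t => t.Prime ∧ t ≡ c [MOD r] ∧ h < m * t ∧
      (m * t - h).Prime ∧ L ≤ 2 * t ∧ L ≤ 2 * (m * t - h)) with hS1
  set S := S1.image (fun t => t / r + 1) with hS
  have hinj : Set.InjOn (fun t => t / r + 1) (S1 : Set ℕ) := by
    intro q hq q' hq' he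
    rw [mem_coe, hS1, mem_filter] at hq hq'
    simp only [add_left_inj] at he
    have h1 : q % r = q' % r := hq.2.2.1.trans hq'.2.2.1.symm
    rw [← Nat.div_add_mod q r, ← Nat.div_add_mod q' r, he, h1]
  have hcard : S.card = S1.card := card_image_of_injOn hinj
  obtain ⟨P, hP⟩ : ∃ P : Finset ℕ, P = (pr (2 ^ j)).filter (fun p => ¬ p ∣ r) := ⟨_, rfl⟩
  have hmain := GS_use hG (2 ^ j) P (btjB r c m h) (M / r) (L / r + 2)
    (by
      intro p hp
      rw [hP] at hp
      have := mem_pr.1 (mem_filter.1 hp).1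
      exact ⟨this.2, this.1.1, this.1.2⟩)
    (by
      intro p hp
      rw [hP, mem_filter] at hp
      rw [btjB_card (mem_pr.1 hp.1).2 hp.2]
      split_ifs <;> omega)
    (Nat.le_add_left 1 _) hj S
    (by
      intro b hb
      rw [hS, mem_image] at hb
      obtain ⟨t, ht, rfl⟩ := hb
      rw [hS1, mem_filter, mem_Ioc] at ht
      rw [mem_Ioc]
      have h1 : M / r ≤ t / r := Nat.div_le_div_right ht.1.1.le
      have h2 : t / r ≤ (M + L) / r := Nat.div_le_div_right ht.1.2
      have h3 : (M + L) / r ≤ M / r + L / r + 1 := by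
        apply Nat.le_of_lt_succ
        rw [Nat.div_lt_iff_lt_mul (by omega)]
        have h4 := Nat.div_add_mod M r
        have h5 := Nat.div_add_mod L r
        have h6 := Nat.mod_lt M (show 0 < r by omega)
        have h7 := Nat.mod_lt L (show 0 < r by omega)
        have h8 : (M / r + L / r + 1).succ * r = r * (M / r) + r * (L / r) + 2 * r := by
          rw [Nat.succ_eq_add_one]; ring
        rw [h8]
        omega
      refine ⟨Nat.lt_succ_of_le h1, ?_⟩
      generalize M / r = u at *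
      generalize L / r = v at *
      generalize t / r = w at *
      generalize (M + L) / r = x at *
      omega)
    (by
      intro b hb p hp hbp
      rw [hS, mem_image] at hb
      obtain ⟨t, ht, rfl⟩ := hb
      rw [hS1, mem_filter, mem_Ioc] at ht
      obtain ⟨-, htp, htc, hht, htq, hL1, hL2⟩ := ht
      rw [hP, mem_filter, mem_pr] at hp
      have := Fact.mk hp.1.2
      have hr0 : (r : ZMod p) ≠ 0 := fun h0 => hp.2 ((ZMod.natCast_eq_zero_iff r p).1 h0)
      have h2 : t % r = c % r := htc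
      have h3 := Nat.div_add_mod t r
      rw [h2] at h3
      have h3' : (r : ZMod p) * ((t / r : ℕ) : ZMod p) + ((c % r : ℕ) : ZMod p) = (t : ZMod p) := by
        exact_mod_cast congrArg (fun n : ℕ => (n : ZMod p)) h3
      push_cast at hbp
      unfold btjB at hbp
      rw [mem_union] at hbp
      rcases hbp with hbp | hbp
      · rw [mem_singleton] at hbp
        have h4 : ((t / r : ℕ) : ZMod p) = -(((c % r : ℕ) : ZMod p) * ((r : ZMod p))⁻¹) := by
          push_cast
          linear_combination hbp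
        have h1 : (t : ZMod p) = 0 := by
          rw [← h3', h4]
          field_simp
          ring
        have h5 : p ∣ t := (ZMod.natCast_eq_zero_iff t p).1 h1
        have h6 := (Nat.prime_dvd_prime_iff_eq hp.1.2 htp).1 h5
        omega
      · by_cases hd : p ∣ m * h
        · rw [if_pos hd] at hbp
          exact absurd hbp (notMem_empty _)
        · rw [if_neg hd, mem_singleton] at hbp
          have hm0 : (m : ZMod p) ≠ 0 := fun h0 =>
            hd (Dvd.dvd.mul_right ((ZMod.natCast_eq_zero_iff m p).1 h0) _)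
          have h4 : ((t / r : ℕ) : ZMod p) =
              ((h : ZMod p) * ((m : ZMod p))⁻¹ - ((c % r : ℕ) : ZMod p)) * ((r : ZMod p))⁻¹ := by
            push_cast
            linear_combination hbp
          have h1 : (t : ZMod p) = (h : ZMod p) * ((m : ZMod p))⁻¹ := by
            rw [← h3', h4]
            field_simp
            ring
          have h5 : ((m * t - h : ℕ) : ZMod p) = 0 := by
            rw [Nat.cast_sub hht.le, Nat.cast_mul, h1]
            field_simp
            ring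
          have h6 : p ∣ m * t - h := (ZMod.natCast_eq_zero_iff _ p).1 h5
          have h7 := (Nat.prime_dvd_prime_iff_eq hp.1.2 htq).1 h6
          omega)
  rw [hcard] at hmain
  refine hmain.trans ?_
  apply mul_le_mul_of_nonneg_left _ (by positivity)
  have hPp : ∀ p ∈ P, p.Prime := fun p hp => by
    rw [hP] at hp
    exact (mem_pr.1 (mem_filter.1 hp).1).2
  have hprp : ∀ p ∈ pr (2 ^ j), p.Prime := fun p hp => (mem_pr.1 hp).2
  have hV0 : 0 ≤ ∏ p ∈ pr (2 ^ j), (1 - 1 / (p : ℝ)) :=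
    prod_nonneg fun p hp => (one_sub_pos (hprp p hp).two_le).le
  have htr := btj_tq_one hr
  have htm := btj_tq_one hm1
  have hth := btj_tq_one hh1
  have e1 : ∏ p ∈ P, (1 - 1 / (p : ℝ)) ≤ tq r * ∏ p ∈ pr (2 ^ j), (1 - 1 / (p : ℝ)) := by
    rw [hP]
    exact filter_prod_le' r hr (pr (2 ^ j)) hprp
  have e2 : ∏ p ∈ (P.filter (fun p => ¬ p ∣ m)).filter (fun p => ¬ p ∣ h), (1 - 1 / (p : ℝ)) ≤
      tq h * (tq m * (tq r * ∏ p ∈ pr (2 ^ j), (1 - 1 / (p : ℝ)))) := by
    refine (filter_prod_le' h hh1 (P.filter (fun p => ¬ p ∣ m))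
      (fun p hp => hPp p (mem_filter.1 hp).1)).trans ?_
    refine mul_le_mul_of_nonneg_left ?_ (zero_le_one.trans hth)
    refine (filter_prod_le' m hm1 P hPp).trans ?_
    exact mul_le_mul_of_nonneg_left e1 (zero_le_one.trans htm)
  have e3 : ∏ p ∈ P, (1 - ((btjB r c m h p).card : ℝ) / p) ≤
      (∏ p ∈ P, (1 - 1 / (p : ℝ))) *
        ∏ p ∈ (P.filter (fun p => ¬ p ∣ m)).filter (fun p => ¬ p ∣ h), (1 - 1 / (p : ℝ)) := by
    rw [filter_filter, prod_filter, ← prod_mul_distrib]
    apply prod_le_prod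
    · intro p hp
      have hp' := hp
      rw [hP, mem_filter, mem_pr] at hp'
      rw [btjB_card hp'.1.2 hp'.2]
      have h3 : (3 : ℝ) ≤ p := by exact_mod_cast hp'.1.1.1
      have h4 : (((1 + if p ∣ m * h then 0 else 1 : ℕ)) : ℝ) ≤ 2 := by
        split_ifs <;> norm_num
      have h5 : (((1 + if p ∣ m * h then 0 else 1 : ℕ)) : ℝ) / p ≤ 1 := by
        rw [div_le_one (by linarith)]
        linarith
      linarith
    · intro p hp
      have hp' := hp
      rw [hP, mem_filter, mem_pr] at hp'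
      rw [btjB_card hp'.1.2 hp'.2]
      have h3 : (3 : ℝ) ≤ p := by exact_mod_cast hp'.1.1.1
      by_cases hd : p ∣ m * h
      · rw [if_pos hd]
        have h4 : ¬ (¬ p ∣ m ∧ ¬ p ∣ h) := by
          rcases hp'.1.2.dvd_mul.1 hd with h5 | h5
          · exact fun h6 => h6.1 h5
          · exact fun h6 => h6.2 h5
        rw [if_neg h4]
        simp
      · rw [if_neg hd]
        have h4 : (¬ p ∣ m ∧ ¬ p ∣ h) :=
          ⟨fun h5 => hd (Dvd.dvd.mul_right h5 _), fun h5 => hd (Dvd.dvd.mul_left h5 _)⟩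
        rw [if_pos h4]
        have h5 : 0 ≤ (1 / (p : ℝ)) ^ 2 := by positivity
        have h6 : (((1 + 1 : ℕ)) : ℝ) / (p : ℝ) = 2 * (1 / (p : ℝ)) := by
          push_cast
          ring
        rw [h6]
        nlinarith
  have hP0 : 0 ≤ ∏ p ∈ P, (1 - 1 / (p : ℝ)) :=
    prod_nonneg fun p hp => (one_sub_pos (hPp p hp).two_le).le
  have hF0 : 0 ≤ ∏ p ∈ (P.filter (fun p => ¬ p ∣ m)).filter (fun p => ¬ p ∣ h), (1 - 1 / (p : ℝ)) :=
    prod_nonneg fun p hp => (one_sub_pos (hPp p (mem_filter.1 (mem_filter.1 hp).1).1).two_le).le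
  calc ∏ p ∈ P, (1 - ((btjB r c m h p).card : ℝ) / p)
      ≤ (∏ p ∈ P, (1 - 1 / (p : ℝ))) *
        ∏ p ∈ (P.filter (fun p => ¬ p ∣ m)).filter (fun p => ¬ p ∣ h), (1 - 1 / (p : ℝ)) := e3
    _ ≤ (tq r * ∏ p ∈ pr (2 ^ j), (1 - 1 / (p : ℝ))) *
        (tq h * (tq m * (tq r * ∏ p ∈ pr (2 ^ j), (1 - 1 / (p : ℝ))))) := by
        apply mul_le_mul e1 e2 hF0
        exact mul_nonneg (zero_le_one.trans htr) hV0
    _ = _ := by ring

theorem btj : ∃ C : ℝ, 0 < C ∧ ∀ r c M L m h : ℕ, 1 ≤ r → 2 ≤ L → r ^ 2 ≤ L → 1 ≤ m → 1 ≤ h →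
    (((Finset.Ioc M (M + L)).filter (fun t => t.Prime ∧ t ≡ c [MOD r] ∧ h < m * t ∧
      (m * t - h).Prime ∧ L ≤ 2 * t ∧ L ≤ 2 * (m * t - h))).card : ℝ) ≤
      C * L * tq r ^ 2 * tq m * tq h / (r * Real.log L ^ 2) := by
  classical
  obtain ⟨s, hs, hG⟩ := Pool.Agent.PnMn.generalSieve
  have hG' : GS s := hG
  refine ⟨20736 * s ^ 2, by positivity, fun r c M L m h hr hL hrL hm1 hh1 => ?_⟩
  set Y : ℕ := L / r + 2 with hY
  have hr0 : (0 : ℝ) < r := by exact_mod_cast hr
  have hr1 : (1 : ℝ) ≤ r := by exact_mod_cast hr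
  have hL0 : (0 : ℝ) < L := by
    have : 0 < L := by omega
    exact_mod_cast this
  have hs1 : (1 : ℝ) ≤ s := by exact_mod_cast hs
  have hlogL : 0 < Real.log L := Real.log_pos (by
    have : 1 < L := by omega
    exact_mod_cast this)
  have hrL' : (r : ℝ) ^ 2 ≤ L := by exact_mod_cast hrL
  have hY1 : (1 : ℝ) ≤ Y := by
    have : 1 ≤ Y := Nat.le_add_left 1 _
    exact_mod_cast this
  have htr := btj_tq_one hr
  have htm := btj_tq_one hm1
  have hth := btj_tq_one hh1
  have hLr : (1 : ℝ) ≤ (L : ℝ) / r := by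
    rw [one_le_div hr0]
    nlinarith
  have hYle : (Y : ℝ) ≤ 3 * (L / r) := by
    have h1 : ((L / r : ℕ) : ℝ) ≤ (L : ℝ) / r := Nat.cast_div_le
    have h3 : (Y : ℝ) = ((L / r : ℕ) : ℝ) + 2 := by rw [hY]; push_cast; rfl
    rw [h3]
    linarith
  have hYge : (L : ℝ) / r ≤ Y := by
    rw [div_le_iff₀ hr0]
    have h1 := Nat.lt_div_mul_add (a := L) (b := r) (by omega)
    have h2 : L ≤ Y * r := by rw [hY]; nlinarith
    exact_mod_cast h2
  have hLY : (L : ℝ) ≤ (Y : ℝ) ^ 2 := by
    have h1 : (L : ℝ) ≤ ((L : ℝ) / r) ^ 2 := by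
      rw [div_pow, le_div_iff₀ (by positivity)]
      nlinarith
    exact h1.trans (by gcongr)
  have hlog1 : Real.log L ≤ 2 * Real.log Y := by
    have h1 := Real.log_le_log hL0 hLY
    rwa [Real.log_pow] at h1
  have hYL : Y ≤ L + 2 := by
    rw [hY]
    exact Nat.add_le_add_right (Nat.div_le_self L r) 2
  set j : ℕ := Nat.log 2 Y / (4 * s) with hj
  have hY0 : Y ≠ 0 := Nat.succ_ne_zero _
  have h4j : 4 * s * j ≤ Nat.log 2 Y := by
    rw [hj, mul_comm]
    exact Nat.div_mul_le_self _ _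
  have hpow : 2 ^ (4 * s * j) ≤ Y :=
    (Nat.pow_le_pow_right (by norm_num) h4j).trans (Nat.pow_log_le_self 2 hY0)
  have hlog3 : Real.log Y ≤ 4 * s * (j + 1) := by
    have h1 : Y < 2 ^ (Nat.log 2 Y + 1) := Nat.lt_pow_succ_log_self (by norm_num) Y
    have h2 : Nat.log 2 Y + 1 ≤ 4 * s * (j + 1) := by
      have h3 := Nat.lt_div_mul_add (a := Nat.log 2 Y) (b := 4 * s) (by omega)
      rw [← hj] at h3
      nlinarith
    have h4 : Y ≤ 2 ^ (4 * s * (j + 1)) := h1.le.trans (Nat.pow_le_pow_right (by norm_num) h2)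
    have h5 : (Y : ℝ) ≤ (2 : ℝ) ^ (4 * s * (j + 1)) := by exact_mod_cast h4
    have h6 := Real.log_le_log (by linarith) h5
    rw [Real.log_pow] at h6
    refine h6.trans ?_
    push_cast
    have h7 : Real.log 2 ≤ 1 := by
      have := Real.log_two_lt_d9
      linarith
    have h8 : (0 : ℝ) ≤ 4 * s * (j + 1) := by positivity
    nlinarith
  set T : ℝ := tq r ^ 2 * tq m * tq h with hT
  have hT1 : 1 ≤ T := by
    rw [hT]
    have h1 : 1 ≤ tq r ^ 2 := one_le_pow₀ htr
    have h2 : 1 ≤ tq r ^ 2 * tq m := one_le_mul_of_one_le_of_one_le h1 htm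
    exact one_le_mul_of_one_le_of_one_le h2 hth
  have hfin : ∀ x : ℝ, x * Real.log L ^ 2 ≤ 20736 * s ^ 2 * (L / r) * T →
      x ≤ 20736 * s ^ 2 * L * tq r ^ 2 * tq m * tq h / (r * Real.log L ^ 2) := by
    intro x hx
    rw [le_div_iff₀ (by positivity)]
    calc x * (r * Real.log L ^ 2) = (x * Real.log L ^ 2) * r := by ring
      _ ≤ (20736 * s ^ 2 * (L / r) * T) * r := by gcongr
      _ = 20736 * s ^ 2 * L * tq r ^ 2 * tq m * tq h := by
          rw [hT]
          field_simp
  set N := (Finset.Ioc M (M + L)).filter (fun t => t.Prime ∧ t ≡ c [MOD r] ∧ h < m * t ∧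
      (m * t - h).Prime ∧ L ≤ 2 * t ∧ L ≤ 2 * (m * t - h)) with hN
  have hLr0 : (0 : ℝ) ≤ (L : ℝ) / r := by positivity
  rcases Nat.eq_zero_or_pos j with hj0 | hj0
  · apply hfin
    rw [hj0] at hlog3
    push_cast at hlog3
    have h1 : Real.log L ≤ 8 * s := by linarith
    have htriv : (N.card : ℝ) ≤ Y := by
      have h1 : N.card ≤ (Finset.Icc (M / r) (M / r + L / r + 1)).card := by
        apply card_le_card_of_injOn (fun q => q / r)
        · intro q hq
          rw [mem_coe, hN, mem_filter, mem_Ioc] at hq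
          rw [mem_coe, mem_Icc]
          refine ⟨Nat.div_le_div_right hq.1.1.le, ?_⟩
          refine (Nat.div_le_div_right hq.1.2).trans ?_
          apply Nat.le_of_lt_succ
          rw [Nat.div_lt_iff_lt_mul (by omega)]
          have h4 := Nat.div_add_mod M r
          have h5 := Nat.div_add_mod L r
          have h6 := Nat.mod_lt M (show 0 < r by omega)
          have h7 := Nat.mod_lt L (show 0 < r by omega)
          have h8 : (M / r + L / r + 1).succ * r = r * (M / r) + r * (L / r) + 2 * r := by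
            rw [Nat.succ_eq_add_one]; ring
          rw [h8]
          omega
        · intro q hq q' hq' he
          rw [mem_coe, hN, mem_filter] at hq hq'
          have h1 : q % r = q' % r := hq.2.2.1.trans hq'.2.2.1.symm
          simp only at he
          rw [← Nat.div_add_mod q r, ← Nat.div_add_mod q' r, he, h1]
      rw [Nat.card_Icc] at h1
      have h2 : M / r + L / r + 1 + 1 - M / r = Y := by
        rw [hY]
        generalize M / r = u
        generalize L / r = v
        omega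
      rw [h2] at h1
      exact_mod_cast h1
    calc (N.card : ℝ) * Real.log L ^ 2 ≤ (3 * ((L : ℝ) / r)) * (8 * (s : ℝ)) ^ 2 := by
          apply mul_le_mul (htriv.trans hYle) _ (by positivity) (by positivity)
          exact pow_le_pow_left₀ hlogL.le h1 2
      _ = 192 * (s : ℝ) ^ 2 * ((L : ℝ) / r) * 1 := by ring
      _ ≤ 20736 * (s : ℝ) ^ 2 * ((L : ℝ) / r) * T := by
          apply mul_le_mul _ hT1 zero_le_one (by positivity)
          apply mul_le_mul_of_nonneg_right _ hLr0
          nlinarith [sq_nonneg (s : ℝ)]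
  · apply hfin
    have hj1 : (1 : ℝ) ≤ j := by exact_mod_cast hj0
    have h0 : (2 ^ j) ^ s ≤ L / r + 2 := by
      rw [← pow_mul]
      refine le_trans (Nat.pow_le_pow_right (by norm_num) ?_) hpow
      nlinarith
    have hz : 2 * 2 ^ j < L := by
      have h1 : 2 ^ (4 * j) ≤ Y := by
        refine le_trans (Nat.pow_le_pow_right (by norm_num) ?_) hpow
        nlinarith
      have h2 : 2 ≤ 2 ^ j := by
        calc 2 = 2 ^ 1 := by norm_num
          _ ≤ 2 ^ j := Nat.pow_le_pow_right (by norm_num) hj0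
      have h3 : 2 ^ (4 * j) = 2 ^ j * (2 ^ j * (2 ^ j * 2 ^ j)) := by
        rw [show 4 * j = j + (j + (j + j)) by ring, pow_add, pow_add, pow_add]
      have h4 : 8 * 2 ^ j ≤ 2 ^ (4 * j) := by
        rw [h3]
        have h5 : 4 ≤ 2 ^ j * 2 ^ j := Nat.mul_le_mul h2 h2
        have h6 : 8 ≤ 2 ^ j * (2 ^ j * 2 ^ j) := Nat.mul_le_mul h2 h5
        calc 8 * 2 ^ j = 2 ^ j * 8 := by ring
          _ ≤ 2 ^ j * (2 ^ j * (2 ^ j * 2 ^ j)) := Nat.mul_le_mul_left _ h6
      omega
    have h1 := btj_sieve hG' r c M L m h j hr hm1 hh1 h0 hz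
    have h2 := V_pow j hj0
    have hV0 : 0 ≤ ∏ p ∈ pr (2 ^ j), (1 - 1 / (p : ℝ)) :=
      prod_nonneg fun p hp => (one_sub_pos (mem_pr.1 hp).2.two_le).le
    have hlog4 : Real.log L ≤ 16 * s * j := by
      have : (s : ℝ) ≤ s * j := by nlinarith
      nlinarith
    have hcardle : (N.card : ℝ) ≤ 81 * (L / r) * T / j ^ 2 := by
      refine h1.trans ?_
      calc 3 * ((L / r + 2 : ℕ) : ℝ) * (tq r ^ 2 * tq m * tq h *
            (∏ p ∈ pr (2 ^ j), (1 - 1 / (p : ℝ))) ^ 2)
          ≤ 3 * (3 * (L / r)) * (T * (3 / j) ^ 2) := by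
            gcongr
        _ = 81 * (L / r) * T / j ^ 2 := by
            field_simp
            ring
    calc (N.card : ℝ) * Real.log L ^ 2 ≤
          (81 * ((L : ℝ) / r) * T / (j : ℝ) ^ 2) * (16 * (s : ℝ) * j) ^ 2 := by
          apply mul_le_mul hcardle _ (by positivity) (by positivity)
          exact pow_le_pow_left₀ hlogL.le hlog4 2
      _ = 20736 * (s : ℝ) ^ 2 * ((L : ℝ) / r) * T := by
          field_simp
          ring

/-- average of `tq m / m` -/
theorem tq_sum : ∃ C : ℝ, 0 < C ∧ ∀ X : ℕ, 2 ≤ X →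
    ∑ m ∈ Finset.Icc 1 X, tq m / m ≤ C * Real.log X := by
  obtain ⟨C, hC, hA⟩ := Pool.Agent.PnMn.avgTotient 1
  have hA' : ∀ N : ℕ, ∑ j ∈ Finset.Icc 1 N, tq j ≤ C * N := by
    intro N
    have := hA N
    simp only [pow_one] at this
    exact this
  have hind : ∀ X : ℕ, 1 ≤ X → ∑ m ∈ Finset.Icc 1 X, tq m / m ≤
      (∑ m ∈ Finset.Icc 1 X, tq m) / X + C * ∑ m ∈ Finset.Icc 1 X, (1 : ℝ) / m := by
    intro X hX
    induction X, hX using Nat.le_induction with
    | base =>
      simp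
      exact hC.le
    | succ X hX ih =>
      rw [sum_Icc_succ_top (by omega), sum_Icc_succ_top (by omega), sum_Icc_succ_top (by omega)]
      have hX0 : (0 : ℝ) < X := by exact_mod_cast hX
      have h1 := hA' X
      set A := ∑ m ∈ Finset.Icc 1 X, tq m with hAd
      set H := ∑ m ∈ Finset.Icc 1 X, (1 : ℝ) / m with hH
      have h2 : A / X ≤ A / (X + 1) + C * (1 / (X + 1)) := by
        rw [div_le_iff₀ hX0]
        have h3 : (A / (X + 1) + C * (1 / (X + 1))) * X = (A * X + C * X) / (X + 1) := by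
          field_simp
        rw [h3, le_div_iff₀ (by positivity)]
        linarith
      push_cast
      have h3 : (A + tq (X + 1)) / ((X : ℝ) + 1) = A / (X + 1) + tq (X + 1) / (X + 1) := by
        rw [add_div]
      rw [h3, mul_add]
      linarith
  refine ⟨4 * C, by positivity, fun X hX => ?_⟩
  have h1 := hind X (by omega)
  have hX0 : (0 : ℝ) < X := by
    have : 0 < X := by omega
    exact_mod_cast this
  have h2 : (∑ m ∈ Finset.Icc 1 X, tq m) / X ≤ C := by
    rw [div_le_iff₀ hX0]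
    exact hA' X
  have h3 : ∑ m ∈ Finset.Icc 1 X, (1 : ℝ) / m ≤ 1 + Real.log X := by
    have h4 := harmonic_le_one_add_log X
    have h5 : ((harmonic X : ℚ) : ℝ) = ∑ m ∈ Finset.Icc 1 X, (1 : ℝ) / m := by
      rw [harmonic_eq_sum_Icc]
      push_cast
      simp [one_div]
    rw [h5] at h4
    exact h4
  have h4 : (0.69 : ℝ) ≤ Real.log X := by
    have h5 : Real.log 2 ≤ Real.log X := by
      apply Real.log_le_log (by norm_num)
      exact_mod_cast hX
    have := Real.log_two_gt_d9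
    linarith
  nlinarith

end Pool.Agent.HP
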