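import Pool.Agent.HP.MNL

/-! CEL (~120 lines): `Pf l θ` is bounded in terms of the first `E = ∑ l` digits of `θ ∈ [0,1)`. Let
`u = ⌊10^E θ⌋ < 10^E`. Block `i`: `{10^(ee l i) θ} ∈ [c/10^(l i), (c+1)/10^(l i))` with
`c = ⌊10^(ee l i + l i) θ⌋ mod 10^(l i) = blk (∑ j ∈ Iio i, l j) (l i) u` (as `E = ∑ Iio i + l i + ee l i`), so
`nr ≥ min(c, 10^(l i) - 1 - c)/10^(l i)` and `mn (10^(l i)) ≤ Gc (l i) c`.
`sumG`: `∑_{c<10^l} Gc l c ≤ 10^l (2 + ∑_{1≤c≤10^l/2} 1/c) ≤ 3 (l+1) 10^l`.
`prodG`: the blocks of `u < 10^(∑ l)` range over the full box (induction on `v`, or `dig_*` of DIG for the reversed `l`;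
only an equality of sums: `∑_{u<10^E} ∏ G_i(block i of u) = ∏ ∑_{c<10^(l i)} G_i c`). -/

set_option autoImplicit false

namespace Pool.Agent.HP

open Finset

private theorem celIio {v : ℕ} (l : Fin v → ℕ) (i : Fin v) :
    ∑ j ∈ Finset.Iio i, l j = ∑ j, if j < i then l j else 0 := by
  rw [← Finset.sum_filter]
  refine Finset.sum_congr ?_ fun _ _ => rfl
  ext x
  simp

private theorem celIoi {v : ℕ} (l : Fin v → ℕ) (i : Fin v) :
    ee l i = ∑ j, if i < j then l j else 0 := by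
  unfold ee
  rw [← Finset.sum_filter]
  refine Finset.sum_congr ?_ fun _ _ => rfl
  ext x
  simp

private theorem celSum {v : ℕ} (l : Fin v → ℕ) (i : Fin v) :
    ∑ j, l j = (∑ j ∈ Finset.Iio i, l j) + (l i + ee l i) := by
  have h : l i = ∑ j, if j = i then l j else 0 := by
    rw [Finset.sum_ite_eq']
    simp
  rw [celIio, celIoi]
  conv_rhs => rw [h]
  rw [← Finset.sum_add_distrib, ← Finset.sum_add_distrib]
  refine Finset.sum_congr rfl fun j _ => ?_
  rcases lt_trichotomy j i with h1 | h1 | h1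
  · simp [h1, ne_of_lt h1, not_lt_of_gt h1]
  · simp [h1]
  · simp [h1, ne_of_gt h1, not_lt_of_gt h1]

private theorem celStep (L : ℕ) (ψ : ℝ) (h0 : 0 ≤ ψ) :
    mn ((10 : ℝ) ^ L) ψ ≤ Gc L (⌊(10 : ℝ) ^ L * ψ⌋₊ % 10 ^ L) := by
  set N : ℕ := 10 ^ L with hN
  have hN1 : 1 ≤ N := Nat.one_le_pow _ _ (by norm_num)
  have hNr : ((10 : ℝ) ^ L) = (N : ℝ) := by rw [hN]; push_cast; rfl
  have hNp : (0 : ℝ) < N := by exact_mod_cast hN1
  -- the block
  set k : ℕ := ⌊ψ⌋₊ with hk
  have hfr : Int.fract ψ = ψ - k := by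
    rw [Int.fract, ← natCast_floor_eq_intCast_floor h0]
  have hfr0 := Int.fract_nonneg ψ
  have hfr1 := Int.fract_lt_one ψ
  set c : ℕ := ⌊(N : ℝ) * Int.fract ψ⌋₊ with hc
  have hc1 : (c : ℝ) ≤ N * Int.fract ψ := Nat.floor_le (by positivity)
  have hc2 : (N : ℝ) * Int.fract ψ < c + 1 := Nat.lt_floor_add_one _
  have hcN : c < N := by
    have : (c : ℝ) < N := lt_of_le_of_lt hc1 (by nlinarith)
    exact_mod_cast this
  have hfl : ⌊(N : ℝ) * ψ⌋₊ = c + N * k := by
    have : (N : ℝ) * ψ = N * Int.fract ψ + ((N * k : ℕ) : ℝ) := by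
      rw [hfr]; push_cast; ring
    rw [this, Nat.floor_add_natCast (by positivity)]
  have hmod : ⌊(N : ℝ) * ψ⌋₊ % N = c := by
    rw [hfl, Nat.add_mul_mod_self_left, Nat.mod_eq_of_lt hcN]
  rw [hNr, hmod]
  unfold Gc
  rw [← hN, hNr]
  split_ifs with h
  · exact mn_le hNp.le _
  · push Not at h
    obtain ⟨h1, h2⟩ := h
    have h3 : 1 ≤ min c (N - 1 - c) := by
      rw [le_min_iff]
      omega
    have h3' : (1 : ℝ) ≤ ((min c (N - 1 - c) : ℕ) : ℝ) := by exact_mod_cast h3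
    have h4 : ((min c (N - 1 - c) : ℕ) : ℝ) ≤ N * nr ψ := by
      rw [nr_fract]
      rcases le_total (Int.fract ψ) (1 - Int.fract ψ) with h5 | h5
      · rw [min_eq_left h5]
        have : ((min c (N - 1 - c) : ℕ) : ℝ) ≤ c := by exact_mod_cast min_le_left _ _
        linarith
      · rw [min_eq_right h5]
        have h6 : ((min c (N - 1 - c) : ℕ) : ℝ) ≤ ((N - 1 - c : ℕ) : ℝ) := by
          exact_mod_cast min_le_right _ _
        have h7 : ((N - 1 - c : ℕ) : ℝ) = N - 1 - c := by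
          rw [Nat.cast_sub (by omega), Nat.cast_sub (by omega)]
          simp
        rw [h7] at h6
        nlinarith
    have h8 : 0 < nr ψ := by
      by_contra h9
      push Not at h9
      have : (N : ℝ) * nr ψ ≤ 0 := by nlinarith
      linarith
    have h10 : mn (N : ℝ) ψ ≤ 1 / (2 * nr ψ) := by
      unfold mn
      rw [if_neg h8.ne']
      exact min_le_right _ _
    refine h10.trans ?_
    rw [div_le_div_iff₀ (by positivity) (by positivity)]
    nlinarith

theorem cell {v : ℕ} (l : Fin v → ℕ) (θ : ℝ) (h0 : 0 ≤ θ) (h1 : θ < 1) :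
    Pf l θ ≤ ∏ i, Gc (l i)
      (blk (∑ j ∈ Finset.Iio i, l j) (l i) ⌊(10 : ℝ) ^ (∑ i, l i) * θ⌋₊) := by
  unfold Pf
  refine Finset.prod_le_prod (fun i _ => mn_nonneg (by positivity) _) fun i _ => ?_
  refine (celStep (l i) ((10 : ℝ) ^ ee l i * θ) (by positivity)).trans (le_of_eq ?_)
  congr 1
  unfold blk
  congr 1
  rw [← Nat.floor_div_natCast]
  congr 1
  rw [celSum l i, pow_add, pow_add]
  push_cast
  field_simp

theorem sumG (l : ℕ) : ∑ c ∈ Finset.range (10 ^ l), Gc l c ≤ 3 * ((l : ℝ) + 1) * (10 : ℝ) ^ l := by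
  set N : ℕ := 10 ^ l with hN
  have hN1 : 1 ≤ N := Nat.one_le_pow _ _ (by norm_num)
  have hNr : ((10 : ℝ) ^ l) = (N : ℝ) := by rw [hN]; push_cast; rfl
  have hNp : (0 : ℝ) < N := by exact_mod_cast hN1
  have hb : ∀ c ∈ Finset.range N, Gc l c ≤ ((if c = 0 then (N : ℝ) else 0) +
      (if c = N - 1 then (N : ℝ) else 0)) + (N / 2 * (1 / (c : ℝ)) + N / 2 * (1 / ((N - 1 - c : ℕ) : ℝ))) := by
    intro c hc
    rw [Finset.mem_range] at hc
    have p1 : 0 ≤ (N : ℝ) / 2 * (1 / (c : ℝ)) := by positivity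
    have p2 : 0 ≤ (N : ℝ) / 2 * (1 / ((N - 1 - c : ℕ) : ℝ)) := by positivity
    have p3 : 0 ≤ (if c = 0 then (N : ℝ) else 0) := by split_ifs <;> positivity
    have p4 : 0 ≤ (if c = N - 1 then (N : ℝ) else 0) := by split_ifs <;> positivity
    unfold Gc
    rw [← hN, hNr]
    by_cases h : c = 0 ∨ c + 1 = N
    · rw [if_pos h]
      rcases h with h | h
      · rw [if_pos h] at p3 ⊢
        linarith
      · have h' : c = N - 1 := by omega
        rw [if_pos h'] at p4 ⊢
        linarith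
    · rw [if_neg h]
      push Not at h
      obtain ⟨q1, q2⟩ := h
      have q3 : 1 ≤ c := by omega
      have q4 : 1 ≤ N - 1 - c := by omega
      have q3' : (1 : ℝ) ≤ c := by exact_mod_cast q3
      have q4' : (1 : ℝ) ≤ ((N - 1 - c : ℕ) : ℝ) := by exact_mod_cast q4
      rcases le_total c (N - 1 - c) with r | r
      · rw [min_eq_left r]
        have : (N : ℝ) / (2 * (c : ℝ)) = N / 2 * (1 / (c : ℝ)) := by field_simp
        rw [this]
        linarith
      · rw [min_eq_right r]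
        have : (N : ℝ) / (2 * ((N - 1 - c : ℕ) : ℝ)) = N / 2 * (1 / ((N - 1 - c : ℕ) : ℝ)) := by
          field_simp
        rw [this]
        linarith
  refine (Finset.sum_le_sum hb).trans ?_
  rw [Finset.sum_add_distrib, Finset.sum_add_distrib, Finset.sum_add_distrib,
    Finset.sum_ite_eq', Finset.sum_ite_eq', if_pos (by rw [Finset.mem_range]; omega),
    if_pos (by rw [Finset.mem_range]; omega), ← Finset.mul_sum, ← Finset.mul_sum]
  have hrefl : ∑ c ∈ Finset.range N, (1 / ((N - 1 - c : ℕ) : ℝ)) = ∑ c ∈ Finset.range N, 1 / (c : ℝ) :=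
    Finset.sum_range_reflect (fun c => 1 / (c : ℝ)) N
  rw [hrefl]
  have hharm : ∑ c ∈ Finset.range N, 1 / (c : ℝ) ≤ 1 + 3 * (l : ℝ) := by
    have h1 : ∑ c ∈ Finset.range N, 1 / (c : ℝ) = ((harmonic (N - 1) : ℚ) : ℝ) := by
      obtain ⟨M, hM⟩ : ∃ M, N = M + 1 := ⟨N - 1, by omega⟩
      rw [hM, Finset.sum_range_succ']
      simp [harmonic]
    rw [h1]
    refine (harmonic_le_one_add_log (N - 1)).trans ?_
    have h2 : Real.log ((N - 1 : ℕ) : ℝ) ≤ Real.log N := by
      rcases Nat.eq_zero_or_pos (N - 1) with h3 | h3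
      · rw [h3]
        simp
        exact Real.log_nonneg (by exact_mod_cast hN1)
      · exact Real.log_le_log (by exact_mod_cast h3) (by exact_mod_cast Nat.sub_le _ _)
    have h3 : Real.log N = l * Real.log 10 := by
      rw [← hNr, Real.log_pow]
    have h4 : Real.log 10 ≤ 3 := by
      rw [Real.log_le_iff_le_exp (by norm_num)]
      have h5 := Real.exp_one_gt_d9
      have h6 : Real.exp 3 = (Real.exp 1) ^ 3 := by
        rw [← Real.exp_nat_mul]
        norm_num
      rw [h6]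
      have h7 : (2.7 : ℝ) ≤ Real.exp 1 := by linarith
      calc (10 : ℝ) ≤ 2.7 ^ 3 := by norm_num
        _ ≤ (Real.exp 1) ^ 3 := pow_le_pow_left₀ (by norm_num) h7 3
    have h5 : (l : ℝ) * Real.log 10 ≤ 3 * l := by
      have : (0 : ℝ) ≤ l := by positivity
      nlinarith
    linarith
  rw [hNr]
  nlinarith

theorem prodG {v : ℕ} (l : Fin v → ℕ) (G : Fin v → ℕ → ℝ) :
    ∑ u ∈ Finset.range (10 ^ (∑ i, l i)), ∏ i, G i (blk (∑ j ∈ Finset.Iio i, l j) (l i) u) =
      ∏ i, ∑ c ∈ Finset.range (10 ^ l i), G i c := by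
  induction v with
  | zero => simp
  | succ v ih =>
    have hS : ∑ i, l i = l 0 + ∑ i : Fin v, l i.succ := Fin.sum_univ_succ _
    rw [Fin.prod_univ_succ, ← ih (fun i => l i.succ) (fun i => G i.succ), Finset.sum_mul_sum,
      ← Finset.sum_product']
    have hp : 0 < 10 ^ l 0 := by positivity
    refine Finset.sum_nbij' (fun u => (u % 10 ^ l 0, u / 10 ^ l 0)) (fun x => x.1 + 10 ^ l 0 * x.2)
      ?_ ?_ ?_ ?_ ?_
    · intro u hu
      rw [Finset.mem_range, hS, pow_add] at hu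
      simp only [Finset.mem_product, Finset.mem_range]
      exact ⟨Nat.mod_lt _ hp, Nat.div_lt_of_lt_mul hu⟩
    · intro x hx
      simp only [Finset.mem_product, Finset.mem_range] at hx
      rw [Finset.mem_range, hS, pow_add]
      calc x.1 + 10 ^ l 0 * x.2 < 10 ^ l 0 + 10 ^ l 0 * x.2 := by omega
        _ = 10 ^ l 0 * (x.2 + 1) := by ring
        _ ≤ 10 ^ l 0 * 10 ^ (∑ i : Fin v, l i.succ) := Nat.mul_le_mul_left _ hx.2
    · intro u _
      exact Nat.mod_add_div u (10 ^ l 0)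
    · intro x hx
      simp only [Finset.mem_product, Finset.mem_range] at hx
      refine Prod.ext ?_ ?_
      · simp [Nat.add_mul_mod_self_left, Nat.mod_eq_of_lt hx.1]
      · simp [Nat.add_mul_div_left _ _ hp, Nat.div_eq_of_lt hx.1]
    · intro u _
      rw [Fin.prod_univ_succ]
      congr 1
      · have : ∑ j ∈ Finset.Iio (0 : Fin (v + 1)), l j = 0 := by
          rw [celIio]
          simp
        rw [this]
        simp [blk]
      · refine Finset.prod_congr rfl fun i _ => ?_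
        congr 1
        have : ∑ j ∈ Finset.Iio i.succ, l j = l 0 + ∑ j ∈ Finset.Iio i, l j.succ := by
          rw [celIio, celIio, Fin.sum_univ_succ]
          simp
        rw [this]
        unfold blk
        rw [pow_add, Nat.div_div_eq_div_mul]

end Pool.Agent.HP
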