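import Pool.Agent.HP.Defs

set_option autoImplicit false

/-!
# Home primes (MP_57b797_nt): working definitions of the second part (three steps)
-/

namespace Pool.Agent.HP

open Finset Nec92d717

/-- `n / φ(n)` -/
noncomputable def tq (n : ℕ) : ℝ := (n : ℝ) / (Nat.totient n : ℝ)

/-- the residue vectors sieved out in the second part: also `a ∏ x i = b` -/
def VB {v u : ℕ} (l : Fin v → ℕ) (A : ℕ) (c : Fin u → ℕ) (a b p : ℕ) (x : Fin v → ZMod p) : Prop :=
  VA l A c p x ∨ (a : ZMod p) * ∏ i, x i = (b : ZMod p)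

/-- the primes `q` with `λ` digits such that `m q` lies in `(X/2, X]` -/
def QS (X m lm : ℕ) : Finset ℕ :=
  (Finset.Icc 1 X).filter (fun q => q.Prime ∧ X < 2 * (m * q) ∧ m * q ≤ X ∧ dc q = lm)

open scoped Classical in
/-- the set estimated by the main lemma of the second part -/
noncomputable def SC {v : ℕ} (l : Fin v → ℕ) (A : ℕ) (δ : ℝ) (s t : Fin v → ℕ) (a b : ℕ) :
    Finset ℕ :=
  (win A (∑ i, l i)).filter (fun N =>
    (∀ i, (blk (ee l i) (l i) N).Prime ∧ 10 ^ (l i - 1) ≤ blk (ee l i) (l i) N ∧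
      s i ≤ blk (ee l i) (l i) N ∧ blk (ee l i) (l i) N < t i) ∧
    b + 10 ^ ((∑ i, l i) / 2) ≤ a * ∏ i, blk (ee l i) (l i) N ∧
    (a * ∏ i, blk (ee l i) (l i) N - b).Prime ∧
    (f N).Prime ∧ ((A : ℝ) + 1) * (10 : ℝ) ^ (δ * ((∑ i, l i : ℕ) : ℝ)) ≤ (gp N : ℝ))

/-- the grid on `[10^(l-1), 10^l)` with step `g`: left end of the cell number `j` -/
def gs (l g j : ℕ) : ℕ := min (10 ^ l) (10 ^ (l - 1) + j * g)

end Pool.Agent.HP
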