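import Pool.Agent.HP.SMP
import Pool.Agent.HP.DefsC

/-! SMQ (~80 lines): corollary of `smp` with `Z = X/m ≥ X^(3/4)` (natural division; `QS` is contained in the primes `≤ X/m`), `b = κ log X`,
`y = ⌊X^η⌋`, `η ≤ 1/16`, `η` small in terms of `ε κ`. -/

set_option autoImplicit false

namespace Pool.Agent.HP

open Finset

/-- `q ∈ QS X m lm` is a prime `≤ X / m`. -/
theorem smq_sub {X m lm : ℕ} (hm : 1 ≤ m) :
    QS X m lm ⊆ (Finset.Icc 1 (X / m)).filter Nat.Prime := by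
  intro q hq
  unfold QS at hq
  rw [Finset.mem_filter, Finset.mem_Icc] at hq
  obtain ⟨⟨h1, _⟩, h3, _, h5, _⟩ := hq
  rw [Finset.mem_filter, Finset.mem_Icc]
  refine ⟨⟨h1, ?_⟩, h3⟩
  rw [Nat.le_div_iff_mul_le (by omega), mul_comm]
  exact h5

theorem smq_gen (ε κ : ℝ) (hε : 0 < ε) (hκ : 0 < κ) : ∃ η₀ : ℝ, 0 < η₀ ∧ η₀ ≤ 1 / 16 ∧
    ∀ η : ℝ, 0 < η → η ≤ η₀ → ∃ X₀ : ℕ, ∀ X ≥ X₀,
    ∀ m lm h : ℕ, 1 ≤ m → (m : ℝ) ≤ (X : ℝ) ^ (1 / 4 : ℝ) →
    (((QS X m lm).filter (fun q => κ * Real.log X ≤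
      Real.log (sp ⌊(X : ℝ) ^ η⌋₊ (h + q)))).card : ℝ) ≤
      ε * (X / (m * Real.log X)) := by
  obtain ⟨C, hC, hsmp⟩ := smp
  refine ⟨min (1 / 16) (ε * κ / (8 * C)), lt_min (by norm_num) (by positivity), min_le_left _ _,
    fun η hη hηle => ?_⟩
  have hη1 : η ≤ 1 / 16 := hηle.trans (min_le_left _ _)
  have hη2 : η ≤ ε * κ / (8 * C) := hηle.trans (min_le_right _ _)
  obtain ⟨X₁, h1⟩ : ∃ X₁ : ℕ, ∀ X ≥ X₁, 2 * C / ε * Real.log X ≤ (X : ℝ) ^ (1 / 4 : ℝ) := by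
    have hlo := (isLittleO_log_rpow_atTop (by norm_num : (0 : ℝ) < 1 / 4)).def
      (c := ε / (2 * C)) (by positivity)
    have ht := (tendsto_natCast_atTop_atTop (R := ℝ)).eventually hlo
    obtain ⟨X₁, h⟩ := Filter.eventually_atTop.mp ht
    refine ⟨X₁, fun X hX => ?_⟩
    have h2 := h X hX
    rw [Real.norm_eq_abs, Real.norm_eq_abs, abs_of_nonneg (by positivity : 0 ≤ (X : ℝ) ^ (1 / 4 : ℝ))] at h2
    have h3 : Real.log X ≤ ε / (2 * C) * (X : ℝ) ^ (1 / 4 : ℝ) := (le_abs_self _).trans h2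
    calc 2 * C / ε * Real.log X ≤ 2 * C / ε * (ε / (2 * C) * (X : ℝ) ^ (1 / 4 : ℝ)) :=
          mul_le_mul_of_nonneg_left h3 (by positivity)
      _ = (X : ℝ) ^ (1 / 4 : ℝ) := by field_simp
  refine ⟨max (max X₁ 16) ⌈Real.exp (8 * C / (ε * κ))⌉₊, ?_⟩
  intro X hX m lm h hm hmX
  have hX1 : X₁ ≤ X := by refine le_trans ?_ hX; simp
  have hX2 : 16 ≤ X := by refine le_trans ?_ hX; simp
  have hX3 : ⌈Real.exp (8 * C / (ε * κ))⌉₊ ≤ X := by refine le_trans ?_ hX; simp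
  have hX2r : (16 : ℝ) ≤ X := by exact_mod_cast hX2
  have hXpos : (0 : ℝ) < X := by linarith
  have hXone : (1 : ℝ) ≤ X := by linarith
  have hL : 8 * C / (ε * κ) ≤ Real.log X := by
    rw [Real.le_log_iff_exp_le hXpos]
    exact (Nat.le_ceil _).trans (by exact_mod_cast hX3)
  have hLpos : 0 < Real.log X := lt_of_lt_of_le (by positivity) hL
  have hmpos : (0 : ℝ) < m := by exact_mod_cast hm
  set Z := X / m with hZ
  have hXq : (2 : ℝ) ≤ (X : ℝ) ^ (1 / 4 : ℝ) := by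
    calc (2 : ℝ) = (16 : ℝ) ^ (1 / 4 : ℝ) := by
          rw [show (16 : ℝ) = 2 ^ (4 : ℝ) by norm_num, ← Real.rpow_mul (by norm_num)]
          norm_num
      _ ≤ (X : ℝ) ^ (1 / 4 : ℝ) := Real.rpow_le_rpow (by norm_num) hX2r (by norm_num)
  have hXm : (X : ℝ) ^ (3 / 4 : ℝ) ≤ X / m := by
    rw [le_div_iff₀ hmpos]
    calc (X : ℝ) ^ (3 / 4 : ℝ) * m ≤ (X : ℝ) ^ (3 / 4 : ℝ) * (X : ℝ) ^ (1 / 4 : ℝ) :=
          mul_le_mul_of_nonneg_left hmX (by positivity)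
      _ = X := by rw [← Real.rpow_add hXpos]; norm_num
  have hX34 : (X : ℝ) ^ (3 / 4 : ℝ) = (X : ℝ) ^ (1 / 4 : ℝ) * (X : ℝ) ^ (1 / 2 : ℝ) := by
    rw [← Real.rpow_add hXpos]; norm_num
  have hX12 : (1 : ℝ) ≤ (X : ℝ) ^ (1 / 2 : ℝ) := Real.one_le_rpow hXone (by norm_num)
  have hX12' : (2 : ℝ) ≤ (X : ℝ) ^ (1 / 2 : ℝ) :=
    hXq.trans (Real.rpow_le_rpow_of_exponent_le hXone (by norm_num))
  have hZlow : (X : ℝ) ^ (1 / 2 : ℝ) ≤ Z := by
    have h2 : (X : ℝ) / m < Z + 1 := by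
      rw [div_lt_iff₀ hmpos]
      have h3 : X < m * (X / m + 1) := Nat.lt_mul_div_succ X (by omega)
      have h4 : (X : ℝ) < m * ((X / m : ℕ) + 1) := by exact_mod_cast h3
      rw [hZ]; linarith
    nlinarith
  have hZup : (Z : ℝ) ≤ X / m := by rw [hZ]; exact Nat.cast_div_le
  have hZ2 : 2 ≤ Z := by
    have : (2 : ℝ) ≤ Z := hX12'.trans hZlow
    exact_mod_cast this
  have hZpos : (0 : ℝ) < Z := by linarith
  have hlogZ : Real.log X / 2 ≤ Real.log Z := by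
    have := Real.log_le_log (by positivity) hZlow
    rw [Real.log_rpow hXpos] at this
    linarith
  have hlogZpos : 0 < Real.log Z := by linarith
  have hXη : (1 : ℝ) ≤ (X : ℝ) ^ η := Real.one_le_rpow hXone hη.le
  set y := ⌊(X : ℝ) ^ η⌋₊ with hy
  have hy1 : 1 ≤ y := by
    rw [hy, Nat.one_le_floor_iff]
    exact hXη
  have hyX : (y : ℝ) ≤ (X : ℝ) ^ η := Nat.floor_le (by positivity)
  have hlogy : Real.log y ≤ η * Real.log X := by
    rw [← Real.log_rpow hXpos]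
    exact Real.log_le_log (by exact_mod_cast hy1) hyX
  have hsub : (QS X m lm).filter (fun q => κ * Real.log X ≤ Real.log (sp y (h + q))) ⊆
      (Finset.Icc 1 Z).filter (fun q => q.Prime ∧ κ * Real.log X ≤ Real.log (sp y (h + q))) := by
    intro q hq
    rw [Finset.mem_filter] at hq
    have h2 := smq_sub hm hq.1
    rw [Finset.mem_filter] at h2 ⊢
    exact ⟨h2.1, h2.2, hq.2⟩
  have hb : 0 < κ * Real.log X := mul_pos hκ hLpos
  have hmain := hsmp Z y h hZ2 hy1 (κ * Real.log X) hb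
  set Q := (X : ℝ) / (m * Real.log X) with hQ
  have hQpos : 0 < Q := by rw [hQ]; positivity
  have hZQ : (Z : ℝ) / Real.log Z ≤ 2 * Q := by
    rw [div_le_iff₀ hlogZpos]
    calc (Z : ℝ) ≤ X / m := hZup
      _ = 2 * Q * (Real.log X / 2) := by rw [hQ]; field_simp
      _ ≤ 2 * Q * Real.log Z := mul_le_mul_of_nonneg_left hlogZ (by positivity)
  have hA : C * (Z / Real.log Z) * (1 + Real.log y) ≤ ε / 2 * Q * (κ * Real.log X) := by
    have hlogy0 : 0 ≤ Real.log y := Real.log_natCast_nonneg y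
    calc C * (Z / Real.log Z) * (1 + Real.log y) ≤ C * (2 * Q) * (1 + η * Real.log X) := by
          gcongr
      _ = Q * (2 * C + 2 * C * η * Real.log X) := by ring
      _ ≤ Q * (ε / 2 * (κ * Real.log X)) := by
          refine mul_le_mul_of_nonneg_left ?_ hQpos.le
          have h2 : 2 * C ≤ ε * κ * Real.log X / 4 := by
            rw [div_le_iff₀ (by positivity)] at hL
            linarith
          have h3 : 2 * C * η ≤ ε * κ / 4 := by
            calc 2 * C * η ≤ 2 * C * (ε * κ / (8 * C)) :=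
                  mul_le_mul_of_nonneg_left hη2 (by positivity)
              _ = ε * κ / 4 := by field_simp; norm_num
          have h4 : 2 * C * η * Real.log X ≤ ε * κ / 4 * Real.log X :=
            mul_le_mul_of_nonneg_right h3 hLpos.le
          linarith
      _ = _ := by ring
  have hB : C * (κ * Real.log X) * (y : ℝ) ^ 2 * Real.sqrt Z ≤ ε / 2 * Q * (κ * Real.log X) := by
    have hy2 : (y : ℝ) ^ 2 ≤ (X : ℝ) ^ (1 / 8 : ℝ) := by
      calc (y : ℝ) ^ 2 ≤ ((X : ℝ) ^ η) ^ 2 := pow_le_pow_left₀ (by positivity) hyX 2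
        _ = (X : ℝ) ^ (η * 2) := by
          rw [← Real.rpow_natCast, ← Real.rpow_mul hXpos.le]
          norm_num
        _ ≤ (X : ℝ) ^ (1 / 8 : ℝ) := Real.rpow_le_rpow_of_exponent_le hXone (by linarith)
    have hs1 : Real.sqrt Z ≤ Real.sqrt (X / m) := Real.sqrt_le_sqrt hZup
    have hs2 : (X : ℝ) ^ (3 / 8 : ℝ) ≤ Real.sqrt (X / m) := by
      apply Real.le_sqrt_of_sq_le
      calc ((X : ℝ) ^ (3 / 8 : ℝ)) ^ 2 = (X : ℝ) ^ (3 / 4 : ℝ) := by
            rw [← Real.rpow_natCast, ← Real.rpow_mul hXpos.le]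
            norm_num
        _ ≤ X / m := hXm
    have hs3 : Real.sqrt (X / m) * Real.sqrt (X / m) = X / m := Real.mul_self_sqrt (by positivity)
    have hs0 : 0 ≤ Real.sqrt ((X : ℝ) / m) := Real.sqrt_nonneg _
    have h2 := h1 X hX1
    have h3 : C * Real.log X ≤ ε / 2 * (X : ℝ) ^ (1 / 4 : ℝ) := by
      have : 2 * C / ε * Real.log X * (ε / 2) ≤ (X : ℝ) ^ (1 / 4 : ℝ) * (ε / 2) :=
        mul_le_mul_of_nonneg_right h2 (by positivity)
      calc C * Real.log X = 2 * C / ε * Real.log X * (ε / 2) := by field_simp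
        _ ≤ _ := this
        _ = _ := by ring
    have h4 : C * Real.log X * (X : ℝ) ^ (1 / 8 : ℝ) ≤ ε / 2 * Real.sqrt (X / m) := by
      calc C * Real.log X * (X : ℝ) ^ (1 / 8 : ℝ) ≤
          ε / 2 * (X : ℝ) ^ (1 / 4 : ℝ) * (X : ℝ) ^ (1 / 8 : ℝ) :=
            mul_le_mul_of_nonneg_right h3 (by positivity)
        _ = ε / 2 * (X : ℝ) ^ (3 / 8 : ℝ) := by
            rw [mul_assoc, ← Real.rpow_add hXpos]; norm_num
        _ ≤ _ := mul_le_mul_of_nonneg_left hs2 (by positivity)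
    calc C * (κ * Real.log X) * (y : ℝ) ^ 2 * Real.sqrt Z ≤
        C * (κ * Real.log X) * (X : ℝ) ^ (1 / 8 : ℝ) * Real.sqrt (X / m) := by
          gcongr
      _ = κ * (C * Real.log X * (X : ℝ) ^ (1 / 8 : ℝ)) * Real.sqrt (X / m) := by ring
      _ ≤ κ * (ε / 2 * Real.sqrt (X / m)) * Real.sqrt (X / m) := by
          gcongr
      _ = κ * (ε / 2) * (Real.sqrt (X / m) * Real.sqrt (X / m)) := by ring
      _ = ε / 2 * Q * (κ * Real.log X) := by rw [hs3, hQ]; field_simp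
  have hcard : (((QS X m lm).filter (fun q => κ * Real.log X ≤ Real.log (sp y (h + q)))).card : ℝ) ≤
      (((Finset.Icc 1 Z).filter (fun q => q.Prime ∧ κ * Real.log X ≤ Real.log (sp y (h + q)))).card : ℝ) := by
    exact_mod_cast Finset.card_le_card hsub
  have hfin : (((QS X m lm).filter (fun q => κ * Real.log X ≤ Real.log (sp y (h + q)))).card : ℝ) *
      (κ * Real.log X) ≤ ε * Q * (κ * Real.log X) := by
    calc _ ≤ (((Finset.Icc 1 Z).filter (fun q => q.Prime ∧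
          κ * Real.log X ≤ Real.log (sp y (h + q)))).card : ℝ) * (κ * Real.log X) :=
          mul_le_mul_of_nonneg_right hcard hb.le
      _ ≤ _ := hmain
      _ ≤ ε / 2 * Q * (κ * Real.log X) + ε / 2 * Q * (κ * Real.log X) := add_le_add hA hB
      _ = _ := by ring
  exact le_of_mul_le_mul_right hfin hb

theorem smq (ε κ : ℝ) (hε : 0 < ε) (hκ : 0 < κ) : ∃ η : ℝ, 0 < η ∧ η < κ ∧ ∃ X₀ : ℕ, ∀ X ≥ X₀,
    ∀ m lm h : ℕ, 1 ≤ m → (m : ℝ) ≤ (X : ℝ) ^ (1 / 4 : ℝ) →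
    (((QS X m lm).filter (fun q => (X : ℝ) ^ κ < (sp ⌊(X : ℝ) ^ η⌋₊ (h + q) : ℝ))).card : ℝ) ≤
      ε * (X / (m * Real.log X)) := by
  obtain ⟨η₀, hη₀, _, hgen⟩ := smq_gen ε κ hε hκ
  have hη : 0 < min η₀ (κ / 2) := lt_min hη₀ (by positivity)
  obtain ⟨X₀, hX₀⟩ := hgen (min η₀ (κ / 2)) hη (min_le_left _ _)
  refine ⟨min η₀ (κ / 2), hη, ?_, max X₀ 1, fun X hX m lm h hm hmX => ?_⟩
  · have := min_le_right η₀ (κ / 2)
    linarith
  · have hX1 : (1 : ℝ) ≤ X := by exact_mod_cast (le_max_right _ _).trans hX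
    have hXpos : (0 : ℝ) < X := by linarith
    refine le_trans ?_ (hX₀ X ((le_max_left _ _).trans hX) m lm h hm hmX)
    have : (QS X m lm).filter (fun q => (X : ℝ) ^ κ < (sp ⌊(X : ℝ) ^ (min η₀ (κ / 2))⌋₊ (h + q) : ℝ)) ⊆
        (QS X m lm).filter (fun q => κ * Real.log X ≤
          Real.log (sp ⌊(X : ℝ) ^ (min η₀ (κ / 2))⌋₊ (h + q))) := by
      intro q hq
      rw [Finset.mem_filter] at hq ⊢
      refine ⟨hq.1, ?_⟩
      rw [← Real.log_rpow hXpos]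
      exact Real.log_le_log (by positivity) hq.2.le
    exact_mod_cast Finset.card_le_card this

end Pool.Agent.HP
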