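import Pool.Agent.HP.LEW
import Pool.Agent.HP.SMQ

/-! SPS (~200 lines): `f (h + q)` has a large prime factor for almost all `q ∈ QS X m λ`, `h = f m * 10^λ`; same proof as SPR. `Z = X/m`,
`N₁ = h + q ≥ X^(1/2)`. Choose `τ ≤ 1/16` with `#{q : gp N₁ < X^τ} ≤ (ε/3) X/(m log X)` (`smp` with `y = ⌊X^τ⌋`, `b = (log X)/2`: for these `q`,
`sp y N₁ = N₁`). Let `κ₁ ≤ τ/16`. For the other `q` with `gp (f N₁) < X^κ₁`: for `p ≤ X^κ₁` let `k_p` be the largest `k` with
`p^(2k) ≤ X^(τ/2)`; (a) `p^(k_p) ∣ f N₁` for some `p`: `p^(k_p) ≥ X^(τ/8)`, by `lew` at most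
`X^κ₁ · C (X/(m log X)) K · 4 X^(-τ/8)`, negligible; (b) else `(log X)/2 ≤ log f N₁ = ∑_{p} ∑_{k < k_p, p^k ∣ f N₁} log p`, the sum over `q` is
`≤ C (X/(m log X)) K ∑_{p ≤ X^κ₁} ∑_k 4 log p/p^k ≤ C' K (X/(m log X)) (1 + κ₁ log X)`; `κ₁` small, `X` large. -/

set_option autoImplicit false

namespace Pool.Agent.HP

open Finset

/-- `N₁ = h + q ≥ X^(1/2)`. -/
private lemma sps_log {X m lm q h : ℕ} (hX : 16 ≤ X) (hm : 1 ≤ m)
    (hmX : (m : ℝ) ≤ (X : ℝ) ^ (1 / 4 : ℝ)) (hq : q ∈ QS X m lm) :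
    4 ≤ (X : ℝ) ^ (1 / 2 : ℝ) ∧ (X : ℝ) ^ (1 / 2 : ℝ) ≤ ((h + q : ℕ) : ℝ) ∧
      1 / 2 * Real.log X ≤ Real.log ((h + q : ℕ) : ℝ) := by
  have hXr : (16 : ℝ) ≤ X := by exact_mod_cast hX
  have hXpos : (0 : ℝ) < X := by linarith
  have hmpos : (0 : ℝ) < m := by exact_mod_cast hm
  have hXq : (2 : ℝ) ≤ (X : ℝ) ^ (1 / 4 : ℝ) := by
    calc (2 : ℝ) = (16 : ℝ) ^ (1 / 4 : ℝ) := by
          rw [show (16 : ℝ) = 2 ^ (4 : ℝ) by norm_num, ← Real.rpow_mul (by norm_num)]
          norm_num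
      _ ≤ (X : ℝ) ^ (1 / 4 : ℝ) := Real.rpow_le_rpow (by norm_num) hXr (by norm_num)
  have hX12 : (X : ℝ) ^ (1 / 2 : ℝ) = (X : ℝ) ^ (1 / 4 : ℝ) * (X : ℝ) ^ (1 / 4 : ℝ) := by
    rw [← Real.rpow_add hXpos]; norm_num
  have hXX : (X : ℝ) = (X : ℝ) ^ (1 / 2 : ℝ) * (X : ℝ) ^ (1 / 4 : ℝ) * (X : ℝ) ^ (1 / 4 : ℝ) := by
    rw [← Real.rpow_add hXpos, ← Real.rpow_add hXpos]; norm_num
  unfold QS at hq
  rw [Finset.mem_filter] at hq
  obtain ⟨_, _, h4, _, _⟩ := hq
  have h5 : (X : ℝ) < 2 * (m * q) := by exact_mod_cast h4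
  have hqpos : (0 : ℝ) ≤ q := Nat.cast_nonneg q
  have h4' : 4 ≤ (X : ℝ) ^ (1 / 2 : ℝ) := by rw [hX12]; nlinarith
  have hlow : (X : ℝ) ^ (1 / 2 : ℝ) ≤ ((h + q : ℕ) : ℝ) := by
    have h6 : (X : ℝ) ^ (1 / 2 : ℝ) ≤ q := by
      by_contra hcon
      push Not at hcon
      have h7 : (m : ℝ) * q ≤ (X : ℝ) ^ (1 / 4 : ℝ) * (X : ℝ) ^ (1 / 2 : ℝ) :=
        mul_le_mul hmX hcon.le hqpos (by positivity)
      have h8 : (0 : ℝ) < (X : ℝ) ^ (1 / 2 : ℝ) * (X : ℝ) ^ (1 / 4 : ℝ) := by positivity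
      nlinarith
    push_cast
    have : (0 : ℝ) ≤ h := Nat.cast_nonneg h
    linarith
  refine ⟨h4', hlow, ?_⟩
  rw [← Real.log_rpow hXpos]
  exact Real.log_le_log (by positivity) hlow

private lemma sps_one (ε : ℝ) (hε : 0 < ε) : ∃ τ : ℝ, 0 < τ ∧ τ ≤ 1 ∧ ∃ X₀ : ℕ, ∀ X ≥ X₀,
    ∀ m lm h : ℕ, 1 ≤ m → (m : ℝ) ≤ (X : ℝ) ^ (1 / 4 : ℝ) →
    (((QS X m lm).filter (fun q => (gp (h + q) : ℝ) < (X : ℝ) ^ τ)).card : ℝ) ≤
      ε * (X / (m * Real.log X)) := by
  obtain ⟨η₀, hη₀, hη₁, hgen⟩ := smq_gen ε (1 / 2) hε (by norm_num)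
  obtain ⟨X₀, hX₀⟩ := hgen η₀ hη₀ le_rfl
  refine ⟨η₀, hη₀, by linarith, max X₀ 16, fun X hX m lm h hm hmX => ?_⟩
  have hX16 : 16 ≤ X := (le_max_right _ _).trans hX
  refine le_trans ?_ (hX₀ X ((le_max_left _ _).trans hX) m lm h hm hmX)
  have hsub : (QS X m lm).filter (fun q => (gp (h + q) : ℝ) < (X : ℝ) ^ η₀) ⊆
      (QS X m lm).filter (fun q => 1 / 2 * Real.log X ≤
          Real.log (sp ⌊(X : ℝ) ^ η₀⌋₊ (h + q))) := by
    intro q hq
    rw [Finset.mem_filter] at hq ⊢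
    obtain ⟨hq1, hg⟩ := hq
    refine ⟨hq1, ?_⟩
    obtain ⟨h4, h5, h6⟩ := sps_log (h := h) hX16 hm hmX hq1
    have hn2 : 2 ≤ h + q := by
      have : (2 : ℝ) ≤ ((h + q : ℕ) : ℝ) := by linarith
      exact_mod_cast this
    have hsp : sp ⌊(X : ℝ) ^ η₀⌋₊ (h + q) = h + q := by
      unfold sp
      rw [List.filter_eq_self.mpr]
      · exact Nat.prod_primeFactorsList (by omega)
      · intro p hp
        have hp1 := Nat.prime_of_mem_primeFactorsList hp
        have hp2 := Nat.dvd_of_mem_primeFactorsList hp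
        have hp3 := (gp_spec hn2).2.2 p hp1 hp2
        have hp4 : (p : ℝ) ≤ (X : ℝ) ^ η₀ := by
          have : (p : ℝ) ≤ (gp (h + q) : ℝ) := by exact_mod_cast hp3
          linarith
        simpa using Nat.le_floor hp4
    rw [hsp]
    exact h6
  exact_mod_cast Finset.card_le_card hsub

/-- `∑_{1 ≤ k ≤ K} tq(p^k)²/p^k ≤ 4/(p-1)`. -/
private lemma sps_tq {p : ℕ} (hp : p.Prime) (k : ℕ) : tq (p ^ k) ≤ 2 := by
  have hp2 : (2 : ℝ) ≤ p := by exact_mod_cast hp.two_le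
  unfold tq
  rcases k with _ | k
  · simp
  · rw [Nat.totient_prime_pow_succ hp]
    push_cast [Nat.cast_sub hp.one_le]
    have h1 : (0 : ℝ) < (p : ℝ) ^ k := by positivity
    rw [div_le_iff₀ (by apply mul_pos h1; linarith), pow_succ]
    nlinarith

private lemma sps_tq_nonneg (n : ℕ) : 0 ≤ tq n := by
  unfold tq; positivity

private lemma sps_geo {p : ℕ} (hp : p.Prime) (K : ℕ) :
    ∑ k ∈ Finset.Icc 1 K, 1 / (p : ℝ) ^ k ≤ 1 / ((p : ℝ) - 1) := by
  have hp2 : (2 : ℝ) ≤ p := by exact_mod_cast hp.two_le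
  have hp1 : (0 : ℝ) < (p : ℝ) - 1 := by linarith
  have key : ∀ K : ℕ, ∑ k ∈ Finset.Icc 1 K, 1 / (p : ℝ) ^ k =
      (1 - 1 / (p : ℝ) ^ K) / ((p : ℝ) - 1) := by
    intro K
    induction K with
    | zero => simp
    | succ n ih =>
      rw [Finset.sum_Icc_succ_top (by omega), ih, pow_succ]
      field_simp
      ring
  rw [key]
  refine div_le_div_of_nonneg_right ?_ hp1.le
  have : 0 < 1 / (p : ℝ) ^ K := by positivity
  linarith

/-- the logarithm of an integer as a sum over the prime powers dividing it -/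
private lemma sps_logsum {N z : ℕ} (hN : 1 ≤ N) (K : ℕ → ℕ) (hz : ∀ p : ℕ, p.Prime → p ∣ N → p ≤ z)
    (hK : ∀ p : ℕ, p.Prime → p ≤ z → ¬ p ^ K p ∣ N) :
    Real.log N ≤ ∑ p ∈ (Finset.Icc 1 z).filter Nat.Prime, ∑ k ∈ Finset.Icc 1 (K p),
      (if p ^ k ∣ N then Real.log p else 0) := by
  have hN0 : N ≠ 0 := by omega
  have h1 : Real.log N = ∑ p ∈ N.primeFactors, (N.factorization p : ℝ) * Real.log p := by
    conv_lhs => rw [← Nat.factorization_prod_pow_eq_self hN0]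
    rw [Finsupp.prod, Nat.cast_prod, Real.log_prod]
    · refine Finset.sum_congr rfl fun p _ => ?_
      rw [Nat.cast_pow, Real.log_pow]
    · intro p hp
      have hp1 : p.Prime := Nat.prime_of_mem_primeFactors (by simpa using hp)
      exact_mod_cast (pow_pos hp1.pos _).ne'
  rw [h1]
  have h2 : N.primeFactors ⊆ (Finset.Icc 1 z).filter Nat.Prime := by
    intro p hp
    have hp1 := Nat.prime_of_mem_primeFactors hp
    rw [Finset.mem_filter, Finset.mem_Icc]
    exact ⟨⟨hp1.one_le, hz p hp1 (Nat.dvd_of_mem_primeFactors hp)⟩, hp1⟩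
  have h3 : ∀ p ∈ N.primeFactors, (N.factorization p : ℝ) * Real.log p ≤
      ∑ k ∈ Finset.Icc 1 (K p), (if p ^ k ∣ N then Real.log p else 0) := by
    intro p hp
    have hp1 := Nat.prime_of_mem_primeFactors hp
    have hlogp : 0 ≤ Real.log p := Real.log_natCast_nonneg p
    have hlt : N.factorization p < K p := by
      by_contra hc
      push Not at hc
      exact hK p hp1 (hz p hp1 (Nat.dvd_of_mem_primeFactors hp))
        ((hp1.pow_dvd_iff_le_factorization hN0).mpr hc)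
    have h4 : Finset.Icc 1 (N.factorization p) ⊆ Finset.Icc 1 (K p) :=
      Finset.Icc_subset_Icc_right hlt.le
    calc (N.factorization p : ℝ) * Real.log p
        = ∑ k ∈ Finset.Icc 1 (N.factorization p), Real.log p := by
          rw [Finset.sum_const, Nat.card_Icc, nsmul_eq_mul]
          simp
      _ = ∑ k ∈ Finset.Icc 1 (N.factorization p), (if p ^ k ∣ N then Real.log p else 0) := by
          refine Finset.sum_congr rfl fun k hk => ?_
          rw [if_pos ((hp1.pow_dvd_iff_le_factorization hN0).mpr (Finset.mem_Icc.mp hk).2)]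
      _ ≤ _ := Finset.sum_le_sum_of_subset_of_nonneg h4 fun k _ _ => by split_ifs <;> simp [hlogp]
  refine (Finset.sum_le_sum h3).trans ?_
  refine Finset.sum_le_sum_of_subset_of_nonneg h2 fun p _ _ => ?_
  refine Finset.sum_nonneg fun k _ => ?_
  split_ifs
  · exact Real.log_natCast_nonneg p
  · exact le_refl _

theorem sps (ε K : ℝ) (hε : 0 < ε) (hK : 0 < K) : ∃ κ : ℝ, 0 < κ ∧ κ ≤ 1 ∧ ∃ δ₀ : ℝ, 0 < δ₀ ∧
    ∃ X₀ : ℕ, ∀ X ≥ X₀, ∀ m lm : ℕ, 2 ≤ m → (m : ℝ) ≤ (X : ℝ) ^ δ₀ → tq (f m) ≤ K →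
    (((QS X m lm).filter (fun q => (gp (f (f m * 10 ^ lm + q)) : ℝ) < (X : ℝ) ^ κ)).card : ℝ) ≤
      ε * (X / (m * Real.log X)) := by
  obtain ⟨τ, hτ0, hτ1, X₁, h1⟩ := sps_one (ε / 3) (by positivity)
  obtain ⟨C₁, hC₁, X₂, h2⟩ := lew τ hτ0 hτ1
  obtain ⟨C, hC, h0⟩ := mkv0
  -- the constant in front
  set C₂ := C₁ * K * 4 with hC₂def
  have hC₂ : 0 < C₂ := by positivity
  set κ := min (τ / 16) (ε / (12 * C₂ * C)) with hκ
  have hκ0 : 0 < κ := lt_min (by positivity) (by positivity)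
  have hκ1 : κ ≤ τ / 16 := min_le_left _ _
  have hκ2 : κ ≤ ε / (12 * C₂ * C) := min_le_right _ _
  obtain ⟨X₃, h3⟩ : ∃ X₃ : ℕ, ∀ X ≥ X₃, 6 * C₂ / ε ≤ (X : ℝ) ^ (τ / 8) := by
    have ht : Filter.Tendsto (fun X : ℕ => (X : ℝ) ^ (τ / 8)) Filter.atTop Filter.atTop :=
      (tendsto_rpow_atTop (by positivity)).comp tendsto_natCast_atTop_atTop
    exact Filter.eventually_atTop.mp (ht.eventually_ge_atTop _)
  obtain ⟨X₄, h4⟩ : ∃ X₄ : ℕ, ∀ X ≥ X₄, 2 ≤ (X : ℝ) ^ (τ / 4) := by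
    have ht : Filter.Tendsto (fun X : ℕ => (X : ℝ) ^ (τ / 4)) Filter.atTop Filter.atTop :=
      (tendsto_rpow_atTop (by positivity)).comp tendsto_natCast_atTop_atTop
    exact Filter.eventually_atTop.mp (ht.eventually_ge_atTop _)
  refine ⟨κ, hκ0, by linarith, τ / 20, by positivity, max (max (max X₁ X₂) (max X₃ X₄))
    (max 16 ⌈Real.exp (12 * C₂ * C / ε)⌉₊), ?_⟩
  intro X hX m lm hm2 hmX htqK
  have hX1 : X₁ ≤ X := by
    refine le_trans ?_ hX; simp
  have hX2 : X₂ ≤ X := by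
    refine le_trans ?_ hX; simp
  have hX3 : X₃ ≤ X := by
    refine le_trans ?_ hX; simp
  have hX4 : X₄ ≤ X := by
    refine le_trans ?_ hX; simp
  have hX5 : 16 ≤ X := by
    refine le_trans ?_ hX; simp
  have hX6 : ⌈Real.exp (12 * C₂ * C / ε)⌉₊ ≤ X := by
    refine le_trans ?_ hX; simp
  have hX5r : (16 : ℝ) ≤ X := by exact_mod_cast hX5
  have hXpos : (0 : ℝ) < X := by linarith
  have hX1r : (1 : ℝ) ≤ X := by linarith
  have hm1 : 1 ≤ m := by omega
  have hmpos : (0 : ℝ) < m := by exact_mod_cast hm1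
  have hmX4 : (m : ℝ) ≤ (X : ℝ) ^ (1 / 4 : ℝ) :=
    hmX.trans (Real.rpow_le_rpow_of_exponent_le hX1r (by linarith))
  have hL : 12 * C₂ * C / ε ≤ Real.log X := by
    rw [Real.le_log_iff_exp_le hXpos]
    exact (Nat.le_ceil _).trans (by exact_mod_cast hX6)
  have hLpos : 0 < Real.log X := lt_of_lt_of_le (by positivity) hL
  set h := f m * 10 ^ lm with hh
  set Q := (X : ℝ) / (m * Real.log X) with hQ
  have hQpos : 0 < Q := by rw [hQ]; positivity
  -- parameters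
  set z := ⌊(X : ℝ) ^ κ⌋₊ with hz
  set t := ⌊(X : ℝ) ^ (τ / 4)⌋₊ with ht
  have hz1 : 1 ≤ z := by
    rw [hz, Nat.one_le_floor_iff]
    exact Real.one_le_rpow hX1r hκ0.le
  have hzX : (z : ℝ) ≤ (X : ℝ) ^ κ := Nat.floor_le (by positivity)
  have htX : (t : ℝ) ≤ (X : ℝ) ^ (τ / 4) := Nat.floor_le (by positivity)
  have htX2 : (X : ℝ) ^ (τ / 4) / 2 ≤ t := by
    have h5 := Nat.lt_floor_add_one ((X : ℝ) ^ (τ / 4))
    rw [← ht] at h5
    have h6 := h4 X hX4
    linarith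
  have hzt : z ≤ t := by
    rw [hz, ht]
    refine Nat.floor_le_floor ?_
    exact Real.rpow_le_rpow_of_exponent_le hX1r (by linarith)
  have ht1 : t ≠ 0 := by omega
  have htpos : (0 : ℝ) < t := by exact_mod_cast Nat.pos_of_ne_zero ht1
  set Kp : ℕ → ℕ := fun p => Nat.log p t with hKdef
  have hKle : ∀ p k : ℕ, k ≤ Kp p → p ^ k ≤ t := by
    intro p k hk
    exact Nat.pow_le_of_le_log ht1 hk
  have hlevel : ∀ p k : ℕ, k ≤ Kp p → (((p ^ k : ℕ) : ℝ)) ^ 2 ≤ (X : ℝ) ^ (τ / 2) := by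
    intro p k hk
    have h5 : ((p ^ k : ℕ) : ℝ) ≤ (X : ℝ) ^ (τ / 4) :=
      le_trans (by exact_mod_cast hKle p k hk) htX
    calc (((p ^ k : ℕ) : ℝ)) ^ 2 ≤ ((X : ℝ) ^ (τ / 4)) ^ 2 := pow_le_pow_left₀ (by positivity) h5 2
      _ = (X : ℝ) ^ (τ / 2) := by
        rw [← Real.rpow_natCast, ← Real.rpow_mul hXpos.le]
        congr 1
        push_cast
        ring
  -- the bound for prime powers
  have hlew : ∀ p k : ℕ, p.Prime → k ≤ Kp p →
      (((QS X m lm).filter (fun q => (X : ℝ) ^ τ ≤ (gp (h + q) : ℝ) ∧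
        p ^ k ∣ f (h + q))).card : ℝ) ≤ C₂ * Q / (p : ℝ) ^ k := by
    intro p k hp hk
    have h5 := h2 X hX2 m lm (p ^ k) hm2 hmX (Nat.one_le_pow _ _ hp.pos) (hlevel p k hk)
    refine h5.trans ?_
    have h6 := sps_tq hp k
    have h7 := sps_tq_nonneg (p ^ k)
    have h8 : tq (p ^ k) ^ 2 ≤ 4 := by nlinarith
    have h9 := sps_tq_nonneg (f m)
    have hpk : ((p ^ k : ℕ) : ℝ) = (p : ℝ) ^ k := by push_cast; rfl
    rw [hpk]
    refine div_le_div_of_nonneg_right ?_ (by positivity)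
    calc C₁ * (X / (m * Real.log X)) * tq (f m) * tq (p ^ k) ^ 2 ≤ C₁ * Q * K * 4 := by
          rw [← hQ]
          gcongr
      _ = C₂ * Q := by rw [hC₂def]; ring
  -- the three classes
  set G : Finset ℕ := (QS X m lm).filter (fun q => (X : ℝ) ^ τ ≤ (gp (h + q) : ℝ)) with hG
  set Sa : Finset ℕ := ((Finset.Icc 1 z).filter Nat.Prime).biUnion
    (fun p => (QS X m lm).filter (fun q => (X : ℝ) ^ τ ≤ (gp (h + q) : ℝ) ∧ p ^ Kp p ∣ f (h + q)))
    with hSa
  set Lf : ℕ → ℝ := fun q => ∑ p ∈ (Finset.Icc 1 z).filter Nat.Prime, ∑ k ∈ Finset.Icc 1 (Kp p),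
    (if p ^ k ∣ f (h + q) then Real.log p else 0) with hLf
  set Sb : Finset ℕ := G.filter (fun q => Real.log X / 2 ≤ Lf q) with hSb
  have hcover : (QS X m lm).filter (fun q => (gp (f (h + q)) : ℝ) < (X : ℝ) ^ κ) ⊆
      ((QS X m lm).filter (fun q => (gp (h + q) : ℝ) < (X : ℝ) ^ τ) ∪ Sa) ∪ Sb := by
    intro q hq
    rw [Finset.mem_filter] at hq
    obtain ⟨hq1, hg⟩ := hq
    obtain ⟨hl4, hl5, hl6⟩ := sps_log (h := h) hX5 hm1 hmX4 hq1
    have hn2' : 2 ≤ h + q := by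
      have : (2 : ℝ) ≤ ((h + q : ℕ) : ℝ) := by linarith
      exact_mod_cast this
    by_cases hA : (gp (h + q) : ℝ) < (X : ℝ) ^ τ
    · refine Finset.mem_union_left _ (Finset.mem_union_left _ ?_)
      rw [Finset.mem_filter]
      exact ⟨hq1, hA⟩
    push Not at hA
    by_cases hB : ∃ p ∈ (Finset.Icc 1 z).filter Nat.Prime, p ^ Kp p ∣ f (h + q)
    · refine Finset.mem_union_left _ (Finset.mem_union_right _ ?_)
      obtain ⟨p, hp, hpd⟩ := hB
      rw [hSa, Finset.mem_biUnion]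
      refine ⟨p, hp, ?_⟩
      rw [Finset.mem_filter]
      exact ⟨hq1, hA, hpd⟩
    · refine Finset.mem_union_right _ ?_
      push Not at hB
      have hfn : h + q ≤ f (h + q) := le_f hn2'
      have hf2 : 2 ≤ f (h + q) := hn2'.trans hfn
      rw [hSb, Finset.mem_filter, hG, Finset.mem_filter]
      refine ⟨⟨hq1, hA⟩, ?_⟩
      have h5 : Real.log (f (h + q)) ≤ Lf q := by
        refine sps_logsum (by omega) Kp ?_ ?_
        · intro p hp hpd
          have h6 := (gp_spec hf2).2.2 p hp hpd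
          have h7 : (p : ℝ) ≤ (X : ℝ) ^ κ := by
            have : (p : ℝ) ≤ (gp (f (h + q)) : ℝ) := by exact_mod_cast h6
            linarith
          exact Nat.le_floor h7
        · intro p hp hpz
          refine hB p ?_
          rw [Finset.mem_filter, Finset.mem_Icc]
          exact ⟨⟨hp.one_le, hpz⟩, hp⟩
      refine le_trans ?_ h5
      have h8 : Real.log ((h + q : ℕ) : ℝ) ≤ Real.log (f (h + q)) :=
        Real.log_le_log (by exact_mod_cast (by omega : 0 < h + q)) (by exact_mod_cast hfn)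
      linarith
  have hbA := h1 X hX1 m lm h hm1 hmX4
  rw [← hQ] at hbA
  -- class (a)
  have hbSa : (Sa.card : ℝ) ≤ ε / 3 * Q := by
    have h5 : ∀ p ∈ (Finset.Icc 1 z).filter Nat.Prime,
        (((QS X m lm).filter (fun q => (X : ℝ) ^ τ ≤ (gp (h + q) : ℝ) ∧
          p ^ Kp p ∣ f (h + q))).card : ℝ) ≤ C₂ * Q * z / t := by
      intro p hp
      rw [Finset.mem_filter, Finset.mem_Icc] at hp
      obtain ⟨⟨hp1, hpz⟩, hpp⟩ := hp
      have h6 := hlew p (Kp p) hpp le_rfl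
      refine h6.trans ?_
      have h7 : t < p ^ (Kp p + 1) := Nat.lt_pow_succ_log_self hpp.one_lt t
      have h9 : (t : ℝ) ≤ (p : ℝ) ^ Kp p * z := by
        have h10 : t ≤ p ^ Kp p * z := by
          rw [pow_succ] at h7
          exact h7.le.trans (Nat.mul_le_mul_left _ hpz)
        exact_mod_cast h10
      have hppos : (0 : ℝ) < (p : ℝ) ^ Kp p := by
        have : (0 : ℝ) < p := by exact_mod_cast hpp.pos
        positivity
      rw [div_le_div_iff₀ hppos htpos]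
      have h12 : 0 ≤ C₂ * Q := by positivity
      calc C₂ * Q * t ≤ C₂ * Q * ((p : ℝ) ^ Kp p * z) := mul_le_mul_of_nonneg_left h9 h12
        _ = _ := by ring
    have h13 : (Sa.card : ℝ) ≤ ∑ p ∈ (Finset.Icc 1 z).filter Nat.Prime,
        (((QS X m lm).filter (fun q => (X : ℝ) ^ τ ≤ (gp (h + q) : ℝ) ∧
          p ^ Kp p ∣ f (h + q))).card : ℝ) := by
      have := Finset.card_biUnion_le (s := (Finset.Icc 1 z).filter Nat.Prime)
        (t := fun p => (QS X m lm).filter (fun q => (X : ℝ) ^ τ ≤ (gp (h + q) : ℝ) ∧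
          p ^ Kp p ∣ f (h + q)))
      exact_mod_cast this
    refine h13.trans ((Finset.sum_le_sum h5).trans ?_)
    rw [Finset.sum_const, nsmul_eq_mul]
    have h14 : ((((Finset.Icc 1 z).filter Nat.Prime).card : ℕ) : ℝ) ≤ z := by
      have : ((Finset.Icc 1 z).filter Nat.Prime).card ≤ z := by
        refine (Finset.card_filter_le _ _).trans ?_
        simp
      exact_mod_cast this
    calc ((((Finset.Icc 1 z).filter Nat.Prime).card : ℕ) : ℝ) * (C₂ * Q * z / t)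
        ≤ z * (C₂ * Q * z / t) := mul_le_mul_of_nonneg_right h14 (by positivity)
      _ = C₂ * Q * (z ^ 2 / t) := by ring
      _ ≤ C₂ * Q * (2 * (X : ℝ) ^ (-(τ / 8))) := by
          refine mul_le_mul_of_nonneg_left ?_ (by positivity)
          have h15 : (z : ℝ) ^ 2 ≤ (X : ℝ) ^ (τ / 8) := by
            calc (z : ℝ) ^ 2 ≤ ((X : ℝ) ^ κ) ^ 2 := pow_le_pow_left₀ (by positivity) hzX 2
              _ = (X : ℝ) ^ (κ * 2) := by
                rw [← Real.rpow_natCast, ← Real.rpow_mul hXpos.le]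
                norm_num
              _ ≤ (X : ℝ) ^ (τ / 8) := Real.rpow_le_rpow_of_exponent_le hX1r (by linarith)
          rw [div_le_iff₀ htpos]
          have h16 : 0 < (X : ℝ) ^ (-(τ / 8)) := by positivity
          calc (z : ℝ) ^ 2 ≤ (X : ℝ) ^ (τ / 8) := h15
            _ = 2 * (X : ℝ) ^ (-(τ / 8)) * ((X : ℝ) ^ (τ / 4) / 2) := by
              have : (X : ℝ) ^ (τ / 8) = (X : ℝ) ^ (-(τ / 8)) * (X : ℝ) ^ (τ / 4) := by
                rw [← Real.rpow_add hXpos]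
                congr 1
                ring
              rw [this]
              ring
            _ ≤ 2 * (X : ℝ) ^ (-(τ / 8)) * t := mul_le_mul_of_nonneg_left htX2 (by positivity)
      _ = 2 * C₂ * Q / (X : ℝ) ^ (τ / 8) := by
          rw [Real.rpow_neg hXpos.le]
          ring
      _ ≤ ε / 3 * Q := by
          have h17 := h3 X hX3
          have h18 : (0 : ℝ) < (X : ℝ) ^ (τ / 8) := by positivity
          rw [div_le_iff₀ h18]
          rw [div_le_iff₀ hε] at h17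
          nlinarith
  -- class (b)
  have hbSb : (Sb.card : ℝ) ≤ ε / 3 * Q := by
    have h5 : (Sb.card : ℝ) * (Real.log X / 2) ≤ ∑ n ∈ G, Lf n := by
      have hLf0 : ∀ n, 0 ≤ Lf n := by
        intro n
        refine Finset.sum_nonneg fun p _ => Finset.sum_nonneg fun k _ => ?_
        split_ifs
        · exact Real.log_natCast_nonneg p
        · exact le_refl _
      calc (Sb.card : ℝ) * (Real.log X / 2) = ∑ n ∈ Sb, Real.log X / 2 := by
            rw [Finset.sum_const, nsmul_eq_mul]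
        _ ≤ ∑ n ∈ Sb, Lf n := Finset.sum_le_sum fun n hn => (Finset.mem_filter.mp hn).2
        _ ≤ ∑ n ∈ G, Lf n := Finset.sum_le_sum_of_subset_of_nonneg (Finset.filter_subset _ _)
            fun n _ _ => hLf0 n
    have h6 : ∑ n ∈ G, Lf n = ∑ p ∈ (Finset.Icc 1 z).filter Nat.Prime, ∑ k ∈ Finset.Icc 1 (Kp p),
        Real.log p * (((QS X m lm).filter (fun q => (X : ℝ) ^ τ ≤ (gp (h + q) : ℝ) ∧
          p ^ k ∣ f (h + q))).card : ℝ) := by
      rw [Finset.sum_comm]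
      refine Finset.sum_congr rfl fun p _ => ?_
      rw [Finset.sum_comm]
      refine Finset.sum_congr rfl fun k _ => ?_
      rw [← Finset.sum_filter, Finset.sum_const, nsmul_eq_mul, mul_comm, hG, Finset.filter_filter]
    have h7 : ∑ n ∈ G, Lf n ≤ C₂ * Q * (C * (1 + κ * Real.log X)) := by
      rw [h6]
      calc ∑ p ∈ (Finset.Icc 1 z).filter Nat.Prime, ∑ k ∈ Finset.Icc 1 (Kp p),
            Real.log p * (((QS X m lm).filter (fun q => (X : ℝ) ^ τ ≤ (gp (h + q) : ℝ) ∧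
              p ^ k ∣ f (h + q))).card : ℝ)
          ≤ ∑ p ∈ (Finset.Icc 1 z).filter Nat.Prime, ∑ k ∈ Finset.Icc 1 (Kp p),
            Real.log p * (C₂ * Q / (p : ℝ) ^ k) := by
            refine Finset.sum_le_sum fun p hp => Finset.sum_le_sum fun k hk => ?_
            have hpp := (Finset.mem_filter.mp hp).2
            refine mul_le_mul_of_nonneg_left ?_ (Real.log_natCast_nonneg p)
            exact hlew p k hpp (Finset.mem_Icc.mp hk).2
        _ = ∑ p ∈ (Finset.Icc 1 z).filter Nat.Prime, C₂ * Q * (Real.log p *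
            ∑ k ∈ Finset.Icc 1 (Kp p), 1 / (p : ℝ) ^ k) := by
            refine Finset.sum_congr rfl fun p _ => ?_
            rw [Finset.mul_sum, Finset.mul_sum]
            refine Finset.sum_congr rfl fun k _ => ?_
            ring
        _ ≤ ∑ p ∈ (Finset.Icc 1 z).filter Nat.Prime, C₂ * Q * (Real.log p * (1 / ((p : ℝ) - 1))) := by
            refine Finset.sum_le_sum fun p hp => ?_
            refine mul_le_mul_of_nonneg_left ?_ (by positivity)
            exact mul_le_mul_of_nonneg_left (sps_geo (Finset.mem_filter.mp hp).2 _)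
              (Real.log_natCast_nonneg p)
        _ = C₂ * Q * (∑ p ∈ (Finset.Icc 1 z).filter Nat.Prime, Real.log p / ((p : ℝ) - 1)) := by
            rw [Finset.mul_sum]
            refine Finset.sum_congr rfl fun p _ => ?_
            ring
        _ ≤ C₂ * Q * (C * (1 + Real.log z)) := by
            refine mul_le_mul_of_nonneg_left ?_ (by positivity)
            exact h0 z hz1
        _ ≤ C₂ * Q * (C * (1 + κ * Real.log X)) := by
            refine mul_le_mul_of_nonneg_left ?_ (by positivity)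
            refine mul_le_mul_of_nonneg_left ?_ hC.le
            have : Real.log z ≤ κ * Real.log X := by
              rw [← Real.log_rpow hXpos]
              exact Real.log_le_log (by exact_mod_cast hz1) hzX
            linarith
    have h8 : C₂ * (C * (1 + κ * Real.log X)) ≤ ε / 3 * (Real.log X / 2) := by
      have h9 : 12 * C₂ * C ≤ ε * Real.log X := by
        rw [div_le_iff₀ hε] at hL
        linarith
      have h10 : 12 * C₂ * C * κ ≤ ε := by
        rw [le_div_iff₀ (by positivity)] at hκ2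
        linarith
      have h11 : 12 * C₂ * C * κ * Real.log X ≤ ε * Real.log X :=
        mul_le_mul_of_nonneg_right h10 hLpos.le
      nlinarith
    have h12 : (Sb.card : ℝ) * (Real.log X / 2) ≤ ε / 3 * Q * (Real.log X / 2) := by
      refine h5.trans (h7.trans ?_)
      calc C₂ * Q * (C * (1 + κ * Real.log X)) = Q * (C₂ * (C * (1 + κ * Real.log X))) := by ring
        _ ≤ Q * (ε / 3 * (Real.log X / 2)) := mul_le_mul_of_nonneg_left h8 hQpos.le
        _ = _ := by ring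
    exact le_of_mul_le_mul_right h12 (by positivity)
  have hfin : (((QS X m lm).filter (fun q => (gp (f (h + q)) : ℝ) < (X : ℝ) ^ κ)).card : ℝ) ≤
      (((QS X m lm).filter (fun q => (gp (h + q) : ℝ) < (X : ℝ) ^ τ)).card : ℝ) + Sa.card + Sb.card := by
    have h5 := (Finset.card_le_card hcover).trans (Finset.card_union_le _ _)
    have h6 := Finset.card_union_le ((QS X m lm).filter (fun q => (gp (h + q) : ℝ) < (X : ℝ) ^ τ)) Sa
    have h7 : ((QS X m lm).filter (fun q => (gp (f (h + q)) : ℝ) < (X : ℝ) ^ κ)).card ≤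
      ((QS X m lm).filter (fun q => (gp (h + q) : ℝ) < (X : ℝ) ^ τ)).card + Sa.card + Sb.card := by
      omega
    exact_mod_cast h7
  linarith

end Pool.Agent.HP
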