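import Pool.Agent.HP.ASC
import Pool.Agent.HP.AVS
import Pool.Agent.HP.SMQ
import Pool.Agent.HP.SPS
import Pool.Agent.HP.BTJ
import Pool.Agent.HP.BTI
import Pool.Agent.HP.DEC

/-! CMA (~200 lines): almost all `n` with a very large prime factor do not reach a prime within three steps. Given `ε`, with a small `ε' = c ε`:
`K, M₀` from `avs ε'`; `κ₁, δ'` from `sps ε' K`; `κ < κ₁/6, 1/5`; `η` from `smq ε' κ`; for `1 ≤ v ≤ V = ⌈2/η⌉` `asc v` with `ε'/V`; `δ₀` the minimum of all the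
`δ`'s and `1/4`. Let `n ∈ (X/2, X]`, `q = gp n ≥ X^(1-δ₀)`, `m = n/q ≤ X^δ₀`, `lm = dc q`: `q ∈ QS X m lm`, `f n = f m * 10^lm + q =: N₁` (`f_gp`),
`f (f (f n)) = f (f N₁)`. `#QS X m lm ≤ C X/(m log X)` (`bti`, `r = 1`), and for given `m` at most 2 values of `lm` give a nonempty set.
(1) `m ≤ M₀ + 1`, or `tq (f m) > K`: `∑ 1/m` over these `m ≤ X^δ₀` is `≤ C'(M₀) + 3 ε' δ₀ log X` (dyadic blocks, `avs`), so the number of the `n` is
`≤ C ε' δ₀ X` for large `X`. (2) other `m`: `gp (f N₁) < X^κ₁` (`sps`); `sp y N₁ > X^κ` (`smq`); `N₁` prime (`btj` with `r = m = 1`,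
`t = N₁`: `≤ C X tq(h)/(m (log X)²)`, `tq h ≤ 4K`); otherwise `asc` with `1 ≤ v ≤ V` (`v ≥ 1` since `sp y N₁ ≤ X^κ < N₁`, `v ≤ V` since
`X^(ηv) ≤ N₁ ≤ X^(3/2)`). Each is `≤ ε' X/(m log X)`; `∑_{m ≤ X^δ₀} 1/m ≤ 1 + δ₀ log X`. -/

set_option autoImplicit false

namespace Pool.Agent.HP

open Finset

private theorem cma_t {X : ℕ} (hX : 16 ≤ X) : ∃ t : ℝ, t = (X : ℝ) ^ (1 / 4 : ℝ) ∧ 2 ≤ t ∧ t ^ 4 = X := by
  have hX0 : (0 : ℝ) < X := by exact_mod_cast (by omega : 0 < X)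
  refine ⟨(X : ℝ) ^ (1 / 4 : ℝ), rfl, ?_, ?_⟩
  · have h1 : (16 : ℝ) ≤ X := by exact_mod_cast hX
    have h2 : (16 : ℝ) ^ (1 / 4 : ℝ) = 2 := by
      rw [show (16 : ℝ) = 2 ^ (4 : ℝ) by norm_num, ← Real.rpow_mul (by norm_num)]
      norm_num
    rw [← h2]
    exact Real.rpow_le_rpow (by norm_num) h1 (by norm_num)
  · rw [← Real.rpow_natCast, ← Real.rpow_mul hX0.le]
    norm_num

private theorem cma_Z {X m : ℕ} (hX : 16 ≤ X) (hm : 1 ≤ m) (hmX : (m : ℝ) ≤ (X : ℝ) ^ (1 / 4 : ℝ)) :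
    4 ≤ X / m ∧ Real.log X ≤ 2 * Real.log ((X / m : ℕ) : ℝ) := by
  obtain ⟨t, ht, ht2, ht4⟩ := cma_t hX
  rw [← ht] at hmX
  have hm0 : (0 : ℝ) < m := by exact_mod_cast hm
  have h1 : (X : ℝ) < m * ((X / m : ℕ) + 1) := by
    have := Nat.lt_mul_div_succ X hm
    exact_mod_cast this
  have h2 : t ^ 3 < ((X / m : ℕ) : ℝ) + 1 := by
    rw [← ht4] at h1
    have h3 : t ^ 4 < t * (((X / m : ℕ) : ℝ) + 1) := by
      refine h1.trans_le ?_
      exact mul_le_mul_of_nonneg_right hmX (by positivity)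
    have h4 : t ^ 4 = t * t ^ 3 := by ring
    rw [h4] at h3
    exact lt_of_mul_lt_mul_left h3 (by linarith)
  have h3 : t ^ 2 + 4 ≤ t ^ 3 := by nlinarith [sq_nonneg (t - 2)]
  have h4 : t ^ 2 < ((X / m : ℕ) : ℝ) := by linarith
  have h5 : (4 : ℝ) ≤ ((X / m : ℕ) : ℝ) := by nlinarith
  refine ⟨by exact_mod_cast h5, ?_⟩
  have h6 : Real.log (t ^ 2) ≤ Real.log ((X / m : ℕ) : ℝ) :=
    Real.log_le_log (by positivity) h4.le
  rw [← ht4, Real.log_pow]
  rw [Real.log_pow] at h6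
  push_cast at h6 ⊢
  linarith

private theorem cma_QS_sub (X m lm : ℕ) (hm : 1 ≤ m) :
    QS X m lm ⊆ (Finset.Icc 1 (X / m)).filter (fun q => q.Prime ∧ q ≡ 0 [MOD 1]) := by
  intro q hq
  unfold QS at hq
  rw [mem_filter, mem_Icc] at hq
  rw [mem_filter, mem_Icc]
  refine ⟨⟨hq.1.1, ?_⟩, hq.2.1, Nat.modEq_one⟩
  rw [Nat.le_div_iff_mul_le hm, mul_comm]
  exact hq.2.2.2.1

private theorem cma_QS : ∃ C : ℝ, 0 < C ∧ ∀ X m lm : ℕ, 16 ≤ X → 1 ≤ m →
    (m : ℝ) ≤ (X : ℝ) ^ (1 / 4 : ℝ) →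
    ((QS X m lm).card : ℝ) ≤ C * (X / (m * Real.log X)) := by
  obtain ⟨C, hC, h⟩ := bti
  refine ⟨2 * C, by positivity, fun X m lm hX hm hmX => ?_⟩
  obtain ⟨h1, h2⟩ := cma_Z hX hm hmX
  have hm0 : (0 : ℝ) < m := by exact_mod_cast hm
  have hlX : 0 < Real.log X := Real.log_pos (by exact_mod_cast (by omega : 1 < X))
  have h3 : ((QS X m lm).card : ℝ) ≤ C * ((X / m : ℕ) : ℝ) / ((Nat.totient 1 : ℝ) *
      Real.log ((X / m : ℕ) : ℝ)) := by
    refine le_trans ?_ (h 1 0 (X / m) le_rfl (by omega) (by omega))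
    exact_mod_cast card_le_card (cma_QS_sub X m lm hm)
  rw [Nat.totient_one, Nat.cast_one, one_mul] at h3
  have h4 : 0 < Real.log ((X / m : ℕ) : ℝ) := by linarith
  have h5 : ((X / m : ℕ) : ℝ) ≤ X / m := Nat.cast_div_le
  calc ((QS X m lm).card : ℝ) ≤ C * ((X / m : ℕ) : ℝ) / Real.log ((X / m : ℕ) : ℝ) := h3
    _ ≤ C * (X / m) / Real.log ((X / m : ℕ) : ℝ) := by gcongr
    _ ≤ C * (X / m) / (Real.log X / 2) := by
        apply div_le_div_of_nonneg_left (by positivity) (by positivity)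
        linarith
    _ = 2 * C * (X / (m * Real.log X)) := by
        field_simp

private theorem cma_dc {X m lm q : ℕ} (hm : 1 ≤ m) (hZ : 1 ≤ X / m) (hq : q ∈ QS X m lm) :
    lm ∈ Finset.Icc (dc (X / m) - 1) (dc (X / m)) := by
  unfold QS at hq
  rw [mem_filter, mem_Icc] at hq
  obtain ⟨⟨hq1, -⟩, hqp, hq2, hq3, hq4⟩ := hq
  have h1 : q ≤ X / m := by
    rw [Nat.le_div_iff_mul_le hm, mul_comm]
    exact hq3
  have h2 : X / m < 2 * q := by
    rw [Nat.div_lt_iff_lt_mul hm]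
    have : 2 * (m * q) = 2 * q * m := by ring
    omega
  obtain ⟨a1, a2, a3⟩ := dc_spec hq1
  obtain ⟨b1, b2, b3⟩ := dc_spec hZ
  rw [hq4] at a1 a2 a3
  rw [mem_Icc]
  constructor
  · have h3 : 10 ^ (dc (X / m) - 1) < 10 ^ (lm + 1) := by
      have h4 : 10 ^ (lm + 1) = 10 * 10 ^ lm := by ring
      omega
    have h4 := (Nat.pow_lt_pow_iff_right (by norm_num : 1 < 10)).1 h3
    omega
  · have h3 : 10 ^ (lm - 1) < 10 ^ dc (X / m) := by omega
    have h4 := (Nat.pow_lt_pow_iff_right (by norm_num : 1 < 10)).1 h3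
    omega

private theorem cma_tq_mul {a b : ℕ} (ha : 1 ≤ a) (hb : 1 ≤ b) : tq (a * b) ≤ tq a * tq b := by
  unfold tq
  have h1 : 0 < Nat.totient a := Nat.totient_pos.2 ha
  have h2 : 0 < Nat.totient b := Nat.totient_pos.2 hb
  have h3 : ((Nat.totient a * Nat.totient b : ℕ) : ℝ) ≤ (Nat.totient (a * b) : ℝ) := by
    exact_mod_cast Nat.totient_super_multiplicative a b
  have h1' : (0 : ℝ) < Nat.totient a := by exact_mod_cast h1
  have h2' : (0 : ℝ) < Nat.totient b := by exact_mod_cast h2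
  rw [div_mul_div_comm]
  push_cast at h3 ⊢
  exact div_le_div_of_nonneg_left (by positivity) (by positivity) h3

private theorem cma_tq_pow {p : ℕ} (hp : p.Prime) (l : ℕ) : tq (p ^ l) ≤ p / (p - 1) := by
  have hp2 : (2 : ℝ) ≤ p := by exact_mod_cast hp.two_le
  cases l with
  | zero =>
    unfold tq
    rw [pow_zero, Nat.totient_one, Nat.cast_one, div_one, le_div_iff₀ (by linarith)]
    linarith
  | succ l =>
    unfold tq
    rw [Nat.totient_prime_pow_succ hp]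
    push_cast [Nat.cast_sub hp.one_le]
    have h0 : (0 : ℝ) < p := by linarith
    have h1 : (0 : ℝ) < (p : ℝ) - 1 := by linarith
    rw [pow_succ, mul_comm ((p : ℝ) ^ l) (p : ℝ), mul_comm ((p : ℝ) ^ l) ((p : ℝ) - 1),
      mul_div_mul_right _ _ (by positivity)]

private theorem cma_tq_ten (l : ℕ) : tq (10 ^ l) ≤ 5 / 2 := by
  have h1 : 10 ^ l = 2 ^ l * 5 ^ l := by
    rw [← mul_pow]
    norm_num
  rw [h1]
  refine (cma_tq_mul Nat.one_le_two_pow (Nat.one_le_pow _ _ (by norm_num))).trans ?_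
  have h2 := cma_tq_pow Nat.prime_two l
  have h3 := cma_tq_pow Nat.prime_five l
  have h4 : 0 ≤ tq (5 ^ l) := by unfold tq; positivity
  norm_num at h2 h3
  calc tq (2 ^ l) * tq (5 ^ l) ≤ 2 * (5 / 4) := mul_le_mul h2 h3 h4 (by norm_num)
    _ = 5 / 2 := by norm_num

/-- the number `N₁` is rarely prime -/
private theorem cma_pr (ε K : ℝ) (hε : 0 < ε) (hK : 0 < K) : ∃ X₀ : ℕ, ∀ X ≥ X₀, ∀ m lm : ℕ,
    2 ≤ m → (m : ℝ) ≤ (X : ℝ) ^ (1 / 4 : ℝ) → tq (f m) ≤ K →
    (((QS X m lm).filter (fun q => (f m * 10 ^ lm + q).Prime)).card : ℝ) ≤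
      ε * (X / (m * Real.log X)) := by
  obtain ⟨C, hC, hb⟩ := btj
  refine ⟨⌈Real.exp (10 * C * K / ε)⌉₊ + 16, fun X hX m lm hm hmX hmK => ?_⟩
  have hX16 : 16 ≤ X := by omega
  have hX0 : (0 : ℝ) < X := by exact_mod_cast (by omega : 0 < X)
  obtain ⟨hZ4, hZl⟩ := cma_Z hX16 (by omega) hmX
  have hm0 : (0 : ℝ) < m := by exact_mod_cast (by omega : 0 < m)
  have hlX0 : 0 < Real.log X := Real.log_pos (by exact_mod_cast (by omega : 1 < X))
  have hlX : 10 * C * K / ε ≤ Real.log X := by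
    rw [Real.le_log_iff_exp_le hX0]
    have h8 := Nat.le_ceil (Real.exp (10 * C * K / ε))
    have h9 : (⌈Real.exp (10 * C * K / ε)⌉₊ : ℝ) ≤ X := by
      exact_mod_cast (by omega : ⌈Real.exp (10 * C * K / ε)⌉₊ ≤ X)
    linarith
  have hfm : 1 ≤ f m := le_trans (by omega) (le_f hm)
  set h := f m * 10 ^ lm with hh
  have h10 : 1 ≤ 10 ^ lm := Nat.one_le_pow _ _ (by norm_num)
  have hh1 : 1 ≤ h := Nat.mul_pos hfm h10
  have h1 := hb 1 0 h (X / m) 1 h le_rfl (by omega) (by omega) le_rfl hh1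
  have htq : tq h ≤ K * (5 / 2) := by
    refine (cma_tq_mul hfm h10).trans ?_
    exact mul_le_mul hmK (cma_tq_ten lm) (by unfold tq; positivity) hK.le
  have htq1 : tq 1 = 1 := by unfold tq; simp
  have hcard : ((QS X m lm).filter (fun q => (h + q).Prime)).card ≤
      ((Finset.Ioc h (h + X / m)).filter (fun t => t.Prime ∧ t ≡ 0 [MOD 1] ∧ h < 1 * t ∧
      (1 * t - h).Prime ∧ X / m ≤ 2 * t ∧ X / m ≤ 2 * (1 * t - h))).card := by
    apply Finset.card_le_card_of_injOn (fun q => h + q)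
    · intro q hq
      rw [mem_coe, mem_filter] at hq
      obtain ⟨hq1, hq2⟩ := hq
      have hsub := cma_QS_sub X m lm (by omega) hq1
      unfold QS at hq1
      rw [mem_filter, mem_Icc] at hq1 hsub
      have h2 : X / m < 2 * q := by
        rw [Nat.div_lt_iff_lt_mul (by omega)]
        have : 2 * (m * q) = 2 * q * m := by ring
        omega
      rw [mem_coe, mem_filter, mem_Ioc]
      beta_reduce
      have h3 : 1 * (h + q) - h = q := by omega
      refine ⟨⟨by omega, by omega⟩, hq2, Nat.modEq_one, by omega, ?_, by omega, ?_⟩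
      · rw [h3]
        exact hq1.2.1
      · rw [h3]
        omega
    · intro q _ q' _ hqq
      simpa using hqq
  have h2 : (((QS X m lm).filter (fun q => (h + q).Prime)).card : ℝ) ≤
      C * ((X / m : ℕ) : ℝ) * tq 1 ^ 2 * tq 1 * tq h /
        ((1 : ℕ) * Real.log ((X / m : ℕ) : ℝ) ^ 2) := by
    refine le_trans ?_ h1
    exact_mod_cast hcard
  rw [htq1, one_pow, mul_one, mul_one, Nat.cast_one, one_mul] at h2
  have h5 : ((X / m : ℕ) : ℝ) ≤ X / m := Nat.cast_div_le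
  have hlZ : 0 < Real.log ((X / m : ℕ) : ℝ) := by linarith
  have htq0 : 0 ≤ tq h := by unfold tq; positivity
  calc (((QS X m lm).filter (fun q => (h + q).Prime)).card : ℝ)
      ≤ C * ((X / m : ℕ) : ℝ) * tq h / Real.log ((X / m : ℕ) : ℝ) ^ 2 := h2
    _ ≤ C * (X / m) * (K * (5 / 2)) / Real.log ((X / m : ℕ) : ℝ) ^ 2 := by gcongr
    _ ≤ C * (X / m) * (K * (5 / 2)) / (Real.log X / 2) ^ 2 := by
        apply div_le_div_of_nonneg_left (by positivity) (by positivity)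
        apply pow_le_pow_left₀ (by positivity)
        linarith
    _ = (10 * C * K / Real.log X) * (X / (m * Real.log X)) := by
        field_simp
        ring
    _ ≤ ε * (X / (m * Real.log X)) := by
        apply mul_le_mul_of_nonneg_right _ (by positivity)
        rw [div_le_iff₀ hlX0]
        rw [div_le_iff₀ hε] at hlX
        linarith

/-- the sum of `1/m` over the bad `m` -/
private theorem cma_dy (P : ℕ → Prop) [DecidablePred P] (ε : ℝ) (hε : 0 < ε) (M₀ : ℕ)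
    (h : ∀ M ≥ M₀, (((Finset.Ioc (M / 2) M).filter P).card : ℝ) ≤ ε * M) (Y : ℕ) (hY : 1 ≤ Y) :
    ∑ m ∈ (Finset.Ioc (M₀ + 1) Y).filter P, (1 / (m : ℝ)) ≤
      2 * ε * (Real.log Y / Real.log 2 + 1) := by
  have hl2 : 0 < Real.log 2 := Real.log_pos (by norm_num)
  induction Y using Nat.strong_induction_on with
  | _ Y ih =>
    have hlY : 0 ≤ Real.log Y := Real.log_natCast_nonneg Y
    by_cases hYM : Y ≤ M₀ + 1
    · rw [Finset.Ioc_eq_empty (by omega), Finset.filter_empty, Finset.sum_empty]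
      positivity
    · have hY2 : 2 ≤ Y := by omega
      have h1 := ih (Y / 2) (by omega) (by omega)
      have h2 := h Y (by omega)
      have hY0 : (0 : ℝ) < Y := by exact_mod_cast (by omega : 0 < Y)
      have h3 : (Finset.Ioc (M₀ + 1) Y).filter P ⊆
          (Finset.Ioc (M₀ + 1) (Y / 2)).filter P ∪ (Finset.Ioc (Y / 2) Y).filter P := by
        intro n hn
        rw [mem_filter, mem_Ioc] at hn
        rw [mem_union, mem_filter, mem_filter, mem_Ioc, mem_Ioc]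
        by_cases h4 : n ≤ Y / 2
        · exact Or.inl ⟨⟨hn.1.1, h4⟩, hn.2⟩
        · exact Or.inr ⟨⟨by omega, hn.1.2⟩, hn.2⟩
      have h4 : ∑ m ∈ (Finset.Ioc (M₀ + 1) Y).filter P, (1 / (m : ℝ)) ≤
          ∑ m ∈ (Finset.Ioc (M₀ + 1) (Y / 2)).filter P, (1 / (m : ℝ)) +
          ∑ m ∈ (Finset.Ioc (Y / 2) Y).filter P, (1 / (m : ℝ)) := by
        refine (Finset.sum_le_sum_of_subset_of_nonneg h3 (fun _ _ _ => by positivity)).trans ?_
        rw [← Finset.sum_union_inter]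
        exact le_add_of_nonneg_right (Finset.sum_nonneg fun _ _ => by positivity)
      have h5 : ∑ m ∈ (Finset.Ioc (Y / 2) Y).filter P, (1 / (m : ℝ)) ≤ 2 * ε := by
        calc _ ≤ ∑ m ∈ (Finset.Ioc (Y / 2) Y).filter P, (2 / (Y : ℝ)) := by
              apply Finset.sum_le_sum
              intro m hm
              rw [mem_filter, mem_Ioc] at hm
              have h6 : (Y : ℝ) ≤ 2 * m := by
                exact_mod_cast (by omega : Y ≤ 2 * m)
              have hm0 : (0 : ℝ) < m := by linarith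
              rw [div_le_div_iff₀ hm0 hY0]
              linarith
          _ = (((Finset.Ioc (Y / 2) Y).filter P).card : ℝ) * (2 / Y) := by
              rw [Finset.sum_const, nsmul_eq_mul]
          _ ≤ ε * Y * (2 / Y) := mul_le_mul_of_nonneg_right h2 (by positivity)
          _ = 2 * ε := by field_simp
      have h6 : Real.log ((Y / 2 : ℕ) : ℝ) ≤ Real.log Y - Real.log 2 := by
        rw [← Real.log_div hY0.ne' (by norm_num)]
        apply Real.log_le_log
        · exact_mod_cast (by omega : 0 < Y / 2)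
        · exact Nat.cast_div_le
      have h7 : Real.log ((Y / 2 : ℕ) : ℝ) / Real.log 2 ≤ Real.log Y / Real.log 2 - 1 := by
        rw [div_le_iff₀ hl2, sub_mul, div_mul_cancel₀ _ hl2.ne']
        linarith
      nlinarith

private theorem cma_har (Y : ℕ) : ∑ m ∈ Finset.Icc 1 Y, (1 / (m : ℝ)) ≤ 1 + Real.log Y := by
  have h := harmonic_le_one_add_log Y
  rw [harmonic_eq_sum_Icc] at h
  push_cast at h
  simpa [one_div] using h

private theorem cma_min (s : Finset ℕ) (g : ℕ → ℝ) (hg : ∀ v, 0 < g v) :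
    ∃ δ : ℝ, 0 < δ ∧ ∀ v ∈ s, δ ≤ g v := by
  induction s using Finset.induction_on with
  | empty => exact ⟨1, one_pos, by simp⟩
  | insert a s _ ih =>
    obtain ⟨δ, h1, h2⟩ := ih
    refine ⟨min δ (g a), lt_min h1 (hg a), fun v hv => ?_⟩
    rcases Finset.mem_insert.1 hv with rfl | hv
    · exact min_le_right _ _
    · exact (min_le_left _ _).trans (h2 v hv)

private theorem cma_prod {T : ℝ} (hT : 0 ≤ T) (L : List ℕ) (h : ∀ p ∈ L, T ≤ (p : ℝ)) :
    T ^ L.length ≤ (L.prod : ℝ) := by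
  induction L with
  | nil => simp
  | cons a L ih =>
    rw [List.length_cons, List.prod_cons, pow_succ, mul_comm]
    push_cast
    exact mul_le_mul (h a List.mem_cons_self) (by
      have := ih fun p hp => h p (List.mem_cons_of_mem a hp)
      exact_mod_cast this) (by positivity) (by positivity)

/-- the contribution of a good `m` -/
private theorem cma_good (ε K : ℝ) (hε : 0 < ε) (hK : 0 < K) : ∃ δ₀ : ℝ, 0 < δ₀ ∧ δ₀ ≤ 1 / 4 ∧
    ∃ X₀ : ℕ, ∀ X ≥ X₀, ∀ m lm : ℕ, 2 ≤ m → (m : ℝ) ≤ (X : ℝ) ^ δ₀ → tq (f m) ≤ K →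
    (((QS X m lm).filter (fun q => (f (f (f m * 10 ^ lm + q))).Prime)).card : ℝ) ≤
      ε * (X / (m * Real.log X)) := by
  classical
  obtain ⟨κ₁, hκ₁, hκ₁1, δs, hδs, X₁, h1⟩ := sps (ε / 4) K (by positivity) hK
  obtain ⟨κ, hκd⟩ : ∃ κ : ℝ, κ = min (κ₁ / 7) (1 / 6) := ⟨_, rfl⟩
  have hκ : 0 < κ := by rw [hκd]; positivity
  have hκ6 : κ ≤ 1 / 6 := by rw [hκd]; exact min_le_right _ _
  have hκ7 : κ ≤ κ₁ / 7 := by rw [hκd]; exact min_le_left _ _
  obtain ⟨η, hη, hηκ, X₂, h2⟩ := smq (ε / 4) κ (by positivity) hκ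
  obtain ⟨V, hVd⟩ : ∃ V : ℕ, V = ⌈3 / η⌉₊ := ⟨_, rfl⟩
  have hV : 1 ≤ V := by
    rw [hVd]
    exact Nat.ceil_pos.2 (by positivity)
  have hV0 : (0 : ℝ) < V := by exact_mod_cast hV
  have h3 : ∀ v : ℕ, ∃ δ : ℝ, 0 < δ ∧ ∃ X₀ : ℕ, 1 ≤ v → ∀ X ≥ X₀, ∀ m lm : ℕ, 2 ≤ m →
      (m : ℝ) ≤ (X : ℝ) ^ δ →
      (((QS X m lm).filter (fun q =>
      ((sp ⌊(X : ℝ) ^ η⌋₊ (f m * 10 ^ lm + q) : ℕ) : ℝ) ≤ (X : ℝ) ^ κ ∧
      (rl ⌊(X : ℝ) ^ η⌋₊ (f m * 10 ^ lm + q)).length = v ∧ ¬ (f m * 10 ^ lm + q).Prime ∧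
      (f (f (f m * 10 ^ lm + q))).Prime ∧
      (X : ℝ) ^ κ₁ ≤ (gp (f (f m * 10 ^ lm + q)) : ℝ))).card : ℝ) ≤
      ε / (4 * V) * (X / (m * Real.log X)) := by
    intro v
    by_cases hv : 1 ≤ v
    · obtain ⟨δ, hδ, X0, h⟩ := asc v hv η κ κ₁ (ε / (4 * V)) hη hκ (by linarith) hκ₁ (by linarith)
        hκ₁1 (by positivity)
      exact ⟨δ, hδ, X0, fun _ => h⟩
    · exact ⟨1, one_pos, 0, fun h => absurd h hv⟩
  choose D hD W hW using h3
  obtain ⟨X₃, h4⟩ := cma_pr (ε / 4) K (by positivity) hK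
  obtain ⟨δm, hδm, hδm'⟩ := cma_min (Finset.Icc 1 V) D hD
  obtain ⟨δ₀, hδd⟩ : ∃ δ₀ : ℝ, δ₀ = min (1 / 4) (min δs δm) := ⟨_, rfl⟩
  have hδ0 : 0 < δ₀ := by
    rw [hδd]
    exact lt_min (by norm_num) (lt_min hδs hδm)
  have hδ4 : δ₀ ≤ 1 / 4 := by rw [hδd]; exact min_le_left _ _
  have hδs' : δ₀ ≤ δs := by rw [hδd]; exact (min_le_right _ _).trans (min_le_left _ _)
  have hδm'' : δ₀ ≤ δm := by rw [hδd]; exact (min_le_right _ _).trans (min_le_right _ _)
  refine ⟨δ₀, hδ0, hδ4, X₁ + X₂ + X₃ + 16 + ∑ v ∈ Finset.Icc 1 V, W v,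
    fun X hX m lm hm hmX hmK => ?_⟩
  have hX16 : 16 ≤ X := by omega
  have hXr : (16 : ℝ) ≤ X := by exact_mod_cast hX16
  have hX0 : (0 : ℝ) < X := by linarith
  have hX1 : (1 : ℝ) < X := by linarith
  have hexp : ∀ δ : ℝ, δ₀ ≤ δ → (m : ℝ) ≤ (X : ℝ) ^ δ := fun δ hδ =>
    hmX.trans (Real.rpow_le_rpow_of_exponent_le hX1.le hδ)
  have hm4 := hexp (1 / 4) hδ4
  have hm0 : (0 : ℝ) < m := by exact_mod_cast (by omega : 0 < m)
  obtain ⟨t, ht, ht2, ht4⟩ := cma_t hX16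
  have hmt : (m : ℝ) ≤ t := by rw [ht]; exact hm4
  have hXκ : (X : ℝ) ^ κ ≤ t := by
    rw [ht]
    exact Real.rpow_le_rpow_of_exponent_le hX1.le (by linarith)
  have hfm1 : 1 ≤ f m := le_trans (by omega) (le_f hm)
  have hfm : (f m : ℝ) ≤ X := by
    have a1 := f_lt (n := m) (by omega)
    have a2 := lam_le (n := m) (by omega)
    have a3 : (f m : ℝ) ≤ (m : ℝ) ^ 4 := by exact_mod_cast (a1.le.trans a2)
    have a4 : (m : ℝ) ^ 4 ≤ t ^ 4 := pow_le_pow_left₀ hm0.le hmt 4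
    linarith
  set h := f m * 10 ^ lm with hh
  set y : ℕ := ⌊(X : ℝ) ^ η⌋₊ with hy
  set Q := QS X m lm with hQ
  set A1 := Q.filter (fun q => (gp (f (h + q)) : ℝ) < (X : ℝ) ^ κ₁) with hA1
  set A2 := Q.filter (fun q => (X : ℝ) ^ κ < (sp y (h + q) : ℝ)) with hA2
  set A3 := Q.filter (fun q => (h + q).Prime) with hA3
  set A4 : ℕ → Finset ℕ := fun v => Q.filter
    (fun q => ((sp y (h + q) : ℕ) : ℝ) ≤ (X : ℝ) ^ κ ∧
        (rl y (h + q)).length = v ∧ ¬ (h + q).Prime ∧ (f (f (h + q))).Prime ∧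
        (X : ℝ) ^ κ₁ ≤ (gp (f (h + q)) : ℝ)) with hA4
  have hsub : Q.filter (fun q => (f (f (h + q))).Prime) ⊆
      ((A1 ∪ A2) ∪ A3) ∪ (Finset.Icc 1 V).biUnion A4 := by
    intro q hq
    rw [mem_filter] at hq
    obtain ⟨hqQ, hqp⟩ := hq
    have hqQ' := hqQ
    rw [hQ] at hqQ'
    unfold QS at hqQ'
    rw [mem_filter, mem_Icc] at hqQ'
    obtain ⟨⟨hq1, hqX⟩, hqpr, hq2, hq3, hq4⟩ := hqQ'
    have hn1 : 1 ≤ h + q := by omega
    have hqt : t < q := by
      have a1 : t ^ 4 < 2 * (m * q) := by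
        rw [ht4]
        exact_mod_cast hq2
      have hq0 : (0 : ℝ) < q := by exact_mod_cast hq1
      have a2 : t ^ 4 < t * (2 * q) := by nlinarith [mul_le_mul_of_nonneg_right hmt hq0.le]
      have a3 : t ^ 4 = t * t ^ 3 := by ring
      rw [a3] at a2
      have a4 : t ^ 3 < 2 * q := lt_of_mul_lt_mul_left a2 (by linarith)
      nlinarith [sq_nonneg (t - 2)]
    have hnt : t < ((h + q : ℕ) : ℝ) := by
      push_cast
      have : (0 : ℝ) ≤ (h : ℝ) := Nat.cast_nonneg _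
      linarith
    have hnX : ((h + q : ℕ) : ℝ) ≤ (X : ℝ) ^ 3 := by
      have a1 : 10 ^ lm ≤ 10 * q := by
        obtain ⟨b1, -, b3⟩ := dc_spec hq1
        rw [hq4] at b1 b3
        calc 10 ^ lm = 10 * 10 ^ (lm - 1) := by
              rw [← pow_succ']
              congr 1
              omega
          _ ≤ 10 * q := by omega
      have a2 : ((10 ^ lm : ℕ) : ℝ) ≤ 10 * X := by
        exact_mod_cast (a1.trans (by omega) : 10 ^ lm ≤ 10 * X)
      have a3 : (q : ℝ) ≤ X := by exact_mod_cast hqX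
      rw [hh, Nat.cast_add, Nat.cast_mul]
      have a4 : (f m : ℝ) * ((10 ^ lm : ℕ) : ℝ) ≤ X * (10 * X) :=
        mul_le_mul hfm a2 (Nat.cast_nonneg _) hX0.le
      nlinarith [mul_pos hX0 hX0]
    by_cases c1 : (gp (f (h + q)) : ℝ) < (X : ℝ) ^ κ₁
    · refine mem_union_left _ (mem_union_left _ (mem_union_left _ ?_))
      rw [hA1, mem_filter]
      exact ⟨hqQ, c1⟩
    by_cases c2 : (X : ℝ) ^ κ < (sp y (h + q) : ℝ)
    · refine mem_union_left _ (mem_union_left _ (mem_union_right _ ?_))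
      rw [hA2, mem_filter]
      exact ⟨hqQ, c2⟩
    by_cases c3 : (h + q).Prime
    · refine mem_union_left _ (mem_union_right _ ?_)
      rw [hA3, mem_filter]
      exact ⟨hqQ, c3⟩
    refine mem_union_right _ ?_
    rw [mem_biUnion]
    rw [not_lt] at c1 c2
    refine ⟨(rl y (h + q)).length, ?_, ?_⟩
    · obtain ⟨h5, h6⟩ := dec_mul hn1 y
      rw [mem_Icc]
      constructor
      · by_contra h0
        have h7 : rl y (h + q) = [] := List.length_eq_zero_iff.1 (by omega)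
        rw [h7, List.prod_nil, mul_one] at h5
        rw [← h5] at c2
        linarith
      · have h7 : ((X : ℝ) ^ η) ^ (rl y (h + q)).length ≤ ((rl y (h + q)).prod : ℝ) := by
          apply cma_prod (by positivity)
          intro p hp
          unfold rl at hp
          rw [List.mem_filter] at hp
          have h8 : y < p := by simpa using hp.2
          rw [hy, Nat.floor_lt (by positivity)] at h8
          exact h8.le
        have h8 : ((rl y (h + q)).prod : ℝ) ≤ ((h + q : ℕ) : ℝ) := by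
          have : (rl y (h + q)).prod ≤ h + q := by
            conv_rhs => rw [h5]
            exact Nat.le_mul_of_pos_left _ h6
          exact_mod_cast this
        have h9 : (X : ℝ) ^ (η * (rl y (h + q)).length) ≤ (X : ℝ) ^ (3 : ℝ) := by
          rw [Real.rpow_mul hX0.le, Real.rpow_natCast]
          have : (X : ℝ) ^ (3 : ℝ) = (X : ℝ) ^ 3 := by
            rw [← Real.rpow_natCast]; norm_num
          rw [this]
          linarith
        rw [Real.rpow_le_rpow_left_iff hX1] at h9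
        have h10 : (((rl y (h + q)).length : ℕ) : ℝ) ≤ 3 / η := by
          rw [le_div_iff₀ hη]
          linarith
        have h11 := h10.trans (Nat.le_ceil (3 / η))
        rw [← hVd] at h11
        exact_mod_cast h11
    · rw [hA4, mem_filter]
      exact ⟨hqQ, c2, rfl, c3, hqp, c1⟩
  set w : ℝ := X / (m * Real.log X) with hw
  have hc1 : ((A1.card : ℕ) : ℝ) ≤ ε / 4 * w := h1 X (by omega) m lm hm (hexp δs hδs') hmK
  have hc2 : ((A2.card : ℕ) : ℝ) ≤ ε / 4 * w := h2 X (by omega) m lm h (by omega) hm4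
  have hc3 : ((A3.card : ℕ) : ℝ) ≤ ε / 4 * w := h4 X (by omega) m lm hm hm4 hmK
  have hc4 : ∀ v ∈ Finset.Icc 1 V, (((A4 v).card : ℕ) : ℝ) ≤ ε / (4 * V) * w := by
    intro v hv
    apply hW v (mem_Icc.1 hv).1 X _ m lm hm (hexp (D v) (hδm''.trans (hδm' v hv)))
    have h5 : W v ≤ ∑ v ∈ Finset.Icc 1 V, W v :=
      single_le_sum (f := W) (fun _ _ => Nat.zero_le _) hv
    omega
  have hc5 : ((((Finset.Icc 1 V).biUnion A4).card : ℕ) : ℝ) ≤ ε / 4 * w := by
    have h5 : ((((Finset.Icc 1 V).biUnion A4).card : ℕ) : ℝ) ≤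
        ∑ v ∈ Finset.Icc 1 V, (((A4 v).card : ℕ) : ℝ) := by
      exact_mod_cast card_biUnion_le
    refine h5.trans ((sum_le_sum hc4).trans ?_)
    rw [sum_const, Nat.card_Icc, Nat.add_sub_cancel, nsmul_eq_mul]
    apply le_of_eq
    field_simp
  have hcard := card_le_card hsub
  have hu1 := card_union_le ((A1 ∪ A2) ∪ A3) ((Finset.Icc 1 V).biUnion A4)
  have hu2 := card_union_le (A1 ∪ A2) A3
  have hu3 := card_union_le A1 A2
  have htot : ((Q.filter (fun q => (f (f (h + q))).Prime)).card : ℝ) ≤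
      (A1.card : ℝ) + A2.card + A3.card + ((Finset.Icc 1 V).biUnion A4).card := by
    have : (Q.filter (fun q => (f (f (h + q))).Prime)).card ≤
      A1.card + A2.card + A3.card + ((Finset.Icc 1 V).biUnion A4).card := by omega
    exact_mod_cast this
  linarith

/-- the numbers `n` in terms of the pairs `(m, q)` -/
private theorem cma_map (X : ℕ) (δ : ℝ) (hX : 16 ≤ X) (hδ : 0 < δ) (hδ4 : δ ≤ 1 / 4) :
    ((Finset.Ioc (X / 2) X).filter (fun n => (X : ℝ) ^ (1 - δ) ≤ (gp n : ℝ) ∧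
      (f (f (f n))).Prime)).card ≤
    ∑ m ∈ Finset.Icc 1 ⌊(X : ℝ) ^ δ⌋₊, ∑ lm ∈ Finset.Icc (dc (X / m) - 1) (dc (X / m)),
      ((QS X m lm).filter (fun q => (f (f (f m * 10 ^ lm + q))).Prime)).card := by
  classical
  have hX0 : (0 : ℝ) < X := by exact_mod_cast (by omega : 0 < X)
  have hX1 : (1 : ℝ) ≤ X := by exact_mod_cast (by omega : 1 ≤ X)
  have hsub : (Finset.Ioc (X / 2) X).filter (fun n => (X : ℝ) ^ (1 - δ) ≤ (gp n : ℝ) ∧
      (f (f (f n))).Prime) ⊆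
      (Finset.Icc 1 ⌊(X : ℝ) ^ δ⌋₊).biUnion fun m =>
        (Finset.Icc (dc (X / m) - 1) (dc (X / m))).biUnion fun lm =>
          ((QS X m lm).filter (fun q => (f (f (f m * 10 ^ lm + q))).Prime)).image
            (fun q => m * q) := by
    intro n hn
    rw [mem_filter, mem_Ioc] at hn
    obtain ⟨⟨hn1, hnX⟩, hgp, hfp⟩ := hn
    have hn2 : 2 ≤ n := by omega
    obtain ⟨hqp, hqn, -⟩ := gp_spec hn2
    set q := gp n with hq
    obtain ⟨m, hm⟩ := hqn
    have hq0 : 0 < q := hqp.pos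
    have hm1 : 1 ≤ m := by
      rcases Nat.eq_zero_or_pos m with h0 | h0
      · rw [h0, mul_zero] at hm
        omega
      · exact h0
    have hdiv : n / q = m := by
      rw [hm]
      exact Nat.mul_div_cancel_left m hq0
    have hfn : f n = f m * 10 ^ dc q + q := by
      have := f_gp hn2
      rw [← hq, hdiv] at this
      exact this
    have hmX : (m : ℝ) ≤ (X : ℝ) ^ δ := by
      have a1 : (q : ℝ) * m ≤ X := by
        exact_mod_cast (by omega : q * m ≤ X)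
      have a2 : (X : ℝ) ^ (1 - δ) * m ≤ (X : ℝ) ^ (1 - δ) * (X : ℝ) ^ δ := by
        rw [← Real.rpow_add hX0, sub_add_cancel, Real.rpow_one]
        exact (mul_le_mul_of_nonneg_right hgp (Nat.cast_nonneg _)).trans a1
      exact le_of_mul_le_mul_left a2 (by positivity)
    have hqQ : q ∈ QS X m (dc q) := by
      unfold QS
      rw [mem_filter, mem_Icc]
      have a1 : m * q = n := by rw [hm, mul_comm]
      refine ⟨⟨hq0, ?_⟩, hqp, ?_, ?_, rfl⟩
      · exact (Nat.le_mul_of_pos_left q hm1).trans (by omega)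
      · omega
      · omega
    have hm4 : (m : ℝ) ≤ (X : ℝ) ^ (1 / 4 : ℝ) :=
      hmX.trans (Real.rpow_le_rpow_of_exponent_le hX1 hδ4)
    have hZ := (cma_Z hX hm1 hm4).1
    rw [mem_biUnion]
    refine ⟨m, ?_, ?_⟩
    · rw [mem_Icc]
      exact ⟨hm1, Nat.le_floor hmX⟩
    · rw [mem_biUnion]
      refine ⟨dc q, cma_dc hm1 (by omega) hqQ, ?_⟩
      rw [mem_image]
      refine ⟨q, ?_, by rw [hm, mul_comm]⟩
      rw [mem_filter]
      refine ⟨hqQ, ?_⟩
      rw [← hfn]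
      exact hfp
  refine (card_le_card hsub).trans (card_biUnion_le.trans ?_)
  apply Finset.sum_le_sum
  intro m _
  refine card_biUnion_le.trans ?_
  apply Finset.sum_le_sum
  intro lm _
  exact card_image_le

theorem cma (ε : ℝ) (hε : 0 < ε) : ∃ δ₀ : ℝ, 0 < δ₀ ∧ δ₀ ≤ 1 / 4 ∧ ∃ X₀ : ℕ, ∀ X ≥ X₀,
    (((Finset.Ioc (X / 2) X).filter (fun n => (X : ℝ) ^ (1 - δ₀) ≤ (gp n : ℝ) ∧
      (f (f (f n))).Prime)).card : ℝ) ≤ ε * δ₀ * X := by
  classical
  obtain ⟨CA, hCA, hQS⟩ := cma_QS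
  set ε₂ : ℝ := ε / (32 * CA) with hε₂
  have hε₂0 : 0 < ε₂ := by positivity
  obtain ⟨K, hK, M₀, havs⟩ := avs ε₂ hε₂0
  obtain ⟨δ₀, hδ0, hδ4, X₁, hgood⟩ := cma_good (ε / 8) K (by positivity) hK
  set B : ℝ := ε / 4 + 2 * CA * ((M₀ : ℝ) + 1 + 2 * ε₂) with hB
  have hB0 : 0 < B := by positivity
  refine ⟨δ₀, hδ0, hδ4, X₁ + 16 + ⌈Real.exp (2 * B / (ε * δ₀))⌉₊, fun X hX => ?_⟩
  have hX16 : 16 ≤ X := by omega
  have hX0 : (0 : ℝ) < X := by exact_mod_cast (by omega : 0 < X)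
  have hX1 : (1 : ℝ) ≤ X := by exact_mod_cast (by omega : 1 ≤ X)
  have hl0 : 0 < Real.log X := Real.log_pos (by exact_mod_cast (by omega : 1 < X))
  have hlB : 2 * B / (ε * δ₀) ≤ Real.log X := by
    rw [Real.le_log_iff_exp_le hX0]
    have h8 := Nat.le_ceil (Real.exp (2 * B / (ε * δ₀)))
    have h9 : (⌈Real.exp (2 * B / (ε * δ₀))⌉₊ : ℝ) ≤ X := by
      exact_mod_cast (by omega : ⌈Real.exp (2 * B / (ε * δ₀))⌉₊ ≤ X)
    linarith
  have hXδ1 : (1 : ℝ) ≤ (X : ℝ) ^ δ₀ := Real.one_le_rpow hX1 hδ0.le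
  set Y : ℕ := ⌊(X : ℝ) ^ δ₀⌋₊ with hY
  have hY1 : 1 ≤ Y := Nat.le_floor (by exact_mod_cast hXδ1)
  have hYX : (Y : ℝ) ≤ (X : ℝ) ^ δ₀ := Nat.floor_le (by positivity)
  have hY0 : (0 : ℝ) < Y := by exact_mod_cast hY1
  have hlY : Real.log Y ≤ δ₀ * Real.log X := by
    rw [← Real.log_rpow hX0]
    exact Real.log_le_log hY0 hYX
  have hlY0 : 0 ≤ Real.log Y := Real.log_natCast_nonneg Y
  -- the bound for one `m`
  set bad : ℕ → Prop := fun m => m ≤ M₀ + 1 ∨ K < tq (f m) with hbad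
  have hone : ∀ m ∈ Finset.Icc 1 Y, ((∑ lm ∈ Finset.Icc (dc (X / m) - 1) (dc (X / m)),
      ((QS X m lm).filter (fun q => (f (f (f m * 10 ^ lm + q))).Prime)).card : ℕ) : ℝ) ≤
      2 * (X / Real.log X) * (ε / 8 * (1 / (m : ℝ)) + if bad m then CA * (1 / (m : ℝ)) else 0) := by
    intro m hm
    rw [mem_Icc] at hm
    have hmX : (m : ℝ) ≤ (X : ℝ) ^ δ₀ := le_trans (by exact_mod_cast hm.2) hYX
    have hm4 : (m : ℝ) ≤ (X : ℝ) ^ (1 / 4 : ℝ) :=
      hmX.trans (Real.rpow_le_rpow_of_exponent_le hX1 hδ4)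
    have hm0 : (0 : ℝ) < m := by exact_mod_cast hm.1
    have hZ := (cma_Z hX16 hm.1 hm4).1
    obtain ⟨-, -, hd⟩ := dc_spec (n := X / m) (by omega)
    have hcardJ : (Finset.Icc (dc (X / m) - 1) (dc (X / m))).card = 2 := by
      rw [Nat.card_Icc]
      omega
    have hw : (X : ℝ) / (m * Real.log X) = X / Real.log X * (1 / (m : ℝ)) := by
      field_simp
    have hbound : ∀ lm, (((QS X m lm).filter
        (fun q => (f (f (f m * 10 ^ lm + q))).Prime)).card : ℝ) ≤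
        (X / Real.log X) * (ε / 8 * (1 / (m : ℝ)) + if bad m then CA * (1 / (m : ℝ)) else 0) := by
      intro lm
      by_cases hb : bad m
      · rw [if_pos hb]
        have a1 := hQS X m lm hX16 hm.1 hm4
        have a2 : (((QS X m lm).filter
          (fun q => (f (f (f m * 10 ^ lm + q))).Prime)).card : ℝ) ≤ ((QS X m lm).card : ℝ) := by
          exact_mod_cast card_filter_le _ _
        rw [hw] at a1
        have a3 : 0 ≤ X / Real.log X * (ε / 8 * (1 / (m : ℝ))) := by positivity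
        calc _ ≤ CA * (X / Real.log X * (1 / (m : ℝ))) := a2.trans a1
          _ ≤ _ := by
            rw [mul_add]
            have a4 : CA * (X / Real.log X * (1 / (m : ℝ))) =
              X / Real.log X * (CA * (1 / (m : ℝ))) := by ring
            linarith
      · rw [if_neg hb, add_zero]
        rw [hbad] at hb
        simp only [not_or, not_le, not_lt] at hb
        have a1 := hgood X (by omega) m lm (by omega) hmX hb.2
        rw [hw] at a1
        refine a1.trans (le_of_eq ?_)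
        ring
    push_cast
    calc _ ≤ ∑ lm ∈ Finset.Icc (dc (X / m) - 1) (dc (X / m)),
        (X / Real.log X) * (ε / 8 * (1 / (m : ℝ)) + if bad m then CA * (1 / (m : ℝ)) else 0) :=
          Finset.sum_le_sum fun lm _ => hbound lm
      _ = _ := by
          rw [Finset.sum_const, hcardJ, nsmul_eq_mul]
          push_cast
          ring
  -- the sum over the bad `m`
  have hbadsum : ∑ m ∈ Finset.Icc 1 Y, (if bad m then CA * (1 / (m : ℝ)) else 0) ≤
      CA * (((M₀ : ℝ) + 1) + 2 * ε₂ * (Real.log Y / Real.log 2 + 1)) := by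
    have a1 : ∀ m ∈ Finset.Icc 1 Y, (if bad m then CA * (1 / (m : ℝ)) else 0) ≤
        CA * ((if m ≤ M₀ + 1 then 1 else 0) +
          (if M₀ + 1 < m ∧ K < tq (f m) then 1 / (m : ℝ) else 0)) := by
      intro m hm
      rw [mem_Icc] at hm
      have hm1 : (1 : ℝ) ≤ m := by exact_mod_cast hm.1
      have hm2 : 1 / (m : ℝ) ≤ 1 := by
        rw [div_le_one (by linarith)]
        exact hm1
      by_cases c1 : m ≤ M₀ + 1
      · have hb : bad m := Or.inl c1
        rw [if_pos hb, if_pos c1, if_neg (fun h => by omega), add_zero, mul_one]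
        nlinarith
      · by_cases c2 : K < tq (f m)
        · have hb : bad m := Or.inr c2
          rw [if_pos hb, if_neg c1, if_pos ⟨by omega, c2⟩, zero_add]
        · have hb : ¬ bad m := fun h => h.elim c1 c2
          rw [if_neg hb, if_neg c1, if_neg (fun h => c2 h.2)]
          simp
    refine (Finset.sum_le_sum a1).trans ?_
    rw [← Finset.mul_sum, Finset.sum_add_distrib]
    apply mul_le_mul_of_nonneg_left _ hCA.le
    apply add_le_add
    · rw [Finset.sum_boole]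
      have a2 : (Finset.Icc 1 Y).filter (fun m => m ≤ M₀ + 1) ⊆ Finset.Icc 1 (M₀ + 1) := by
        intro m hm
        rw [mem_filter, mem_Icc] at hm
        rw [mem_Icc]
        exact ⟨hm.1.1, hm.2⟩
      have a3 := card_le_card a2
      rw [Nat.card_Icc, Nat.add_sub_cancel] at a3
      exact_mod_cast a3
    · rw [← Finset.sum_filter]
      have a2 := cma_dy (fun m => K < tq (f m)) ε₂ hε₂0 M₀ (fun M hM => by
        refine le_trans (le_of_eq ?_) (havs M hM)
        congr 2) Y hY1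
      refine le_trans (Finset.sum_le_sum_of_subset_of_nonneg ?_ (fun _ _ _ => by positivity)) a2
      intro m hm
      rw [mem_filter, mem_Icc] at hm
      rw [mem_filter, mem_Ioc]
      exact ⟨⟨hm.2.1, hm.1.2⟩, hm.2.2⟩
  have hl2 : (1 / 2 : ℝ) ≤ Real.log 2 := by
    have := Real.log_two_gt_d9
    linarith
  have hbad2 : Real.log Y / Real.log 2 ≤ 2 * (δ₀ * Real.log X) := by
    rw [div_le_iff₀ (by linarith)]
    have a1 : 0 ≤ δ₀ * Real.log X := by positivity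
    nlinarith
  have hmap : (((Finset.Ioc (X / 2) X).filter (fun n => (X : ℝ) ^ (1 - δ₀) ≤ (gp n : ℝ) ∧
      (f (f (f n))).Prime)).card : ℝ) ≤
      ∑ m ∈ Finset.Icc 1 Y, ((∑ lm ∈ Finset.Icc (dc (X / m) - 1) (dc (X / m)),
      ((QS X m lm).filter (fun q => (f (f (f m * 10 ^ lm + q))).Prime)).card : ℕ) : ℝ) := by
    have := cma_map X δ₀ hX16 hδ0 hδ4
    rw [← Nat.cast_sum]
    exact_mod_cast this
  refine hmap.trans ((Finset.sum_le_sum hone).trans ?_)
  rw [← Finset.mul_sum, Finset.sum_add_distrib, ← Finset.mul_sum]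
  have hhar := cma_har Y
  set S1 := ∑ m ∈ Finset.Icc 1 Y, (1 / (m : ℝ)) with hS1
  set S2 := ∑ m ∈ Finset.Icc 1 Y, (if bad m then CA * (1 / (m : ℝ)) else 0) with hS2
  have b1 : S1 ≤ 1 + δ₀ * Real.log X := by linarith
  have b2 : S2 ≤ CA * (((M₀ : ℝ) + 1) + 2 * ε₂ * (2 * (δ₀ * Real.log X) + 1)) := by
    refine hbadsum.trans ?_
    gcongr
  have b3 : CA * ε₂ = ε / 32 := by
    rw [hε₂]
    field_simp
  have b4 : ε / 8 * S1 + S2 ≤ B / 2 + ε / 4 * (δ₀ * Real.log X) := by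
    have c1 : ε / 8 * S1 ≤ ε / 8 * (1 + δ₀ * Real.log X) :=
      mul_le_mul_of_nonneg_left b1 (by positivity)
    have c2 : CA * (((M₀ : ℝ) + 1) + 2 * ε₂ * (2 * (δ₀ * Real.log X) + 1)) =
        CA * ((M₀ : ℝ) + 1) + 2 * (CA * ε₂) + 4 * (CA * ε₂) * (δ₀ * Real.log X) := by ring
    rw [c2, b3] at b2
    have c3 : B / 2 = ε / 8 + CA * ((M₀ : ℝ) + 1) + 2 * (CA * ε₂) := by
      rw [hB]; ring
    rw [c3, b3]
    linarith
  have b5 : B ≤ ε * δ₀ / 2 * Real.log X := by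
    rw [div_le_iff₀ (by positivity)] at hlB
    linarith
  calc 2 * (X / Real.log X) * (ε / 8 * S1 + S2)
      ≤ 2 * (X / Real.log X) * (B / 2 + ε / 4 * (δ₀ * Real.log X)) :=
        mul_le_mul_of_nonneg_left b4 (by positivity)
    _ = X / Real.log X * (B + ε / 2 * (δ₀ * Real.log X)) := by ring
    _ ≤ X / Real.log X * (ε * δ₀ * Real.log X) := by
        apply mul_le_mul_of_nonneg_left _ (by positivity)
        linarith
    _ = ε * δ₀ * X := by
        field_simp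

end Pool.Agent.HP
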