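import Pool.Agent.HP.Defs

/-! CRT (~80 lines): Chinese remainder theorem for residue vectors, `d` squarefree. Induction on the primes of `d`
(`Nat.recOnPosPrimePosCoprime`-like or `Finset` induction): for coprime `a, b` the residue vectors modulo `ab` correspond to
pairs (`Nat.chineseRemainder`, `ZMod.chineseRemainder`), coordinatewise. -/

set_option autoImplicit false

namespace Pool.Agent.HP

open Finset

open scoped Classical in
theorem crt {v : ℕ} (V : (p : ℕ) → (Fin v → ZMod p) → Prop) (d : ℕ) (hd : Squarefree d) :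
    ((Fintype.piFinset (fun _ : Fin v => Finset.range d)).filter
      (fun r => ∀ p ∈ d.primeFactors, V p (fun i => (r i : ZMod p)))).card =
      ∏ p ∈ d.primeFactors, cV V p := by
  unfold cV
  rw [← Finset.card_pi]
  have hprod : ∏ p ∈ d.primeFactors, p = d := Nat.prod_primeFactors_of_squarefree hd
  have hmod : ∀ (p : ℕ) (r : Fin v → ℕ),
      (fun i => (((r i % p : ℕ)) : ZMod p)) = fun i => ((r i : ℕ) : ZMod p) := by
    intro p r
    funext i
    exact ZMod.natCast_mod (r i) p
  refine Finset.card_bij (fun r _ => fun p _ => fun i => r i % p) ?_ ?_ ?_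
  · intro r hr
    rw [Finset.mem_filter, Fintype.mem_piFinset] at hr
    rw [Finset.mem_pi]
    intro p hp
    have hpp := Nat.prime_of_mem_primeFactors hp
    rw [Finset.mem_filter, Fintype.mem_piFinset]
    refine ⟨fun i => Finset.mem_range.2 (Nat.mod_lt _ hpp.pos), ?_⟩
    rw [hmod]
    exact hr.2 p hp
  · intro r hr r' hr' heq
    rw [Finset.mem_filter, Fintype.mem_piFinset] at hr hr'
    funext i
    have h1 : ∀ p ∈ d.primeFactors, r i ≡ r' i [MOD p] := by
      intro p hp
      exact congrFun (congrFun (congrFun heq p) hp) i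
    have h2 : ∏ p ∈ d.primeFactors, p ∣ ((r' i : ℤ) - (r i : ℤ)).natAbs := by
      refine Finset.prod_primes_dvd _ (fun p hp => (Nat.prime_of_mem_primeFactors hp).prime) ?_
      intro p hp
      exact Int.natCast_dvd.1 (Nat.modEq_iff_dvd.1 (h1 p hp))
    rw [hprod] at h2
    have h3 : r i ≡ r' i [MOD d] := Nat.modEq_iff_dvd.2 (Int.natCast_dvd.2 h2)
    exact Nat.ModEq.eq_of_lt_of_lt h3 (Finset.mem_range.1 (hr.1 i)) (Finset.mem_range.1 (hr'.1 i))
  · intro y hy
    rw [Finset.mem_pi] at hy
    have hs : ∀ p ∈ d.primeFactors, (fun p : ℕ => p) p ≠ 0 := fun p hp =>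
      (Nat.prime_of_mem_primeFactors hp).ne_zero
    have pp : Set.Pairwise (d.primeFactors : Set ℕ) (Function.onFun Nat.Coprime (fun p : ℕ => p)) := by
      intro p hp q hq hpq
      exact (Nat.coprime_primes (Nat.prime_of_mem_primeFactors hp)
        (Nat.prime_of_mem_primeFactors hq)).2 hpq
    set r : Fin v → ℕ := fun i => (Nat.chineseRemainderOfFinset
      (fun p => if hp : p ∈ d.primeFactors then y p hp i else 0) (fun p : ℕ => p)
      d.primeFactors hs pp : ℕ) with hr
    have hrmod : ∀ p (hp : p ∈ d.primeFactors) (i : Fin v), r i % p = y p hp i := by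
      intro p hp i
      have h1 := (Nat.chineseRemainderOfFinset
        (fun p => if hp : p ∈ d.primeFactors then y p hp i else 0) (fun p : ℕ => p)
        d.primeFactors hs pp).2 p hp
      simp only [hp, dif_pos] at h1
      have h2 := hy p hp
      rw [Finset.mem_filter, Fintype.mem_piFinset] at h2
      have h3 : r i % p = y p hp i % p := h1
      rw [h3]
      exact Nat.mod_eq_of_lt (Finset.mem_range.1 (h2.1 i))
    have heq : (fun p (_ : p ∈ d.primeFactors) => fun i => r i % p) = y := by
      funext p hp i
      exact hrmod p hp i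
    refine ⟨r, ?_, heq⟩
    rw [Finset.mem_filter, Fintype.mem_piFinset]
    refine ⟨fun i => ?_, fun p hp => ?_⟩
    · rw [Finset.mem_range]
      have h1 := Nat.chineseRemainderOfFinset_lt_prod
        (fun p => if hp : p ∈ d.primeFactors then y p hp i else 0) (fun p : ℕ => p)
        hs pp
      rw [hprod] at h1
      exact h1
    · have h2 := hy p hp
      rw [Finset.mem_filter] at h2
      have h3 := h2.2
      have h4 : (fun i => ((y p hp i : ℕ) : ZMod p)) = fun i => ((r i : ℕ) : ZMod p) := by
        rw [← hmod p r]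
        funext i
        rw [hrmod p hp i]
      rw [← h4]
      exact h3

end Pool.Agent.HP
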