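import Pool.Agent.HP.LEV
import Pool.Agent.HP.MKV

/-! SPR: `f n` has a large prime factor for almost all `n`.
Let `X/2 < n ≤ X`. Choose `τ ≤ 1` with `#{n : gp n < X^τ} ≤ (ε/3) X` for large `X` (`mkv1` with `y = ⌊X^τ⌋`: for these `n`
`sp y n = n > X/2`). Let `C` be the constant of `lev`, `κ₁ ≤ τ/8` small, `z = ⌊X^κ₁⌋`. Let `n` be such that `gp n ≥ X^τ`,
`gp (f n) < X^κ₁`, so `f n ≥ n > X/2` is the product of the `p^(v_p)`, `p ≤ z`; `p = 2, 5` do not occur, as the last digit of `f n`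
is that of `gp n > 5`. For `p ≤ z` let `k_p` be the largest `k` with `p^(2k) ≤ X^τ`. (a) if `p^(k_p) ∣ f n` for some `p ≤ z`:
`p^(k_p) ≥ X^(τ/2)/p ≥ X^(τ/4)`, by `lev` the number of these `n` is `≤ z C X/φ(..) ≤ 2 C X^(1 + κ₁ - τ/4)`, negligible.
(b) else `log (X/2) ≤ log f n = ∑_{p ≤ z} ∑_{k ≥ 1, p^k ∣ f n, p^(2k) ≤ X^τ} log p =: L n`, and by `lev`
`∑_n L n ≤ C X ∑_{p ≤ z} ∑_k log p/φ(p^k) ≤ 4 C X ∑_{p ≤ z} log p/(p-1) ≤ C' X (1 + log z)` (`mkv0`), so the number of these `n` is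
`≤ C' X (1 + κ₁ log X)/log(X/2) ≤ (ε/3) X` for `κ₁` small and `X` large. -/

set_option autoImplicit false

namespace Pool.Agent.HP

open Finset

/-- `n > X/2` implies `log n ≥ (log X)/2`. -/
private lemma spr_log {X n : ℕ} (hX : 4 ≤ X) (hn : X / 2 < n) : Real.log X / 2 ≤ Real.log n := by
  have h1 : X ≤ 2 * n := by omega
  have h2 : (X : ℝ) ≤ (n : ℝ) ^ 2 := by
    have h3 : X ≤ n ^ 2 := by nlinarith
    exact_mod_cast h3
  have h4 : (0 : ℝ) < X := by exact_mod_cast (by omega : 0 < X)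
  have h5 := Real.log_le_log h4 h2
  rw [Real.log_pow] at h5
  push_cast at h5
  linarith

private lemma spr_one (ε : ℝ) (hε : 0 < ε) : ∃ τ : ℝ, 0 < τ ∧ τ ≤ 1 ∧ ∃ X₀ : ℕ, ∀ X ≥ X₀,
    (((Finset.Ioc (X / 2) X).filter (fun n => (gp n : ℝ) < (X : ℝ) ^ τ)).card : ℝ) ≤ ε * X := by
  obtain ⟨C, hC, h⟩ := mkv1
  refine ⟨min 1 (ε / (4 * C)), lt_min one_pos (by positivity), min_le_left _ _, ?_⟩
  set τ := min 1 (ε / (4 * C)) with hτ
  have hτ0 : 0 < τ := lt_min one_pos (by positivity)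
  have hτ1 : τ ≤ ε / (4 * C) := min_le_right _ _
  refine ⟨max 4 (⌈Real.exp (4 * C / ε)⌉₊), ?_⟩
  intro X hX
  have hX4 : 4 ≤ X := (le_max_left _ _).trans hX
  have hXe : Real.exp (4 * C / ε) ≤ X :=
    (Nat.le_ceil _).trans (by exact_mod_cast (le_max_right _ _).trans hX)
  have hX4r : (4 : ℝ) ≤ X := by exact_mod_cast hX4
  have hXpos : (0 : ℝ) < X := by linarith
  have hL : 4 * C / ε ≤ Real.log X := by
    rw [Real.le_log_iff_exp_le hXpos]
    exact hXe
  have hLpos : 0 < Real.log X := lt_of_lt_of_le (by positivity) hL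
  have hXτ : (1 : ℝ) ≤ (X : ℝ) ^ τ := Real.one_le_rpow (by linarith) hτ0.le
  have hy : 1 ≤ ⌊(X : ℝ) ^ τ⌋₊ := by
    rw [Nat.one_le_floor_iff]
    exact hXτ
  have h1 := h X ⌊(X : ℝ) ^ τ⌋₊ hy (Real.log X / 2) (by positivity)
  have hlogy : Real.log (⌊(X : ℝ) ^ τ⌋₊ : ℝ) ≤ τ * Real.log X := by
    rw [← Real.log_rpow hXpos]
    exact Real.log_le_log (by exact_mod_cast hy) (Nat.floor_le (by positivity))
  have hsub : (Finset.Ioc (X / 2) X).filter (fun n => (gp n : ℝ) < (X : ℝ) ^ τ) ⊆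
      (Finset.Icc 1 X).filter (fun n => Real.log X / 2 ≤ Real.log (sp ⌊(X : ℝ) ^ τ⌋₊ n)) := by
    intro n hn
    simp only [Finset.mem_filter, Finset.mem_Ioc, Finset.mem_Icc] at hn ⊢
    obtain ⟨⟨hn1, hn2⟩, hg⟩ := hn
    have hn2' : 2 ≤ n := by omega
    refine ⟨⟨by omega, hn2⟩, ?_⟩
    have hsp : sp ⌊(X : ℝ) ^ τ⌋₊ n = n := by
      unfold sp
      rw [List.filter_eq_self.mpr]
      · exact Nat.prod_primeFactorsList (by omega)
      · intro p hp
        have hp1 := Nat.prime_of_mem_primeFactorsList hp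
        have hp2 := Nat.dvd_of_mem_primeFactorsList hp
        have hp3 := (gp_spec hn2').2.2 p hp1 hp2
        have hp4 : (p : ℝ) ≤ (X : ℝ) ^ τ := by
          have : (p : ℝ) ≤ (gp n : ℝ) := by exact_mod_cast hp3
          linarith
        simpa using Nat.le_floor hp4
    rw [hsp]
    exact spr_log hX4 hn1
  have h2 : (((Finset.Ioc (X / 2) X).filter (fun n => (gp n : ℝ) < (X : ℝ) ^ τ)).card : ℝ) ≤
      (((Finset.Icc 1 X).filter (fun n => Real.log X / 2 ≤ Real.log (sp ⌊(X : ℝ) ^ τ⌋₊ n))).card : ℝ) := by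
    exact_mod_cast Finset.card_le_card hsub
  have h3 : C * (1 + Real.log (⌊(X : ℝ) ^ τ⌋₊ : ℝ)) ≤ ε * (Real.log X / 2) := by
    have h4 : C ≤ ε * Real.log X / 4 := by
      rw [div_le_iff₀ hε] at hL
      linarith
    have h5 : C * (τ * Real.log X) ≤ ε * Real.log X / 4 := by
      have : C * τ ≤ ε / 4 := by
        calc C * τ ≤ C * (ε / (4 * C)) := mul_le_mul_of_nonneg_left hτ1 hC.le
          _ = ε / 4 := by field_simp
      nlinarith
    have h6 : C * Real.log (⌊(X : ℝ) ^ τ⌋₊ : ℝ) ≤ C * (τ * Real.log X) :=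
      mul_le_mul_of_nonneg_left hlogy hC.le
    linarith
  have h7 : (((Finset.Icc 1 X).filter (fun n => Real.log X / 2 ≤ Real.log (sp ⌊(X : ℝ) ^ τ⌋₊ n))).card : ℝ) *
      (Real.log X / 2) ≤ ε * X * (Real.log X / 2) := by
    refine h1.trans ?_
    calc C * X * (1 + Real.log (⌊(X : ℝ) ^ τ⌋₊ : ℝ)) = X * (C * (1 + Real.log (⌊(X : ℝ) ^ τ⌋₊ : ℝ))) := by ring
      _ ≤ X * (ε * (Real.log X / 2)) := mul_le_mul_of_nonneg_left h3 hXpos.le
      _ = _ := by ring
  exact h2.trans (le_of_mul_le_mul_right h7 (by positivity))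

/-- `∑_{1 ≤ k ≤ K} 1/φ(p^k) ≤ 2/(p-1)`. -/
private lemma spr_phi {p : ℕ} (hp : p.Prime) (K : ℕ) :
    ∑ k ∈ Finset.Icc 1 K, 1 / (Nat.totient (p ^ k) : ℝ) ≤ 2 / ((p : ℝ) - 1) := by
  have hp2 : (2 : ℝ) ≤ p := by exact_mod_cast hp.two_le
  have hp1 : (0 : ℝ) < (p : ℝ) - 1 := by linarith
  have key : ∀ K : ℕ, ∑ k ∈ Finset.Icc 1 K, 1 / (Nat.totient (p ^ k) : ℝ) ≤
      (2 - 2 / (2 : ℝ) ^ K) / ((p : ℝ) - 1) := by
    intro K
    induction K with
    | zero => simp
    | succ n ih =>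
      rw [Finset.sum_Icc_succ_top (by omega)]
      have h1 : (Nat.totient (p ^ (n + 1)) : ℝ) = (p : ℝ) ^ n * ((p : ℝ) - 1) := by
        rw [Nat.totient_prime_pow_succ hp]
        push_cast [Nat.cast_sub hp.one_le]
        ring
      rw [h1]
      have h2 : 1 / ((p : ℝ) ^ n * ((p : ℝ) - 1)) ≤ (1 / (2 : ℝ) ^ n) / ((p : ℝ) - 1) := by
        rw [← div_div]
        refine div_le_div_of_nonneg_right ?_ hp1.le
        exact one_div_le_one_div_of_le (by positivity) (pow_le_pow_left₀ (by norm_num) hp2 n)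
      calc _ ≤ (2 - 2 / (2 : ℝ) ^ n) / ((p : ℝ) - 1) + (1 / (2 : ℝ) ^ n) / ((p : ℝ) - 1) := add_le_add ih h2
        _ = (2 - 2 / (2 : ℝ) ^ (n + 1)) / ((p : ℝ) - 1) := by
          rw [← add_div, pow_succ]
          congr 1
          field_simp
          ring
  refine (key K).trans (div_le_div_of_nonneg_right ?_ hp1.le)
  have : 0 < 2 / (2 : ℝ) ^ K := by positivity
  linarith

/-- the logarithm of an integer as a sum over the prime powers dividing it -/
private lemma spr_logsum {N z : ℕ} (hN : 1 ≤ N) (K : ℕ → ℕ) (hz : ∀ p : ℕ, p.Prime → p ∣ N → p ≤ z)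
    (hK : ∀ p : ℕ, p.Prime → p ≤ z → ¬ p ^ K p ∣ N) :
    Real.log N ≤ ∑ p ∈ (Finset.Icc 1 z).filter Nat.Prime, ∑ k ∈ Finset.Icc 1 (K p),
      (if p ^ k ∣ N then Real.log p else 0) := by
  have hN0 : N ≠ 0 := by omega
  have h1 : Real.log N = ∑ p ∈ N.primeFactors, (N.factorization p : ℝ) * Real.log p := by
    conv_lhs => rw [← Nat.factorization_prod_pow_eq_self hN0]
    rw [Finsupp.prod, Nat.cast_prod, Real.log_prod]
    · refine Finset.sum_congr rfl fun p _ => ?_
      rw [Nat.cast_pow, Real.log_pow]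
    · intro p hp
      have hp1 : p.Prime := Nat.prime_of_mem_primeFactors (by simpa using hp)
      exact_mod_cast (pow_pos hp1.pos _).ne'
  rw [h1]
  have h2 : N.primeFactors ⊆ (Finset.Icc 1 z).filter Nat.Prime := by
    intro p hp
    have hp1 := Nat.prime_of_mem_primeFactors hp
    rw [Finset.mem_filter, Finset.mem_Icc]
    exact ⟨⟨hp1.one_le, hz p hp1 (Nat.dvd_of_mem_primeFactors hp)⟩, hp1⟩
  have h3 : ∀ p ∈ N.primeFactors, (N.factorization p : ℝ) * Real.log p ≤
      ∑ k ∈ Finset.Icc 1 (K p), (if p ^ k ∣ N then Real.log p else 0) := by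
    intro p hp
    have hp1 := Nat.prime_of_mem_primeFactors hp
    have hlogp : 0 ≤ Real.log p := Real.log_natCast_nonneg p
    have hlt : N.factorization p < K p := by
      by_contra hc
      push Not at hc
      exact hK p hp1 (hz p hp1 (Nat.dvd_of_mem_primeFactors hp))
        ((hp1.pow_dvd_iff_le_factorization hN0).mpr hc)
    have h4 : Finset.Icc 1 (N.factorization p) ⊆ Finset.Icc 1 (K p) :=
      Finset.Icc_subset_Icc_right hlt.le
    calc (N.factorization p : ℝ) * Real.log p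
        = ∑ k ∈ Finset.Icc 1 (N.factorization p), Real.log p := by
          rw [Finset.sum_const, Nat.card_Icc, nsmul_eq_mul]
          simp
      _ = ∑ k ∈ Finset.Icc 1 (N.factorization p), (if p ^ k ∣ N then Real.log p else 0) := by
          refine Finset.sum_congr rfl fun k hk => ?_
          rw [if_pos ((hp1.pow_dvd_iff_le_factorization hN0).mpr (Finset.mem_Icc.mp hk).2)]
      _ ≤ _ := Finset.sum_le_sum_of_subset_of_nonneg h4 fun k _ _ => by split_ifs <;> simp [hlogp]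
  refine (Finset.sum_le_sum h3).trans ?_
  refine Finset.sum_le_sum_of_subset_of_nonneg h2 fun p _ _ => ?_
  refine Finset.sum_nonneg fun k _ => ?_
  split_ifs
  · exact Real.log_natCast_nonneg p
  · exact le_refl _

theorem spr (ε : ℝ) (hε : 0 < ε) : ∃ κ : ℝ, 0 < κ ∧ κ ≤ 1 ∧ ∃ X₀ : ℕ, ∀ X ≥ X₀,
    (((Finset.Ioc (X / 2) X).filter (fun n => (gp (f n) : ℝ) < (X : ℝ) ^ κ)).card : ℝ) ≤
      ε * X := by
  obtain ⟨τ, hτ0, hτ1, X₁, h1⟩ := spr_one (ε / 3) (by positivity)
  obtain ⟨C₂, hC₂, X₂, h2⟩ := lev τ hτ0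
  obtain ⟨C, hC, h0⟩ := mkv0
  set κ := min (τ / 8) (ε / (24 * C₂ * C)) with hκ
  have hκ0 : 0 < κ := lt_min (by positivity) (by positivity)
  have hκ1 : κ ≤ τ / 8 := min_le_left _ _
  have hκ2 : κ ≤ ε / (24 * C₂ * C) := min_le_right _ _
  obtain ⟨X₃, h3⟩ : ∃ X₃ : ℕ, ∀ X ≥ X₃, 12 * C₂ / ε ≤ (X : ℝ) ^ (τ / 4) := by
    have ht : Filter.Tendsto (fun X : ℕ => (X : ℝ) ^ (τ / 4)) Filter.atTop Filter.atTop :=
      (tendsto_rpow_atTop (by positivity)).comp tendsto_natCast_atTop_atTop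
    exact Filter.eventually_atTop.mp (ht.eventually_ge_atTop _)
  obtain ⟨X₄, h4⟩ : ∃ X₄ : ℕ, ∀ X ≥ X₄, 2 ≤ (X : ℝ) ^ (τ / 2) := by
    have ht : Filter.Tendsto (fun X : ℕ => (X : ℝ) ^ (τ / 2)) Filter.atTop Filter.atTop :=
      (tendsto_rpow_atTop (by positivity)).comp tendsto_natCast_atTop_atTop
    exact Filter.eventually_atTop.mp (ht.eventually_ge_atTop _)
  refine ⟨κ, hκ0, by linarith, max (max (max X₁ X₂) (max X₃ X₄))
    (max 4 ⌈Real.exp (24 * C₂ * C / ε)⌉₊), ?_⟩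
  intro X hX
  have hX1 : X₁ ≤ X := by
    refine le_trans ?_ hX; simp
  have hX2 : X₂ ≤ X := by
    refine le_trans ?_ hX; simp
  have hX3 : X₃ ≤ X := by
    refine le_trans ?_ hX; simp
  have hX4 : X₄ ≤ X := by
    refine le_trans ?_ hX; simp
  have hX5 : 4 ≤ X := by
    refine le_trans ?_ hX; simp
  have hX6 : ⌈Real.exp (24 * C₂ * C / ε)⌉₊ ≤ X := by
    refine le_trans ?_ hX; simp
  have hX5r : (4 : ℝ) ≤ X := by exact_mod_cast hX5
  have hXpos : (0 : ℝ) < X := by linarith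
  have hX1r : (1 : ℝ) ≤ X := by linarith
  have hL : 24 * C₂ * C / ε ≤ Real.log X := by
    rw [Real.le_log_iff_exp_le hXpos]
    exact (Nat.le_ceil _).trans (by exact_mod_cast hX6)
  have hLpos : 0 < Real.log X := lt_of_lt_of_le (by positivity) hL
  -- parameters
  set z := ⌊(X : ℝ) ^ κ⌋₊ with hz
  set t := ⌊(X : ℝ) ^ (τ / 2)⌋₊ with ht
  have hz1 : 1 ≤ z := by
    rw [hz, Nat.one_le_floor_iff]
    exact Real.one_le_rpow hX1r hκ0.le
  have hzX : (z : ℝ) ≤ (X : ℝ) ^ κ := Nat.floor_le (by positivity)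
  have htX : (t : ℝ) ≤ (X : ℝ) ^ (τ / 2) := Nat.floor_le (by positivity)
  have htX2 : (X : ℝ) ^ (τ / 2) / 2 ≤ t := by
    have h5 := Nat.lt_floor_add_one ((X : ℝ) ^ (τ / 2))
    rw [← ht] at h5
    have h6 := h4 X hX4
    linarith
  have hzt : z ≤ t := by
    rw [hz, ht]
    refine Nat.floor_le_floor ?_
    exact Real.rpow_le_rpow_of_exponent_le hX1r (by linarith)
  have ht1 : t ≠ 0 := by omega
  have htpos : (0 : ℝ) < t := by exact_mod_cast Nat.pos_of_ne_zero ht1
  set K : ℕ → ℕ := fun p => Nat.log p t with hKdef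
  have hKle : ∀ p k : ℕ, k ≤ K p → p ^ k ≤ t := by
    intro p k hk
    exact Nat.pow_le_of_le_log ht1 hk
  have hlevel : ∀ p k : ℕ, k ≤ K p → (((p ^ k : ℕ) : ℝ)) ^ 2 ≤ (X : ℝ) ^ τ := by
    intro p k hk
    have h5 : ((p ^ k : ℕ) : ℝ) ≤ (X : ℝ) ^ (τ / 2) :=
      le_trans (by exact_mod_cast hKle p k hk) htX
    calc (((p ^ k : ℕ) : ℝ)) ^ 2 ≤ ((X : ℝ) ^ (τ / 2)) ^ 2 := pow_le_pow_left₀ (by positivity) h5 2
      _ = (X : ℝ) ^ τ := by
        rw [← Real.rpow_natCast, ← Real.rpow_mul hXpos.le]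
        norm_num
  -- the three classes
  set G : Finset ℕ := (Finset.Icc 1 X).filter (fun n => (X : ℝ) ^ τ ≤ (gp n : ℝ)) with hG
  set Sa : Finset ℕ := ((Finset.Icc 1 z).filter Nat.Prime).biUnion
    (fun p => (Finset.Icc 1 X).filter (fun n => (X : ℝ) ^ τ ≤ (gp n : ℝ) ∧ p ^ K p ∣ f n)) with hSa
  set Lf : ℕ → ℝ := fun n => ∑ p ∈ (Finset.Icc 1 z).filter Nat.Prime, ∑ k ∈ Finset.Icc 1 (K p),
    (if p ^ k ∣ f n then Real.log p else 0) with hLf
  set Sb : Finset ℕ := G.filter (fun n => Real.log X / 2 ≤ Lf n) with hSb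
  have hcover : (Finset.Ioc (X / 2) X).filter (fun n => (gp (f n) : ℝ) < (X : ℝ) ^ κ) ⊆
      ((Finset.Ioc (X / 2) X).filter (fun n => (gp n : ℝ) < (X : ℝ) ^ τ) ∪ Sa) ∪ Sb := by
    intro n hn
    simp only [Finset.mem_filter, Finset.mem_Ioc] at hn
    obtain ⟨⟨hn1, hn2⟩, hg⟩ := hn
    have hn2' : 2 ≤ n := by omega
    by_cases hA : (gp n : ℝ) < (X : ℝ) ^ τ
    · refine Finset.mem_union_left _ (Finset.mem_union_left _ ?_)
      simp only [Finset.mem_filter, Finset.mem_Ioc]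
      exact ⟨⟨hn1, hn2⟩, hA⟩
    push Not at hA
    by_cases hB : ∃ p ∈ (Finset.Icc 1 z).filter Nat.Prime, p ^ K p ∣ f n
    · refine Finset.mem_union_left _ (Finset.mem_union_right _ ?_)
      obtain ⟨p, hp, hpd⟩ := hB
      rw [hSa, Finset.mem_biUnion]
      refine ⟨p, hp, ?_⟩
      simp only [Finset.mem_filter, Finset.mem_Icc]
      exact ⟨⟨by omega, hn2⟩, hA, hpd⟩
    · refine Finset.mem_union_right _ ?_
      push Not at hB
      have hfn : n ≤ f n := le_f hn2'
      have hf2 : 2 ≤ f n := hn2'.trans hfn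
      rw [hSb, Finset.mem_filter, hG, Finset.mem_filter, Finset.mem_Icc]
      refine ⟨⟨⟨by omega, hn2⟩, hA⟩, ?_⟩
      have h5 : Real.log (f n) ≤ Lf n := by
        refine spr_logsum (by omega) K ?_ ?_
        · intro p hp hpd
          have h6 := (gp_spec hf2).2.2 p hp hpd
          have h7 : (p : ℝ) ≤ (X : ℝ) ^ κ := by
            have : (p : ℝ) ≤ (gp (f n) : ℝ) := by exact_mod_cast h6
            linarith
          exact Nat.le_floor h7
        · intro p hp hpz
          refine hB p ?_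
          rw [Finset.mem_filter, Finset.mem_Icc]
          exact ⟨⟨hp.one_le, hpz⟩, hp⟩
      refine le_trans ?_ h5
      refine (spr_log hX5 hn1).trans ?_
      exact Real.log_le_log (by exact_mod_cast (by omega : 0 < n)) (by exact_mod_cast hfn)
  have hbA := h1 X hX1
  -- class (a)
  have hbSa : (Sa.card : ℝ) ≤ ε / 3 * X := by
    have h5 : ∀ p ∈ (Finset.Icc 1 z).filter Nat.Prime,
        (((Finset.Icc 1 X).filter (fun n => (X : ℝ) ^ τ ≤ (gp n : ℝ) ∧ p ^ K p ∣ f n)).card : ℝ) ≤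
        2 * C₂ * X * z / t := by
      intro p hp
      rw [Finset.mem_filter, Finset.mem_Icc] at hp
      obtain ⟨⟨hp1, hpz⟩, hpp⟩ := hp
      have h6 := h2 X hX2 (p ^ K p) (Nat.one_le_pow _ _ hpp.pos) (hlevel p (K p) le_rfl)
      refine h6.trans ?_
      have hKpos : 0 < K p := Nat.log_pos hpp.one_lt (hpz.trans hzt)
      obtain ⟨j, hj⟩ : ∃ j, K p = j + 1 := ⟨K p - 1, by omega⟩
      have h7 : t < p ^ (K p + 1) := Nat.lt_pow_succ_log_self hpp.one_lt t
      have hp2 : (2 : ℝ) ≤ p := by exact_mod_cast hpp.two_le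
      have h8 : (p : ℝ) ^ K p / 2 ≤ (Nat.totient (p ^ K p) : ℝ) := by
        rw [hj, Nat.totient_prime_pow_succ hpp, pow_succ]
        push_cast [Nat.cast_sub hpp.one_le]
        have : (0 : ℝ) < (p : ℝ) ^ j := by positivity
        nlinarith
      have h9 : (t : ℝ) ≤ (p : ℝ) ^ K p * z := by
        have h10 : t ≤ p ^ K p * z := by
          rw [pow_succ] at h7
          exact h7.le.trans (Nat.mul_le_mul_left _ hpz)
        exact_mod_cast h10
      have hzpos : (0 : ℝ) < z := by exact_mod_cast hz1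
      have hppos : (0 : ℝ) < (p : ℝ) ^ K p := by positivity
      have htot : (0 : ℝ) < (Nat.totient (p ^ K p) : ℝ) := by linarith [half_pos hppos]
      rw [div_le_div_iff₀ htot htpos]
      have h11 : (t : ℝ) ≤ 2 * z * (Nat.totient (p ^ K p) : ℝ) := by nlinarith
      have h12 : 0 ≤ C₂ * X := by positivity
      calc C₂ * X * t ≤ C₂ * X * (2 * z * (Nat.totient (p ^ K p) : ℝ)) :=
            mul_le_mul_of_nonneg_left h11 h12
        _ = _ := by ring
    have h13 : (Sa.card : ℝ) ≤ ∑ p ∈ (Finset.Icc 1 z).filter Nat.Prime,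
        (((Finset.Icc 1 X).filter (fun n => (X : ℝ) ^ τ ≤ (gp n : ℝ) ∧ p ^ K p ∣ f n)).card : ℝ) := by
      have := Finset.card_biUnion_le (s := (Finset.Icc 1 z).filter Nat.Prime)
        (t := fun p => (Finset.Icc 1 X).filter (fun n => (X : ℝ) ^ τ ≤ (gp n : ℝ) ∧ p ^ K p ∣ f n))
      exact_mod_cast this
    refine h13.trans ((Finset.sum_le_sum h5).trans ?_)
    rw [Finset.sum_const, nsmul_eq_mul]
    have h14 : ((((Finset.Icc 1 z).filter Nat.Prime).card : ℕ) : ℝ) ≤ z := by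
      have : ((Finset.Icc 1 z).filter Nat.Prime).card ≤ z := by
        refine (Finset.card_filter_le _ _).trans ?_
        simp
      exact_mod_cast this
    calc ((((Finset.Icc 1 z).filter Nat.Prime).card : ℕ) : ℝ) * (2 * C₂ * X * z / t)
        ≤ z * (2 * C₂ * X * z / t) := mul_le_mul_of_nonneg_right h14 (by positivity)
      _ = 2 * C₂ * X * (z ^ 2 / t) := by ring
      _ ≤ 2 * C₂ * X * (2 * (X : ℝ) ^ (-(τ / 4))) := by
          refine mul_le_mul_of_nonneg_left ?_ (by positivity)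
          have h15 : (z : ℝ) ^ 2 ≤ (X : ℝ) ^ (τ / 4) := by
            calc (z : ℝ) ^ 2 ≤ ((X : ℝ) ^ κ) ^ 2 := pow_le_pow_left₀ (by positivity) hzX 2
              _ = (X : ℝ) ^ (κ * 2) := by
                rw [← Real.rpow_natCast, ← Real.rpow_mul hXpos.le]
                norm_num
              _ ≤ (X : ℝ) ^ (τ / 4) := Real.rpow_le_rpow_of_exponent_le hX1r (by linarith)
          rw [div_le_iff₀ htpos]
          have h16 : 0 < (X : ℝ) ^ (-(τ / 4)) := by positivity
          calc (z : ℝ) ^ 2 ≤ (X : ℝ) ^ (τ / 4) := h15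
            _ = 2 * (X : ℝ) ^ (-(τ / 4)) * ((X : ℝ) ^ (τ / 2) / 2) := by
              have : (X : ℝ) ^ (τ / 4) = (X : ℝ) ^ (-(τ / 4)) * (X : ℝ) ^ (τ / 2) := by
                rw [← Real.rpow_add hXpos]
                congr 1
                ring
              rw [this]
              ring
            _ ≤ 2 * (X : ℝ) ^ (-(τ / 4)) * t := mul_le_mul_of_nonneg_left htX2 (by positivity)
      _ = 4 * C₂ * X / (X : ℝ) ^ (τ / 4) := by
          rw [Real.rpow_neg hXpos.le]
          ring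
      _ ≤ ε / 3 * X := by
          have h17 := h3 X hX3
          have h18 : (0 : ℝ) < (X : ℝ) ^ (τ / 4) := by positivity
          rw [div_le_iff₀ h18]
          rw [div_le_iff₀ hε] at h17
          nlinarith
  -- class (b)
  have hbSb : (Sb.card : ℝ) ≤ ε / 3 * X := by
    have h5 : (Sb.card : ℝ) * (Real.log X / 2) ≤ ∑ n ∈ G, Lf n := by
      have hLf0 : ∀ n, 0 ≤ Lf n := by
        intro n
        refine Finset.sum_nonneg fun p _ => Finset.sum_nonneg fun k _ => ?_
        split_ifs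
        · exact Real.log_natCast_nonneg p
        · exact le_refl _
      calc (Sb.card : ℝ) * (Real.log X / 2) = ∑ n ∈ Sb, Real.log X / 2 := by
            rw [Finset.sum_const, nsmul_eq_mul]
        _ ≤ ∑ n ∈ Sb, Lf n := Finset.sum_le_sum fun n hn => (Finset.mem_filter.mp hn).2
        _ ≤ ∑ n ∈ G, Lf n := Finset.sum_le_sum_of_subset_of_nonneg (Finset.filter_subset _ _)
            fun n _ _ => hLf0 n
    have h6 : ∑ n ∈ G, Lf n = ∑ p ∈ (Finset.Icc 1 z).filter Nat.Prime, ∑ k ∈ Finset.Icc 1 (K p),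
        Real.log p * (((Finset.Icc 1 X).filter (fun n => (X : ℝ) ^ τ ≤ (gp n : ℝ) ∧ p ^ k ∣ f n)).card : ℝ) := by
      rw [Finset.sum_comm]
      refine Finset.sum_congr rfl fun p _ => ?_
      rw [Finset.sum_comm]
      refine Finset.sum_congr rfl fun k _ => ?_
      rw [← Finset.sum_filter, Finset.sum_const, nsmul_eq_mul, mul_comm, hG, Finset.filter_filter]
    have h7 : ∑ n ∈ G, Lf n ≤ C₂ * X * (2 * (C * (1 + κ * Real.log X))) := by
      rw [h6]
      calc ∑ p ∈ (Finset.Icc 1 z).filter Nat.Prime, ∑ k ∈ Finset.Icc 1 (K p),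
            Real.log p * (((Finset.Icc 1 X).filter (fun n => (X : ℝ) ^ τ ≤ (gp n : ℝ) ∧ p ^ k ∣ f n)).card : ℝ)
          ≤ ∑ p ∈ (Finset.Icc 1 z).filter Nat.Prime, ∑ k ∈ Finset.Icc 1 (K p),
            Real.log p * (C₂ * X / (Nat.totient (p ^ k) : ℝ)) := by
            refine Finset.sum_le_sum fun p hp => Finset.sum_le_sum fun k hk => ?_
            have hpp := (Finset.mem_filter.mp hp).2
            refine mul_le_mul_of_nonneg_left ?_ (Real.log_natCast_nonneg p)
            exact h2 X hX2 (p ^ k) (Nat.one_le_pow _ _ hpp.pos)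
              (hlevel p k (Finset.mem_Icc.mp hk).2)
        _ = ∑ p ∈ (Finset.Icc 1 z).filter Nat.Prime, C₂ * X * (Real.log p *
            ∑ k ∈ Finset.Icc 1 (K p), 1 / (Nat.totient (p ^ k) : ℝ)) := by
            refine Finset.sum_congr rfl fun p _ => ?_
            rw [Finset.mul_sum, Finset.mul_sum]
            refine Finset.sum_congr rfl fun k _ => ?_
            ring
        _ ≤ ∑ p ∈ (Finset.Icc 1 z).filter Nat.Prime, C₂ * X * (Real.log p * (2 / ((p : ℝ) - 1))) := by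
            refine Finset.sum_le_sum fun p hp => ?_
            refine mul_le_mul_of_nonneg_left ?_ (by positivity)
            exact mul_le_mul_of_nonneg_left (spr_phi (Finset.mem_filter.mp hp).2 _)
              (Real.log_natCast_nonneg p)
        _ = C₂ * X * (2 * ∑ p ∈ (Finset.Icc 1 z).filter Nat.Prime, Real.log p / ((p : ℝ) - 1)) := by
            rw [Finset.mul_sum, Finset.mul_sum]
            refine Finset.sum_congr rfl fun p _ => ?_
            ring
        _ ≤ C₂ * X * (2 * (C * (1 + Real.log z))) := by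
            refine mul_le_mul_of_nonneg_left ?_ (by positivity)
            exact mul_le_mul_of_nonneg_left (h0 z hz1) (by norm_num)
        _ ≤ C₂ * X * (2 * (C * (1 + κ * Real.log X))) := by
            refine mul_le_mul_of_nonneg_left ?_ (by positivity)
            refine mul_le_mul_of_nonneg_left ?_ (by norm_num)
            refine mul_le_mul_of_nonneg_left ?_ hC.le
            have : Real.log z ≤ κ * Real.log X := by
              rw [← Real.log_rpow hXpos]
              exact Real.log_le_log (by exact_mod_cast hz1) hzX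
            linarith
    have h8 : C₂ * (2 * (C * (1 + κ * Real.log X))) ≤ ε / 3 * (Real.log X / 2) := by
      have h9 : 24 * C₂ * C ≤ ε * Real.log X := by
        rw [div_le_iff₀ hε] at hL
        linarith
      have h10 : 24 * C₂ * C * κ ≤ ε := by
        rw [le_div_iff₀ (by positivity)] at hκ2
        linarith
      have h11 : 24 * C₂ * C * κ * Real.log X ≤ ε * Real.log X :=
        mul_le_mul_of_nonneg_right h10 hLpos.le
      nlinarith
    have h12 : (Sb.card : ℝ) * (Real.log X / 2) ≤ ε / 3 * X * (Real.log X / 2) := by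
      refine h5.trans (h7.trans ?_)
      calc C₂ * X * (2 * (C * (1 + κ * Real.log X))) = X * (C₂ * (2 * (C * (1 + κ * Real.log X)))) := by ring
        _ ≤ X * (ε / 3 * (Real.log X / 2)) := mul_le_mul_of_nonneg_left h8 hXpos.le
        _ = _ := by ring
    exact le_of_mul_le_mul_right h12 (by positivity)
  have hfin : (((Finset.Ioc (X / 2) X).filter (fun n => (gp (f n) : ℝ) < (X : ℝ) ^ κ)).card : ℝ) ≤
      (((Finset.Ioc (X / 2) X).filter (fun n => (gp n : ℝ) < (X : ℝ) ^ τ)).card : ℝ) + Sa.card + Sb.card := by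
    have h5 := (Finset.card_le_card hcover).trans (Finset.card_union_le _ _)
    have h6 := Finset.card_union_le ((Finset.Ioc (X / 2) X).filter (fun n => (gp n : ℝ) < (X : ℝ) ^ τ)) Sa
    have h7 : ((Finset.Ioc (X / 2) X).filter (fun n => (gp (f n) : ℝ) < (X : ℝ) ^ κ)).card ≤
      ((Finset.Ioc (X / 2) X).filter (fun n => (gp n : ℝ) < (X : ℝ) ^ τ)).card + Sa.card + Sb.card := by
      omega
    exact_mod_cast h7
  linarith

end Pool.Agent.HP
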