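import Pool.Agent.HP.ASM
import Pool.Agent.HP.SPR

/-! DYA (~100 lines): the dyadic bound. Given `ε`: `κ₁` from `spr (ε/4)`, `κ < κ₁/6`, `κ < 1/5`, `η` from `mkv (ε/4) κ`,
`y = ⌊X^η⌋`. The `n ∈ (X/2, X]` with `f (f n)` prime are: `gp (f n) < X^κ₁` (`≤ ε/4 X`), `sp y n > X^κ` (`≤ ε/4 X`), `n` prime
(`≤ ε/4 X`, `bti` with `r = 1`), or in one of the sets of `asm` with `1 ≤ v ≤ 1/η`, `ε' = ε η/4`: `v ≥ 1` since `v = 0` means
`n = sp y n ≤ X^κ`; `v < 1/η` since `X ≥ n ≥ ∏ p_i > X^(ηv)`. -/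

set_option autoImplicit false

namespace Pool.Agent.HP

open Finset

private theorem dya_prod {T : ℝ} (hT : 0 ≤ T) (L : List ℕ) (h : ∀ p ∈ L, T ≤ (p : ℝ)) :
    T ^ L.length ≤ (L.prod : ℝ) := by
  induction L with
  | nil => simp
  | cons a L ih =>
    rw [List.length_cons, List.prod_cons, pow_succ, mul_comm]
    push_cast
    exact mul_le_mul (h a List.mem_cons_self) (by
      have := ih fun p hp => h p (List.mem_cons_of_mem a hp)
      exact_mod_cast this) (by positivity) (by positivity)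

private theorem dya_prime (ε : ℝ) (hε : 0 < ε) : ∃ X₀ : ℕ, ∀ X ≥ X₀,
    (((Finset.Icc 1 X).filter (fun q => q.Prime)).card : ℝ) ≤ ε * X := by
  obtain ⟨C, hC, h4⟩ := bti
  refine ⟨⌈Real.exp (C / ε)⌉₊ + 2, fun X hX => ?_⟩
  have hX2 : 2 ≤ X := by omega
  have hX0 : (0 : ℝ) < X := by
    have : 0 < X := by omega
    exact_mod_cast this
  have h5 := h4 1 0 X le_rfl hX2 (by omega)
  have h6 : (Finset.Icc 1 X).filter (fun q => q.Prime ∧ q ≡ 0 [MOD 1]) =
      (Finset.Icc 1 X).filter (fun q => q.Prime) := by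
    apply filter_congr
    intro q _
    simp [Nat.modEq_one]
  rw [h6, Nat.totient_one, Nat.cast_one, one_mul] at h5
  refine h5.trans ?_
  have h7 : C / ε ≤ Real.log X := by
    rw [Real.le_log_iff_exp_le hX0]
    have h8 := Nat.le_ceil (Real.exp (C / ε))
    have h9 : (⌈Real.exp (C / ε)⌉₊ : ℝ) ≤ X := by
      have : ⌈Real.exp (C / ε)⌉₊ ≤ X := by omega
      exact_mod_cast this
    linarith
  have h8 : 0 < Real.log X := lt_of_lt_of_le (by positivity) h7
  rw [div_le_iff₀ h8]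
  rw [div_le_iff₀ hε] at h7
  nlinarith

theorem dya (ε : ℝ) (hε : 0 < ε) : ∃ X₀ : ℕ, ∀ X ≥ X₀,
    (((Finset.Ioc (X / 2) X).filter (fun n => (f (f n)).Prime)).card : ℝ) ≤ ε * X := by
  classical
  obtain ⟨κ₁, hκ₁, hκ₁1, X₁, h1⟩ := spr (ε / 4) (by positivity)
  obtain ⟨κ, hκd⟩ : ∃ κ : ℝ, κ = min (κ₁ / 7) (1 / 6) := ⟨_, rfl⟩
  have hκ : 0 < κ := by rw [hκd]; positivity
  have hκ6 : κ ≤ 1 / 6 := by rw [hκd]; exact min_le_right _ _
  have hκ7 : κ ≤ κ₁ / 7 := by rw [hκd]; exact min_le_left _ _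
  obtain ⟨η, hη, hηκ, X₂, h2⟩ := mkv (ε / 4) κ (by positivity) hκ
  obtain ⟨V, hVd⟩ : ∃ V : ℕ, V = ⌈1 / η⌉₊ := ⟨_, rfl⟩
  have hV : 1 ≤ V := by
    rw [hVd]
    exact Nat.ceil_pos.2 (by positivity)
  have hV0 : (0 : ℝ) < V := by exact_mod_cast hV
  have h3 : ∀ v : ℕ, ∃ X₀ : ℕ, 1 ≤ v → ∀ X ≥ X₀,
      (((Finset.Ioc (X / 2) X).filter (fun n => ((sp ⌊(X : ℝ) ^ η⌋₊ n : ℕ) : ℝ) ≤ (X : ℝ) ^ κ ∧
        (rl ⌊(X : ℝ) ^ η⌋₊ n).length = v ∧ ¬ n.Prime ∧ (f (f n)).Prime ∧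
        (X : ℝ) ^ κ₁ ≤ (gp (f n) : ℝ))).card : ℝ) ≤ ε / (4 * V) * X := by
    intro v
    by_cases hv : 1 ≤ v
    · obtain ⟨X0, h⟩ := asm v hv η κ κ₁ (ε / (4 * V)) hη hκ (by linarith) hκ₁ (by linarith) hκ₁1
        (by positivity)
      exact ⟨X0, fun _ => h⟩
    · exact ⟨0, fun h => absurd h hv⟩
  choose W hW using h3
  obtain ⟨X₃, h4⟩ := dya_prime (ε / 4) (by positivity)
  refine ⟨X₁ + X₂ + X₃ + 16 + ∑ v ∈ Finset.Icc 1 V, W v, fun X hX => ?_⟩
  have hX16 : 16 ≤ X := by omega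
  have hXr : (16 : ℝ) ≤ X := by exact_mod_cast hX16
  have hX0 : (0 : ℝ) < X := by linarith
  have hX1 : (1 : ℝ) < X := by linarith
  have hXκ : 2 * (X : ℝ) ^ κ < X := by
    have h5 : (X : ℝ) ^ κ ≤ (X : ℝ) ^ (1 / 2 : ℝ) :=
      Real.rpow_le_rpow_of_exponent_le hX1.le (by linarith)
    rw [← Real.sqrt_eq_rpow] at h5
    have h6 := Real.mul_self_sqrt hX0.le
    have h7 : 4 ≤ Real.sqrt X := by
      apply Real.le_sqrt_of_sq_le
      linarith
    nlinarith
  set y : ℕ := ⌊(X : ℝ) ^ η⌋₊ with hy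
  set A1 := (Finset.Ioc (X / 2) X).filter (fun n => (gp (f n) : ℝ) < (X : ℝ) ^ κ₁) with hA1
  set A2 := (Finset.Icc 1 X).filter (fun n => (X : ℝ) ^ κ < (sp y n : ℝ)) with hA2
  set A3 := (Finset.Icc 1 X).filter (fun q => q.Prime) with hA3
  set A4 : ℕ → Finset ℕ := fun v => (Finset.Ioc (X / 2) X).filter
    (fun n => ((sp y n : ℕ) : ℝ) ≤ (X : ℝ) ^ κ ∧
        (rl y n).length = v ∧ ¬ n.Prime ∧ (f (f n)).Prime ∧
        (X : ℝ) ^ κ₁ ≤ (gp (f n) : ℝ)) with hA4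
  have hsub : (Finset.Ioc (X / 2) X).filter (fun n => (f (f n)).Prime) ⊆
      ((A1 ∪ A2) ∪ A3) ∪ (Finset.Icc 1 V).biUnion A4 := by
    intro n hn
    rw [mem_filter, mem_Ioc] at hn
    have hn1 : 1 ≤ n := by omega
    have hnX : (n : ℝ) ≤ X := by exact_mod_cast hn.1.2
    have hnX2 : (X : ℝ) < 2 * n := by
      have : X < 2 * n := by omega
      exact_mod_cast this
    by_cases c1 : (gp (f n) : ℝ) < (X : ℝ) ^ κ₁
    · refine mem_union_left _ (mem_union_left _ (mem_union_left _ ?_))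
      rw [hA1, mem_filter, mem_Ioc]
      exact ⟨hn.1, c1⟩
    by_cases c2 : (X : ℝ) ^ κ < (sp y n : ℝ)
    · refine mem_union_left _ (mem_union_left _ (mem_union_right _ ?_))
      rw [hA2, mem_filter, mem_Icc]
      exact ⟨⟨hn1, hn.1.2⟩, c2⟩
    by_cases c3 : n.Prime
    · refine mem_union_left _ (mem_union_right _ ?_)
      rw [hA3, mem_filter, mem_Icc]
      exact ⟨⟨hn1, hn.1.2⟩, c3⟩
    refine mem_union_right _ ?_
    rw [mem_biUnion]
    rw [not_lt] at c1 c2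
    refine ⟨(rl y n).length, ?_, ?_⟩
    · obtain ⟨h5, h6⟩ := dec_mul hn1 y
      rw [mem_Icc]
      constructor
      · by_contra h0
        have h7 : rl y n = [] := List.length_eq_zero_iff.1 (by omega)
        rw [h7, List.prod_nil, mul_one] at h5
        rw [← h5] at c2
        linarith
      · have h7 : ((X : ℝ) ^ η) ^ (rl y n).length ≤ ((rl y n).prod : ℝ) := by
          apply dya_prod (by positivity)
          intro p hp
          unfold rl at hp
          rw [List.mem_filter] at hp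
          have h8 : y < p := by simpa using hp.2
          rw [hy, Nat.floor_lt (by positivity)] at h8
          exact h8.le
        have h8 : ((rl y n).prod : ℝ) ≤ n := by
          have : (rl y n).prod ≤ n := by
            conv_rhs => rw [h5]
            exact Nat.le_mul_of_pos_left _ h6
          exact_mod_cast this
        have h9 : (X : ℝ) ^ (η * (rl y n).length) ≤ (X : ℝ) ^ (1 : ℝ) := by
          rw [Real.rpow_mul hX0.le, Real.rpow_natCast, Real.rpow_one]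
          linarith
        rw [Real.rpow_le_rpow_left_iff hX1] at h9
        have h10 : (((rl y n).length : ℕ) : ℝ) ≤ 1 / η := by
          rw [le_div_iff₀ hη]
          linarith
        have h11 := h10.trans (Nat.le_ceil (1 / η))
        rw [← hVd] at h11
        exact_mod_cast h11
    · rw [hA4, mem_filter, mem_Ioc]
      exact ⟨hn.1, c2, rfl, c3, hn.2, c1⟩
  have hc1 : ((A1.card : ℕ) : ℝ) ≤ ε / 4 * X := h1 X (by omega)
  have hc2 : ((A2.card : ℕ) : ℝ) ≤ ε / 4 * X := h2 X (by omega)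
  have hc3 : ((A3.card : ℕ) : ℝ) ≤ ε / 4 * X := h4 X (by omega)
  have hc4 : ∀ v ∈ Finset.Icc 1 V, (((A4 v).card : ℕ) : ℝ) ≤ ε / (4 * V) * X := by
    intro v hv
    apply hW v (mem_Icc.1 hv).1 X
    have h5 : W v ≤ ∑ v ∈ Finset.Icc 1 V, W v :=
      single_le_sum (f := W) (fun _ _ => Nat.zero_le _) hv
    omega
  have hc5 : ((((Finset.Icc 1 V).biUnion A4).card : ℕ) : ℝ) ≤ ε / 4 * X := by
    have h5 : ((((Finset.Icc 1 V).biUnion A4).card : ℕ) : ℝ) ≤
        ∑ v ∈ Finset.Icc 1 V, (((A4 v).card : ℕ) : ℝ) := by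
      exact_mod_cast card_biUnion_le
    refine h5.trans ((sum_le_sum hc4).trans ?_)
    rw [sum_const, Nat.card_Icc, Nat.add_sub_cancel, nsmul_eq_mul]
    apply le_of_eq
    field_simp
  have hcard := card_le_card hsub
  have hu1 := card_union_le ((A1 ∪ A2) ∪ A3) ((Finset.Icc 1 V).biUnion A4)
  have hu2 := card_union_le (A1 ∪ A2) A3
  have hu3 := card_union_le A1 A2
  have htot : (((Finset.Ioc (X / 2) X).filter (fun n => (f (f n)).Prime)).card : ℝ) ≤
      (A1.card : ℝ) + A2.card + A3.card + ((Finset.Icc 1 V).biUnion A4).card := by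
    have : ((Finset.Ioc (X / 2) X).filter (fun n => (f (f n)).Prime)).card ≤
      A1.card + A2.card + A3.card + ((Finset.Icc 1 V).biUnion A4).card := by omega
    exact_mod_cast this
  linarith

end Pool.Agent.HP
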