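import Mathlib
import Pool.Prelude.Def_F_87db463e

set_option autoImplicit false

/-!
# Home primes (MP_57b797_nt): working definitions of the project HP

None of these definitions occurs in the final statements.
-/

namespace Pool.Agent.HP

open Finset Nec92d717

/-- the map of the problem: concatenate the sorted prime factors -/
abbrev f (n : ℕ) : ℕ := primeFactorSplice n

/-- number of decimal digits -/
abbrev dc (n : ℕ) : ℕ := decimalDigitCount n

/-- total number of digits of the prime factors of `n` (number of digits of `f n`, `n ≥ 2`) -/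
def lam (n : ℕ) : ℕ := (n.primeFactorsList.map dc).sum

/-- the greatest prime factor (`0` for `n ≤ 1`) -/
def gp (n : ℕ) : ℕ := n.primeFactors.sup id

/-- the part of `n` composed of the primes `≤ y` -/
def sp (y n : ℕ) : ℕ := (n.primeFactorsList.filter (fun p => p ≤ y)).prod

/-- the sorted list of the prime factors `> y` of `n`, with multiplicity -/
def rl (y n : ℕ) : List ℕ := n.primeFactorsList.filter (fun p => y < p)

/-- number of digits to the right of block `i`: block `0` is the leading block -/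
def ee {v : ℕ} (l : Fin v → ℕ) (i : Fin v) : ℕ := ∑ j ∈ Finset.Ioi i, l j

/-- the block of length `l` of `N` ending at place `e` -/
def blk (e l N : ℕ) : ℕ := N / 10 ^ e % 10 ^ l

/-- the integers which consist of `A` followed by `E` digits -/
def win (A E : ℕ) : Finset ℕ := Finset.Ico (A * 10 ^ E) ((A + 1) * 10 ^ E)

/-- the number with leading part `A` and blocks `x i` of length `l i` -/
def val {v : ℕ} (l : Fin v → ℕ) (A : ℕ) (x : Fin v → ℕ) : ℕ :=
  A * 10 ^ (∑ i, l i) + ∑ i, x i * 10 ^ ee l i

/-- distance to the nearest integer -/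
noncomputable def nr (θ : ℝ) : ℝ := |θ - round θ|

/-- the bound for a geometric sum of length `Y` and ratio `e(θ)` -/
noncomputable def mn (Y θ : ℝ) : ℝ := if nr θ = 0 then Y else min Y (1 / (2 * nr θ))

/-- the product of the bounds for the blocks -/
noncomputable def Pf {v : ℕ} (l : Fin v → ℕ) (θ : ℝ) : ℝ :=
  ∏ i, mn ((10 : ℝ) ^ l i) ((10 : ℝ) ^ ee l i * θ)

/-- the error term of the equidistribution modulo `m` -/
noncomputable def Wm {v : ℕ} (l : Fin v → ℕ) (m : ℕ) : ℝ :=
  (∑ b ∈ Finset.Ico 1 m, Pf l ((b : ℝ) / m)) / m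

/-- bound for `mn` in terms of a block of digits -/
noncomputable def Gc (l c : ℕ) : ℝ :=
  if c = 0 ∨ c + 1 = 10 ^ l then (10 : ℝ) ^ l
  else (10 : ℝ) ^ l / (2 * (min c (10 ^ l - 1 - c) : ℕ))

open scoped Classical in
/-- number of residue vectors modulo `p` with the property `V p` -/
noncomputable def cV {v : ℕ} (V : (p : ℕ) → (Fin v → ZMod p) → Prop) (p : ℕ) : ℕ :=
  ((Fintype.piFinset (fun _ : Fin v => Finset.range p)).filter
    (fun r => V p (fun i => (r i : ZMod p)))).card

/-- the residue vectors sieved out: some block is `0`, or the number plus some `c j` is `0` -/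
def VA {v u : ℕ} (l : Fin v → ℕ) (A : ℕ) (c : Fin u → ℕ) (p : ℕ) (x : Fin v → ZMod p) : Prop :=
  (∃ i, x i = 0) ∨
    ∃ j, (A : ZMod p) * 10 ^ (∑ i, l i) + ∑ i, x i * 10 ^ ee l i + (c j : ZMod p) = 0

open scoped Classical in
/-- the set estimated by the main lemma -/
noncomputable def SS {v : ℕ} (l : Fin v → ℕ) (A : ℕ) (δ : ℝ) : Finset ℕ :=
  (win A (∑ i, l i)).filter (fun N =>
    (∀ i, (blk (ee l i) (l i) N).Prime ∧ 10 ^ (l i - 1) ≤ blk (ee l i) (l i) N) ∧
    (f N).Prime ∧ ((A : ℝ) + 1) * (10 : ℝ) ^ (δ * ((∑ i, l i : ℕ) : ℝ)) ≤ (gp N : ℝ))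

end Pool.Agent.HP
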