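import Pool.Agent.HP.DYA

/-! FIN: `fin0`: a set whose dyadic pieces have relative density `→ 0` has density zero.
`fin1`: if `f^[k] n` is prime for some `k ≤ 2` then `f (f n)` is prime (primes are fixed). -/

set_option autoImplicit false

namespace Pool.Agent.HP

open Finset Nec92d717 Filter Topology

open scoped Classical in
theorem fin0_aux (P : ℕ → Prop) (ε : ℝ) (hε : 0 < ε) (X₀ : ℕ)
    (h : ∀ X ≥ X₀, (((Finset.Ioc (X / 2) X).filter P).card : ℝ) ≤ ε * X) (X : ℕ) :
    (((Finset.range (X + 1)).filter P).card : ℝ) ≤ X₀ + 1 + 2 * ε * X := by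
  induction X using Nat.strong_induction_on with
  | _ X ih =>
    by_cases hX : X₀ ≤ X ∧ 1 ≤ X
    · have h1 := ih (X / 2) (by omega)
      have h2 := h X hX.1
      have h3 : (Finset.range (X + 1)).filter P
          ⊆ (Finset.range (X / 2 + 1)).filter P ∪ (Finset.Ioc (X / 2) X).filter P := by
        intro n hn
        rw [Finset.mem_filter, Finset.mem_range] at hn
        rw [Finset.mem_union, Finset.mem_filter, Finset.mem_filter, Finset.mem_range,
          Finset.mem_Ioc]
        by_cases h4 : n < X / 2 + 1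
        · exact Or.inl ⟨h4, hn.2⟩
        · exact Or.inr ⟨⟨by omega, by omega⟩, hn.2⟩
      have h4 : (((Finset.range (X + 1)).filter P).card : ℝ)
          ≤ (((Finset.range (X / 2 + 1)).filter P).card : ℝ)
            + (((Finset.Ioc (X / 2) X).filter P).card : ℝ) := by
        exact_mod_cast (Finset.card_le_card h3).trans (Finset.card_union_le _ _)
      have h5 : ((X / 2 : ℕ) : ℝ) ≤ (X : ℝ) / 2 := Nat.cast_div_le
      have h6 : 2 * ε * ((X / 2 : ℕ) : ℝ) ≤ 2 * ε * ((X : ℝ) / 2) :=
        mul_le_mul_of_nonneg_left h5 (by positivity)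
      linarith
    · have h1 : (((Finset.range (X + 1)).filter P).card : ℝ) ≤ (X : ℝ) + 1 := by
        have := Finset.card_filter_le (Finset.range (X + 1)) P
        rw [Finset.card_range] at this
        exact_mod_cast this
      have h2 : X ≤ X₀ := by omega
      have h3 : (X : ℝ) ≤ X₀ := by exact_mod_cast h2
      have h4 : 0 ≤ 2 * ε * (X : ℝ) := by positivity
      linarith

open scoped Classical in
theorem fin0 (P : ℕ → Prop) (h : ∀ ε : ℝ, 0 < ε → ∃ X₀ : ℕ, ∀ X ≥ X₀,
    (((Finset.Ioc (X / 2) X).filter P).card : ℝ) ≤ ε * X) :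
    Tendsto (fun X : ℕ => (((Finset.range X).filter P).card : ℝ) / X) atTop (𝓝 0) := by
  rw [tendsto_order]
  refine ⟨fun b hb => ?_, fun b hb => ?_⟩
  · filter_upwards with X
    exact lt_of_lt_of_le hb (by positivity)
  · obtain ⟨X₀, hX₀⟩ := h (b / 4) (by linarith)
    have h1 := fin0_aux P (b / 4) (by linarith) X₀ hX₀
    have h2 : Tendsto (fun X : ℕ => ((X₀ : ℝ) + 1) / (X : ℝ)) atTop (𝓝 0) :=
      tendsto_const_div_atTop_nhds_zero_nat _
    filter_upwards [h2.eventually (gt_mem_nhds (show (0 : ℝ) < b / 4 by linarith)),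
      eventually_ge_atTop 1] with X hX hX1
    have hpos : (0 : ℝ) < X := by exact_mod_cast hX1
    have h3 : (((Finset.range X).filter P).card : ℝ) ≤ X₀ + 1 + 2 * (b / 4) * X := by
      refine le_trans ?_ (h1 X)
      exact_mod_cast Finset.card_le_card
        (Finset.filter_subset_filter _ (Finset.range_subset_range.2 (Nat.le_succ X)))
    rw [div_lt_iff₀ hpos]
    rw [div_lt_iff₀ hpos] at hX
    nlinarith

open scoped Classical in
theorem fin1 :
    Tendsto (fun X : ℕ => (((Finset.range X).filter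
      (fun n => ∃ k ≤ 2, ((primeFactorSplice^[k]) n).Prime)).card : ℝ) / X) atTop (𝓝 0) := by
  have h1 := fin0 (fun n => (f (f n)).Prime) (fun ε hε => by
    obtain ⟨X₀, hX₀⟩ := dya ε hε
    refine ⟨X₀, fun X hX => ?_⟩
    convert hX₀ X hX)
  refine squeeze_zero (fun X => by positivity) (fun X => ?_) h1
  apply div_le_div_of_nonneg_right _ (by positivity)
  apply Nat.cast_le.2
  apply Finset.card_le_card
  intro n hn
  simp only [Finset.mem_filter] at hn ⊢
  refine ⟨hn.1, ?_⟩
  obtain ⟨k, hk, hp⟩ := hn.2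
  interval_cases k
  · have hp' : n.Prime := hp
    rw [(f_prime hp').1, (f_prime hp').1]
    exact hp'
  · have hp' : (f n).Prime := hp
    rw [(f_prime hp').1]
    exact hp'
  · exact hp

end Pool.Agent.HP
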