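import Pool.Agent.HP.Defs

/-! LOW (~120 lines): many `n ≤ X` have `gp n ≥ X^(1-δ)`. These are the `n = m q`, `q ≥ X^(1-δ)` prime, `m ≤ X^δ` (`m < q` so that `q = gp n` and
`(m, q)` is determined by `n`). `π(Z) ≥ c₁ Z/log Z` (`Chebyshev.pi_ge`), `π(Z) ≤ C₁ Z/log Z` (`Chebyshev.eventually_primeCounting_le`): for `m ≤ c₂ X^δ`,
`π(X/m) - π(X^(1-δ)) ≥ (c₁/2) (X/m)/log X`. Sum over `m ≤ c₂ X^δ`: `∑ 1/m ≥ δ log X + log c₂`. -/

set_option autoImplicit false

namespace Pool.Agent.HP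

open Finset

/-- lower Chebyshev bound -/
theorem LOW_pi : ∃ Z₀ : ℕ, ∀ Z ≥ Z₀, (Z : ℝ) / (2 * Real.log Z) ≤ (Nat.primeCounting Z : ℝ) := by
  have h1 : ∀ᶠ x : ℝ in Filter.atTop, Real.log x ≤ (1 / 20) * x := by
    have := (Real.isLittleO_log_id_atTop.def (show (0 : ℝ) < 1 / 20 by norm_num))
    filter_upwards [this, Filter.eventually_ge_atTop (1 : ℝ)] with x hx hx1
    rw [Real.norm_of_nonneg (Real.log_nonneg hx1), id, Real.norm_of_nonneg (by linarith)] at hx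
    exact hx
  obtain ⟨a, ha⟩ := Filter.eventually_atTop.1 h1
  refine ⟨max ⌈a⌉₊ 2, fun Z hZ => ?_⟩
  have hZ2 : 2 ≤ Z := (le_max_right _ _).trans hZ
  have hZa : a ≤ (Z : ℝ) := (Nat.le_ceil a).trans (by exact_mod_cast (le_max_left _ _).trans hZ)
  have hZ2R : (2 : ℝ) ≤ (Z : ℝ) := by exact_mod_cast hZ2
  have hlog : 0 < Real.log Z := Real.log_pos (by linarith)
  refine le_trans ?_ (Chebyshev.pi_ge Z)
  rw [div_le_div_iff₀ (by positivity) hlog]
  have h2 := ha ((Z : ℝ) + 1) (by linarith)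
  have h3 := Real.log_two_gt_d9
  have h4 : (Z : ℝ) ≤ 2 * (Z * Real.log 2 - Real.log ((Z : ℝ) + 1)) := by nlinarith
  nlinarith [mul_le_mul_of_nonneg_right h4 hlog.le]

/-- many primes in `[Y, Z]` -/
theorem LOW_card (Y Z : ℕ) : (Nat.primeCounting Z : ℝ) - Y ≤
    (((Finset.Icc Y Z).filter Nat.Prime).card : ℝ) := by
  have h1 : Nat.primeCounting Z = ((Finset.range (Z + 1)).filter Nat.Prime).card := by
    rw [Nat.primeCounting, Nat.primeCounting', Nat.count_eq_card_filter_range]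
  have h2 : (Finset.range (Z + 1)).filter Nat.Prime ⊆
      (Finset.Icc Y Z).filter Nat.Prime ∪ Finset.range Y := by
    intro q hq
    rw [Finset.mem_filter, Finset.mem_range] at hq
    rw [Finset.mem_union, Finset.mem_filter, Finset.mem_Icc, Finset.mem_range]
    by_cases h : q < Y
    · exact Or.inr h
    · exact Or.inl ⟨⟨by omega, by omega⟩, hq.2⟩
  have h3 := (Finset.card_le_card h2).trans (Finset.card_union_le _ _)
  rw [Finset.card_range, ← h1] at h3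
  have h4 : (Nat.primeCounting Z : ℝ) ≤ (((Finset.Icc Y Z).filter Nat.Prime).card : ℝ) + Y := by
    exact_mod_cast h3
  linarith

/-- the products `m q` are distinct -/
theorem LOW_inj (X M : ℕ) (Y : ℝ) (hMY : (M : ℝ) < Y) :
    ∑ m ∈ Finset.Icc 1 M, ((Finset.Icc ⌈Y⌉₊ (X / m)).filter Nat.Prime).card ≤
      ((Finset.Icc 1 X).filter (fun n => Y ≤ (gp n : ℝ))).card := by
  rw [← Finset.card_sigma]
  refine Finset.card_le_card_of_injOn (fun s => s.1 * s.2) ?_ ?_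
  · rintro ⟨m, q⟩ hs
    rw [Finset.mem_coe, Finset.mem_sigma, Finset.mem_filter, Finset.mem_Icc, Finset.mem_Icc] at hs
    obtain ⟨hm, hq, hqp⟩ := hs
    simp only at hm hq hqp
    rw [Finset.mem_coe, Finset.mem_filter, Finset.mem_Icc]
    have hmq : 1 ≤ m * q := Nat.mul_pos hm.1 hqp.pos
    refine ⟨⟨hmq, ?_⟩, ?_⟩
    · have := (Nat.le_div_iff_mul_le (by omega)).1 hq.2
      show m * q ≤ X
      rw [Nat.mul_comm]
      exact this
    · have hle : q ≤ gp (m * q) := by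
        unfold gp
        refine Finset.le_sup (f := id) ?_
        rw [Nat.mem_primeFactors]
        exact ⟨hqp, Dvd.intro_left m rfl, by omega⟩
      have h1 : Y ≤ (q : ℝ) := Nat.ceil_le.1 hq.1
      exact h1.trans (by exact_mod_cast hle)
  · rintro ⟨m, q⟩ hs ⟨m', q'⟩ hs' h
    rw [Finset.mem_coe, Finset.mem_sigma, Finset.mem_filter, Finset.mem_Icc, Finset.mem_Icc]
      at hs hs'
    obtain ⟨hm, hq, hqp⟩ := hs
    obtain ⟨hm', hq', hqp'⟩ := hs'
    simp only at hm hq hqp hm' hq' hqp' h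
    have hbig : M < q := by
      have h1 : Y ≤ (q : ℝ) := Nat.ceil_le.1 hq.1
      exact_mod_cast hMY.trans_le h1
    have hqq : q = q' := by
      by_contra hne
      have hd : q ∣ m' * q' := Dvd.intro_left m h
      have hd2 : q ∣ m' := (hqp.coprime_iff_not_dvd.2 (fun h' =>
        hne ((Nat.prime_dvd_prime_iff_eq hqp hqp').1 h'))).dvd_of_dvd_mul_right hd
      have := Nat.le_of_dvd (by omega) hd2
      omega
    subst hqq
    have hmm : m = m' := Nat.eq_of_mul_eq_mul_right hqp.pos h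
    subst hmm
    rfl

theorem low : ∃ c : ℝ, 0 < c ∧ ∀ δ : ℝ, 0 < δ → δ ≤ 1 / 4 → ∃ X₀ : ℕ, ∀ X ≥ X₀,
    c * δ * X ≤ (((Finset.Icc 1 X).filter (fun n => (X : ℝ) ^ (1 - δ) ≤ (gp n : ℝ))).card : ℝ) := by
  obtain ⟨Z₀, hZ₀⟩ := LOW_pi
  refine ⟨1 / 16, by norm_num, fun δ hδ hδ4 => ?_⟩
  have hE3 : ∀ᶠ x : ℝ in Filter.atTop, 16 * Real.log x ≤ x ^ (δ / 2) := by
    have := (isLittleO_log_rpow_atTop (half_pos hδ)).def (show (0 : ℝ) < 1 / 16 by norm_num)
    filter_upwards [this, Filter.eventually_ge_atTop (1 : ℝ)] with x hx hx1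
    rw [Real.norm_of_nonneg (Real.log_nonneg hx1), Real.norm_of_nonneg (by positivity)] at hx
    linarith
  have hE1 : ∀ᶠ x : ℝ in Filter.atTop, (Z₀ : ℝ) + 2 ≤ x ^ ((3 : ℝ) / 4) :=
    (tendsto_rpow_atTop (by norm_num : (0 : ℝ) < 3 / 4)).eventually_ge_atTop _
  obtain ⟨a, ha⟩ := Filter.eventually_atTop.1 (hE3.and hE1)
  refine ⟨max ⌈a⌉₊ 3, fun X hX => ?_⟩
  have hX3 : 3 ≤ X := (le_max_right _ _).trans hX
  have hXa : a ≤ (X : ℝ) := (Nat.le_ceil a).trans (by exact_mod_cast (le_max_left _ _).trans hX)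
  obtain ⟨h3, h1⟩ := ha X hXa
  have hX3R : (3 : ℝ) ≤ (X : ℝ) := by exact_mod_cast hX3
  have hX0 : (0 : ℝ) < X := by linarith
  set L := Real.log X with hL
  have hL1 : 1 ≤ L := by
    rw [hL, Real.le_log_iff_exp_le hX0]
    linarith [Real.exp_one_lt_d9]
  set M := ⌊(X : ℝ) ^ δ / (16 * L)⌋₊ with hM
  have hMle : (M : ℝ) ≤ (X : ℝ) ^ δ / (16 * L) := Nat.floor_le (by positivity)
  have hXδ : (X : ℝ) ^ δ / (16 * L) ≤ (X : ℝ) ^ ((1 : ℝ) / 4) := by
    rw [div_le_iff₀ (by linarith)]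
    have e1 : (X : ℝ) ^ δ ≤ (X : ℝ) ^ ((1 : ℝ) / 4) :=
      Real.rpow_le_rpow_of_exponent_le (by linarith) hδ4
    have e2 : 0 < (X : ℝ) ^ ((1 : ℝ) / 4) := by positivity
    nlinarith
  have hX14 : (X : ℝ) ^ ((1 : ℝ) / 4) < (X : ℝ) ^ (1 - δ) :=
    Real.rpow_lt_rpow_of_exponent_lt (by linarith) (by linarith)
  have hMY : (M : ℝ) < (X : ℝ) ^ (1 - δ) := (hMle.trans hXδ).trans_lt hX14
  have hinj := LOW_inj X M ((X : ℝ) ^ (1 - δ)) hMY
  have hinjR : ∑ m ∈ Finset.Icc 1 M,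
      (((Finset.Icc ⌈(X : ℝ) ^ (1 - δ)⌉₊ (X / m)).filter Nat.Prime).card : ℝ) ≤
      (((Finset.Icc 1 X).filter (fun n => (X : ℝ) ^ (1 - δ) ≤ (gp n : ℝ))).card : ℝ) := by
    exact_mod_cast hinj
  refine le_trans ?_ hinjR
  have hterm : ∀ m ∈ Finset.Icc 1 M, (X : ℝ) / (8 * L) * ((m : ℝ))⁻¹ ≤
      (((Finset.Icc ⌈(X : ℝ) ^ (1 - δ)⌉₊ (X / m)).filter Nat.Prime).card : ℝ) := by
    intro m hm
    rw [Finset.mem_Icc] at hm
    have hm0 : (0 : ℝ) < m := by exact_mod_cast hm.1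
    have hmM : (m : ℝ) ≤ M := by exact_mod_cast hm.2
    refine le_trans ?_ (LOW_card _ _)
    -- the quotient
    have hq1 : (X : ℝ) / m ≤ ((X / m : ℕ) : ℝ) + 1 := by
      rw [div_le_iff₀ hm0]
      have h5 : X < m * (X / m) + m := by
        have h6 := Nat.div_add_mod X m
        have h7 := Nat.mod_lt X (show m > 0 by omega)
        omega
      have h6 : (X : ℝ) < m * ((X / m : ℕ) : ℝ) + m := by exact_mod_cast h5
      linarith
    have hXm : (Z₀ : ℝ) + 2 ≤ (X : ℝ) / m := by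
      rw [le_div_iff₀ hm0]
      have e1 : (m : ℝ) ≤ (X : ℝ) ^ ((1 : ℝ) / 4) := hmM.trans (hMle.trans hXδ)
      have e2 : (X : ℝ) = (X : ℝ) ^ ((3 : ℝ) / 4) * (X : ℝ) ^ ((1 : ℝ) / 4) := by
        rw [← Real.rpow_add hX0]
        norm_num
      rw [e2]
      exact mul_le_mul h1 e1 hm0.le (by positivity)
    have hZge : Z₀ ≤ X / m := by
      have : (Z₀ : ℝ) ≤ ((X / m : ℕ) : ℝ) := by linarith
      exact_mod_cast this
    have hZ1 : (1 : ℝ) ≤ ((X / m : ℕ) : ℝ) := by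
      have h0 : (0 : ℝ) ≤ Z₀ := Nat.cast_nonneg _
      linarith
    have hZhalf : (X : ℝ) / m ≤ 2 * ((X / m : ℕ) : ℝ) := by linarith
    have hpi := hZ₀ (X / m) hZge
    have hZX : ((X / m : ℕ) : ℝ) ≤ X := by exact_mod_cast Nat.div_le_self X m
    have hlogle : Real.log ((X / m : ℕ) : ℝ) ≤ L := Real.log_le_log (by linarith) hZX
    have hZ2 : 2 ≤ X / m ∨ X / m = 1 := by
      have : 1 ≤ X / m := by exact_mod_cast hZ1
      omega
    have hlow : (X : ℝ) / (4 * L) * ((m : ℝ))⁻¹ ≤ (Nat.primeCounting (X / m) : ℝ) := by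
      rcases hZ2 with hZ2 | hZ2
      · refine le_trans ?_ hpi
        have hZ2R : (2 : ℝ) ≤ ((X / m : ℕ) : ℝ) := by exact_mod_cast hZ2
        have hlogpos : 0 < Real.log ((X / m : ℕ) : ℝ) := Real.log_pos (by linarith)
        have e1 : (X : ℝ) / (4 * L) * ((m : ℝ))⁻¹ = ((X : ℝ) / m) / (4 * L) := by
          field_simp
        rw [e1, div_le_div_iff₀ (by linarith) (by linarith)]
        have e3 : ((X : ℝ) / m) * (2 * Real.log ((X / m : ℕ) : ℝ)) ≤
            (2 * ((X / m : ℕ) : ℝ)) * (2 * L) := by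
          refine mul_le_mul hZhalf (by linarith) (by linarith) (by linarith)
        linarith
      · -- then `Z₀ ≤ 1` and the bound `(X / m) ≤ 2`
        exfalso
        have h0 : (0 : ℝ) ≤ Z₀ := Nat.cast_nonneg _
        have h8 : (X : ℝ) / m < 2 := by
          rw [div_lt_iff₀ hm0]
          have h5 : X < m * (X / m) + m := by
            have h6 := Nat.div_add_mod X m
            have h7 := Nat.mod_lt X (show m > 0 by omega)
            omega
          rw [hZ2] at h5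
          have h6 : (X : ℝ) < m * (1 : ℕ) + m := by exact_mod_cast h5
          push_cast at h6
          linarith
        linarith
    have hceil : ((⌈(X : ℝ) ^ (1 - δ)⌉₊ : ℕ) : ℝ) ≤ (X : ℝ) / (8 * L) * ((m : ℝ))⁻¹ := by
      have e1 : ((⌈(X : ℝ) ^ (1 - δ)⌉₊ : ℕ) : ℝ) ≤ (X : ℝ) ^ (1 - δ) + 1 :=
        (Nat.ceil_lt_add_one (by positivity)).le
      have e2 : 1 ≤ (X : ℝ) ^ (1 - δ) := Real.one_le_rpow (by linarith) (by linarith)
      have e3 : (m : ℝ) * (16 * L) ≤ (X : ℝ) ^ δ := by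
        have := hmM.trans hMle
        rwa [le_div_iff₀ (by linarith)] at this
      have e4 : (X : ℝ) = (X : ℝ) ^ (1 - δ) * (X : ℝ) ^ δ := by
        rw [← Real.rpow_add hX0]
        norm_num
      have e5 : (X : ℝ) / (8 * L) * ((m : ℝ))⁻¹ = (X : ℝ) / (8 * L * m) := by
        field_simp
      rw [e5, le_div_iff₀ (by positivity)]
      have e6 : (X : ℝ) ^ (1 - δ) * (m * (16 * L)) ≤ X := by
        calc (X : ℝ) ^ (1 - δ) * (m * (16 * L)) ≤ (X : ℝ) ^ (1 - δ) * (X : ℝ) ^ δ :=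
              mul_le_mul_of_nonneg_left e3 (by positivity)
          _ = X := e4.symm
      have e7 : ((⌈(X : ℝ) ^ (1 - δ)⌉₊ : ℕ) : ℝ) ≤ 2 * (X : ℝ) ^ (1 - δ) := by linarith
      have e8 : 0 ≤ 8 * L * (m : ℝ) := by positivity
      calc ((⌈(X : ℝ) ^ (1 - δ)⌉₊ : ℕ) : ℝ) * (8 * L * m) ≤
            (2 * (X : ℝ) ^ (1 - δ)) * (8 * L * m) := mul_le_mul_of_nonneg_right e7 e8
        _ = (X : ℝ) ^ (1 - δ) * (m * (16 * L)) := by ring
        _ ≤ X := e6
    have e9 : (X : ℝ) / (4 * L) * ((m : ℝ))⁻¹ = 2 * ((X : ℝ) / (8 * L) * ((m : ℝ))⁻¹) := by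
      field_simp
      ring
    rw [e9] at hlow
    linarith
  refine le_trans ?_ (Finset.sum_le_sum hterm)
  rw [← Finset.mul_sum]
  have hharm : δ / 2 * L ≤ ∑ m ∈ Finset.Icc 1 M, ((m : ℝ))⁻¹ := by
    have h5 := log_add_one_le_harmonic M
    rw [harmonic_eq_sum_Icc] at h5
    push_cast at h5
    refine le_trans ?_ h5
    have h6 : (X : ℝ) ^ (δ / 2) ≤ (M : ℝ) + 1 := by
      have e1 : (X : ℝ) ^ δ / (16 * L) < (M : ℝ) + 1 := Nat.lt_floor_add_one _
      refine le_trans ?_ e1.le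
      rw [le_div_iff₀ (by linarith)]
      calc (X : ℝ) ^ (δ / 2) * (16 * L) ≤ (X : ℝ) ^ (δ / 2) * (X : ℝ) ^ (δ / 2) :=
            mul_le_mul_of_nonneg_left h3 (by positivity)
        _ = (X : ℝ) ^ δ := by
            rw [← Real.rpow_add hX0]
            congr 1
            ring
    have h7 := Real.log_le_log (by positivity) h6
    rw [Real.log_rpow hX0] at h7
    exact h7
  calc 1 / 16 * δ * (X : ℝ) = (X : ℝ) / (8 * L) * (δ / 2 * L) := by
        field_simp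
        ring
    _ ≤ (X : ℝ) / (8 * L) * ∑ m ∈ Finset.Icc 1 M, ((m : ℝ))⁻¹ :=
        mul_le_mul_of_nonneg_left hharm (by positivity)

end Pool.Agent.HP
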