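import Pool.Agent.HP.CMA
import Pool.Agent.HP.LOW

/-! FIO (~100 lines): a positive proportion does not reach a prime within three steps. `c` from `low`, `cma (c/8)` gives `δ₀`. The
`n ≤ X` with `gp n ≥ X^(1-δ₀)` are `≥ c δ₀ X`; those with `f (f (f n))` prime are, by dyadic decomposition (`X_i = X/2^i`, natural
division, `X_i^(1-δ₀) ≤ X^(1-δ₀)`), `≤ ∑ (c/8) δ₀ X/2^i + X₀ ≤ (c/4) δ₀ X + X₀`. If `f^[k] n` is prime for a `k ≤ 3` then `f (f (f n))` is prime. -/

set_option autoImplicit false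

namespace Pool.Agent.HP

open Finset Nec92d717

open scoped Classical in
theorem fio_aux (P : ℕ → Prop) (ε : ℝ) (hε : 0 < ε) (X₀ X₁ : ℕ)
    (h : ∀ X ≥ X₀, X ≤ X₁ → (((Finset.Ioc (X / 2) X).filter P).card : ℝ) ≤ ε * X) (X : ℕ)
    (hX₁ : X ≤ X₁) :
    (((Finset.range (X + 1)).filter P).card : ℝ) ≤ X₀ + 1 + 2 * ε * X := by
  induction X using Nat.strong_induction_on with
  | _ X ih =>
    by_cases hX : X₀ ≤ X ∧ 1 ≤ X
    · have h1 := ih (X / 2) (by omega) (by omega)
      have h2 := h X hX.1 hX₁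
      have h3 : (Finset.range (X + 1)).filter P
          ⊆ (Finset.range (X / 2 + 1)).filter P ∪ (Finset.Ioc (X / 2) X).filter P := by
        intro n hn
        rw [Finset.mem_filter, Finset.mem_range] at hn
        rw [Finset.mem_union, Finset.mem_filter, Finset.mem_filter, Finset.mem_range,
          Finset.mem_Ioc]
        by_cases h4 : n < X / 2 + 1
        · exact Or.inl ⟨h4, hn.2⟩
        · exact Or.inr ⟨⟨by omega, by omega⟩, hn.2⟩
      have h4 : (((Finset.range (X + 1)).filter P).card : ℝ)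
          ≤ (((Finset.range (X / 2 + 1)).filter P).card : ℝ)
            + (((Finset.Ioc (X / 2) X).filter P).card : ℝ) := by
        exact_mod_cast (Finset.card_le_card h3).trans (Finset.card_union_le _ _)
      have h5 : ((X / 2 : ℕ) : ℝ) ≤ (X : ℝ) / 2 := Nat.cast_div_le
      have h6 : 2 * ε * ((X / 2 : ℕ) : ℝ) ≤ 2 * ε * ((X : ℝ) / 2) :=
        mul_le_mul_of_nonneg_left h5 (by positivity)
      linarith
    · have h1 : (((Finset.range (X + 1)).filter P).card : ℝ) ≤ (X : ℝ) + 1 := by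
        have := Finset.card_filter_le (Finset.range (X + 1)) P
        rw [Finset.card_range] at this
        exact_mod_cast this
      have h2 : X ≤ X₀ := by omega
      have h3 : (X : ℝ) ≤ X₀ := by exact_mod_cast h2
      have h4 : 0 ≤ 2 * ε * (X : ℝ) := by positivity
      linarith

theorem fio_iter {n k : ℕ} (hk : k ≤ 3) (hp : ((primeFactorSplice^[k]) n).Prime) :
    (f (f (f n))).Prime := by
  interval_cases k
  · have hp' : n.Prime := hp
    rw [(f_prime hp').1, (f_prime hp').1, (f_prime hp').1]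
    exact hp'
  · have hp' : (f n).Prime := hp
    rw [(f_prime hp').1, (f_prime hp').1]
    exact hp'
  · have hp' : (f (f n)).Prime := hp
    rw [(f_prime hp').1]
    exact hp'
  · exact hp

open scoped Classical in
theorem fio : ∃ c : ℝ, 0 < c ∧ ∃ X₀ : ℕ, ∀ X ≥ X₀,
    c * X ≤ (((Finset.range X).filter
      (fun n => ∀ k ≤ 3, ¬ ((primeFactorSplice^[k]) n).Prime)).card : ℝ) := by
  obtain ⟨c, hc, hlow⟩ := low
  obtain ⟨δ₀, hδ0, hδ4, X1, hcma⟩ := cma (c / 8) (by positivity)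
  obtain ⟨X2, hlow'⟩ := hlow δ₀ hδ0 hδ4
  have hcδ : 0 < c * δ₀ := by positivity
  obtain ⟨X3, hX3⟩ := exists_nat_gt (((X1 : ℝ) + 2) / (c * δ₀ / 4))
  refine ⟨c * δ₀ / 4, by positivity, max X2 X3, fun X hX => ?_⟩
  have hXX2 : X2 ≤ X := (le_max_left _ _).trans hX
  have hXX3 : X3 ≤ X := (le_max_right _ _).trans hX
  set T : ℝ := (X : ℝ) ^ (1 - δ₀) with hT
  suffices H : ∀ S : Finset ℕ, (∀ n, n ∈ S ↔ n < X ∧
      ∀ k ≤ 3, ¬ ((primeFactorSplice^[k]) n).Prime) → c * δ₀ / 4 * X ≤ (S.card : ℝ) from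
    H _ (fun n => by simp only [Finset.mem_filter, Finset.mem_range])
  intro S hS
  obtain ⟨A, hA, h1⟩ : ∃ A : Finset ℕ, (∀ n, n ∈ A ↔ (1 ≤ n ∧ n ≤ X) ∧ T ≤ (gp n : ℝ)) ∧
      c * δ₀ * X ≤ (A.card : ℝ) :=
    ⟨_, fun n => by simp only [Finset.mem_filter, Finset.mem_Icc, hT], hlow' X hXX2⟩
  have h2' := fio_aux (fun n => T ≤ (gp n : ℝ) ∧ (f (f (f n))).Prime) (c / 8 * δ₀) (by positivity)
    X1 X (fun Y hY hYX => by
      refine le_trans ?_ (hcma Y hY)
      apply Nat.cast_le.2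
      apply Finset.card_le_card
      intro n hn
      simp only [Finset.mem_filter] at hn ⊢
      refine ⟨hn.1, ?_, hn.2.2⟩
      refine le_trans ?_ hn.2.1
      rw [hT]
      exact Real.rpow_le_rpow (Nat.cast_nonneg _) (by exact_mod_cast hYX) (by linarith)) X le_rfl
  obtain ⟨B, hB, h2⟩ : ∃ B : Finset ℕ, (∀ n, n ∈ B ↔ n < X + 1 ∧ T ≤ (gp n : ℝ) ∧
      (f (f (f n))).Prime) ∧ (B.card : ℝ) ≤ X1 + 1 + 2 * (c / 8 * δ₀) * X :=
    ⟨_, fun n => by simp only [Finset.mem_filter, Finset.mem_range], h2'⟩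
  have h3 : A ⊆ B ∪ (insert X S) := by
    intro n hn
    rw [hA] at hn
    rw [Finset.mem_union, hB, Finset.mem_insert, hS]
    by_cases h4 : (f (f (f n))).Prime
    · exact Or.inl ⟨by omega, hn.2, h4⟩
    · right
      by_cases h5 : n = X
      · exact Or.inl h5
      · right
        refine ⟨by omega, fun k hk hp => h4 (fio_iter hk hp)⟩
  have h4 : (A.card : ℝ) ≤ (B.card : ℝ) + ((S.card : ℝ) + 1) := by
    have h5 := (Finset.card_le_card h3).trans (Finset.card_union_le _ _)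
    have h6 := Finset.card_insert_le X S
    exact_mod_cast h5.trans (Nat.add_le_add_left h6 _)
  have h6 : ((X1 : ℝ) + 2) ≤ c * δ₀ / 4 * X := by
    have h7 : (X3 : ℝ) ≤ X := by exact_mod_cast hXX3
    rw [div_lt_iff₀ (by positivity)] at hX3
    nlinarith
  linarith

end Pool.Agent.HP
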