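import Pool.Agent.HP.Defs

/-! FOU (~150 lines): Fourier inversion on `ℤ/m` for a linear congruence in a box.
`1_{m ∣ s} = (1/m) ∑_{b mod m} e(b s / m)`, so the count is `(1/m) ∑_b e(b c/m) ∏_i D_i(b g_i/m)`,
`D_Y(θ) = ∑_{y<Y} e(y θ)`; `b = 0` gives the main term. `‖D_Y(θ)‖ ≤ Y`, and if `nr θ ≠ 0`
`‖D_Y(θ)‖ ≤ 2/‖e(θ)-1‖ = 1/|sin π θ| ≤ 1/(2 nr θ)` (`Real.mul_le_sin`/ `two_div_pi_mul_le_sin`-type inequality `sin x ≥ 2x/π`
on `[0, π/2]`, `|sin π θ| = sin (π nr θ)`). Exchange of sum and product: `Finset.prod_univ_sum`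
(`∏ i, ∑ y ∈ range (Y i), F i y = ∑ y ∈ Fintype.piFinset .., ∏ i, F i (y i)`). -/

set_option autoImplicit false

namespace Pool.Agent.HP

open Finset

/-- the additive character `e(θ)` -/
private noncomputable def fouE (θ : ℝ) : ℂ := Complex.exp (Complex.I * ((2 * Real.pi * θ : ℝ) : ℂ))

private theorem fouE_add (a b : ℝ) : fouE (a + b) = fouE a * fouE b := by
  unfold fouE
  rw [← Complex.exp_add]
  congr 1
  push_cast
  ring

private theorem fouE_zero : fouE 0 = 1 := by
  simp [fouE]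

private theorem fouE_norm (a : ℝ) : ‖fouE a‖ = 1 := by
  unfold fouE
  rw [mul_comm]
  exact Complex.norm_exp_ofReal_mul_I _

private theorem fouE_nsmul (a : ℝ) (n : ℕ) : fouE (n * a) = fouE a ^ n := by
  unfold fouE
  rw [← Complex.exp_nat_mul]
  congr 1
  push_cast
  ring

private theorem fouE_nat (n : ℕ) : fouE n = 1 := by
  unfold fouE
  rw [Complex.exp_eq_one_iff]
  refine ⟨n, ?_⟩
  push_cast
  ring

private theorem fouE_sum {ι : Type*} (s : Finset ι) (a : ι → ℝ) :
    fouE (∑ i ∈ s, a i) = ∏ i ∈ s, fouE (a i) := by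
  classical
  induction s using Finset.induction_on with
  | empty => simp [fouE_zero]
  | insert x s hx ih => rw [Finset.sum_insert hx, Finset.prod_insert hx, fouE_add, ih]

private theorem fouE_sub_one (θ : ℝ) : ‖fouE θ - 1‖ = 2 * |Real.sin (Real.pi * θ)| := by
  unfold fouE
  rw [Complex.norm_exp_I_mul_ofReal_sub_one]
  rw [Real.norm_eq_abs, abs_mul, abs_of_nonneg (by norm_num : (0:ℝ) ≤ 2)]
  congr 3
  ring

private theorem fouSin (θ : ℝ) : 2 * nr θ ≤ |Real.sin (Real.pi * θ)| := by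
  have h1 : Real.pi * θ = Real.pi * (θ - round θ) + (round θ : ℤ) * Real.pi := by ring
  have h2 : |Real.sin (Real.pi * θ)| = |Real.sin (Real.pi * (θ - round θ))| := by
    rw [h1, Real.sin_add_int_mul_pi, abs_mul]
    simp
  rw [h2]
  have h3 : |Real.pi * (θ - round θ)| ≤ Real.pi / 2 := by
    rw [abs_mul, abs_of_pos Real.pi_pos]
    have := abs_sub_round θ
    nlinarith [Real.pi_pos]
  have h4 := Real.mul_abs_le_abs_sin h3
  refine le_trans (le_of_eq ?_) h4
  rw [abs_mul, abs_of_pos Real.pi_pos]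
  unfold nr
  field_simp

private theorem fouD (Y : ℕ) (θ : ℝ) :
    ‖∑ y ∈ range Y, fouE θ ^ y‖ ≤ mn Y θ := by
  have hY : ‖∑ y ∈ range Y, fouE θ ^ y‖ ≤ Y := by
    refine (norm_sum_le _ _).trans ?_
    simp [norm_pow, fouE_norm]
  unfold mn
  split_ifs with h
  · exact hY
  · refine le_min hY ?_
    have h0 : 0 < nr θ := lt_of_le_of_ne (abs_nonneg _) (Ne.symm h)
    have h1 := fouSin θ
    have h2 : fouE θ ≠ 1 := by
      intro h2
      have := fouE_sub_one θ
      rw [h2] at this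
      simp at this
      rw [this] at h1
      simp at h1
      linarith
    rw [geom_sum_eq h2, norm_div, fouE_sub_one]
    have h3 : ‖fouE θ ^ Y - 1‖ ≤ 2 := by
      refine (norm_sub_le _ _).trans ?_
      rw [norm_pow, fouE_norm]
      norm_num
    have h4 : 0 < |Real.sin (Real.pi * θ)| := by linarith
    rw [div_le_div_iff₀ (by positivity) (by positivity)]
    nlinarith

private theorem fouOrth (m : ℕ) (hm : 1 ≤ m) (s : ℕ) :
    (∑ b ∈ range m, fouE ((b : ℝ) * s / m)) = if m ∣ s then (m : ℂ) else 0 := by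
  have hm0 : (m : ℝ) ≠ 0 := by positivity
  have h0 : ∀ b ∈ range m, fouE ((b : ℝ) * s / m) = fouE ((s : ℝ) / m) ^ b := by
    intro b _
    rw [← fouE_nsmul]
    congr 1
    ring
  rw [Finset.sum_congr rfl h0]
  split_ifs with h
  · obtain ⟨k, rfl⟩ := h
    have : ((m * k : ℕ) : ℝ) / m = (k : ℕ) := by
      push_cast
      field_simp
    rw [this, fouE_nat]
    simp
  · have h2 : fouE ((s : ℝ) / m) ≠ 1 := by
      intro h2
      unfold fouE at h2
      rw [Complex.exp_eq_one_iff] at h2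
      obtain ⟨k, hk⟩ := h2
      apply h
      have h3 : (s : ℝ) / m = k := by
        have h4 : (2 * Real.pi * Complex.I : ℂ) ≠ 0 := by
          simp [Real.pi_ne_zero]
        have h5 : (2 * Real.pi * Complex.I : ℂ) * ((s : ℝ) / m : ℝ) = (2 * Real.pi * Complex.I : ℂ) * ((k : ℝ) : ℂ) := by
          have := hk
          push_cast at this ⊢
          linear_combination this
        have h6 := mul_left_cancel₀ h4 h5
        exact_mod_cast h6
      have h7 : (s : ℝ) = k * m := by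
        rw [← h3]
        field_simp
      have h8 : (s : ℤ) = k * m := by exact_mod_cast h7
      have h9 : (m : ℤ) ∣ s := ⟨k, by rw [h8]; ring⟩
      exact_mod_cast h9
    rw [geom_sum_eq h2, ← fouE_nsmul]
    have : (m : ℝ) * ((s : ℝ) / m) = (s : ℕ) := by field_simp
    rw [this, fouE_nat]
    simp

theorem fou {v : ℕ} (m : ℕ) (hm : 1 ≤ m) (g Y : Fin v → ℕ) (c : ℕ) :
    |(((Fintype.piFinset (fun i => Finset.range (Y i))).filter
        (fun y => m ∣ c + ∑ i, g i * y i)).card : ℝ) - (∏ i, (Y i : ℝ)) / m| ≤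
      (∑ b ∈ Finset.Ico 1 m, ∏ i, mn (Y i) ((b : ℝ) * g i / m)) / m := by
  classical
  have hm0 : (m : ℝ) ≠ 0 := by positivity
  have hmC : (m : ℂ) ≠ 0 := by exact_mod_cast hm0
  set N : ℕ := ((Fintype.piFinset (fun i => Finset.range (Y i))).filter
        (fun y => m ∣ c + ∑ i, g i * y i)).card with hN
  -- the count as a double sum
  have h1 : (m : ℂ) * (N : ℂ) = ∑ b ∈ range m, fouE ((b : ℝ) * c / m) *
      ∏ i, ∑ y ∈ range (Y i), fouE ((b : ℝ) * g i / m) ^ y := by
    have e1 : (m : ℂ) * (N : ℂ) = ∑ y ∈ Fintype.piFinset (fun i => Finset.range (Y i)),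
        if m ∣ c + ∑ i, g i * y i then (m : ℂ) else 0 := by
      rw [hN, Finset.card_filter]
      push_cast
      rw [Finset.mul_sum]
      refine Finset.sum_congr rfl fun y _ => ?_
      split_ifs <;> simp
    rw [e1]
    have e2 : ∀ y ∈ Fintype.piFinset (fun i => Finset.range (Y i)),
        (if m ∣ c + ∑ i, g i * y i then (m : ℂ) else 0) =
        ∑ b ∈ range m, fouE ((b : ℝ) * c / m) * ∏ i, fouE ((b : ℝ) * g i / m) ^ (y i) := by
      intro y _
      rw [← fouOrth m hm]
      refine Finset.sum_congr rfl fun b _ => ?_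
      have e3 : (b : ℝ) * ((c + ∑ i, g i * y i : ℕ) : ℝ) / m =
          (b : ℝ) * c / m + ∑ i, (y i : ℝ) * ((b : ℝ) * g i / m) := by
        push_cast
        rw [mul_add, add_div, Finset.mul_sum, Finset.sum_div]
        congr 1
        refine Finset.sum_congr rfl fun i _ => ?_
        ring
      rw [e3, fouE_add, fouE_sum]
      congr 1
      refine Finset.prod_congr rfl fun i _ => ?_
      rw [fouE_nsmul]
    rw [Finset.sum_congr rfl e2, Finset.sum_comm]
    refine Finset.sum_congr rfl fun b _ => ?_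
    rw [← Finset.mul_sum, Finset.prod_univ_sum]
  have hsplit : range m = insert 0 (Finset.Ico 1 m) := by
    ext x
    simp
    omega
  have h0 : (0 : ℕ) ∉ Finset.Ico 1 m := by simp
  rw [hsplit, Finset.sum_insert h0] at h1
  have h2 : fouE (((0 : ℕ) : ℝ) * c / m) *
      ∏ i, ∑ y ∈ range (Y i), fouE (((0 : ℕ) : ℝ) * g i / m) ^ y = ∏ i, (Y i : ℂ) := by
    simp [fouE_zero]
  rw [h2] at h1
  have h3 : (((N : ℝ) - (∏ i, (Y i : ℝ)) / m : ℝ) : ℂ) * m =
      ∑ b ∈ Finset.Ico 1 m, fouE ((b : ℝ) * c / m) *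
      ∏ i, ∑ y ∈ range (Y i), fouE ((b : ℝ) * g i / m) ^ y := by
    push_cast
    field_simp
    linear_combination h1
  have h4 : |(N : ℝ) - (∏ i, (Y i : ℝ)) / m| * m =
      ‖∑ b ∈ Finset.Ico 1 m, fouE ((b : ℝ) * c / m) *
      ∏ i, ∑ y ∈ range (Y i), fouE ((b : ℝ) * g i / m) ^ y‖ := by
    rw [← h3, norm_mul, Complex.norm_real, Real.norm_eq_abs, Complex.norm_natCast]
  rw [le_div_iff₀ (by positivity), h4]
  refine (norm_sum_le _ _).trans (Finset.sum_le_sum fun b _ => ?_)
  rw [norm_mul, fouE_norm, one_mul, norm_prod]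
  exact Finset.prod_le_prod (fun i _ => norm_nonneg _) (fun i _ => fouD _ _)

end Pool.Agent.HP
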