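import Pool.Agent.HP.DefsC

/-! GRD (~120 lines): cells of the grid. `gs_mem`: `j = (x - 10^(l-1))/g`. `grd`: let `j` be a cell which contains an `x` with
`lo < a ∏ x i ≤ hi`. For every `x'` in the same cell, `x' i ≤ x i + g i ≤ x i (1 + 1/T)` and conversely, so
`a ∏ x' i ≤ hi (1+1/T)^v ≤ hi (1 + 2v/T) ≤ hi + (hi-lo)` and `a ∏ x' i ≥ lo (1+1/T)^(-v) ≥ lo - (hi-lo)` strictly more (`T ≥ 4v` follows from `hT`;
`(1+1/T)^v ≤ 1 + 2v/T` for `T ≥ v`). The cells are pairwise disjoint and contained in `∏ [10^(l i - 1), 10^(l i))`, and the number of `x'` in the cell is its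
volume. -/

set_option autoImplicit false

namespace Pool.Agent.HP

open Finset

theorem gs_mem {l g x : ℕ} (hg : 1 ≤ g) (h1 : 10 ^ (l - 1) ≤ x) (h2 : x < 10 ^ l) :
    gs l g ((x - 10 ^ (l - 1)) / g) ≤ x ∧ x < gs l g ((x - 10 ^ (l - 1)) / g + 1) := by
  unfold gs
  have h3 : (x - 10 ^ (l - 1)) / g * g ≤ x - 10 ^ (l - 1) := Nat.div_mul_le_self _ _
  have h4 : x - 10 ^ (l - 1) < ((x - 10 ^ (l - 1)) / g + 1) * g :=
    Nat.lt_mul_of_div_lt (Nat.lt_succ_self _) hg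
  constructor
  · refine (min_le_right _ _).trans ?_
    omega
  · rw [lt_min_iff]
    exact ⟨h2, by omega⟩

theorem gs_le {l g : ℕ} (j : ℕ) (hl : 1 ≤ l) :
    10 ^ (l - 1) ≤ gs l g j ∧ gs l g j ≤ gs l g (j + 1) ∧ gs l g j ≤ 10 ^ l ∧
      gs l g (j + 1) ≤ gs l g j + g := by
  unfold gs
  have h1 : 10 ^ (l - 1) ≤ 10 ^ l := Nat.pow_le_pow_right (by norm_num) (by omega)
  have h2 : (j + 1) * g = j * g + g := by ring
  rw [h2]
  refine ⟨?_, ?_, min_le_left _ _, ?_⟩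
  · rw [le_min_iff]
    exact ⟨h1, by omega⟩
  · rw [le_min_iff]
    exact ⟨min_le_left _ _, (min_le_right _ _).trans (by omega)⟩
  · omega

theorem gs_mono {l g : ℕ} {j j' : ℕ} (h : j ≤ j') : gs l g j ≤ gs l g j' := by
  unfold gs
  refine min_le_min le_rfl (Nat.add_le_add_left (Nat.mul_le_mul_right _ h) _)

theorem grd_compare {v T : ℕ} (x x' : Fin v → ℕ) (h : ∀ i, x' i * T ≤ x i * (T + 1)) :
    ((∏ i, x' i : ℕ) : ℝ) * (1 - (v : ℝ) / ((T : ℝ) + 1)) ≤ ((∏ i, x i : ℕ) : ℝ) := by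
  have h1 : (∏ i, x' i) * T ^ v ≤ (∏ i, x i) * (T + 1) ^ v := by
    have h2 : ∏ i : Fin v, (x' i * T) ≤ ∏ i : Fin v, (x i * (T + 1)) :=
      Finset.prod_le_prod (fun i _ => Nat.zero_le _) fun i _ => h i
    rw [Finset.prod_mul_distrib, Finset.prod_mul_distrib, Finset.prod_const, Finset.prod_const,
      Finset.card_univ, Fintype.card_fin] at h2
    exact h2
  have h3 : ((∏ i, x' i : ℕ) : ℝ) * (T : ℝ) ^ v ≤ ((∏ i, x i : ℕ) : ℝ) * ((T : ℝ) + 1) ^ v := by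
    exact_mod_cast h1
  have hT0 : (0 : ℝ) < (T : ℝ) + 1 := by positivity
  have h4 : 1 - (v : ℝ) / ((T : ℝ) + 1) ≤ ((T : ℝ) / ((T : ℝ) + 1)) ^ v := by
    have h5 := one_add_mul_le_pow (a := -(1 / ((T : ℝ) + 1))) (by
      have : 1 / ((T : ℝ) + 1) ≤ 1 := by
        rw [div_le_one hT0]
        have : (0 : ℝ) ≤ T := Nat.cast_nonneg T
        linarith
      linarith) v
    have h6 : 1 + -(1 / ((T : ℝ) + 1)) = (T : ℝ) / ((T : ℝ) + 1) := by
      field_simp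
      ring
    rw [h6] at h5
    calc 1 - (v : ℝ) / ((T : ℝ) + 1) = 1 + (v : ℝ) * -(1 / ((T : ℝ) + 1)) := by ring
      _ ≤ _ := h5
  calc ((∏ i, x' i : ℕ) : ℝ) * (1 - (v : ℝ) / ((T : ℝ) + 1))
      ≤ ((∏ i, x' i : ℕ) : ℝ) * ((T : ℝ) / ((T : ℝ) + 1)) ^ v :=
        mul_le_mul_of_nonneg_left h4 (Nat.cast_nonneg _)
    _ = ((∏ i, x' i : ℕ) : ℝ) * (T : ℝ) ^ v / ((T : ℝ) + 1) ^ v := by
        rw [div_pow]
        ring
    _ ≤ ((∏ i, x i : ℕ) : ℝ) := by
        rw [div_le_iff₀ (by positivity)]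
        exact h3

open scoped Classical in
theorem grd {v : ℕ} (hv : 1 ≤ v) (l g : Fin v → ℕ) (G a T lo hi : ℕ) (hl : ∀ i, 1 ≤ l i)
    (hg : ∀ i, 1 ≤ g i) (hgT : ∀ i, g i * T ≤ 10 ^ (l i - 1)) (hlh : lo < hi) (ha : 1 ≤ a)
    (hT : 4 * v * hi ≤ T * (hi - lo)) :
    ∑ j ∈ (Fintype.piFinset (fun _ : Fin v => Finset.range G)).filter (fun j =>
        ∃ x : Fin v → ℕ, (∀ i, gs (l i) (g i) (j i) ≤ x i ∧ x i < gs (l i) (g i) (j i + 1)) ∧
          lo < a * ∏ i, x i ∧ a * ∏ i, x i ≤ hi),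
      ∏ i, ((gs (l i) (g i) (j i + 1) : ℝ) - gs (l i) (g i) (j i)) ≤
      (((Fintype.piFinset (fun i => Finset.Ico (10 ^ (l i - 1)) (10 ^ l i))).filter (fun x =>
        lo - (hi - lo) < a * ∏ i, x i ∧ a * ∏ i, x i ≤ hi + (hi - lo))).card : ℝ) := by
  set F := (Fintype.piFinset (fun _ : Fin v => Finset.range G)).filter (fun j =>
        ∃ x : Fin v → ℕ, (∀ i, gs (l i) (g i) (j i) ≤ x i ∧ x i < gs (l i) (g i) (j i + 1)) ∧
          lo < a * ∏ i, x i ∧ a * ∏ i, x i ≤ hi) with hF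
  set cell : (Fin v → ℕ) → Finset (Fin v → ℕ) := fun j =>
    Fintype.piFinset (fun i => Finset.Ico (gs (l i) (g i) (j i)) (gs (l i) (g i) (j i + 1)))
    with hcell
  have hvol : ∀ j ∈ F, ∏ i, ((gs (l i) (g i) (j i + 1) : ℝ) - gs (l i) (g i) (j i)) =
      ((cell j).card : ℝ) := by
    intro j _
    rw [hcell, Fintype.card_piFinset]
    push_cast
    refine Finset.prod_congr rfl fun i _ => ?_
    rw [Nat.card_Ico, Nat.cast_sub (gs_le (j i) (hl i)).2.1]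
  rw [Finset.sum_congr rfl hvol, ← Nat.cast_sum]
  have hdisj : (F : Set (Fin v → ℕ)).PairwiseDisjoint cell := by
    intro j _ j' _ hne
    rw [Function.onFun, Finset.disjoint_left]
    intro x hx hx'
    rw [hcell, Fintype.mem_piFinset] at hx hx'
    apply hne
    funext i
    have h1 := Finset.mem_Ico.1 (hx i)
    have h2 := Finset.mem_Ico.1 (hx' i)
    by_contra hji
    rcases lt_or_gt_of_ne hji with h | h
    · have h3 := gs_mono (l := l i) (g := g i) (Nat.succ_le_of_lt h)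
      have h4 : gs (l i) (g i) (j i).succ = gs (l i) (g i) (j i + 1) := rfl
      omega
    · have h3 := gs_mono (l := l i) (g := g i) (Nat.succ_le_of_lt h)
      have h4 : gs (l i) (g i) (j' i).succ = gs (l i) (g i) (j' i + 1) := rfl
      omega
  rw [← Finset.card_biUnion (fun j hj j' hj' hne => hdisj hj hj' hne)]
  refine Nat.cast_le.2 (Finset.card_le_card ?_)
  intro x' hx'
  rw [Finset.mem_biUnion] at hx'
  obtain ⟨j, hj, hxj⟩ := hx'
  rw [hF, Finset.mem_filter] at hj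
  obtain ⟨_, x, hx, hlo, hhi⟩ := hj
  rw [hcell, Fintype.mem_piFinset] at hxj
  have hx1 : ∀ i, 10 ^ (l i - 1) ≤ x i := fun i => (gs_le (j i) (hl i)).1.trans (hx i).1
  have hx'1 : ∀ i, 10 ^ (l i - 1) ≤ x' i := fun i =>
    (gs_le (j i) (hl i)).1.trans (Finset.mem_Ico.1 (hxj i)).1
  have hc1 : ∀ i, x' i * T ≤ x i * (T + 1) := by
    intro i
    have h1 := (Finset.mem_Ico.1 (hxj i)).2
    have h2 := (gs_le (g := g i) (j i) (hl i)).2.2.2
    have h3 := (hx i).1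
    have h4 : x' i ≤ x i + g i := by omega
    calc x' i * T ≤ (x i + g i) * T := Nat.mul_le_mul_right _ h4
      _ = x i * T + g i * T := by ring
      _ ≤ x i * T + x i := Nat.add_le_add_left ((hgT i).trans (hx1 i)) _
      _ = x i * (T + 1) := by ring
  have hc2 : ∀ i, x i * T ≤ x' i * (T + 1) := by
    intro i
    have h1 := (hx i).2
    have h2 := (gs_le (g := g i) (j i) (hl i)).2.2.2
    have h3 := (Finset.mem_Ico.1 (hxj i)).1
    have h4 : x i ≤ x' i + g i := by omega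
    calc x i * T ≤ (x' i + g i) * T := Nat.mul_le_mul_right _ h4
      _ = x' i * T + g i * T := by ring
      _ ≤ x' i * T + x' i := Nat.add_le_add_left ((hgT i).trans (hx'1 i)) _
      _ = x' i * (T + 1) := by ring
  have hr1 := grd_compare x x' hc1
  have hr2 := grd_compare x' x hc2
  -- real numbers
  have ha0 : (0 : ℝ) < a := by exact_mod_cast ha
  have hlhR : (lo : ℝ) < hi := by exact_mod_cast hlh
  have hlo0 : (0 : ℝ) ≤ lo := Nat.cast_nonneg lo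
  have hv0 : (1 : ℝ) ≤ v := by exact_mod_cast hv
  have hTR : 4 * (v : ℝ) * hi ≤ T * ((hi : ℝ) - lo) := by
    have : ((4 * v * hi : ℕ) : ℝ) ≤ ((T * (hi - lo) : ℕ) : ℝ) := by exact_mod_cast hT
    push_cast [Nat.cast_sub hlh.le] at this
    exact this
  set q : ℝ := 1 - (v : ℝ) / ((T : ℝ) + 1) with hq
  have hT1 : (0 : ℝ) < (T : ℝ) + 1 := by positivity
  have hq0 : 0 ≤ q := by
    rw [hq, sub_nonneg, div_le_one hT1]
    -- T ≥ 4 v
    have h1 : 4 * (v : ℝ) * ((hi : ℝ) - lo) ≤ T * ((hi : ℝ) - lo) := by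
      have : 4 * (v : ℝ) * ((hi : ℝ) - lo) ≤ 4 * (v : ℝ) * hi := by
        refine mul_le_mul_of_nonneg_left (by linarith) (by positivity)
      linarith
    have h2 : 4 * (v : ℝ) ≤ T := le_of_mul_le_mul_right h1 (by linarith)
    linarith
  have hq1 : (1 - q) * ((T : ℝ) + 1) = v := by
    rw [hq]
    field_simp
    ring
  set p : ℝ := (a : ℝ) * ((∏ i, x i : ℕ) : ℝ) with hp
  set p' : ℝ := (a : ℝ) * ((∏ i, x' i : ℕ) : ℝ) with hp'
  have hpq1 : p' * q ≤ p := by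
    rw [hp, hp', mul_assoc]
    exact mul_le_mul_of_nonneg_left hr1 ha0.le
  have hpq2 : p * q ≤ p' := by
    rw [hp, hp', mul_assoc]
    exact mul_le_mul_of_nonneg_left hr2 ha0.le
  have hloR : (lo : ℝ) < p := by
    have : ((lo : ℕ) : ℝ) < ((a * ∏ i, x i : ℕ) : ℝ) := by exact_mod_cast hlo
    rw [hp]
    push_cast at this ⊢
    exact this
  have hhiR : p ≤ hi := by
    have : ((a * ∏ i, x i : ℕ) : ℝ) ≤ ((hi : ℕ) : ℝ) := by exact_mod_cast hhi
    rw [hp]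
    push_cast at this ⊢
    exact this
  have hΔ : 0 < (hi : ℝ) - lo := by linarith
  rw [Finset.mem_filter, Fintype.mem_piFinset]
  refine ⟨?_, ?_, ?_⟩
  · intro i
    rw [Finset.mem_Ico]
    exact ⟨hx'1 i, (Finset.mem_Ico.1 (hxj i)).2.trans_le (gs_le (j i + 1) (hl i)).2.2.1⟩
  · by_contra hcon
    push Not at hcon
    have hpos : 1 ≤ a * ∏ i, x' i := by
      have h1 : 1 ≤ ∏ i, x' i := Nat.one_le_iff_ne_zero.2 (Finset.prod_ne_zero_iff.2 fun i _ =>
        (lt_of_lt_of_le (by positivity) (hx'1 i)).ne')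
      exact Nat.one_le_iff_ne_zero.2 (Nat.mul_ne_zero (by omega) (by omega))
    have h2 : a * ∏ i, x' i + (hi - lo) ≤ lo := by omega
    have h3 : p' + ((hi : ℝ) - lo) ≤ lo := by
      have : ((a * ∏ i, x' i + (hi - lo) : ℕ) : ℝ) ≤ ((lo : ℕ) : ℝ) := by exact_mod_cast h2
      rw [hp']
      push_cast [Nat.cast_sub hlh.le] at this ⊢
      exact this
    have h4 : (lo : ℝ) * q ≤ p * q := mul_le_mul_of_nonneg_right hloR.le hq0
    -- lo (1 - q) < hi - lo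
    have h5 : (lo : ℝ) * (1 - q) * ((T : ℝ) + 1) < ((hi : ℝ) - lo) * ((T : ℝ) + 1) := by
      rw [mul_assoc, hq1]
      have : (lo : ℝ) * v ≤ v * hi := by nlinarith
      nlinarith
    have h6 : (lo : ℝ) * (1 - q) < (hi : ℝ) - lo := lt_of_mul_lt_mul_right h5 hT1.le
    linarith
  · by_contra hcon
    push Not at hcon
    have h3 : (hi : ℝ) + ((hi : ℝ) - lo) < p' := by
      have : ((hi + (hi - lo) : ℕ) : ℝ) < ((a * ∏ i, x' i : ℕ) : ℝ) := by exact_mod_cast hcon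
      rw [hp']
      push_cast [Nat.cast_sub hlh.le] at this ⊢
      exact this
    have h4 : ((hi : ℝ) + ((hi : ℝ) - lo)) * q ≤ p' * q :=
      mul_le_mul_of_nonneg_right h3.le hq0
    have h5 : ((hi : ℝ) + ((hi : ℝ) - lo)) * (1 - q) * ((T : ℝ) + 1) <
        ((hi : ℝ) - lo) * ((T : ℝ) + 1) := by
      rw [mul_assoc, hq1]
      have h6 : ((hi : ℝ) + ((hi : ℝ) - lo)) * v ≤ 2 * (v * hi) := by nlinarith
      nlinarith
    have h6 : ((hi : ℝ) + ((hi : ℝ) - lo)) * (1 - q) < (hi : ℝ) - lo :=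
      lt_of_mul_lt_mul_right h5 hT1.le
    linarith

end Pool.Agent.HP
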