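import Pool.Agent.HP.Defs
import Pool.Agent.FHE.SVT

/-! GSL (~80 lines): lower bound for the sieve sum with the primes of `Δ` removed. Every squarefree `d ≤ R` with all
prime factors `> k^4` is `d = d₁ d₂`, `d₁ ∣ Δ` (`d₁ = gcd d Δ`), `d₂` coprime to `Δ`, `d₂ ≤ R`; and
`∑_{d₁ ∣ Δ squarefree} k^ω(d₁)/d₁ = ∏_{p ∣ Δ} (1 + k/p)`. So the product of the two factors is `≥ Tm k (k^4) R`,
and `FHE.svt (m := k) (k := k^4)` bounds this from below. (See the definition of `FHE.Tm`.) -/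

set_option autoImplicit false

namespace Pool.Agent.HP

open Finset

theorem gsl_term (k : ℕ) {d : ℕ} (hd : Squarefree d) :
    (k : ℝ) ^ d.primeFactors.card / d = ∏ p ∈ d.primeFactors, ((k : ℝ) / p) := by
  rw [prod_div_distrib, prod_const]
  congr 1
  have h := Nat.prod_primeFactors_of_squarefree hd
  conv_lhs => rw [← h]
  push_cast
  rfl

theorem gsl_le (k R Δ : ℕ) (hΔ : 1 ≤ Δ) :
    FHE.Tm k (k ^ 4) R ≤ (∏ p ∈ Δ.primeFactors, (1 + (k : ℝ) / p)) *
      ∑ d ∈ (Finset.Icc 1 R).filter (fun d => Squarefree d ∧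
        ∀ p ∈ d.primeFactors, k ^ 4 < p ∧ ¬ p ∣ Δ), (k : ℝ) ^ d.primeFactors.card / d := by
  set P := Δ.primeFactors with hP
  set F := (Finset.Icc 1 R).filter (fun d => Squarefree d ∧
        ∀ p ∈ d.primeFactors, k ^ 4 < p ∧ ¬ p ∣ Δ) with hF
  set φ : ℕ → Finset ℕ × ℕ := fun d => (d.primeFactors ∩ P, ∏ p ∈ d.primeFactors \ P, p) with hφ
  set H : Finset ℕ × ℕ → ℝ := fun x => (∏ p ∈ x.1, ((k : ℝ) / p)) *
    ((k : ℝ) ^ x.2.primeFactors.card / x.2) with hH
  have hpf : ∀ d : ℕ, (∏ p ∈ d.primeFactors \ P, p).primeFactors = d.primeFactors \ P := by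
    intro d
    exact Nat.primeFactors_prod fun p hp => Nat.prime_of_mem_primeFactors (mem_sdiff.1 hp).1
  have hsq : ∀ d : ℕ, Squarefree d → (∏ p ∈ d.primeFactors \ P, p) ∣ d := by
    intro d hd
    conv_rhs => rw [← Nat.prod_primeFactors_of_squarefree hd]
    exact prod_dvd_prod_of_subset _ _ _ sdiff_subset
  have h1 : (∏ p ∈ P, (1 + (k : ℝ) / p)) * ∑ d ∈ F, (k : ℝ) ^ d.primeFactors.card / d =
      ∑ x ∈ P.powerset ×ˢ F, H x := by
    rw [prod_one_add, sum_mul_sum, ← sum_product']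
  rw [h1]
  unfold FHE.Tm
  have h2 : ∀ d ∈ (Finset.Icc 1 R).filter (fun d => Squarefree d ∧
      ∀ p ∈ d.primeFactors, k ^ 4 < p), (k : ℝ) ^ d.primeFactors.card / d = H (φ d) := by
    intro d hd
    rw [mem_filter] at hd
    have h3 : Squarefree (∏ p ∈ d.primeFactors \ P, p) := hd.2.1.squarefree_of_dvd (hsq d hd.2.1)
    rw [gsl_term k hd.2.1, hH, hφ]
    simp only
    rw [gsl_term k h3, hpf, prod_inter_mul_prod_diff]
  rw [sum_congr rfl h2, ← sum_image (f := H) (g := φ)]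
  · apply sum_le_sum_of_subset_of_nonneg
    · intro x hx
      rw [mem_image] at hx
      obtain ⟨d, hd, rfl⟩ := hx
      rw [mem_filter, mem_Icc] at hd
      rw [mem_product, mem_powerset, hF, mem_filter, mem_Icc]
      have h3 : Squarefree (∏ p ∈ d.primeFactors \ P, p) := hd.2.1.squarefree_of_dvd (hsq d hd.2.1)
      refine ⟨inter_subset_right, ⟨?_, ?_⟩, h3, ?_⟩
      · exact Nat.one_le_iff_ne_zero.2 h3.ne_zero
      · exact (Nat.le_of_dvd (by omega) (hsq d hd.2.1)).trans hd.1.2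
      · intro p hp
        have hp' : p ∈ d.primeFactors \ P := by rw [← hpf d]; exact hp
        rw [mem_sdiff] at hp'
        refine ⟨hd.2.2 p hp'.1, fun hpd => hp'.2 ?_⟩
        exact Nat.mem_primeFactors.2 ⟨Nat.prime_of_mem_primeFactors hp'.1, hpd, by omega⟩
    · intro x _ _
      rw [hH]
      positivity
  · intro d hd d' hd' he
    rw [mem_coe, mem_filter] at hd hd'
    rw [hφ] at he
    simp only [Prod.mk.injEq] at he
    have h4 : d.primeFactors \ P = d'.primeFactors \ P := by rw [← hpf d, ← hpf d', he.2]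
    have h5 : d.primeFactors = d'.primeFactors := by
      rw [← sdiff_union_inter d.primeFactors P, ← sdiff_union_inter d'.primeFactors P, h4, he.1]
    rw [← Nat.prod_primeFactors_of_squarefree hd.2.1, ← Nat.prod_primeFactors_of_squarefree hd'.2.1, h5]

theorem gsl (k : ℕ) : ∃ c : ℝ, 0 < c ∧ ∀ R Δ : ℕ, 1 ≤ R → 1 ≤ Δ →
    c * Real.log R ^ k ≤ (∏ p ∈ Δ.primeFactors, (1 + (k : ℝ) / p)) *
      ∑ d ∈ (Finset.Icc 1 R).filter (fun d => Squarefree d ∧
        ∀ p ∈ d.primeFactors, k ^ 4 < p ∧ ¬ p ∣ Δ), (k : ℝ) ^ d.primeFactors.card / d := by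
  obtain ⟨c, hc, h⟩ := FHE.svt (m := k) (k := k ^ 4) le_rfl
  exact ⟨c, hc, fun R Δ hR hΔ => (h R hR).trans (gsl_le k R Δ hΔ)⟩

end Pool.Agent.HP
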