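import Pool.Agent.HP.Defs

/-! HYP (~130 lines): counting points on hyperplanes over `ℤ/p`. `VA` is the union of the `v` sets `x i = 0` and
the `u` sets `T(x) = -c j`, `T(x) = A 10^E + ∑ x i 10^(ee l i)`; each of them has `p^(v-1)` points (`10` is invertible), so
the upper bound is the union bound. Lower bound (Bonferroni: `|∪ H_i| ≥ ∑ |H_i| - ∑_{i<j} |H_i ∩ H_j|`): two of the sets
are either disjoint (`T = -c i`, `T = -c j`; or `v = 1`, by `h1`) or meet in `p^(v-2)` points, `v ≥ 2`
(`x i = x j = 0`; or `x i = 0 = T + c`: the last block `v-1` has `10^0 = 1`, and if `i` is the last block use another one).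
`C(k,2) ≤ k²/2`, `k = v + u`. -/

set_option autoImplicit false

namespace Pool.Agent.HP

open Finset

private theorem lin_single {F ι : Type} [Field F] [Fintype ι] [DecidableEq ι] (a x : ι → F)
    (b s : F) (i0 : ι) :
    ∑ i, a i * (x + Pi.single i0 s : ι → F) i + b = (∑ i, a i * x i + b) + a i0 * s := by
  have : ∀ i, a i * (x + Pi.single i0 s : ι → F) i = a i * x i + (if i = i0 then a i0 * s else 0) := by
    intro i
    rw [Pi.add_apply, mul_add]
    congr 1
    by_cases h : i = i0
    · subst h; simp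
    · rw [Pi.single_eq_of_ne h, if_neg h, mul_zero]
  rw [sum_congr rfl fun i _ => this i, sum_add_distrib, sum_ite_eq' univ i0, if_pos (mem_univ _)]
  ring

private theorem card_one {F ι : Type} [Field F] [Fintype F] [DecidableEq F] [Fintype ι]
    [DecidableEq ι] (a : ι → F) (b : F) (i0 : ι) (h : a i0 ≠ 0) :
    ((univ : Finset (ι → F)).filter (fun x => ∑ i, a i * x i + b = 0)).card * Fintype.card F =
      Fintype.card F ^ Fintype.card ι := by
  have e : ({x : ι → F // ∑ i, a i * x i + b = 0} × F) ≃ (ι → F) :=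
    { toFun := fun z => z.1.1 + Pi.single i0 z.2
      invFun := fun y => (⟨y + Pi.single i0 (-((∑ i, a i * y i + b) / a i0)), by
        rw [lin_single]
        field_simp
        ring⟩, (∑ i, a i * y i + b) / a i0)
      left_inv := by
        rintro ⟨⟨x, hx⟩, s⟩
        have e1 : (∑ i, a i * (x + Pi.single i0 s : ι → F) i + b) / a i0 = s := by
          rw [lin_single, hx, zero_add, mul_div_cancel_left₀ _ h]
        simp only [Prod.mk.injEq, Subtype.mk.injEq]
        refine ⟨?_, e1⟩
        rw [e1, add_assoc, ← Pi.single_add, add_neg_cancel, Pi.single_zero, add_zero]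
      right_inv := by
        intro y
        simp only
        rw [add_assoc, ← Pi.single_add, neg_add_cancel, Pi.single_zero, add_zero] }
  have := Fintype.card_congr e
  rw [Fintype.card_prod, Fintype.card_fun, Fintype.card_subtype] at this
  exact this

private theorem card_two {F ι : Type} [Field F] [Fintype F] [DecidableEq F] [Fintype ι]
    [DecidableEq ι] (a a' : ι → F) (b b' : F) (i0 i1 : ι) (h : a i0 ≠ 0) (h0 : a' i0 = 0)
    (h1 : a' i1 ≠ 0) :
    ((univ : Finset (ι → F)).filter (fun x => ∑ i, a i * x i + b = 0 ∧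
      ∑ i, a' i * x i + b' = 0)).card * (Fintype.card F * Fintype.card F) ≤
      Fintype.card F ^ Fintype.card ι := by
  let g : ({x : ι → F // ∑ i, a i * x i + b = 0 ∧ ∑ i, a' i * x i + b' = 0} × F × F) → (ι → F) :=
    fun z => (z.1.1 + Pi.single i0 z.2.1) + Pi.single i1 z.2.2
  have hg : Function.Injective g := by
    rintro ⟨⟨x, hx, hx'⟩, s, t⟩ ⟨⟨y, hy, hy'⟩, s', t'⟩ he
    have he' : (x + Pi.single i0 s) + Pi.single i1 t = (y + Pi.single i0 s') + Pi.single i1 t' := he
    have e1 : ∑ i : ι, a' i * ((x + Pi.single i0 s) + Pi.single i1 t : ι → F) i + b' =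
        ∑ i : ι, a' i * ((y + Pi.single i0 s') + Pi.single i1 t' : ι → F) i + b' := by rw [he']
    rw [lin_single, lin_single, lin_single, lin_single, hx', hy', h0, zero_mul, zero_mul, zero_add,
      zero_add, zero_add] at e1
    have e2 : t = t' := mul_left_cancel₀ h1 e1
    subst e2
    have he2 : x + Pi.single i0 s = y + Pi.single i0 s' := add_right_cancel he'
    have e3 : ∑ i : ι, a i * (x + Pi.single i0 s : ι → F) i + b =
        ∑ i : ι, a i * (y + Pi.single i0 s' : ι → F) i + b := by rw [he2]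
    rw [lin_single, lin_single, hx, hy, zero_add, zero_add] at e3
    have e4 : s = s' := mul_left_cancel₀ h e3
    subst e4
    have he3 : x = y := add_right_cancel he2
    subst he3
    rfl
  have := Fintype.card_le_of_injective g hg
  rw [Fintype.card_prod, Fintype.card_prod, Fintype.card_fun, Fintype.card_subtype] at this
  exact this

private theorem bonf {X K : Type} [Fintype X] [DecidableEq X] [Fintype K] [DecidableEq K]
    (P : K → X → Prop) [∀ k, DecidablePred (P k)] [DecidablePred fun x => ∃ k, P k x] {c d : ℝ}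
    (hc : ∀ k, (((univ : Finset X).filter (P k)).card : ℝ) = c)
    (hd : ∀ k k', k ≠ k' → (((univ : Finset X).filter (fun x => P k x ∧ P k' x)).card : ℝ) ≤ d)
    (hd0 : 0 ≤ d) :
    2 * (Fintype.card K : ℝ) * c - (Fintype.card K : ℝ) ^ 2 * d ≤
        2 * (((univ : Finset X).filter (fun x => ∃ k, P k x)).card : ℝ) ∧
      (((univ : Finset X).filter (fun x => ∃ k, P k x)).card : ℝ) ≤ (Fintype.card K : ℝ) * c := by
  classical
  set ind : K → X → ℝ := fun k x => if P k x then 1 else 0 with hind
  set m : X → ℝ := fun x => ∑ k, ind k x with hm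
  have hS1 : ∑ x, m x = (Fintype.card K : ℝ) * c := by
    rw [hm, sum_comm]
    have : ∀ k ∈ (univ : Finset K), ∑ x, ind k x = c := by
      intro k _
      rw [← hc k, hind]
      simp only
      rw [sum_boole]
    rw [sum_congr rfl this, sum_const, nsmul_eq_mul, card_univ]
  have hS2 : ∑ x, m x ^ 2 ≤ (Fintype.card K : ℝ) * c + (Fintype.card K : ℝ) ^ 2 * d := by
    have e1 : ∑ x, m x ^ 2 = ∑ k, ∑ k', ∑ x, ind k x * ind k' x := by
      have : ∀ x, m x ^ 2 = ∑ k, ∑ k', ind k x * ind k' x := by
        intro x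
        rw [sq, hm, sum_mul_sum]
      rw [sum_congr rfl fun x _ => this x, sum_comm]
      refine sum_congr rfl fun k _ => ?_
      rw [sum_comm]
    have e2 : ∀ k k', ∑ x, ind k x * ind k' x ≤ (if k = k' then c else 0) + d := by
      intro k k'
      have e3 : ∑ x, ind k x * ind k' x =
          (((univ : Finset X).filter (fun x => P k x ∧ P k' x)).card : ℝ) := by
        rw [← sum_boole]
        refine sum_congr rfl fun x _ => ?_
        simp only [hind]
        by_cases h1 : P k x <;> by_cases h2 : P k' x <;> simp [h1, h2]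
      rw [e3]
      by_cases h : k = k'
      · subst h
        rw [if_pos rfl]
        simp only [and_self]
        rw [hc k]
        linarith
      · rw [if_neg h, zero_add]
        exact hd k k' h
    rw [e1]
    refine (sum_le_sum fun k _ => sum_le_sum fun k' _ => e2 k k').trans (le_of_eq ?_)
    simp only [sum_add_distrib, sum_ite_eq, mem_univ, if_true, sum_const, nsmul_eq_mul, card_univ]
    ring
  have hU : (((univ : Finset X).filter (fun x => ∃ k, P k x)).card : ℝ) =
      ∑ x, if ∃ k, P k x then (1 : ℝ) else 0 := by rw [sum_boole]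
  have hmn : ∀ x, m x = (((univ : Finset K).filter (fun k => P k x)).card : ℝ) := by
    intro x
    simp only [hm, hind]
    rw [sum_boole]
  constructor
  · have key : ∀ x, 0 ≤ 2 * (if ∃ k, P k x then (1 : ℝ) else 0) - 3 * m x + m x ^ 2 := by
      intro x
      rw [hmn]
      by_cases h : ∃ k, P k x
      · rw [if_pos h]
        obtain ⟨k, hk⟩ := h
        have h1 : 1 ≤ ((univ : Finset K).filter (fun k => P k x)).card :=
          card_pos.2 ⟨k, by simp [hk]⟩
        set t := ((univ : Finset K).filter (fun k => P k x)).card with ht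
        rcases Nat.lt_or_ge t 2 with h2 | h2
        · have : t = 1 := by omega
          rw [this]
          norm_num
        · have h3 : (2 : ℝ) ≤ t := by exact_mod_cast h2
          nlinarith
      · rw [if_neg h]
        have : (univ : Finset K).filter (fun k => P k x) = ∅ := by
          rw [filter_eq_empty_iff]
          intro k _ hk
          exact h ⟨k, hk⟩
        rw [this]
        simp
    have hsum := sum_nonneg fun x (_ : x ∈ (univ : Finset X)) => key x
    rw [sum_add_distrib, sum_sub_distrib, ← mul_sum, ← mul_sum, ← hU, hS1] at hsum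
    linarith
  · rw [hU, ← hS1]
    refine sum_le_sum fun x _ => ?_
    rw [hmn]
    by_cases h : ∃ k, P k x
    · rw [if_pos h]
      obtain ⟨k, hk⟩ := h
      have h1 : 1 ≤ ((univ : Finset K).filter (fun k => P k x)).card :=
        card_pos.2 ⟨k, by simp [hk]⟩
      exact_mod_cast h1
    · rw [if_neg h]
      positivity

open scoped Classical in
private theorem cV_eq {v : ℕ} (V : (p : ℕ) → (Fin v → ZMod p) → Prop) (p : ℕ) [NeZero p] :
    cV V p = ((univ : Finset (Fin v → ZMod p)).filter (V p)).card := by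
  unfold cV
  refine Finset.card_bij (fun r _ i => (r i : ZMod p)) ?_ ?_ ?_
  · intro r hr
    rw [mem_filter] at hr ⊢
    exact ⟨mem_univ _, hr.2⟩
  · intro r hr s hs h
    rw [mem_filter, Fintype.mem_piFinset] at hr hs
    funext i
    have h1 := congrFun h i
    have h2 := mem_range.1 (hr.1 i)
    have h3 := mem_range.1 (hs.1 i)
    have h4 := (ZMod.natCast_eq_natCast_iff' _ _ _).1 h1
    rwa [Nat.mod_eq_of_lt h2, Nat.mod_eq_of_lt h3] at h4
  · intro x hx
    rw [mem_filter] at hx
    refine ⟨fun i => (x i).val, ?_, ?_⟩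
    · rw [mem_filter, Fintype.mem_piFinset]
      refine ⟨fun i => mem_range.2 (ZMod.val_lt _), ?_⟩
      have : (fun i => (((x i).val : ℕ) : ZMod p)) = x := by
        funext i
        exact ZMod.natCast_zmod_val _
      rw [this]
      exact hx.2
    · funext i
      exact ZMod.natCast_zmod_val _

theorem hyp {v u : ℕ} (hv : 1 ≤ v) (hu : 1 ≤ u) (l : Fin v → ℕ) (A : ℕ) (c : Fin u → ℕ) (p : ℕ)
    (hp : p.Prime) (h5 : 5 < p) (hc : ∀ i j, i ≠ j → (c i : ZMod p) ≠ c j)
    (h1 : v = 1 → ∀ j, (A : ZMod p) * 10 ^ (∑ i, l i) + (c j : ZMod p) ≠ 0) :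
    ((v + u : ℕ) : ℝ) / p - ((v + u : ℕ) : ℝ) ^ 2 / (2 * (p : ℝ) ^ 2) ≤
        (cV (VA l A c) p : ℝ) / (p : ℝ) ^ v ∧
      (cV (VA l A c) p : ℝ) / (p : ℝ) ^ v ≤ ((v + u : ℕ) : ℝ) / p ∧
      1 / (p : ℝ) ≤ (cV (VA l A c) p : ℝ) / (p : ℝ) ^ v := by
  classical
  have : Fact p.Prime := ⟨hp⟩
  have : NeZero p := ⟨hp.ne_zero⟩
  have hp0 : (0 : ℝ) < p := by exact_mod_cast hp.pos
  have h10 : (10 : ZMod p) ≠ 0 := by
    intro h
    have h2 : ((10 : ℕ) : ZMod p) = 0 := by exact_mod_cast h
    rw [ZMod.natCast_eq_zero_iff] at h2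
    have h3 : p ∣ 2 * 5 := by simpa using h2
    rcases (Nat.Prime.dvd_mul hp).1 h3 with h4 | h4
    · have := Nat.le_of_dvd (by norm_num) h4
      omega
    · have := Nat.le_of_dvd (by norm_num) h4
      omega
  -- the affine forms
  obtain ⟨a, ainl, ainr⟩ : ∃ a : Fin v ⊕ Fin u → Fin v → ZMod p,
      (∀ i k, a (Sum.inl i) k = if k = i then 1 else 0) ∧ ∀ j i, a (Sum.inr j) i = 10 ^ ee l i :=
    ⟨fun k => match k with
      | Sum.inl i => fun k => if k = i then 1 else 0
      | Sum.inr _ => fun i => 10 ^ ee l i, fun _ _ => rfl, fun _ _ => rfl⟩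
  obtain ⟨b, binl, binr⟩ : ∃ b : Fin v ⊕ Fin u → ZMod p,
      (∀ i, b (Sum.inl i) = 0) ∧
        ∀ j, b (Sum.inr j) = (A : ZMod p) * 10 ^ (∑ i, l i) + (c j : ZMod p) :=
    ⟨fun k => match k with
      | Sum.inl _ => 0
      | Sum.inr j => (A : ZMod p) * 10 ^ (∑ i, l i) + (c j : ZMod p), fun _ => rfl, fun _ => rfl⟩
  obtain ⟨P, hP⟩ : ∃ P : Fin v ⊕ Fin u → (Fin v → ZMod p) → Prop,
      ∀ k x, P k x ↔ ∑ i, a k i * x i + b k = 0 := ⟨_, fun _ _ => Iff.rfl⟩
  have hinl : ∀ (i : Fin v) (x : Fin v → ZMod p), P (Sum.inl i) x ↔ x i = 0 := by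
    intro i x
    rw [hP, binl, add_zero]
    have : ∑ k, a (Sum.inl i) k * x k = x i := by
      rw [Finset.sum_congr rfl fun k _ => by rw [ainl i k, ite_mul, one_mul, zero_mul],
        sum_ite_eq' univ i, if_pos (mem_univ _)]
    rw [this]
  have hinr : ∀ (j : Fin u) (x : Fin v → ZMod p), P (Sum.inr j) x ↔
      (A : ZMod p) * 10 ^ (∑ i, l i) + ∑ i, x i * 10 ^ ee l i + (c j : ZMod p) = 0 := by
    intro j x
    rw [hP, binr]
    have : ∑ k, a (Sum.inr j) k * x k = ∑ i, x i * 10 ^ ee l i :=
      sum_congr rfl fun k _ => by rw [ainr, mul_comm]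
    rw [this]
    constructor <;> intro h <;> rw [← h] <;> ring
  have hVA : ∀ x, VA l A c p x ↔ ∃ k, P k x := by
    intro x
    unfold VA
    constructor
    · rintro (⟨i, hi⟩ | ⟨j, hj⟩)
      · exact ⟨Sum.inl i, (hinl i x).2 hi⟩
      · exact ⟨Sum.inr j, (hinr j x).2 hj⟩
    · rintro ⟨i | j, h⟩
      · exact Or.inl ⟨i, (hinl i x).1 h⟩
      · exact Or.inr ⟨j, (hinr j x).1 h⟩
  have hcard : Fintype.card (ZMod p) = p := ZMod.card p
  have hcv : (cV (VA l A c) p : ℝ) =
      (((univ : Finset (Fin v → ZMod p)).filter (fun x => ∃ k, P k x)).card : ℝ) := by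
    rw [cV_eq]
    congr 2
    ext x
    simp only [mem_filter, mem_univ, true_and]
    exact hVA x
  have ha : ∀ k, ∃ i0, a k i0 ≠ 0 := by
    rintro (i | j)
    · exact ⟨i, by rw [ainl, if_pos rfl]; exact one_ne_zero⟩
    · exact ⟨⟨0, hv⟩, by rw [ainr]; exact pow_ne_zero _ h10⟩
  have hone : ∀ k, (((univ : Finset (Fin v → ZMod p)).filter (P k)).card : ℝ) =
      (p : ℝ) ^ v / p := by
    intro k
    obtain ⟨i0, hi0⟩ := ha k
    have := card_one (a k) (b k) i0 hi0
    rw [hcard, Fintype.card_fin] at this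
    rw [eq_div_iff hp0.ne', filter_congr fun x _ => hP k x]
    exact_mod_cast this
  have htwo : ∀ k k', k ≠ k' →
      (((univ : Finset (Fin v → ZMod p)).filter (fun x => P k x ∧ P k' x)).card : ℝ) ≤
        (p : ℝ) ^ v / (p * p) := by
    have main : ∀ k k' : Fin v ⊕ Fin u, ∀ i0 i1, a k i0 ≠ 0 → a k' i0 = 0 → a k' i1 ≠ 0 →
        (((univ : Finset (Fin v → ZMod p)).filter (fun x => P k x ∧ P k' x)).card : ℝ) ≤
          (p : ℝ) ^ v / (p * p) := by
      intro k k' i0 i1 e1 e2 e3
      have := card_two (a k) (a k') (b k) (b k') i0 i1 e1 e2 e3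
      rw [hcard, Fintype.card_fin] at this
      rw [le_div_iff₀ (by positivity), filter_congr fun x _ => and_congr (hP k x) (hP k' x)]
      exact_mod_cast this
    have hempty : ∀ k k' : Fin v ⊕ Fin u, (∀ x, ¬ (P k x ∧ P k' x)) →
        (((univ : Finset (Fin v → ZMod p)).filter (fun x => P k x ∧ P k' x)).card : ℝ) ≤
          (p : ℝ) ^ v / (p * p) := by
      intro k k' h
      have : (univ : Finset (Fin v → ZMod p)).filter (fun x => P k x ∧ P k' x) = ∅ := by
        rw [filter_eq_empty_iff]
        intro x _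
        exact h x
      rw [this, card_empty, Nat.cast_zero]
      positivity
    have mixed : ∀ (i : Fin v) (j : Fin u),
        (((univ : Finset (Fin v → ZMod p)).filter
          (fun x => P (Sum.inr j) x ∧ P (Sum.inl i) x)).card : ℝ) ≤ (p : ℝ) ^ v / (p * p) := by
      intro i j
      by_cases hv1 : v = 1
      · refine hempty _ _ ?_
        rintro x ⟨hx, hx'⟩
        rw [hinl] at hx'
        rw [hinr] at hx
        refine h1 hv1 j ?_
        have hx0 : ∀ k, x k = 0 := by
          intro k
          have : k = i := by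
            apply Fin.ext
            have := k.2
            have := i.2
            omega
          rw [this, hx']
        have : ∑ k, x k * (10 : ZMod p) ^ ee l k = 0 :=
          sum_eq_zero fun k _ => by rw [hx0 k, zero_mul]
        rw [this, add_zero] at hx
        exact hx
      · obtain ⟨i0, hi0⟩ : ∃ i0 : Fin v, i0 ≠ i := by
          have : Nontrivial (Fin v) := Fin.nontrivial_iff_two_le.2 (by omega)
          exact exists_ne i
        refine main (Sum.inr j) (Sum.inl i) i0 i ?_ ?_ ?_
        · rw [ainr]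
          exact pow_ne_zero _ h10
        · rw [ainl, if_neg hi0]
        · rw [ainl, if_pos rfl]
          exact one_ne_zero
    rintro (i | j) (i' | j') hne
    · have hii : i ≠ i' := fun h => hne (by rw [h])
      refine main (Sum.inl i) (Sum.inl i') i i' ?_ ?_ ?_
      · rw [ainl, if_pos rfl]
        exact one_ne_zero
      · rw [ainl, if_neg hii]
      · rw [ainl, if_pos rfl]
        exact one_ne_zero
    · have := mixed i j'
      have e : (univ : Finset (Fin v → ZMod p)).filter
          (fun x => P (Sum.inl i) x ∧ P (Sum.inr j') x) =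
          (univ : Finset (Fin v → ZMod p)).filter
            (fun x => P (Sum.inr j') x ∧ P (Sum.inl i) x) :=
        filter_congr fun x _ => and_comm
      rw [e]
      exact this
    · exact mixed i' j
    · refine hempty _ _ ?_
      rintro x ⟨hx, hx'⟩
      rw [hinr] at hx hx'
      refine hc j j' (fun h => hne (by rw [h])) ?_
      have := hx.trans hx'.symm
      exact add_left_cancel this
  have hB := bonf P hone htwo (by positivity)
  have hK : (Fintype.card (Fin v ⊕ Fin u) : ℝ) = ((v + u : ℕ) : ℝ) := by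
    rw [Fintype.card_sum, Fintype.card_fin, Fintype.card_fin]
  rw [hK, ← hcv] at hB
  have hpv : (0 : ℝ) < (p : ℝ) ^ v := by positivity
  refine ⟨?_, ?_, ?_⟩
  · rw [le_div_iff₀ hpv]
    have e : (((v + u : ℕ) : ℝ) / p - ((v + u : ℕ) : ℝ) ^ 2 / (2 * (p : ℝ) ^ 2)) * (p : ℝ) ^ v =
        (2 * ((v + u : ℕ) : ℝ) * ((p : ℝ) ^ v / p) -
          ((v + u : ℕ) : ℝ) ^ 2 * ((p : ℝ) ^ v / (p * p))) / 2 := by
      field_simp
    rw [e]
    linarith [hB.1]
  · rw [div_le_iff₀ hpv]
    have e : ((v + u : ℕ) : ℝ) / p * (p : ℝ) ^ v = ((v + u : ℕ) : ℝ) * ((p : ℝ) ^ v / p) := by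
      ring
    rw [e]
    exact hB.2
  · rw [le_div_iff₀ hpv]
    have e : 1 / (p : ℝ) * (p : ℝ) ^ v = (p : ℝ) ^ v / p := by ring
    rw [e, ← hone (Sum.inl ⟨0, hv⟩), hcv]
    have : (univ : Finset (Fin v → ZMod p)).filter (P (Sum.inl ⟨0, hv⟩)) ⊆
        (univ : Finset (Fin v → ZMod p)).filter (fun x => ∃ k, P k x) := by
      intro x hx
      rw [mem_filter] at hx ⊢
      exact ⟨hx.1, _, hx.2⟩
    exact_mod_cast card_le_card this

end Pool.Agent.HP
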