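import Pool.Agent.HP.DefsC
import Pool.Agent.HP.HYP

/-! HYQ (~150 lines): as HYP, with the additional set `G : a ∏ x i = b`, `a, b ≠ 0 mod p`: `|G| = (p-1)^(v-1)`, between
`p^(v-1) - (v-1) p^(v-2)` and `p^(v-1)`. `G` does not meet `x i = 0`. `G` meets `T(x) = -c j` in at most `2 p^(v-2)` points if `v ≥ 2` (fix all but the
last two coordinates: a quadratic equation) and in no point if `v = 1` (`h2`). `|T_1 ∩ T_2| = 0`. With `k = v + u + 1`, `u ≤ 2`: for `v ≥ 2`
the sum to be subtracted is `(v-1) + C(v,2) + v u + 2u ≤ k²/2`; for `v = 1` the union has exactly `k` points. -/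

set_option autoImplicit false

namespace Pool.Agent.HP

open Finset

private theorem lin_single {F ι : Type} [Field F] [Fintype ι] [DecidableEq ι] (a x : ι → F)
    (b s : F) (i0 : ι) :
    ∑ i, a i * (x + Pi.single i0 s : ι → F) i + b = (∑ i, a i * x i + b) + a i0 * s := by
  have : ∀ i, a i * (x + Pi.single i0 s : ι → F) i = a i * x i + (if i = i0 then a i0 * s else 0) := by
    intro i
    rw [Pi.add_apply, mul_add]
    congr 1
    by_cases h : i = i0
    · subst h; simp
    · rw [Pi.single_eq_of_ne h, if_neg h, mul_zero]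
  rw [sum_congr rfl fun i _ => this i, sum_add_distrib, sum_ite_eq' univ i0, if_pos (mem_univ _)]
  ring

private theorem card_one {F ι : Type} [Field F] [Fintype F] [DecidableEq F] [Fintype ι]
    [DecidableEq ι] (a : ι → F) (b : F) (i0 : ι) (h : a i0 ≠ 0) :
    ((univ : Finset (ι → F)).filter (fun x => ∑ i, a i * x i + b = 0)).card * Fintype.card F =
      Fintype.card F ^ Fintype.card ι := by
  have e : ({x : ι → F // ∑ i, a i * x i + b = 0} × F) ≃ (ι → F) :=
    { toFun := fun z => z.1.1 + Pi.single i0 z.2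
      invFun := fun y => (⟨y + Pi.single i0 (-((∑ i, a i * y i + b) / a i0)), by
        rw [lin_single]
        field_simp
        ring⟩, (∑ i, a i * y i + b) / a i0)
      left_inv := by
        rintro ⟨⟨x, hx⟩, s⟩
        have e1 : (∑ i, a i * (x + Pi.single i0 s : ι → F) i + b) / a i0 = s := by
          rw [lin_single, hx, zero_add, mul_div_cancel_left₀ _ h]
        simp only [Prod.mk.injEq, Subtype.mk.injEq]
        refine ⟨?_, e1⟩
        rw [e1, add_assoc, ← Pi.single_add, add_neg_cancel, Pi.single_zero, add_zero]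
      right_inv := by
        intro y
        simp only
        rw [add_assoc, ← Pi.single_add, neg_add_cancel, Pi.single_zero, add_zero] }
  have := Fintype.card_congr e
  rw [Fintype.card_prod, Fintype.card_fun, Fintype.card_subtype] at this
  exact this

private theorem card_two {F ι : Type} [Field F] [Fintype F] [DecidableEq F] [Fintype ι]
    [DecidableEq ι] (a a' : ι → F) (b b' : F) (i0 i1 : ι) (h : a i0 ≠ 0) (h0 : a' i0 = 0)
    (h1 : a' i1 ≠ 0) :
    ((univ : Finset (ι → F)).filter (fun x => ∑ i, a i * x i + b = 0 ∧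
      ∑ i, a' i * x i + b' = 0)).card * (Fintype.card F * Fintype.card F) ≤
      Fintype.card F ^ Fintype.card ι := by
  let g : ({x : ι → F // ∑ i, a i * x i + b = 0 ∧ ∑ i, a' i * x i + b' = 0} × F × F) → (ι → F) :=
    fun z => (z.1.1 + Pi.single i0 z.2.1) + Pi.single i1 z.2.2
  have hg : Function.Injective g := by
    rintro ⟨⟨x, hx, hx'⟩, s, t⟩ ⟨⟨y, hy, hy'⟩, s', t'⟩ he
    have he' : (x + Pi.single i0 s) + Pi.single i1 t = (y + Pi.single i0 s') + Pi.single i1 t' := he
    have e1 : ∑ i : ι, a' i * ((x + Pi.single i0 s) + Pi.single i1 t : ι → F) i + b' =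
        ∑ i : ι, a' i * ((y + Pi.single i0 s') + Pi.single i1 t' : ι → F) i + b' := by rw [he']
    rw [lin_single, lin_single, lin_single, lin_single, hx', hy', h0, zero_mul, zero_mul, zero_add,
      zero_add, zero_add] at e1
    have e2 : t = t' := mul_left_cancel₀ h1 e1
    subst e2
    have he2 : x + Pi.single i0 s = y + Pi.single i0 s' := add_right_cancel he'
    have e3 : ∑ i : ι, a i * (x + Pi.single i0 s : ι → F) i + b =
        ∑ i : ι, a i * (y + Pi.single i0 s' : ι → F) i + b := by rw [he2]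
    rw [lin_single, lin_single, hx, hy, zero_add, zero_add] at e3
    have e4 : s = s' := mul_left_cancel₀ h e3
    subst e4
    have he3 : x = y := add_right_cancel he2
    subst he3
    rfl
  have := Fintype.card_le_of_injective g hg
  rw [Fintype.card_prod, Fintype.card_prod, Fintype.card_fun, Fintype.card_subtype] at this
  exact this

private theorem bonf {X K : Type} [Fintype X] [DecidableEq X] [Fintype K] [DecidableEq K]
    (P : K → X → Prop) [∀ k, DecidablePred (P k)] [DecidablePred fun x => ∃ k, P k x] {c d : ℝ}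
    (hc : ∀ k, (((univ : Finset X).filter (P k)).card : ℝ) = c)
    (hd : ∀ k k', k ≠ k' → (((univ : Finset X).filter (fun x => P k x ∧ P k' x)).card : ℝ) ≤ d) :
    2 * (Fintype.card K : ℝ) * c - ((Fintype.card K : ℝ) ^ 2 - Fintype.card K) * d ≤
        2 * (((univ : Finset X).filter (fun x => ∃ k, P k x)).card : ℝ) ∧
      (((univ : Finset X).filter (fun x => ∃ k, P k x)).card : ℝ) ≤ (Fintype.card K : ℝ) * c := by
  classical
  set ind : K → X → ℝ := fun k x => if P k x then 1 else 0 with hind
  set m : X → ℝ := fun x => ∑ k, ind k x with hm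
  have hS1 : ∑ x, m x = (Fintype.card K : ℝ) * c := by
    rw [hm, sum_comm]
    have : ∀ k ∈ (univ : Finset K), ∑ x, ind k x = c := by
      intro k _
      rw [← hc k, hind]
      simp only
      rw [sum_boole]
    rw [sum_congr rfl this, sum_const, nsmul_eq_mul, card_univ]
  have hS2 : ∑ x, m x ^ 2 ≤ (Fintype.card K : ℝ) * c +
      ((Fintype.card K : ℝ) ^ 2 - Fintype.card K) * d := by
    have e1 : ∑ x, m x ^ 2 = ∑ k, ∑ k', ∑ x, ind k x * ind k' x := by
      have : ∀ x, m x ^ 2 = ∑ k, ∑ k', ind k x * ind k' x := by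
        intro x
        rw [sq, hm, sum_mul_sum]
      rw [sum_congr rfl fun x _ => this x, sum_comm]
      refine sum_congr rfl fun k _ => ?_
      rw [sum_comm]
    have e2 : ∀ k k', ∑ x, ind k x * ind k' x ≤ (if k = k' then c - d else 0) + d := by
      intro k k'
      have e3 : ∑ x, ind k x * ind k' x =
          (((univ : Finset X).filter (fun x => P k x ∧ P k' x)).card : ℝ) := by
        rw [← sum_boole]
        refine sum_congr rfl fun x _ => ?_
        simp only [hind]
        by_cases h1 : P k x <;> by_cases h2 : P k' x <;> simp [h1, h2]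
      rw [e3]
      by_cases h : k = k'
      · subst h
        rw [if_pos rfl]
        simp only [and_self]
        rw [hc k]
        linarith
      · rw [if_neg h, zero_add]
        exact hd k k' h
    rw [e1]
    refine (sum_le_sum fun k _ => sum_le_sum fun k' _ => e2 k k').trans (le_of_eq ?_)
    simp only [sum_add_distrib, sum_ite_eq, mem_univ, if_true, sum_const, nsmul_eq_mul, card_univ]
    ring
  have hU : (((univ : Finset X).filter (fun x => ∃ k, P k x)).card : ℝ) =
      ∑ x, if ∃ k, P k x then (1 : ℝ) else 0 := by rw [sum_boole]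
  have hmn : ∀ x, m x = (((univ : Finset K).filter (fun k => P k x)).card : ℝ) := by
    intro x
    simp only [hm, hind]
    rw [sum_boole]
  constructor
  · have key : ∀ x, 0 ≤ 2 * (if ∃ k, P k x then (1 : ℝ) else 0) - 3 * m x + m x ^ 2 := by
      intro x
      rw [hmn]
      by_cases h : ∃ k, P k x
      · rw [if_pos h]
        obtain ⟨k, hk⟩ := h
        have h1 : 1 ≤ ((univ : Finset K).filter (fun k => P k x)).card :=
          card_pos.2 ⟨k, by simp [hk]⟩
        set t := ((univ : Finset K).filter (fun k => P k x)).card with ht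
        rcases Nat.lt_or_ge t 2 with h2 | h2
        · have : t = 1 := by omega
          rw [this]
          norm_num
        · have h3 : (2 : ℝ) ≤ t := by exact_mod_cast h2
          nlinarith
      · rw [if_neg h]
        have : (univ : Finset K).filter (fun k => P k x) = ∅ := by
          rw [filter_eq_empty_iff]
          intro k _ hk
          exact h ⟨k, hk⟩
        rw [this]
        simp
    have hsum := sum_nonneg fun x (_ : x ∈ (univ : Finset X)) => key x
    rw [sum_add_distrib, sum_sub_distrib, ← mul_sum, ← mul_sum, ← hU, hS1] at hsum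
    linarith
  · rw [hU, ← hS1]
    refine sum_le_sum fun x _ => ?_
    rw [hmn]
    by_cases h : ∃ k, P k x
    · rw [if_pos h]
      obtain ⟨k, hk⟩ := h
      have h1 : 1 ≤ ((univ : Finset K).filter (fun k => P k x)).card :=
        card_pos.2 ⟨k, by simp [hk]⟩
      exact_mod_cast h1
    · rw [if_neg h]
      positivity

private theorem prod_update {F ι : Type} [Field F] [Fintype ι] [DecidableEq ι] (x : ι → F)
    (i0 : ι) (s : F) : ∏ i, Function.update x i0 s i = s * ∏ i ∈ univ.erase i0, x i := by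
  rw [← mul_prod_erase univ _ (mem_univ i0), Function.update_self]
  congr 1
  exact prod_congr rfl fun i hi => Function.update_of_ne (ne_of_mem_erase hi) _ _

/-- upper bound for `G` -/
private theorem card_G_le {F ι : Type} [Field F] [Fintype F] [DecidableEq F] [Fintype ι]
    [DecidableEq ι] (a b : F) (ha : a ≠ 0) (hb : b ≠ 0) (i0 : ι) :
    ((univ : Finset (ι → F)).filter (fun x => a * ∏ i, x i = b)).card * Fintype.card F ≤
      Fintype.card F ^ Fintype.card ι := by
  let g : ({x : ι → F // a * ∏ i, x i = b} × F) → (ι → F) :=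
    fun z => Function.update z.1.1 i0 z.2
  have hg : Function.Injective g := by
    rintro ⟨⟨x, hx⟩, s⟩ ⟨⟨y, hy⟩, t⟩ he
    have he' : Function.update x i0 s = Function.update y i0 t := he
    have e1 : s = t := by
      have := congrFun he' i0
      rwa [Function.update_self, Function.update_self] at this
    have e2 : ∀ i, i ≠ i0 → x i = y i := by
      intro i hi
      have := congrFun he' i
      rwa [Function.update_of_ne hi, Function.update_of_ne hi] at this
    have e3 : ∏ i ∈ univ.erase i0, x i = ∏ i ∈ univ.erase i0, y i :=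
      prod_congr rfl fun i hi => e2 i (ne_of_mem_erase hi)
    have e4 : x i0 = y i0 := by
      rw [← mul_prod_erase univ _ (mem_univ i0)] at hx hy
      rw [← e3] at hy
      have h3 : ∏ i ∈ univ.erase i0, x i ≠ 0 := by
        intro h
        rw [h, mul_zero, mul_zero] at hx
        exact hb hx.symm
      have h4 : a * (x i0 * ∏ i ∈ univ.erase i0, x i) = a * (y i0 * ∏ i ∈ univ.erase i0, x i) :=
        hx.trans hy.symm
      exact mul_right_cancel₀ h3 (mul_left_cancel₀ ha h4)
    have e5 : x = y := by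
      funext i
      by_cases hi : i = i0
      · rw [hi, e4]
      · exact e2 i hi
    subst e1 e5
    rfl
  have := Fintype.card_le_of_injective g hg
  rw [Fintype.card_prod, Fintype.card_fun, Fintype.card_subtype] at this
  exact this

/-- lower bound for `G` -/
private theorem card_G_ge {F ι : Type} [Field F] [Fintype F] [DecidableEq F] [Fintype ι]
    [DecidableEq ι] (a b : F) (ha : a ≠ 0) (hb : b ≠ 0) (i0 : ι) :
    ((univ : Finset (ι → F)).filter (fun x => ∀ i, i ≠ i0 → x i ≠ 0)).card ≤
      ((univ : Finset (ι → F)).filter (fun x => a * ∏ i, x i = b)).card * Fintype.card F := by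
  let g : {x : ι → F // ∀ i, i ≠ i0 → x i ≠ 0} → ({x : ι → F // a * ∏ i, x i = b} × F) :=
    fun z => (⟨Function.update z.1 i0 (b / (a * ∏ i ∈ univ.erase i0, z.1 i)), by
      rw [prod_update]
      have h : ∏ i ∈ univ.erase i0, z.1 i ≠ 0 :=
        prod_ne_zero_iff.2 fun i hi => z.2 i (ne_of_mem_erase hi)
      field_simp⟩, z.1 i0)
  have hg : Function.Injective g := by
    rintro ⟨x, hx⟩ ⟨y, hy⟩ he
    have h1 := congrArg (fun w => w.1.1) he
    have h2 : x i0 = y i0 := congrArg (fun w => w.2) he
    rw [Subtype.mk.injEq]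
    funext i
    by_cases hi : i = i0
    · rw [hi, h2]
    · have h3 := congrFun h1 i
      simp only [g] at h3
      rwa [Function.update_of_ne hi, Function.update_of_ne hi] at h3
  have := Fintype.card_le_of_injective g hg
  rw [Fintype.card_prod, Fintype.card_subtype, Fintype.card_subtype] at this
  exact this

private theorem card_quad {F : Type} [Field F] [Fintype F] [DecidableEq F] (A B C : F)
    (hA : A ≠ 0) : ((univ : Finset F).filter (fun s => A * s ^ 2 + B * s + C = 0)).card ≤ 2 := by
  rcases ((univ : Finset F).filter (fun s => A * s ^ 2 + B * s + C = 0)).eq_empty_or_nonempty with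
    h | ⟨s1, h1⟩
  · rw [h]
    simp
  · have h1' := (mem_filter.1 h1).2
    refine (card_le_card (t := {s1, -B / A - s1}) ?_).trans card_le_two
    intro s hs
    have hs' := (mem_filter.1 hs).2
    rw [mem_insert, mem_singleton]
    have e : (s - s1) * (A * (s + s1) + B) = 0 := by linear_combination hs' - h1'
    rcases mul_eq_zero.1 e with h2 | h2
    · exact Or.inl (sub_eq_zero.1 h2)
    · refine Or.inr ?_
      field_simp
      linear_combination h2

/-- `G` meets a hyperplane in few points -/
private theorem card_GT {F ι : Type} [Field F] [Fintype F] [DecidableEq F] [Fintype ι]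
    [DecidableEq ι] (a b : F) (ha : a ≠ 0) (hb : b ≠ 0) (al : ι → F) (ga : F) (i0 i1 : ι)
    (hne : i0 ≠ i1) (h0 : al i0 ≠ 0) (h1 : al i1 ≠ 0) :
    ((univ : Finset (ι → F)).filter (fun x => ∑ i, al i * x i + ga = 0 ∧
      a * ∏ i, x i = b)).card * (Fintype.card F * Fintype.card F) ≤
      2 * Fintype.card F ^ Fintype.card ι := by
  set S := (univ : Finset (ι → F)).filter (fun x => ∑ i, al i * x i + ga = 0 ∧
      a * ∏ i, x i = b) with hS
  set R := (univ : Finset (ι → F)).filter (fun x =>
    ∑ i, (Pi.single i0 1 : ι → F) i * x i + 0 = 0 ∧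
      ∑ i, (Pi.single i1 1 : ι → F) i * x i + 0 = 0) with hR
  have hsing : ∀ (k : ι) (x : ι → F), ∑ i, (Pi.single k 1 : ι → F) i * x i = x k := by
    intro k x
    rw [Finset.sum_eq_single k]
    · simp
    · intro i _ hi
      rw [Pi.single_eq_of_ne hi, zero_mul]
    · intro h
      exact absurd (mem_univ _) h
  have hRc : R.card * (Fintype.card F * Fintype.card F) ≤ Fintype.card F ^ Fintype.card ι := by
    refine card_two (Pi.single i0 1) (Pi.single i1 1) 0 0 i0 i1 ?_ ?_ ?_
    · simp
    · rw [Pi.single_eq_of_ne hne]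
    · simp
  have hmain : S.card ≤ 2 * R.card := by
    refine card_le_mul_card_image_of_maps_to
      (f := fun x => Function.update (Function.update x i0 0) i1 0) ?_ 2 ?_
    · intro x _
      rw [hR, mem_filter, hsing, hsing, add_zero, add_zero]
      refine ⟨mem_univ _, ?_, ?_⟩
      · rw [Function.update_of_ne hne, Function.update_self]
      · rw [Function.update_self]
    · intro z _
      set pz := ∏ i ∈ (univ.erase i0).erase i1, z i with hpz
      set gz := ∑ i ∈ (univ.erase i0).erase i1, al i * z i with hgz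
      have hi1 : i1 ∈ univ.erase i0 := mem_erase.2 ⟨hne.symm, mem_univ _⟩
      have facts : ∀ x ∈ S.filter (fun x => Function.update (Function.update x i0 0) i1 0 = z),
          (∀ i, i ≠ i0 → i ≠ i1 → x i = z i) ∧ al i0 * x i0 + (al i1 * x i1 + gz) + ga = 0 ∧
            a * (x i0 * (x i1 * pz)) = b := by
        intro x hx
        rw [mem_filter, hS, mem_filter] at hx
        obtain ⟨⟨_, hx1, hx2⟩, hx3⟩ := hx
        have hxz : ∀ i, i ≠ i0 → i ≠ i1 → x i = z i := by
          intro i hi hi'
          rw [← hx3, Function.update_of_ne hi', Function.update_of_ne hi]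
        refine ⟨hxz, ?_, ?_⟩
        · rw [← hx1, ← add_sum_erase univ _ (mem_univ i0), ← add_sum_erase _ _ hi1]
          congr 3
          refine sum_congr rfl fun i hi => ?_
          rw [mem_erase, mem_erase] at hi
          rw [hxz i hi.2.1 hi.1]
        · rw [← hx2, ← mul_prod_erase univ _ (mem_univ i0), ← mul_prod_erase _ _ hi1]
          congr 3
          refine prod_congr rfl fun i hi => ?_
          rw [mem_erase, mem_erase] at hi
          rw [hxz i hi.2.1 hi.1]
      by_cases hp0 : pz = 0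
      · have : S.filter (fun x => Function.update (Function.update x i0 0) i1 0 = z) = ∅ := by
          rw [filter_eq_empty_iff]
          intro x hx hxz
          have h2 := (facts x (mem_filter.2 ⟨hx, hxz⟩)).2.2
          rw [hp0, mul_zero, mul_zero, mul_zero] at h2
          exact hb h2.symm
        rw [this]
        simp
      · have hA : a * pz * al i0 ≠ 0 := mul_ne_zero (mul_ne_zero ha hp0) h0
        refine (card_le_card_of_injOn (fun x => x i0) ?_ ?_).trans
          (card_quad (a * pz * al i0) (a * pz * (gz + ga)) (al i1 * b) hA)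
        · intro x hx
          obtain ⟨_, h2, h3⟩ := facts x (mem_coe.1 hx)
          rw [mem_coe, mem_filter]
          refine ⟨mem_univ _, ?_⟩
          simp only
          linear_combination (a * pz * x i0) * h2 - al i1 * h3
        · intro x hx y hy hxy
          obtain ⟨f1, f2, _⟩ := facts x (mem_coe.1 hx)
          obtain ⟨g1, g2, _⟩ := facts y (mem_coe.1 hy)
          have hxy' : x i0 = y i0 := hxy
          have h5 : x i1 = y i1 := by
            refine mul_left_cancel₀ h1 ?_
            rw [hxy'] at f2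
            linear_combination f2 - g2
          funext i
          by_cases hi : i = i0
          · rw [hi, hxy']
          · by_cases hi' : i = i1
            · rw [hi', h5]
            · rw [f1 i hi hi', g1 i hi hi']
  calc S.card * (Fintype.card F * Fintype.card F)
      ≤ 2 * R.card * (Fintype.card F * Fintype.card F) := Nat.mul_le_mul_right _ hmain
    _ = 2 * (R.card * (Fintype.card F * Fintype.card F)) := by ring
    _ ≤ _ := Nat.mul_le_mul_left _ hRc

open scoped Classical in
private theorem cV_eq {v : ℕ} (V : (p : ℕ) → (Fin v → ZMod p) → Prop) (p : ℕ) [NeZero p] :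
    cV V p = ((univ : Finset (Fin v → ZMod p)).filter (V p)).card := by
  unfold cV
  refine Finset.card_bij (fun r _ i => (r i : ZMod p)) ?_ ?_ ?_
  · intro r hr
    rw [mem_filter] at hr ⊢
    exact ⟨mem_univ _, hr.2⟩
  · intro r hr s hs h
    rw [mem_filter, Fintype.mem_piFinset] at hr hs
    funext i
    have h1 := congrFun h i
    have h2 := mem_range.1 (hr.1 i)
    have h3 := mem_range.1 (hs.1 i)
    have h4 := (ZMod.natCast_eq_natCast_iff' _ _ _).1 h1
    rwa [Nat.mod_eq_of_lt h2, Nat.mod_eq_of_lt h3] at h4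
  · intro x hx
    rw [mem_filter] at hx
    refine ⟨fun i => (x i).val, ?_, ?_⟩
    · rw [mem_filter, Fintype.mem_piFinset]
      refine ⟨fun i => mem_range.2 (ZMod.val_lt _), ?_⟩
      have : (fun i => (((x i).val : ℕ) : ZMod p)) = x := by
        funext i
        exact ZMod.natCast_zmod_val _
      rw [this]
      exact hx.2
    · funext i
      exact ZMod.natCast_zmod_val _

theorem hyq {v u : ℕ} (hv : 1 ≤ v) (hu : 1 ≤ u) (hu2 : u ≤ 2) (l : Fin v → ℕ) (A : ℕ)
    (c : Fin u → ℕ) (a b p : ℕ) (hp : p.Prime) (h5 : 5 < p)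
    (hc : ∀ i j, i ≠ j → (c i : ZMod p) ≠ c j) (ha : (a : ZMod p) ≠ 0) (hb : (b : ZMod p) ≠ 0)
    (h1 : v = 1 → ∀ j, (A : ZMod p) * 10 ^ (∑ i, l i) + (c j : ZMod p) ≠ 0)
    (h2 : v = 1 → ∀ j, (a : ZMod p) * ((A : ZMod p) * 10 ^ (∑ i, l i) + (c j : ZMod p)) +
      (b : ZMod p) ≠ 0) :
    ((v + u + 1 : ℕ) : ℝ) / p - ((v + u + 1 : ℕ) : ℝ) ^ 2 / (2 * (p : ℝ) ^ 2) ≤
        (cV (fun p x => VB l A c a b p x) p : ℝ) / (p : ℝ) ^ v ∧
      (cV (fun p x => VB l A c a b p x) p : ℝ) / (p : ℝ) ^ v ≤ ((v + u + 1 : ℕ) : ℝ) / p ∧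
      1 / (p : ℝ) ≤ (cV (fun p x => VB l A c a b p x) p : ℝ) / (p : ℝ) ^ v := by
  classical
  have : Fact p.Prime := ⟨hp⟩
  have : NeZero p := ⟨hp.ne_zero⟩
  have hp0 : (0 : ℝ) < p := by exact_mod_cast hp.pos
  have h10 : (10 : ZMod p) ≠ 0 := by
    intro h
    have h2 : ((10 : ℕ) : ZMod p) = 0 := by exact_mod_cast h
    rw [ZMod.natCast_eq_zero_iff] at h2
    have h3 : p ∣ 2 * 5 := by simpa using h2
    rcases (Nat.Prime.dvd_mul hp).1 h3 with h4 | h4
    · have := Nat.le_of_dvd (by norm_num) h4
      omega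
    · have := Nat.le_of_dvd (by norm_num) h4
      omega
  have hcard : Fintype.card (ZMod p) = p := ZMod.card p
  obtain ⟨E, hE⟩ : ∃ E : ZMod p, E = (A : ZMod p) * 10 ^ (∑ i, l i) := ⟨_, rfl⟩
  obtain ⟨al, hal⟩ : ∃ al : Fin v → ZMod p, ∀ i, al i = 10 ^ ee l i := ⟨_, fun _ => rfl⟩
  have hal0 : ∀ i, al i ≠ 0 := fun i => by rw [hal]; exact pow_ne_zero _ h10
  obtain ⟨e1, he1⟩ : ∃ e1 : Fin v → Fin v → ZMod p, ∀ i k, e1 i k = if k = i then 1 else 0 :=
    ⟨_, fun _ _ => rfl⟩
  have hsum1 : ∀ i (x : Fin v → ZMod p), ∑ k, e1 i k * x k + 0 = x i := by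
    intro i x
    rw [Finset.sum_congr rfl fun k _ => by rw [he1 i k, ite_mul, one_mul, zero_mul],
      sum_ite_eq' univ i, if_pos (mem_univ _), add_zero]
  -- the sets
  set X := (univ : Finset (Fin v → ZMod p)).filter (fun x => ∃ i, x i = 0) with hX
  set T := (univ : Finset (Fin v → ZMod p)).filter
    (fun x => ∃ j, ∑ i, al i * x i + (E + (c j : ZMod p)) = 0) with hT
  set G := (univ : Finset (Fin v → ZMod p)).filter
    (fun x => (a : ZMod p) * ∏ i, x i = (b : ZMod p)) with hG
  have hVB : ∀ x, VB l A c a b p x ↔ x ∈ (X ∪ T) ∪ G := by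
    intro x
    rw [mem_union, mem_union, hX, hT, hG, mem_filter, mem_filter, mem_filter]
    simp only [mem_univ, true_and]
    unfold VB VA
    have : ∀ j, ((A : ZMod p) * 10 ^ (∑ i, l i) + ∑ i, x i * 10 ^ ee l i + (c j : ZMod p) = 0) ↔
        (∑ i, al i * x i + (E + (c j : ZMod p)) = 0) := by
      intro j
      have e2 : ∑ k, al k * x k = ∑ i, x i * 10 ^ ee l i :=
        sum_congr rfl fun k _ => by rw [hal, mul_comm]
      rw [e2, hE]
      constructor <;> intro h <;> rw [← h] <;> ring
    simp only [this]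
  have hcv : (cV (fun p x => VB l A c a b p x) p : ℝ) = (((X ∪ T) ∪ G).card : ℝ) := by
    rw [cV_eq]
    congr 2
    ext x
    simp only [mem_filter, mem_univ, true_and]
    exact hVB x
  set q1 : ℝ := (p : ℝ) ^ v / p with hq1
  set d : ℝ := if v = 1 then 0 else (p : ℝ) ^ v / (p * p) with hd
  have hd0 : 0 ≤ d := by
    rw [hd]
    split_ifs
    · exact le_rfl
    · positivity
  -- sizes
  have one : ∀ (f : Fin v → ZMod p) (g : ZMod p) (i0 : Fin v), f i0 ≠ 0 →
      (((univ : Finset (Fin v → ZMod p)).filter (fun x => ∑ i, f i * x i + g = 0)).card : ℝ) =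
        q1 := by
    intro f g i0 hi0
    have := card_one f g i0 hi0
    rw [hcard, Fintype.card_fin] at this
    rw [hq1, eq_div_iff hp0.ne']
    exact_mod_cast this
  have two : ∀ (f f' : Fin v → ZMod p) (g g' : ZMod p) (i0 i1 : Fin v), f i0 ≠ 0 → f' i0 = 0 →
      f' i1 ≠ 0 → v ≠ 1 → (((univ : Finset (Fin v → ZMod p)).filter
        (fun x => ∑ i, f i * x i + g = 0 ∧ ∑ i, f' i * x i + g' = 0)).card : ℝ) ≤ d := by
    intro f f' g g' i0 i1 e2 e3 e4 hv1
    have := card_two f f' g g' i0 i1 e2 e3 e4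
    rw [hcard, Fintype.card_fin] at this
    rw [hd, if_neg hv1, le_div_iff₀ (by positivity)]
    exact_mod_cast this
  have hX1 : ∀ i : Fin v, (((univ : Finset (Fin v → ZMod p)).filter (fun x => x i = 0)).card : ℝ) =
      q1 := by
    intro i
    rw [← one (e1 i) 0 i (by rw [he1, if_pos rfl]; exact one_ne_zero)]
    congr 2
    exact filter_congr fun x _ => by rw [hsum1]
  have hXX : ∀ i k : Fin v, i ≠ k → (((univ : Finset (Fin v → ZMod p)).filter
      (fun x => x i = 0 ∧ x k = 0)).card : ℝ) ≤ d := by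
    intro i k hik
    have hv1 : v ≠ 1 := by
      intro h
      apply hik
      apply Fin.ext
      have := i.2
      have := k.2
      omega
    refine le_trans (le_of_eq ?_) (two (e1 i) (e1 k) 0 0 i k ?_ ?_ ?_ hv1)
    · congr 2
      exact filter_congr fun x _ => by rw [hsum1, hsum1]
    · rw [he1, if_pos rfl]
      exact one_ne_zero
    · rw [he1, if_neg hik]
    · rw [he1, if_pos rfl]
      exact one_ne_zero
  have hBX := bonf (K := Fin v) (fun i (x : Fin v → ZMod p) => x i = 0) hX1 hXX
  have hTT : ∀ j j' : Fin u, j ≠ j' → (((univ : Finset (Fin v → ZMod p)).filter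
      (fun x => ∑ i, al i * x i + (E + (c j : ZMod p)) = 0 ∧
        ∑ i, al i * x i + (E + (c j' : ZMod p)) = 0)).card : ℝ) ≤ 0 := by
    intro j j' hjj
    have : (univ : Finset (Fin v → ZMod p)).filter
      (fun x => ∑ i, al i * x i + (E + (c j : ZMod p)) = 0 ∧
        ∑ i, al i * x i + (E + (c j' : ZMod p)) = 0) = ∅ := by
      rw [filter_eq_empty_iff]
      rintro x _ ⟨hx, hx'⟩
      exact hc j j' hjj (by linear_combination hx - hx')
    rw [this]
    simp
  have hBT := bonf (K := Fin u) (fun j (x : Fin v → ZMod p) => ∑ i, al i * x i + (E + (c j : ZMod p)) = 0)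
    (fun j => one al _ ⟨0, hv⟩ (hal0 _)) hTT
  rw [Fintype.card_fin] at hBX hBT
  -- intersections
  have hXT1 : ∀ (i : Fin v) (j : Fin u), (((univ : Finset (Fin v → ZMod p)).filter
      (fun x => ∑ i, al i * x i + (E + (c j : ZMod p)) = 0 ∧ x i = 0)).card : ℝ) ≤ d := by
    intro i j
    by_cases hv1 : v = 1
    · have : (univ : Finset (Fin v → ZMod p)).filter
        (fun x => ∑ i, al i * x i + (E + (c j : ZMod p)) = 0 ∧ x i = 0) = ∅ := by
        rw [filter_eq_empty_iff]
        rintro x _ ⟨hx, hx'⟩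
        have hx0 : ∀ k, x k = 0 := by
          intro k
          have : k = i := by
            apply Fin.ext
            have := k.2
            have := i.2
            omega
          rw [this, hx']
        have e2 : ∑ k, al k * x k = 0 := sum_eq_zero fun k _ => by rw [hx0 k, mul_zero]
        rw [e2, zero_add, hE] at hx
        exact h1 hv1 j hx
      rw [this]
      simpa using hd0
    · obtain ⟨i0, hi0⟩ : ∃ i0 : Fin v, i0 ≠ i := by
        have : Nontrivial (Fin v) := Fin.nontrivial_iff_two_le.2 (by omega)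
        exact exists_ne i
      refine le_trans (le_of_eq ?_)
        (two al (e1 i) (E + (c j : ZMod p)) 0 i0 i (hal0 _) ?_ ?_ hv1)
      · congr 2
        exact filter_congr fun x _ => by rw [hsum1]
      · rw [he1, if_neg hi0]
      · rw [he1, if_pos rfl]
        exact one_ne_zero
  have hGT1 : ∀ j : Fin u, (((univ : Finset (Fin v → ZMod p)).filter
      (fun x => ∑ i, al i * x i + (E + (c j : ZMod p)) = 0 ∧
        (a : ZMod p) * ∏ i, x i = (b : ZMod p))).card : ℝ) ≤ 2 * d := by
    intro j
    by_cases hv1 : v = 1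
    · have : (univ : Finset (Fin v → ZMod p)).filter
        (fun x => ∑ i, al i * x i + (E + (c j : ZMod p)) = 0 ∧
          (a : ZMod p) * ∏ i, x i = (b : ZMod p)) = ∅ := by
        rw [filter_eq_empty_iff]
        rintro x _ ⟨hx, hx'⟩
        subst hv1
        rw [Fin.sum_univ_one] at hx
        rw [Fin.prod_univ_one] at hx'
        have e0 : al 0 = 1 := by
          rw [hal]
          have : ee l 0 = 0 := by
            unfold ee
            refine sum_eq_zero fun k hk => ?_
            rw [mem_Ioi] at hk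
            have := k.2
            have : k = 0 := Subsingleton.elim _ _
            rw [this] at hk
            exact absurd hk (lt_irrefl _)
          rw [this, pow_zero]
        rw [e0, one_mul] at hx
        refine h2 rfl j ?_
        rw [← hE, ← hx']
        linear_combination (a : ZMod p) * hx
      rw [this]
      simp only [card_empty, Nat.cast_zero]
      linarith
    · obtain ⟨i0, hi0⟩ : ∃ i0 : Fin v, i0 ≠ ⟨0, hv⟩ := by
        have : Nontrivial (Fin v) := Fin.nontrivial_iff_two_le.2 (by omega)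
        exact exists_ne _
      have := card_GT (a : ZMod p) (b : ZMod p) ha hb al (E + (c j : ZMod p)) i0 ⟨0, hv⟩ hi0
        (hal0 _) (hal0 _)
      rw [hcard, Fintype.card_fin] at this
      rw [hd, if_neg hv1, ← mul_div_assoc, le_div_iff₀ (by positivity)]
      exact_mod_cast this
  have hXT : ((X ∩ T).card : ℝ) ≤ (v : ℝ) * u * d := by
    have hsub : X ∩ T ⊆ (univ : Finset (Fin v × Fin u)).biUnion (fun z =>
        (univ : Finset (Fin v → ZMod p)).filter
          (fun x => ∑ i, al i * x i + (E + (c z.2 : ZMod p)) = 0 ∧ x z.1 = 0)) := by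
      intro x hx
      rw [mem_inter, hX, hT, mem_filter, mem_filter] at hx
      obtain ⟨⟨_, i, hi⟩, ⟨_, j, hj⟩⟩ := hx
      exact mem_biUnion.2 ⟨(i, j), mem_univ _, mem_filter.2 ⟨mem_univ _, hj, hi⟩⟩
    have h3 : ((X ∩ T).card : ℝ) ≤ ∑ z : Fin v × Fin u,
        (((univ : Finset (Fin v → ZMod p)).filter
          (fun x => ∑ i, al i * x i + (E + (c z.2 : ZMod p)) = 0 ∧ x z.1 = 0)).card : ℝ) := by
      exact_mod_cast (card_le_card hsub).trans card_biUnion_le
    refine h3.trans ((sum_le_sum fun z _ => hXT1 z.1 z.2).trans (le_of_eq ?_))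
    rw [sum_const, card_univ, Fintype.card_prod, Fintype.card_fin, Fintype.card_fin, nsmul_eq_mul]
    push_cast
    ring
  have hXG : ((((X ∪ T) ∩ G).card : ℕ) : ℝ) ≤ (u : ℝ) * (2 * d) := by
    have hsub : (X ∪ T) ∩ G ⊆ (univ : Finset (Fin u)).biUnion (fun j =>
        (univ : Finset (Fin v → ZMod p)).filter
          (fun x => ∑ i, al i * x i + (E + (c j : ZMod p)) = 0 ∧
            (a : ZMod p) * ∏ i, x i = (b : ZMod p))) := by
      intro x hx
      rw [mem_inter, mem_union, hX, hT, hG, mem_filter, mem_filter, mem_filter] at hx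
      obtain ⟨⟨_, i, hi⟩ | ⟨_, j, hj⟩, ⟨_, hg⟩⟩ := hx
      · exfalso
        rw [prod_eq_zero (mem_univ i) hi, mul_zero] at hg
        exact hb hg.symm
      · exact mem_biUnion.2 ⟨j, mem_univ _, mem_filter.2 ⟨mem_univ _, hj, hg⟩⟩
    have h3 : ((((X ∪ T) ∩ G).card : ℕ) : ℝ) ≤ ∑ j : Fin u,
        (((univ : Finset (Fin v → ZMod p)).filter
          (fun x => ∑ i, al i * x i + (E + (c j : ZMod p)) = 0 ∧
            (a : ZMod p) * ∏ i, x i = (b : ZMod p))).card : ℝ) := by
      exact_mod_cast (card_le_card hsub).trans card_biUnion_le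
    refine h3.trans ((sum_le_sum fun j _ => hGT1 j).trans (le_of_eq ?_))
    rw [sum_const, card_univ, Fintype.card_fin, nsmul_eq_mul]
  -- size of `G`
  have hG1 : (G.card : ℝ) ≤ q1 := by
    have := card_G_le (a : ZMod p) (b : ZMod p) ha hb (⟨0, hv⟩ : Fin v)
    rw [hcard, Fintype.card_fin] at this
    rw [hq1, le_div_iff₀ hp0]
    exact_mod_cast this
  have hG2 : q1 - ((v : ℝ) - 1) * d ≤ (G.card : ℝ) := by
    have h3 := card_G_ge (a : ZMod p) (b : ZMod p) ha hb (⟨0, hv⟩ : Fin v)
    rw [hcard] at h3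
    set N := (univ : Finset (Fin v → ZMod p)).filter
      (fun x => ∀ i, i ≠ (⟨0, hv⟩ : Fin v) → x i ≠ 0) with hN
    have h4 : (p : ℝ) ^ v ≤ (N.card : ℝ) + ((v : ℝ) - 1) * q1 := by
      have hcov : (univ : Finset (Fin v → ZMod p)) ⊆ N ∪
          ((univ : Finset (Fin v)).erase ⟨0, hv⟩).biUnion (fun i =>
            (univ : Finset (Fin v → ZMod p)).filter (fun x => x i = 0)) := by
        intro x _
        by_cases h : ∀ i, i ≠ (⟨0, hv⟩ : Fin v) → x i ≠ 0
        · exact mem_union_left _ (mem_filter.2 ⟨mem_univ _, h⟩)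
        · push Not at h
          obtain ⟨i, hi, hxi⟩ := h
          exact mem_union_right _ (mem_biUnion.2
            ⟨i, mem_erase.2 ⟨hi, mem_univ _⟩, mem_filter.2 ⟨mem_univ _, hxi⟩⟩)
      have h5 : ((univ : Finset (Fin v → ZMod p)).card : ℝ) ≤ (N.card : ℝ) +
          ∑ i ∈ (univ : Finset (Fin v)).erase ⟨0, hv⟩,
            (((univ : Finset (Fin v → ZMod p)).filter (fun x => x i = 0)).card : ℝ) := by
        exact_mod_cast (card_le_card hcov).trans ((card_union_le _ _).trans
          (Nat.add_le_add_left card_biUnion_le _))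
      rw [card_univ, Fintype.card_fun, hcard, Fintype.card_fin,
        sum_congr rfl fun i _ => hX1 i, sum_const, card_erase_of_mem (mem_univ _), card_univ,
        Fintype.card_fin, nsmul_eq_mul, Nat.cast_sub hv] at h5
      push_cast at h5
      exact h5
    have h5 : (N.card : ℝ) ≤ (G.card : ℝ) * p := by exact_mod_cast h3
    have h6 : (p : ℝ) ^ v = q1 * p := by
      rw [hq1]
      field_simp
    by_cases hv1 : v = 1
    · have h7 : ((v : ℝ) - 1) = 0 := by
        rw [hv1]
        norm_num
      rw [h7, zero_mul, add_zero] at h4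
      rw [h7, zero_mul, sub_zero]
      have : q1 * p ≤ (G.card : ℝ) * p := by linarith
      exact le_of_mul_le_mul_right this hp0
    · have h7 : d * p = q1 := by
        rw [hd, if_neg hv1, hq1]
        field_simp
      have : (q1 - ((v : ℝ) - 1) * d) * p ≤ (G.card : ℝ) * p := by
        have e : (q1 - ((v : ℝ) - 1) * d) * p = q1 * p - ((v : ℝ) - 1) * (d * p) := by ring
        rw [e, h7]
        linarith
      exact le_of_mul_le_mul_right this hp0
  -- the union
  have hu1 : ((X ∪ T).card : ℝ) + ((X ∩ T).card : ℝ) = (X.card : ℝ) + (T.card : ℝ) := by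
    exact_mod_cast card_union_add_card_inter X T
  have hu2' : (((X ∪ T) ∪ G).card : ℝ) + (((X ∪ T) ∩ G).card : ℝ) =
      ((X ∪ T).card : ℝ) + (G.card : ℝ) := by
    exact_mod_cast card_union_add_card_inter (X ∪ T) G
  have hK : ((v + u + 1 : ℕ) : ℝ) = (v : ℝ) + u + 1 := by push_cast; ring
  have hpv : (0 : ℝ) < (p : ℝ) ^ v := by positivity
  have hvR : (1 : ℝ) ≤ v := by exact_mod_cast hv
  have huR : (1 : ℝ) ≤ u := by exact_mod_cast hu
  have hlow : ((v : ℝ) + u + 1) * q1 - ((v : ℝ) + u + 1) ^ 2 / 2 * d ≤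
      (((X ∪ T) ∪ G).card : ℝ) := by
    have h3 : 2 * (v : ℝ) * q1 - ((v : ℝ) ^ 2 - v) * d ≤ 2 * (X.card : ℝ) := hBX.1
    have h4 : 2 * (u : ℝ) * q1 - ((u : ℝ) ^ 2 - u) * 0 ≤ 2 * (T.card : ℝ) := hBT.1
    have h6 : 0 ≤ (((u : ℝ) - 1) ^ 2 / 2 + 1 + (v : ℝ) / 2) * d := by positivity
    nlinarith
  have hup : (((X ∪ T) ∪ G).card : ℝ) ≤ ((v : ℝ) + u + 1) * q1 := by
    have h3 : (X.card : ℝ) ≤ (v : ℝ) * q1 := hBX.2
    have h4 : (T.card : ℝ) ≤ (u : ℝ) * q1 := hBT.2
    have h6 : (0 : ℝ) ≤ ((X ∩ T).card : ℝ) := Nat.cast_nonneg _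
    have h7 : (0 : ℝ) ≤ (((X ∪ T) ∩ G).card : ℝ) := Nat.cast_nonneg _
    linarith
  have hdle : d ≤ (p : ℝ) ^ v / (p * p) := by
    rw [hd]
    split_ifs
    · positivity
    · exact le_rfl
  rw [hK, hcv]
  refine ⟨?_, ?_, ?_⟩
  · rw [le_div_iff₀ hpv]
    have e : (((v : ℝ) + u + 1) / p - ((v : ℝ) + u + 1) ^ 2 / (2 * (p : ℝ) ^ 2)) * (p : ℝ) ^ v =
        ((v : ℝ) + u + 1) * q1 - ((v : ℝ) + u + 1) ^ 2 / 2 * ((p : ℝ) ^ v / (p * p)) := by
      rw [hq1]
      field_simp
    rw [e]
    have h6 : ((v : ℝ) + u + 1) ^ 2 / 2 * d ≤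
        ((v : ℝ) + u + 1) ^ 2 / 2 * ((p : ℝ) ^ v / (p * p)) :=
      mul_le_mul_of_nonneg_left hdle (by positivity)
    linarith
  · rw [div_le_iff₀ hpv]
    have e : ((v : ℝ) + u + 1) / p * (p : ℝ) ^ v = ((v : ℝ) + u + 1) * q1 := by
      rw [hq1]
      ring
    rw [e]
    exact hup
  · rw [le_div_iff₀ hpv]
    have e : 1 / (p : ℝ) * (p : ℝ) ^ v = q1 := by rw [hq1]; ring
    rw [e, ← hX1 ⟨0, hv⟩]
    have : (univ : Finset (Fin v → ZMod p)).filter (fun x => x ⟨0, hv⟩ = 0) ⊆ (X ∪ T) ∪ G := by
      intro x hx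
      rw [mem_filter] at hx
      exact mem_union_left _ (mem_union_left _ (mem_filter.2 ⟨mem_univ _, _, hx.2⟩))
    exact_mod_cast card_le_card this

end Pool.Agent.HP
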