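import Pool.Agent.HP.BTJ
import Pool.Agent.HP.CAT

/-! LEW (~200 lines): level of distribution of `f (h + q)`, `h = f m * 10^λ`, `q ∈ QS X m λ` (`λ = lm`), `δ₀ = τ/20`. Put `Z = X/m`.
`10^λ > q > Z/2` so `h ≥ 2 10^λ ≥ Z` (`f m ≥ 2`), and `h ≤ m^4 10 q ≤ 10 X^(1+3δ₀)`. Let `N₁ = h + q = m₁ t`, `t = gp N₁ ≥ X^τ`, `λ₁ = dc t`.
By `f_gp`: `f N₁ = f m₁ 10^λ₁ + t ≡ 0 (mod r)`, so `t` is in a class mod `r` given `(m₁, λ₁)`. `t` lies in
`(h/m₁, (h+Z)/m₁]`, length `L = Z/m₁` (`+1`), `m₁ ≤ (h+Z)/X^τ` so `L ≥ X^(3τ/4) ≥ r²`, `m₁ t - h = q` is prime, `t ≥ L`, `q ≥ L/2`: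
`btj` gives `≤ C L tq(r)² tq(m₁) tq(h)/(r (log X)²)`. `λ₁` takes at most 2 values for each `m₁` (`(h+Z)/h ≤ 2`), `tq h ≤ 4 tq (f m)`,
`∑_{m₁ ≤ X²} tq(m₁)/m₁ ≤ C log X` (`tq_sum`). -/

set_option autoImplicit false

namespace Pool.Agent.HP

open Finset

private lemma lew_dc_mono {a b : ℕ} (ha : 1 ≤ a) (h : a ≤ b) : dc a ≤ dc b := by
  obtain ⟨h1, h2, h3⟩ := dc_spec ha
  obtain ⟨h4, h5, h6⟩ := dc_spec (ha.trans h)
  by_contra hc
  push Not at hc
  have h7 : 10 ^ dc b ≤ 10 ^ (dc a - 1) := Nat.pow_le_pow_right (by norm_num) (by omega)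
  omega

private lemma lew_dc_two {a t : ℕ} (ha : 1 ≤ a) (h1 : a ≤ t) (h2 : t < 10 * a) :
    dc t = dc a ∨ dc t = dc a + 1 := by
  obtain ⟨h3, h4, h5⟩ := dc_spec ha
  obtain ⟨h6, h7, h8⟩ := dc_spec (ha.trans h1)
  have h10 := lew_dc_mono ha h1
  have h9 : 10 ^ (dc t - 1) < 10 ^ (dc a + 1) := by
    calc 10 ^ (dc t - 1) ≤ t := h6
      _ < 10 * a := h2
      _ < 10 * 10 ^ dc a := by omega
      _ = _ := by rw [pow_succ]; ring
  have := (Nat.pow_lt_pow_iff_right (by norm_num)).1 h9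
  omega

private lemma tq_mul_le {a b : ℕ} (ha : 1 ≤ a) (hb : 1 ≤ b) : tq (a * b) ≤ tq a * tq b := by
  unfold tq
  have h1 : (0:ℝ) < Nat.totient a := by exact_mod_cast Nat.totient_pos.2 ha
  have h2 : (0:ℝ) < Nat.totient b := by exact_mod_cast Nat.totient_pos.2 hb
  have h3 : ((Nat.totient a : ℝ)) * Nat.totient b ≤ Nat.totient (a * b) := by
    exact_mod_cast Nat.totient_super_multiplicative a b
  rw [div_mul_div_comm, Nat.cast_mul]
  exact div_le_div_of_nonneg_left (by positivity) (by positivity) h3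

private lemma tq_ten (k : ℕ) : tq (10 ^ k) ≤ 5 / 2 := by
  unfold tq
  rcases k with _ | j
  · norm_num
  · have h1 : Nat.totient (10 ^ (j + 1)) = 4 * 10 ^ j := by
      rw [show (10:ℕ) = 2 * 5 by norm_num, mul_pow, Nat.totient_mul
        (Nat.Coprime.pow _ _ (by norm_num)), Nat.totient_prime_pow_succ Nat.prime_two,
        Nat.totient_prime_pow_succ (by norm_num : Nat.Prime 5), mul_pow]
      ring
    rw [h1]
    push_cast
    rw [pow_succ, mul_comm (4:ℝ), mul_div_mul_left _ _ (by positivity)]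
    norm_num

private lemma tq_nonneg' (n : ℕ) : 0 ≤ tq n := by unfold tq; positivity

theorem lew (τ : ℝ) (hτ : 0 < τ) (hτ1 : τ ≤ 1) : ∃ C : ℝ, 0 < C ∧ ∃ X₀ : ℕ, ∀ X ≥ X₀,
    ∀ m lm r : ℕ, 2 ≤ m → (m : ℝ) ≤ (X : ℝ) ^ (τ / 20) → 1 ≤ r →
    (r : ℝ) ^ 2 ≤ (X : ℝ) ^ (τ / 2) →
    (((QS X m lm).filter (fun q => (X : ℝ) ^ τ ≤ (gp (f m * 10 ^ lm + q) : ℝ) ∧
      r ∣ f (f m * 10 ^ lm + q))).card : ℝ) ≤
      C * (X / (m * Real.log X)) * tq (f m) * tq r ^ 2 / r := by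
  obtain ⟨C₁, hC₁, hb⟩ := btj
  obtain ⟨C₂, hC₂, hs⟩ := tq_sum
  obtain ⟨X₁, hX₁⟩ : ∃ X₁ : ℕ, ∀ X : ℕ, X₁ ≤ X → (22:ℝ) ≤ (X:ℝ) ^ (3 * τ / 10) := by
    have h1 : Filter.Tendsto (fun X : ℕ => ((X : ℝ)) ^ (3 * τ / 10)) Filter.atTop Filter.atTop :=
      (tendsto_rpow_atTop (by positivity)).comp tendsto_natCast_atTop_atTop
    exact Filter.eventually_atTop.1 (h1.eventually_ge_atTop 22)
  refine ⟨80 * C₁ * C₂ / τ ^ 2, by positivity, max 3 X₁, ?_⟩
  intro X hX m lm r hm hmX hr hrX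
  have hX3n : 3 ≤ X := (le_max_left _ _).trans hX
  have hX22 := hX₁ X ((le_max_right _ _).trans hX)
  have hX3 : (3 : ℝ) ≤ X := by exact_mod_cast hX3n
  have hXpos : (0 : ℝ) < X := by linarith
  have hX1 : (1 : ℝ) ≤ X := by linarith
  have hlog : 1 ≤ Real.log X := by
    rw [Real.le_log_iff_exp_le hXpos]
    linarith [Real.exp_one_lt_three]
  have hmpos : (0 : ℝ) < m := by
    have : 0 < m := by omega
    exact_mod_cast this
  have hrpos : (0 : ℝ) < r := by exact_mod_cast hr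
  have hfm : 2 ≤ f m := hm.trans (le_f hm)
  set h : ℕ := f m * 10 ^ lm with hh
  have hh1 : 1 ≤ h := by
    rw [hh]
    have : 0 < f m * 10 ^ lm := by positivity
    omega
  -- powers of X
  have hm4 : (m : ℝ) ^ 4 ≤ (X : ℝ) ^ (τ / 5) := by
    calc (m : ℝ) ^ 4 ≤ ((X : ℝ) ^ (τ / 20)) ^ 4 := pow_le_pow_left₀ hmpos.le hmX 4
      _ = (X : ℝ) ^ (τ / 5) := by
        rw [← Real.rpow_natCast, ← Real.rpow_mul hXpos.le]
        congr 1
        push_cast
        ring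
  have hXsplit : (X : ℝ) ^ τ = (X : ℝ) ^ (τ / 5) * ((X : ℝ) ^ (τ / 2) * (X : ℝ) ^ (3 * τ / 10)) := by
    rw [← Real.rpow_add hXpos, ← Real.rpow_add hXpos]
    congr 1
    ring
  have hXh1 : (1 : ℝ) ≤ (X : ℝ) ^ (τ / 2) := Real.one_le_rpow hX1 (by positivity)
  have hm3X : 11 * m ^ 3 * X ≤ X ^ 2 := by
    have h1 : (22 : ℝ) * (m : ℝ) ^ 3 ≤ X := by
      have h2 : (m : ℝ) ^ 3 ≤ (m : ℝ) ^ 4 := by
        apply pow_le_pow_right₀ _ (by norm_num)
        have : 1 ≤ m := by omega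
        exact_mod_cast this
      have h3 : (X : ℝ) ^ (3 * τ / 10) * (X : ℝ) ^ (τ / 5) ≤ X := by
        rw [← Real.rpow_add hXpos]
        calc (X : ℝ) ^ (3 * τ / 10 + τ / 5) ≤ (X : ℝ) ^ (1 : ℝ) :=
              Real.rpow_le_rpow_of_exponent_le hX1 (by linarith)
          _ = X := Real.rpow_one _
      calc (22 : ℝ) * (m : ℝ) ^ 3 ≤ (X : ℝ) ^ (3 * τ / 10) * (X : ℝ) ^ (τ / 5) :=
            mul_le_mul hX22 (h2.trans hm4) (by positivity) (by positivity)
        _ ≤ X := h3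
    have h4 : 22 * m ^ 3 ≤ X := by exact_mod_cast h1
    calc 11 * m ^ 3 * X ≤ X * X := Nat.mul_le_mul_right _ (by omega)
      _ = X ^ 2 := by ring
  -- the fibres
  set Q : ℕ → Finset ℕ := fun m₁ =>
    (Finset.Ioc (h / m₁) (h / m₁ + (X / m / m₁ + 1))).filter (fun t =>
      (t.Prime ∧ h < m₁ * t ∧ (m₁ * t - h).Prime ∧ X / m / m₁ + 1 ≤ 2 * t ∧
        X / m / m₁ + 1 ≤ 2 * (m₁ * t - h)) ∧
      (X : ℝ) ^ τ ≤ (t : ℝ) ∧ r ∣ f m₁ * 10 ^ dc t + t ∧ m₁ * t ≤ 11 * m ^ 3 * X ∧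
      (dc t = dc (h / m₁ + 1) ∨ dc t = dc (h / m₁ + 1) + 1)) with hQ
  have htqh : tq h ≤ 5 / 2 * tq (f m) := by
    have h1 := tq_mul_le (a := f m) (b := 10 ^ lm) (by omega) (Nat.one_le_pow _ _ (by norm_num))
    have h2 := mul_le_mul_of_nonneg_left (tq_ten lm) (tq_nonneg' (f m))
    calc tq h ≤ tq (f m) * tq (10 ^ lm) := h1
      _ ≤ tq (f m) * (5 / 2) := h2
      _ = _ := by ring
  have hfib : ∀ m₁, 1 ≤ m₁ → ((Q m₁).card : ℝ) ≤
      40 * C₁ / τ ^ 2 * (X / (m * Real.log X ^ 2)) * tq (f m) * tq r ^ 2 / r * (tq m₁ / m₁) := by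
    intro m₁ hm₁
    have hm₁pos : (0 : ℝ) < m₁ := by exact_mod_cast hm₁
    have hRHS0 : 0 ≤ 40 * C₁ / τ ^ 2 * (X / (m * Real.log X ^ 2)) * tq (f m) * tq r ^ 2 / r *
        (tq m₁ / m₁) := by
      have h1 := tq_nonneg' (f m)
      have h2 := tq_nonneg' m₁
      positivity
    rcases Finset.eq_empty_or_nonempty (Q m₁) with he | ⟨t₀, ht₀⟩
    · rw [he]
      simpa using hRHS0
    · simp only [hQ, Finset.mem_filter] at ht₀
      obtain ⟨_, _, ht₀τ, _, ht₀m, _⟩ := ht₀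
      set L : ℕ := X / m / m₁ + 1 with hL
      have hkey : (2 : ℝ) * (X : ℝ) ^ (τ / 2) ≤ X / (m * m₁) := by
        rw [le_div_iff₀ (by positivity)]
        have h1 : (m₁ : ℝ) * (X : ℝ) ^ τ ≤ 11 * (m : ℝ) ^ 3 * X := by
          calc (m₁ : ℝ) * (X : ℝ) ^ τ ≤ m₁ * t₀ := by gcongr
            _ ≤ 11 * (m : ℝ) ^ 3 * X := by exact_mod_cast ht₀m
        -- 2 X^(τ/2) m m₁ ≤ X
        have h2 : (22 : ℝ) * (X : ℝ) ^ (τ / 2) * (m : ℝ) ^ 4 ≤ (X : ℝ) ^ τ := by
          rw [hXsplit]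
          calc (22 : ℝ) * (X : ℝ) ^ (τ / 2) * (m : ℝ) ^ 4
              ≤ (X : ℝ) ^ (3 * τ / 10) * (X : ℝ) ^ (τ / 2) * (X : ℝ) ^ (τ / 5) := by gcongr
            _ = _ := by ring
        have h3 : (m₁ : ℝ) * (22 * (X : ℝ) ^ (τ / 2) * (m : ℝ) ^ 4) ≤ 11 * (m : ℝ) ^ 3 * X :=
          (mul_le_mul_of_nonneg_left h2 hm₁pos.le).trans h1
        have h4 : (11 * (m : ℝ) ^ 3) * (2 * (X : ℝ) ^ (τ / 2) * (m * m₁)) ≤ (11 * (m : ℝ) ^ 3) * X := by
          calc (11 * (m : ℝ) ^ 3) * (2 * (X : ℝ) ^ (τ / 2) * (m * m₁)) =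
                (m₁ : ℝ) * (22 * (X : ℝ) ^ (τ / 2) * (m : ℝ) ^ 4) := by ring
            _ ≤ _ := h3
        exact le_of_mul_le_mul_left h4 (by positivity)
      have hLdiv : X / m / m₁ = X / (m * m₁) := Nat.div_div_eq_div_mul _ _ _
      have hLle : (L : ℝ) ≤ 2 * (X / (m * m₁)) := by
        have h1 : ((X / (m * m₁) : ℕ) : ℝ) ≤ (X : ℝ) / ((m * m₁ : ℕ) : ℝ) := Nat.cast_div_le
        push_cast at h1
        rw [hL, hLdiv]
        push_cast
        nlinarith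
      have hLge : (X : ℝ) / (m * m₁) ≤ L := by
        rw [div_le_iff₀ (by positivity), hL, hLdiv]
        have h1 : X < (X / (m * m₁) + 1) * (m * m₁) := by
          have h2 := Nat.div_add_mod X (m * m₁)
          have h3 : X % (m * m₁) < m * m₁ := Nat.mod_lt _ (by positivity)
          nlinarith
        have h4 : (X : ℝ) < ((X / (m * m₁) : ℕ) + 1) * (m * m₁) := by exact_mod_cast h1
        push_cast
        exact h4.le
      have hLbig : (2 : ℝ) * (X : ℝ) ^ (τ / 2) ≤ L := hkey.trans hLge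
      have hL2 : 2 ≤ L := by
        have : (2 : ℝ) ≤ L := by nlinarith
        exact_mod_cast this
      have hrL : r ^ 2 ≤ L := by
        have : ((r : ℝ)) ^ 2 ≤ L := by nlinarith
        exact_mod_cast this
      have hLpos : (0 : ℝ) < L := by positivity
      have hlogL : τ / 2 * Real.log X ≤ Real.log L := by
        rw [← Real.log_rpow hXpos]
        exact Real.log_le_log (by positivity) (by linarith)
      have hlogL0 : 0 < τ / 2 * Real.log X := by positivity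
      have hone : ∀ lam₁ : ℕ, (((Q m₁).filter (fun t => dc t = lam₁)).card : ℝ) ≤
          C₁ * L * tq r ^ 2 * tq m₁ * tq h / (r * Real.log L ^ 2) := by
        intro lam₁
        have hnn : 0 ≤ C₁ * L * tq r ^ 2 * tq m₁ * tq h / (r * Real.log L ^ 2) := by
          have h1 := tq_nonneg' h
          have h2 := tq_nonneg' m₁
          positivity
        rcases Finset.eq_empty_or_nonempty ((Q m₁).filter (fun t => dc t = lam₁)) with he | ⟨t₁, ht₁⟩
        · rw [he]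
          simpa using hnn
        · have hb1 := hb r t₁ (h / m₁) L m₁ h hr hL2 hrL hm₁ hh1
          refine le_trans ?_ hb1
          norm_cast
          apply Finset.card_le_card
          intro t ht
          simp only [hQ, Finset.mem_filter] at ht ht₁
          obtain ⟨⟨ht1, ht2, _, ht3, _, _⟩, ht4⟩ := ht
          obtain ⟨⟨_, _, _, hs3, _, _⟩, hs4⟩ := ht₁
          rw [Finset.mem_filter]
          refine ⟨ht1, ht2.1, ?_, ht2.2.1, ht2.2.2.1, ht2.2.2.2.1, ht2.2.2.2.2⟩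
          rw [ht4] at ht3
          rw [hs4] at hs3
          have e1 : f m₁ * 10 ^ lam₁ + t ≡ f m₁ * 10 ^ lam₁ + t₁ [MOD r] :=
            ((Nat.modEq_zero_iff_dvd.mpr ht3).trans (Nat.modEq_zero_iff_dvd.mpr hs3).symm)
          exact Nat.ModEq.add_left_cancel' _ e1
      have hcov : Q m₁ ⊆ (Q m₁).filter (fun t => dc t = dc (h / m₁ + 1)) ∪
          (Q m₁).filter (fun t => dc t = dc (h / m₁ + 1) + 1) := by
        intro t ht
        have ht' := ht
        simp only [hQ, Finset.mem_filter] at ht'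
        rw [Finset.mem_union]
        rcases ht'.2.2.2.2.2 with h1 | h1
        · left; exact Finset.mem_filter.2 ⟨ht, h1⟩
        · right; exact Finset.mem_filter.2 ⟨ht, h1⟩
      have hcard : ((Q m₁).card : ℝ) ≤ 2 * (C₁ * L * tq r ^ 2 * tq m₁ * tq h / (r * Real.log L ^ 2)) := by
        have h1 := (Finset.card_le_card hcov).trans (Finset.card_union_le _ _)
        have h2 : ((Q m₁).card : ℝ) ≤ (((Q m₁).filter (fun t => dc t = dc (h / m₁ + 1))).card : ℝ) +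
            (((Q m₁).filter (fun t => dc t = dc (h / m₁ + 1) + 1)).card : ℝ) := by exact_mod_cast h1
        linarith [hone (dc (h / m₁ + 1)), hone (dc (h / m₁ + 1) + 1)]
      refine hcard.trans ?_
      have htqm : 0 ≤ tq m₁ := tq_nonneg' m₁
      have htqf : 0 ≤ tq (f m) := tq_nonneg' (f m)
      have htqh0 : 0 ≤ tq h := tq_nonneg' h
      have hstep : C₁ * L * tq r ^ 2 * tq m₁ * tq h / (r * Real.log L ^ 2) ≤
          C₁ * (2 * (X / (m * m₁))) * tq r ^ 2 * tq m₁ * (5 / 2 * tq (f m)) /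
            (r * (τ / 2 * Real.log X) ^ 2) := by
        apply div_le_div₀ (by positivity) _ (by positivity) (by gcongr)
        gcongr
      calc 2 * (C₁ * L * tq r ^ 2 * tq m₁ * tq h / (r * Real.log L ^ 2))
          ≤ 2 * (C₁ * (2 * (X / (m * m₁))) * tq r ^ 2 * tq m₁ * (5 / 2 * tq (f m)) /
            (r * (τ / 2 * Real.log X) ^ 2)) := by linarith
        _ = _ := by
          have : Real.log X ≠ 0 := by linarith
          field_simp
          ring
  -- the map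
  have hmap : ((QS X m lm).filter (fun q => (X : ℝ) ^ τ ≤ (gp (h + q) : ℝ) ∧ r ∣ f (h + q))).card ≤
      ((Finset.Icc 1 (X ^ 2)).sigma Q).card := by
    refine Finset.card_le_card_of_injOn (fun q => ⟨(h + q) / gp (h + q), gp (h + q)⟩) ?_ ?_
    · intro q hq
      simp only [QS, Finset.coe_filter, Set.mem_ofPred_eq, Finset.mem_filter, Finset.mem_Icc] at hq
      obtain ⟨⟨⟨hq1, hqX⟩, hqp, hX2, hmq, hdc⟩, hg, hd⟩ := hq
      have hq2 := hqp.two_le
      have hN2 : 2 ≤ h + q := by omega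
      obtain ⟨hgp, hgd, hgm⟩ := gp_spec hN2
      set t := gp (h + q) with ht
      set m₁ := (h + q) / t with hm₁
      have hnm : m₁ * t = h + q := Nat.div_mul_cancel hgd
      have hm₁0 : 1 ≤ m₁ := Nat.div_pos (Nat.le_of_dvd (by omega) hgd) hgp.pos
      obtain ⟨hs1, hs2, hs3⟩ := dc_spec hq1
      rw [hdc] at hs1 hs2 hs3
      have h10 : 10 ^ lm ≤ 10 * q := by
        obtain ⟨j, hj⟩ : ∃ j, lm = j + 1 := ⟨lm - 1, by omega⟩
        rw [hj, Nat.add_sub_cancel] at hs1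
        rw [hj, pow_succ]
        omega
      have hfm4 : f m ≤ m ^ 4 := (f_lt (by omega : 1 ≤ m)).le.trans (lam_le (by omega))
      have hhle : h ≤ 10 * m ^ 3 * X := by
        calc h ≤ m ^ 4 * (10 * q) := Nat.mul_le_mul hfm4 h10
          _ = 10 * m ^ 3 * (m * q) := by ring
          _ ≤ 10 * m ^ 3 * X := Nat.mul_le_mul_left _ hmq
      have hNle : m₁ * t ≤ 11 * m ^ 3 * X := by
        rw [hnm]
        have h1 : X ≤ m ^ 3 * X := Nat.le_mul_of_pos_left _ (by positivity)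
        have h2 : 11 * m ^ 3 * X = 10 * m ^ 3 * X + m ^ 3 * X := by ring
        omega
      have hhge : 2 * 10 ^ lm ≤ h := Nat.mul_le_mul_right _ hfm
      have hqZ : q ≤ X / m := by
        rw [Nat.le_div_iff_mul_le (by omega), mul_comm]
        exact hmq
      have hZq : X / m < 2 * q := by
        rw [Nat.div_lt_iff_lt_mul (by omega)]
        calc X < 2 * (m * q) := hX2
          _ = 2 * q * m := by ring
      have hsub : m₁ * t - h = q := by omega
      have hZh : X / m / m₁ ≤ h / m₁ := Nat.div_le_div_right (by omega)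
      have hZm : X / m / m₁ ≤ X / m := Nat.div_le_self _ _
      have ht1 : h / m₁ < t := by
        rw [Nat.div_lt_iff_lt_mul (by omega), mul_comm]
        omega
      have ht2 : t ≤ h / m₁ + (X / m / m₁ + 1) := by
        by_contra hc
        push Not at hc
        have h1 : (h / m₁ + (X / m / m₁ + 1) + 1) * m₁ ≤ t * m₁ := Nat.mul_le_mul_right _ hc
        have h2 := Nat.div_add_mod h m₁
        have h3 := Nat.mod_lt h hm₁0
        have h4 := Nat.div_add_mod (X / m) m₁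
        have h5 := Nat.mod_lt (X / m) hm₁0
        nlinarith
      simp only [Finset.coe_sigma, Set.mem_sigma_iff, Finset.coe_Icc, Set.mem_Icc, hQ,
        Finset.coe_filter, Set.mem_ofPred_eq, Finset.mem_Ioc]
      rw [← ht, ← hm₁]
      refine ⟨⟨hm₁0, ?_⟩, ⟨ht1, ht2⟩, ⟨hgp, by omega, by rw [hsub]; exact hqp, by omega, by omega⟩,
        hg, ?_, hNle, ?_⟩
      · have h1 : m₁ ≤ m₁ * t := Nat.le_mul_of_pos_right _ hgp.pos
        omega
      · have := f_gp hN2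
        rw [← ht, ← hm₁] at this
        rw [← this]
        exact hd
      · apply lew_dc_two (by omega) (by omega)
        omega
    · intro a ha b hb' hab
      simp only [QS, Finset.coe_filter, Set.mem_ofPred_eq, Finset.mem_filter, Finset.mem_Icc] at ha hb'
      have key : ∀ q : ℕ, 1 ≤ q → (h + q) / gp (h + q) * gp (h + q) = h + q := by
        intro q hq
        exact Nat.div_mul_cancel (gp_spec (by omega)).2.1
      have ka := key a ha.1.1.1
      have kb := key b hb'.1.1.1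
      have e1 : (h + a) / gp (h + a) = (h + b) / gp (h + b) := congrArg Sigma.fst hab
      have e2 : gp (h + a) = gp (h + b) := congrArg (fun z : (Σ _ : ℕ, ℕ) => z.2) hab
      rw [e1, e2] at ka
      omega
  have htqf : 0 ≤ tq (f m) := tq_nonneg' (f m)
  calc (((QS X m lm).filter (fun q => (X : ℝ) ^ τ ≤ (gp (h + q) : ℝ) ∧ r ∣ f (h + q))).card : ℝ)
      ≤ (((Finset.Icc 1 (X ^ 2)).sigma Q).card : ℝ) := by exact_mod_cast hmap
    _ = ∑ m₁ ∈ Finset.Icc 1 (X ^ 2), ((Q m₁).card : ℝ) := by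
        rw [Finset.card_sigma]
        push_cast
        rfl
    _ ≤ ∑ m₁ ∈ Finset.Icc 1 (X ^ 2),
          40 * C₁ / τ ^ 2 * (X / (m * Real.log X ^ 2)) * tq (f m) * tq r ^ 2 / r * (tq m₁ / m₁) :=
        Finset.sum_le_sum fun m₁ hm₁ => hfib m₁ (Finset.mem_Icc.1 hm₁).1
    _ = 40 * C₁ / τ ^ 2 * (X / (m * Real.log X ^ 2)) * tq (f m) * tq r ^ 2 / r *
          ∑ m₁ ∈ Finset.Icc 1 (X ^ 2), tq m₁ / m₁ := by rw [Finset.mul_sum]
    _ ≤ 40 * C₁ / τ ^ 2 * (X / (m * Real.log X ^ 2)) * tq (f m) * tq r ^ 2 / r *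
          (C₂ * Real.log ((X ^ 2 : ℕ) : ℝ)) := by
        apply mul_le_mul_of_nonneg_left (hs (X ^ 2) (by nlinarith)) (by positivity)
    _ = _ := by
        have : Real.log X ≠ 0 := by linarith
        push_cast
        rw [Real.log_pow]
        push_cast
        field_simp
        ring

end Pool.Agent.HP
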