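import Pool.Agent.HP.Defs

/-! RED (~80 lines): reduction to lowest terms. For `1 ≤ b < m`, `g = gcd b m`, `m = g m'`, `b = g b'`:
`m' ≥ 2` and `F(b/m)/m = F(b'/m')/(g m')`; for fixed `(m', b')` the `g ≤ M/m'` give `∑ 1/g ≤ 1 + log M`
(`harmonic_le_one_add_log`). `M = 0, 1`: both sides are `0`. -/

set_option autoImplicit false

namespace Pool.Agent.HP

open Finset

theorem red (F : ℝ → ℝ) (hF : ∀ x, 0 ≤ F x) (M : ℕ) :
    ∑ m ∈ Finset.Icc 1 M, (∑ b ∈ Finset.Ico 1 m, F ((b : ℝ) / m)) / m ≤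
      (1 + Real.log M) *
        ∑ m ∈ Finset.Icc 2 M, (∑ b ∈ (Finset.Ico 1 m).filter (fun b => m.Coprime b),
          F ((b : ℝ) / m)) / m := by
  classical
  set S : Finset ((_ : ℕ) × ℕ) := (Finset.Icc 1 M).sigma (fun m => Finset.Ico 1 m) with hS
  set T : Finset ((_ : ℕ) × ℕ) :=
    (Finset.Icc 2 M).sigma (fun m => (Finset.Ico 1 m).filter (fun b => m.Coprime b)) with hT
  set φ : ((_ : ℕ) × ℕ) → ℕ × ((_ : ℕ) × ℕ) := fun q =>
    (q.1.gcd q.2, ⟨q.1 / q.1.gcd q.2, q.2 / q.1.gcd q.2⟩) with hφ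
  set h : ℕ × ((_ : ℕ) × ℕ) → ℝ := fun q => (1 / (q.1 : ℝ)) * (F ((q.2.2 : ℝ) / q.2.1) / q.2.1)
    with hh
  have hmem : ∀ q ∈ S, 1 ≤ q.1 ∧ q.1 ≤ M ∧ 1 ≤ q.2 ∧ q.2 < q.1 := by
    intro q hq
    rw [hS, Finset.mem_sigma, Finset.mem_Icc, Finset.mem_Ico] at hq
    exact ⟨hq.1.1, hq.1.2, hq.2.1, hq.2.2⟩
  have hinj : Set.InjOn φ S := by
    intro q _ q' _ heq
    rw [hφ] at heq
    simp only [Prod.mk.injEq, Sigma.mk.injEq, heq_eq_eq] at heq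
    obtain ⟨h1, h2, h3⟩ := heq
    have e1 : q.1 = q'.1 := by
      rw [← Nat.div_mul_cancel (Nat.gcd_dvd_left q.1 q.2),
        ← Nat.div_mul_cancel (Nat.gcd_dvd_left q'.1 q'.2), h2, h1]
    have e2 : q.2 = q'.2 := by
      rw [← Nat.div_mul_cancel (Nat.gcd_dvd_right q.1 q.2),
        ← Nat.div_mul_cancel (Nat.gcd_dvd_right q'.1 q'.2), h3, h1]
    cases q
    cases q'
    simp only at e1 e2
    subst e1
    subst e2
    rfl
  have hmaps : S.image φ ⊆ (Finset.Icc 1 M) ×ˢ T := by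
    intro y hy
    obtain ⟨q, hq, rfl⟩ := Finset.mem_image.1 hy
    obtain ⟨h1, h2, h3, h4⟩ := hmem q hq
    have hg : 0 < q.1.gcd q.2 := Nat.gcd_pos_of_pos_left _ (by omega)
    have hgle : q.1.gcd q.2 ≤ q.1 := Nat.le_of_dvd (by omega) (Nat.gcd_dvd_left _ _)
    have hlt : q.2 / q.1.gcd q.2 < q.1 / q.1.gcd q.2 :=
      Nat.div_lt_div_of_lt_of_dvd (Nat.gcd_dvd_left _ _) h4
    have hpos : 1 ≤ q.2 / q.1.gcd q.2 :=
      Nat.div_pos (Nat.le_of_dvd (by omega) (Nat.gcd_dvd_right _ _)) hg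
    rw [Finset.mem_product, hT, Finset.mem_sigma, Finset.mem_filter, Finset.mem_Icc,
      Finset.mem_Icc, Finset.mem_Ico]
    refine ⟨⟨hg, by simp only [hφ]; omega⟩, ⟨?_, ?_⟩, ⟨?_, ?_⟩, ?_⟩
    · simp only [hφ]; omega
    · simp only [hφ]; exact (Nat.div_le_self _ _).trans h2
    · simp only [hφ]; exact hpos
    · simp only [hφ]; exact hlt
    · simp only [hφ]; exact Nat.coprime_div_gcd_div_gcd hg
  have hterm : ∀ q ∈ S, F ((q.2 : ℝ) / q.1) / q.1 = h (φ q) := by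
    intro q hq
    obtain ⟨h1, h2, h3, h4⟩ := hmem q hq
    have hg : 0 < q.1.gcd q.2 := Nat.gcd_pos_of_pos_left _ (by omega)
    have hg' : ((q.1.gcd q.2 : ℕ) : ℝ) ≠ 0 := by exact_mod_cast hg.ne'
    have e1 : ((q.1 / q.1.gcd q.2 : ℕ) : ℝ) * (q.1.gcd q.2 : ℕ) = q.1 := by
      exact_mod_cast Nat.div_mul_cancel (Nat.gcd_dvd_left q.1 q.2)
    have e2 : ((q.2 / q.1.gcd q.2 : ℕ) : ℝ) * (q.1.gcd q.2 : ℕ) = q.2 := by
      exact_mod_cast Nat.div_mul_cancel (Nat.gcd_dvd_right q.1 q.2)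
    rw [hh, hφ]
    simp only
    have e3 : (q.2 : ℝ) / q.1 =
        ((q.2 / q.1.gcd q.2 : ℕ) : ℝ) / ((q.1 / q.1.gcd q.2 : ℕ) : ℝ) := by
      rw [← e1, ← e2]
      exact mul_div_mul_right _ _ hg'
    rw [e3]
    conv_lhs => rw [← e1]
    rw [div_mul_eq_div_div]
    ring
  have hL : ∑ m ∈ Finset.Icc 1 M, (∑ b ∈ Finset.Ico 1 m, F ((b : ℝ) / m)) / m =
      ∑ q ∈ S, F ((q.2 : ℝ) / q.1) / q.1 := by
    rw [hS, Finset.sum_sigma]
    refine Finset.sum_congr rfl (fun m _ => ?_)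
    rw [Finset.sum_div]
  have hR : ∑ m ∈ Finset.Icc 2 M, (∑ b ∈ (Finset.Ico 1 m).filter (fun b => m.Coprime b),
          F ((b : ℝ) / m)) / m = ∑ q ∈ T, F ((q.2 : ℝ) / q.1) / q.1 := by
    rw [hT, Finset.sum_sigma]
    refine Finset.sum_congr rfl (fun m _ => ?_)
    rw [Finset.sum_div]
  rw [hL, hR, Finset.sum_congr rfl hterm, ← Finset.sum_image (f := h) hinj]
  have hnn : ∀ q : ((_ : ℕ) × ℕ), 0 ≤ F ((q.2 : ℝ) / q.1) / q.1 :=
    fun q => div_nonneg (hF _) (Nat.cast_nonneg _)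
  calc ∑ x ∈ S.image φ, h x ≤ ∑ x ∈ (Finset.Icc 1 M) ×ˢ T, h x := by
        refine Finset.sum_le_sum_of_subset_of_nonneg hmaps (fun x _ _ => ?_)
        rw [hh]
        exact mul_nonneg (by positivity) (hnn x.2)
    _ = (∑ g ∈ Finset.Icc 1 M, 1 / (g : ℝ)) * ∑ q ∈ T, F ((q.2 : ℝ) / q.1) / q.1 := by
        rw [Finset.sum_product, Finset.sum_mul]
        refine Finset.sum_congr rfl (fun g _ => ?_)
        rw [Finset.mul_sum]
    _ ≤ (1 + Real.log M) * ∑ q ∈ T, F ((q.2 : ℝ) / q.1) / q.1 := by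
        refine mul_le_mul_of_nonneg_right ?_ (Finset.sum_nonneg (fun q _ => hnn q))
        have h1 := harmonic_le_one_add_log M
        rw [harmonic_eq_sum_Icc] at h1
        push_cast at h1
        simpa only [one_div] using h1

end Pool.Agent.HP
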