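import Pool.Agent.HP.CRT
import Pool.Agent.HP.GSL
import Pool.Agent.FHE.SVS

/-! SVG (~150 lines): the sieve for a set of vectors. Template: `Pool/Agent/FHE/SVD.lean`. `A` = primes `p` with
`k^4 < p ≤ R`, `p ∤ Δ`; `ν p = cV V p / p^v`, `F x = ∏ p ∈ A.filter (V p (x mod p)), p`, so for `d ∣ ∏ A`:
`d ∣ F x ↔ ∀ p ∈ d.primeFactors, V p (x mod p)`. The number of `x ∈ B` with `d ∣ F x` is the sum over the residue
vectors `r ∈ [0,d)^v` with that property of the numbers of `x ∈ B`, `x ≡ r (mod d)`, so by `heq` and `crt` it differs from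
`X * nuM ν d` by at most `d^v W ≤ R^(2v) W` (`d ≤ R^2`). `FHE.selberg` with `E = R^(2v) W`; `hν`: `1/p ≤ k/p - k²/(2p²)` for
`k ≥ 2`? — to be safe it is a hypothesis (`h1`). `ν/(1-ν) ≥ k/p` (`svd_ratio` in SVD.lean is private, copy it), so
`GS ≥` the sum of `gsl`, hence `X/GS ≤ X ∏(1+k/p) / (c (log R)^k)`. -/

set_option autoImplicit false

namespace Pool.Agent.HP

open Finset

private lemma svg_ratio {m p : ℕ} (hm : 1 ≤ m) (hp : m ^ 4 < p) {ν : ℝ} (hν1 : ν < 1)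
    (h : (m : ℝ) / p - (m : ℝ) ^ 2 / (2 * (p : ℝ) ^ 2) ≤ ν) : (m : ℝ) / p ≤ ν / (1 - ν) := by
  have hmp : m ≤ p := le_trans (Nat.le_self_pow (by norm_num) m) hp.le
  have hp0 : (0 : ℝ) < p := by exact_mod_cast (by omega : 0 < p)
  have hm0 : (0 : ℝ) < m := by exact_mod_cast (by omega : 0 < m)
  set y : ℝ := (m : ℝ) / p with hy
  have hy0 : 0 < y := by positivity
  have hy1 : y ≤ 1 := by
    rw [hy, div_le_one hp0]; exact_mod_cast hmp
  have h2 : (m : ℝ) ^ 2 / (2 * (p : ℝ) ^ 2) = y ^ 2 / 2 := by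
    rw [hy]; field_simp
  rw [h2] at h
  rw [le_div_iff₀ (by linarith)]
  nlinarith [mul_nonneg hy0.le (sub_nonneg.2 hy1)]

private lemma svg_prime_dvd_prod {A : Finset ℕ} (hA : ∀ p ∈ A, p.Prime) {q : ℕ} (hq : q.Prime)
    (h : q ∣ ∏ p ∈ A, p) : q ∈ A := by
  obtain ⟨a, ha, hqa⟩ := (Prime.dvd_finsetProd_iff hq.prime _).1 h
  rwa [(Nat.prime_dvd_prime_iff_eq hq (hA a ha)).1 hqa]

private lemma svg_prod_squarefree (A : Finset ℕ) (hA : ∀ p ∈ A, p.Prime) :
    Squarefree (∏ p ∈ A, p) := by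
  induction A using Finset.induction_on with
  | empty => simp
  | insert a s ha ih =>
    rw [Finset.prod_insert ha]
    have hs : ∀ p ∈ s, p.Prime := fun p hp => hA p (Finset.mem_insert_of_mem hp)
    have hap : a.Prime := hA a (Finset.mem_insert_self _ _)
    refine (Nat.squarefree_mul ?_).2 ⟨hap.prime.squarefree, ih hs⟩
    refine (Nat.Prime.coprime_iff_not_dvd hap).2 fun h => ha (svg_prime_dvd_prod hs hap h)

open scoped Classical in
/-- the number of vectors of `B` with residues in `V` modulo all primes of `d` -/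
private lemma svg_count {v : ℕ} (B : Finset (Fin v → ℕ)) (X W : ℝ)
    (V : (p : ℕ) → (Fin v → ZMod p) → Prop) {d : ℕ} (hd : Squarefree d)
    (heq : ∀ r : Fin v → ℕ,
        |((B.filter (fun x => ∀ i, x i ≡ r i [MOD d])).card : ℝ) - X / (d : ℝ) ^ v| ≤ W) :
    |((B.filter (fun x => ∀ p ∈ d.primeFactors, V p (fun i => (x i : ZMod p)))).card : ℝ) -
      X * ∏ p ∈ d.primeFactors, ((cV V p : ℝ) / (p : ℝ) ^ v)| ≤ (d : ℝ) ^ v * W := by
  have hd0 : 0 < d := Nat.pos_of_ne_zero hd.ne_zero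
  have hdR : (0 : ℝ) < d := by exact_mod_cast hd0
  set S := (Fintype.piFinset (fun _ : Fin v => Finset.range d)).filter
      (fun r => ∀ p ∈ d.primeFactors, V p (fun i => (r i : ZMod p))) with hS
  have hcard : (S.card : ℝ) = ∏ p ∈ d.primeFactors, (cV V p : ℝ) := by
    have := crt V d hd
    rw [hS, this]
    push_cast
    rfl
  have hprod : ∏ p ∈ d.primeFactors, ((cV V p : ℝ) / (p : ℝ) ^ v) = (S.card : ℝ) / (d : ℝ) ^ v := by
    rw [Finset.prod_div_distrib, ← hcard, Finset.prod_pow]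
    congr 2
    conv_rhs => rw [← Nat.prod_primeFactors_of_squarefree hd]
    push_cast
    rfl
  have hmod : ∀ (x : Fin v → ℕ) (p : ℕ), p ∣ d →
      (fun i => ((x i % d : ℕ) : ZMod p)) = (fun i => (x i : ZMod p)) := by
    intro x p hp
    funext i
    rw [ZMod.natCast_eq_natCast_iff]
    exact (Nat.mod_modEq (x i) d).of_dvd hp
  have hfib : ((B.filter (fun x => ∀ p ∈ d.primeFactors, V p (fun i => (x i : ZMod p)))).card : ℝ) =
      ∑ r ∈ S, ((B.filter (fun x => ∀ i, x i ≡ r i [MOD d])).card : ℝ) := by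
    rw [Finset.card_eq_sum_card_fiberwise (f := fun x : Fin v → ℕ => fun i => x i % d) (t := S)]
    · push_cast
      apply Finset.sum_congr rfl
      intro r hr
      congr 2
      rw [hS, Finset.mem_filter, Fintype.mem_piFinset] at hr
      obtain ⟨hr1, hr2⟩ := hr
      ext x
      simp only [Finset.mem_filter]
      constructor
      · rintro ⟨⟨hxB, -⟩, hxr⟩
        refine ⟨hxB, fun i => ?_⟩
        rw [← hxr]
        exact (Nat.mod_modEq (x i) d).symm
      · rintro ⟨hxB, hxr⟩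
        have hxr' : (fun i => x i % d) = r := by
          funext i
          have h1 := hxr i
          rw [Nat.ModEq, Nat.mod_eq_of_lt (Finset.mem_range.mp (hr1 i))] at h1
          exact h1
        refine ⟨⟨hxB, fun p hp => ?_⟩, hxr'⟩
        have h2 := hr2 p hp
        rw [← hxr'] at h2
        rwa [hmod x p (Nat.dvd_of_mem_primeFactors hp)] at h2
    · intro x hx
      have hx' := (Finset.mem_filter.mp (Finset.mem_coe.mp hx)).2
      rw [hS]
      refine Finset.mem_coe.mpr (Finset.mem_filter.mpr ⟨?_, fun p hp => ?_⟩)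
      · rw [Fintype.mem_piFinset]
        intro i
        exact Finset.mem_range.mpr (Nat.mod_lt _ hd0)
      · have := hx' p hp
        rwa [hmod x p (Nat.dvd_of_mem_primeFactors hp)]
  have hScard : (S.card : ℝ) ≤ (d : ℝ) ^ v := by
    have h1 : S.card ≤ (Fintype.piFinset (fun _ : Fin v => Finset.range d)).card :=
      Finset.card_filter_le _ _
    rw [Fintype.card_piFinset_const, Finset.card_range] at h1
    exact_mod_cast h1
  have hW : 0 ≤ W := (abs_nonneg _).trans (heq 0)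
  rw [hfib, hprod]
  have e1 : (∑ r ∈ S, ((B.filter (fun x => ∀ i, x i ≡ r i [MOD d])).card : ℝ)) -
      X * ((S.card : ℝ) / (d : ℝ) ^ v) =
      ∑ r ∈ S, (((B.filter (fun x => ∀ i, x i ≡ r i [MOD d])).card : ℝ) - X / (d : ℝ) ^ v) := by
    rw [Finset.sum_sub_distrib, Finset.sum_const, nsmul_eq_mul]
    ring
  rw [e1]
  calc _ ≤ ∑ r ∈ S, |((B.filter (fun x => ∀ i, x i ≡ r i [MOD d])).card : ℝ) - X / (d : ℝ) ^ v| :=
        Finset.abs_sum_le_sum_abs _ _
    _ ≤ ∑ r ∈ S, W := Finset.sum_le_sum fun r _ => heq r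
    _ = (S.card : ℝ) * W := by rw [Finset.sum_const, nsmul_eq_mul]
    _ ≤ (d : ℝ) ^ v * W := mul_le_mul_of_nonneg_right hScard hW

open scoped Classical in
theorem svg (v k : ℕ) (hk : 1 ≤ k) : ∃ C : ℝ, 0 < C ∧ ∀ (B : Finset (Fin v → ℕ)) (R Δ : ℕ) (X W : ℝ)
    (V : (p : ℕ) → (Fin v → ZMod p) → Prop), 2 ≤ R → 1 ≤ Δ → 0 ≤ X → 0 ≤ W →
    (∀ p : ℕ, p.Prime → k ^ 4 < p → p ≤ R → ¬ p ∣ Δ →
      (k : ℝ) / p - (k : ℝ) ^ 2 / (2 * (p : ℝ) ^ 2) ≤ (cV V p : ℝ) / (p : ℝ) ^ v ∧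
      (cV V p : ℝ) / (p : ℝ) ^ v ≤ (k : ℝ) / p ∧ 1 / (p : ℝ) ≤ (cV V p : ℝ) / (p : ℝ) ^ v) →
    (∀ d : ℕ, 1 ≤ d → d ≤ R ^ 2 → (∀ p : ℕ, p.Prime → p ∣ d → k ^ 4 < p ∧ p ≤ R ∧ ¬ p ∣ Δ) →
      ∀ r : Fin v → ℕ,
        |((B.filter (fun x => ∀ i, x i ≡ r i [MOD d])).card : ℝ) - X / (d : ℝ) ^ v| ≤ W) →
    ((B.filter (fun x => ∀ p : ℕ, p.Prime → k ^ 4 < p → p ≤ R → ¬ p ∣ Δ →
      ¬ V p (fun i => (x i : ZMod p)))).card : ℝ) ≤
      C * X * (∏ p ∈ Δ.primeFactors, (1 + (k : ℝ) / p)) / Real.log R ^ k +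
        (R : ℝ) ^ (2 * v + 4) * W := by
  obtain ⟨c, hc, hgsl⟩ := gsl k
  refine ⟨1 / c, by positivity, fun B R Δ X W V hR hΔ hX hW hV heq => ?_⟩
  have hR0 : (0 : ℝ) < R := by exact_mod_cast (by omega : 0 < R)
  have hlR : 0 < Real.log R := Real.log_pos (by exact_mod_cast (by omega : 1 < R))
  set A : Finset ℕ := (Finset.Icc 1 R).filter (fun p => p.Prime ∧ k ^ 4 < p ∧ ¬ p ∣ Δ) with hAdef
  have hA : ∀ p ∈ A, p.Prime := fun p hp => (Finset.mem_filter.1 hp).2.1
  have hAk : ∀ p ∈ A, k ^ 4 < p := fun p hp => (Finset.mem_filter.1 hp).2.2.1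
  have hAΔ : ∀ p ∈ A, ¬ p ∣ Δ := fun p hp => (Finset.mem_filter.1 hp).2.2.2
  have hAR : ∀ p ∈ A, p ≤ R := fun p hp => (Finset.mem_Icc.1 (Finset.mem_filter.1 hp).1).2
  set ν : ℕ → ℝ := fun p => (cV V p : ℝ) / (p : ℝ) ^ v with hνdef
  have hν : ∀ p ∈ A, 1 / (p : ℝ) ≤ ν p ∧ ν p < 1 := by
    intro p hp
    obtain ⟨-, h2, h3⟩ := hV p (hA p hp) (hAk p hp) (hAR p hp) (hAΔ p hp)
    refine ⟨h3, h2.trans_lt ?_⟩
    have hp0 : (0 : ℝ) < p := by exact_mod_cast (hA p hp).pos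
    rw [div_lt_one hp0]
    exact_mod_cast lt_of_le_of_lt (Nat.le_self_pow (by norm_num) k) (hAk p hp)
  have hsqf := svg_prod_squarefree A hA
  set F : (Fin v → ℕ) → ℕ := fun x =>
    ∏ p ∈ A.filter (fun p => V p (fun i => (x i : ZMod p))), p with hFdef
  have hFp : ∀ x : Fin v → ℕ, ∀ p : ℕ, p.Prime →
      (p ∣ F x ↔ p ∈ A ∧ V p (fun i => (x i : ZMod p))) := by
    intro x p hp
    constructor
    · intro h
      have := svg_prime_dvd_prod (A := A.filter (fun p => V p (fun i => (x i : ZMod p))))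
        (fun q hq => hA q (Finset.mem_filter.1 hq).1) hp h
      exact Finset.mem_filter.1 this
    · rintro ⟨h1, h2⟩
      exact Finset.dvd_prod_of_mem (fun p => p)
        (Finset.mem_filter.2 (⟨h1, h2⟩ : p ∈ A ∧ V p (fun i => (x i : ZMod p))))
  have hFd : ∀ d : ℕ, d ∣ ∏ p ∈ A, p → ∀ x : Fin v → ℕ,
      (d ∣ F x ↔ ∀ p ∈ d.primeFactors, V p (fun i => (x i : ZMod p))) := by
    intro d hd x
    constructor
    · intro h p hp
      exact ((hFp x p (Nat.prime_of_mem_primeFactors hp)).1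
        ((Nat.dvd_of_mem_primeFactors hp).trans h)).2
    · intro h
      rw [← Nat.prod_primeFactors_of_squarefree (hsqf.squarefree_of_dvd hd)]
      refine Finset.prod_dvd_prod_of_subset _ _ _ fun p hp => ?_
      exact Finset.mem_filter.2 ⟨svg_prime_dvd_prod hA (Nat.prime_of_mem_primeFactors hp)
        ((Nat.dvd_of_mem_primeFactors hp).trans hd), h p hp⟩
  set E : ℝ := (R : ℝ) ^ (2 * v) * W with hE
  have hrem : ∀ d, d ∣ ∏ p ∈ A, p → d ≤ R ^ 2 →
      |((B.filter fun x => d ∣ F x).card : ℝ) - X * FHE.nuM ν d| ≤ E := by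
    intro d hd hdR
    have hdsq := hsqf.squarefree_of_dvd hd
    have hd0 : 1 ≤ d := Nat.one_le_iff_ne_zero.2 hdsq.ne_zero
    have hdp : ∀ p : ℕ, p.Prime → p ∣ d → k ^ 4 < p ∧ p ≤ R ∧ ¬ p ∣ Δ := by
      intro p hp hpd
      have hpA := svg_prime_dvd_prod hA hp (hpd.trans hd)
      exact ⟨hAk p hpA, hAR p hpA, hAΔ p hpA⟩
    have h1 := svg_count B X W V hdsq (heq d hd0 hdR hdp)
    have h2 : (B.filter fun x => d ∣ F x) =
        B.filter (fun x => ∀ p ∈ d.primeFactors, V p (fun i => (x i : ZMod p))) :=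
      Finset.filter_congr fun x _ => hFd d hd x
    rw [h2]
    unfold FHE.nuM
    refine h1.trans ?_
    rw [hE, pow_mul]
    have h3 : (d : ℝ) ≤ (R : ℝ) ^ 2 := by exact_mod_cast hdR
    have h4 : (d : ℝ) ^ v ≤ ((R : ℝ) ^ 2) ^ v := pow_le_pow_left₀ (by positivity) h3 v
    exact mul_le_mul_of_nonneg_right h4 hW
  have hsel := FHE.selberg B F A hA ν hν hX (E := E) (R := R) (by omega) hrem
  have hsub : (B.filter (fun x => ∀ p : ℕ, p.Prime → k ^ 4 < p → p ≤ R → ¬ p ∣ Δ →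
      ¬ V p (fun i => (x i : ZMod p)))) ⊆ B.filter fun x => ∀ p ∈ A, ¬ p ∣ F x := by
    intro x hx
    rw [Finset.mem_filter] at hx ⊢
    refine ⟨hx.1, fun p hp hdvd => ?_⟩
    exact hx.2 p (hA p hp) (hAk p hp) (hAR p hp) (hAΔ p hp) ((hFp x p (hA p hp)).1 hdvd).2
  set S : ℝ := ∑ d ∈ (Finset.Icc 1 R).filter (fun d => Squarefree d ∧
        ∀ p ∈ d.primeFactors, k ^ 4 < p ∧ ¬ p ∣ Δ), (k : ℝ) ^ d.primeFactors.card / d with hSdef
  set P : ℝ := ∏ p ∈ Δ.primeFactors, (1 + (k : ℝ) / p) with hPdef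
  have hP0 : 0 < P := Finset.prod_pos fun p _ => by positivity
  have hg : c * Real.log R ^ k ≤ P * S := hgsl R Δ (by omega) hΔ
  have hGS : S ≤ FHE.GS A ν R := by
    unfold FHE.GS
    rw [hSdef]
    have hsub2 : (Finset.Icc 1 R).filter (fun d => Squarefree d ∧
        ∀ p ∈ d.primeFactors, k ^ 4 < p ∧ ¬ p ∣ Δ)
        ⊆ (∏ p ∈ A, p).divisors.filter (fun d => d ≤ R) := by
      intro d hd
      rw [Finset.mem_filter, Finset.mem_Icc] at hd
      obtain ⟨⟨hd1, hdR⟩, hdsq, hdp⟩ := hd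
      refine Finset.mem_filter.2 ⟨Nat.mem_divisors.2 ⟨?_, hsqf.ne_zero⟩, hdR⟩
      rw [← Nat.prod_primeFactors_of_squarefree hdsq]
      refine Finset.prod_dvd_prod_of_subset _ _ _ fun p hp => ?_
      refine Finset.mem_filter.2 ⟨Finset.mem_Icc.2 ⟨(Nat.prime_of_mem_primeFactors hp).one_le, ?_⟩,
        Nat.prime_of_mem_primeFactors hp, hdp p hp⟩
      exact (Nat.le_of_dvd (by omega) (Nat.dvd_of_mem_primeFactors hp)).trans hdR
    refine (Finset.sum_le_sum fun d hd => ?_).trans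
      (Finset.sum_le_sum_of_subset_of_nonneg hsub2 fun d hd _ => ?_)
    · have hd' := Finset.mem_filter.1 (hsub2 hd)
      rw [Finset.mem_filter, Finset.mem_Icc] at hd
      obtain ⟨⟨hd1, hdR⟩, hdsq, hdp⟩ := hd
      unfold FHE.gaM
      have h8 : (k : ℝ) ^ d.primeFactors.card / d = ∏ p ∈ d.primeFactors, (k : ℝ) / p := by
        rw [Finset.prod_div_distrib, Finset.prod_const]
        congr 1
        conv_lhs => rw [← Nat.prod_primeFactors_of_squarefree hdsq]
        push_cast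
        rfl
      rw [h8]
      refine Finset.prod_le_prod (fun p _ => by positivity) fun p hp => ?_
      have hpA : p ∈ A := svg_prime_dvd_prod hA (Nat.prime_of_mem_primeFactors hp)
        ((Nat.dvd_of_mem_primeFactors hp).trans (Nat.dvd_of_mem_divisors hd'.1))
      exact svg_ratio hk (hAk p hpA) (hν p hpA).2
        (hV p (hA p hpA) (hAk p hpA) (hAR p hpA) (hAΔ p hpA)).1
    · rw [Finset.mem_filter] at hd
      unfold FHE.gaM
      refine Finset.prod_nonneg fun p hp => ?_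
      have hpA : p ∈ A := svg_prime_dvd_prod hA (Nat.prime_of_mem_primeFactors hp)
        ((Nat.dvd_of_mem_primeFactors hp).trans (Nat.dvd_of_mem_divisors hd.1))
      obtain ⟨h9, h10⟩ := hν p hpA
      have : (0 : ℝ) ≤ 1 / (p : ℝ) := by positivity
      exact div_nonneg (this.trans h9) (by linarith)
  have hclog : 0 < c * Real.log R ^ k := by positivity
  have hS0 : 0 < S := by
    by_contra hn
    push Not at hn
    have := mul_nonpos_of_nonneg_of_nonpos hP0.le hn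
    linarith
  have hmain : X / FHE.GS A ν R ≤ 1 / c * X * P / Real.log R ^ k := by
    calc X / FHE.GS A ν R ≤ X / S := div_le_div_of_nonneg_left hX hS0 hGS
      _ ≤ 1 / c * X * P / Real.log R ^ k := by
        rw [div_le_div_iff₀ hS0 (by positivity)]
        have h1 : X * Real.log R ^ k = X / c * (c * Real.log R ^ k) := by field_simp
        rw [h1]
        calc X / c * (c * Real.log R ^ k) ≤ X / c * (P * S) :=
              mul_le_mul_of_nonneg_left hg (by positivity)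
          _ = 1 / c * X * P * S := by ring
  calc ((B.filter (fun x => ∀ p : ℕ, p.Prime → k ^ 4 < p → p ≤ R → ¬ p ∣ Δ →
      ¬ V p (fun i => (x i : ZMod p)))).card : ℝ)
      ≤ ((B.filter fun x => ∀ p ∈ A, ¬ p ∣ F x).card : ℝ) := by
        exact_mod_cast Finset.card_le_card hsub
    _ ≤ X / FHE.GS A ν R + (R : ℝ) ^ 4 * E := hsel
    _ ≤ 1 / c * X * P / Real.log R ^ k + (R : ℝ) ^ (2 * v + 4) * W := by
        have : (R : ℝ) ^ 4 * E = (R : ℝ) ^ (2 * v + 4) * W := by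
          rw [hE]; ring
        linarith

end Pool.Agent.HP
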