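import Pool.Agent.HP.SVG
import Pool.Agent.HP.HYP
import Pool.Agent.HP.BOX
import Pool.Agent.HP.DIG

/-! SVM (~120 lines): the sieve bound for the multiples `N` of `m` in a window. `k = v + u`. Let `B` be the set of
the `x ∈ piFinset (Ico 0 (10^(l i)))` with `m ∣ A * 10^E + ∑ x i * 10^(ee l i)`; `N ↦ (blk ...)` is a bijection from the multiples
of `m` in the window onto `B` (DIG). Apply `svg` with `X = 10^E/m`, `W` = error of `box` (with `s = 0`, `t i = 10^(l i)`,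
`c = A * 10^E`; a `d` all of whose prime factors do not divide `Δ` is coprime to `m` by `hm'`), `V = VA l A c`, `hyp`. -/

set_option autoImplicit false

namespace Pool.Agent.HP

open Finset

open scoped Classical in
theorem svm (v u : ℕ) (hv : 1 ≤ v) (hu : 1 ≤ u) : ∃ C : ℝ, 0 < C ∧
    ∀ (l : Fin v → ℕ) (A m R Δ : ℕ) (c : Fin u → ℕ), 1 ≤ m → 2 ≤ R → 1 ≤ Δ →
    (∀ p : ℕ, p.Prime → ¬ p ∣ Δ → ¬ p ∣ m) →
    (∀ p : ℕ, p.Prime → ¬ p ∣ Δ → ∀ i j, i ≠ j → (c i : ZMod p) ≠ c j) →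
    (v = 1 → ∀ p : ℕ, p.Prime → ¬ p ∣ Δ → ∀ j, ¬ p ∣ A * 10 ^ (∑ i, l i) + c j) →
    (((win A (∑ i, l i)).filter (fun N => m ∣ N ∧ ∀ p : ℕ, p.Prime → p ≤ R → ¬ p ∣ Δ →
        (∀ j, ¬ p ∣ N + c j) ∧ ∀ i, ¬ p ∣ blk (ee l i) (l i) N)).card : ℝ) ≤
      C * ((10 : ℝ) ^ (∑ i, l i) / m) * (∏ p ∈ Δ.primeFactors, (1 + ((v + u : ℕ) : ℝ) / p)) /
          Real.log R ^ (v + u) +
        (R : ℝ) ^ (2 * v + 4) *
          (Wm l m + (∑ i, (10 : ℝ) ^ (∑ j, l j) / (10 : ℝ) ^ l i) / m) := by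
  obtain ⟨C, hC, hsv⟩ := svg v (v + u) (by omega)
  refine ⟨C, hC, ?_⟩
  intro l A m R Δ c hm hR hΔ hm' hc hv1
  set E : ℕ := ∑ i, l i with hE
  set B : Finset (Fin v → ℕ) := (Fintype.piFinset (fun i => Finset.Ico 0 (10 ^ l i))).filter
    (fun x => m ∣ A * 10 ^ E + ∑ i, x i * 10 ^ ee l i) with hB
  have hW : 0 ≤ Wm l m + (∑ i, (10 : ℝ) ^ E / (10 : ℝ) ^ l i) / m := by
    have := Wm_nonneg l m
    positivity
  have hX : 0 ≤ (10 : ℝ) ^ E / m := by positivity
  have hk4 : 5 < (v + u) ^ 4 := by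
    have h2 : 2 ≤ v + u := by omega
    calc 5 < 2 ^ 4 := by norm_num
      _ ≤ (v + u) ^ 4 := Nat.pow_le_pow_left h2 4
  have main := hsv B R Δ ((10 : ℝ) ^ E / m) (Wm l m + (∑ i, (10 : ℝ) ^ E / (10 : ℝ) ^ l i) / m)
    (fun p => VA l A c p) hR hΔ hX hW ?_ ?_
  · refine le_trans ?_ main
    norm_cast
    refine Finset.card_le_card_of_injOn (fun N => fun i => blk (ee l i) (l i) N) ?_ ?_
    · intro N hN
      simp only [Finset.coe_filter, Set.mem_ofPred_eq] at hN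
      obtain ⟨hNw, hmN, hNp⟩ := hN
      have hinv := dig_inv l A N hNw
      have hval : A * 10 ^ E + ∑ i, blk (ee l i) (l i) N * 10 ^ ee l i = N := by
        conv_rhs => rw [hinv]
        rfl
      simp only [Finset.coe_filter, Set.mem_ofPred_eq]
      refine ⟨?_, ?_⟩
      · rw [hB, Finset.mem_filter, Fintype.mem_piFinset]
        refine ⟨fun i => Finset.mem_Ico.2 ⟨Nat.zero_le _, blk_lt l i N⟩, ?_⟩
        rw [hval]
        exact hmN
      · intro p hp hkp hpR hpΔ hV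
        obtain ⟨h1, h2⟩ := hNp p hp hpR hpΔ
        rcases hV with ⟨i, hi⟩ | ⟨j, hj⟩
        · exact h2 i ((ZMod.natCast_eq_zero_iff _ _).1 hi)
        · apply h1 j
          rw [← ZMod.natCast_eq_zero_iff]
          rw [← hval]
          push_cast
          exact hj
    · intro N hN N' hN' h
      simp only [Finset.coe_filter, Set.mem_ofPred_eq] at hN hN'
      rw [dig_inv l A N hN.1, dig_inv l A N' hN'.1]
      have h' : (fun i => blk (ee l i) (l i) N) = (fun i => blk (ee l i) (l i) N') := h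
      rw [h']
  · intro p hp hkp hpR hpΔ
    refine hyp hv hu l A c p hp (by omega) (hc p hp hpΔ) ?_
    intro hv' j hj
    apply hv1 hv' p hp hpΔ j
    rw [← ZMod.natCast_eq_zero_iff]
    push_cast
    exact hj
  · intro d hd hdR hdp r
    have hmd : m.Coprime d := by
      rw [Nat.coprime_iff_gcd_eq_one]
      by_contra hne
      obtain ⟨p, hp, hpd⟩ := Nat.exists_prime_and_dvd hne
      have h1 := (Nat.dvd_gcd_iff.1 hpd).1
      have h2 := (Nat.dvd_gcd_iff.1 hpd).2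
      exact hm' p hp (hdp p hp h2).2.2 h1
    have hb := box l m d (A * 10 ^ E) hm hd hmd (fun _ => 0) (fun i => 10 ^ l i) r
      (fun i => ⟨Nat.zero_le _, le_rfl⟩)
    have hfil : (B.filter (fun x => ∀ i, x i ≡ r i [MOD d])).card =
        ((Fintype.piFinset (fun i => Finset.Ico 0 (10 ^ l i))).filter
        (fun x => (∀ i, x i ≡ r i [MOD d]) ∧ m ∣ A * 10 ^ E + ∑ i, x i * 10 ^ ee l i)).card := by
      rw [hB, Finset.filter_filter]
      congr 1
      ext x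
      simp only [Finset.mem_filter]
      tauto
    rw [hfil]
    have hprod : (∏ i, (((10 ^ l i : ℕ) : ℝ) - ((0 : ℕ) : ℝ))) = (10 : ℝ) ^ E := by
      simp [hE, Finset.prod_pow_eq_pow_sum]
    rw [hprod] at hb
    have hXd : (10 : ℝ) ^ E / m / (d : ℝ) ^ v = (10 : ℝ) ^ E / (m * d ^ v) := by
      rw [div_div]
    rw [hXd]
    convert hb using 1

end Pool.Agent.HP
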