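import Pool.Agent.HP.HYQ
import Pool.Agent.HP.SVG
import Pool.Agent.HP.BOX
import Pool.Agent.HP.DIG

/-! SVN (~130 lines): as SVM, for a box and with the additional condition. `k = v + u + 1`; `B` = the `x ∈ piFinset (Ico (s i) (t i))` with
`m ∣ A * 10^E + ∑ x i * 10^(ee l i)`; `svg` with `X = ∏ (t i - s i)/m`, `W` = error of `box` (`c = A * 10^E`), `V = VB l A c a b`, `hyq`. -/

set_option autoImplicit false

namespace Pool.Agent.HP

open Finset

open scoped Classical in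
theorem svn (v u : ℕ) (hv : 1 ≤ v) (hu : 1 ≤ u) (hu2 : u ≤ 2) : ∃ C : ℝ, 0 < C ∧
    ∀ (l : Fin v → ℕ) (A m R Δ a b : ℕ) (c : Fin u → ℕ) (s t : Fin v → ℕ),
    1 ≤ m → 2 ≤ R → 1 ≤ Δ → (∀ i, s i ≤ t i ∧ t i ≤ 10 ^ l i) →
    (∀ p : ℕ, p.Prime → ¬ p ∣ Δ → ¬ p ∣ m ∧ ¬ p ∣ a ∧ ¬ p ∣ b) →
    (∀ p : ℕ, p.Prime → ¬ p ∣ Δ → ∀ i j, i ≠ j → (c i : ZMod p) ≠ c j) →
    (v = 1 → ∀ p : ℕ, p.Prime → ¬ p ∣ Δ → ∀ j, ¬ p ∣ A * 10 ^ (∑ i, l i) + c j ∧
      ¬ p ∣ a * (A * 10 ^ (∑ i, l i) + c j) + b) →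
    (((win A (∑ i, l i)).filter (fun N => m ∣ N ∧
        (∀ i, s i ≤ blk (ee l i) (l i) N ∧ blk (ee l i) (l i) N < t i) ∧
        ∀ p : ℕ, p.Prime → p ≤ R → ¬ p ∣ Δ →
          (∀ j, ¬ p ∣ N + c j) ∧ (∀ i, ¬ p ∣ blk (ee l i) (l i) N) ∧
          ¬ a * ∏ i, blk (ee l i) (l i) N ≡ b [MOD p])).card : ℝ) ≤
      C * ((∏ i, ((t i : ℝ) - s i)) / m) *
          (∏ p ∈ Δ.primeFactors, (1 + ((v + u + 1 : ℕ) : ℝ) / p)) / Real.log R ^ (v + u + 1) +
        (R : ℝ) ^ (2 * v + 4) *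
          (Wm l m + (∑ i, (10 : ℝ) ^ (∑ j, l j) / (10 : ℝ) ^ l i) / m) := by
  obtain ⟨C, hC, hsv⟩ := svg v (v + u + 1) (by omega)
  refine ⟨C, hC, ?_⟩
  intro l A m R Δ a b c s t hm hR hΔ hst hm' hc hv1
  set E : ℕ := ∑ i, l i with hE
  set B : Finset (Fin v → ℕ) := (Fintype.piFinset (fun i => Finset.Ico (s i) (t i))).filter
    (fun x => m ∣ A * 10 ^ E + ∑ i, x i * 10 ^ ee l i) with hB
  have hW : 0 ≤ Wm l m + (∑ i, (10 : ℝ) ^ E / (10 : ℝ) ^ l i) / m := by
    have := Wm_nonneg l m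
    positivity
  have hX : 0 ≤ (∏ i, ((t i : ℝ) - s i)) / m := by
    have h1 : 0 ≤ ∏ i, ((t i : ℝ) - s i) := by
      refine Finset.prod_nonneg fun i _ => ?_
      have := (hst i).1
      have h2 : (s i : ℝ) ≤ t i := by exact_mod_cast this
      linarith
    positivity
  have hk4 : 5 < (v + u + 1) ^ 4 := by
    have h2 : 2 ≤ v + u + 1 := by omega
    calc 5 < 2 ^ 4 := by norm_num
      _ ≤ (v + u + 1) ^ 4 := Nat.pow_le_pow_left h2 4
  have main := hsv B R Δ ((∏ i, ((t i : ℝ) - s i)) / m)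
    (Wm l m + (∑ i, (10 : ℝ) ^ E / (10 : ℝ) ^ l i) / m)
    (fun p => VB l A c a b p) hR hΔ hX hW ?_ ?_
  · refine le_trans ?_ main
    norm_cast
    refine Finset.card_le_card_of_injOn (fun N => fun i => blk (ee l i) (l i) N) ?_ ?_
    · intro N hN
      simp only [Finset.coe_filter, Set.mem_ofPred_eq] at hN
      obtain ⟨hNw, hmN, hbox, hNp⟩ := hN
      have hinv := dig_inv l A N hNw
      have hval : A * 10 ^ E + ∑ i, blk (ee l i) (l i) N * 10 ^ ee l i = N := by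
        conv_rhs => rw [hinv]
        rfl
      simp only [Finset.coe_filter, Set.mem_ofPred_eq]
      refine ⟨?_, ?_⟩
      · rw [hB, Finset.mem_filter, Fintype.mem_piFinset]
        refine ⟨fun i => Finset.mem_Ico.2 (hbox i), ?_⟩
        rw [hval]
        exact hmN
      · intro p hp hkp hpR hpΔ hV
        obtain ⟨h1, h2, h3⟩ := hNp p hp hpR hpΔ
        rcases hV with (⟨i, hi⟩ | ⟨j, hj⟩) | hG
        · exact h2 i ((ZMod.natCast_eq_zero_iff _ _).1 hi)
        · apply h1 j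
          rw [← ZMod.natCast_eq_zero_iff]
          rw [← hval]
          push_cast
          exact hj
        · apply h3
          rw [← ZMod.natCast_eq_natCast_iff]
          push_cast
          exact hG
    · intro N hN N' hN' h
      simp only [Finset.coe_filter, Set.mem_ofPred_eq] at hN hN'
      rw [dig_inv l A N hN.1, dig_inv l A N' hN'.1]
      have h' : (fun i => blk (ee l i) (l i) N) = (fun i => blk (ee l i) (l i) N') := h
      rw [h']
  · intro p hp hkp hpR hpΔ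
    refine hyq hv hu hu2 l A c a b p hp (by omega) (hc p hp hpΔ) ?_ ?_ ?_ ?_
    · rw [Ne, ZMod.natCast_eq_zero_iff]
      exact (hm' p hp hpΔ).2.1
    · rw [Ne, ZMod.natCast_eq_zero_iff]
      exact (hm' p hp hpΔ).2.2
    · intro hv' j hj
      apply (hv1 hv' p hp hpΔ j).1
      rw [← ZMod.natCast_eq_zero_iff]
      push_cast
      exact hj
    · intro hv' j hj
      apply (hv1 hv' p hp hpΔ j).2
      rw [← ZMod.natCast_eq_zero_iff]
      push_cast
      exact hj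
  · intro d hd hdR hdp r
    have hmd : m.Coprime d := by
      rw [Nat.coprime_iff_gcd_eq_one]
      by_contra hne
      obtain ⟨p, hp, hpd⟩ := Nat.exists_prime_and_dvd hne
      have h1 := (Nat.dvd_gcd_iff.1 hpd).1
      have h2 := (Nat.dvd_gcd_iff.1 hpd).2
      exact (hm' p hp (hdp p hp h2).2.2).1 h1
    have hb := box l m d (A * 10 ^ E) hm hd hmd s t r hst
    have hfil : (B.filter (fun x => ∀ i, x i ≡ r i [MOD d])).card =
        ((Fintype.piFinset (fun i => Finset.Ico (s i) (t i))).filter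
        (fun x => (∀ i, x i ≡ r i [MOD d]) ∧ m ∣ A * 10 ^ E + ∑ i, x i * 10 ^ ee l i)).card := by
      rw [hB, Finset.filter_filter]
      congr 1
      ext x
      simp only [Finset.mem_filter]
      tauto
    rw [hfil]
    have hXd : (∏ i, ((t i : ℝ) - s i)) / m / (d : ℝ) ^ v =
        (∏ i, ((t i : ℝ) - s i)) / (m * d ^ v) := by
      rw [div_div]
    rw [hXd]
    convert hb using 1

end Pool.Agent.HP
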